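import Pool.Agent.Work.MP_223b32_ft.Interface3

namespace Pool.FT

open Finset

/-- the values of a character at units have absolute value `1` -/
theorem ABS_unit (F : Type) [Field F] [Fintype F] (χ : MulChar F ℂ) (u : Fˣ) :
    ‖χ (u : F)‖ = 1 := by
  classical
  have h1 : (χ (u : F)) ^ Fintype.card Fˣ = 1 := by
    rw [← map_pow, ← Units.val_pow_eq_pow_val, pow_card_eq_one, Units.val_one, map_one]
  exact (pow_eq_one_iff_of_nonneg (norm_nonneg _) Fintype.card_ne_zero).1 (by rw [← norm_pow, h1, norm_one])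

/-- the absolute value of a Gauss sum -/
theorem ABS_gauss (F : Type) [Field F] [Fintype F] (χ : MulChar F ℂ) (hχ : χ ≠ 1)
    (ψ : AddChar F ℂ) (hψ : ψ.IsPrimitive) :
    ‖gaussSum χ ψ‖ ^ 2 = (Fintype.card F : ℝ) := by
  have h1 := gaussSum_mul_gaussSum_eq_card hχ hψ
  rw [← star_gaussSum_eq] at h1
  have h2 : ‖gaussSum χ ψ * star (gaussSum χ ψ)‖ = ‖((Fintype.card F : ℕ) : ℂ)‖ := by
    rw [h1]
  rw [norm_mul, norm_star, Complex.norm_natCast] at h2
  rw [sq, h2]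

theorem ABS_lam (hGJA : Stmt_GJA) (F : Type) [Field F] [Fintype F] (χ : MulChar F ℂ) (m : ℕ)
    [NeZero m] (hm : orderOf χ = m) (n : ℕ) (c : Fin (n + 2) → Fˣ) (b : Cls m n) :
    ‖lam χ c b‖ ^ 2 = (Fintype.card F : ℝ) ^ degC b := by
  classical
  rcases b with r | a
  · simp only [lam, degC, norm_pow, Complex.norm_natCast]
    rw [← pow_mul, mul_comm]
  · set q : ℕ := Fintype.card F with hq
    have hq1 : 1 < q := Fintype.one_lt_card
    let ψ := AddChar.FiniteField.primitiveChar_to_Complex F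
    have hψ : ψ.IsPrimitive := AddChar.FiniteField.primitiveChar_to_Complex_isPrimitive F
    have hψ1 : ψ ≠ 1 := by
      intro h
      have h1 := hψ (one_ne_zero (α := F))
      apply h1
      rw [h]
      ext x
      simp
    have hJ := hGJA F ℂ ψ hψ1 m χ hm (n + 2) a.1 (by omega) a.2.1 a.2.2
    have hχa : ∀ k, χ ^ (a.1 k).val ≠ 1 := by
      intro k hk
      have h1 := orderOf_dvd_of_pow_eq_one hk
      rw [hm] at h1
      have h2 : (a.1 k).val < m := ZMod.val_lt _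
      have h3 : (a.1 k).val = 0 := Nat.eq_zero_of_dvd_of_lt h1 h2
      exact a.2.1 k ((ZMod.val_eq_zero _).1 h3)
    have hJn : ((q : ℝ) * ‖Jac χ a.1‖) ^ 2 = ((q : ℝ) - 1) ^ 2 * (q : ℝ) ^ (n + 2) := by
      have h1 : ‖((q : ℕ) : ℂ) * Jac χ a.1‖
          = ‖(((q : ℕ) : ℂ) - 1) * ∏ k, gaussSum (χ ^ (a.1 k).val) ψ‖ := by
        rw [hq, hJ]
      rw [norm_mul, norm_mul, Complex.norm_natCast, norm_prod] at h1
      rw [h1, mul_pow, ← Finset.prod_pow]
      have h2 : ∀ k ∈ (univ : Finset (Fin (n + 2))),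
          ‖gaussSum (χ ^ (a.1 k).val) ψ‖ ^ 2 = (q : ℝ) :=
        fun k _ => ABS_gauss F _ (hχa k) ψ hψ
      rw [Finset.prod_congr rfl h2, Finset.prod_const, Finset.card_univ, Fintype.card_fin]
      congr 2
      have h3 : (((q : ℕ) : ℂ) - 1) = (((q : ℝ) - 1 : ℝ) : ℂ) := by push_cast; rfl
      rw [h3, Complex.norm_real, Real.norm_of_nonneg]
      have : (1 : ℝ) < q := by exact_mod_cast hq1
      linarith
    have hc : ‖∏ k, (χ ^ (a.1 k).val)⁻¹ (c k : F)‖ = 1 := by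
      rw [norm_prod]
      exact Finset.prod_eq_one fun k _ => ABS_unit F _ (c k)
    have hq0 : (0 : ℝ) < q := by exact_mod_cast (by omega : 0 < q)
    have hqm : (0 : ℝ) < (q : ℝ) - 1 := by
      have : (1 : ℝ) < q := by exact_mod_cast hq1
      linarith
    have hd : ‖(((q : ℕ) : ℂ) - 1)‖ = (q : ℝ) - 1 := by
      have h3 : (((q : ℕ) : ℂ) - 1) = (((q : ℝ) - 1 : ℝ) : ℂ) := by push_cast; rfl
      rw [h3, Complex.norm_real, Real.norm_of_nonneg hqm.le]
    have hneg : ‖((-1 : ℂ)) ^ n‖ = 1 := by rw [norm_pow, norm_neg, norm_one, one_pow]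
    simp only [lam, degC]
    rw [norm_mul, norm_mul, hneg, hc, norm_div, ← hq, hd, one_mul, one_mul, div_pow]
    rw [div_eq_iff (pow_pos hqm 2).ne']
    have h5 : (q : ℝ) ^ 2 * ‖Jac χ a.1‖ ^ 2 = (q : ℝ) ^ 2 * ((q : ℝ) ^ n * ((q : ℝ) - 1) ^ 2) := by
      rw [← mul_pow, hJn]
      ring
    exact mul_left_cancel₀ (pow_pos hq0 2).ne' h5

theorem p_ABS (hGJA : Stmt_GJA) : Stmt_ABS := by
  intro F _ _ χ m _ hm ι _ n c b j hj
  have h1 : ‖eigP χ c b‖ ^ 2 = ((Fintype.card F : ℝ) ^ j) ^ 2 := by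
    unfold eigP
    rw [norm_prod, ← Finset.prod_pow, Finset.prod_congr rfl
      (fun i _ => ABS_lam hGJA F χ m hm (n i) (c i) (b i)), Finset.prod_pow_eq_pow_sum]
    unfold degP at hj
    rw [hj, ← pow_mul, mul_comm 2 j]
  exact (pow_left_inj₀ (norm_nonneg _) (by positivity) two_ne_zero).1 h1

end Pool.FT
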