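import Pool.Agent.Work.MP_223b32_ft.Interface3

/-! Block ANA: the pole at the edge. -/

set_option autoImplicit false

namespace Pool.FT

open Finset Filter Topology

theorem ANA_norm (q : ℕ) (hq : 2 ≤ q) (l : ℂ) (j : ℕ) (hl : ‖l‖ = (q : ℝ) ^ j) (s : ℝ) :
    ‖l * (q : ℂ) ^ (-(s : ℂ))‖ = (q : ℝ) ^ ((j : ℝ) - s) := by
  have hq0 : (0 : ℝ) < q := by positivity
  rw [norm_mul, hl, Complex.norm_natCast_cpow_of_pos (by omega), Complex.neg_re,
    Complex.ofReal_re, ← Real.rpow_natCast, ← Real.rpow_add hq0, sub_eq_add_neg]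

theorem ANA_le (q : ℕ) (hq : 2 ≤ q) (l : ℂ) (j r : ℕ) (hl : ‖l‖ = (q : ℝ) ^ j) (s : ℝ)
    (hs : (j : ℝ) + r ≤ s) : ‖l * (q : ℂ) ^ (-(s : ℂ))‖ * (q : ℝ) ^ r ≤ 1 := by
  have hq0 : (0 : ℝ) < q := by positivity
  have hq1 : (1 : ℝ) ≤ q := by exact_mod_cast (by omega : 1 ≤ q)
  rw [ANA_norm q hq l j hl s, ← Real.rpow_natCast (q : ℝ) r, ← Real.rpow_add hq0]
  exact Real.rpow_le_one_of_one_le_of_nonpos hq1 (by linarith)

theorem ANA_lt (q : ℕ) (hq : 2 ≤ q) (l : ℂ) (j r : ℕ) (hl : ‖l‖ = (q : ℝ) ^ j) (s : ℝ)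
    (hs : (j : ℝ) + r < s) : ‖l * (q : ℂ) ^ (-(s : ℂ))‖ * (q : ℝ) ^ r < 1 := by
  have hq0 : (0 : ℝ) < q := by positivity
  have hq1 : (1 : ℝ) < q := by exact_mod_cast (by omega : 1 < q)
  rw [ANA_norm q hq l j hl s, ← Real.rpow_natCast (q : ℝ) r, ← Real.rpow_add hq0]
  exact Real.rpow_lt_one_of_one_lt_of_neg hq1 (by linarith)

/-- the logarithm series without its main part -/
noncomputable def ANA_phi (S : ℕ → ℂ) (x : ℂ) (T : ℂ) : ℂ :=
  ∑' n : ℕ, (S (n + 1) - x ^ (n + 1)) * T ^ (n + 1) / ((n : ℂ) + 1)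

/-- the value of the product -/
theorem ANA_val (S : ℕ → ℂ) (x T L : ℂ) (h : ‖x * T‖ < 1)
    (hS : HasSum (fun n : ℕ => S (n + 1) * T ^ (n + 1) / ((n : ℂ) + 1)) L) :
    Complex.exp L = (1 - x * T)⁻¹ * Complex.exp (ANA_phi S x T) := by
  have h1 : HasSum (fun n : ℕ => (x * T) ^ (n + 1) / ((n : ℂ) + 1)) (-Complex.log (1 - x * T)) := by
    have h2 := Complex.hasSum_taylorSeries_neg_log h
    have h3 := (hasSum_nat_add_iff' 1).2 h2
    simp only [Finset.range_one, Finset.sum_singleton, Nat.cast_zero, div_zero, sub_zero,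
      Nat.cast_add, Nat.cast_one] at h3
    exact h3
  have h2 := hS.sub h1
  have h3 : (fun n : ℕ => S (n + 1) * T ^ (n + 1) / ((n : ℂ) + 1) -
      (x * T) ^ (n + 1) / ((n : ℂ) + 1)) =
      fun n : ℕ => (S (n + 1) - x ^ (n + 1)) * T ^ (n + 1) / ((n : ℂ) + 1) := by
    funext n
    rw [mul_pow, ← sub_div, sub_mul]
  rw [h3] at h2
  have h4 : ANA_phi S x T = L - -Complex.log (1 - x * T) := h2.tsum_eq
  have hne : 1 - x * T ≠ 0 := by
    intro h0
    have : x * T = 1 := (sub_eq_zero.1 h0).symm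
    rw [this, norm_one] at h
    exact lt_irrefl _ h
  rw [h4, sub_neg_eq_add, Complex.exp_add, Complex.exp_log hne, mul_comm (Complex.exp L),
    ← mul_assoc, inv_mul_cancel₀ hne, one_mul]

/-- continuity up to the edge -/
theorem ANA_cont (q : ℕ) (hq : 2 ≤ q) (l : ℂ) (j r : ℕ) (hl : ‖l‖ = (q : ℝ) ^ j) (S : ℕ → ℂ)
    (x : ℂ) (B : ℝ) (hS : ∀ n : ℕ, 0 < n → ‖S n - x ^ n‖ ≤ B * ((q : ℝ) ^ r / √q) ^ n) :
    Tendsto (fun s : ℝ => ANA_phi S x (l * (q : ℂ) ^ (-(s : ℂ)))) (𝓝[>] ((j : ℝ) + r))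
      (𝓝 (ANA_phi S x (l * (q : ℂ) ^ (-(((j : ℝ) + r : ℝ) : ℂ))))) := by
  have hq0 : (0 : ℝ) < q := by positivity
  have hq1 : (1 : ℝ) < q := by exact_mod_cast (by omega : 1 < q)
  have hqc : (q : ℂ) ≠ 0 := by exact_mod_cast (by omega : q ≠ 0)
  have hsq : (0 : ℝ) < √q := Real.sqrt_pos.2 hq0
  have hsq1 : (1 / √q : ℝ) < 1 := by
    rw [div_lt_one hsq]
    rw [show (1 : ℝ) = √1 from Real.sqrt_one.symm]
    exact Real.sqrt_lt_sqrt zero_le_one hq1
  have hB : 0 ≤ |B| := abs_nonneg B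
  refine tendsto_tsum_of_dominated_convergence
    (bound := fun n : ℕ => |B| * (1 / √q) ^ (n + 1)) ?_ ?_ ?_
  · refine Summable.mul_left _ ?_
    exact (summable_nat_add_iff 1).2 (summable_geometric_of_lt_one (by positivity) hsq1)
  · intro n
    have hc : Continuous fun s : ℝ => (S (n + 1) - x ^ (n + 1)) *
        (l * (q : ℂ) ^ (-(s : ℂ))) ^ (n + 1) / ((n : ℂ) + 1) := by
      refine Continuous.div_const ?_ _
      refine continuous_const.mul ((continuous_const.mul ?_).pow _)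
      refine continuous_iff_continuousAt.2 fun s => ?_
      exact (Complex.continuous_ofReal.neg.continuousAt).const_cpow (Or.inl hqc)
    exact (hc.tendsto _).mono_left nhdsWithin_le_nhds
  · filter_upwards [self_mem_nhdsWithin] with s hs
    intro n
    have h1 := ANA_le q hq l j r hl s (le_of_lt hs)
    have h2 := hS (n + 1) (Nat.succ_pos n)
    have h3 : ‖((n : ℂ) + 1)‖ = (n : ℝ) + 1 := by
      rw [show ((n : ℂ) + 1) = ((n + 1 : ℕ) : ℂ) by push_cast; ring, Complex.norm_natCast]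
      push_cast; ring
    rw [norm_div, norm_mul, norm_pow, h3]
    have h4 : (1 : ℝ) ≤ (n : ℝ) + 1 := by
      have : (0 : ℝ) ≤ n := Nat.cast_nonneg n
      linarith
    refine (div_le_self (by positivity) h4).trans ?_
    have h5 : B * ((q : ℝ) ^ r / √q) ^ (n + 1) ≤ |B| * ((q : ℝ) ^ r / √q) ^ (n + 1) :=
      mul_le_mul_of_nonneg_right (le_abs_self B) (by positivity)
    calc ‖S (n + 1) - x ^ (n + 1)‖ * ‖l * (q : ℂ) ^ (-(s : ℂ))‖ ^ (n + 1)
        ≤ (|B| * ((q : ℝ) ^ r / √q) ^ (n + 1)) * ‖l * (q : ℂ) ^ (-(s : ℂ))‖ ^ (n + 1) :=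
          mul_le_mul_of_nonneg_right (h2.trans h5) (by positivity)
      _ = |B| * ((‖l * (q : ℂ) ^ (-(s : ℂ))‖ * (q : ℝ) ^ r) ^ (n + 1) * (1 / √q) ^ (n + 1)) := by
          rw [mul_assoc, ← mul_pow, ← mul_pow]
          congr 2
          field_simp
      _ ≤ |B| * (1 * (1 / √q) ^ (n + 1)) := by
          refine mul_le_mul_of_nonneg_left ?_ hB
          refine mul_le_mul_of_nonneg_right ?_ (by positivity)
          exact pow_le_one₀ (by positivity) h1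
      _ = |B| * (1 / √q) ^ (n + 1) := by rw [one_mul]

theorem p_ANA (hEU1 : Stmt_EU1) (hEU2 : Stmt_EU2) : Stmt_ANA := by
  intro V deg q r j hq hdeg hfin g l w B hg hl hw hS
  have hq0 : (0 : ℝ) < q := by positivity
  have hq1 : (1 : ℝ) < q := by exact_mod_cast (by omega : 1 < q)
  have hqc : (q : ℂ) ≠ 0 := by exact_mod_cast (by omega : q ≠ 0)
  have hQ : (1 : ℝ) ≤ (q : ℝ) ^ r := one_le_pow₀ hq1.le
  have hw1 : ‖w‖ ≤ 1 := by
    rcases hw with h | h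
    · rw [h, norm_zero]; exact zero_le_one
    · exact h.le
  have hval : ∀ s : ℝ, (j : ℝ) + r < s →
      (∏' v, (1 - g v * (l * (q : ℂ) ^ (-(s : ℂ))) ^ deg v)⁻¹) =
      (1 - w * (q : ℂ) ^ r * (l * (q : ℂ) ^ (-(s : ℂ))))⁻¹ *
        Complex.exp (ANA_phi (SV deg g) (w * (q : ℂ) ^ r) (l * (q : ℂ) ^ (-(s : ℂ)))) := by
    intro s hs
    have h1 := ANA_lt q hq l j r hl s hs
    rw [(hEU1 V deg _ hQ hdeg hfin g hg _ h1).2.2]
    refine ANA_val _ _ _ _ ?_ (hEU2 V deg _ hQ hdeg hfin g hg _ h1)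
    rw [norm_mul, norm_mul, norm_pow, Complex.norm_natCast]
    calc ‖w‖ * (q : ℝ) ^ r * ‖l * (q : ℂ) ^ (-(s : ℂ))‖
        ≤ 1 * (q : ℝ) ^ r * ‖l * (q : ℂ) ^ (-(s : ℂ))‖ := by
          refine mul_le_mul_of_nonneg_right ?_ (norm_nonneg _)
          exact mul_le_mul_of_nonneg_right hw1 (by positivity)
      _ = ‖l * (q : ℂ) ^ (-(s : ℂ))‖ * (q : ℝ) ^ r := by ring
      _ < 1 := h1
  have hcont := ANA_cont q hq l j r hl (SV deg g) (w * (q : ℂ) ^ r) B hS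
  have hexp := (Complex.continuous_exp.tendsto _).comp hcont
  have hF : ∀ s : ℝ, HasDerivAt (fun s : ℝ => (1 : ℂ) - w * (q : ℂ) ^ r * (l * (q : ℂ) ^ (-(s : ℂ))))
      (w * (q : ℂ) ^ r * (l * ((q : ℂ) ^ (-(s : ℂ)) * Complex.log q))) s := by
    intro s
    have h1 : HasDerivAt (fun z : ℂ => (q : ℂ) ^ (-z)) ((q : ℂ) ^ (-(s : ℂ)) * Complex.log q * (-1))
        (s : ℂ) := (hasDerivAt_neg (s : ℂ)).const_cpow (Or.inl hqc)
    have h2 := ((h1.const_mul l).const_mul (w * (q : ℂ) ^ r)).const_sub 1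
    have h3 := h2.comp_ofReal
    convert h3 using 1
    ring
  have hT0 : w * (q : ℂ) ^ r * (l * (q : ℂ) ^ (-(((j : ℝ) + r : ℝ) : ℂ))) =
      w * l / (q : ℂ) ^ j := by
    have e : (q : ℂ) ^ (-(((j : ℝ) + r : ℝ) : ℂ)) = ((q : ℂ) ^ j)⁻¹ * ((q : ℂ) ^ r)⁻¹ := by
      push_cast
      rw [neg_add, Complex.cpow_add _ _ hqc, Complex.cpow_neg, Complex.cpow_neg,
        Complex.cpow_natCast, Complex.cpow_natCast]
    rw [e]
    field_simp
  refine ⟨fun s hs => (hEU1 V deg _ hQ hdeg hfin g hg _ (ANA_lt q hq l j r hl s hs)).2.1,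
    fun hwl => ?_, fun hwl => ?_⟩
  · have hw0 : w ≠ 0 := by
      intro h0
      rw [h0, zero_mul] at hwl
      exact pow_ne_zero j hqc hwl.symm
    have hl0 : l ≠ 0 := by
      intro h0
      rw [h0, mul_zero] at hwl
      exact pow_ne_zero j hqc hwl.symm
    have hlog : Complex.log q ≠ 0 := by
      rw [← Complex.natCast_log]
      exact Complex.ofReal_ne_zero.2 (Real.log_pos hq1).ne'
    have hd : w * (q : ℂ) ^ r * (l * ((q : ℂ) ^ (-(((j : ℝ) + r : ℝ) : ℂ)) * Complex.log q)) ≠ 0 := by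
      refine mul_ne_zero (mul_ne_zero hw0 (pow_ne_zero _ hqc)) (mul_ne_zero hl0
        (mul_ne_zero ?_ hlog))
      rw [Complex.cpow_ne_zero_iff]
      exact Or.inl hqc
    have h0 : (1 : ℂ) - w * (q : ℂ) ^ r * (l * (q : ℂ) ^ (-(((j : ℝ) + r : ℝ) : ℂ))) = 0 := by
      rw [hT0, hwl, div_self (pow_ne_zero j hqc), sub_self]
    have hsl := (hasDerivAt_iff_tendsto_slope.1 (hF ((j : ℝ) + r))).mono_left
      (nhdsWithin_mono _ (fun s (hs : s ∈ Set.Ioi ((j : ℝ) + r)) => ne_of_gt hs))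
    have hinv := hsl.inv₀ hd
    refine ⟨_, mul_ne_zero (inv_ne_zero hd) (Complex.exp_ne_zero _),
      (hinv.mul hexp).congr' ?_⟩
    filter_upwards [self_mem_nhdsWithin] with s hs
    rw [hval s hs]
    simp only [Function.comp]
    rw [slope_def_module, h0, sub_zero, pow_one]
    rw [Complex.real_smul, mul_inv, ← Complex.ofReal_inv, inv_inv]
    push_cast
    ring
  · have hne : (1 : ℂ) - w * (q : ℂ) ^ r * (l * (q : ℂ) ^ (-(((j : ℝ) + r : ℝ) : ℂ))) ≠ 0 := by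
      rw [hT0]
      intro h
      refine hwl ?_
      have h2 := (sub_eq_zero.1 h).symm
      rw [div_eq_one_iff_eq (pow_ne_zero j hqc)] at h2
      exact h2
    have hc := ((hF ((j : ℝ) + r)).continuousAt.tendsto.mono_left
      (nhdsWithin_le_nhds (s := Set.Ioi ((j : ℝ) + r)))).inv₀ hne
    refine ⟨_, mul_ne_zero (inv_ne_zero hne) (Complex.exp_ne_zero _), (hc.mul hexp).congr' ?_⟩
    filter_upwards [self_mem_nhdsWithin] with s hs
    rw [hval s hs, pow_zero, one_mul]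
    rfl

end Pool.FT
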