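import Pool.Agent.Work.MP_223b32_ft.Interface

/-! # THEOREM FT, block BER (helper78) -/

namespace Pool.FT

open Finset

theorem BER_sumUnits (m : ℕ) [NeZero m] (χ : DirichletCharacter ℂ m) (f : ZMod m → ℂ) :
    ∑ s : (ZMod m)ˣ, χ (s : ZMod m) * f (s : ZMod m) = ∑ j : ZMod m, χ j * f j := by
  refine Fintype.sum_of_injective (fun s : (ZMod m)ˣ => (s : ZMod m)) Units.val_injective _ _ ?_
    (fun _ => rfl)
  intro j hj
  have h1 : ¬ IsUnit j := by
    rintro ⟨s, hs⟩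
    exact hj ⟨s, hs⟩
  rw [MulChar.map_nonunit χ h1, zero_mul]

theorem BER_ne (hVAL : Stmt_VAL) (hNVA : Stmt_NVA) (m l k : ℕ) [NeZero m] (hl : l.Prime)
    (hk : 0 < k) (hm : m = l ^ k) (h3 : 3 ≤ m) (χ : DirichletCharacter ℂ m) (hχ : χ (-1) = -1) :
    ∑ s : (ZMod m)ˣ, χ (s : ZMod m) * (Bern m (s : ZMod m) : ℂ) ≠ 0 := by
  haveI : Fact (1 < m) := ⟨by omega⟩
  haveI : Nontrivial (ZMod m) := ZMod.nontrivial m
  have hne : χ ≠ 1 := by
    rintro rfl
    rw [MulChar.one_apply (isUnit_one.neg)] at hχ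
    norm_num at hχ
  rw [BER_sumUnits m χ (fun j => (Bern m j : ℂ))]
  have e2 : ∑ j : ZMod m, χ j * (Bern m j : ℂ) =
      2 * ∑ j : ZMod m, χ j * (j.val : ℂ) - m * ∑ j : ZMod m, χ j := by
    rw [Finset.mul_sum, Finset.mul_sum, ← Finset.sum_sub_distrib]
    refine Finset.sum_congr rfl fun j _ => ?_
    by_cases hj : j = 0
    · subst hj
      rw [MulChar.map_zero]
      simp
    · simp only [Bern, hj, if_false]
      push_cast
      ring
  have e3 : ∑ j : ZMod m, χ j = 0 := MulChar.sum_eq_zero_of_ne_one hne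
  have e4 := hVAL m χ hne
  have e5 := hNVA l k m hl hk hm χ hχ
  rw [e2, e3, mul_zero, sub_zero]
  intro h0
  have h1 : ∑ j : ZMod m, χ j * (j.val : ℂ) = 0 := by
    rcases mul_eq_zero.1 h0 with h | h
    · norm_num at h
    · exact h
  rw [h1, neg_zero, zero_div] at e4
  exact e5 e4

theorem p_BER (hVAL : Stmt_VAL) (hNVA : Stmt_NVA) : Stmt_BER := by
  classical
  intro m l k _ hl hk hm h3 ν hν g₀
  haveI : Fact (1 < m) := ⟨by omega⟩
  haveI : Nontrivial (ZMod m) := ZMod.nontrivial m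
  have hodd : ∀ χ : DirichletCharacter ℂ m, χ (-1) = -1 →
      ∑ g : (ZMod m)ˣ, (ν g : ℂ) * χ ((g⁻¹ : (ZMod m)ˣ) : ZMod m) = 0 := by
    intro χ hχ
    have hB := BER_ne hVAL hNVA m l k hl hk hm h3 χ hχ
    refine (mul_eq_zero.1 ?_).resolve_right hB
    have h1 : ∀ g : (ZMod m)ˣ, χ ((g⁻¹ : (ZMod m)ˣ) : ZMod m) *
        ∑ s : (ZMod m)ˣ, χ (s : ZMod m) * (Bern m (s : ZMod m) : ℂ) =
        ∑ t : (ZMod m)ˣ, χ (t : ZMod m) * (Bern m ((t : ZMod m) * (g : ZMod m)) : ℂ) := by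
      intro g
      rw [← Equiv.sum_comp (Equiv.mulRight g) (fun s : (ZMod m)ˣ =>
        χ (s : ZMod m) * (Bern m (s : ZMod m) : ℂ)), Finset.mul_sum]
      refine Finset.sum_congr rfl fun t _ => ?_
      have h2 : χ ((g⁻¹ : (ZMod m)ˣ) : ZMod m) * χ (((Equiv.mulRight g) t : (ZMod m)ˣ) : ZMod m) =
          χ (t : ZMod m) := by
        rw [← map_mul, ← Units.val_mul]
        congr 2
        show g⁻¹ * (t * g) = t
        rw [mul_comm t g, inv_mul_cancel_left]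
      rw [← mul_assoc, h2]
      rfl
    rw [Finset.sum_mul]
    have h3 : ∀ g : (ZMod m)ˣ, (ν g : ℂ) * χ ((g⁻¹ : (ZMod m)ˣ) : ZMod m) *
        ∑ s : (ZMod m)ˣ, χ (s : ZMod m) * (Bern m (s : ZMod m) : ℂ) =
        ∑ t : (ZMod m)ˣ, χ (t : ZMod m) * ((ν g : ℂ) *
          (Bern m ((t : ZMod m) * (g : ZMod m)) : ℂ)) := by
      intro g
      rw [mul_assoc, h1 g, Finset.mul_sum]
      refine Finset.sum_congr rfl fun t _ => ?_
      ring
    rw [Finset.sum_congr rfl fun g _ => h3 g, Finset.sum_comm]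
    refine Finset.sum_eq_zero fun t _ => ?_
    rw [← Finset.mul_sum]
    have h4 : ∑ g : (ZMod m)ˣ, (ν g : ℂ) * (Bern m ((t : ZMod m) * (g : ZMod m)) : ℂ) = 0 := by
      exact_mod_cast hν t
    rw [h4, mul_zero]
  -- inversion
  have hinv : ∀ g₁ : (ZMod m)ˣ, ∑ χ : DirichletCharacter ℂ m, χ (g₁ : ZMod m) *
      ∑ g : (ZMod m)ˣ, (ν g : ℂ) * χ ((g⁻¹ : (ZMod m)ˣ) : ZMod m) = (m.totient : ℂ) * ν g₁ := by
    intro g₁
    have h1 : ∀ χ : DirichletCharacter ℂ m, χ (g₁ : ZMod m) *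
        ∑ g : (ZMod m)ˣ, (ν g : ℂ) * χ ((g⁻¹ : (ZMod m)ˣ) : ZMod m) =
        ∑ g : (ZMod m)ˣ, (ν g : ℂ) * (χ ((g : ZMod m)⁻¹) * χ (g₁ : ZMod m)) := by
      intro χ
      rw [Finset.mul_sum]
      refine Finset.sum_congr rfl fun g _ => ?_
      have h2 : ((g⁻¹ : (ZMod m)ˣ) : ZMod m) = (g : ZMod m)⁻¹ := (ZMod.inv_coe_unit g).symm
      rw [h2]
      ring
    rw [Finset.sum_congr rfl fun χ _ => h1 χ, Finset.sum_comm]
    have h2 : ∀ g : (ZMod m)ˣ, ∑ χ : DirichletCharacter ℂ m,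
        (ν g : ℂ) * (χ ((g : ZMod m)⁻¹) * χ (g₁ : ZMod m)) =
        if g = g₁ then (m.totient : ℂ) * ν g₁ else 0 := by
      intro g
      rw [← Finset.mul_sum, DirichletCharacter.sum_char_inv_mul_char_eq ℂ g.isUnit]
      by_cases hg : g = g₁
      · subst hg
        simp only [if_true]
        ring
      · have hg' : (g : ZMod m) ≠ (g₁ : ZMod m) := fun h => hg (Units.ext h)
        rw [if_neg hg, if_neg hg', mul_zero]
    rw [Finset.sum_congr rfl fun g _ => h2 g, Finset.sum_ite_eq' Finset.univ g₁]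
    simp
  have hmain : (m.totient : ℂ) * ν (-g₀) = (m.totient : ℂ) * ν g₀ := by
    rw [← hinv g₀, ← hinv (-g₀)]
    refine Finset.sum_congr rfl fun χ _ => ?_
    have h1 : χ ((-g₀ : (ZMod m)ˣ) : ZMod m) = χ (-1) * χ (g₀ : ZMod m) := by
      rw [← map_mul, Units.val_neg, neg_one_mul]
    rcases DirichletCharacter.even_or_odd χ with h | h
    · rw [h1, show χ (-1) = 1 from h, one_mul]
    · rw [hodd χ h, mul_zero, mul_zero]
  have hpos : (m.totient : ℂ) ≠ 0 := by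
    have := Nat.totient_pos.2 (by omega : 0 < m)
    exact_mod_cast this.ne'
  exact_mod_cast mul_left_cancel₀ hpos hmain

end Pool.FT
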