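import Pool.Agent.Work.MP_223b32_ft.Interface

/-! # THEOREM FT, block BEU (helper78) -/

namespace Pool.FT

open Finset

theorem BEU_bern (M : ℕ) [NeZero M] (h3 : 3 ≤ M) (x : (ZMod (2 * M))ˣ) (hd : M ∣ 2 * M) :
    Bern (2 * M) ((x : ZMod (2 * M)) * 2) = 2 * Bern M ((ZMod.unitsMap hd x : (ZMod M)ˣ) : ZMod M) := by
  haveI : Fact (1 < M) := ⟨by omega⟩
  haveI : Nontrivial (ZMod M) := ZMod.nontrivial M
  have h2 : ((2 : ZMod (2 * M))).val = 2 := by
    have : ((2 : ℕ) : ZMod (2 * M)) = 2 := by norm_cast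
    rw [← this, ZMod.val_natCast, Nat.mod_eq_of_lt (by omega)]
  have hval : ((x : ZMod (2 * M)) * 2).val = 2 * ((x : ZMod (2 * M)).val % M) := by
    rw [ZMod.val_mul, h2, mul_comm _ 2, Nat.mul_mod_mul_left]
  have hmap : ((ZMod.unitsMap hd x : (ZMod M)ˣ) : ZMod M) = ((x : ZMod (2 * M)).val : ZMod M) := by
    rw [ZMod.unitsMap_val, ZMod.natCast_val]
  have hval2 : ((ZMod.unitsMap hd x : (ZMod M)ˣ) : ZMod M).val = (x : ZMod (2 * M)).val % M := by
    rw [hmap, ZMod.val_natCast]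
  have hne : ((ZMod.unitsMap hd x : (ZMod M)ˣ) : ZMod M) ≠ 0 := Units.ne_zero _
  have hne' : (x : ZMod (2 * M)) * 2 ≠ 0 := by
    intro h0
    apply hne
    rw [← ZMod.val_eq_zero, hval2]
    have := (ZMod.val_eq_zero _).2 h0
    rw [hval] at this
    omega
  unfold Bern
  rw [if_neg hne, if_neg hne', hval, hval2]
  push_cast
  ring

theorem p_BEU (hBER : Stmt_BER) : Stmt_BEU := by
  classical
  intro m _ h3 u hu ν hν
  rcases hu with ⟨l, k, hl, hk, hm, rfl⟩ | ⟨l, k, hl, hodd, hk, hm, rfl⟩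
  · refine hBER m l k hl hk hm h3 ν fun t => ?_
    have := hν t
    simpa only [mul_one] using this
  · obtain ⟨M, hM⟩ : ∃ M, M = l ^ k := ⟨_, rfl⟩
    rw [← hM] at hm
    subst hm
    have hl3 : 3 ≤ l := by
      have h1 := hl.two_le
      rcases hodd with ⟨r, hr⟩
      omega
    have hM3 : 3 ≤ M := by
      rw [hM]
      calc 3 ≤ l := hl3
        _ = l ^ 1 := (pow_one l).symm
        _ ≤ l ^ k := Nat.pow_le_pow_right (by omega) hk
    have hModd : Odd M := by rw [hM]; exact hodd.pow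
    haveI : NeZero M := ⟨by omega⟩
    have hd : M ∣ 2 * M := Dvd.intro_left 2 rfl
    have hsurj : Function.Surjective (ZMod.unitsMap hd) := ZMod.unitsMap_surjective hd
    have hcard : Fintype.card (ZMod (2 * M))ˣ = Fintype.card (ZMod M)ˣ := by
      rw [ZMod.card_units_eq_totient, ZMod.card_units_eq_totient,
        Nat.totient_mul ((Nat.coprime_two_left).2 hModd), Nat.totient_two, one_mul]
    have hbij : Function.Bijective (ZMod.unitsMap hd) :=
      (Fintype.bijective_iff_surjective_and_card _).2 ⟨hsurj, hcard⟩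
    let ρ : (ZMod (2 * M))ˣ ≃* (ZMod M)ˣ := MulEquiv.ofBijective (ZMod.unitsMap hd) hbij
    have hρ : ∀ x, ρ x = ZMod.unitsMap hd x := fun _ => rfl
    have hneg : ∀ x, ρ (-x) = - ρ x := by
      intro x
      apply Units.ext
      rw [hρ, hρ, Units.val_neg, ZMod.unitsMap_val, ZMod.unitsMap_val, Units.val_neg]
      exact ZMod.cast_neg hd _
    have h := hBER M l k hl hk hM hM3 (fun g => ν (ρ.symm g)) (by
      intro t
      obtain ⟨t, rfl⟩ := ρ.surjective t
      rw [← Equiv.sum_comp ρ.toEquiv]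
      have h1 : ∀ g : (ZMod (2 * M))ˣ, 2 * (ν (ρ.symm (ρ.toEquiv g)) *
          Bern M (((ρ t : (ZMod M)ˣ) : ZMod M) * ((ρ.toEquiv g : (ZMod M)ˣ) : ZMod M))) =
          ν g * Bern (2 * M) ((t : ZMod (2 * M)) * ((g : ZMod (2 * M)) * 2)) := by
        intro g
        have h2 : ρ.toEquiv g = ρ g := rfl
        have h3 : ((ρ t : (ZMod M)ˣ) : ZMod M) * ((ρ g : (ZMod M)ˣ) : ZMod M) =
            ((ZMod.unitsMap hd (t * g) : (ZMod M)ˣ) : ZMod M) := by
          rw [← Units.val_mul, ← map_mul, hρ]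
        have h4 : (t : ZMod (2 * M)) * ((g : ZMod (2 * M)) * 2) =
            ((t * g : (ZMod (2 * M))ˣ) : ZMod (2 * M)) * 2 := by
          rw [Units.val_mul, mul_assoc]
        rw [h2, ρ.symm_apply_apply, h3, h4, BEU_bern M hM3 (t * g) hd]
        ring
      have h5 := hν t
      rw [← Finset.sum_congr rfl fun g _ => h1 g, ← Finset.mul_sum] at h5
      omega)
    intro g
    have h6 := h (ρ g)
    rw [← hneg, ρ.symm_apply_apply, ρ.symm_apply_apply] at h6
    exact h6

end Pool.FT
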