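import Pool.Agent.Work.MP_223b32_ft.Interface

/-! Block COM of THEOREM FT. -/

namespace Pool.FT

open Finset

theorem p_COM (hSAT : Stmt_SAT) (hDAD : Stmt_DAD) (hSUP : Stmt_SUP) (hRED : Stmt_RED)
    (hBEU : Stmt_BEU) (hFIN : Stmt_FIN) : Stmt_COM := by
  intro m p f _ Alg hm hF hp hf hpf a ha hS
  have hm3 : 3 ≤ m := hm.1
  apply hSAT m p Alg hF a ha
  intro Q _ e he
  by_cases hs : ∃ i : ℕ, (p : ZMod m) ^ i = -1
  · exact hSUP m p Alg hF hm3 hs Q e he a ha
  obtain ⟨u, n, hu, hn, hB, hE⟩ := hRED m hm a ha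
  rw [hE p Alg hF Q e he]
  obtain ⟨hodd, d, hd⟩ := hDAD m p Alg hF Q e he
  -- the unit p
  set π : (ZMod m)ˣ := ZMod.unitOfCoprime p hp with hπ
  have hπp : (π : ZMod m) = (p : ZMod m) := ZMod.coe_unitOfCoprime p hp
  have hπ1 : ∀ i : ℕ, π ^ i ≠ -1 := by
    intro i h
    apply hs
    refine ⟨i, ?_⟩
    have h2 := congrArg (fun x : (ZMod m)ˣ => (x : ZMod m)) h
    simpa [hπp] using h2
  have ho : 0 < orderOf π := orderOf_pos π
  have hπf : π ^ f = 1 := by
    apply Units.ext
    rw [Units.val_pow_eq_pow_val, hπp, hpf, Units.val_one]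
  obtain ⟨c, hc⟩ := orderOf_dvd_of_pow_eq_one hπf
  have hc0 : 0 < c := by
    rcases Nat.eq_zero_or_pos c with h | h
    · rw [h, mul_zero] at hc; omega
    · exact h
  -- sums over f steps
  have hper : ∀ (h : (ZMod m)ˣ → ℤ) (g : (ZMod m)ˣ),
      ∑ i ∈ range f, h (π ^ i * g) = c * ∑ i ∈ range (orderOf π), h (π ^ i * g) := by
    intro h g
    rw [hc]
    clear hc hc0 hπf
    induction c with
    | zero => simp
    | succ c ih =>
      rw [Nat.mul_succ, Finset.sum_range_add, ih]
      have h1 : ∀ i ∈ range (orderOf π), h (π ^ (orderOf π * c + i) * g) = h (π ^ i * g) := by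
        intro i _
        rw [pow_add, pow_mul, pow_orderOf_eq_one, one_pow, one_mul]
      rw [Finset.sum_congr rfl h1]
      push_cast
      ring
  -- Stickelberger's condition in terms of Bern
  have hSB : ∀ t : (ZMod m)ˣ, ∑ i ∈ range f,
      (a.map (fun x => Bern m (((t * π ^ i : (ZMod m)ˣ) : ZMod m) * x))).sum = 0 := by
    intro t
    have h1 := hS t
    have h2 : ∀ i ∈ range f,
        (a.map (fun x => Bern m (((t * π ^ i : (ZMod m)ˣ) : ZMod m) * x))).sum
        = 2 * (((a.map (fun x => ((t : ZMod m) * (p : ZMod m) ^ i * x).val)).sum : ℕ) : ℤ)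
          - (Multiset.card a : ℤ) * m := by
      intro i _
      have h3 : ∀ b : Multiset (ZMod m), (0 : ZMod m) ∉ b →
          (b.map (fun x => Bern m (((t * π ^ i : (ZMod m)ˣ) : ZMod m) * x))).sum
          = 2 * (((b.map (fun x => ((t : ZMod m) * (p : ZMod m) ^ i * x).val)).sum : ℕ) : ℤ)
            - (Multiset.card b : ℤ) * m := by
        intro b
        induction b using Multiset.induction_on with
        | empty => intro _; simp
        | cons x b ih =>
          intro h0
          rw [Multiset.mem_cons, not_or] at h0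
          rw [Multiset.map_cons, Multiset.sum_cons, Multiset.map_cons, Multiset.sum_cons,
            Multiset.card_cons, ih h0.2]
          have h4 : ((t * π ^ i : (ZMod m)ˣ) : ZMod m) * x ≠ 0 := by
            intro h5
            apply h0.1
            have h6 := congrArg (fun z => (((t * π ^ i)⁻¹ : (ZMod m)ˣ) : ZMod m) * z) h5
            simp only [mul_zero] at h6
            rw [← mul_assoc, ← Units.val_mul, inv_mul_cancel, Units.val_one, one_mul] at h6
            exact h6.symm
          have h7 : ((t * π ^ i : (ZMod m)ˣ) : ZMod m) * x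
              = (t : ZMod m) * (p : ZMod m) ^ i * x := by
            rw [Units.val_mul, Units.val_pow_eq_pow_val, hπp]
          rw [Bern, if_neg h4, h7]
          push_cast
          ring
      exact h3 a ha.2.1
    rw [Finset.sum_congr rfl h2, Finset.sum_sub_distrib, ← Finset.mul_sum]
    have h8 : ((2 * ∑ i ∈ range f,
        (a.map (fun x => ((t : ZMod m) * (p : ZMod m) ^ i * x).val)).sum : ℕ) : ℤ)
        = ((f * (Multiset.card a) * m : ℕ) : ℤ) := by rw [h1]
    simp only [Nat.cast_mul, Nat.cast_sum, Nat.cast_ofNat] at h8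
    simp only [Finset.sum_const, Finset.card_range, nsmul_eq_mul]
    rw [h8]
    ring
  set ν : (ZMod m)ˣ → ℤ := fun g => ∑ i ∈ range (orderOf π), n (π ^ i * g) with hν
  have hν0 : ∀ t : (ZMod m)ˣ,
      ∑ g : (ZMod m)ˣ, ν g * Bern m ((t : ZMod m) * ((g : ZMod m) * u)) = 0 := by
    intro t
    -- both sides in terms of f steps
    have h1 : ∑ i ∈ range f, ∑ g : (ZMod m)ˣ,
        n g * Bern m ((((t * (π ^ (f - 1 - i)) : (ZMod m)ˣ)) : ZMod m) * ((g : ZMod m) * u)) = 0 := by
      have h2 := hSB t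
      have h3 : ∀ i ∈ range f,
          (a.map (fun x => Bern m (((t * π ^ i : (ZMod m)ˣ) : ZMod m) * x))).sum
          = ∑ g : (ZMod m)ˣ,
            n g * Bern m ((((t * (π ^ i) : (ZMod m)ˣ)) : ZMod m) * ((g : ZMod m) * u)) :=
        fun i _ => hB (t * π ^ i)
      rw [Finset.sum_congr rfl h3] at h2
      rw [← h2]
      exact Finset.sum_range_reflect (fun i => ∑ g : (ZMod m)ˣ,
        n g * Bern m ((((t * (π ^ i) : (ZMod m)ˣ)) : ZMod m) * ((g : ZMod m) * u))) f
    -- substitute g = π ^ (i + 1) g'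
    have h4 : ∀ i ∈ range f, ∑ g : (ZMod m)ˣ,
        n g * Bern m ((((t * (π ^ (f - 1 - i)) : (ZMod m)ˣ)) : ZMod m) * ((g : ZMod m) * u))
        = ∑ g : (ZMod m)ˣ, n (π ^ i * (π * g)) *
            Bern m ((t : ZMod m) * ((g : ZMod m) * u)) := by
      intro i hi
      have hi2 : i < f := Finset.mem_range.1 hi
      rw [← Equiv.sum_comp (Equiv.mulLeft (π ^ (i + 1)))]
      refine Finset.sum_congr rfl (fun g _ => ?_)
      have h5 : π ^ (f - 1 - i) * π ^ (i + 1) = 1 := by
        rw [← pow_add, show f - 1 - i + (i + 1) = f by omega, hπf]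
      have h6 : (((t * (π ^ (f - 1 - i)) : (ZMod m)ˣ)) : ZMod m) *
          ((((Equiv.mulLeft (π ^ (i + 1))) g : (ZMod m)ˣ) : ZMod m) * u)
          = (t : ZMod m) * ((g : ZMod m) * u) := by
        have h7 : (t * π ^ (f - 1 - i)) * (π ^ (i + 1) * g) = t * g := by
          rw [mul_assoc, ← mul_assoc (π ^ (f - 1 - i)), h5, one_mul]
        rw [Equiv.coe_mulLeft, ← mul_assoc, ← Units.val_mul, h7, Units.val_mul, mul_assoc]
      rw [h6, Equiv.coe_mulLeft]
      have h8 : π ^ (i + 1) * g = π ^ i * (π * g) := by rw [pow_succ, mul_assoc]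
      show n (π ^ (i + 1) * g) * Bern m ((t : ZMod m) * ((g : ZMod m) * u)) = _
      rw [h8]
    rw [Finset.sum_congr rfl h4, Finset.sum_comm] at h1
    have h9 : ∀ g : (ZMod m)ˣ, ∑ i ∈ range f, n (π ^ i * (π * g)) *
            Bern m ((t : ZMod m) * ((g : ZMod m) * u))
        = c * (ν g * Bern m ((t : ZMod m) * ((g : ZMod m) * u))) := by
      intro g
      rw [← Finset.sum_mul, hper n (π * g)]
      have h10 : ∑ i ∈ range (orderOf π), n (π ^ i * (π * g)) = ν g := by
        simp only [hν]
        have h11 : ∀ i ∈ range (orderOf π), n (π ^ i * (π * g)) = n (π ^ (i + 1) * g) := by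
          intro i _; rw [pow_succ, mul_assoc]
        rw [Finset.sum_congr rfl h11]
        have h12 := Finset.sum_range_succ (fun i => n (π ^ i * g)) (orderOf π)
        have h13 := Finset.sum_range_succ' (fun i => n (π ^ i * g)) (orderOf π)
        rw [h12] at h13
        rw [pow_orderOf_eq_one, pow_zero] at h13
        exact (add_right_cancel h13).symm
      rw [h10]; ring
    rw [Finset.sum_congr rfl (fun g _ => h9 g), ← Finset.mul_sum] at h1
    rcases mul_eq_zero.1 h1 with h | h
    · exact absurd (by exact_mod_cast h) hc0.ne'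
    · exact h
  have hν1 := hBEU m hm3 u hu ν hν0
  refine hFIN m π hπ1 Q e d hodd ?_ u n hn ?_
  · intro x; rw [hd x, hπp]
  · intro g
    have h1 := hν1 g
    simp only [hν] at h1
    rw [← h1]
    refine Finset.sum_congr rfl (fun i _ => ?_)
    rw [mul_neg]

end Pool.FT
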