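import Pool.Agent.Work.MP_223b32_ft.Interface

/-!
# Block CON: the smallest closed set satisfies all the properties
-/

namespace Pool.FT

open Finset

theorem CON_half (m : ℕ) [NeZero m] (x : ZMod m) (hx : x ≠ 0) (h2 : x + x = 0) :
    2 * x.val = m := by
  have hv0 : 0 < x.val := by
    rcases Nat.eq_zero_or_pos x.val with h | h
    · exact absurd ((ZMod.val_eq_zero x).mp h) hx
    · exact h
  have hv1 : x.val < m := ZMod.val_lt x
  have h3 : ((2 * x.val : ℕ) : ZMod m) = 0 := by
    push_cast
    rw [ZMod.natCast_zmod_val, two_mul, h2]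
  have h4 : m ∣ 2 * x.val := (ZMod.natCast_eq_zero_iff _ _).mp h3
  obtain ⟨k, hk⟩ := h4
  have h5 : 0 < k := by
    rcases Nat.eq_zero_or_pos k with h | h
    · rw [h, mul_zero] at hk; omega
    · exact h
  have h6 : k < 2 := by
    by_contra hcon
    push Not at hcon
    have h7 : m * 2 ≤ m * k := Nat.mul_le_mul_left m hcon
    omega
  have h7 : k = 1 := by omega
  rw [hk, h7, mul_one]

theorem CON_chr (m p : ℕ) [NeZero m] (hp : p.Coprime m) (a : Multiset (ZMod m))
    (h : Con m p a) : Chr m a := by
  have hpu : IsUnit (p : ZMod m) := (ZMod.isUnit_iff_coprime p m).mpr hp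
  have hp0 : ∀ x : ZMod m, x ≠ 0 → -((p : ZMod m) * x) ≠ 0 := by
    intro x hx h
    rw [neg_eq_zero, hpu.mul_right_eq_zero] at h
    exact hx h
  induction h with
  | pair x hx =>
    refine ⟨by simp, ?_, by simp, ⟨1, by simp⟩⟩
    simp only [Multiset.insert_eq_cons, Multiset.mem_cons, Multiset.mem_singleton, not_or]
    exact ⟨hx.symm, (neg_ne_zero.mpr hx).symm⟩
  | join a b ha hb iha ihb =>
    obtain ⟨h1, h2, h3, h4⟩ := iha
    obtain ⟨k1, k2, k3, k4⟩ := ihb
    refine ⟨?_, ?_, ?_, ?_⟩
    · intro h
      exact h1 (add_eq_zero.mp h).1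
    · rw [Multiset.mem_add]
      exact fun h => h.elim h2 k2
    · rw [Multiset.sum_add, h3, k3, add_zero]
    · rw [Multiset.card_add]
      exact h4.add k4
  | cancel a x ha hx hc ih => exact ha
  | neg a ha ih =>
    obtain ⟨h1, h2, h3, h4⟩ := ih
    refine ⟨?_, ?_, ?_, ?_⟩
    · intro h
      exact h1 (Multiset.map_eq_zero.mp h)
    · intro h
      obtain ⟨y, hy, hy0⟩ := Multiset.mem_map.mp h
      rw [neg_eq_zero] at hy0
      rw [hy0] at hy
      exact h2 hy
    · have e1 := Multiset.sum_map_neg' a
      rw [e1, h3, neg_zero]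
    · rw [Multiset.card_map]; exact h4
  | frob x y z hx hy hz hs =>
    refine ⟨by simp, ?_, ?_, ⟨3, by simp⟩⟩
    · simp only [Multiset.insert_eq_cons, Multiset.mem_add, Multiset.mem_cons,
        Multiset.mem_singleton, not_or]
      exact ⟨⟨hx.symm, hy.symm, hz.symm⟩, (hp0 x hx).symm, (hp0 y hy).symm, (hp0 z hz).symm⟩
    · simp only [Multiset.insert_eq_cons, Multiset.sum_add, Multiset.sum_cons,
        Multiset.sum_singleton]
      linear_combination (1 - (p : ZMod m)) * hs
  | super i x y z x' y' z' hi hx hy hz hs hx' hy' hz' hs' =>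
    refine ⟨by simp, ?_, ?_, ⟨3, by simp⟩⟩
    · simp only [Multiset.insert_eq_cons, Multiset.mem_add, Multiset.mem_cons,
        Multiset.mem_singleton, not_or]
      exact ⟨⟨hx.symm, hy.symm, hz.symm⟩, hx'.symm, hy'.symm, hz'.symm⟩
    · simp only [Multiset.insert_eq_cons, Multiset.sum_add, Multiset.sum_cons,
        Multiset.sum_singleton]
      linear_combination hs + hs'
  | two h x hh h2 hx hxh =>
    have e1 : x + h ≠ 0 := by
      intro e
      apply hxh
      have e2 : x = -h := by linear_combination e
      have e3 : h = -h := by linear_combination h2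
      rw [e2, ← e3]
    have e2 : x + x ≠ 0 := by
      intro e
      apply hxh
      have e3 := CON_half m x hx e
      have e4 := CON_half m h hh h2
      apply ZMod.val_injective m
      omega
    refine ⟨by simp, ?_, ?_, ⟨2, by simp⟩⟩
    · simp only [Multiset.insert_eq_cons, Multiset.mem_cons,
        Multiset.mem_singleton, not_or]
      exact ⟨hx.symm, e1.symm, (neg_ne_zero.mpr e2).symm, hh.symm⟩
    · simp only [Multiset.insert_eq_cons, Multiset.sum_cons,
        Multiset.sum_singleton]
      linear_combination h2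
  | odd d w x hd hodd hw hdw hdx =>
    simp only [bind_pure_comp, Multiset.fmap_def, Multiset.map_map, Function.comp_def]
    refine ⟨by simp, ?_, ?_, ?_⟩
    · rw [Multiset.mem_add, Multiset.mem_singleton]
      rintro (h | h)
      · obtain ⟨i, _, hi⟩ := Multiset.mem_map.mp h
        apply hdx
        have e1 : (d : ZMod m) * (x + (i : ZMod m) * w) = 0 := by rw [hi, mul_zero]
        linear_combination e1 - (i : ZMod m) * hdw
      · exact (neg_ne_zero.mpr hdx) h.symm
    · rw [Multiset.sum_add, Multiset.sum_singleton]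
      have e1 : ((Multiset.range d).map (fun i : ℕ => x + (i : ZMod m) * w)).sum
          = ∑ i ∈ Finset.range d, (x + (i : ZMod m) * w) := rfl
      rw [e1, sum_add_distrib, sum_const, card_range, nsmul_eq_mul, ← sum_mul]
      obtain ⟨k, hk⟩ := hodd
      have e2 : ∑ i ∈ Finset.range d, (i : ZMod m) = (d : ZMod m) * (k : ZMod m) := by
        have e3 : ∑ i ∈ Finset.range d, i = d * k := by
          have e4 := Finset.sum_range_id_mul_two d
          have e5 : d - 1 = k * 2 := by omega
          rw [e5, ← mul_assoc] at e4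
          exact Nat.eq_of_mul_eq_mul_right (by norm_num) e4
        rw [← Nat.cast_sum, e3, Nat.cast_mul]
      rw [e2]
      linear_combination (k : ZMod m) * hdw
    · rw [Multiset.card_add, Multiset.card_map, Multiset.card_range, Multiset.card_singleton]
      exact hodd.add_one

theorem p_CON : Stmt_CON := by
  intro m p _ hp
  exact
    { chr := fun a h => CON_chr m p hp a h
      pair := fun x hx => Con.pair x hx
      join := fun a b ha hb => Con.join a b ha hb
      cancel := fun a x h1 h2 h3 => Con.cancel a x h1 h2 h3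
      neg := fun a ha => Con.neg a ha
      frob := fun x y z h1 h2 h3 h4 => Con.frob x y z h1 h2 h3 h4
      super := fun ⟨i, hi⟩ x y z x' y' z' h1 h2 h3 h4 h5 h6 h7 h8 =>
        Con.super i x y z x' y' z' hi h1 h2 h3 h4 h5 h6 h7 h8
      two := fun h x h1 h2 h3 h4 => Con.two h x h1 h2 h3 h4
      odd := fun d w x h1 h2 h3 h4 h5 => Con.odd d w x h1 h2 h3 h4 h5 }

end Pool.FT
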