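import Pool.Agent.Work.MP_223b32_ft.Interface3

namespace Pool.FT

theorem p_CRD : Stmt_CRD := by
  intro F _ _ r v
  exact Module.card_eq_pow_finrank (K := F) (V := kap v)

end Pool.FT
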