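import Pool.Agent.Work.MP_223b32_ft.Interface

/-!
Block DAD: `e` is odd and `x ↦ e x - e (p x)` is additive.
-/

namespace Pool.FT

open Finset

theorem DAD_odd (m p : ℕ) (Alg : Multiset (ZMod m) → Prop) (hA : FermatCycles m p Alg)
    (Q : Type) [AddCommGroup Q] (e : ZMod m → Q) (he : Kills Alg e) (x : ZMod m) :
    e (-x) = - e x := by
  by_cases hx : x = 0
  · subst hx
    rw [neg_zero, he.zero, neg_zero]
  · have h := he.kill _ (hA.pair x hx)
    simp only [Multiset.insert_eq_cons, Multiset.map_cons, Multiset.map_singleton,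
      Multiset.sum_cons, Multiset.sum_singleton] at h
    exact (neg_eq_of_add_eq_zero_right h).symm

theorem p_DAD : Stmt_DAD := by
  intro m p _ Alg hA Q _ e he
  have hodd := DAD_odd m p Alg hA Q e he
  refine ⟨hodd, ?_⟩
  have hneg : ∀ x : ZMod m, e (-x) - e ((p : ZMod m) * (-x)) =
      -(e x - e ((p : ZMod m) * x)) := by
    intro x
    rw [mul_neg, hodd, hodd]
    abel
  have h3 : ∀ x y z : ZMod m, x ≠ 0 → y ≠ 0 → z ≠ 0 → x + y + z = 0 →
      (e x - e ((p : ZMod m) * x)) + (e y - e ((p : ZMod m) * y)) +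
        (e z - e ((p : ZMod m) * z)) = 0 := by
    intro x y z hx hy hz hs
    have h := he.kill _ (hA.frob x y z hx hy hz hs)
    simp only [Multiset.insert_eq_cons, Multiset.map_add, Multiset.map_cons,
      Multiset.map_singleton, Multiset.sum_add, Multiset.sum_cons, Multiset.sum_singleton,
      hodd] at h
    rw [← h]
    abel
  have h0 : e 0 - e ((p : ZMod m) * 0) = 0 := by rw [mul_zero, sub_self]
  refine ⟨AddMonoidHom.mk' (fun x => e x - e ((p : ZMod m) * x)) ?_, fun x => rfl⟩
  intro x y
  by_cases hx : x = 0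
  · subst hx
    rw [zero_add, h0, zero_add]
  by_cases hy : y = 0
  · subst hy
    rw [add_zero, h0, add_zero]
  by_cases hs : x + y = 0
  · have hy2 : y = -x := (neg_eq_of_add_eq_zero_right hs).symm
    rw [hs, h0, hy2, hneg, add_neg_cancel]
  · have h := h3 x y (-(x + y)) hx hy (neg_ne_zero.mpr hs) (by abel)
    rw [hneg, ← sub_eq_add_neg] at h
    exact (sub_eq_zero.mp h).symm

end Pool.FT
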