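import Pool.Agent.Work.MP_223b32_ft.Interface2
import Pool.Agent.Work.MP_223b32_ag.Pole
import Pool.Agent.Work.MP_223b32_ag.Powers

/-! Block DSC of THEOREM FT. -/

namespace Pool.FT

open Finset Polynomial

theorem DSC_aeval {β : Type} (D : Module.End ℂ (β → ℂ)) (μ : β → ℂ)
    (hD : ∀ (v : β → ℂ) b, D v b = μ b * v b) (P : ℂ[X]) :
    ∀ (v : β → ℂ) b, (aeval D P) v b = P.eval (μ b) * v b := by
  induction P using Polynomial.induction_on' with
  | add P Q hP hQ =>
    intro v b
    rw [map_add, LinearMap.add_apply, Pi.add_apply, hP, hQ, eval_add, add_mul]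
  | monomial k a =>
    have h1 : ∀ (k : ℕ) (v : β → ℂ) b, (D ^ k) v b = (μ b) ^ k * v b := by
      intro k
      induction k with
      | zero => intro v b; simp
      | succ k ih =>
        intro v b
        rw [pow_succ', Module.End.mul_apply, hD, ih]
        ring
    intro v b
    rw [aeval_monomial, eval_monomial, Module.End.mul_apply]
    have h2 : ((algebraMap ℂ (Module.End ℂ (β → ℂ))) a) ((D ^ k) v) = a • ((D ^ k) v) := by
      rw [Module.algebraMap_end_apply]
    rw [h2, Pi.smul_apply, h1, smul_eq_mul]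
    ring

theorem DSC_ss {β : Type} [Fintype β] (Φ : Module.End ℂ (β → ℂ)) (μ : β → ℂ) (s : ℕ)
    (hs : 0 < s) (h0 : ∀ b, μ b ≠ 0) (hD : ∀ (v : β → ℂ) b, (Φ ^ s) v b = μ b * v b) :
    Φ.IsSemisimple := by
  classical
  set S : Finset ℂ := univ.image μ with hS
  have hsq : Squarefree (∏ z ∈ S, ((X : ℂ[X]) ^ s - C z)) := by
    apply Finset.squarefree_prod_of_pairwise_isCoprime
    · intro z _ w _ hzw
      show IsRelPrime ((X : ℂ[X]) ^ s - C z) ((X : ℂ[X]) ^ s - C w)
      apply IsCoprime.isRelPrime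
      refine ⟨C ((w - z)⁻¹), - C ((w - z)⁻¹), ?_⟩
      have h1 : C ((w - z)⁻¹) * ((X : ℂ[X]) ^ s - C z) + - C ((w - z)⁻¹) * ((X : ℂ[X]) ^ s - C w)
          = C ((w - z)⁻¹) * C (w - z) := by
        rw [C_sub]; ring
      rw [h1, ← C_mul, inv_mul_cancel₀ (sub_ne_zero.2 (Ne.symm hzw)), C_1]
    · intro z hz
      apply Polynomial.Separable.squarefree
      apply Polynomial.separable_X_pow_sub_C
      · exact_mod_cast hs.ne'
      · obtain ⟨b, _, hb⟩ := Finset.mem_image.1 hz
        rw [← hb]; exact h0 b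
  apply Module.End.isSemisimple_of_squarefree_aeval_eq_zero hsq
  have h2 : (∏ z ∈ S, ((X : ℂ[X]) ^ s - C z)) = (∏ z ∈ S, ((X : ℂ[X]) - C z)).comp (X ^ s) := by
    rw [Polynomial.prod_comp]
    refine Finset.prod_congr rfl (fun z _ => ?_)
    simp
  rw [h2, Polynomial.aeval_comp, map_pow, aeval_X]
  apply LinearMap.ext
  intro v
  funext b
  rw [DSC_aeval (Φ ^ s) μ hD, eval_prod]
  have h3 : ∏ z ∈ S, (eval (μ b) (X - C z)) = 0 := by
    apply Finset.prod_eq_zero (Finset.mem_image_of_mem μ (Finset.mem_univ b))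
    simp
  rw [h3, zero_mul]
  rfl

theorem DSC_finrank {V : Type*} [AddCommGroup V] [Module ℂ V] {κ : Type*} [Fintype κ]
    (B : Module.Basis κ ℂ V) (Φ : Module.End ℂ V) (μ : κ → ℂ) (hB : ∀ k, Φ (B k) = μ k • B k)
    (z : ℂ) [Fintype {k // μ k = z}] :
    Module.finrank ℂ (LinearMap.ker (Φ - z • LinearMap.id)) = Fintype.card {k // μ k = z} := by
  classical
  have h1 : LinearMap.ker (Φ - z • LinearMap.id)
      = Submodule.span ℂ (Set.range (fun k : {k // μ k = z} => B k.1)) := by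
    apply le_antisymm
    · intro v hv
      rw [LinearMap.mem_ker, LinearMap.sub_apply, LinearMap.smul_apply, LinearMap.id_apply] at hv
      have h2 : v = ∑ k, B.repr v k • B k := (B.sum_repr v).symm
      have h3 : ∀ k, B.repr v k ≠ 0 → μ k = z := by
        intro k hk
        have h4 : B.repr (Φ v) k = μ k * B.repr v k := by
          have h5 : Φ v = ∑ k, (B.repr v k * μ k) • B k := by
            conv_lhs => rw [h2]
            rw [map_sum]
            refine Finset.sum_congr rfl (fun k _ => ?_)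
            rw [map_smul, hB, smul_smul]
          rw [h5, B.repr_sum_self]
          ring
        have h6 : B.repr (Φ v) k = z * B.repr v k := by
          rw [sub_eq_zero.1 hv, map_smul, Finsupp.smul_apply, smul_eq_mul]
        rw [h4] at h6
        exact mul_right_cancel₀ hk h6
      rw [h2]
      refine Submodule.sum_mem _ (fun k _ => ?_)
      by_cases hk : B.repr v k = 0
      · rw [hk, zero_smul]; exact Submodule.zero_mem _
      · exact Submodule.smul_mem _ _ (Submodule.subset_span ⟨⟨k, h3 k hk⟩, rfl⟩)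
    · rw [Submodule.span_le]
      rintro _ ⟨k, rfl⟩
      show B k.1 ∈ LinearMap.ker (Φ - z • LinearMap.id)
      rw [LinearMap.mem_ker, LinearMap.sub_apply, LinearMap.smul_apply, LinearMap.id_apply,
        hB, k.2, sub_self]
  rw [h1]
  exact finrank_span_eq_card (B.linearIndependent.comp (fun k : {k // μ k = z} => k.1)
    Subtype.val_injective)

open Classical in
theorem p_DSC : Stmt_DSC := by
  intro F _ _ χ m _ ι _ n c j Alg hnz hT q₀ s hs hq Φ hΦ
  constructor
  · intro v hv b hb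
    have h1 : ∀ k : ℕ, (Φ ^ k) v = ((q₀ : ℂ) ^ j) ^ k • v := by
      intro k
      induction k with
      | zero => simp
      | succ k ih => rw [pow_succ', Module.End.mul_apply, ih, map_smul, hv, smul_smul, pow_succ]
    have h2 := hΦ v b
    rw [h1 s, Pi.smul_apply, smul_eq_mul] at h2
    have h3 : eigP χ c b.1 = ((q₀ : ℂ) ^ j) ^ s := (mul_right_cancel₀ hb h2).symm
    apply hT b.1 b.2
    rw [h3, ← hq, Nat.cast_pow, ← pow_mul, ← pow_mul, mul_comm j s]
  · have hss := DSC_ss Φ (fun b => eigP χ c b.1) s hs (fun b => hnz b.1) hΦ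
    obtain ⟨B, μ, hB⟩ := Pool.Agent.Work.MP_223b32_ag.exists_eigenbasis hss
    have hB' : ∀ k, Φ (B k) = μ k • B k := fun k =>
      Module.End.mem_eigenspace_iff.1 (hB k).1
    have hq1 : 1 < q₀ := by
      rcases Nat.lt_or_ge 1 q₀ with h | h
      · exact h
      · exfalso
        have h4 : q₀ ^ s ≤ 1 := Nat.pow_le_one_iff hs.ne' |>.2 h
        have h5 : 1 < Fintype.card F := Fintype.one_lt_card
        omega
    have hQ : (1 : ℝ) < (q₀ : ℝ) := by exact_mod_cast hq1
    have h6 := Pool.Agent.Work.MP_223b32_ag.hasPoleOrder_diag hB' hQ j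
    obtain ⟨w, hw, ht⟩ := h6
    refine ⟨w, hw, ?_⟩
    have h7 : Module.finrank ℂ (LinearMap.ker (Φ - (q₀ : ℂ) ^ j • LinearMap.id))
        = Fintype.card {k // μ k = ((q₀ : ℝ) : ℂ) ^ j} := by
      have h8 := DSC_finrank B Φ μ hB' (((q₀ : ℝ) : ℂ) ^ j)
      rw [Complex.ofReal_natCast] at h8 ⊢
      exact h8
    rw [h7]
    generalize Fintype.card {k // μ k = ((q₀ : ℝ) : ℂ) ^ j} = r at ht
    have h9 : (fun y : ℝ => ((y : ℂ) - ((j : ℝ) : ℂ)) ^ r
          * (LinearMap.det (1 - (q₀ : ℂ) ^ (-(y : ℂ)) • Φ))⁻¹)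
        = (fun y : ℝ => (((y - (j : ℝ) : ℝ)) : ℂ) ^ r
          * (LinearMap.det (1 - ((q₀ : ℝ) : ℂ) ^ (-(y : ℂ)) • Φ))⁻¹) := by
      funext y
      rw [Complex.ofReal_sub, Complex.ofReal_natCast, Complex.ofReal_natCast]
    show Filter.Tendsto (fun y : ℝ => ((y : ℂ) - ((j : ℝ) : ℂ)) ^ r
          * (LinearMap.det (1 - (q₀ : ℂ) ^ (-(y : ℂ)) • Φ))⁻¹)
      (nhdsWithin (j : ℝ) (Set.Ioi (j : ℝ))) (nhds w)
    rw [h9]
    exact ht

end Pool.FT
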