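import Pool.Agent.Work.MP_223b32_ft.Interface4
import Pool.Agent.Work.MP_223b32_ft.B_DSC

/-! Block DSA of THEOREM FT. -/

namespace Pool.FT

open Finset Polynomial

open Classical in
theorem p_DSA : Stmt_DSA := by
  intro β _ _ μ q₀ s j hnz hq1 hs Φ hΦ
  constructor
  · intro v hv b hb
    have h1 : ∀ k : ℕ, (Φ ^ k) v = ((q₀ : ℂ) ^ j) ^ k • v := by
      intro k
      induction k with
      | zero => simp
      | succ k ih => rw [pow_succ', Module.End.mul_apply, ih, map_smul, hv, smul_smul, pow_succ]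
    have h2 := hΦ v b
    rw [h1 s, Pi.smul_apply, smul_eq_mul] at h2
    have h3 : μ b = ((q₀ : ℂ) ^ j) ^ s := (mul_right_cancel₀ hb h2).symm
    rw [h3, ← pow_mul]
  · have hss := DSC_ss Φ μ s hs hnz hΦ
    obtain ⟨B, ν, hB⟩ := Pool.Agent.Work.MP_223b32_ag.exists_eigenbasis hss
    have hB' : ∀ k, Φ (B k) = ν k • B k := fun k =>
      Module.End.mem_eigenspace_iff.1 (hB k).1
    have hQ : (1 : ℝ) < (q₀ : ℝ) := by exact_mod_cast hq1
    have h6 := Pool.Agent.Work.MP_223b32_ag.hasPoleOrder_diag hB' hQ j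
    obtain ⟨w, hw, ht⟩ := h6
    refine ⟨w, hw, ?_⟩
    have h7 : Module.finrank ℂ (LinearMap.ker (Φ - (q₀ : ℂ) ^ j • LinearMap.id))
        = Fintype.card {k // ν k = ((q₀ : ℝ) : ℂ) ^ j} := by
      have h8 := DSC_finrank B Φ ν hB' (((q₀ : ℝ) : ℂ) ^ j)
      rw [Complex.ofReal_natCast] at h8 ⊢
      exact h8
    rw [h7]
    generalize Fintype.card {k // ν k = ((q₀ : ℝ) : ℂ) ^ j} = r at ht
    have h9 : (fun y : ℝ => ((y : ℂ) - ((j : ℝ) : ℂ)) ^ r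
          * (LinearMap.det (1 - (q₀ : ℂ) ^ (-(y : ℂ)) • Φ))⁻¹)
        = (fun y : ℝ => (((y - (j : ℝ) : ℝ)) : ℂ) ^ r
          * (LinearMap.det (1 - ((q₀ : ℝ) : ℂ) ^ (-(y : ℂ)) • Φ))⁻¹) := by
      funext y
      rw [Complex.ofReal_sub, Complex.ofReal_natCast, Complex.ofReal_natCast]
    show Filter.Tendsto (fun y : ℝ => ((y : ℂ) - ((j : ℝ) : ℂ)) ^ r
          * (LinearMap.det (1 - (q₀ : ℂ) ^ (-(y : ℂ)) • Φ))⁻¹)
      (nhdsWithin (j : ℝ) (Set.Ioi (j : ℝ))) (nhds w)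
    rw [h9]
    exact ht

end Pool.FT
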