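import Pool.Agent.Work.MP_223b32_ft.Interface

/-!
# Block DSB of THEOREM FT: the distribution relation
-/

namespace Pool.FT

open Finset

theorem DSB_cong (m d n : ℕ) [NeZero m] (hm : m = d * n) (x y : ZMod m) :
    (d : ZMod m) * y = (d : ZMod m) * x ↔ y.val % n = x.val % n := by
  have hd : 0 < d := Nat.pos_of_ne_zero (by rintro rfl; exact NeZero.ne m (by simpa using hm))
  have h1 : (d : ZMod m) * y = ((d * y.val : ℕ) : ZMod m) := by
    rw [Nat.cast_mul, ZMod.natCast_zmod_val]
  have h2 : (d : ZMod m) * x = ((d * x.val : ℕ) : ZMod m) := by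
    rw [Nat.cast_mul, ZMod.natCast_zmod_val]
  rw [h1, h2, ZMod.natCast_eq_natCast_iff']
  have h3 : ∀ k : ℕ, d * k % m = d * (k % n) := by
    intro k
    rw [hm, Nat.mul_mod_mul_left]
  rw [h3, h3]
  exact ⟨fun h => Nat.eq_of_mul_eq_mul_left hd h, fun h => by rw [h]⟩

theorem DSB_sum (m d n : ℕ) [NeZero m] (hm : m = d * n) (x : ZMod m) {M : Type} [AddCommMonoid M]
    (f : ZMod m → M) :
    ∑ y ∈ (univ : Finset (ZMod m)).filter (fun y => (d : ZMod m) * y = (d : ZMod m) * x), f y =
      ∑ i ∈ range d, f ((x.val % n + i * n : ℕ) : ZMod m) := by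
  have hn : 0 < n := Nat.pos_of_ne_zero (by rintro rfl; exact NeZero.ne m (by simpa using hm))
  have hval : ∀ i, i < d → ((x.val % n + i * n : ℕ) : ZMod m).val = x.val % n + i * n := by
    intro i hi
    apply ZMod.val_cast_of_lt
    have h1 : x.val % n < n := Nat.mod_lt _ hn
    have h2 : (i + 1) * n ≤ d * n := Nat.mul_le_mul_right n hi
    have h3 : x.val % n + i * n < d * n := by nlinarith
    exact h3.trans_eq hm.symm
  symm
  refine Finset.sum_bij' (fun i _ => ((x.val % n + i * n : ℕ) : ZMod m)) (fun y _ => y.val / n) ?_ ?_ ?_ ?_ ?_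
  · intro i hi
    rw [mem_filter]
    refine ⟨mem_univ _, ?_⟩
    rw [DSB_cong m d n hm, hval i (mem_range.1 hi), Nat.add_mul_mod_self_right, Nat.mod_mod]
  · intro y hy
    rw [mem_range]
    rw [Nat.div_lt_iff_lt_mul hn, ← hm]
    exact ZMod.val_lt y
  · intro i hi
    rw [hval i (mem_range.1 hi), Nat.add_mul_div_right _ _ hn, Nat.div_eq_of_lt (Nat.mod_lt _ hn), zero_add]
  · intro y hy
    rw [mem_filter, DSB_cong m d n hm] at hy
    rw [← hy.2]
    have h1 : y.val % n + y.val / n * n = y.val := by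
      rw [mul_comm]; exact Nat.mod_add_div _ _
    rw [h1, ZMod.natCast_zmod_val]
  · intro i hi
    rfl

theorem DSB_val (m d n : ℕ) [NeZero m] (hm : m = d * n) (x : ZMod m) :
    ((d : ZMod m) * x).val = d * (x.val % n) := by
  have h2 : (d : ZMod m) * x = ((d * x.val : ℕ) : ZMod m) := by
    rw [Nat.cast_mul, ZMod.natCast_zmod_val]
  have h3 : ∀ k : ℕ, d * k % m = d * (k % n) := by
    intro k
    rw [hm, Nat.mul_mod_mul_left]
  rw [h2, ZMod.val_natCast, h3]

theorem p_DSB : Stmt_DSB := by
  intro m d _ hdm x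
  obtain ⟨n, hm⟩ := hdm
  have hd : 0 < d := Nat.pos_of_ne_zero (by rintro rfl; exact NeZero.ne m (by simpa using hm))
  have hn : 0 < n := Nat.pos_of_ne_zero (by rintro rfl; exact NeZero.ne m (by simpa using hm))
  have hz := DSB_val m d n hm x
  set y0 := x.val % n with hy0
  have hy0n : y0 < n := Nat.mod_lt _ hn
  have hval : ∀ i, i < d → ((y0 + i * n : ℕ) : ZMod m).val = y0 + i * n := by
    intro i hi
    apply ZMod.val_cast_of_lt
    have h2 : (i + 1) * n ≤ d * n := Nat.mul_le_mul_right n hi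
    have h3 : y0 + i * n < d * n := by nlinarith
    exact h3.trans_eq hm.symm
  have hgauss : (∑ i ∈ range d, i) * 2 = d * (d - 1) := Finset.sum_range_id_mul_two d
  constructor
  · intro hne
    have h1 : ∀ y ∈ (univ : Finset (ZMod m)).filter (fun y => (d : ZMod m) * y = (d : ZMod m) * x),
        Bern m y = 2 * (y.val : ℤ) - m := by
      intro y hy
      rw [mem_filter] at hy
      unfold Bern
      rw [if_neg]
      rintro rfl
      rw [mul_zero] at hy
      exact hne hy.2.symm
    rw [Finset.sum_congr rfl h1, DSB_sum m d n hm x (fun y => 2 * (y.val : ℤ) - m)]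
    have h2 : ∀ i ∈ range d, (2 * ((((y0 + i * n : ℕ) : ZMod m).val : ℕ) : ℤ) - m) =
        (2 * (y0 : ℤ) - m) + (i : ℤ) * (2 * n) := by
      intro i hi
      rw [hval i (mem_range.1 hi)]
      push_cast
      ring
    rw [Finset.sum_congr rfl h2, Finset.sum_add_distrib, ← Finset.sum_mul]
    unfold Bern
    rw [if_neg hne, hz]
    have h3 : (∑ i ∈ range d, (i : ℤ)) * 2 = d * (d - 1) := by
      have : (((∑ i ∈ range d, i) * 2 : ℕ) : ℤ) = ((d * (d - 1) : ℕ) : ℤ) := by rw [hgauss]
      push_cast [Nat.cast_sub hd] at this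
      exact this
    have h4 : (m : ℤ) = d * n := by exact_mod_cast hm
    rw [Finset.sum_const, Finset.card_range, nsmul_eq_mul]
    push_cast
    have h5 : (∑ i ∈ range d, (i : ℤ)) * (2 * n) = d * (d - 1) * n := by
      rw [← h3]; ring
    rw [h5, h4]
    ring
  · rw [DSB_sum m d n hm x (fun y => y)]
    have h1 : (∑ i ∈ range d, ((y0 + i * n : ℕ) : ZMod m)) = ((d * y0 + (∑ i ∈ range d, i) * n : ℕ) : ZMod m) := by
      rw [← Nat.cast_sum, Finset.sum_add_distrib, Finset.sum_const, Finset.card_range, smul_eq_mul, ← Finset.sum_mul]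
    have h2 : (d : ZMod m) * x = ((d * y0 : ℕ) : ZMod m) := by
      rw [← hz, ZMod.natCast_zmod_val]
    rw [h1, h2]
    rcases Nat.even_or_odd d with he | ho
    · rw [if_neg (Nat.not_odd_iff_even.2 he)]
      obtain ⟨e, he⟩ := he
      have hd2 : d = 2 * e := by omega
      have hm2 : m / 2 = e * n := by
        rw [hm, hd2, mul_assoc, Nat.mul_div_cancel_left _ two_pos]
      have h3 : ∑ i ∈ range d, i = e * (d - 1) := by
        have : (∑ i ∈ range d, i) * 2 = (e * (d - 1)) * 2 := by rw [hgauss]; rw [hd2]; ring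
        omega
      rw [h3, hm2, ← Nat.cast_add, ZMod.natCast_eq_natCast_iff']
      have he1 : 1 ≤ e := by omega
      have h4 : d * y0 + e * (d - 1) * n = (d * y0 + e * n) + m * (e - 1) := by
        obtain ⟨e', rfl⟩ : ∃ e', e = e' + 1 := ⟨e - 1, by omega⟩
        have h5 : d - 1 = 2 * e' + 1 := by omega
        rw [h5, hm, hd2, Nat.add_sub_cancel]
        ring
      rw [h4, Nat.add_mul_mod_self_left]
    · rw [if_pos ho, add_zero]
      obtain ⟨e, he⟩ := ho
      have h3 : ∑ i ∈ range d, i = d * e := by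
        have : (∑ i ∈ range d, i) * 2 = (d * e) * 2 := by
          rw [hgauss]
          have : d - 1 = 2 * e := by omega
          rw [this]; ring
        omega
      have h4 : d * y0 + d * e * n = d * y0 + m * e := by rw [hm]; ring
      rw [h3, h4, ZMod.natCast_eq_natCast_iff', Nat.add_mul_mod_self_left]

end Pool.FT
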