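import Pool.Agent.Work.MP_223b32_ft.Interface

set_option autoImplicit false

/-! # Block DSM: digit sums -/

namespace Pool.FT

open Finset

theorem DSM_step (p n : ℕ) (hp : 1 < p) :
    (Nat.digits p n).sum = n % p + (Nat.digits p (n / p)).sum := by
  rcases Nat.eq_zero_or_pos n with h | h
  · subst h; simp
  · rw [Nat.digits_def' hp h, List.sum_cons]

theorem DSM_sum (p : ℕ) (hp : 1 < p) (f : ℕ) : ∀ k, k < p ^ f →
    (Nat.digits p k).sum = ∑ i ∈ range f, k / p ^ i % p := by
  induction f with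
  | zero =>
    intro k hk
    have : k = 0 := by simpa using hk
    subst this
    simp
  | succ f ih =>
    intro k hk
    have h1 : k / p < p ^ f := by
      rw [Nat.div_lt_iff_lt_mul (by omega)]
      rwa [pow_succ] at hk
    rw [DSM_step p k hp, sum_range_succ', ih (k / p) h1, add_comm]
    congr 1
    · apply sum_congr rfl
      intro i _
      rw [Nat.div_div_eq_div_mul, pow_succ']
    · rw [pow_zero, Nat.div_one]

theorem DSM_compl (p : ℕ) (hp : 1 < p) (f : ℕ) : ∀ k, k < p ^ f →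
    (Nat.digits p k).sum + (Nat.digits p (p ^ f - 1 - k)).sum = (p - 1) * f := by
  induction f with
  | zero =>
    intro k hk
    have : k = 0 := by simpa using hk
    subst this
    simp
  | succ f ih =>
    intro k hk
    have h1 : k / p < p ^ f := by
      rw [Nat.div_lt_iff_lt_mul (by omega)]
      rwa [pow_succ] at hk
    have h2 : k % p < p := Nat.mod_lt _ (by omega)
    have h3 : k = p * (k / p) + k % p := (Nat.div_add_mod k p).symm
    have h4 : p ^ (f + 1) - 1 - k = p * (p ^ f - 1 - k / p) + (p - 1 - k % p) := by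
      obtain ⟨t, ht⟩ : ∃ t, p ^ f = k / p + 1 + t := ⟨p ^ f - (k / p + 1), by omega⟩
      have h5 : p ^ (f + 1) = p * (k / p) + p + p * t := by
        rw [pow_succ, ht]
        ring
      have h6 : p ^ f - 1 - k / p = t := by omega
      rw [h6, h5]
      omega
    have h5 : (p ^ (f + 1) - 1 - k) / p = p ^ f - 1 - k / p := by
      have h9 : (p - 1 - k % p) / p = 0 := Nat.div_eq_of_lt (by omega)
      rw [h4, Nat.mul_add_div (by omega), h9, Nat.add_zero]
    have h6 : (p ^ (f + 1) - 1 - k) % p = p - 1 - k % p := by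
      rw [h4, Nat.mul_add_mod, Nat.mod_eq_of_lt (by omega)]
    rw [DSM_step p k hp, DSM_step p (p ^ (f + 1) - 1 - k) hp, h5, h6]
    have h7 := ih (k / p) h1
    have h8 : (p - 1) * (f + 1) = (p - 1) * f + (p - 1) := by ring
    omega

theorem DSM_lt (P Q c r : ℕ) (hc : c < P) (hr : r < Q) (h : Q * c + r < P * Q - 1) :
    c + P * r < P * Q - 1 := by
  obtain ⟨s, rfl⟩ : ∃ s, P = c + 1 + s := ⟨P - (c + 1), by omega⟩
  obtain ⟨t, rfl⟩ : ∃ t, Q = r + 1 + t := ⟨Q - (r + 1), by omega⟩
  have e1 : c + (c + 1 + s) * r + ((c + 1 + s) * t + s) + 1 = (c + 1 + s) * (r + 1 + t) := by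
    ring
  rcases Nat.eq_zero_or_pos s with hs | hs
  · rcases Nat.eq_zero_or_pos t with ht | ht
    · subst hs
      subst ht
      exfalso
      have e2 : (r + 1 + 0) * c + r + 1 = (c + 1 + 0) * (r + 1 + 0) := by ring
      omega
    · have e3 : 0 < (c + 1 + s) * t := Nat.mul_pos (by omega) ht
      omega
  · omega

theorem DSM_mod (p : ℕ) (hp : 1 < p) (f k j : ℕ) (hj : j ≤ f) (hk : k < p ^ f - 1) :
    p ^ j * k = k / p ^ (f - j) * (p ^ f - 1) + (p ^ j * k) % (p ^ f - 1) := by
  have hpf : p ^ j * p ^ (f - j) = p ^ f := by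
    rw [← pow_add]
    congr 1
    omega
  have hQ : 0 < p ^ (f - j) := pow_pos (by omega) _
  have hk' : k < p ^ j * p ^ (f - j) := by omega
  have hc : k / p ^ (f - j) < p ^ j := (Nat.div_lt_iff_lt_mul hQ).2 hk'
  have hr : k % p ^ (f - j) < p ^ (f - j) := Nat.mod_lt _ hQ
  have h0 : p ^ (f - j) * (k / p ^ (f - j)) + k % p ^ (f - j) = k := Nat.div_add_mod _ _
  have hlt : k / p ^ (f - j) + p ^ j * (k % p ^ (f - j)) < p ^ f - 1 := by
    have := DSM_lt (p ^ j) (p ^ (f - j)) (k / p ^ (f - j)) (k % p ^ (f - j)) hc hr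
      (by rw [h0, hpf]; exact hk)
    rwa [hpf] at this
  have h1 : p ^ j * k = (p ^ f - 1) * (k / p ^ (f - j)) +
      (k / p ^ (f - j) + p ^ j * (k % p ^ (f - j))) := by
    obtain ⟨N, hN⟩ : ∃ N, p ^ f = N + 1 := ⟨p ^ f - 1, by omega⟩
    rw [hN, Nat.add_sub_cancel]
    calc p ^ j * k = p ^ j * (p ^ (f - j) * (k / p ^ (f - j)) + k % p ^ (f - j)) := by rw [h0]
      _ = (p ^ j * p ^ (f - j)) * (k / p ^ (f - j)) + p ^ j * (k % p ^ (f - j)) := by ring
      _ = N * (k / p ^ (f - j)) + (k / p ^ (f - j) + p ^ j * (k % p ^ (f - j))) := by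
        rw [hpf, hN]
        ring
  have h2 : (p ^ j * k) % (p ^ f - 1) = k / p ^ (f - j) + p ^ j * (k % p ^ (f - j)) := by
    rw [h1, Nat.mul_add_mod, Nat.mod_eq_of_lt hlt]
  rw [h2, mul_comm (k / p ^ (f - j))]
  exact h1

theorem p_DSM : Stmt_DSM := by
  intro p f k hp hf hk
  have hp1 : 1 < p := hp.one_lt
  refine ⟨?_, DSM_compl p hp1 f k (by omega)⟩
  set N := p ^ f - 1 with hN
  have hrec : ∀ j < f, p * ((p ^ j * k) % N) =
      k / p ^ (f - 1 - j) % p * N + (p ^ (j + 1) * k) % N := by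
    intro j hj
    have h1 := DSM_mod p hp1 f k j (by omega) hk
    have h2 := DSM_mod p hp1 f k (j + 1) (by omega) hk
    rw [← hN] at h1 h2
    have e1 : f - (j + 1) = f - 1 - j := by omega
    have e2 : f - j = f - 1 - j + 1 := by omega
    rw [e1] at h2
    rw [e2, pow_succ, ← Nat.div_div_eq_div_mul] at h1
    have h3 : p * (k / p ^ (f - 1 - j) / p) + k / p ^ (f - 1 - j) % p = k / p ^ (f - 1 - j) :=
      Nat.div_add_mod _ _
    have h4 : p ^ (j + 1) * k = p * (p ^ j * k) := by ring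
    have h5 : p * (p ^ j * k) = p * (k / p ^ (f - 1 - j) / p) * N + p * ((p ^ j * k) % N) := by
      calc p * (p ^ j * k) = p * (k / p ^ (f - 1 - j) / p * N + (p ^ j * k) % N) := by
            rw [← h1]
        _ = _ := by ring
    have h6 : p * (p ^ j * k) = (p * (k / p ^ (f - 1 - j) / p) + k / p ^ (f - 1 - j) % p) * N +
        (p ^ (j + 1) * k) % N := by
      rw [h3, ← h4]
      exact h2
    rw [add_mul] at h6
    omega
  have hsum : p * ∑ j ∈ range f, (p ^ j * k) % N =
      N * ∑ j ∈ range f, k / p ^ j % p + ∑ j ∈ range f, (p ^ (j + 1) * k) % N := by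
    rw [← sum_range_reflect (fun j => k / p ^ j % p) f, mul_sum, mul_sum, ← sum_add_distrib]
    apply sum_congr rfl
    intro j hj
    rw [hrec j (mem_range.1 hj)]
    ring
  have hshift : ∑ j ∈ range f, (p ^ (j + 1) * k) % N = ∑ j ∈ range f, (p ^ j * k) % N := by
    have h1 := sum_range_succ (fun j => (p ^ j * k) % N) f
    have h2 := sum_range_succ' (fun j => (p ^ j * k) % N) f
    have h3 : (p ^ f * k) % N = (p ^ 0 * k) % N := by
      have : p ^ f * k = N * k + k := by
        have h4 : p ^ f = N + 1 := by omega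
        rw [h4]
        ring
      rw [this, Nat.mul_add_mod, pow_zero, one_mul]
    omega
  rw [hshift] at hsum
  rw [DSM_sum p hp1 f k (by omega)]
  obtain ⟨q, rfl⟩ : ∃ q, p = q + 1 := ⟨p - 1, by omega⟩
  rw [Nat.add_sub_cancel]
  rw [add_mul, one_mul] at hsum
  omega

end Pool.FT
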