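import Pool.Agent.Work.MP_223b32_ft.Interface

/-!
Block EDI: the distribution relation of `e` for primes dividing `m`.
-/

namespace Pool.FT

open Finset

theorem EDI_odd (m p : ℕ) (Alg : Multiset (ZMod m) → Prop) (hA : FermatCycles m p Alg)
    (Q : Type) [AddCommGroup Q] (e : ZMod m → Q) (he : Kills Alg e) (x : ZMod m) :
    e (-x) = - e x := by
  by_cases hx : x = 0
  · subst hx
    rw [neg_zero, he.zero, neg_zero]
  · have h := he.kill _ (hA.pair x hx)
    simp only [Multiset.insert_eq_cons, Multiset.map_cons, Multiset.map_singleton,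
      Multiset.sum_cons, Multiset.sum_singleton] at h
    exact (neg_eq_of_add_eq_zero_right h).symm

theorem EDI_fibre (m l : ℕ) [NeZero m] (hl : 0 < l) (hlm : l ∣ m) (x : ZMod m)
    {Q : Type} [AddCommGroup Q] (F : ZMod m → Q) :
    ∑ y ∈ (univ : Finset (ZMod m)).filter (fun y => (l : ZMod m) * y = (l : ZMod m) * x), F y =
      ∑ i ∈ range l, F (x + (i : ZMod m) * ((m / l : ℕ) : ZMod m)) := by
  have hm0 : 0 < m := Nat.pos_of_ne_zero (NeZero.ne m)
  have hml : l * (m / l) = m := Nat.mul_div_cancel' hlm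
  have hq : 0 < m / l := Nat.div_pos (Nat.le_of_dvd hm0 hlm) hl
  have himg : (univ : Finset (ZMod m)).filter
      (fun y => (l : ZMod m) * y = (l : ZMod m) * x) =
      (range l).image (fun i : ℕ => x + (i : ZMod m) * ((m / l : ℕ) : ZMod m)) := by
    ext y
    rw [mem_filter, mem_image]
    constructor
    · rintro ⟨-, hy⟩
      have h1 : ((l * (y - x).val : ℕ) : ZMod m) = 0 := by
        rw [Nat.cast_mul, ZMod.natCast_zmod_val, mul_sub, hy, sub_self]
      rw [ZMod.natCast_eq_zero_iff] at h1
      have h2 : l * (m / l) ∣ l * (y - x).val := by rw [hml]; exact h1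
      obtain ⟨i, hi⟩ := Nat.dvd_of_mul_dvd_mul_left hl h2
      have hlt : (y - x).val < m := ZMod.val_lt _
      refine ⟨i, ?_, ?_⟩
      · rw [mem_range]
        by_contra hc
        push Not at hc
        have h3 : l * (m / l) ≤ (m / l) * i := by
          rw [mul_comm]
          exact Nat.mul_le_mul_left _ hc
        rw [hml, ← hi] at h3
        omega
      · have h4 : (y - x : ZMod m) = ((m / l : ℕ) : ZMod m) * (i : ZMod m) := by
          rw [← ZMod.natCast_zmod_val (y - x), hi, Nat.cast_mul]
        rw [mul_comm, ← h4]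
        abel
    · rintro ⟨i, -, rfl⟩
      refine ⟨mem_univ _, ?_⟩
      have h5 : (l : ZMod m) * ((m / l : ℕ) : ZMod m) = 0 := by
        rw [← Nat.cast_mul, hml, ZMod.natCast_self]
      linear_combination (i : ZMod m) * h5
  rw [himg, sum_image]
  intro i hi j hj hij
  have hi' : i < l := by simpa using hi
  have hj' : j < l := by simpa using hj
  have h1 : ((i * (m / l) : ℕ) : ZMod m) = ((j * (m / l) : ℕ) : ZMod m) := by
    rw [Nat.cast_mul, Nat.cast_mul]
    exact add_left_cancel hij
  have hlt : ∀ k, k < l → k * (m / l) < m := by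
    intro k hk
    calc k * (m / l) < l * (m / l) := Nat.mul_lt_mul_of_pos_right hk hq
      _ = m := hml
  have h2 := congrArg ZMod.val h1
  rw [ZMod.val_cast_of_lt (hlt i hi'), ZMod.val_cast_of_lt (hlt j hj')] at h2
  exact Nat.eq_of_mul_eq_mul_right hq h2

theorem p_EDI : Stmt_EDI := by
  intro m p l _ Alg hA hl hlm Q _ e he x hx
  have hodd := EDI_odd m p Alg hA Q e he
  have hm0 : 0 < m := Nat.pos_of_ne_zero (NeZero.ne m)
  have hml : l * (m / l) = m := Nat.mul_div_cancel' hlm
  have hq : 0 < m / l := Nat.div_pos (Nat.le_of_dvd hm0 hlm) hl.pos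
  have hw0 : ((m / l : ℕ) : ZMod m) ≠ 0 := by
    intro h
    rw [ZMod.natCast_eq_zero_iff] at h
    have h1 := Nat.le_of_dvd hq h
    have h2 := hl.two_le
    nlinarith
  have hlw : (l : ZMod m) * ((m / l : ℕ) : ZMod m) = 0 := by
    rw [← Nat.cast_mul, hml, ZMod.natCast_self]
  rw [EDI_fibre m l hl.pos hlm x]
  by_cases h2 : l = 2
  · subst h2
    rw [if_pos rfl]
    have hh : ((m / 2 : ℕ) : ZMod m) + ((m / 2 : ℕ) : ZMod m) = 0 := by
      have h3 := hlw
      push_cast at h3
      linear_combination h3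
    have hx0 : x ≠ 0 := by
      rintro rfl
      exact hx (mul_zero _)
    have hxh : x ≠ ((m / 2 : ℕ) : ZMod m) := by
      rintro rfl
      exact hx hlw
    have h := he.kill _ (hA.two _ x hw0 hh hx0 hxh)
    simp only [Multiset.insert_eq_cons, Multiset.map_cons, Multiset.map_singleton,
      Multiset.sum_cons, Multiset.sum_singleton, hodd] at h
    have h4 : ((2 : ℕ) : ZMod m) * x = x + x := by push_cast; ring
    rw [h4, sum_range_succ, sum_range_one, Nat.cast_zero, zero_mul, add_zero, Nat.cast_one,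
      one_mul]
    have h5 : e x + (e (x + ((m / 2 : ℕ) : ZMod m)) + (-e (x + x) +
        e ((m / 2 : ℕ) : ZMod m))) + e (x + x) = 0 + e (x + x) := by rw [h]
    rw [zero_add] at h5
    rw [← h5]
    abel
  · rw [if_neg h2, add_zero]
    have hlo : Odd l := hl.odd_of_ne_two h2
    have h := he.kill _ (hA.odd l _ x hl hlo hw0 hlw hx)
    rw [Multiset.map_add, Multiset.sum_add, Multiset.map_singleton, Multiset.sum_singleton,
      hodd, Multiset.map_map, ← sub_eq_add_neg, sub_eq_zero] at h
    simp only [Multiset.bind_def, Multiset.pure_def, Multiset.bind_singleton,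
      Multiset.map_map] at h
    rw [← h]
    rfl

end Pool.FT
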