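import Pool.Agent.Work.MP_223b32_ft.Interface

/-!
Block EDJ: the distribution relation of `e` for prime powers dividing `m`.
-/

namespace Pool.FT

open Finset

theorem EDJ_odd (m p : ℕ) (Alg : Multiset (ZMod m) → Prop) (hA : FermatCycles m p Alg)
    (Q : Type) [AddCommGroup Q] (e : ZMod m → Q) (he : Kills Alg e) (x : ZMod m) :
    e (-x) = - e x := by
  by_cases hx : x = 0
  · subst hx
    rw [neg_zero, he.zero, neg_zero]
  · have h := he.kill _ (hA.pair x hx)
    simp only [Multiset.insert_eq_cons, Multiset.map_cons, Multiset.map_singleton,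
      Multiset.sum_cons, Multiset.sum_singleton] at h
    exact (neg_eq_of_add_eq_zero_right h).symm

theorem EDJ_fibre (m l : ℕ) [NeZero m] (hl : 0 < l) (hlm : l ∣ m) (x : ZMod m)
    {Q : Type} [AddCommGroup Q] (F : ZMod m → Q) :
    ∑ y ∈ (univ : Finset (ZMod m)).filter (fun y => (l : ZMod m) * y = (l : ZMod m) * x), F y =
      ∑ i ∈ range l, F (x + (i : ZMod m) * ((m / l : ℕ) : ZMod m)) := by
  have hm0 : 0 < m := Nat.pos_of_ne_zero (NeZero.ne m)
  have hml : l * (m / l) = m := Nat.mul_div_cancel' hlm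
  have hq : 0 < m / l := Nat.div_pos (Nat.le_of_dvd hm0 hlm) hl
  have himg : (univ : Finset (ZMod m)).filter
      (fun y => (l : ZMod m) * y = (l : ZMod m) * x) =
      (range l).image (fun i : ℕ => x + (i : ZMod m) * ((m / l : ℕ) : ZMod m)) := by
    ext y
    rw [mem_filter, mem_image]
    constructor
    · rintro ⟨-, hy⟩
      have h1 : ((l * (y - x).val : ℕ) : ZMod m) = 0 := by
        rw [Nat.cast_mul, ZMod.natCast_zmod_val, mul_sub, hy, sub_self]
      rw [ZMod.natCast_eq_zero_iff] at h1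
      have h2 : l * (m / l) ∣ l * (y - x).val := by rw [hml]; exact h1
      obtain ⟨i, hi⟩ := Nat.dvd_of_mul_dvd_mul_left hl h2
      have hlt : (y - x).val < m := ZMod.val_lt _
      refine ⟨i, ?_, ?_⟩
      · rw [mem_range]
        by_contra hc
        push Not at hc
        have h3 : l * (m / l) ≤ (m / l) * i := by
          rw [mul_comm]
          exact Nat.mul_le_mul_left _ hc
        rw [hml, ← hi] at h3
        omega
      · have h4 : (y - x : ZMod m) = ((m / l : ℕ) : ZMod m) * (i : ZMod m) := by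
          rw [← ZMod.natCast_zmod_val (y - x), hi, Nat.cast_mul]
        rw [mul_comm, ← h4]
        abel
    · rintro ⟨i, -, rfl⟩
      refine ⟨mem_univ _, ?_⟩
      have h5 : (l : ZMod m) * ((m / l : ℕ) : ZMod m) = 0 := by
        rw [← Nat.cast_mul, hml, ZMod.natCast_self]
      linear_combination (i : ZMod m) * h5
  rw [himg, sum_image]
  intro i hi j hj hij
  have hi' : i < l := by simpa using hi
  have hj' : j < l := by simpa using hj
  have h1 : ((i * (m / l) : ℕ) : ZMod m) = ((j * (m / l) : ℕ) : ZMod m) := by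
    rw [Nat.cast_mul, Nat.cast_mul]
    exact add_left_cancel hij
  have hlt : ∀ k, k < l → k * (m / l) < m := by
    intro k hk
    calc k * (m / l) < l * (m / l) := Nat.mul_lt_mul_of_pos_right hk hq
      _ = m := hml
  have h2 := congrArg ZMod.val h1
  rw [ZMod.val_cast_of_lt (hlt i hi'), ZMod.val_cast_of_lt (hlt j hj')] at h2
  exact Nat.eq_of_mul_eq_mul_right hq h2

theorem EDJ_kappa (m p : ℕ) [NeZero m] (Alg : Multiset (ZMod m) → Prop)
    (hA : FermatCycles m p Alg) (hm : 2 ∣ m)
    (Q : Type) [AddCommGroup Q] (e : ZMod m → Q) (he : Kills Alg e) :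
    e ((m / 2 : ℕ) : ZMod m) + e ((m / 2 : ℕ) : ZMod m) = 0 := by
  have hm0 : 0 < m := Nat.pos_of_ne_zero (NeZero.ne m)
  have h1 : ((m / 2 : ℕ) : ZMod m) + ((m / 2 : ℕ) : ZMod m) = 0 := by
    rw [← Nat.cast_add]
    have : m / 2 + m / 2 = m := by omega
    rw [this, ZMod.natCast_self]
  have h2 : ((m / 2 : ℕ) : ZMod m) ≠ 0 := by
    intro h
    rw [ZMod.natCast_eq_zero_iff] at h
    have := Nat.le_of_dvd (by omega) h
    omega
  have h := he.kill _ (hA.pair _ h2)
  have h3 : -((m / 2 : ℕ) : ZMod m) = ((m / 2 : ℕ) : ZMod m) := neg_eq_of_add_eq_zero_right h1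
  rw [h3] at h
  simp only [Multiset.insert_eq_cons, Multiset.map_cons, Multiset.map_singleton,
    Multiset.sum_cons, Multiset.sum_singleton] at h
  exact h

theorem p_EDJ (h1 : Stmt_EDI) : Stmt_EDJ := by
  intro m p l j _ Alg hA hl hlj Q _ e he
  induction j with
  | zero =>
    intro x _
    have h2 : (univ : Finset (ZMod m)).filter
        (fun y => ((l ^ 0 : ℕ) : ZMod m) * y = ((l ^ 0 : ℕ) : ZMod m) * x) = {x} := by
      ext y
      simp
    rw [h2, sum_singleton]
    simp
  | succ j ih =>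
    intro x hx
    have hlj' : l ^ j ∣ m := (pow_dvd_pow l (Nat.le_succ j)).trans hlj
    have hlm : l ∣ m := (dvd_pow_self l (Nat.succ_ne_zero j)).trans hlj
    have hpow : ∀ y : ZMod m, ((l ^ (j + 1) : ℕ) : ZMod m) * y =
        (l : ZMod m) * (((l ^ j : ℕ) : ZMod m) * y) := by
      intro y
      push_cast
      ring
    have hx' : (l : ZMod m) * (((l ^ j : ℕ) : ZMod m) * x) ≠ 0 := by
      rw [← hpow]
      exact hx
    have e1 := h1 m p l Alg hA hl hlm Q e he (((l ^ j : ℕ) : ZMod m) * x) hx'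
    -- every element of the fibre is a multiple of `l ^ j`
    have e2 : ∀ w ∈ (univ : Finset (ZMod m)).filter
        (fun y => (l : ZMod m) * y = (l : ZMod m) * (((l ^ j : ℕ) : ZMod m) * x)),
        e w = ∑ y ∈ ((univ : Finset (ZMod m)).filter
          (fun y => ((l ^ (j + 1) : ℕ) : ZMod m) * y = ((l ^ (j + 1) : ℕ) : ZMod m) * x)).filter
          (fun y => ((l ^ j : ℕ) : ZMod m) * y = w), e y
          + (if l = 2 ∧ 0 < j then e ((m / 2 : ℕ) : ZMod m) else 0) := by
      intro w hw
      rw [mem_filter] at hw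
      have hv : ∃ v : ZMod m, ((l ^ j : ℕ) : ZMod m) * v = w := by
        have h3 : ((l * (w - ((l ^ j : ℕ) : ZMod m) * x).val : ℕ) : ZMod m) = 0 := by
          rw [Nat.cast_mul, ZMod.natCast_zmod_val, mul_sub, hw.2, sub_self]
        rw [ZMod.natCast_eq_zero_iff] at h3
        have h4 : l * l ^ j ∣ l * (w - ((l ^ j : ℕ) : ZMod m) * x).val := by
          have h5 : l * l ^ j = l ^ (j + 1) := by rw [pow_succ, mul_comm]
          rw [h5]
          exact hlj.trans h3
        obtain ⟨c, hc⟩ := Nat.dvd_of_mul_dvd_mul_left hl.pos h4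
        refine ⟨x + (c : ZMod m), ?_⟩
        have h6 : w - ((l ^ j : ℕ) : ZMod m) * x = ((l ^ j : ℕ) : ZMod m) * (c : ZMod m) := by
          rw [← ZMod.natCast_zmod_val (w - ((l ^ j : ℕ) : ZMod m) * x), hc, Nat.cast_mul]
        rw [mul_add, ← h6]
        abel
      obtain ⟨v, hv⟩ := hv
      have hw0 : ((l ^ j : ℕ) : ZMod m) * v ≠ 0 := by
        intro h
        rw [hv] at h
        rw [h, mul_zero] at hw
        exact hx' hw.2.symm
      have e3 := ih hlj' v hw0
      rw [hv] at e3
      rw [e3]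
      congr 1
      refine sum_congr ?_ fun _ _ => rfl
      ext y
      rw [mem_filter, mem_filter, mem_filter]
      constructor
      · rintro ⟨_, hy⟩
        refine ⟨⟨mem_univ _, ?_⟩, hy⟩
        rw [hpow, hpow, hy, hw.2]
      · rintro ⟨_, hy⟩
        exact ⟨mem_univ _, hy⟩
    rw [hpow x, e1, sum_congr rfl e2, sum_add_distrib]
    rw [← hpow x]
    have e4 : ∑ w ∈ (univ : Finset (ZMod m)).filter
        (fun y => (l : ZMod m) * y = ((l ^ (j + 1) : ℕ) : ZMod m) * x),
        ∑ y ∈ ((univ : Finset (ZMod m)).filter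
          (fun y => ((l ^ (j + 1) : ℕ) : ZMod m) * y = ((l ^ (j + 1) : ℕ) : ZMod m) * x)).filter
          (fun y => ((l ^ j : ℕ) : ZMod m) * y = w), e y =
        ∑ y ∈ (univ : Finset (ZMod m)).filter
          (fun y => ((l ^ (j + 1) : ℕ) : ZMod m) * y = ((l ^ (j + 1) : ℕ) : ZMod m) * x), e y := by
      refine sum_fiberwise_of_maps_to (g := fun y => ((l ^ j : ℕ) : ZMod m) * y) ?_ _
      intro y hy
      rw [mem_filter] at hy ⊢
      refine ⟨mem_univ _, ?_⟩
      rw [← hpow, hy.2]
    rw [e4, add_assoc]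
    congr 1
    rw [hpow x, EDJ_fibre m l hl.pos hlm (((l ^ j : ℕ) : ZMod m) * x) (fun _ =>
      (if l = 2 ∧ 0 < j then e ((m / 2 : ℕ) : ZMod m) else 0)), sum_const, card_range]
    by_cases h2 : l = 2
    · subst h2
      have hk := EDJ_kappa m p Alg hA hlm Q e he
      by_cases hj : 0 < j
      · rw [if_pos ⟨rfl, hj⟩, if_pos rfl, if_pos ⟨rfl, Nat.succ_pos j⟩, two_smul, hk, zero_add]
      · rw [if_neg (fun h => hj h.2), if_pos rfl, if_pos ⟨rfl, Nat.succ_pos j⟩, smul_zero,
          zero_add]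
    · rw [if_neg (fun h => h2 h.1), if_neg h2, if_neg (fun h => h2 h.1), smul_zero, zero_add]

end Pool.FT
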