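import Pool.Agent.Work.MP_223b32_ft.Interface3

/-! # Block EIG: the local eigenvalues (helper84) -/

namespace Pool.FT

open Finset Polynomial

/-- `(χ ^ a)⁻¹ y = χ y ^ (m - a)` for `y ≠ 0`, `m` the order of `χ`. -/
theorem EIG_inv {K : Type} [Field K] (χ : MulChar K ℂ) (m : ℕ) (hχ : orderOf χ = m)
    (a : ℕ) (ha : a ≤ m) (y : K) (hy : y ≠ 0) : (χ ^ a)⁻¹ y = χ y ^ (m - a) := by
  have h1 : (χ ^ a)⁻¹ = χ ^ (m - a) := by
    rw [inv_eq_iff_mul_eq_one, ← pow_add, Nat.add_sub_cancel' ha, ← hχ, pow_orderOf_eq_one]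
  rw [h1]
  exact MulChar.pow_apply_coe χ (m - a) (Units.mk0 y hy)

theorem EIG_powm {K : Type} [Field K] (χ : MulChar K ℂ) (m : ℕ) (hχ : orderOf χ = m)
    (y : K) (hy : y ≠ 0) : χ y ^ m = 1 := by
  have h1 := MulChar.pow_apply_coe χ m (Units.mk0 y hy)
  rw [← hχ, pow_orderOf_eq_one, MulChar.one_apply_coe, hχ] at h1
  exact h1.symm

/-- the exponent of `c i k` (up to `m`) -/
def EIG_exp {m n : ℕ} (b : Cls m n) (k : Fin (n + 2)) : ℕ :=
  match b with
  | Sum.inl _ => 0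
  | Sum.inr a => m - (a.1 k).val

theorem EIG_sgn (n d : ℕ) (hd : 0 < d) (x : ℂ) :
    (-1 : ℂ) ^ n * ((-1) ^ (n * (d - 1)) * x) = ((-1) ^ n) ^ d * x := by
  rw [← PTX_sign2 n d hd]
  have h : (-1 : ℂ) ^ n * (-1) ^ n = 1 := by
    rw [← mul_pow]
    norm_num
  calc (-1 : ℂ) ^ n * ((-1) ^ n * ((-1) ^ n) ^ d * x)
      = ((-1 : ℂ) ^ n * (-1) ^ n) * (((-1) ^ n) ^ d * x) := by ring
    _ = _ := by rw [h, one_mul]

theorem EIG_lam (hGJA : Stmt_GJA) (hHDV : Stmt_HDV) (F K : Type) [Field F] [Fintype F]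
    [Field K] [Fintype K] [Algebra F K] (m n : ℕ) [NeZero m] (χ : MulChar F ℂ)
    (hχ : orderOf χ = m) (c : Fin (n + 2) → Kˣ) (b : Cls m n) :
    lam (PTX_nc K χ) c b = (lam χ (fun _ => (1 : Fˣ)) b) ^ (Module.finrank F K) *
      ∏ k, (PTX_nc K χ (c k : K)) ^ (m + EIG_exp b k) := by
  have hK : orderOf (PTX_nc K χ) = m := (PTX_order K χ).trans hχ
  have hd : 0 < Module.finrank F K := Module.finrank_pos
  have hQ : (Fintype.card K : ℂ) = (Fintype.card F : ℂ) ^ (Module.finrank F K) := by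
    rw [Module.card_eq_pow_finrank (K := F) (V := K), Nat.cast_pow]
  have h1 : ∀ k, (PTX_nc K χ (c k : K)) ^ (m + EIG_exp b k) =
      (PTX_nc K χ (c k : K)) ^ (EIG_exp b k) := by
    intro k
    rw [pow_add, EIG_powm (PTX_nc K χ) m hK (c k : K) (c k).ne_zero, one_mul]
  rw [Finset.prod_congr rfl fun k _ => h1 k]
  rcases b with s | a
  · show (Fintype.card K : ℂ) ^ (s : ℕ) =
      ((Fintype.card F : ℂ) ^ (s : ℕ)) ^ (Module.finrank F K) *
        ∏ k, (PTX_nc K χ (c k : K)) ^ 0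
    rw [Finset.prod_congr rfl fun k _ => pow_zero _, Finset.prod_const_one, mul_one, hQ,
      ← pow_mul, ← pow_mul, mul_comm]
  · show (-1) ^ n * (∏ k, ((PTX_nc K χ) ^ (a.1 k).val)⁻¹ (c k : K)) *
        (Jac (PTX_nc K χ) a.1 / ((Fintype.card K : ℂ) - 1)) =
      ((-1) ^ n * (∏ k : Fin (n + 2), (χ ^ (a.1 k).val)⁻¹ ((1 : Fˣ) : F)) *
        (Jac χ a.1 / ((Fintype.card F : ℂ) - 1))) ^ (Module.finrank F K) *
        ∏ k, (PTX_nc K χ (c k : K)) ^ (m - (a.1 k).val)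
    have hq1 : 1 < Fintype.card K := Fintype.one_lt_card
    have hq2 : (Fintype.card K : ℂ) - 1 ≠ 0 := by
      rw [sub_ne_zero]
      exact_mod_cast (by omega : Fintype.card K ≠ 1)
    have h2 : Jac (PTX_nc K χ) a.1 / ((Fintype.card K : ℂ) - 1) =
        (-1) ^ (n * (Module.finrank F K - 1)) *
        (Jac χ a.1 / ((Fintype.card F : ℂ) - 1)) ^ (Module.finrank F K) := by
      rw [PTX_jac hGJA hHDV F K m n χ hχ a, mul_assoc, mul_div_cancel_left₀ _ hq2]
    have h3 : ∀ k : Fin (n + 2), (χ ^ (a.1 k).val)⁻¹ ((1 : Fˣ) : F) = 1 := by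
      intro k
      rw [Units.val_one, map_one]
    have h4 : ∀ k : Fin (n + 2), ((PTX_nc K χ) ^ (a.1 k).val)⁻¹ (c k : K) =
        (PTX_nc K χ (c k : K)) ^ (m - (a.1 k).val) := fun k =>
      EIG_inv (PTX_nc K χ) m hK (a.1 k).val (ZMod.val_lt _).le (c k : K) (c k).ne_zero
    rw [h2, Finset.prod_congr rfl fun k _ => h3 k, Finset.prod_const_one, mul_one,
      Finset.prod_congr rfl fun k _ => h4 k, mul_pow, ← EIG_sgn n _ hd]
    ring

theorem p_EIG (hGJA : Stmt_GJA) (hHDV : Stmt_HDV) : Stmt_EIG := by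
  intro F _ _ χ m _ hχ r ι _ n c hc b
  have hm : 0 < m := Nat.pos_of_ne_zero (NeZero.ne m)
  refine ⟨∏ i, ∏ k, (c i k) ^ (m + EIG_exp (b i) k), ?_, ?_, ?_⟩
  · rw [Finset.prod_ne_zero_iff]
    intro i _
    rw [Finset.prod_ne_zero_iff]
    intro k _
    exact pow_ne_zero _ (hc i k)
  · intro v
    rw [← Ideal.Quotient.eq_zero_iff_mem.not, map_prod, ← ne_eq]
    rw [Finset.prod_ne_zero_iff]
    constructor
    · intro h i k hk
      have h1 := h i (Finset.mem_univ _)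
      rw [map_prod, Finset.prod_ne_zero_iff] at h1
      have h2 := h1 k (Finset.mem_univ _)
      rw [map_pow, Ideal.Quotient.eq_zero_iff_mem.2 hk] at h2
      exact h2 (zero_pow (by omega))
    · intro h i _
      rw [map_prod, Finset.prod_ne_zero_iff]
      intro k _
      rw [map_pow]
      exact pow_ne_zero _ (fun h1 => h i k (Ideal.Quotient.eq_zero_iff_mem.1 h1))
  · intro v
    unfold eigAt eigP rho pdeg
    rw [Finset.prod_congr rfl fun i _ =>
      EIG_lam hGJA hHDV F (kap v.1) m (n i) χ hχ (redC v i) (b i), Finset.prod_mul_distrib,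
      Finset.prod_pow]
    congr 1
    rw [map_prod, map_prod, map_prod]
    refine Finset.prod_congr rfl fun i _ => ?_
    rw [map_prod, map_prod, map_prod]
    refine Finset.prod_congr rfl fun k _ => ?_
    rw [map_pow, map_pow, map_pow]
    rfl

end Pool.FT
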