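import Pool.Agent.Work.MP_223b32_ft.Interface4

namespace Pool.FT

open Finset

theorem EMB_pos (m M : ℕ) [NeZero m] [NeZero M] (h : m ∣ M) : 0 < M / m :=
  Nat.div_pos (Nat.le_of_dvd (Nat.pos_of_ne_zero (NeZero.ne M)) h)
    (Nat.pos_of_ne_zero (NeZero.ne m))

theorem EMB_val (m M : ℕ) [NeZero m] [NeZero M] (h : m ∣ M) (x : ZMod m) :
    (emb m M x).val = M / m * x.val := by
  rw [emb, ZMod.val_natCast, Nat.mod_eq_of_lt]
  calc M / m * x.val < M / m * m := (Nat.mul_lt_mul_left (EMB_pos m M h)).2 (ZMod.val_lt x)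
    _ = M := Nat.div_mul_cancel h

/-- the value on the image of an integer -/
theorem EMB_nat (m M : ℕ) [NeZero m] [NeZero M] (h : m ∣ M) (k : ℕ) :
    emb m M (k : ZMod m) = ((M / m * k : ℕ) : ZMod M) := by
  rw [emb, ZMod.val_natCast, ZMod.natCast_eq_natCast_iff]
  have h1 : M / m * (k % m) ≡ M / m * k [MOD (M / m * m)] :=
    Nat.ModEq.mul_left' _ (Nat.mod_modEq k m)
  rwa [Nat.div_mul_cancel h] at h1

theorem EMB_add (m M : ℕ) [NeZero m] [NeZero M] (h : m ∣ M) (x y : ZMod m) :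
    emb m M (x + y) = emb m M x + emb m M y := by
  have h1 : x + y = ((x.val + y.val : ℕ) : ZMod m) := by
    rw [Nat.cast_add, ZMod.natCast_zmod_val, ZMod.natCast_zmod_val]
  rw [h1, EMB_nat m M h, emb, emb, mul_add, Nat.cast_add]

theorem EMB_zero (m M : ℕ) [NeZero m] [NeZero M] : emb m M 0 = 0 := by
  simp [emb]

theorem p_EMB : Stmt_EMB := by
  intro m M _ _ h
  refine ⟨EMB_val m M h, EMB_add m M h, ?_, ?_, ?_, ?_, ?_⟩
  · intro x
    apply eq_neg_of_add_eq_zero_left
    rw [← EMB_add m M h, neg_add_cancel, EMB_zero]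
  · intro x
    constructor
    · intro hx
      have h1 := EMB_val m M h x
      rw [hx, ZMod.val_zero] at h1
      have h2 : x.val = 0 := by
        rcases Nat.mul_eq_zero.1 h1.symm with h3 | h3
        · have := EMB_pos m M h
          omega
        · exact h3
      exact (ZMod.val_eq_zero x).1 h2
    · rintro rfl
      exact EMB_zero m M
  · intro k x
    have h1 : (k : ZMod m) * x = ((k * x.val : ℕ) : ZMod m) := by
      rw [Nat.cast_mul, ZMod.natCast_zmod_val]
    rw [h1, EMB_nat m M h, emb, ← Nat.cast_mul]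
    congr 1
    ring
  · intro x
    rw [emb, ← Nat.cast_mul, ← mul_assoc, Nat.mul_div_cancel' h, Nat.cast_mul,
      ZMod.natCast_self, zero_mul]
  · intro y hy
    have h1 : M ∣ m * y.val := by
      rw [← ZMod.natCast_eq_zero_iff, Nat.cast_mul, ZMod.natCast_zmod_val]
      exact hy
    have hm : 0 < m := Nat.pos_of_ne_zero (NeZero.ne m)
    have h2 : M / m ∣ y.val := by
      apply Nat.dvd_of_mul_dvd_mul_left hm
      rw [Nat.mul_div_cancel' h]
      exact h1
    refine ⟨((y.val / (M / m) : ℕ) : ZMod m), ?_⟩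
    rw [EMB_nat m M h, Nat.mul_div_cancel' h2, ZMod.natCast_zmod_val]

end Pool.FT
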