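import Pool.Agent.Work.MP_223b32_ft.Interface2

/-! Block ENZ of THEOREM FT. -/

namespace Pool.FT

open Finset

theorem p_ENZ (hGJA : Stmt_GJA) : Stmt_ENZ := by
  intro F _ _ χ m _ hχ n c b
  have hq1 : 1 < Fintype.card F := Fintype.one_lt_card
  have hq0 : (Fintype.card F : ℂ) ≠ 0 := by exact_mod_cast (by omega : Fintype.card F ≠ 0)
  cases b with
  | inl r => exact pow_ne_zero _ hq0
  | inr a =>
    have hqn1 : (Fintype.card F : ℂ) - 1 ≠ 0 := by
      rw [sub_ne_zero]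
      exact_mod_cast hq1.ne'
    obtain ⟨ψ, hψ⟩ : ∃ ψ : AddChar F ℂ, ψ.IsPrimitive :=
      ⟨_, AddChar.FiniteField.primitiveChar_to_Complex_isPrimitive F⟩
    have hψ1 : ψ ≠ 1 := by
      intro h
      apply hψ (one_ne_zero : (1 : F) ≠ 0)
      rw [AddChar.mulShift_one]
      exact h
    have h1 := hGJA F ℂ ψ hψ1 m χ hχ (n + 2) a.1 (by omega) a.2.1 a.2.2
    have hJ : Jac χ a.1 ≠ 0 := by
      intro h0
      rw [h0, mul_zero] at h1
      have h2 := (mul_eq_zero.1 h1.symm).resolve_left hqn1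
      obtain ⟨k, _, hk⟩ := Finset.prod_eq_zero_iff.1 h2
      have hk1 : χ ^ (a.1 k).val ≠ 1 := by
        intro h3
        have h4 := orderOf_dvd_of_pow_eq_one h3
        rw [hχ] at h4
        have h5 : (a.1 k).val ≠ 0 := by
          rw [Ne, ZMod.val_eq_zero]; exact a.2.1 k
        have h6 := Nat.le_of_dvd (Nat.pos_of_ne_zero h5) h4
        exact absurd (ZMod.val_lt (a.1 k)) (not_lt.2 h6)
      exact gaussSum_ne_zero_of_nontrivial hq0 hk1 hψ hk
    show (-1) ^ n * (∏ k, (χ ^ (a.1 k).val)⁻¹ (c k : F)) *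
      (Jac χ a.1 / ((Fintype.card F : ℂ) - 1)) ≠ 0
    refine mul_ne_zero (mul_ne_zero (pow_ne_zero _ (by norm_num)) ?_) (div_ne_zero hJ hqn1)
    refine Finset.prod_ne_zero_iff.2 (fun k _ => ?_)
    exact (IsUnit.map (χ ^ (a.1 k).val)⁻¹ (c k).isUnit).ne_zero

end Pool.FT
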