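import Pool.Agent.Work.MP_223b32_ft.Interface3

/-! Block EU1 (helper55): Euler product and logarithm. -/

namespace Pool.FT

open Finset Polynomial

theorem EU1_summable {V : Type} {deg : V → ℕ} {Q : ℝ} (hQ : 1 ≤ Q)
    (hd : ∀ d : ℕ, {v : V | deg v = d}.Finite ∧ (({v : V | deg v = d}.ncard : ℕ) : ℝ) ≤ Q ^ d)
    {t : ℝ} (ht0 : 0 ≤ t) (ht : t * Q < 1) : Summable (fun v => t ^ deg v) := by
  have hgeo : Summable (fun d : ℕ => (t * Q) ^ d) :=
    summable_geometric_of_lt_one (mul_nonneg ht0 (by linarith)) ht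
  refine summable_of_sum_le (c := ∑' d : ℕ, (t * Q) ^ d) (fun v => pow_nonneg ht0 _) ?_
  intro u
  have h1 : ∑ v ∈ u, t ^ deg v =
      ∑ d ∈ u.image deg, ∑ v ∈ u.filter (fun v => deg v = d), t ^ deg v :=
    (Finset.sum_fiberwise_of_maps_to (fun v hv => Finset.mem_image_of_mem deg hv) _).symm
  rw [h1]
  refine le_trans (Finset.sum_le_sum (g := fun d => (t * Q) ^ d) ?_)
    (hgeo.sum_le_tsum _ (fun d _ => by positivity))
  intro d _
  have h2 : ∑ v ∈ u.filter (fun v => deg v = d), t ^ deg v =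
      ((u.filter (fun v => deg v = d)).card : ℝ) * t ^ d := by
    rw [Finset.sum_congr rfl (fun v hv => by rw [(Finset.mem_filter.1 hv).2]),
      Finset.sum_const, nsmul_eq_mul]
  rw [h2, mul_pow, mul_comm]
  refine mul_le_mul_of_nonneg_left ?_ (pow_nonneg ht0 _)
  refine le_trans ?_ (hd d).2
  have h3 : (u.filter (fun v => deg v = d)).card ≤ {v : V | deg v = d}.ncard := by
    rw [← Set.ncard_coe_finset]
    refine Set.ncard_le_ncard ?_ (hd d).1
    intro v hv
    exact (Finset.mem_filter.1 hv).2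
  exact_mod_cast h3

theorem p_EU1 : Stmt_EU1 := by
  intro V deg Q hQ hpos hd g hg T hT
  have hT1 : ‖T‖ < 1 := lt_of_le_of_lt (le_mul_of_one_le_right (norm_nonneg T) hQ) hT
  have hs0 : Summable (fun v => ‖T‖ ^ deg v) := EU1_summable hQ hd (norm_nonneg T) hT
  have hle : ∀ v, ‖g v * T ^ deg v‖ ≤ ‖T‖ ^ deg v := by
    intro v
    rw [norm_mul, norm_pow]
    exact mul_le_of_le_one_left (by positivity) (hg v)
  have hs : Summable (fun v => ‖g v * T ^ deg v‖) :=
    Summable.of_nonneg_of_le (fun v => norm_nonneg _) hle hs0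
  have hlt : ∀ v, ‖g v * T ^ deg v‖ < 1 := fun v =>
    lt_of_le_of_lt (hle v) (pow_lt_one₀ (norm_nonneg T) hT1 (hpos v).ne')
  have hs1 : Summable (fun v => -(g v * T ^ deg v)) := hs.of_norm.neg
  have hs2 : Summable (fun v => -Complex.log (1 - g v * T ^ deg v)) := by
    have := (Complex.summable_log_one_add_of_summable hs1).neg
    simpa [sub_eq_add_neg] using this
  have hp := hs2.hasSum.cexp
  have he : (Complex.exp ∘ fun v => -Complex.log (1 - g v * T ^ deg v)) =
      fun v => (1 - g v * T ^ deg v)⁻¹ := by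
    funext v
    have hne : 1 - g v * T ^ deg v ≠ 0 := by
      intro h
      have h1 : g v * T ^ deg v = 1 := (sub_eq_zero.1 h).symm
      have h2 := hlt v
      rw [h1, norm_one] at h2
      exact lt_irrefl _ h2
    show Complex.exp (-Complex.log (1 - g v * T ^ deg v)) = _
    rw [Complex.exp_neg, Complex.exp_log hne]
  rw [he] at hp
  exact ⟨hs, hp.multipliable, hp.tprod_eq⟩

end Pool.FT
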