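import Pool.Agent.Work.MP_223b32_ft.Interface3

namespace Pool.FT

open Finset Polynomial

theorem EU2_log (z : ℂ) (hz : ‖z‖ < 1) :
    HasSum (fun k : ℕ => z ^ (k + 1) / ((k : ℂ) + 1)) (-Complex.log (1 - z)) := by
  have h := Complex.hasSum_taylorSeries_neg_log hz
  have h2 := (hasSum_nat_add_iff' (f := fun n : ℕ => z ^ n / (n : ℂ)) 1).2 h
  simpa using h2

theorem EU2_mul {V : Type} (deg : V → ℕ) (hpos : ∀ v, 0 < deg v) (n : ℕ) (p : V × ℕ)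
    (hp : deg p.1 * (p.2 + 1) - 1 = n) : deg p.1 * (p.2 + 1) = n + 1 := by
  have h1 : 0 < deg p.1 * (p.2 + 1) := Nat.mul_pos (hpos _) (Nat.succ_pos _)
  omega

/-- The fibre over `n`. -/
def EU2_e {V : Type} (deg : V → ℕ) (hpos : ∀ v, 0 < deg v) (n : ℕ) :
    {p : V × ℕ // deg p.1 * (p.2 + 1) - 1 = n} ≃
      Σ d : {d // d ∈ (n + 1).divisors}, {v : V // deg v = d.1} where
  toFun c := ⟨⟨deg c.1.1, by
    rw [Nat.mem_divisors]
    exact ⟨⟨c.1.2 + 1, (EU2_mul deg hpos n c.1 c.2).symm⟩, Nat.succ_ne_zero n⟩⟩, ⟨c.1.1, rfl⟩⟩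
  invFun s := ⟨(s.2.1, (n + 1) / s.1.1 - 1), by
    have h1 : deg s.2.1 = s.1.1 := s.2.2
    have h2 : s.1.1 ∣ n + 1 := (Nat.mem_divisors.1 s.1.2).1
    have h3 : 0 < (n + 1) / s.1.1 :=
      Nat.div_pos (Nat.le_of_dvd (Nat.succ_pos n) h2) (Nat.pos_of_dvd_of_pos h2 (Nat.succ_pos n))
    show deg s.2.1 * ((n + 1) / s.1.1 - 1 + 1) - 1 = n
    rw [Nat.sub_add_cancel h3, h1, Nat.mul_div_cancel' h2]
    rfl⟩
  left_inv c := by
    obtain ⟨⟨v, k⟩, hc⟩ := c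
    have h := EU2_mul deg hpos n (v, k) hc
    apply Subtype.ext
    show (v, (n + 1) / deg v - 1) = (v, k)
    have h' : deg v * (k + 1) = n + 1 := h
    rw [← h', Nat.mul_div_cancel_left _ (hpos v)]
    rfl
  right_inv s := by
    obtain ⟨⟨d, hd⟩, ⟨v, hv⟩⟩ := s
    have key : ∀ (d : ℕ) (hd : d ∈ (n + 1).divisors) (v : V) (hv : deg v = d)
        (hd' : deg v ∈ (n + 1).divisors),
        (⟨⟨deg v, hd'⟩, ⟨v, rfl⟩⟩ :
          Σ d : {d // d ∈ (n + 1).divisors}, {v : V // deg v = d.1}) = ⟨⟨d, hd⟩, ⟨v, hv⟩⟩ := by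
      intro d hd v hv hd'
      subst hv
      rfl
    exact key d hd v hv _

theorem EU2_fib {V : Type} (deg : V → ℕ) (hpos : ∀ v, 0 < deg v)
    (hfin : ∀ d : ℕ, {v : V | deg v = d}.Finite) (g : V → ℂ) (T : ℂ) (n : ℕ) :
    HasSum (fun c : {p : V × ℕ // deg p.1 * (p.2 + 1) - 1 = n} =>
        (g c.1.1 * T ^ deg c.1.1) ^ (c.1.2 + 1) / ((c.1.2 : ℂ) + 1))
      (SV deg g (n + 1) * T ^ (n + 1) / ((n : ℂ) + 1)) := by
  classical
  let hF : ∀ d : ℕ, Fintype {v : V // deg v = d} := fun d => (hfin d).fintype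
  have hval : (SV deg g (n + 1) * T ^ (n + 1) / ((n : ℂ) + 1))
      = ∑ s : (Σ d : {d // d ∈ (n + 1).divisors}, {v : V // deg v = d.1}),
          ((s.1.1 : ℂ) * g s.2.1 ^ ((n + 1) / s.1.1)) * T ^ (n + 1) / ((n : ℂ) + 1) := by
    rw [Fintype.sum_sigma, SV, Finset.sum_mul, Finset.sum_div,
      ← Finset.sum_coe_sort (n + 1).divisors]
    refine Finset.sum_congr rfl (fun d _ => ?_)
    rw [finsum_eq_sum_of_fintype, Finset.mul_sum, Finset.sum_mul, Finset.sum_div]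
  rw [hval]
  refine ((EU2_e deg hpos n).symm.hasSum_iff).1 ?_
  have hfun : ∀ s : (Σ d : {d // d ∈ (n + 1).divisors}, {v : V // deg v = d.1}),
      ((fun c : {p : V × ℕ // deg p.1 * (p.2 + 1) - 1 = n} =>
        (g c.1.1 * T ^ deg c.1.1) ^ (c.1.2 + 1) / ((c.1.2 : ℂ) + 1)) ∘ (EU2_e deg hpos n).symm) s
      = ((s.1.1 : ℂ) * g s.2.1 ^ ((n + 1) / s.1.1)) * T ^ (n + 1) / ((n : ℂ) + 1) := by
    intro s
    obtain ⟨⟨d, hd⟩, ⟨v, hv⟩⟩ := s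
    have hv' : deg v = d := hv
    have h2 : deg v ∣ n + 1 := by
      rw [hv']
      exact (Nat.mem_divisors.1 hd).1
    have h3 : 0 < (n + 1) / deg v :=
      Nat.div_pos (Nat.le_of_dvd (Nat.succ_pos n) h2) (hpos v)
    show (g v * T ^ deg v) ^ ((n + 1) / d - 1 + 1) / ((((n + 1) / d - 1 : ℕ) : ℂ) + 1)
      = ((d : ℂ) * g v ^ ((n + 1) / d)) * T ^ (n + 1) / ((n : ℂ) + 1)
    rw [← hv']
    show (g v * T ^ deg v) ^ ((n + 1) / deg v - 1 + 1) / ((((n + 1) / deg v - 1 : ℕ) : ℂ) + 1)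
      = ((deg v : ℂ) * g v ^ ((n + 1) / deg v)) * T ^ (n + 1) / ((n : ℂ) + 1)
    have h4 : (((n + 1) / deg v - 1 : ℕ) : ℂ) + 1 = (((n + 1) / deg v : ℕ) : ℂ) := by
      have h5 : (n + 1) / deg v - 1 + 1 = (n + 1) / deg v := Nat.sub_add_cancel h3
      rw [← h5]
      push_cast
      rfl
    rw [h4, Nat.sub_add_cancel h3, mul_pow, ← pow_mul, Nat.mul_div_cancel' h2]
    have h6 : (deg v : ℂ) * (((n + 1) / deg v : ℕ) : ℂ) = (n : ℂ) + 1 := by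
      rw [← Nat.cast_mul, Nat.mul_div_cancel' h2]
      push_cast
      rfl
    have h7 : (deg v : ℂ) ≠ 0 := Nat.cast_ne_zero.2 (hpos v).ne'
    have h8 : (((n + 1) / deg v : ℕ) : ℂ) ≠ 0 := Nat.cast_ne_zero.2 h3.ne'
    rw [← h6]
    field_simp
  have h := hasSum_fintype (fun s : (Σ d : {d // d ∈ (n + 1).divisors}, {v : V // deg v = d.1}) =>
    ((s.1.1 : ℂ) * g s.2.1 ^ ((n + 1) / s.1.1)) * T ^ (n + 1) / ((n : ℂ) + 1))
  rw [show ((fun c : {p : V × ℕ // deg p.1 * (p.2 + 1) - 1 = n} =>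
        (g c.1.1 * T ^ deg c.1.1) ^ (c.1.2 + 1) / ((c.1.2 : ℂ) + 1)) ∘ (EU2_e deg hpos n).symm)
      = (fun s : (Σ d : {d // d ∈ (n + 1).divisors}, {v : V // deg v = d.1}) =>
        ((s.1.1 : ℂ) * g s.2.1 ^ ((n + 1) / s.1.1)) * T ^ (n + 1) / ((n : ℂ) + 1))
      from funext hfun]
  exact h

theorem p_EU2 (hEU1 : Stmt_EU1) : Stmt_EU2 := by
  intro V deg Q hQ hpos hcnt g hg T hT
  have hT1 : ‖T‖ < 1 := lt_of_le_of_lt (le_mul_of_one_le_right (norm_nonneg T) hQ) hT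
  have hT0 : 0 ≤ ‖T‖ := norm_nonneg T
  have hs : Summable (fun v => ‖T‖ ^ deg v) := by
    have h := (hEU1 V deg Q hQ hpos hcnt (fun _ => 1) (fun v => by simp) T hT).1
    simpa using h
  have ha : ∀ v, ‖g v * T ^ deg v‖ ≤ ‖T‖ ^ deg v := by
    intro v
    rw [norm_mul, norm_pow]
    exact mul_le_of_le_one_left (pow_nonneg hT0 _) (hg v)
  have ha1 : ∀ v, ‖g v * T ^ deg v‖ < 1 := fun v =>
    lt_of_le_of_lt (ha v) (pow_lt_one₀ hT0 hT1 (hpos v).ne')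
  have hfb : ∀ p : V × ℕ, ‖(g p.1 * T ^ deg p.1) ^ (p.2 + 1) / ((p.2 : ℂ) + 1)‖
      ≤ ‖T‖ ^ deg p.1 * ‖T‖ ^ p.2 := by
    intro p
    have h1 : ‖((p.2 : ℂ) + 1)‖ = (p.2 : ℝ) + 1 := by
      have : ((p.2 : ℂ) + 1) = (((p.2 : ℝ) + 1 : ℝ) : ℂ) := by push_cast; rfl
      rw [this, Complex.norm_real, Real.norm_of_nonneg (by positivity)]
    rw [norm_div, norm_pow, h1]
    have h2 : ‖g p.1 * T ^ deg p.1‖ ^ (p.2 + 1) ≤ ‖T‖ ^ deg p.1 * ‖T‖ ^ p.2 := by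
      rw [pow_succ, mul_comm]
      refine mul_le_mul (ha p.1) ?_ (pow_nonneg (norm_nonneg _) _) (pow_nonneg hT0 _)
      refine pow_le_pow_left₀ (norm_nonneg _) ((ha p.1).trans ?_) _
      exact pow_le_of_le_one hT0 hT1.le (hpos p.1).ne'
    refine (div_le_self (pow_nonneg (norm_nonneg _) _) ?_).trans h2
    have : (0 : ℝ) ≤ (p.2 : ℝ) := Nat.cast_nonneg _
    linarith
  have hsum : Summable (fun p : V × ℕ => (g p.1 * T ^ deg p.1) ^ (p.2 + 1) / ((p.2 : ℂ) + 1)) :=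
    Summable.of_norm_bounded
      (hs.mul_of_nonneg (summable_geometric_of_lt_one hT0 hT1)
        (fun _ => pow_nonneg hT0 _) (fun _ => pow_nonneg hT0 _)) hfb
  have hS : HasSum (fun p : V × ℕ => (g p.1 * T ^ deg p.1) ^ (p.2 + 1) / ((p.2 : ℂ) + 1))
      (∑' v, -Complex.log (1 - g v * T ^ deg v)) := by
    have h1 := hsum.tsum_prod
    have h2 : ∀ v, ∑' k : ℕ, (g v * T ^ deg v) ^ (k + 1) / ((k : ℂ) + 1)
        = -Complex.log (1 - g v * T ^ deg v) := fun v => (EU2_log _ (ha1 v)).tsum_eq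
    rw [← tsum_congr h2, ← h1]
    exact hsum.hasSum
  have hS2 := ((Equiv.sigmaFiberEquiv (fun p : V × ℕ => deg p.1 * (p.2 + 1) - 1)).hasSum_iff).2 hS
  exact HasSum.sigma hS2 (fun n => EU2_fib deg hpos (fun d => (hcnt d).1) g T n)

end Pool.FT
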