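import Pool.Agent.Work.MP_223b32_ft.Interface3

/-!
# Block EXT: extensions of every degree of a finite field
-/

namespace Pool.FT

open Finset Polynomial

theorem p_EXT : Stmt_EXT := by
  intro F _ _ n hn
  obtain ⟨p, hp⟩ := CharP.exists F
  have hp' : Nat.Prime p := CharP.char_is_prime F p
  have : Fact p.Prime := ⟨hp'⟩
  have : NeZero n := ⟨hn.ne'⟩
  exact ⟨FiniteField.Extension F p n, inferInstance, Fintype.ofFinite _, inferInstance,
    FiniteField.finrank_extension F p n⟩

end Pool.FT
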