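import Pool.Agent.Work.MP_223b32_ft.Interface3

/-! # Block FAC: an irreducible factor of multiplicity not divisible by `m` -/

namespace Pool.FT

theorem FAC_unit {F : Type} [Field F] {r : ℕ} (D : MvPolynomial (Fin r) F) (h : IsUnit D) :
    ∃ u : F, D = MvPolynomial.C u := by
  obtain ⟨u, _, hu⟩ := MvPolynomial.isUnit_iff_eq_C_of_isReduced.1 h
  exact ⟨u, hu⟩

theorem FAC_mult {F : Type} [Field F] {r : ℕ} (D P : MvPolynomial (Fin r) F) (hD : D ≠ 0)
    (hP : Irreducible P) : ∃ (e : ℕ) (G : MvPolynomial (Fin r) F), ¬ P ∣ G ∧ D = P ^ e * G := by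
  have h1 : FiniteMultiplicity P D := FiniteMultiplicity.of_not_isUnit hP.not_isUnit hD
  obtain ⟨G, hG1, hG2⟩ := h1.exists_eq_pow_mul_and_not_dvd
  exact ⟨_, G, hG2, hG1⟩

theorem FAC_main {F : Type} [Field F] {r : ℕ} (m : ℕ) : ∀ D : MvPolynomial (Fin r) F, D ≠ 0 →
    (∀ (P G : MvPolynomial (Fin r) F) (e : ℕ), Irreducible P → ¬ P ∣ G → D = P ^ e * G → m ∣ e) →
    MPow m D := by
  intro D
  induction D using (wellFounded_dvdNotUnit (α := MvPolynomial (Fin r) F)).induction with
  | _ D ih =>
    intro hD0 hD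
    by_cases hu : IsUnit D
    · obtain ⟨u, hu⟩ := FAC_unit D hu
      exact ⟨u, 1, by rw [one_pow, mul_one, hu]⟩
    · obtain ⟨P, hP, hPD⟩ := WfDvdMonoid.exists_irreducible_factor hu hD0
      obtain ⟨e, G, hG, hDG⟩ := FAC_mult D P hD0 hP
      have hPp : Prime P := hP.prime
      have hG0 : G ≠ 0 := by
        rintro rfl
        exact hG (dvd_zero P)
      have he : e ≠ 0 := by
        rintro rfl
        rw [pow_zero, one_mul] at hDG
        rw [hDG] at hPD
        exact hG hPD
      have hme : m ∣ e := hD P G e hP hG hDG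
      obtain ⟨k, hk⟩ := hme
      have hlt : DvdNotUnit G D := by
        refine ⟨hG0, P ^ e, ?_, by rw [hDG, mul_comm]⟩
        rw [isUnit_pow_iff he]
        exact hP.not_isUnit
      obtain ⟨u, R, hR⟩ := ih G hlt hG0 (by
        intro Q G' f hQ hQG hGQ
        by_cases hf : f = 0
        · rw [hf]
          exact dvd_zero m
        · have hQp : Prime Q := hQ.prime
          refine hD Q (P ^ e * G') f hQ ?_ (by rw [hDG, hGQ]; ring)
          intro hdvd
          rcases hQp.dvd_or_dvd hdvd with h1 | h1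
          · have h2 : Q ∣ P := hQp.dvd_of_dvd_pow h1
            have h3 : Associated Q P := hQ.associated_of_dvd hP h2
            refine hG (h3.symm.dvd.trans ?_)
            rw [hGQ]
            exact (dvd_pow_self Q hf).mul_right G'
          · exact hQG h1)
      refine ⟨u, P ^ k * R, ?_⟩
      rw [hDG, hR, hk, mul_pow, ← pow_mul, mul_comm m k]
      ring

theorem p_FAC : Stmt_FAC := by
  intro F _ r m D hD hpow
  by_contra hcon
  refine hpow (FAC_main m D hD ?_)
  intro P G e hP hG hDG
  by_contra hme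
  exact hcon ⟨P, G, e, hP, hG, hme, hDG⟩

end Pool.FT
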