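import Pool.Agent.Work.MP_223b32_ft.Interface4

/-! # Block FCL (helper71) -/

namespace Pool.FT

open Finset

theorem FCL_insert {A B : Type} (f : A → B) (x : A) (s : Multiset A) :
    (insert x s : Multiset A).map f = insert (f x) (s.map f) :=
  Multiset.map_cons f x s

theorem FCL_single {A B : Type} (f : A → B) (x : A) :
    ({x} : Multiset A).map f = {f x} := Multiset.map_singleton f x

theorem p_FCL (hEMB : Stmt_EMB) (hSCL : Stmt_SCL) (hSUX : Stmt_SUX) : Stmt_FCL := by
  intro m M p _ _ hmM hpM Alg h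
  obtain ⟨_, hadd, hneg, hzero, hmul, _, _⟩ := hEMB m M hmM
  have h0 : emb m M 0 = 0 := (hzero 0).2 rfl
  let E : ZMod m →+ ZMod M := ⟨⟨emb m M, h0⟩, hadd⟩
  have hE : ∀ x, E x = emb m M x := fun _ => rfl
  have hsum : ∀ a : Multiset (ZMod m), (a.map (emb m M)).sum = emb m M a.sum := by
    intro a
    have h1 : E a.sum = (a.map E).sum := map_multiset_sum E a
    exact h1.symm
  have hinj : ∀ x y, emb m M x = emb m M y → x = y := by
    intro x y hxy
    have h1 : emb m M (x - y) = 0 := by
      rw [← hE, map_sub, hE, hE, hxy, sub_self]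
    exact sub_eq_zero.1 ((hzero _).1 h1)
  have hne : ∀ x, x ≠ 0 → emb m M x ≠ 0 := fun x hx h1 => hx ((hzero x).1 h1)
  have hchr : ∀ a, Chr m a → Chr M (a.map (emb m M)) := by
    rintro a ⟨h1, h2, h3, h4⟩
    refine ⟨?_, ?_, ?_, ?_⟩
    · intro h5
      exact h1 (Multiset.map_eq_zero.1 h5)
    · intro h5
      obtain ⟨x, hx, hx0⟩ := Multiset.mem_map.1 h5
      rw [hzero] at hx0
      exact h2 (hx0 ▸ hx)
    · rw [hsum, h3, h0]
    · rw [Multiset.card_map]
      exact h4
  have hS : ∀ x y z : ZMod m, x ≠ 0 → y ≠ 0 → z ≠ 0 → (∃ i : ℕ, (p : ZMod m) ^ i = -1) →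
      Ssg M p {emb m M x, emb m M y, emb m M z} := by
    rintro x y z hx hy hz ⟨i, hi⟩
    have hf : 0 < Nat.totient M := Nat.totient_pos.2 (Nat.pos_of_ne_zero (NeZero.ne M))
    have hpf : (p : ZMod M) ^ Nat.totient M = 1 := by
      have h2 := congrArg Units.val (ZMod.pow_totient (ZMod.unitOfCoprime p hpM))
      rw [Units.val_pow_eq_pow_val, ZMod.coe_unitOfCoprime, Units.val_one] at h2
      exact h2
    have hpf' : (p : ZMod m) ^ Nat.totient M = 1 := by
      have h1 := congrArg (ZMod.castHom hmM (ZMod m)) hpf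
      rw [map_pow, map_natCast, map_one] at h1
      exact h1
    refine ⟨Nat.totient M, hf, hpf, ?_⟩
    have h3 : Stick m p (Nat.totient M) ({x, y, z} : Multiset (ZMod m)) := by
      refine hSUX m p (Nat.totient M) i hf hpf' hi _ ?_
      intro h4
      simp only [Multiset.insert_eq_cons, Multiset.mem_cons, Multiset.mem_singleton] at h4
      rcases h4 with h4 | h4 | h4
      · exact hx h4.symm
      · exact hy h4.symm
      · exact hz h4.symm
    have h4 := (hSCL m M p (Nat.totient M) hmM {x, y, z}).2 h3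
    rw [FCL_insert, FCL_insert, FCL_single] at h4
    exact h4
  refine ⟨?_, ?_, ?_, ?_, ?_, ?_, ?_, ?_, ?_⟩
  · intro a ha
    obtain ⟨h1, h2, h3, h4⟩ := h.chr _ ha
    refine ⟨?_, ?_, ?_, ?_⟩
    · rintro rfl
      exact h1 (Multiset.map_zero _)
    · intro h5
      exact h2 (Multiset.mem_map.2 ⟨0, h5, h0⟩)
    · rw [hsum] at h3
      exact (hzero _).1 h3
    · rw [Multiset.card_map] at h4
      exact h4
  · intro x hx
    rw [FCL_insert, FCL_single, hneg]
    exact h.pair _ (hne x hx)
  · intro a b ha hb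
    rw [Multiset.map_add]
    exact h.join _ _ ha hb
  · intro a x ha hx hax
    refine h.cancel _ (emb m M x) (hchr a ha) (hne x hx) ?_
    rw [Multiset.map_add, FCL_insert, FCL_single, hneg] at hax
    exact hax
  · intro a ha
    have h1 := h.neg _ ha
    rw [Multiset.map_map] at h1 ⊢
    have h2 : ((fun x => -x) ∘ emb m M) = (emb m M ∘ fun x => -x) := by
      funext x
      exact (hneg x).symm
    rw [h2] at h1
    exact h1
  · intro x y z hx hy hz hxyz
    rw [Multiset.map_add, FCL_insert, FCL_insert, FCL_single, FCL_insert, FCL_insert, FCL_single,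
      hneg, hneg, hneg, hmul, hmul, hmul]
    refine h.frob _ _ _ (hne x hx) (hne y hy) (hne z hz) ?_
    rw [← hadd, ← hadd, hxyz, h0]
  · intro hi x y z x' y' z' hx hy hz hxyz hx' hy' hz' hxyz'
    rw [Multiset.map_add, FCL_insert, FCL_insert, FCL_single, FCL_insert, FCL_insert, FCL_single]
    refine h.super _ _ _ _ _ _ (hne x hx) (hne y hy) (hne z hz) ?_ (hS x y z hx hy hz hi)
      (hne x' hx') (hne y' hy') (hne z' hz') ?_ (hS x' y' z' hx' hy' hz' hi)
    · rw [← hadd, ← hadd, hxyz, h0]
    · rw [← hadd, ← hadd, hxyz', h0]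
  · intro g x hg hgg hx hxg
    rw [FCL_insert, FCL_insert, FCL_insert, FCL_single, hneg, hadd, hadd]
    refine h.two _ _ (hne g hg) ?_ (hne x hx) (fun h1 => hxg (hinj _ _ h1))
    rw [← hadd, hgg, h0]
  · intro d w x hd hdo hw hdw hdx
    have h1 : ((Multiset.range d).map (fun i : ℕ => x + (i : ZMod m) * w) +
        {-((d : ZMod m) * x)}).map (emb m M) =
        (Multiset.range d).map (fun i : ℕ => emb m M x + (i : ZMod M) * emb m M w) +
        {-((d : ZMod M) * emb m M x)} := by
      rw [Multiset.map_add, Multiset.map_map, FCL_single, hneg, hmul]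
      congr 1
      refine Multiset.map_congr rfl fun i _ => ?_
      rw [Function.comp_apply, hadd, hmul]
    have h2 := h.odd d (emb m M w) (emb m M x) hd hdo (hne w hw)
      (by rw [← hmul, hdw, h0]) (by rw [← hmul]; exact hne _ hdx)
    simp only [bind_pure_comp, Multiset.fmap_def, Multiset.map_map, Function.comp_def] at h2
    rw [← h1] at h2
    simp only [bind_pure_comp, Multiset.fmap_def, Multiset.map_map, Function.comp_def,
      Multiset.map_add] at h2 ⊢
    exact h2

end Pool.FT
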