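import Pool.Agent.Work.MP_223b32_ft.Interface3

namespace Pool.FT

open Finset Polynomial

theorem FFL_prod {β : Type} (S : Finset β) (L : β → ℂ → ℂ) (G : ℂ → ℂ) (s₀ : ℝ) (r : β → ℕ)
    (hG : ∀ s : ℝ, s₀ < s → G s = ∏ b ∈ S, L b s)
    (h : ∀ b ∈ S, HasPoleOrder (L b) s₀ (r b)) :
    HasPoleOrder G s₀ (∑ b ∈ S, r b) := by
  classical
  choose! w hw hlim using h
  refine ⟨∏ b ∈ S, w b, Finset.prod_ne_zero_iff.mpr hw, ?_⟩
  have h1 : Filter.Tendsto (fun s : ℝ => ∏ b ∈ S, (((s : ℂ) - s₀) ^ r b * L b s))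
      (nhdsWithin s₀ (Set.Ioi s₀)) (nhds (∏ b ∈ S, w b)) :=
    tendsto_finsetProd S fun b hb => hlim b hb
  refine h1.congr' ?_
  filter_upwards [self_mem_nhdsWithin] with s hs
  rw [Finset.prod_mul_distrib, hG s hs, Finset.prod_pow_eq_pow_sum]

open Classical in
theorem p_FFL (hONE : Stmt_ONE) : Stmt_FFL := by
  intro F _ _ χ m _ hm r ι _ n c hc j
  have key : ∀ (v : GPlace c) (s : ℂ), locL χ m j v s =
      ∏ b ∈ (univ : Finset (∀ i, Cls m (n i))).filter (fun b => degP b = 2 * j),
        (1 - eigAt χ v b * (Fintype.card (kap v.1) : ℂ) ^ (-s))⁻¹ := by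
    intro v s
    unfold locL LL eigAt
    refine Finset.prod_congr ?_ fun _ _ => rfl
    congr
  have hmul : ∀ s : ℝ, (j : ℝ) + r < s →
      ∀ b ∈ (univ : Finset (∀ i, Cls m (n i))).filter (fun b => degP b = 2 * j),
      Multipliable (fun v : GPlace c =>
        (1 - eigAt χ v b * (Fintype.card (kap v.1) : ℂ) ^ (-(s : ℂ)))⁻¹) := by
    intro s hs b hb
    exact (hONE F χ m hm r ι n c hc b j (Finset.mem_filter.mp hb).2).1 s hs
  refine ⟨fun s hs => ?_, ?_⟩
  · simp only [key]
    exact multipliable_prod fun b hb => hmul s hs b hb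
  · have h := FFL_prod ((univ : Finset (∀ i, Cls m (n i))).filter (fun b => degP b = 2 * j))
      (fun b s => ∏' v : GPlace c,
          (1 - eigAt χ v b * (Fintype.card (kap v.1) : ℂ) ^ (-s))⁻¹)
      (fun s => ∏' v : GPlace c, locL χ m j v s) ((j : ℝ) + r)
      (fun b => if ∀ v : GPlace c, eigAt χ v b = (Fintype.card (kap v.1) : ℂ) ^ j then 1 else 0)
      (by
        intro s hs
        simp only [key]
        exact Multipliable.tprod_finsetProd fun b hb => hmul s hs b hb)
      (by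
        intro b hb
        have h1 := hONE F χ m hm r ι n c hc b j (Finset.mem_filter.mp hb).2
        by_cases hp : ∀ v : GPlace c, eigAt χ v b = (Fintype.card (kap v.1) : ℂ) ^ j
        · rw [if_pos hp]
          exact h1.2.1 hp
        · rw [if_neg hp]
          exact h1.2.2 hp)
    have h2 : ∑ b ∈ (univ : Finset (∀ i, Cls m (n i))).filter (fun b => degP b = 2 * j),
        (if ∀ v : GPlace c, eigAt χ v b = (Fintype.card (kap v.1) : ℂ) ^ j then 1 else 0) =
        (((univ : Finset (∀ i, Cls m (n i))).filter (fun b => degP b = 2 * j ∧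
          ∀ v : GPlace c, eigAt χ v b = (Fintype.card (kap v.1) : ℂ) ^ j)).card) := by
      rw [Finset.sum_boole, Finset.filter_filter]
      rfl
    rw [h2] at h
    exact h

end Pool.FT
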