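import Pool.Agent.Work.MP_223b32_ft.Interface

/-! Block FIN of THEOREM FT. -/

namespace Pool.FT

open Finset

section FIN

variable {m : ℕ} [NeZero m]

/-- the subgroup generated by `π` and `-1` -/
def FIN_K (π : (ZMod m)ˣ) : Subgroup (ZMod m)ˣ :=
  Subgroup.zpowers π ⊔ Subgroup.zpowers (-1)

/-- the parametrization of the units -/
noncomputable def FIN_map (π : (ZMod m)ˣ) :
    ((ZMod m)ˣ ⧸ FIN_K π) × Fin (orderOf π) × Bool → (ZMod m)ˣ :=
  fun x => (if x.2.2 then -1 else 1) * (π ^ (x.2.1 : ℕ) * x.1.out)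

theorem FIN_bij (π : (ZMod m)ˣ) (hπ : ∀ i : ℕ, π ^ i ≠ -1) :
    Function.Bijective (FIN_map π) := by
  have ho : 0 < orderOf π := orderOf_pos π
  constructor
  · rintro ⟨c, i, s⟩ ⟨c', i', s'⟩ h
    simp only [FIN_map] at h
    have hs : ∀ s : Bool, (if s then (-1 : (ZMod m)ˣ) else 1) ∈ FIN_K π := by
      intro s
      cases s
      · simp
      · have h1 : (-1 : (ZMod m)ˣ) ∈ Subgroup.zpowers (-1 : (ZMod m)ˣ) :=
          Subgroup.mem_zpowers _
        have h2 : (-1 : (ZMod m)ˣ) ∈ FIN_K π :=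
          (le_sup_right : Subgroup.zpowers (-1 : (ZMod m)ˣ) ≤ FIN_K π) h1
        simpa using h2
    have hp : ∀ i : ℕ, π ^ i ∈ FIN_K π := by
      intro i
      have h1 : π ∈ FIN_K π :=
        (le_sup_left : Subgroup.zpowers π ≤ FIN_K π) (Subgroup.mem_zpowers π)
      exact (FIN_K π).pow_mem h1 i
    have hc : c = c' := by
      have e1 : ∀ (s : Bool) (i : ℕ) (c : (ZMod m)ˣ ⧸ FIN_K π),
          (QuotientGroup.mk ((if s then -1 else 1) * (π ^ i * c.out)) : (ZMod m)ˣ ⧸ FIN_K π)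
            = c := by
        intro s i c
        have h3 : (QuotientGroup.mk ((if s then -1 else 1) * (π ^ i * c.out)) :
            (ZMod m)ˣ ⧸ FIN_K π) = QuotientGroup.mk c.out := by
          apply QuotientGroup.eq.2
          have h9 : ((if s then (-1 : (ZMod m)ˣ) else 1) * (π ^ i * c.out))⁻¹ * c.out
              = ((if s then (-1 : (ZMod m)ˣ) else 1) * π ^ i)⁻¹ := by
            rw [← mul_assoc, mul_inv_rev _ c.out, mul_comm c.out⁻¹, mul_assoc,
              inv_mul_cancel, mul_one]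
          rw [h9]
          exact (FIN_K π).inv_mem ((FIN_K π).mul_mem (hs s) (hp i))
        rw [h3]; exact Quotient.out_eq' c
      have e2 := e1 s i c
      have e3 := e1 s' i' c'
      rw [← e2, h, e3]
    subst hc
    have h4 : (if s then (-1 : (ZMod m)ˣ) else 1) * π ^ (i : ℕ)
        = (if s' then (-1 : (ZMod m)ˣ) else 1) * π ^ (i' : ℕ) := by
      have h5 := h
      rw [← mul_assoc, ← mul_assoc] at h5
      exact mul_right_cancel h5
    have key : ∀ i i' : Fin (orderOf π), (-1 : (ZMod m)ˣ) * π ^ (i : ℕ) ≠ π ^ (i' : ℕ) := by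
      intro i i' h6
      apply hπ ((i' : ℕ) + (orderOf π - i))
      have h7 : π ^ (i : ℕ) * π ^ (orderOf π - i) = 1 := by
        rw [← pow_add, Nat.add_sub_cancel' i.2.le, pow_orderOf_eq_one]
      calc π ^ ((i' : ℕ) + (orderOf π - i)) = π ^ (i' : ℕ) * π ^ (orderOf π - i) := pow_add _ _ _
        _ = ((-1) * π ^ (i : ℕ)) * π ^ (orderOf π - i) := by rw [h6]
        _ = -1 := by rw [mul_assoc, h7, mul_one]
    have inj : ∀ i i' : Fin (orderOf π), π ^ (i : ℕ) = π ^ (i' : ℕ) → i = i' := by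
      intro i i' h8
      apply Fin.ext
      exact pow_injOn_Iio_orderOf (Set.mem_Iio.2 i.2) (Set.mem_Iio.2 i'.2) h8
    cases s <;> cases s'
    · simp only [Bool.false_eq_true, if_false, one_mul] at h4
      rw [inj i i' h4]
    · simp only [Bool.false_eq_true, if_false, one_mul, if_true] at h4
      exact absurd h4.symm (key i' i)
    · simp only [Bool.false_eq_true, if_false, one_mul, if_true] at h4
      exact absurd h4 (key i i')
    · simp only [if_true] at h4
      rw [inj i i' (mul_left_cancel h4)]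
  · intro g
    have h1 : g * ((QuotientGroup.mk g : (ZMod m)ˣ ⧸ FIN_K π).out)⁻¹ ∈ FIN_K π := by
      have h2 : (QuotientGroup.mk ((QuotientGroup.mk g : (ZMod m)ˣ ⧸ FIN_K π).out) :
          (ZMod m)ˣ ⧸ FIN_K π) = QuotientGroup.mk g := Quotient.out_eq' _
      have h3 := QuotientGroup.eq.1 h2
      rw [mul_comm]
      exact h3
    obtain ⟨y, hy, z, hz, hyz⟩ := Subgroup.mem_sup.1 h1
    obtain ⟨a, ha⟩ := Subgroup.mem_zpowers_iff.1 hy
    obtain ⟨b, hb⟩ := Subgroup.mem_zpowers_iff.1 hz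
    have hy2 : ∃ i : Fin (orderOf π), π ^ (i : ℕ) = y := by
      have h5 : y ∈ Submonoid.powers π := by
        rw [mem_powers_iff_mem_zpowers]; exact hy
      obtain ⟨i, hi⟩ := (Submonoid.mem_powers_iff _ _).1 h5
      refine ⟨⟨i % orderOf π, Nat.mod_lt _ ho⟩, ?_⟩
      show π ^ (i % orderOf π) = y
      rw [pow_mod_orderOf]; exact hi
    obtain ⟨i, hi⟩ := hy2
    have hz2 : ∃ s : Bool, (if s then (-1 : (ZMod m)ˣ) else 1) = z := by
      rcases Int.even_or_odd b with hb2 | hb2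
      · refine ⟨false, ?_⟩
        rw [← hb, Even.neg_one_zpow hb2]; simp
      · refine ⟨true, ?_⟩
        rw [← hb, Odd.neg_one_zpow hb2]; simp
    obtain ⟨s, hs⟩ := hz2
    refine ⟨⟨QuotientGroup.mk g, i, s⟩, ?_⟩
    simp only [FIN_map]
    rw [hs, hi, ← mul_assoc, mul_comm z y, hyz, mul_assoc, inv_mul_cancel, mul_one]

/-- regrouping of a sum over the units -/
theorem FIN_sum (π : (ZMod m)ˣ) (hπ : ∀ i : ℕ, π ^ i ≠ -1) {A : Type*} [AddCommGroup A]
    [Fintype ((ZMod m)ˣ ⧸ FIN_K π)]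
    (E : ZMod m → A) (hE : ∀ x, E (-x) = - E x) (u : ZMod m) (n : (ZMod m)ˣ → ℤ) :
    ∑ g : (ZMod m)ˣ, n g • E ((g : ZMod m) * u)
      = ∑ c : (ZMod m)ˣ ⧸ FIN_K π, ∑ i ∈ range (orderOf π),
          (n (π ^ i * c.out) - n (-(π ^ i * c.out))) •
            E (((π ^ i * c.out : (ZMod m)ˣ) : ZMod m) * u) := by
  have h1 : ∑ g : (ZMod m)ˣ, n g • E ((g : ZMod m) * u)
      = ∑ x : ((ZMod m)ˣ ⧸ FIN_K π) × Fin (orderOf π) × Bool,
          n (FIN_map π x) • E (((FIN_map π x : (ZMod m)ˣ) : ZMod m) * u) :=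
    ((Equiv.ofBijective _ (FIN_bij π hπ)).sum_comp
      (fun g : (ZMod m)ˣ => n g • E ((g : ZMod m) * u))).symm
  rw [h1, Fintype.sum_prod_type]
  refine Finset.sum_congr rfl (fun c _ => ?_)
  rw [Fintype.sum_prod_type, ← Fin.sum_univ_eq_sum_range
    (fun i => (n (π ^ i * c.out) - n (-(π ^ i * c.out))) •
            E (((π ^ i * c.out : (ZMod m)ˣ) : ZMod m) * u))]
  refine Finset.sum_congr rfl (fun i _ => ?_)
  rw [Fintype.sum_bool]
  simp only [FIN_map, if_true, Bool.false_eq_true, if_false, one_mul, neg_mul]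
  rw [Units.val_neg, neg_mul, hE, smul_neg, sub_smul]
  abel

end FIN

theorem p_FIN : Stmt_FIN := by
  intro m _ π hπ Q _ e d he hd u n hn hN
  classical
  have : Fintype ((ZMod m)ˣ ⧸ FIN_K π) := Fintype.ofFinite _
  -- expansion of e (π ^ i x)
  have hpit : ∀ (i : ℕ) (x : ZMod m),
      e ((π : ZMod m) ^ i * x) = e x - d ((∑ j ∈ range i, (π : ZMod m) ^ j) * x) := by
    intro i
    induction i with
    | zero => intro x; simp
    | succ i ih =>
      intro x
      have h1 := hd ((π : ZMod m) ^ i * x)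
      have h2 : (π : ZMod m) ^ (i + 1) * x = (π : ZMod m) * ((π : ZMod m) ^ i * x) := by ring
      rw [h2]
      have h3 : e ((π : ZMod m) * ((π : ZMod m) ^ i * x))
          = e ((π : ZMod m) ^ i * x) - d ((π : ZMod m) ^ i * x) := by
        rw [h1]; abel
      rw [h3, ih x, Finset.sum_range_succ, add_mul, map_add]
      abel
  set δ : ((ZMod m)ˣ ⧸ FIN_K π) → ℕ → ℤ :=
    fun c i => n (π ^ i * c.out) - n (-(π ^ i * c.out)) with hδ
  have hδ0 : ∀ c, ∑ i ∈ range (orderOf π), δ c i = 0 := by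
    intro c
    simp only [hδ]
    rw [Finset.sum_sub_distrib, hN c.out, sub_self]
  set S : ZMod m := ∑ c : (ZMod m)ˣ ⧸ FIN_K π, ∑ i ∈ range (orderOf π),
    δ c i • ((∑ j ∈ range i, (π : ZMod m) ^ j) * (((c.out : (ZMod m)ˣ) : ZMod m) * u)) with hS
  have hcast : ∀ (c : (ZMod m)ˣ ⧸ FIN_K π) (i : ℕ),
      (((π ^ i * c.out : (ZMod m)ˣ) : ZMod m) * u)
        = (π : ZMod m) ^ i * (((c.out : (ZMod m)ˣ) : ZMod m) * u) := by
    intro c i
    rw [Units.val_mul, Units.val_pow_eq_pow_val, mul_assoc]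
  -- π S = S
  have hfix : (π : ZMod m) * S = S := by
    have h1 : ((π : ZMod m) - 1) * S = 0 := by
      have h2 := FIN_sum π hπ (fun x : ZMod m => x) (fun x => rfl) u n
      rw [hn] at h2
      have h3 : ∀ c : (ZMod m)ˣ ⧸ FIN_K π, ∑ i ∈ range (orderOf π),
          ((π : ZMod m) - 1) * (δ c i • ((∑ j ∈ range i, (π : ZMod m) ^ j) *
            (((c.out : (ZMod m)ˣ) : ZMod m) * u)))
          = ∑ i ∈ range (orderOf π), δ c i •
              (((π ^ i * c.out : (ZMod m)ˣ) : ZMod m) * u) := by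
        intro c
        have h4 : ∀ i ∈ range (orderOf π),
            ((π : ZMod m) - 1) * (δ c i • ((∑ j ∈ range i, (π : ZMod m) ^ j) *
              (((c.out : (ZMod m)ˣ) : ZMod m) * u)))
            = δ c i • (((π ^ i * c.out : (ZMod m)ˣ) : ZMod m) * u)
              - δ c i • ((((c.out : (ZMod m)ˣ) : ZMod m)) * u) := by
          intro i _
          rw [hcast c i, mul_smul_comm, ← smul_sub, ← mul_assoc,
            mul_geom_sum, sub_mul, one_mul]
        rw [Finset.sum_congr rfl h4, Finset.sum_sub_distrib, ← Finset.sum_smul, hδ0 c,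
          zero_smul, sub_zero]
      rw [hS, Finset.mul_sum]
      have h5 : ∀ c ∈ (univ : Finset ((ZMod m)ˣ ⧸ FIN_K π)),
          ((π : ZMod m) - 1) * ∑ i ∈ range (orderOf π),
            δ c i • ((∑ j ∈ range i, (π : ZMod m) ^ j) * (((c.out : (ZMod m)ˣ) : ZMod m) * u))
          = ∑ i ∈ range (orderOf π), δ c i •
              (((π ^ i * c.out : (ZMod m)ˣ) : ZMod m) * u) := by
        intro c _
        rw [Finset.mul_sum]; exact h3 c
      rw [Finset.sum_congr rfl h5]
      exact h2.symm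
    have h6 : (π : ZMod m) * S - S = 0 := by
      rw [sub_mul, one_mul] at h1; exact h1
    exact sub_eq_zero.1 h6
  have hdS : d S = 0 := by
    rw [hd S, hfix, sub_self]
  rw [FIN_sum π hπ e he u n]
  have h7 : ∀ c ∈ (univ : Finset ((ZMod m)ˣ ⧸ FIN_K π)),
      ∑ i ∈ range (orderOf π), (n (π ^ i * c.out) - n (-(π ^ i * c.out))) •
            e (((π ^ i * c.out : (ZMod m)ˣ) : ZMod m) * u)
      = - d (∑ i ∈ range (orderOf π),
          δ c i • ((∑ j ∈ range i, (π : ZMod m) ^ j) *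
            (((c.out : (ZMod m)ˣ) : ZMod m) * u))) := by
    intro c _
    have h8 : ∀ i ∈ range (orderOf π), (n (π ^ i * c.out) - n (-(π ^ i * c.out))) •
            e (((π ^ i * c.out : (ZMod m)ˣ) : ZMod m) * u)
          = δ c i • e (((c.out : (ZMod m)ˣ) : ZMod m) * u)
            - d (δ c i • ((∑ j ∈ range i, (π : ZMod m) ^ j) *
              (((c.out : (ZMod m)ˣ) : ZMod m) * u))) := by
      intro i _
      rw [hcast c i, hpit i, smul_sub, map_zsmul]
    rw [Finset.sum_congr rfl h8, Finset.sum_sub_distrib, ← Finset.sum_smul, hδ0 c,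
      zero_smul, zero_sub, map_sum]
  rw [Finset.sum_congr rfl h7, Finset.sum_neg_distrib, ← map_sum, ← hS, hdS, neg_zero]

end Pool.FT
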