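import Pool.Agent.Work.MP_223b32_ft.Interface

/-!
# Block FTA: the assembly of THEOREM FT
-/

namespace Pool.FT

open Finset

theorem FTA_zero {m n : ℕ} (c : Cls m n) : (0 : ZMod m) ∉ charsC c := by
  cases c with
  | inl r => exact Multiset.notMem_zero 0
  | inr a =>
    intro h
    change (0 : ZMod m) ∈ (univ : Finset (Fin (n + 2))).val.map a.1 at h
    rw [Multiset.mem_map] at h
    obtain ⟨k, _, hk⟩ := h
    exact a.2.1 k hk

theorem FTA_sum {m n : ℕ} (c : Cls m n) : (charsC c).sum = 0 := by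
  cases c with
  | inl r => exact Multiset.sum_zero
  | inr a => exact a.2.2

theorem FTA_par {m n : ℕ} (c : Cls m n) : Even (Multiset.card (charsC c) + degC c) := by
  cases c with
  | inl r =>
    change Even (Multiset.card (0 : Multiset (ZMod m)) + 2 * (r : ℕ))
    rw [Multiset.card_zero, zero_add]
    exact even_two_mul _
  | inr a =>
    change Even (Multiset.card ((univ : Finset (Fin (n + 2))).val.map a.1) + n)
    rw [Multiset.card_map]
    change Even ((univ : Finset (Fin (n + 2))).card + n)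
    rw [Finset.card_univ, Fintype.card_fin]
    exact ⟨n + 1, by ring⟩

theorem FTA_chr {m : ℕ} {ι : Type} [Fintype ι] {n : ι → ℕ} (b : ∀ i, Cls m (n i)) (j : ℕ)
    (hd : degP b = 2 * j) (h0 : charsP b ≠ 0) : Chr m (charsP b) := by
  refine ⟨h0, ?_, ?_, ?_⟩
  · unfold charsP
    rw [Multiset.mem_sum]
    rintro ⟨i, _, hi⟩
    exact FTA_zero (b i) hi
  · unfold charsP
    have h1 : (∑ i, charsC (b i)).sum = ∑ i, (charsC (b i)).sum :=
      map_sum (Multiset.sumAddMonoidHom : Multiset (ZMod m) →+ ZMod m) _ _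
    rw [h1]
    exact Finset.sum_eq_zero fun i _ => FTA_sum (b i)
  · unfold charsP
    have h1 : Multiset.card (∑ i, charsC (b i)) = ∑ i, Multiset.card (charsC (b i)) :=
      map_sum (Multiset.cardHom : Multiset (ZMod m) →+ ℕ) _ _
    have h2 : Even (∑ i, (Multiset.card (charsC (b i)) + degC (b i))) :=
      Finset.even_sum _ fun i _ => FTA_par (b i)
    rw [Finset.sum_add_distrib, ← h1] at h2
    have h3 : Even (∑ i, degC (b i)) := by
      have : ∑ i, degC (b i) = 2 * j := hd
      rw [this]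
      exact even_two_mul _
    exact (Nat.even_add.1 h2).2 h3

open Classical in
theorem p_FTA (hCOM : Stmt_COM) (hSTK : Stmt_STK) (hPTX : Stmt_PTX) (hPOL : Stmt_POL) :
    Stmt_FTA := by
  intro m p _ hp hm hpm F _ _ _ χ hχ
  refine ⟨fun n c E _ _ _ => hPTX F E m n χ hχ c, ?_⟩
  intro ι _ n c Alg hAlg j
  obtain ⟨f, _, hf⟩ := FiniteField.card F p
  have hcop : p.Coprime m := (Nat.Prime.coprime_iff_not_dvd hp.out).2 hpm
  have hpf : (p : ZMod m) ^ (f : ℕ) = 1 := by
    have h1 : m ∣ Fintype.card F - 1 := by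
      rw [← hχ]
      exact MulChar.orderOf_dvd_card_sub_one F χ
    rw [hf] at h1
    have h2 : ((p ^ (f : ℕ) - 1 : ℕ) : ZMod m) = 0 := (ZMod.natCast_eq_zero_iff _ _).2 h1
    rw [Nat.cast_sub (Nat.one_le_pow _ _ hp.out.pos), Nat.cast_pow, Nat.cast_one] at h2
    exact sub_eq_zero.1 h2
  have key : ∀ (b : ∀ i, Cls m (n i)) (N : ℕ), 0 < N → degP b = 2 * j →
      (eigP χ c b) ^ N = (Fintype.card F : ℂ) ^ (j * N) → IsAlg Alg b := by
    intro b N hN hd he
    by_cases h0 : charsP b = 0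
    · exact Or.inl h0
    · right
      exact hCOM m p f Alg hm hAlg hcop f.pos hpf _ (FTA_chr b j hd h0)
        (hSTK p f m F χ hm.1 hf hχ ι n c b j N hN hd he)
  refine ⟨key, ?_⟩
  have h := hPOL F χ m ι n c j
  convert h using 2
  refine Finset.filter_congr fun b _ => ?_
  constructor
  · rintro ⟨h1, h2, _⟩
    exact ⟨h1, h2⟩
  · rintro ⟨h1, h2⟩
    exact ⟨h1, h2, key b 1 one_pos h1 (by rw [pow_one, mul_one]; exact h2)⟩

end Pool.FT
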