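import Pool.Agent.Work.MP_223b32_ft.Interface

/-!
# THEOREM FT: block GJA
-/

namespace Pool.FT

open Finset

/-- the inner sum is a product of Gauss sums -/
theorem GJA_inner {F R : Type} [Field F] [Fintype F] [Field R] (ψ : AddChar F R)
    {n : ℕ} (χ : Fin n → MulChar F R) (s : F) :
    ∑ v : Fin n → F, ψ (s * ∑ k, v k) * ∏ k, χ k (v k) = ∏ k, gaussSum (χ k) (AddChar.mulShift ψ s) := by
  classical
  simp only [gaussSum]
  rw [Finset.prod_univ_sum, Fintype.piFinset_univ]
  refine Finset.sum_congr rfl fun v _ => ?_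
  rw [Finset.prod_mul_distrib, mul_comm, Finset.mul_sum]
  congr 1
  simp only [AddChar.mulShift_apply]
  have h : ∀ t : Finset (Fin n), ψ (∑ i ∈ t, s * v i) = ∏ x ∈ t, ψ (s * v x) := by
    intro t
    induction t using Finset.induction_on with
    | empty => simp
    | insert i t hi ih => rw [Finset.sum_insert hi, Finset.prod_insert hi, AddChar.map_add_eq_mul, ih]
  exact h univ

theorem p_GJA : Stmt_GJA := by
  intro F R _ _ _ ψ hψ m _ χ hχ n a hn ha hsum
  classical
  have hprim : ψ.IsPrimitive := AddChar.IsPrimitive.of_ne_one hψ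
  -- the characters are nontrivial
  have hne : ∀ k, χ ^ (a k).val ≠ 1 := by
    intro k h
    have h1 := orderOf_dvd_of_pow_eq_one h
    rw [hχ] at h1
    have h2 : (a k).val < m := ZMod.val_lt (a k)
    have h3 : (a k).val = 0 := Nat.eq_zero_of_dvd_of_lt h1 h2
    exact ha k ((ZMod.val_eq_zero _).1 h3)
  -- the product of the characters is trivial
  have hprod : ∀ s : Fˣ, ∏ k, (χ ^ (a k).val) (s : F) = 1 := by
    intro s
    have h1 : ∏ k, (χ ^ (a k).val) (s : F) = (χ ^ (∑ k, (a k).val)) (s : F) := by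
      rw [MulChar.pow_apply_coe, ← Finset.prod_pow_eq_pow_sum]
      exact Finset.prod_congr rfl fun k _ => MulChar.pow_apply_coe _ _ _
    have h2 : m ∣ ∑ k, (a k).val := by
      rw [← ZMod.natCast_eq_zero_iff]
      push_cast
      simpa using hsum
    obtain ⟨r, hr⟩ := h2
    rw [h1, hr, pow_mul, ← hχ, pow_orderOf_eq_one, one_pow, MulChar.one_apply_coe]
  have key : ∑ s : F, ∑ v : Fin n → F, ψ (s * ∑ k, v k) * ∏ k, (χ ^ (a k).val) (v k) =
      (Fintype.card F : R) * Jac χ a := by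
    rw [Finset.sum_comm]
    have h1 : ∀ v : Fin n → F, ∑ s : F, ψ (s * ∑ k, v k) * ∏ k, (χ ^ (a k).val) (v k) =
        if ∑ k, v k = 0 then (Fintype.card F : R) * ∏ k, (χ ^ (a k).val) (v k) else 0 := by
      intro v
      rw [← Finset.sum_mul, AddChar.sum_mulShift _ hprim]
      split_ifs with h
      · rfl
      · simp
    rw [Finset.sum_congr rfl fun v _ => h1 v, ← Finset.sum_filter]
    unfold Jac
    rw [Finset.mul_sum]
  rw [← key, ← Finset.add_sum_erase univ _ (mem_univ (0 : F))]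
  have h0 : ∑ v : Fin n → F, ψ (0 * ∑ k, v k) * ∏ k, (χ ^ (a k).val) (v k) = 0 := by
    rw [GJA_inner ψ (fun k => χ ^ (a k).val) 0]
    refine Finset.prod_eq_zero (mem_univ (⟨0, hn⟩ : Fin n)) ?_
    simp only [gaussSum, AddChar.mulShift_apply, zero_mul, AddChar.map_zero_eq_one, mul_one]
    exact MulChar.sum_eq_zero_of_ne_one (hne _)
  rw [h0, zero_add]
  have h1 : ∀ s ∈ univ.erase (0 : F), ∑ v : Fin n → F, ψ (s * ∑ k, v k) * ∏ k, (χ ^ (a k).val) (v k) =
      ∏ k, gaussSum (χ ^ (a k).val) ψ := by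
    intro s hs
    have hs0 : s ≠ 0 := (Finset.mem_erase.1 hs).1
    rw [GJA_inner ψ (fun k => χ ^ (a k).val) s]
    have h2 := hprod (Units.mk0 s hs0)
    rw [← one_mul (∏ k, gaussSum (χ ^ (a k).val) (AddChar.mulShift ψ s)), ← h2, ← Finset.prod_mul_distrib]
    exact Finset.prod_congr rfl fun k _ => gaussSum_mulShift _ ψ (Units.mk0 s hs0)
  rw [Finset.sum_congr rfl h1, Finset.sum_const, Finset.card_erase_of_mem (mem_univ _), Finset.card_univ,
    nsmul_eq_mul, Nat.cast_pred Fintype.card_pos]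

end Pool.FT
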