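import Pool.Agent.Work.MP_223b32_ft.Interface

/-!
# Block GSF: elementary facts on Gauss sums
-/

namespace Pool.FT

open Finset

theorem GSF_norm_apply {F E : Type} [Field F] [Fintype F] [NormedField E] (χ : MulChar F E)
    {x : F} (hx : x ≠ 0) : ‖χ x‖ = 1 := by
  have h1 : (χ x) ^ (Fintype.card F - 1) = 1 := by
    rw [← map_pow, FiniteField.pow_card_sub_one_eq_one x hx, map_one]
  have h2 : ‖χ x‖ ^ (Fintype.card F - 1) = 1 := by
    rw [← norm_pow, h1, norm_one]
  have h3 : Fintype.card F - 1 ≠ 0 := by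
    have := Fintype.one_lt_card (α := F)
    omega
  exact (pow_eq_one_iff_of_nonneg (norm_nonneg _) h3).1 h2

theorem GSF_norm_le {F E : Type} [Field F] [Fintype F] [NormedField E] (χ : MulChar F E)
    (x : F) : ‖χ x‖ ≤ 1 := by
  by_cases hx : x = 0
  · rw [hx, χ.map_nonunit not_isUnit_zero, norm_zero]
    exact zero_le_one
  · exact (GSF_norm_apply χ hx).le

theorem GSF_psi_apply (p : ℕ) [Fact p.Prime] {F E : Type} [Field F] [Algebra (ZMod p) F]
    [Field E] (ζ : E) (hζ : ζ ^ p = 1) (x : F) :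
    psi p (F := F) ζ hζ x = AddChar.zmodChar p hζ (Algebra.trace (ZMod p) F x) := rfl

theorem GSF_ne_one (p : ℕ) [Fact p.Prime] {F E : Type} [Field F] [Fintype F]
    [Algebra (ZMod p) F] [Field E] (ζ : E) (hζ : IsPrimitiveRoot ζ p) :
    psi p (F := F) ζ hζ.pow_eq_one ≠ 1 := by
  intro h
  have : FiniteDimensional (ZMod p) F := Module.Finite.of_finite
  obtain ⟨x, hx⟩ := Algebra.trace_surjective (ZMod p) F 1
  have h1 := GSF_psi_apply p ζ hζ.pow_eq_one x
  rw [h, hx, AddChar.one_apply, AddChar.zmodChar_apply, ZMod.val_one, pow_one] at h1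
  exact hζ.ne_one (Fact.out : p.Prime).one_lt h1.symm

theorem GSF_frob (p : ℕ) [Fact p.Prime] {F E : Type} [Field F] [Fintype F]
    [Algebra (ZMod p) F] [Field E] (ζ : E) (hζ : ζ ^ p = 1) (χ : MulChar F E) :
    gaussSum (χ ^ p) (psi p (F := F) ζ hζ) = gaussSum χ (psi p (F := F) ζ hζ) := by
  have hc : CharP F p := charP_of_injective_algebraMap (algebraMap (ZMod p) F).injective p
  have : FiniteDimensional (ZMod p) F := Module.Finite.of_finite
  unfold gaussSum
  have hb : Function.Bijective fun x : F => x ^ p := by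
    have h := bijective_frobenius F p
    exact h
  rw [← hb.sum_comp fun x => χ x * psi p (F := F) ζ hζ x]
  refine Finset.sum_congr rfl fun x _ => ?_
  have h1 : Algebra.trace (ZMod p) F (x ^ p) = Algebra.trace (ZMod p) F x := by
    have h2 := Algebra.trace_eq_of_algEquiv (FiniteField.frobeniusAlgEquiv (ZMod p) F p) x
    rw [← h2]
    congr 1
    simp
  rw [GSF_psi_apply, GSF_psi_apply, h1, map_pow, MulChar.pow_apply' _ (Fact.out : p.Prime).ne_zero]

theorem p_GSF : Stmt_GSF := by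
  intro p _ F _ _ _ E _ _ _ ζ hζ
  refine ⟨fun χ => GSF_frob p ζ hζ.pow_eq_one χ, ?_, ?_, GSF_ne_one p ζ hζ⟩
  · intro χ φ h
    have h1 := jacobiSum_mul_nontrivial h (psi p (F := F) ζ hζ.pow_eq_one)
    rw [← norm_mul, ← h1, norm_mul]
    have h2 : ‖jacobiSum χ φ‖ ≤ 1 := by
      unfold jacobiSum
      refine IsUltrametricDist.norm_sum_le_of_forall_le_of_nonneg zero_le_one fun x _ => ?_
      rw [norm_mul]
      exact mul_le_one₀ (GSF_norm_le χ x) (norm_nonneg _) (GSF_norm_le φ _)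
    exact mul_le_of_le_one_right (norm_nonneg _) h2
  · intro χ hχ
    have hp : (psi p (F := F) ζ hζ.pow_eq_one).IsPrimitive :=
      AddChar.IsPrimitive.of_ne_one (GSF_ne_one p ζ hζ)
    have h1 := gaussSum_mul_gaussSum_eq_card hχ hp
    have h2 := mul_gaussSum_inv_eq_gaussSum χ⁻¹ (psi p (F := F) ζ hζ.pow_eq_one)
    have h3 : ‖gaussSum χ⁻¹ (psi p (F := F) ζ hζ.pow_eq_one)‖ =
        ‖gaussSum χ⁻¹ (psi p (F := F) ζ hζ.pow_eq_one)⁻¹‖ := by
      rw [← h2, norm_mul, GSF_norm_apply χ⁻¹ (neg_ne_zero.2 one_ne_zero), one_mul]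
    rw [h3, ← norm_mul, h1]

end Pool.FT
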