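import Pool.Agent.Work.MP_223b32_ft.Interface

set_option autoImplicit false

namespace Pool.FT

open Finset

theorem GSO_norm_le {F E : Type} [Field F] [Fintype F] [NormedField E] (χ : MulChar F E) (x : F) :
    ‖χ x‖ ≤ 1 := by
  by_cases hx : x = 0
  · subst hx
    rw [MulChar.map_zero, norm_zero]
    exact zero_le_one
  · have h1 : (χ x) ^ (Fintype.card F - 1) = 1 := by
      rw [← map_pow, FiniteField.pow_card_sub_one_eq_one x hx, map_one]
    have h2 : ‖χ x‖ ^ (Fintype.card F - 1) = 1 := by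
      rw [← norm_pow, h1, norm_one]
    have h3 : Fintype.card F - 1 ≠ 0 := by
      have := Fintype.one_lt_card (α := F)
      omega
    exact ((pow_eq_one_iff_of_nonneg (norm_nonneg _) h3).1 h2).le

theorem GSO_sum_lt {F E : Type} [Field F] [Fintype F] [NormedField E] [IsUltrametricDist E]
    (f : F → E) (h : ∀ x, ‖f x‖ < 1) : ‖∑ x, f x‖ < 1 := by
  obtain ⟨i, -, hi⟩ := IsUltrametricDist.exists_norm_finsetSum_le (univ : Finset F) f
  exact hi.trans_lt (h i)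

theorem p_GSO (hPIZ : Stmt_PIZ) (hTRC : Stmt_TRC) : Stmt_GSO := by
  intro p f _ F _ _ _ E _ _ _ hp hcard hq ζ hζ ω hω
  classical
  have hpp : p.Prime := Fact.out
  obtain ⟨-, hπ2, hπ3⟩ := hPIZ p E hp ζ hζ
  have hT := hTRC p f F E hp hcard ω hω
  have hπ0 : 0 < ‖ζ - 1‖ := norm_pos_iff.2 (sub_ne_zero.2 (hζ.ne_one hpp.one_lt))
  have hψ : ∀ x : F, psi p (F := F) ζ hζ.pow_eq_one x
      = ζ ^ (Algebra.trace (ZMod p) F x).val := by
    intro x
    rw [psi, AddChar.compAddMonoidHom_apply, AddChar.zmodChar_apply]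
    rfl
  set T : F → ℕ := fun x => (Algebra.trace (ZMod p) F x).val with hTdef
  have hf : 0 < f := by
    rcases Nat.eq_zero_or_pos f with h | h
    · rw [h, pow_zero] at hcard
      omega
    · exact h
  have hord : orderOf ω = p ^ f - 1 := by rw [hω.ord, hcard]
  have hω1 : ω⁻¹ ≠ 1 := by
    intro h
    rw [inv_eq_one] at h
    rw [h, orderOf_one] at hord
    omega
  -- the sum of the `ω⁻¹ x * (Tr x)`
  have hinner : ∀ j ∈ range f, ∑ x, ω⁻¹ x * (ω x) ^ (p ^ j)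
      = if j = 0 then (((p ^ f - 1 : ℕ) : ℕ) : E) else 0 := by
    intro j hj
    have hpj : p ^ j ≠ 0 := pow_ne_zero _ hpp.ne_zero
    have h1 : ∀ x, ω⁻¹ x * (ω x) ^ (p ^ j) = (ω ^ (p ^ j - 1)) x := by
      intro x
      rw [← MulChar.pow_apply' ω hpj, ← MulChar.mul_apply]
      congr 1
      obtain ⟨k, hk⟩ := Nat.exists_eq_succ_of_ne_zero hpj
      rw [hk, Nat.succ_sub_one, pow_succ', inv_mul_cancel_left]
    simp_rw [h1]
    split_ifs with hj0
    · subst hj0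
      rw [pow_zero, Nat.sub_self, pow_zero, MulChar.sum_one_eq_card_units, Fintype.card_units,
        hcard]
    · refine MulChar.sum_eq_zero_of_ne_one ?_
      intro h
      have h2 := orderOf_dvd_of_pow_eq_one h
      rw [hord] at h2
      have h3 : p ^ j < p ^ f := Nat.pow_lt_pow_right hpp.one_lt (mem_range.1 hj)
      have h4 : 1 < p ^ j := Nat.one_lt_pow hj0 hpp.one_lt
      have h5 := Nat.le_of_dvd (by omega) h2
      omega
  have hS : ‖(∑ x, ω⁻¹ x * (T x : E)) + 1‖ < 1 := by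
    have e1 : (∑ x, ω⁻¹ x * (T x : E)) + 1
        = (∑ x, ω⁻¹ x * ((T x : E) - ∑ j ∈ range f, (ω x) ^ (p ^ j))) + (p : E) ^ f := by
      have e2 : ∑ x, ω⁻¹ x * (∑ j ∈ range f, (ω x) ^ (p ^ j)) = (p : E) ^ f - 1 := by
        simp_rw [mul_sum]
        rw [sum_comm, sum_congr rfl hinner, sum_ite_eq' (range f) 0, if_pos (mem_range.2 hf)]
        have h6 : 1 ≤ p ^ f := Nat.one_le_pow _ _ hpp.pos
        push_cast [Nat.cast_sub h6]
        ring
      have e3 : ∑ x, ω⁻¹ x * ((T x : E) - ∑ j ∈ range f, (ω x) ^ (p ^ j))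
          = (∑ x, ω⁻¹ x * (T x : E)) - ∑ x, ω⁻¹ x * (∑ j ∈ range f, (ω x) ^ (p ^ j)) := by
        rw [← sum_sub_distrib]
        exact sum_congr rfl fun x _ => by ring
      rw [e3, e2]
      ring
    rw [e1]
    refine (IsUltrametricDist.norm_add_le_max _ _).trans_lt (max_lt ?_ ?_)
    · refine GSO_sum_lt _ fun x => ?_
      rw [norm_mul]
      exact (mul_le_of_le_one_left (norm_nonneg _) (GSO_norm_le _ _)).trans_lt (hT x)
    · rw [norm_pow]
      exact pow_lt_one₀ (norm_nonneg _) hp hf.ne'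
  have hS1 : ‖∑ x, ω⁻¹ x * (T x : E)‖ = 1 := by
    have e1 : (∑ x, ω⁻¹ x * (T x : E)) = ((∑ x, ω⁻¹ x * (T x : E)) + 1) + (-1) := by ring
    rw [e1, IsUltrametricDist.norm_add_eq_max_of_norm_ne_norm (by
      rw [norm_neg, norm_one]
      exact hS.ne), norm_neg, norm_one]
    exact max_eq_right hS.le
  have hkey : gaussSum ω⁻¹ (psi p (F := F) ζ hζ.pow_eq_one)
      = (∑ x, ω⁻¹ x * (ζ ^ (T x) - 1 - (T x : E) * (ζ - 1)))
        + (ζ - 1) * ∑ x, ω⁻¹ x * (T x : E) := by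
    have h0 : ∑ x, ω⁻¹ x = 0 := MulChar.sum_eq_zero_of_ne_one hω1
    rw [mul_sum, ← sum_add_distrib]
    have e1 : gaussSum ω⁻¹ (psi p (F := F) ζ hζ.pow_eq_one) = ∑ x, ω⁻¹ x * ζ ^ (T x) := by
      unfold gaussSum
      exact sum_congr rfl fun x _ => by rw [hψ x]
    have e2 : ∑ x, ω⁻¹ x * ζ ^ (T x) = (∑ x, ω⁻¹ x * ζ ^ (T x)) - ∑ x, ω⁻¹ x := by
      rw [h0, sub_zero]
    rw [e1, e2, ← sum_sub_distrib]
    exact sum_congr rfl fun x _ => by ring
  have hR : ‖∑ x, ω⁻¹ x * (ζ ^ (T x) - 1 - (T x : E) * (ζ - 1))‖ < ‖ζ - 1‖ := by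
    have h1 : ‖∑ x, ω⁻¹ x * (ζ ^ (T x) - 1 - (T x : E) * (ζ - 1))‖ ≤ ‖ζ - 1‖ ^ 2 := by
      refine IsUltrametricDist.norm_sum_le_of_forall_le_of_nonneg (by positivity) fun x _ => ?_
      rw [norm_mul]
      exact (mul_le_of_le_one_left (norm_nonneg _) (GSO_norm_le _ _)).trans (hπ3 (T x))
    refine h1.trans_lt ?_
    rw [sq]
    exact mul_lt_of_lt_one_left hπ0 hπ2
  have hM : ‖(ζ - 1) * ∑ x, ω⁻¹ x * (T x : E)‖ = ‖ζ - 1‖ := by
    rw [norm_mul, hS1, mul_one]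
  rw [hkey, IsUltrametricDist.norm_add_eq_max_of_norm_ne_norm (by
    rw [hM]
    exact hR.ne), hM]
  exact max_eq_right hR.le

end Pool.FT
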