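import Pool.Agent.Work.MP_223b32_ft.Interface

set_option autoImplicit false

/-! # Block HDA: sums over monic polynomials -/

namespace Pool.FT

open Finset

/-- The monic polynomial with the coefficients `c` below the leading one. -/
noncomputable def HDA_P {F : Type} [Field F] (n : ℕ) (c : Fin n → F) : Polynomial F :=
  (Polynomial.X : Polynomial F) ^ n
    + ∑ i : Fin n, Polynomial.C (c i) * (Polynomial.X : Polynomial F) ^ (i : ℕ)

theorem HDA_monic {F : Type} [Field F] (n : ℕ) (c : Fin n → F) : (HDA_P n c).Monic :=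
  Polynomial.monic_X_pow_add (Polynomial.degree_sum_fin_lt c)

theorem HDA_deg {F : Type} [Field F] (n : ℕ) (c : Fin n → F) : (HDA_P n c).natDegree = n := by
  unfold HDA_P
  rw [Polynomial.natDegree_add_eq_left_of_degree_lt
    (by rw [Polynomial.degree_X_pow]; exact Polynomial.degree_sum_fin_lt c),
    Polynomial.natDegree_X_pow]

theorem HDA_coeff {F : Type} [Field F] (n : ℕ) (c : Fin n → F) (i : Fin n) :
    (HDA_P n c).coeff i = c i := by
  unfold HDA_P
  rw [Polynomial.coeff_add, Polynomial.coeff_X_pow, if_neg (by have := i.2; omega), zero_add,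
    Polynomial.finsetSum_coeff, Finset.sum_eq_single i]
  · rw [Polynomial.coeff_C_mul, Polynomial.coeff_X_pow, if_pos rfl, mul_one]
  · intro j _ hj
    rw [Polynomial.coeff_C_mul, Polynomial.coeff_X_pow,
      if_neg (fun h => hj (Fin.ext h.symm)), mul_zero]
  · intro h
    exact absurd (mem_univ _) h

theorem HDA_inj {F : Type} [Field F] (n : ℕ) :
    Function.Injective (HDA_P n : (Fin n → F) → Polynomial F) := by
  intro c c' h
  funext i
  rw [← HDA_coeff n c i, ← HDA_coeff n c' i, h]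

theorem HDA_eq {F : Type} [Field F] [Fintype F] (n : ℕ) :
    Mon F n = (univ : Finset (Fin n → F)).map ⟨HDA_P n, HDA_inj n⟩ := by
  classical
  rw [map_eq_image]
  ext f
  simp only [Mon, mem_image, Function.Embedding.coeFn_mk, HDA_P]

theorem HDA_mem {F : Type} [Field F] [Fintype F] (n : ℕ) (f : Polynomial F) :
    f ∈ Mon F n ↔ f.Monic ∧ f.natDegree = n := by
  rw [HDA_eq]
  constructor
  · intro h
    obtain ⟨c, _, rfl⟩ := mem_map.1 h
    exact ⟨HDA_monic n c, HDA_deg n c⟩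
  · rintro ⟨h1, rfl⟩
    refine mem_map.2 ⟨fun i => f.coeff i, mem_univ _, ?_⟩
    show HDA_P f.natDegree (fun i => f.coeff i) = f
    have h2 := h1.as_sum
    unfold HDA_P
    rw [Fin.sum_univ_eq_sum_range
      (fun i => Polynomial.C (f.coeff i) * (Polynomial.X : Polynomial F) ^ i)]
    exact h2.symm

theorem HDA_sum {F : Type} [Field F] [Fintype F] (n : ℕ) (G : Polynomial F → ℂ) :
    ∑ f ∈ Mon F n, G f = ∑ c : Fin n → F, G (HDA_P n c) := by
  rw [HDA_eq, sum_map]
  rfl

theorem HDA_one {F : Type} [Field F] (χ : MulChar F ℂ) (ψ : AddChar F ℂ) :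
    lamP χ ψ 1 = 1 := by
  unfold lamP
  have h : (1 : Polynomial F).nextCoeff = 0 := by
    rw [← map_one (Polynomial.C : F →+* Polynomial F), Polynomial.nextCoeff_C_eq_zero]
  rw [h, Polynomial.natDegree_one, Polynomial.coeff_one_zero, neg_zero, AddChar.map_zero_eq_one,
    pow_zero, one_mul, map_one, one_mul]

theorem HDA_mul {F : Type} [Field F] (χ : MulChar F ℂ) (ψ : AddChar F ℂ) (f g : Polynomial F)
    (hf : f.Monic) (hg : g.Monic) : lamP χ ψ (f * g) = lamP χ ψ f * lamP χ ψ g := by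
  unfold lamP
  rw [hf.nextCoeff_mul hg, hf.natDegree_mul hg, Polynomial.mul_coeff_zero, neg_add,
    AddChar.map_add_eq_mul]
  have h : (-1 : F) ^ (f.natDegree + g.natDegree) * (f.coeff 0 * g.coeff 0) =
      ((-1) ^ f.natDegree * f.coeff 0) * ((-1) ^ g.natDegree * g.coeff 0) := by
    rw [pow_add]; ring
  rw [h, map_mul]
  ring

theorem HDA_deg1 {F : Type} [Field F] [Fintype F] (χ : MulChar F ℂ) (ψ : AddChar F ℂ) :
    ∑ f ∈ Mon F 1, lamP χ ψ f = gaussSum χ ψ := by
  rw [HDA_sum]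
  unfold gaussSum
  refine Fintype.sum_equiv ((Equiv.funUnique (Fin 1) F).trans (Equiv.neg F)) _ _ fun c => ?_
  have h0 : (HDA_P 1 c).coeff 0 = c 0 := HDA_coeff 1 c 0
  have h1 : (HDA_P 1 c).nextCoeff = c 0 := by
    rw [Polynomial.nextCoeff_of_natDegree_pos (by rw [HDA_deg]; norm_num), HDA_deg]
    exact h0
  unfold lamP
  rw [h0, h1, HDA_deg, pow_one, neg_one_mul]
  rfl

theorem HDA_deg2 {F : Type} [Field F] [Fintype F] (χ : MulChar F ℂ) (ψ : AddChar F ℂ)
    (hχ : χ ≠ 1) (n : ℕ) (hn : 2 ≤ n) : ∑ f ∈ Mon F n, lamP χ ψ f = 0 := by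
  rw [HDA_sum]
  obtain ⟨u, hu⟩ := (MulChar.ne_one_iff).1 hχ
  obtain ⟨k, rfl⟩ : ∃ k, n = k + 2 := ⟨n - 2, by omega⟩
  have hval : ∀ c : Fin (k + 2) → F, lamP χ ψ (HDA_P (k + 2) c) =
      χ ((-1) ^ (k + 2) * c 0) * ψ (-(c (Fin.last (k + 1)))) := by
    intro c
    have h0 : (HDA_P (k + 2) c).coeff 0 = c 0 := HDA_coeff (k + 2) c 0
    have h1 : (HDA_P (k + 2) c).nextCoeff = c (Fin.last (k + 1)) := by
      rw [Polynomial.nextCoeff_of_natDegree_pos (by rw [HDA_deg]; omega), HDA_deg]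
      exact HDA_coeff (k + 2) c (Fin.last (k + 1))
    unfold lamP
    rw [h0, h1, HDA_deg]
  let e : (Fin (k + 2) → F) ≃ (Fin (k + 2) → F) :=
    Equiv.piCongrRight fun i => if i = 0 then Units.mulLeft u else Equiv.refl F
  have he0 : ∀ c, e c 0 = (u : F) * c 0 := by
    intro c
    show (if (0 : Fin (k + 2)) = 0 then Units.mulLeft u else Equiv.refl F) (c 0) = _
    rw [if_pos rfl]
    rfl
  have hel : ∀ c, e c (Fin.last (k + 1)) = c (Fin.last (k + 1)) := by
    intro c
    show (if (Fin.last (k + 1)) = 0 then Units.mulLeft u else Equiv.refl F)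
      (c (Fin.last (k + 1))) = _
    rw [if_neg (by intro h; exact absurd (congrArg Fin.val h) (by simp))]
    rfl
  have hS : ∑ c, lamP χ ψ (HDA_P (k + 2) c) =
      χ (u : F) * ∑ c, lamP χ ψ (HDA_P (k + 2) c) := by
    calc ∑ c, lamP χ ψ (HDA_P (k + 2) c) = ∑ c, lamP χ ψ (HDA_P (k + 2) (e c)) :=
          (Equiv.sum_comp e _).symm
      _ = ∑ c, χ (u : F) * lamP χ ψ (HDA_P (k + 2) c) := by
          refine sum_congr rfl fun c _ => ?_
          rw [hval, hval, he0, hel]
          have h : (-1 : F) ^ (k + 2) * ((u : F) * c 0) = (u : F) * ((-1) ^ (k + 2) * c 0) := by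
            ring
          rw [h, map_mul, mul_assoc]
      _ = _ := by rw [mul_sum]
  have h1 : (1 - χ (u : F)) * ∑ c, lamP χ ψ (HDA_P (k + 2) c) = 0 := by
    rw [sub_mul, one_mul, ← hS, sub_self]
  rcases mul_eq_zero.1 h1 with h | h
  · exact absurd (sub_eq_zero.1 h).symm hu
  · exact h

theorem p_HDA : Stmt_HDA := by
  intro F _ _ χ ψ hχ
  exact ⟨fun n f => HDA_mem n f, HDA_one χ ψ, fun f g => HDA_mul χ ψ f g, HDA_deg1 χ ψ,
    fun n hn => HDA_deg2 χ ψ hχ n hn⟩

end Pool.FT
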