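import Pool.Agent.Work.MP_223b32_ft.Interface

/-! # Block HDB: the logarithmic derivative of an Euler product (MP_223b32, THEOREM FT) -/

namespace Pool.FT

open Finset

theorem HDB_swap (n : ℕ) (G : ℕ → ℕ → ℕ) :
    ∑ s ∈ Icc 1 n, ∑ d ∈ s.divisors, G d (s / d) =
      ∑ d ∈ Icc 1 n, ∑ k ∈ Icc 1 (n / d), G d k := by
  rw [Finset.sum_sigma', Finset.sum_sigma']
  refine Finset.sum_bij' (fun x _ => ⟨x.2, x.1 / x.2⟩) (fun x _ => ⟨x.1 * x.2, x.1⟩) ?_ ?_ ?_ ?_ ?_
  · rintro ⟨s, d⟩ h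
    simp only [Finset.mem_sigma, Finset.mem_Icc, Nat.mem_divisors] at h ⊢
    obtain ⟨⟨h1, h2⟩, h3, h4⟩ := h
    have hd : 0 < d := Nat.pos_of_dvd_of_pos h3 (by omega)
    have hds : d ≤ s := Nat.le_of_dvd (by omega) h3
    exact ⟨⟨hd, hds.trans h2⟩, Nat.div_pos hds hd, Nat.div_le_div_right h2⟩
  · rintro ⟨d, k⟩ h
    simp only [Finset.mem_sigma, Finset.mem_Icc, Nat.mem_divisors] at h ⊢
    obtain ⟨⟨h1, h2⟩, h3, h4⟩ := h
    have h5 : d * k ≤ n := by
      rw [mul_comm]
      exact (Nat.le_div_iff_mul_le (by omega)).1 h4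
    have h6 : 0 < d * k := Nat.mul_pos h1 h3
    exact ⟨⟨h6, h5⟩, Dvd.intro k rfl, h6.ne'⟩
  · rintro ⟨s, d⟩ h
    simp only [Finset.mem_sigma, Finset.mem_Icc, Nat.mem_divisors] at h
    obtain ⟨⟨h1, h2⟩, h3, h4⟩ := h
    simp only [Nat.mul_div_cancel' h3]
  · rintro ⟨d, k⟩ h
    simp only [Finset.mem_sigma, Finset.mem_Icc] at h
    obtain ⟨⟨h1, h2⟩, h3, h4⟩ := h
    have h5 : 0 < d := h1
    simp only [Nat.mul_div_cancel_left k h5]
  · rintro ⟨s, d⟩ h
    rfl

section

variable {F : Type} [Field F] [Fintype F]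

open Classical in
theorem HDB_deg (hM : ∀ (n : ℕ) (f : Polynomial F), f ∈ Mon F n ↔ f.Monic ∧ f.natDegree = n)
    (n : ℕ) (f : Polynomial F) (hf : f ∈ Mon F n) :
    n = ∑ s ∈ Icc 1 n, ∑ d ∈ s.divisors, ∑ P ∈ (Mon F d).filter Irreducible,
      if P ^ (s / d) ∣ f then d else 0 := by
  obtain ⟨hmon, hdeg⟩ := (hM n f).1 hf
  have hf0 : f ≠ 0 := hmon.ne_zero
  set T := UniqueFactorizationMonoid.normalizedFactors f with hT
  have hTm : ∀ P ∈ T, P.Monic := by
    intro P hP
    have h1 := UniqueFactorizationMonoid.normalize_normalized_factor P hP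
    have h2 : P ≠ 0 := (UniqueFactorizationMonoid.irreducible_of_normalized_factor P hP).ne_zero
    rw [← h1]
    exact Polynomial.monic_normalize h2
  have hTprod : T.prod = f := by
    rw [hT, UniqueFactorizationMonoid.prod_normalizedFactors_eq hf0, hmon.normalize_eq_self]
  have h1 : n = (T.map Polynomial.natDegree).sum := by
    rw [← Polynomial.natDegree_multiset_prod_of_monic T hTm, hTprod, hdeg]
  have hdvd : ∀ P ∈ T, P ∣ f := fun P hP => by
    rw [← hTprod]
    exact Multiset.dvd_prod hP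
  have hTirr : ∀ P ∈ T, Irreducible P := fun P hP =>
    UniqueFactorizationMonoid.irreducible_of_normalized_factor P hP
  have h2 : n = ∑ P ∈ T.toFinset, T.count P * P.natDegree := by
    conv_lhs => rw [h1]
    rw [Finset.sum_multiset_map_count]
    simp only [smul_eq_mul]
  have h3 : n = ∑ d ∈ Icc 1 n, ∑ P ∈ T.toFinset with P.natDegree = d,
      T.count P * P.natDegree := by
    conv_lhs => rw [h2]
    symm
    refine Finset.sum_fiberwise_of_maps_to ?_ _
    intro P hP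
    have hP' := Multiset.mem_toFinset.1 hP
    rw [Finset.mem_Icc]
    constructor
    · exact (hTirr P hP').natDegree_pos
    · rw [← hdeg]
      exact Polynomial.natDegree_le_of_dvd (hdvd P hP') hf0
  have h4 : n = ∑ d ∈ Icc 1 n, ∑ P ∈ (Mon F d).filter Irreducible, T.count P * d := by
    conv_lhs => rw [h3]
    refine Finset.sum_congr rfl fun d _ => ?_
    have h5 : ∑ P ∈ T.toFinset with P.natDegree = d, T.count P * P.natDegree =
        ∑ P ∈ T.toFinset with P.natDegree = d, T.count P * d :=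
      Finset.sum_congr rfl fun P hP => by rw [(Finset.mem_filter.1 hP).2]
    rw [h5]
    refine Finset.sum_subset ?_ ?_
    · intro P hP
      obtain ⟨h6, h7⟩ := Finset.mem_filter.1 hP
      have h8 := Multiset.mem_toFinset.1 h6
      exact Finset.mem_filter.2 ⟨(hM d P).2 ⟨hTm P h8, h7⟩, hTirr P h8⟩
    · intro P hP hP2
      have h6 := ((hM d P).1 (Finset.mem_filter.1 hP).1).2
      have h7 : P ∉ T := by
        intro h8
        exact hP2 (Finset.mem_filter.2 ⟨Multiset.mem_toFinset.2 h8, h6⟩)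
      rw [Multiset.count_eq_zero_of_notMem h7, zero_mul]
  have h5 : n = ∑ d ∈ Icc 1 n, ∑ k ∈ Icc 1 (n / d), ∑ P ∈ (Mon F d).filter Irreducible,
      if P ^ k ∣ f then d else 0 := by
    conv_lhs => rw [h4]
    refine Finset.sum_congr rfl fun d hd => ?_
    rw [Finset.sum_comm]
    refine Finset.sum_congr rfl fun P hP => ?_
    obtain ⟨h6, hirr⟩ := Finset.mem_filter.1 hP
    obtain ⟨h7, h8⟩ := (hM d P).1 h6
    have hd1 : 1 ≤ d := (Finset.mem_Icc.1 hd).1
    have h9 : ∀ k : ℕ, P ^ k ∣ f ↔ k ≤ T.count P := by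
      intro k
      rw [pow_dvd_iff_le_emultiplicity,
        UniqueFactorizationMonoid.emultiplicity_eq_count_normalizedFactors hirr hf0,
        h7.normalize_eq_self]
      exact Nat.cast_le
    have h10 : T.count P ≤ n / d := by
      rw [Nat.le_div_iff_mul_le hd1]
      have h11 : P ^ (T.count P) ∣ f := (h9 _).2 le_rfl
      have h12 := Polynomial.natDegree_le_of_dvd h11 hf0
      rw [Polynomial.natDegree_pow, h8, hdeg] at h12
      exact h12
    simp only [h9]
    rw [← Finset.sum_filter]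
    have h11 : (Icc 1 (n / d)).filter (fun k => k ≤ T.count P) = Icc 1 (T.count P) := by
      ext k
      simp only [Finset.mem_filter, Finset.mem_Icc]
      omega
    rw [h11, Finset.sum_const, Nat.card_Icc, smul_eq_mul, Nat.add_sub_cancel]
  rw [HDB_swap n (fun d k => ∑ P ∈ (Mon F d).filter Irreducible, if P ^ k ∣ f then d else 0)]
  exact h5

theorem HDB_mul (L : Polynomial F → ℂ) (h1 : L 1 = 1)
    (hL : ∀ f g : Polynomial F, f.Monic → g.Monic → L (f * g) = L f * L g)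
    (P g : Polynomial F) (hP : P.Monic) (hg : g.Monic) (k : ℕ) :
    L (P ^ k * g) = L P ^ k * L g := by
  induction k with
  | zero => simp
  | succ k ih =>
    have h2 : P ^ (k + 1) * g = P * (P ^ k * g) := by ring
    rw [h2, hL P _ hP ((hP.pow k).mul hg), ih]
    ring

open Classical in
theorem HDB_fib (L : Polynomial F → ℂ)
    (hM : ∀ (n : ℕ) (f : Polynomial F), f ∈ Mon F n ↔ f.Monic ∧ f.natDegree = n)
    (h1 : L 1 = 1)
    (hL : ∀ f g : Polynomial F, f.Monic → g.Monic → L (f * g) = L f * L g)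
    (n d k : ℕ) (P : Polynomial F) (hP : P ∈ Mon F d) (hk : k * d ≤ n) :
    ∑ f ∈ Mon F n, (if P ^ k ∣ f then L f else 0) = L P ^ k * ∑ g ∈ Mon F (n - k * d), L g := by
  obtain ⟨hPm, hPd⟩ := (hM d P).1 hP
  rw [← Finset.sum_filter, Finset.mul_sum]
  symm
  refine Finset.sum_bij (fun g _ => P ^ k * g) ?_ ?_ ?_ ?_
  · intro g hg
    obtain ⟨hgm, hgd⟩ := (hM _ g).1 hg
    refine Finset.mem_filter.2 ⟨(hM n _).2 ⟨(hPm.pow k).mul hgm, ?_⟩, Dvd.intro g rfl⟩
    rw [(hPm.pow k).natDegree_mul hgm, hPm.natDegree_pow, hPd, hgd]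
    omega
  · intro g _ g' _ h
    exact mul_left_cancel₀ (hPm.pow k).ne_zero h
  · intro f hf
    obtain ⟨h2, g, hg⟩ := Finset.mem_filter.1 hf
    obtain ⟨h3, h4⟩ := (hM n f).1 h2
    have h5 : g.Monic := (hPm.pow k).of_mul_monic_left (by rw [← hg]; exact h3)
    refine ⟨g, (hM _ g).2 ⟨h5, ?_⟩, hg.symm⟩
    rw [hg, (hPm.pow k).natDegree_mul h5, hPm.natDegree_pow, hPd] at h4
    omega
  · intro g hg
    exact (HDB_mul L h1 hL P g hPm ((hM _ g).1 hg).1 k).symm

end

theorem p_HDB : Stmt_HDB := by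
  classical
  intro F _ _ L hM h1 hL n
  have e1 : (n : ℂ) * ∑ f ∈ Mon F n, L f = ∑ f ∈ Mon F n, ∑ s ∈ Icc 1 n, ∑ d ∈ s.divisors,
      ∑ P ∈ (Mon F d).filter Irreducible, (d : ℂ) * (if P ^ (s / d) ∣ f then L f else 0) := by
    rw [Finset.mul_sum]
    refine Finset.sum_congr rfl fun f hf => ?_
    have h2 : (n : ℂ) = ∑ s ∈ Icc 1 n, ∑ d ∈ s.divisors, ∑ P ∈ (Mon F d).filter Irreducible,
        (if P ^ (s / d) ∣ f then (d : ℂ) else 0) := by
      have h3 := congrArg (Nat.cast : ℕ → ℂ) (HDB_deg hM n f hf)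
      rw [h3]
      push_cast
      rfl
    conv_lhs => rw [h2]
    rw [Finset.sum_mul]
    refine Finset.sum_congr rfl fun s _ => ?_
    rw [Finset.sum_mul]
    refine Finset.sum_congr rfl fun d _ => ?_
    rw [Finset.sum_mul]
    refine Finset.sum_congr rfl fun P _ => ?_
    by_cases h : P ^ (s / d) ∣ f
    · rw [if_pos h, if_pos h]
    · rw [if_neg h, if_neg h, zero_mul, mul_zero]
  rw [e1, Finset.sum_comm]
  refine Finset.sum_congr rfl fun s hs => ?_
  rw [Finset.sum_comm, Finset.sum_mul]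
  refine Finset.sum_congr rfl fun d hd => ?_
  rw [Finset.sum_comm, Finset.sum_mul]
  refine Finset.sum_congr rfl fun P hP => ?_
  rw [← Finset.mul_sum]
  have hsn : s ≤ n := (Finset.mem_Icc.1 hs).2
  have hds : d ∣ s := (Nat.mem_divisors.1 hd).1
  have hsd : s / d * d = s := Nat.div_mul_cancel hds
  rw [HDB_fib L hM h1 hL n d (s / d) P (Finset.mem_filter.1 hP).1 (by rw [hsd]; exact hsn), hsd]
  ring

end Pool.FT
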