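import Pool.Agent.Work.MP_223b32_ft.Interface

set_option autoImplicit false

/-! # Block HDC: sum over an extension field through minimal polynomials -/

namespace Pool.FT

open Finset IntermediateField

theorem HDC_value {F E : Type} [Field F] [Field E] [Algebra F E] [FiniteDimensional F E]
    (χ : MulChar F ℂ) (ψ : AddChar F ℂ) (x : E) :
    χ (Algebra.norm F x) * ψ (Algebra.trace F E x) =
      lamP χ ψ (minpoly F x) ^ (Module.finrank F E / (minpoly F x).natDegree) := by
  have hx : IsIntegral F x := IsIntegral.of_finite F x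
  have hd : Module.finrank F F⟮x⟯ = (minpoly F x).natDegree := IntermediateField.adjoin.finrank hx
  have hk : Module.finrank F⟮x⟯ E = Module.finrank F E / (minpoly F x).natDegree := by
    rw [← hd, ← Module.finrank_mul_finrank F F⟮x⟯ E]
    rw [Nat.mul_div_cancel_left _ Module.finrank_pos]
  rw [← hk]
  have hn : Algebra.norm F (AdjoinSimple.gen F x) =
      (-1) ^ (minpoly F x).natDegree * (minpoly F x).coeff 0 := by
    have h := Algebra.PowerBasis.norm_gen_eq_coeff_zero_minpoly (adjoin.powerBasis hx)
    rw [adjoin.powerBasis_gen hx, adjoin.powerBasis_dim hx, minpoly_gen] at h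
    exact h
  rw [Algebra.norm_eq_norm_adjoin F x, hn, trace_eq_finrank_mul_minpoly_nextCoeff F x,
    ← nsmul_eq_mul, AddChar.map_nsmul_eq_pow, map_pow, ← mul_pow]
  rfl

theorem HDC_card {F E : Type} [Field F] [Field E] [Finite E] [Algebra F E] (P : Polynomial F)
    (hP : P.Monic) (hirr : Irreducible P) (hd : P.natDegree ∣ Module.finrank F E) :
    Nat.card {x : E // minpoly F x = P} = P.natDegree := by
  have : Fact (Irreducible P) := ⟨hirr⟩
  have h1 : Module.finrank F (AdjoinRoot P) = P.natDegree := by
    rw [(AdjoinRoot.powerBasis hirr.ne_zero).finrank, AdjoinRoot.powerBasis_dim]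
  have h2 : Nat.card (AdjoinRoot P →ₐ[F] E) = P.natDegree := by
    rw [FiniteField.natCard_algHom_of_finrank_dvd (by rw [h1]; exact hd), h1]
  rw [← h2]
  refine Nat.card_congr ?_
  refine Equiv.trans ?_ (AdjoinRoot.equiv E F P hirr.ne_zero).symm
  refine Equiv.subtypeEquivRight fun x => ?_
  rw [Polynomial.mem_aroots]
  constructor
  · rintro rfl
    exact ⟨hirr.ne_zero, minpoly.aeval F x⟩
  · rintro ⟨_, h⟩
    exact (minpoly.eq_of_irreducible_of_monic hirr h hP).symm

theorem p_HDC : Stmt_HDC := by
  classical
  intro F E _ _ _ _ _ χ ψ hMon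
  have : Module.Finite F E := inferInstance
  have hmin : ∀ x : E, (minpoly F x).Monic ∧ Irreducible (minpoly F x) := fun x =>
    ⟨minpoly.monic (IsIntegral.of_finite F x), minpoly.irreducible (IsIntegral.of_finite F x)⟩
  have h1 : ∀ x ∈ (univ : Finset E),
      (minpoly F x).natDegree ∈ (Module.finrank F E).divisors := by
    intro x _
    rw [Nat.mem_divisors]
    exact ⟨minpoly.degree_dvd (IsIntegral.of_finite F x), Module.finrank_pos.ne'⟩
  rw [← Finset.sum_fiberwise_of_maps_to h1]
  refine sum_congr rfl fun d hd => ?_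
  have h2 : ∀ x ∈ (univ : Finset E).filter (fun x => (minpoly F x).natDegree = d),
      minpoly F x ∈ (Mon F d).filter Irreducible := by
    intro x hx
    rw [mem_filter, hMon]
    exact ⟨⟨(hmin x).1, (mem_filter.1 hx).2⟩, (hmin x).2⟩
  rw [← Finset.sum_fiberwise_of_maps_to h2]
  refine sum_congr rfl fun P hP => ?_
  rw [mem_filter, hMon] at hP
  obtain ⟨⟨hP1, hP2⟩, hP3⟩ := hP
  have h3 : ((univ : Finset E).filter (fun x => (minpoly F x).natDegree = d)).filter
      (fun x => minpoly F x = P) = (univ : Finset E).filter (fun x => minpoly F x = P) := by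
    ext x
    simp only [mem_filter, mem_univ, true_and]
    constructor
    · exact fun h => h.2
    · intro h
      exact ⟨by rw [h, hP2], h⟩
  rw [h3]
  have h4 : ((univ : Finset E).filter (fun x => minpoly F x = P)).card = d := by
    rw [← Fintype.card_subtype, ← Nat.card_eq_fintype_card,
      HDC_card P hP1 hP3 (by rw [hP2]; exact (Nat.mem_divisors.1 hd).1), hP2]
  rw [← h4, ← nsmul_eq_mul, ← sum_const]
  refine sum_congr rfl fun x hx => ?_
  have hx2 : minpoly F x = P := (mem_filter.1 hx).2
  rw [HDC_value χ ψ x, hx2, h4, hP2]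

end Pool.FT
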