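import Pool.Agent.Work.MP_223b32_ft.Interface

/-!
# THEOREM FT: block HDV (Hasse-Davenport)
-/

namespace Pool.FT

open Finset

open Classical in
theorem p_HDV (hHDA : Stmt_HDA) (hHDB : Stmt_HDB) (hHDC : Stmt_HDC) : Stmt_HDV := by
  intro F E _ _ _ _ _ χ ψ hχ
  obtain ⟨hmem, hone, hmul, hA1, hA2⟩ := hHDA F χ ψ hχ
  have hB := hHDB F (lamP χ ψ) hmem hone hmul
  rw [hHDC F E χ ψ hmem]
  set g := gaussSum χ ψ with hg
  set A : ℕ → ℂ := fun n => ∑ f ∈ Mon F n, lamP χ ψ f with hA
  set S : ℕ → ℂ := fun s => ∑ d ∈ s.divisors, ∑ P ∈ (Mon F d).filter Irreducible,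
    (d : ℂ) * (lamP χ ψ P) ^ (s / d) with hS
  have hA0 : A 0 = 1 := by
    have h1 : Mon F 0 = {1} := by
      ext f
      rw [hmem, Finset.mem_singleton]
      constructor
      · rintro ⟨h1, h2⟩
        exact h1.natDegree_eq_zero.1 h2
      · rintro rfl
        exact ⟨Polynomial.monic_one, Polynomial.natDegree_one⟩
    simp only [hA, h1, Finset.sum_singleton, hone]
  have hB' : ∀ n : ℕ, (n : ℂ) * A n = ∑ s ∈ Icc 1 n, S s * A (n - s) := hB
  have h1 : S 1 = g := by
    have h := hB' 1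
    rw [Finset.Icc_self, Finset.sum_singleton, Nat.sub_self, hA0, mul_one, Nat.cast_one, one_mul] at h
    rw [← h]; exact hA1
  have hstep : ∀ k : ℕ, S (k + 2) = - (S (k + 1) * g) := by
    intro k
    have h := hB' (k + 2)
    have h0 : A (k + 2) = 0 := hA2 (k + 2) (by omega)
    rw [h0, mul_zero, Finset.sum_Icc_succ_top (by omega), Finset.sum_Icc_succ_top (by omega)] at h
    have hz : ∑ s ∈ Icc 1 k, S s * A (k + 1 + 1 - s) = 0 := by
      refine Finset.sum_eq_zero fun s hs => ?_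
      rw [Finset.mem_Icc] at hs
      have : A (k + 1 + 1 - s) = 0 := hA2 _ (by omega)
      rw [this, mul_zero]
    have e1 : k + 1 + 1 - (k + 1) = 1 := by omega
    have e2 : k + 1 + 1 - (k + 1 + 1) = 0 := by omega
    have e3 : A 1 = g := hA1
    rw [hz, e1, e2, hA0, e3, zero_add, mul_one] at h
    linear_combination -h
  have hmain : ∀ k : ℕ, S (k + 1) = (-1) ^ k * g ^ (k + 1) := by
    intro k
    induction k with
    | zero => rw [zero_add, h1]; simp
    | succ k ih => rw [hstep k, ih]; ring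
  have hpos : 0 < Module.finrank F E := Module.finrank_pos
  obtain ⟨k, hk⟩ : ∃ k, Module.finrank F E = k + 1 := ⟨Module.finrank F E - 1, by omega⟩
  have := hmain k
  rw [hk, Nat.add_sub_cancel]
  exact this

end Pool.FT
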