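import Pool.Agent.Work.MP_223b32_ft.Interface

/-! # Block HZO: the value at one of the odd function sinZeta (MP_223b32_ag, helper95) -/

namespace Pool.FT

open Filter Topology

/-- the cosines -/
noncomputable def HZO_c (x : ℝ) (m : ℕ) : ℝ := Real.cos ((2 * m + 1) * (Real.pi * x))

theorem HZO_c_abs (x : ℝ) (m : ℕ) : |HZO_c x m| ≤ 1 := Real.abs_cos_le_one _

theorem HZO_bc (x : ℝ) (m : ℕ) :
    2 * Real.sin (Real.pi * x) * Real.sin (2 * Real.pi * x * (m + 1)) =
      HZO_c x m - HZO_c x (m + 1) := by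
  unfold HZO_c
  rw [Real.cos_sub_cos]
  have h1 : ((2 * (m : ℝ) + 1) * (Real.pi * x) + (2 * ((m + 1 : ℕ) : ℝ) + 1) * (Real.pi * x)) / 2 =
      2 * Real.pi * x * (m + 1) := by push_cast; ring
  have h2 : ((2 * (m : ℝ) + 1) * (Real.pi * x) - (2 * ((m + 1 : ℕ) : ℝ) + 1) * (Real.pi * x)) / 2 =
      -(Real.pi * x) := by push_cast; ring
  rw [h1, h2, Real.sin_neg]
  ring

theorem HZO_sum (x : ℝ) (a : ℕ → ℝ) (ha : Summable a) (k : ℕ) :
    Summable fun m => HZO_c x (m + k) * a m := by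
  refine Summable.of_norm_bounded (g := fun m => |a m|) ha.abs fun m => ?_
  rw [Real.norm_eq_abs, abs_mul]
  calc |HZO_c x (m + k)| * |a m| ≤ 1 * |a m| := by
        gcongr
        exact HZO_c_abs _ _
    _ = |a m| := one_mul _

/-- summation by parts -/
theorem HZO_parts (x : ℝ) (a : ℕ → ℝ) (ha : Summable a) :
    2 * Real.sin (Real.pi * x) * ∑' m : ℕ, Real.sin (2 * Real.pi * x * (m + 1)) * a m =
      HZO_c x 0 * a 0 + ∑' m : ℕ, HZO_c x (m + 1) * (a (m + 1) - a m) := by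
  have s0 : Summable fun m => HZO_c x m * a m := by simpa using HZO_sum x a ha 0
  have s1 := HZO_sum x a ha 1
  have s2 : Summable fun m => HZO_c x (m + 1) * a (m + 1) :=
    (summable_nat_add_iff (f := fun m => HZO_c x m * a m) 1).2 s0
  have e1 : 2 * Real.sin (Real.pi * x) * ∑' m : ℕ, Real.sin (2 * Real.pi * x * (m + 1)) * a m =
      ∑' m : ℕ, (HZO_c x m * a m - HZO_c x (m + 1) * a m) := by
    rw [← tsum_mul_left]
    refine tsum_congr fun m => ?_
    rw [← sub_mul, ← HZO_bc]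
    ring
  rw [e1, s0.tsum_sub s1, s0.tsum_eq_zero_add]
  have e2 : ∑' m : ℕ, HZO_c x (m + 1) * (a (m + 1) - a m) =
      ∑' m : ℕ, (HZO_c x (m + 1) * a (m + 1) - HZO_c x (m + 1) * a m) :=
    tsum_congr fun m => by ring
  rw [e2, s2.tsum_sub s1]
  ring

theorem HZO_bound_summable : Summable fun m : ℕ => 2 / ((m : ℝ) + 1) ^ 2 := by
  have h : Summable fun m : ℕ => 1 / ((m + 1 : ℕ) : ℝ) ^ 2 :=
    (summable_nat_add_iff (f := fun m : ℕ => 1 / (m : ℝ) ^ 2) 1).2
      (Real.summable_one_div_nat_pow.2 (by norm_num))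
  have h2 := h.mul_left 2
  refine h2.congr fun m => ?_
  push_cast
  ring

/-- the common limit -/
noncomputable def HZO_G (x : ℝ) : ℝ :=
  HZO_c x 0 * 1 + ∑' m : ℕ, HZO_c x (m + 1) * (1 / ((m : ℝ) + 2) - 1 / ((m : ℝ) + 1))

theorem HZO_lim {ι : Type} (l : Filter ι) (x : ℝ) (a : ι → ℕ → ℝ)
    (hs : ∀ᶠ i in l, Summable (a i))
    (h0 : ∀ m : ℕ, Tendsto (fun i => a i m) l (𝓝 (1 / ((m : ℝ) + 1))))
    (hb : ∀ᶠ i in l, ∀ m : ℕ, |a i (m + 1) - a i m| ≤ 2 / ((m : ℝ) + 1) ^ 2) :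
    Tendsto (fun i => 2 * Real.sin (Real.pi * x) *
      ∑' m : ℕ, Real.sin (2 * Real.pi * x * (m + 1)) * a i m) l (𝓝 (HZO_G x)) := by
  have h1 : Tendsto (fun i => HZO_c x 0 * a i 0 +
      ∑' m : ℕ, HZO_c x (m + 1) * (a i (m + 1) - a i m)) l (𝓝 (HZO_G x)) := by
    refine Tendsto.add ?_ ?_
    · have := h0 0
      simp only [Nat.cast_zero, zero_add, div_one] at this
      exact this.const_mul _
    · refine tendsto_tsum_of_dominated_convergence HZO_bound_summable ?_ ?_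
      · intro m
        refine Tendsto.const_mul _ (Tendsto.sub ?_ (h0 m))
        have := h0 (m + 1)
        have e : ((m + 1 : ℕ) : ℝ) + 1 = (m : ℝ) + 2 := by push_cast; ring
        rwa [e] at this
      · filter_upwards [hb] with i hi
        intro m
        rw [Real.norm_eq_abs, abs_mul]
        calc |HZO_c x (m + 1)| * |a i (m + 1) - a i m| ≤ 1 * (2 / ((m : ℝ) + 1) ^ 2) := by
              gcongr
              · exact HZO_c_abs _ _
              · exact hi m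
          _ = _ := one_mul _
  refine h1.congr' ?_
  filter_upwards [hs] with i hi
  exact (HZO_parts x (a i) hi).symm

/-! ### The powers -/

theorem HZO_rpow (s : ℝ) (h1 : 1 < s) (h2 : s < 2) (m : ℕ) :
    |((m : ℝ) + 1 + 1) ^ (-s) - ((m : ℝ) + 1) ^ (-s)| ≤ 2 / ((m : ℝ) + 1) ^ 2 := by
  have hm : (0 : ℝ) < (m : ℝ) + 1 := by positivity
  have hm1 : (1 : ℝ) ≤ (m : ℝ) + 1 := by linarith [Nat.cast_nonneg (α := ℝ) m]
  set y : ℝ := (m : ℝ) + 1 with hy
  have e1 : (y + 1) ^ (-s) ≤ y ^ (-s) :=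
    Real.rpow_le_rpow_of_nonpos hm (by linarith) (by linarith)
  have e2 : (y + 1) ^ (-s) = y ^ (-s) * (y / (y + 1)) ^ s := by
    rw [Real.div_rpow hm.le (by positivity), Real.rpow_neg hm.le, Real.rpow_neg (by positivity)]
    have : y ^ s ≠ 0 := (Real.rpow_pos_of_pos hm s).ne'
    field_simp
  have e3 : (y / (y + 1)) ^ (2 : ℝ) ≤ (y / (y + 1)) ^ s :=
    Real.rpow_le_rpow_of_exponent_ge (by positivity) (by
      rw [div_le_one (by positivity)]; linarith) h2.le
  have e4 : y ^ (-s) ≤ y ^ (-1 : ℝ) := Real.rpow_le_rpow_of_exponent_le hm1 (by linarith)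
  rw [Real.rpow_neg_one] at e4
  rw [Real.rpow_two] at e3
  rw [abs_sub_comm, abs_of_nonneg (by linarith)]
  have e5 : 0 ≤ y ^ (-s) := (Real.rpow_pos_of_pos hm _).le
  have e6 : 1 - (y / (y + 1)) ^ s ≤ 2 / y := by
    have e7 : 1 - (y / (y + 1)) ^ 2 ≤ 2 / y := by
      have : (1 - (y / (y + 1)) ^ 2) = (2 * y + 1) / (y + 1) ^ 2 := by
        field_simp
        ring
      rw [this, div_le_div_iff₀ (by positivity) hm]
      nlinarith
    linarith
  have e8 : 0 ≤ 2 / y := by positivity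
  calc y ^ (-s) - (y + 1) ^ (-s) = y ^ (-s) * (1 - (y / (y + 1)) ^ s) := by rw [e2]; ring
    _ ≤ y ^ (-s) * (2 / y) := by gcongr
    _ ≤ y⁻¹ * (2 / y) := by gcongr
    _ = 2 / y ^ 2 := by field_simp

theorem HZO_lim1 (x : ℝ) : Tendsto (fun s : ℝ => 2 * Real.sin (Real.pi * x) *
      ∑' m : ℕ, Real.sin (2 * Real.pi * x * (m + 1)) * ((m : ℝ) + 1) ^ (-s)) (𝓝[>] 1)
      (𝓝 (HZO_G x)) := by
  refine HZO_lim (𝓝[>] (1 : ℝ)) x (fun s m => ((m : ℝ) + 1) ^ (-s)) ?_ ?_ ?_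
  · filter_upwards [self_mem_nhdsWithin] with s hs
    have h := (summable_nat_add_iff (f := fun m : ℕ => (m : ℝ) ^ (-s)) 1).2
      (Real.summable_nat_rpow.2 (by simp only [Set.mem_Ioi] at hs; linarith))
    refine h.congr fun m => ?_
    push_cast
    rfl
  · intro m
    have h1 : Tendsto (fun s : ℝ => ((m : ℝ) + 1) ^ (-s)) (𝓝 1) (𝓝 (((m : ℝ) + 1) ^ (-(1 : ℝ)))) := by
      have : Continuous fun s : ℝ => ((m : ℝ) + 1) ^ (-s) :=
        (Real.continuous_const_rpow (by positivity)).comp continuous_neg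
      exact this.tendsto 1
    rw [Real.rpow_neg_one, ← one_div] at h1
    exact h1.mono_left nhdsWithin_le_nhds
  · have h1 : ∀ᶠ s : ℝ in 𝓝[>] 1, s < 2 :=
      (eventually_lt_nhds (by norm_num : (1 : ℝ) < 2)).filter_mono nhdsWithin_le_nhds
    filter_upwards [self_mem_nhdsWithin, h1] with s hs hs2
    intro m
    have := HZO_rpow s hs hs2 m
    push_cast
    exact this

/-! ### The geometric weights -/

theorem HZO_geo (r : ℝ) (h0 : 0 ≤ r) (h1 : r < 1) (n : ℕ) : r ^ n * (1 - r) ≤ 1 / ((n : ℝ) + 1) := by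
  rw [le_div_iff₀ (by positivity)]
  have e1 : (∑ j ∈ Finset.range (n + 1), r ^ j) * (1 - r) = 1 - r ^ (n + 1) := by
    have := geom_sum_mul_neg r (n + 1)
    exact this
  have e2 : ((n : ℝ) + 1) * r ^ n ≤ ∑ j ∈ Finset.range (n + 1), r ^ j := by
    calc ((n : ℝ) + 1) * r ^ n = ∑ _j ∈ Finset.range (n + 1), r ^ n := by
          rw [Finset.sum_const, Finset.card_range, nsmul_eq_mul]
          push_cast
          ring
      _ ≤ ∑ j ∈ Finset.range (n + 1), r ^ j := by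
          refine Finset.sum_le_sum fun j hj => ?_
          exact pow_le_pow_of_le_one h0 h1.le (by
            have := Finset.mem_range.1 hj
            omega)
  have e3 : 0 ≤ r ^ (n + 1) := pow_nonneg h0 _
  have e4 : ((n : ℝ) + 1) * r ^ n * (1 - r) ≤ (∑ j ∈ Finset.range (n + 1), r ^ j) * (1 - r) := by
    gcongr
  nlinarith

theorem HZO_rb (r : ℝ) (h0 : 0 ≤ r) (h1 : r < 1) (m : ℕ) :
    |r ^ (m + 1 + 1) / ((m : ℝ) + 1 + 1) - r ^ (m + 1) / ((m : ℝ) + 1)| ≤ 2 / ((m : ℝ) + 1) ^ 2 := by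
  have hm : (0 : ℝ) < (m : ℝ) + 1 := by positivity
  set y : ℝ := (m : ℝ) + 1 with hy
  have e1 : r ^ (m + 1 + 1) / (y + 1) - r ^ (m + 1) / y =
      -(r ^ (m + 1) * (1 / (y * (y + 1))) + r ^ (m + 1) * (1 - r) * (1 / (y + 1))) := by
    rw [pow_succ r (m + 1)]
    field_simp
    ring
  have p0 : 0 ≤ r ^ (m + 1) := pow_nonneg h0 _
  have p1 : r ^ (m + 1) ≤ 1 := pow_le_one₀ h0 h1.le
  have p2 : r ^ (m + 1) * (1 - r) ≤ 1 / (y + 1) := by
    have := HZO_geo r h0 h1 (m + 1)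
    push_cast at this
    exact this
  have p3 : 0 ≤ r ^ (m + 1) * (1 - r) := mul_nonneg p0 (by linarith)
  rw [e1, abs_neg, abs_of_nonneg (by positivity)]
  calc r ^ (m + 1) * (1 / (y * (y + 1))) + r ^ (m + 1) * (1 - r) * (1 / (y + 1))
      ≤ 1 * (1 / (y * (y + 1))) + 1 / (y + 1) * (1 / (y + 1)) := by gcongr
    _ ≤ 1 / (y * y) + 1 / y * (1 / y) := by
        have : y ≤ y + 1 := by linarith
        rw [one_mul]
        gcongr
    _ = 2 / y ^ 2 := by field_simp; ring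

theorem HZO_lim2 (x : ℝ) : Tendsto (fun r : ℝ => 2 * Real.sin (Real.pi * x) *
      ∑' m : ℕ, Real.sin (2 * Real.pi * x * (m + 1)) * (r ^ (m + 1) / ((m : ℝ) + 1))) (𝓝[<] 1)
      (𝓝 (HZO_G x)) := by
  have hr : ∀ᶠ r : ℝ in 𝓝[<] 1, 0 < r :=
    (eventually_gt_nhds (by norm_num : (0 : ℝ) < 1)).filter_mono nhdsWithin_le_nhds
  refine HZO_lim (𝓝[<] (1 : ℝ)) x (fun r m => r ^ (m + 1) / ((m : ℝ) + 1)) ?_ ?_ ?_
  · filter_upwards [self_mem_nhdsWithin, hr] with r h1 h0
    refine Summable.of_nonneg_of_le (f := fun m : ℕ => r ^ m) (fun m => by positivity) (fun m => ?_)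
      (summable_geometric_of_lt_one h0.le h1)
    rw [div_le_iff₀ (by positivity), pow_succ]
    have e1 : r ^ m * r ≤ r ^ m * 1 := by
      gcongr
      exact le_of_lt h1
    have e2 : r ^ m * 1 ≤ r ^ m * ((m : ℝ) + 1) := by
      gcongr
      linarith [Nat.cast_nonneg (α := ℝ) m]
    linarith
  · intro m
    have h1 : Tendsto (fun r : ℝ => r ^ (m + 1) / ((m : ℝ) + 1)) (𝓝 1)
        (𝓝 (1 ^ (m + 1) / ((m : ℝ) + 1))) := by
      have : Continuous fun r : ℝ => r ^ (m + 1) / ((m : ℝ) + 1) := by fun_prop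
      exact this.tendsto 1
    rw [one_pow] at h1
    exact h1.mono_left nhdsWithin_le_nhds
  · filter_upwards [self_mem_nhdsWithin, hr] with r h1 h0
    intro m
    have := HZO_rb r h0.le h1 m
    push_cast
    exact this

/-! ### The logarithm -/

theorem HZO_log (x r : ℝ) (h0 : 0 ≤ r) (h1 : r < 1) :
    ∑' m : ℕ, Real.sin (2 * Real.pi * x * (m + 1)) * (r ^ (m + 1) / ((m : ℝ) + 1)) =
      -(Complex.log (1 - (r : ℂ) * Complex.exp ((2 * Real.pi * x : ℝ) * Complex.I))).im := by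
  set z : ℂ := (r : ℂ) * Complex.exp ((2 * Real.pi * x : ℝ) * Complex.I) with hz
  have hzn : ‖z‖ < 1 := by
    rw [hz, norm_mul, Complex.norm_exp_ofReal_mul_I, mul_one, Complex.norm_real, Real.norm_eq_abs,
      abs_of_nonneg h0]
    exact h1
  have h2 := Complex.hasSum_taylorSeries_neg_log hzn
  have h3 := Complex.hasSum_im h2
  have h4 : ∀ n : ℕ, (z ^ n / (n : ℂ)).im = Real.sin (2 * Real.pi * x * n) * (r ^ n / (n : ℝ)) := by
    intro n
    have e1 : z ^ n / (n : ℂ) = ((r ^ n / (n : ℝ) : ℝ) : ℂ) *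
        Complex.exp ((2 * Real.pi * x * n : ℝ) * Complex.I) := by
      rw [hz, mul_pow, ← Complex.exp_nat_mul]
      push_cast
      rw [div_eq_mul_inv, div_eq_mul_inv]
      have : (n : ℂ) * (2 * (Real.pi : ℂ) * (x : ℂ) * Complex.I) =
        2 * (Real.pi : ℂ) * (x : ℂ) * (n : ℂ) * Complex.I := by ring
      rw [this]
      ring
    rw [e1, Complex.im_ofReal_mul, Complex.exp_ofReal_mul_I_im, mul_comm]
  have h5 : HasSum (fun n : ℕ => Real.sin (2 * Real.pi * x * n) * (r ^ n / (n : ℝ)))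
      (-Complex.log (1 - z)).im := by
    refine h3.congr_fun ?_
    intro n
    exact (h4 n).symm
  have h6 := (hasSum_nat_add_iff' 1).2 h5
  rw [Finset.sum_range_one] at h6
  simp only [Nat.cast_zero, mul_zero, Real.sin_zero, zero_mul, sub_zero] at h6
  rw [Complex.neg_im] at h6
  rw [← h6.tsum_eq]
  refine tsum_congr fun m => ?_
  push_cast
  rfl

theorem HZO_one_sub (x : ℝ) : (1 : ℂ) - Complex.exp ((2 * Real.pi * x : ℝ) * Complex.I) =
    ((2 * Real.sin (Real.pi * x) : ℝ) : ℂ) * (Complex.cos ((Real.pi * x - Real.pi / 2 : ℝ) : ℂ) +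
      Complex.sin ((Real.pi * x - Real.pi / 2 : ℝ) : ℂ) * Complex.I) := by
  rw [Complex.exp_mul_I, ← Complex.ofReal_cos, ← Complex.ofReal_sin, ← Complex.ofReal_cos,
    ← Complex.ofReal_sin, Real.cos_sub_pi_div_two, Real.sin_sub_pi_div_two]
  have h0 : 2 * Real.pi * x = 2 * (Real.pi * x) := by ring
  have h1 : Real.cos (2 * Real.pi * x) = 1 - 2 * Real.sin (Real.pi * x) ^ 2 := by
    rw [h0, Real.cos_two_mul, Real.cos_sq']
    ring
  have h2 : Real.sin (2 * Real.pi * x) = 2 * Real.sin (Real.pi * x) * Real.cos (Real.pi * x) := by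
    rw [h0, Real.sin_two_mul]
  rw [h1, h2]
  push_cast
  ring

theorem HZO_sin_pos (x : ℝ) (h0 : 0 < x) (h1 : x < 1) : 0 < Real.sin (Real.pi * x) := by
  refine Real.sin_pos_of_pos_of_lt_pi (mul_pos Real.pi_pos h0) ?_
  have := Real.pi_pos
  nlinarith

theorem HZO_arg (x : ℝ) (h0 : 0 < x) (h1 : x < 1) :
    Complex.arg ((1 : ℂ) - Complex.exp ((2 * Real.pi * x : ℝ) * Complex.I)) =
      Real.pi * x - Real.pi / 2 := by
  rw [HZO_one_sub]
  have hp := Real.pi_pos
  refine Complex.arg_mul_cos_add_sin_mul_I (by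
    have := HZO_sin_pos x h0 h1
    linarith) ?_
  constructor <;> nlinarith

theorem HZO_slit (x : ℝ) (h0 : 0 < x) (h1 : x < 1) :
    (1 : ℂ) - Complex.exp ((2 * Real.pi * x : ℝ) * Complex.I) ∈ Complex.slitPlane := by
  rw [Complex.mem_slitPlane_iff_arg]
  constructor
  · rw [HZO_arg x h0 h1]
    have hp := Real.pi_pos
    intro h
    nlinarith
  · intro h
    have h2 := congrArg Complex.re h
    rw [Complex.sub_re, Complex.one_re, Complex.exp_ofReal_mul_I_re, Complex.zero_re] at h2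
    have h3 : Real.cos (2 * Real.pi * x) = 1 - 2 * Real.sin (Real.pi * x) ^ 2 := by
      have h0 : 2 * Real.pi * x = 2 * (Real.pi * x) := by ring
      rw [h0, Real.cos_two_mul, Real.cos_sq']
      ring
    rw [h3] at h2
    have h4 := HZO_sin_pos x h0 h1
    nlinarith

theorem HZO_lim3 (x : ℝ) (h0 : 0 < x) (h1 : x < 1) :
    Tendsto (fun r : ℝ => -(Complex.log (1 - (r : ℂ) *
      Complex.exp ((2 * Real.pi * x : ℝ) * Complex.I))).im) (𝓝[<] 1)
      (𝓝 (Real.pi * (1 / 2 - x))) := by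
  have hc : ContinuousAt (fun r : ℝ => -(Complex.log (1 - (r : ℂ) *
      Complex.exp ((2 * Real.pi * x : ℝ) * Complex.I))).im) 1 := by
    have h2 : ContinuousAt (fun r : ℝ => 1 - (r : ℂ) *
      Complex.exp ((2 * Real.pi * x : ℝ) * Complex.I)) 1 := by
      have : Continuous (fun r : ℝ => 1 - (r : ℂ) *
        Complex.exp ((2 * Real.pi * x : ℝ) * Complex.I)) := by
        fun_prop
      exact this.continuousAt
    have h3 : (1 - ((1 : ℝ) : ℂ) * Complex.exp ((2 * Real.pi * x : ℝ) * Complex.I)) ∈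
        Complex.slitPlane := by
      rw [Complex.ofReal_one, one_mul]
      exact HZO_slit x h0 h1
    have h4 := h2.clog h3
    exact (Complex.continuous_im.continuousAt.comp h4).neg
  have h5 : -(Complex.log (1 - ((1 : ℝ) : ℂ) *
      Complex.exp ((2 * Real.pi * x : ℝ) * Complex.I))).im = Real.pi * (1 / 2 - x) := by
    rw [Complex.ofReal_one, one_mul, Complex.log_im, HZO_arg x h0 h1]
    ring
  have h6 := hc.tendsto
  rw [h5] at h6
  exact h6.mono_left nhdsWithin_le_nhds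

theorem HZO_G_eq (x : ℝ) (h0 : 0 < x) (h1 : x < 1) :
    HZO_G x = 2 * Real.sin (Real.pi * x) * (Real.pi * (1 / 2 - x)) := by
  refine tendsto_nhds_unique (HZO_lim2 x) ?_
  refine ((HZO_lim3 x h0 h1).const_mul (2 * Real.sin (Real.pi * x))).congr' ?_
  have hr : ∀ᶠ r : ℝ in 𝓝[<] 1, 0 < r :=
    (eventually_gt_nhds (by norm_num : (0 : ℝ) < 1)).filter_mono nhdsWithin_le_nhds
  filter_upwards [self_mem_nhdsWithin, hr] with r h2 h3
  rw [HZO_log x r h3.le h2]

theorem HZO_zeta (x s : ℝ) (hs : 1 < s) :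
    HurwitzZeta.sinZeta (x : UnitAddCircle) (s : ℂ) =
      ((∑' m : ℕ, Real.sin (2 * Real.pi * x * (m + 1)) * ((m : ℝ) + 1) ^ (-s) : ℝ) : ℂ) := by
  have h := HurwitzZeta.hasSum_nat_sinZeta x (s := (s : ℂ)) (by simpa using hs)
  have h2 := (hasSum_nat_add_iff' 1).2 h
  rw [Finset.sum_range_one] at h2
  simp only [Nat.cast_zero, mul_zero, Real.sin_zero, Complex.ofReal_zero, zero_div, sub_zero] at h2
  rw [← h2.tsum_eq, Complex.ofReal_tsum]
  refine tsum_congr fun m => ?_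
  have hm : (0 : ℝ) ≤ (m : ℝ) + 1 := by positivity
  rw [Complex.ofReal_mul, Complex.ofReal_cpow hm, Complex.ofReal_neg, Complex.cpow_neg]
  push_cast
  rw [div_eq_mul_inv]

theorem p_HZO : Stmt_HZO := by
  intro x h0 h1
  have hs := HZO_sin_pos x h0 h1
  have l1 : Tendsto (fun s : ℝ => ((2 * Real.sin (Real.pi * x) : ℝ) : ℂ) *
      HurwitzZeta.sinZeta (x : UnitAddCircle) (s : ℂ)) (𝓝[>] 1)
      (𝓝 (((2 * Real.sin (Real.pi * x) : ℝ) : ℂ) * HurwitzZeta.sinZeta (x : UnitAddCircle) 1)) := by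
    have hc : Continuous fun s : ℝ => ((2 * Real.sin (Real.pi * x) : ℝ) : ℂ) *
        HurwitzZeta.sinZeta (x : UnitAddCircle) (s : ℂ) :=
      continuous_const.mul
        ((HurwitzZeta.differentiableAt_sinZeta (x : UnitAddCircle)).continuous.comp
          Complex.continuous_ofReal)
    have := hc.tendsto 1
    rw [Complex.ofReal_one] at this
    exact this.mono_left nhdsWithin_le_nhds
  have l2 : Tendsto (fun s : ℝ => ((2 * Real.sin (Real.pi * x) : ℝ) : ℂ) *
      HurwitzZeta.sinZeta (x : UnitAddCircle) (s : ℂ)) (𝓝[>] 1) (𝓝 ((HZO_G x : ℝ) : ℂ)) := by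
    have l3 := (Complex.continuous_ofReal.tendsto (HZO_G x)).comp (HZO_lim1 x)
    refine l3.congr' ?_
    filter_upwards [self_mem_nhdsWithin] with s hs1
    rw [HZO_zeta x s hs1, Function.comp_apply, Complex.ofReal_mul]
  have h2 := tendsto_nhds_unique l1 l2
  rw [HZO_G_eq x h0 h1, Complex.ofReal_mul (2 * Real.sin (Real.pi * x))] at h2
  have h3 : ((2 * Real.sin (Real.pi * x) : ℝ) : ℂ) ≠ 0 := by
    rw [Complex.ofReal_ne_zero]
    positivity
  have h4 := mul_left_cancel₀ h3 h2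
  rw [h4]
  push_cast
  ring

end Pool.FT
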