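import Pool.Agent.Work.MP_223b32_ft.Interface4

/-! # Block LEV (helper71) -/

namespace Pool.FT

open Finset

theorem p_LEV (hEMB : Stmt_EMB) : Stmt_LEV := by
  intro m M n _ _ hmM b
  obtain ⟨hval, hadd, _, hzero, _, _, _⟩ := hEMB m M hmM
  have h0 : emb m M 0 = 0 := (hzero 0).2 rfl
  let E : ZMod m →+ ZMod M := ⟨⟨emb m M, h0⟩, hadd⟩
  have hE : ∀ x, E x = emb m M x := fun _ => rfl
  cases b with
  | inl r =>
    refine ⟨Sum.inl r, rfl, ?_, fun F _ _ χ c => rfl⟩
    show (0 : Multiset (ZMod M)) = Multiset.map (emb m M) 0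
    rw [Multiset.map_zero]
  | inr a =>
    refine ⟨Sum.inr ⟨fun k => emb m M (a.1 k), fun k h1 => a.2.1 k ((hzero _).1 h1), ?_⟩, rfl,
      ?_, ?_⟩
    · have h1 : ∑ k, E (a.1 k) = E (∑ k, a.1 k) := (map_sum E _ _).symm
      rw [a.2.2, map_zero] at h1
      exact h1
    · show (univ : Finset (Fin (n + 2))).val.map (fun k => emb m M (a.1 k)) =
        ((univ : Finset (Fin (n + 2))).val.map a.1).map (emb m M)
      rw [Multiset.map_map]
      rfl
    · intro F _ _ χ c
      have hpow : ∀ k, χ ^ (emb m M (a.1 k)).val = (χ ^ (M / m)) ^ (a.1 k).val := by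
        intro k
        rw [hval, pow_mul]
      simp only [lam, Jac, hpow]

end Pool.FT
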