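import Pool.Agent.Work.MP_223b32_ft.Interface

/-!
# Block LMH: `lam` and `Jac` commute with embeddings
-/

namespace Pool.FT

open Finset

theorem LMH_Jac {F K E : Type} [Field F] [Fintype F] [Field K] [Field E] (σ : K →+* E)
    (χ : MulChar F K) {m n : ℕ} (a : Fin n → ZMod m) :
    Jac (χ.ringHomComp σ) a = σ (Jac χ a) := by
  classical
  unfold Jac
  rw [map_sum]
  refine Finset.sum_congr rfl fun v _ => ?_
  rw [map_prod]
  refine Finset.prod_congr rfl fun k _ => ?_
  rw [MulChar.ringHomComp_pow, MulChar.ringHomComp_apply]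

theorem p_LMH : Stmt_LMH := by
  intro F K E _ _ _ _ σ χ m n c b
  classical
  rcases b with r | a
  · simp [lam]
  · have h1 : ∀ k, ((χ.ringHomComp σ) ^ (a.1 k).val)⁻¹ (c k : F) =
        σ ((χ ^ (a.1 k).val)⁻¹ (c k : F)) := by
      intro k
      rw [MulChar.ringHomComp_pow, MulChar.ringHomComp_inv, MulChar.ringHomComp_apply]
    simp only [lam]
    rw [LMH_Jac, Finset.prod_congr rfl fun k _ => h1 k]
    simp

end Pool.FT
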