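import Pool.Agent.Work.MP_223b32_ft.Interface2
import Pool.Agent.Work.MP_223b32_ft.B_FTA

/-! Block MAIN of THEOREM FT: the assembly. -/

namespace Pool.FT

open Finset

theorem p_MAIN (hCOM : Stmt_COM) (hSTK : Stmt_STK) (hPTX : Stmt_PTX) (hENZ : Stmt_ENZ)
    (hDSC : Stmt_DSC) : Stmt_MAIN := by
  intro m p _ hp hm hpm F _ _ _ χ hχ
  refine ⟨fun n c E _ _ _ => ?_, ?_⟩
  · classical
    rw [Nat.card_eq_fintype_card]
    exact hPTX F E m n χ hχ c
  intro ι _ n c Alg hAlg j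
  obtain ⟨f, _, hf⟩ := FiniteField.card F p
  have hcop : p.Coprime m := (Nat.Prime.coprime_iff_not_dvd hp.out).2 hpm
  have hpf : (p : ZMod m) ^ (f : ℕ) = 1 := by
    have h1 : m ∣ Fintype.card F - 1 := by
      rw [← hχ]
      exact MulChar.orderOf_dvd_card_sub_one F χ
    rw [hf] at h1
    have h2 : ((p ^ (f : ℕ) - 1 : ℕ) : ZMod m) = 0 := (ZMod.natCast_eq_zero_iff _ _).2 h1
    rw [Nat.cast_sub (Nat.one_le_pow _ _ hp.out.pos), Nat.cast_pow, Nat.cast_one] at h2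
    exact sub_eq_zero.1 h2
  have key : ∀ (b : ∀ i, Cls m (n i)) (N : ℕ), 0 < N → degP b = 2 * j →
      (eigP χ c b) ^ N = (Fintype.card F : ℂ) ^ (j * N) → IsAlg Alg b := by
    intro b N hN hd he
    by_cases h0 : charsP b = 0
    · exact Or.inl h0
    · right
      exact hCOM m p f Alg hm hAlg hcop f.pos hpf _ (FTA_chr b j hd h0)
        (hSTK p f m F χ hm.1 hf hχ ι n c b j N hN hd he)
  refine ⟨key, ?_⟩
  intro q₀ s hs hq Φ hΦ
  refine hDSC F χ m ι n c j Alg ?_ ?_ q₀ s hs hq Φ hΦ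
  · intro b
    exact Finset.prod_ne_zero_iff.2 (fun i _ => hENZ F χ m hχ (n i) (c i) (b i))
  · intro b hb he
    exact key b 1 one_pos hb (by rw [pow_one, mul_one]; exact he)

end Pool.FT
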