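import Pool.Agent.Work.MP_223b32_ft.Interface4

/-!
Block MIX: mixed characters.
-/

namespace Pool.FT

open Finset

theorem MIX_emb (M : ℕ) [NeZero M] (x : ZMod M) : emb M M x = x := by
  unfold emb
  rw [Nat.div_self (Nat.pos_of_ne_zero (NeZero.ne M)), one_mul, ZMod.natCast_zmod_val]

theorem MIX_lev (M l k m : ℕ) (hM : M ≠ 0) (hl : l.Prime) (hm : m = l ^ k ∨ m = 2 * l ^ k)
    (hmM : m ∣ M) : m ∣ lev l M := by
  unfold lev
  rcases hm with h | h
  · have h1 : l ^ k ∣ l ^ M.factorization l := by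
      rw [h] at hmM
      exact pow_dvd_pow l ((hl.pow_dvd_iff_le_factorization hM).1 hmM)
    rw [h]
    exact h1.trans (dvd_mul_left _ _)
  · by_cases h2 : l = 2
    · rw [if_pos h2, one_mul, h]
      have h3 : 2 * l ^ k = l ^ (k + 1) := by rw [h2, pow_succ, mul_comm]
      rw [h3] at h ⊢
      rw [h] at hmM
      exact pow_dvd_pow l ((hl.pow_dvd_iff_le_factorization hM).1 hmM)
    · rw [if_neg h2, h]
      rw [h] at hmM
      have h3 : 2 ∣ M := (dvd_mul_right 2 _).trans hmM
      have h4 : l ^ k ∣ M := (dvd_mul_left _ 2).trans hmM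
      rw [Nat.gcd_eq_left h3]
      exact mul_dvd_mul_left 2 (pow_dvd_pow l ((hl.pow_dvd_iff_le_factorization hM).1 h4))

theorem MIX_map_sum {ι α Q : Type} [AddCommGroup Q] (s : Finset ι) (A : ι → Multiset α)
    (e : α → Q) : ((∑ i ∈ s, A i).map e).sum = ∑ i ∈ s, ((A i).map e).sum := by
  classical
  induction s using Finset.induction_on with
  | empty => simp
  | insert i s hi ih => rw [sum_insert hi, sum_insert hi, Multiset.map_add, Multiset.sum_add, ih]

theorem MIX_sum {Q : Type} [AddCommGroup Q] (S : Finset ℕ) (c : ℕ → ℕ) (E : ℕ → Q)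
    (h0 : ∀ l ∈ S, Even (c l) → E l = 0)
    (h1 : ∀ l ∈ S, ∀ l' ∈ S, ¬ Even (c l) → ¬ Even (c l') → E l + E l' = 0)
    (hc : Even (∑ l ∈ S, c l)) : ∑ l ∈ S, E l = 0 := by
  classical
  have h2 : ∑ l ∈ S, E l = ∑ l ∈ S.filter (fun l => Odd (c l)), E l := by
    symm
    refine sum_subset (filter_subset _ _) fun l hl hl' => ?_
    refine h0 l hl ?_
    rw [mem_filter, not_and] at hl'
    exact Nat.not_odd_iff_even.1 (hl' hl)
  rw [Finset.even_sum_iff_even_card_odd] at hc
  rw [h2]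
  rcases (S.filter (fun l => Odd (c l))).eq_empty_or_nonempty with h3 | ⟨l0, hl0⟩
  · rw [h3, sum_empty]
  · have hne : ∀ l, Odd (c l) → ¬ Even (c l) := fun l h => Nat.not_even_iff_odd.2 h
    have h4 : ∀ l ∈ S.filter (fun l => Odd (c l)), E l = E l0 := by
      intro l hl
      rw [mem_filter] at hl hl0
      have h5 := h1 l hl.1 l0 hl0.1 (hne l hl.2) (hne l0 hl0.2)
      have h6 := h1 l0 hl0.1 l0 hl0.1 (hne l0 hl0.2) (hne l0 hl0.2)
      exact add_right_cancel (h5.trans h6.symm)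
    rw [sum_congr rfl h4, sum_const]
    obtain ⟨n, hn⟩ := hc
    rw [hn, add_smul]
    rw [mem_filter] at hl0
    have h6 := h1 l0 hl0.1 l0 hl0.1 (hne l0 hl0.2) (hne l0 hl0.2)
    rw [← smul_add, h6, smul_zero]

theorem p_MIX (_hEMB : Stmt_EMB) (hFCL : Stmt_FCL) (hSAT : Stmt_SAT) (hSEP : Stmt_SEP)
    (hPRT : Stmt_PRT) : Stmt_MIX := by
  classical
  intro M p f _ Alg hF hcop hf hpf ι _ m a hgood hdvd hkill hsum heven hstick
  choose l k hl using hgood
  have hM : M ≠ 0 := NeZero.ne M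
  have hlev : ∀ i, ∀ x ∈ a i, x ≠ 0 ∧ (lev (l i) M : ZMod M) * x = 0 := by
    intro i x hx
    refine ⟨(hkill i x hx).1, ?_⟩
    obtain ⟨c, hc⟩ := MIX_lev M (l i) (k i) (m i) hM (hl i).1 (hl i).2.2 (hdvd i)
    rw [hc, Nat.cast_mul, mul_comm (m i : ZMod M), mul_assoc, (hkill i x hx).2, mul_zero]
  set S : Finset ℕ := univ.image l with hS
  set A : ℕ → Multiset (ZMod M) := fun q => ∑ i ∈ univ.filter (fun i => l i = q), a i with hA
  have hAS : ∑ q ∈ S, A q = ∑ i, a i :=
    Finset.sum_fiberwise_of_maps_to (fun i _ => mem_image_of_mem l (mem_univ i)) a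
  have hSprime : ∀ q ∈ S, q.Prime := by
    intro q hq
    rw [hS, mem_image] at hq
    obtain ⟨i, -, rfl⟩ := hq
    exact (hl i).1
  have hAmem : ∀ q ∈ S, ∀ x ∈ A q, x ≠ 0 ∧ (lev q M : ZMod M) * x = 0 := by
    intro q _ x hx
    rw [hA] at hx
    simp only [Multiset.mem_sum, mem_filter, mem_univ, true_and] at hx
    obtain ⟨i, hi, hx⟩ := hx
    rw [← hi]
    exact hlev i x hx
  have hAsum : ∀ q, (A q).sum = 0 := by
    intro q
    have h1 := MIX_map_sum (univ.filter (fun i => l i = q)) a (fun x => x)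
    rw [Multiset.map_id'] at h1
    rw [hA]
    refine h1.trans (sum_eq_zero fun i _ => ?_)
    rw [Multiset.map_id']
    exact hsum i
  rw [← hAS] at hstick
  have hsep := hSEP M p f S A hcop hSprime hAmem hstick
  by_cases h0 : ∑ i, a i = 0
  · exact Or.inl h0
  right
  have hchr : Chr M (∑ i, a i) := by
    refine ⟨h0, ?_, ?_, heven⟩
    · intro h1
      rw [Multiset.mem_sum] at h1
      obtain ⟨i, -, hi⟩ := h1
      exact (hkill i 0 hi).1 rfl
    · have h1 := MIX_map_sum (univ : Finset ι) a (fun x => x)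
      rw [Multiset.map_id'] at h1
      refine h1.trans (sum_eq_zero fun i _ => ?_)
      rw [Multiset.map_id']
      exact hsum i
  have hFC : FermatCycles M p Alg := by
    have h1 := hFCL M M p dvd_rfl hcop Alg hF
    have h2 : (fun b : Multiset (ZMod M) => Alg (b.map (emb M M))) = Alg := by
      funext b
      have h3 : b.map (emb M M) = b := by
        rw [Multiset.map_congr rfl (fun x _ => MIX_emb M x), Multiset.map_id']
      rw [h3]
    rw [h2] at h1
    exact h1
  refine hSAT M p Alg hFC _ hchr ?_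
  intro Q _ e he
  rw [← hAS, MIX_map_sum]
  refine MIX_sum S (fun q => Multiset.card (A q)) _ ?_ ?_ ?_
  · intro q hq hev
    exact (hPRT M p f q Alg hF hcop hf hpf (hSprime q hq) Q e he (A q) (hAmem q hq) (hAsum q)
      (hsep q hq)).1 hev
  · intro q hq q' hq' hod hod'
    obtain ⟨x, y, z, hx, hy, hz, hxyz, hs, hE⟩ := (hPRT M p f q Alg hF hcop hf hpf
      (hSprime q hq) Q e he (A q) (hAmem q hq) (hAsum q) (hsep q hq)).2 hod
    obtain ⟨x', y', z', hx', hy', hz', hxyz', hs', hE'⟩ := (hPRT M p f q' Alg hF hcop hf hpf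
      (hSprime q' hq') Q e he (A q') (hAmem q' hq') (hAsum q') (hsep q' hq')).2 hod'
    have h1 := he.kill _ (hF.super x y z x' y' z' hx hy hz hxyz hs hx' hy' hz' hxyz' hs')
    rw [hE, hE']
    rw [Multiset.map_add, Multiset.sum_add] at h1
    simp only [Multiset.insert_eq_cons, Multiset.map_cons, Multiset.map_singleton,
      Multiset.sum_cons, Multiset.sum_singleton] at h1
    rw [← h1]
    abel
  · have h1 : ∑ q ∈ S, Multiset.card (A q) = Multiset.card (∑ i, a i) := by
      rw [← hAS]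
      exact (map_sum (Multiset.cardHom : Multiset (ZMod M) →+ ℕ) A S).symm
    rw [h1]
    exact heven

end Pool.FT
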