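import Pool.Agent.Work.MP_223b32_ft.Interface3

/-! # Block MVA: the bound for a polynomial with a factor separable in the first variable -/

namespace Pool.FT

open Finset Polynomial

theorem MVA_norm_le {F : Type} [Field F] [Fintype F] (χ : MulChar F ℂ) (x : F) :
    ‖χ x‖ ≤ 1 := by
  by_cases h : IsUnit x
  · have h1 : χ x ^ (orderOf χ) = 1 := by
      rw [← χ.pow_apply' χ.orderOf_pos.ne', pow_orderOf_eq_one, MulChar.one_apply h]
    have h2 : ‖χ x‖ ^ (orderOf χ) = 1 := by rw [← norm_pow, h1, norm_one]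
    exact (pow_eq_one_iff_of_nonneg (norm_nonneg _) χ.orderOf_pos.ne').1 h2 |>.le
  · rw [χ.map_nonunit h, norm_zero]
    exact zero_le_one

theorem MVA_deriv {F : Type} [Field F] {r : ℕ} (D : MvPolynomial (Fin (r + 1)) F) :
    derivative (MvPolynomial.finSuccEquiv F r D) =
      MvPolynomial.finSuccEquiv F r (MvPolynomial.pderiv 0 D) := by
  induction D using MvPolynomial.induction_on with
  | C a =>
    rw [MvPolynomial.pderiv_C, map_zero]
    have h : MvPolynomial.finSuccEquiv F r (MvPolynomial.C a) =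
        Polynomial.C (MvPolynomial.C a) := by
      have h1 := MvPolynomial.finSuccEquiv_comp_C_eq_C (R := F) r
      have h2 := congrArg (fun g : F →+* _ => g a) h1
      exact ((MvPolynomial.finSuccEquiv F r).symm_apply_eq.1 h2).symm
    rw [h, derivative_C]
  | add p q hp hq => rw [map_add, map_add, hp, hq, map_add, map_add]
  | mul_X p i hp =>
    rw [map_mul, derivative_mul, hp, Derivation.leibniz, map_add, smul_eq_mul, smul_eq_mul,
      map_mul, map_mul]
    refine Fin.cases ?_ (fun j => ?_) i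
    · rw [MvPolynomial.finSuccEquiv_X_zero, derivative_X, MvPolynomial.pderiv_X_self, map_one]
      ring
    · rw [MvPolynomial.finSuccEquiv_X_succ, derivative_C,
        MvPolynomial.pderiv_X_of_ne (Fin.succ_ne_zero j), map_zero]
      ring

theorem MVA_eval {F E : Type} [Field F] [Field E] [Algebra F E] {r : ℕ} (y : E) (x' : Fin r → E)
    (D : MvPolynomial (Fin (r + 1)) F) :
    MvPolynomial.aeval (Fin.cons y x' : Fin (r + 1) → E) D =
      ((MvPolynomial.finSuccEquiv F r D).map
        ((MvPolynomial.aeval x' : MvPolynomial (Fin r) F →ₐ[F] E) :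
          MvPolynomial (Fin r) F →+* E)).eval y := by
  induction D using MvPolynomial.induction_on with
  | C a =>
    have h : MvPolynomial.finSuccEquiv F r (MvPolynomial.C a) =
        Polynomial.C (MvPolynomial.C a) := by
      have h1 := MvPolynomial.finSuccEquiv_comp_C_eq_C (R := F) r
      have h2 := congrArg (fun g : F →+* _ => g a) h1
      exact ((MvPolynomial.finSuccEquiv F r).symm_apply_eq.1 h2).symm
    rw [h]
    simp
  | add p q hp hq => simp only [map_add, hp, hq, Polynomial.map_add, eval_add]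
  | mul_X p i hp =>
    rw [map_mul, map_mul, Polynomial.map_mul, eval_mul, hp]
    congr 1
    refine Fin.cases ?_ (fun j => ?_) i
    · rw [MvPolynomial.finSuccEquiv_X_zero]
      simp
    · rw [MvPolynomial.finSuccEquiv_X_succ]
      simp

theorem p_MVA (hSPC : Stmt_SPC) (hSZC : Stmt_SZC) (hWBM : Stmt_WBM) : Stmt_MVA := by
  classical
  intro F _ _ χ r e P G hP hPG he hd
  set σ := MvPolynomial.finSuccEquiv F r with hσ
  have hP1 : Irreducible (σ P) := (MulEquiv.irreducible_iff σ.toMulEquiv).2 hP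
  have hPG1 : ¬ σ P ∣ σ G := by
    intro h
    exact hPG ((map_dvd_iff σ).1 h)
  have hder : derivative (σ P) ≠ 0 := by
    rw [hσ, MVA_deriv]
    intro h
    exact hd ((map_eq_zero_iff _ (MvPolynomial.finSuccEquiv F r).injective).1 h)
  obtain ⟨δ, hδ, hδ2⟩ := hSPC F r (orderOf χ) e (σ P) (σ G) hP1 hPG1 hder he
  obtain ⟨B₁, hB₁, hW⟩ := hWBM (orderOf χ) (σ P ^ e * σ G).natDegree χ.orderOf_pos
  obtain ⟨B₂, hB₂, hZ⟩ := hSZC F r δ hδ
  refine ⟨B₁ + B₂, ?_⟩
  intro E _ _ _
  set q : ℝ := (Fintype.card E : ℝ) with hq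
  have hq1 : 1 ≤ q := by
    rw [hq]
    exact_mod_cast Fintype.card_pos
  have hq0 : 0 < q := by linarith
  have hsq : 1 ≤ √q := by
    rw [Real.one_le_sqrt]
    exact hq1
  have hsq2 : √q * √q = q := Real.mul_self_sqrt hq0.le
  -- the sum over the pairs
  have hsum : ∑ x : Fin (r + 1) → E, χ (Algebra.norm F (MvPolynomial.aeval x (P ^ e * G))) =
      ∑ x' : Fin r → E, ∑ y : E, χ (Algebra.norm F
        (((σ P ^ e * σ G).map ((MvPolynomial.aeval x' : MvPolynomial (Fin r) F →ₐ[F] E) :
          MvPolynomial (Fin r) F →+* E)).eval y)) := by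
    rw [← Equiv.sum_comp (Fin.consEquiv (fun _ : Fin (r + 1) => E))
      (fun x : Fin (r + 1) → E => χ (Algebra.norm F (MvPolynomial.aeval x (P ^ e * G)))),
      Fintype.sum_prod_type, Finset.sum_comm]
    apply Finset.sum_congr rfl
    intro x' _
    apply Finset.sum_congr rfl
    intro y _
    have h := MVA_eval (F := F) y x' (P ^ e * G)
    have h2 : (Fin.consEquiv (fun _ : Fin (r + 1) => E)) (y, x') = (Fin.cons y x' : Fin (r + 1) → E) :=
      rfl
    rw [h2, h, map_mul (MvPolynomial.finSuccEquiv F r), map_pow (MvPolynomial.finSuccEquiv F r)]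
  have hinner : ∀ x' : Fin r → E, ‖∑ y : E, χ (Algebra.norm F
        (((σ P ^ e * σ G).map ((MvPolynomial.aeval x' : MvPolynomial (Fin r) F →ₐ[F] E) :
          MvPolynomial (Fin r) F →+* E)).eval y))‖ ≤
      (if MvPolynomial.aeval x' δ = 0 then q else 0) + B₁ * √q := by
    intro x'
    by_cases h0 : MvPolynomial.aeval x' δ = 0
    · rw [if_pos h0]
      have h1 : ‖∑ y : E, χ (Algebra.norm F
        (((σ P ^ e * σ G).map ((MvPolynomial.aeval x' : MvPolynomial (Fin r) F →ₐ[F] E) :
          MvPolynomial (Fin r) F →+* E)).eval y))‖ ≤ ∑ y : E, (1 : ℝ) :=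
        norm_sum_le_of_le _ (fun y _ => MVA_norm_le χ _)
      rw [Finset.sum_const, nsmul_eq_mul, mul_one, Finset.card_univ] at h1
      have h2 : 0 ≤ B₁ * √q := by positivity
      linarith
    · rw [if_neg h0, zero_add]
      have h1 := hW E (PTX_nc E χ) (PTX_order E χ) ((σ P ^ e * σ G).map
        ((MvPolynomial.aeval x' : MvPolynomial (Fin r) F →ₐ[F] E) :
          MvPolynomial (Fin r) F →+* E)) Polynomial.natDegree_map_le
        (hδ2 E _ h0)
      exact h1
  have hcount : ∑ x' : Fin r → E, (if MvPolynomial.aeval x' δ = 0 then q else 0) ≤ B₂ * q ^ r := by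
    have h1 := hZ E
    rw [← Finset.sum_filter, Finset.sum_const, nsmul_eq_mul]
    rw [Nat.card_eq_fintype_card, Fintype.card_subtype] at h1
    exact h1
  rw [hsum]
  calc ‖∑ x' : Fin r → E, ∑ y : E, χ (Algebra.norm F
        (((σ P ^ e * σ G).map ((MvPolynomial.aeval x' : MvPolynomial (Fin r) F →ₐ[F] E) :
          MvPolynomial (Fin r) F →+* E)).eval y))‖
      ≤ ∑ x' : Fin r → E, ((if MvPolynomial.aeval x' δ = 0 then q else 0) + B₁ * √q) :=
        norm_sum_le_of_le _ (fun x' _ => hinner x')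
    _ = ∑ x' : Fin r → E, (if MvPolynomial.aeval x' δ = 0 then q else 0) + q ^ r * (B₁ * √q) := by
        rw [Finset.sum_add_distrib, Finset.sum_const, nsmul_eq_mul, Finset.card_univ,
          Fintype.card_fun, Fintype.card_fin]
        push_cast
        rfl
    _ ≤ B₂ * q ^ r + q ^ r * (B₁ * √q) := by linarith
    _ ≤ (B₁ + B₂) * (q ^ r * √q) := by
        have h1 : 0 ≤ B₂ * q ^ r := by positivity
        nlinarith [mul_le_mul_of_nonneg_left hsq h1]
    _ = (B₁ + B₂) * (q ^ (r + 1) / √q) := by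
        congr 1
        rw [eq_div_iff (by positivity), mul_assoc, hsq2, pow_succ]

end Pool.FT
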