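import Pool.Agent.Work.MP_223b32_ft.Interface3

/-!
# Block MVB: the bound in several variables
-/

namespace Pool.FT

open Finset Polynomial

theorem p_MVB (hFAC : Stmt_FAC) (hVAR : Stmt_VAR) (hMVA : Stmt_MVA) : Stmt_MVB := by
  intro F _ _ χ r D hD hpow
  obtain ⟨P, G, e, hP, hG, he, hDe⟩ := hFAC F r (orderOf χ) D hD hpow
  obtain ⟨i, hi⟩ := hVAR F r P hP
  obtain _ | r := r
  · exact i.elim0
  set σ : Fin (r + 1) ≃ Fin (r + 1) := Equiv.swap 0 i with hσ
  have hP' : Irreducible (MvPolynomial.rename σ P) := by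
    have h := (MulEquiv.irreducible_iff (MvPolynomial.renameEquiv F σ)).2 hP
    exact h
  have hG' : ¬ MvPolynomial.rename σ P ∣ MvPolynomial.rename σ G := by
    intro h
    apply hG
    have h2 := map_dvd (MvPolynomial.renameEquiv F σ.symm) h
    change (MvPolynomial.rename σ.symm) ((MvPolynomial.rename σ) P) ∣
      (MvPolynomial.rename σ.symm) ((MvPolynomial.rename σ) G) at h2
    rw [MvPolynomial.rename_rename, MvPolynomial.rename_rename] at h2
    have h3 : (σ.symm ∘ σ : Fin (r + 1) → Fin (r + 1)) = id := by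
      funext x
      simp
    rw [h3, MvPolynomial.rename_id_apply, MvPolynomial.rename_id_apply] at h2
    exact h2
  have hd : MvPolynomial.pderiv 0 (MvPolynomial.rename σ P) ≠ 0 := by
    have h1 : (0 : Fin (r + 1)) = σ i := by
      rw [hσ, Equiv.swap_apply_right]
    rw [h1, MvPolynomial.pderiv_rename σ.injective]
    intro h2
    apply hi
    exact (map_eq_zero_iff _ (MvPolynomial.rename_injective σ σ.injective)).1 h2
  obtain ⟨B, hB⟩ := hMVA F χ r e _ _ hP' hG' he hd
  refine ⟨B, fun E _ _ _ => ?_⟩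
  have h1 := hB E
  have h2 : ∑ x : Fin (r + 1) → E, χ (Algebra.norm F (MvPolynomial.aeval x
      ((MvPolynomial.rename σ P) ^ e * MvPolynomial.rename σ G))) =
      ∑ x : Fin (r + 1) → E, χ (Algebra.norm F (MvPolynomial.aeval x D)) := by
    have h3 : (MvPolynomial.rename σ P) ^ e * MvPolynomial.rename σ G =
        MvPolynomial.rename σ D := by
      rw [hDe, map_mul, map_pow]
    rw [h3]
    refine Fintype.sum_equiv (Equiv.arrowCongr σ.symm (Equiv.refl E)) _ _ (fun x => ?_)
    rw [MvPolynomial.aeval_rename]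
    rfl
  rw [h2] at h1
  exact h1

end Pool.FT
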