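import Pool.Agent.Work.MP_223b32_ft.Interface3

/-! # Block NRM: norms at points (helper38) -/

namespace Pool.FT

open Polynomial

theorem NRM_gen (F E K : Type) [Field F] [Field E] [Field K] [Algebra F K] [Algebra F E]
    [Finite E] [Module.Finite F K] (f : K →ₐ[F] E) (y : K) :
    Algebra.norm F (f y) = Algebra.norm F y ^ (Module.finrank F E / Module.finrank F K) := by
  letI : Algebra K E := f.toRingHom.toAlgebra
  haveI : IsScalarTower F K E := IsScalarTower.of_algebraMap_eq (fun x => (f.commutes x).symm)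
  have h1 : f y = algebraMap K E y := rfl
  have h2 : Module.finrank F K * Module.finrank K E = Module.finrank F E :=
    Module.finrank_mul_finrank F K E
  have h3 : 0 < Module.finrank F K := Module.finrank_pos
  rw [h1, ← Algebra.norm_norm (S := K), Algebra.norm_algebraMap, map_pow, ← h2,
    Nat.mul_div_cancel_left _ h3]

theorem p_NRM : Stmt_NRM := by
  intro F E _ _ _ _ _ χ r D x
  have hle : ∀ a ∈ (pt (F := F) x).asIdeal, (MvPolynomial.aeval x : MvPolynomial (Fin r) F →ₐ[F] E) a = 0 :=
    fun a ha => RingHom.mem_ker.1 ha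
  have h1 : (MvPolynomial.aeval x : MvPolynomial (Fin r) F →ₐ[F] E) D
      = (Ideal.Quotient.liftₐ (pt (F := F) x).asIdeal
        (MvPolynomial.aeval x : MvPolynomial (Fin r) F →ₐ[F] E) hle)
          (Ideal.Quotient.mk (pt (F := F) x).asIdeal D) := rfl
  have h2 := NRM_gen F E (kap (pt (F := F) x)) (Ideal.Quotient.liftₐ (pt (F := F) x).asIdeal
        (MvPolynomial.aeval x : MvPolynomial (Fin r) F →ₐ[F] E) hle)
          (Ideal.Quotient.mk (pt (F := F) x).asIdeal D)
  rw [h1, rho, ← map_pow]
  exact congrArg χ h2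

end Pool.FT
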