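import Pool.Agent.Work.MP_223b32_ft.Interface

/-!
# Block NVA: `L(0, χ) ≠ 0` for odd `χ` modulo a prime power
-/

namespace Pool.FT

open Finset DirichletCharacter

theorem NVA_completed_one {N : ℕ} [NeZero N] {χ : DirichletCharacter ℂ N} (hχ : χ ≠ 1) :
    completedLFunction χ 1 ≠ 0 := by
  intro h
  have h1 := LFunction_eq_completed_div_gammaFactor χ 1 (Or.inl one_ne_zero)
  rw [h, zero_div] at h1
  exact LFunction_apply_one_ne_zero hχ h1

theorem NVA_primitive {N : ℕ} [NeZero N] {χ : DirichletCharacter ℂ N} (hp : IsPrimitive χ)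
    (hN : N ≠ 1) (hχ : χ ≠ 1) (ho : χ.Odd) : LFunction χ 0 ≠ 0 := by
  rw [LFunction_eq_completed_div_gammaFactor χ 0 (Or.inr hN), ho.gammaFactor_def]
  have hroot : rootNumber χ ≠ 0 := by
    intro h
    have h1 := hp.completedLFunction_one_sub 0
    rw [h, mul_zero, zero_mul, sub_zero] at h1
    exact NVA_completed_one hχ h1
  have h2 := hp.completedLFunction_one_sub 1
  rw [sub_self] at h2
  refine div_ne_zero ?_ ?_
  · rw [h2]
    refine mul_ne_zero (mul_ne_zero ?_ hroot) (NVA_completed_one (inv_ne_one.2 hχ))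
    intro h
    rw [Complex.cpow_eq_zero_iff] at h
    exact NeZero.ne N (by exact_mod_cast h.1)
  · apply Complex.Gammaℝ_ne_zero_of_re_pos
    simp

theorem p_NVA : Stmt_NVA := by
  intro l k N _ hl hk hN χ hχ
  have : NeZero χ.conductor := ⟨χ.conductor_ne_zero⟩
  have hlev := χ.changeLevel_primitiveCharacter
  set χ₀ := χ.primitiveCharacter with hχ₀
  have hodd : χ₀ (-1) = -1 := by
    have h1 := changeLevel_eq_cast_of_dvd' χ₀ χ.conductor_dvd_level (a := -1)
      (isCoprime_one_left.neg_left)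
    rw [hlev] at h1
    push_cast at h1
    rw [← h1, hχ]
  have hne : χ₀ ≠ 1 := by
    intro h
    rw [h, MulChar.one_apply isUnit_one.neg] at hodd
    norm_num at hodd
  have hf : χ.conductor ≠ 1 := fun h => hne (level_one' _ h)
  rw [← hlev, LFunction_changeLevel χ.conductor_dvd_level χ₀ (Or.inl hne)]
  refine mul_ne_zero (NVA_primitive χ.primitiveCharacter_isPrimitive hf hne hodd) ?_
  have hdvd : l ∣ χ.conductor := by
    have h2 : χ.conductor ∣ l ^ k := hN ▸ χ.conductor_dvd_level
    obtain ⟨j, _, hj⟩ := (Nat.dvd_prime_pow hl).1 h2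
    rw [hj]
    refine dvd_pow_self l ?_
    rintro rfl
    exact hf (by rw [hj, pow_zero])
  have h3 : N.primeFactors = {l} := by
    rw [hN]
    exact Nat.primeFactors_prime_pow hk.ne' hl
  rw [h3, Finset.prod_singleton]
  have h4 : χ₀ (l : ZMod χ.conductor) = 0 := by
    apply MulChar.map_nonunit
    rw [ZMod.isUnit_iff_coprime]
    intro h
    have h5 := Nat.dvd_gcd dvd_rfl hdvd
    rw [Nat.Coprime.gcd_eq_one h] at h5
    exact hl.one_lt.ne' (Nat.dvd_one.1 h5)
  rw [h4, zero_mul, sub_zero]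
  exact one_ne_zero

end Pool.FT
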