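import Pool.Agent.Work.MP_223b32_ft.Interface3

/-!
# THEOREM FT, part 3: block ONE
-/

namespace Pool.FT

open Finset Polynomial

theorem ONE_rho_zero {F : Type} [Field F] [Fintype F] (χ : MulChar F ℂ) {r : ℕ}
    (D : MvPolynomial (Fin r) F) (v : MaximalSpectrum (MvPolynomial (Fin r) F))
    (h : D ∈ v.asIdeal) : rho χ D v = 0 := by
  unfold rho
  have h1 : Ideal.Quotient.mk v.asIdeal D = 0 := Ideal.Quotient.eq_zero_iff_mem.2 h
  haveI : Nontrivial (kap v) := Ideal.Quotient.nontrivial_iff.2 v.isMaximal.ne_top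
  have h2 : Algebra.norm F (Ideal.Quotient.mk v.asIdeal D) = 0 := by
    rw [h1]
    exact Algebra.norm_zero (R := F) (S := kap v)
  rw [h2]
  exact MulChar.map_zero χ

theorem ONE_norm_ne {F : Type} [Field F] [Fintype F] {r : ℕ}
    (D : MvPolynomial (Fin r) F) (v : MaximalSpectrum (MvPolynomial (Fin r) F))
    (h : D ∉ v.asIdeal) : Algebra.norm F (Ideal.Quotient.mk v.asIdeal D) ≠ 0 := by
  haveI : v.asIdeal.IsMaximal := v.isMaximal
  haveI : IsDomain (kap v) := Ideal.Quotient.isDomain v.asIdeal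
  have h1 : Ideal.Quotient.mk v.asIdeal D ≠ 0 := fun h2 => h (Ideal.Quotient.eq_zero_iff_mem.1 h2)
  exact (Algebra.norm_ne_zero_iff (R := F) (S := kap v)).2 h1

theorem ONE_rho_one {F : Type} [Field F] [Fintype F] {r : ℕ}
    (D : MvPolynomial (Fin r) F) (v : MaximalSpectrum (MvPolynomial (Fin r) F))
    (h : D ∉ v.asIdeal) : rho (1 : MulChar F ℂ) D v = 1 := by
  unfold rho
  exact MulChar.one_apply (isUnit_iff_ne_zero.2 (ONE_norm_ne D v h))

theorem ONE_char_le {F : Type} [Field F] [Fintype F] (χ : MulChar F ℂ) (x : F) : ‖χ x‖ ≤ 1 := by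
  by_cases hx : x = 0
  · rw [hx, MulChar.map_zero, norm_zero]
    exact zero_le_one
  · have hq : 0 < Fintype.card F - 1 := by
      have := Fintype.one_lt_card (α := F)
      omega
    have h1 : χ x ^ (Fintype.card F - 1) = 1 := by
      rw [← map_pow, FiniteField.pow_card_sub_one_eq_one x hx, map_one]
    exact (Complex.norm_eq_one_of_pow_eq_one h1 hq.ne').le

theorem ONE_rho_le {F : Type} [Field F] [Fintype F] (χ : MulChar F ℂ) {r : ℕ}
    (D : MvPolynomial (Fin r) F) (v : MaximalSpectrum (MvPolynomial (Fin r) F)) :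
    ‖rho χ D v‖ ≤ 1 := ONE_char_le χ _

theorem ONE_SV {V : Type} (deg : V → ℕ) (g h : V → ℂ) (z : ℂ)
    (hg : ∀ v, g v = z ^ deg v * h v) (n : ℕ) : SV deg g n = z ^ n * SV deg h n := by
  unfold SV
  rw [mul_sum]
  refine sum_congr rfl fun d hd => ?_
  have h1 : z ^ n * ((d : ℂ) * ∑ᶠ v : {v : V // deg v = d}, h v.1 ^ (n / d)) =
      (d : ℂ) * (z ^ n * ∑ᶠ v : {v : V // deg v = d}, h v.1 ^ (n / d)) := by ring
  rw [h1, ← smul_eq_mul (z ^ n), smul_finsum]
  congr 1
  refine finsum_congr fun v => ?_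
  rw [hg v.1, v.2, mul_pow, ← pow_mul, Nat.mul_div_cancel' (Nat.dvd_of_mem_divisors hd),
    smul_eq_mul]

/-- two numbers whose powers approach each other are equal -/
theorem ONE_eq (z w : ℂ) (hz : ‖z‖ = 1)
    (h : Filter.Tendsto (fun n : ℕ => z ^ n - w ^ n) Filter.atTop (nhds 0)) : z = w := by
  have h1 : Filter.Tendsto (fun n : ℕ => z ^ (n + 1) - w ^ (n + 1)) Filter.atTop (nhds 0) :=
    h.comp (Filter.tendsto_add_atTop_nat 1)
  have h2 : Filter.Tendsto (fun n : ℕ => z ^ n * (z - w)) Filter.atTop (nhds 0) := by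
    have h3 := h1.sub (h.const_mul w)
    rw [mul_zero, sub_zero] at h3
    refine h3.congr fun n => ?_
    ring
  have h3 := h2.norm
  rw [norm_zero] at h3
  have h4 : Filter.Tendsto (fun _ : ℕ => ‖z - w‖) Filter.atTop (nhds 0) := by
    refine h3.congr fun n => ?_
    rw [norm_mul, norm_pow, hz, one_pow, one_mul]
  have h5 := tendsto_nhds_unique h4 tendsto_const_nhds
  exact sub_eq_zero.1 (norm_eq_zero.1 h5.symm)

theorem ONE_cpow (q d : ℕ) (s : ℂ) : ((q ^ d : ℕ) : ℂ) ^ (-s) = ((q : ℂ) ^ (-s)) ^ d := by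
  rw [Nat.cast_pow, ← Complex.natCast_cpow_natCast_mul, Complex.cpow_nat_mul]

theorem ONE_pole (L L' : ℂ → ℂ) (h : ∀ s, L s = L' s) (s0 : ℝ) (n : ℕ)
    (hL : HasPoleOrder L s0 n) : HasPoleOrder L' s0 n := by
  have : L = L' := funext h
  rw [← this]
  exact hL

theorem p_ONE (hEIG : Stmt_EIG) (hABS : Stmt_ABS) (hCRD : Stmt_CRD) (hANA : Stmt_ANA)
    (hSRD : Stmt_SRD) (hPLD : Stmt_PLD) : Stmt_ONE := by
  intro F _ _ χ m _ hm r ι _ n c hc b j hj
  obtain ⟨D, hD0, hDv, heig⟩ := hEIG F χ m hm r ι n c hc b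
  have hl := hABS F χ m hm ι n (fun _ _ => (1 : Fˣ)) b j hj
  set l : ℂ := eigP χ (fun _ _ => (1 : Fˣ)) b with hldef
  obtain ⟨w, B, hw, -, hB⟩ := hSRD F χ r D hD0
  obtain ⟨w1, B1, -, hw1, hB1⟩ := hSRD F (1 : MulChar F ℂ) r D hD0
  have hw1' := hw1 rfl
  rw [hw1'] at hB1
  obtain ⟨hdeg, hcard⟩ := hPLD F r
  have hq2 : 2 ≤ Fintype.card F := Fintype.one_lt_card
  set q : ℕ := Fintype.card F with hqdef
  have hq0 : (q : ℂ) ≠ 0 := by
    have : q ≠ 0 := by omega
    exact_mod_cast this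
  have hqR : (0 : ℝ) < q := by
    have : 0 < q := by omega
    exact_mod_cast this
  obtain ⟨a1, a2, a3⟩ := hANA (MaximalSpectrum (MvPolynomial (Fin r) F)) pdeg q r j hq2 hdeg hcard
    (rho χ D) l w B (ONE_rho_le χ D) hl (hw.imp_right And.left) hB
  -- the factors
  have hfac : ∀ (s : ℂ) (v : GPlace c),
      (1 - eigAt χ v b * (Fintype.card (kap v.1) : ℂ) ^ (-s))⁻¹ =
        (1 - rho χ D v.1 * (l * (q : ℂ) ^ (-s)) ^ pdeg v.1)⁻¹ := by
    intro s v
    rw [heig v, hCRD F r v.1, ONE_cpow, mul_pow]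
    congr 1
    ring
  have hinj : Function.Injective (fun v : GPlace c => v.1) := fun v v' h => Subtype.ext h
  have hrange : ∀ v : MaximalSpectrum (MvPolynomial (Fin r) F),
      v ∉ Set.range (fun v : GPlace c => v.1) → rho χ D v = 0 := by
    intro v hv
    by_contra h0
    apply hv
    have h1 : D ∉ v.asIdeal := fun h => h0 (ONE_rho_zero χ D v h)
    exact ⟨⟨v, (hDv v).1 h1⟩, rfl⟩
  have hprod : ∀ s : ℂ, (∏' v : MaximalSpectrum (MvPolynomial (Fin r) F),
      (1 - rho χ D v * (l * (q : ℂ) ^ (-s)) ^ pdeg v)⁻¹) = ∏' v : GPlace c,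
          (1 - eigAt χ v b * (Fintype.card (kap v.1) : ℂ) ^ (-s))⁻¹ := by
    intro s
    rw [tprod_congr (hfac s)]
    symm
    refine Function.Injective.tprod_eq (g := fun v : GPlace c => v.1) hinj
      (f := fun v => (1 - rho χ D v * (l * (q : ℂ) ^ (-s)) ^ pdeg v)⁻¹) ?_
    intro v hv
    by_contra hcon
    apply hv
    show (1 - rho χ D v * (l * (q : ℂ) ^ (-s)) ^ pdeg v)⁻¹ = 1
    rw [hrange v hcon]
    simp
  -- the condition
  have hiff : (∀ v : GPlace c, eigAt χ v b = (Fintype.card (kap v.1) : ℂ) ^ j) ↔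
      w * l = (q : ℂ) ^ j := by
    constructor
    · intro hall
      have hl0 : l ≠ 0 := by
        intro h
        rw [h, norm_zero] at hl
        have : (0 : ℝ) < (q : ℝ) ^ j := by positivity
        linarith
      set z : ℂ := (q : ℂ) ^ j / l with hz
      have hzl : z * l = (q : ℂ) ^ j := by
        rw [hz]
        field_simp
      have hz1 : ‖z‖ = 1 := by
        rw [hz, norm_div, hl, norm_pow, Complex.norm_natCast]
        have : ((q : ℝ) ^ j) ≠ 0 := by positivity
        exact div_self this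
      have hrho : ∀ v : MaximalSpectrum (MvPolynomial (Fin r) F),
          rho χ D v = z ^ pdeg v * rho (1 : MulChar F ℂ) D v := by
        intro v
        by_cases hv : D ∈ v.asIdeal
        · rw [ONE_rho_zero χ D v hv, ONE_rho_zero 1 D v hv, mul_zero]
        · rw [ONE_rho_one D v hv, mul_one]
          have h1 := hall ⟨v, (hDv v).1 hv⟩
          rw [heig, hCRD F r v] at h1
          have h2 : l ^ pdeg v * rho χ D v = l ^ pdeg v * z ^ pdeg v := by
            rw [← mul_pow, mul_comm l z, hzl]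
            rw [← hqdef] at h1
            have h3 : l ^ pdeg v * rho χ D v = ((q ^ pdeg v : ℕ) : ℂ) ^ j := h1
            rw [h3]
            push_cast
            rw [← pow_mul, ← pow_mul, mul_comm]
          exact mul_left_cancel₀ (pow_ne_zero _ hl0) h2
      have hSV := ONE_SV pdeg (rho χ D) (rho (1 : MulChar F ℂ) D) z hrho
      have hlim : Filter.Tendsto (fun n : ℕ => z ^ n - w ^ n) Filter.atTop (nhds 0) := by
        have hs1 : 1 < √(q : ℝ) := by
          rw [show (1 : ℝ) = √1 by simp]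
          apply Real.sqrt_lt_sqrt zero_le_one
          exact_mod_cast hq2
        have hgeo : Filter.Tendsto (fun n : ℕ => (B + B1) * (1 / √(q : ℝ)) ^ n) Filter.atTop
            (nhds 0) := by
          have h1 := (tendsto_pow_atTop_nhds_zero_of_lt_one (r := 1 / √(q : ℝ)) (by positivity)
            (by rw [div_lt_one (by positivity)]; exact hs1)).const_mul (B + B1)
          rwa [mul_zero] at h1
        refine squeeze_zero_norm' ?_ hgeo
        filter_upwards [Filter.eventually_gt_atTop 0] with n hn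
        have e1 := hB n hn
        have e2 := hB1 n hn
        rw [hSV n, mul_pow, ← pow_mul] at e1
        rw [one_mul, ← pow_mul] at e2
        set Q : ℂ := (q : ℂ) ^ (r * n) with hQ
        set S : ℂ := SV pdeg (rho (1 : MulChar F ℂ) D) n with hS
        have e3 : ‖(z ^ n - w ^ n) * Q‖ ≤ (B + B1) * ((q : ℝ) ^ r / √q) ^ n := by
          have e4 : (z ^ n - w ^ n) * Q = (z ^ n * S - w ^ n * Q) - z ^ n * (S - Q) := by ring
          rw [e4]
          calc ‖(z ^ n * S - w ^ n * Q) - z ^ n * (S - Q)‖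
              ≤ ‖z ^ n * S - w ^ n * Q‖ + ‖z ^ n * (S - Q)‖ := norm_sub_le _ _
            _ = ‖z ^ n * S - w ^ n * Q‖ + ‖S - Q‖ := by
                rw [norm_mul, norm_pow, hz1, one_pow, one_mul]
            _ ≤ B * ((q : ℝ) ^ r / √q) ^ n + B1 * ((q : ℝ) ^ r / √q) ^ n := add_le_add e1 e2
            _ = (B + B1) * ((q : ℝ) ^ r / √q) ^ n := by ring
        have hQn : ‖Q‖ = (q : ℝ) ^ (r * n) := by
          rw [hQ, norm_pow, Complex.norm_natCast]
        rw [norm_mul, hQn] at e3
        have hQpos : (0 : ℝ) < (q : ℝ) ^ (r * n) := by positivity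
        have e5 : (B + B1) * ((q : ℝ) ^ r / √q) ^ n =
            ((B + B1) * (1 / √(q : ℝ)) ^ n) * (q : ℝ) ^ (r * n) := by
          rw [div_pow, ← pow_mul, one_div, inv_pow]
          ring
        rw [e5] at e3
        exact le_of_mul_le_mul_right e3 hQpos
      have hzw := ONE_eq z w hz1 hlim
      rw [← hzw]
      exact hzl
    · intro hwl v
      have hv : D ∉ v.1.asIdeal := (hDv v.1).2 v.2
      have hw' : ∀ v : MaximalSpectrum (MvPolynomial (Fin r) F), D ∉ v.asIdeal →
          rho χ D v = w ^ pdeg v := by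
        rcases hw with h | h
        · exfalso
          rw [h, zero_mul] at hwl
          exact pow_ne_zero j hq0 hwl.symm
        · exact h.2
      rw [heig v, hw' v.1 hv, hCRD F r v.1, ← mul_pow, mul_comm l w, hwl]
      push_cast
      rw [← pow_mul, ← pow_mul, mul_comm]
  refine ⟨?_, ?_, ?_⟩
  · intro s hs
    have h1 := a1 s hs
    have h2 := (Function.Injective.multipliable_iff (g := fun v : GPlace c => v.1) hinj
      (f := fun v => (1 - rho χ D v * (l * (q : ℂ) ^ (-(s : ℂ))) ^ pdeg v)⁻¹) (by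
        intro v hv
        show (1 - rho χ D v * (l * (q : ℂ) ^ (-(s : ℂ))) ^ pdeg v)⁻¹ = 1
        rw [hrange v hv]
        simp)).2 h1
    have h3 : (fun v : GPlace c =>
        (1 - eigAt χ v b * (Fintype.card (kap v.1) : ℂ) ^ (-(s : ℂ)))⁻¹) =
        (fun v => (1 - rho χ D v * (l * (q : ℂ) ^ (-(s : ℂ))) ^ pdeg v)⁻¹) ∘
          (fun v : GPlace c => v.1) := funext fun v => hfac s v
    rw [h3]
    exact h2
  · intro hall
    exact ONE_pole _ _ hprod _ _ (a2 (hiff.1 hall))
  · intro hall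
    exact ONE_pole _ _ hprod _ _ (a3 (fun h => hall (hiff.2 h)))

end Pool.FT
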