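import Pool.Agent.Work.MP_223b32_ft.Interface4

namespace Pool.FT

open Finset

theorem p_ONM (hLEV : Stmt_LEV) (hONE : Stmt_ONE) : Stmt_ONM := by
  intro F _ _ χ M _ hχ r ι _ m n hm c hc b j hb
  have h0 : ∀ i, ∃ b' : Cls M (n i), degC b' = degC (b i) ∧
      ∀ (K : Type) [Field K] [Fintype K] (ψ : MulChar K ℂ) (d : Fin (n i + 2) → Kˣ),
        lam ψ d b' = lam (ψ ^ (M / m i)) d (b i) := by
    intro i
    have hne : NeZero (m i) := ⟨fun h => NeZero.ne M (by
      have h1 := hm i
      rw [h] at h1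
      exact Nat.eq_zero_of_zero_dvd h1)⟩
    obtain ⟨b', h1, -, h2⟩ := hLEV (m i) M (n i) (hm i) (b i)
    exact ⟨b', h1, fun K _ _ ψ d => h2 K ψ d⟩
  choose b' h1 h2 using h0
  have hdeg : degP b' = 2 * j := by
    rw [← hb]
    unfold degP degM
    exact Finset.sum_congr rfl fun i _ => h1 i
  have e : ∀ v : GPlace c, eigAt χ v b' = eigMV M χ v b := by
    intro v
    unfold eigAt eigP eigMV eigM
    exact Finset.prod_congr rfl fun i _ => h2 i _ _ _
  have h := hONE F χ M hχ r ι n c hc b' j hdeg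
  simp only [e] at h
  exact h

end Pool.FT
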