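import Pool.Agent.Work.MP_223b32_ft.Interface

/-! # Block PIZ: the uniformizer `ζ - 1` (MP_223b32, THEOREM FT) -/

namespace Pool.FT

open Finset

theorem PIZ_pow {E : Type} [NormedField E] [IsUltrametricDist E] (η : E) (hη : ‖η‖ ≤ 1) (j : ℕ) :
    ‖1 - η ^ j‖ ≤ ‖1 - η‖ := by
  induction j with
  | zero => simp
  | succ j ih =>
    have h1 : 1 - η ^ (j + 1) = (1 - η) + η * (1 - η ^ j) := by ring
    rw [h1]
    refine (IsUltrametricDist.norm_add_le_max _ _).trans (max_le le_rfl ?_)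
    rw [norm_mul]
    calc ‖η‖ * ‖1 - η ^ j‖ ≤ 1 * ‖1 - η‖ :=
          mul_le_mul hη ih (norm_nonneg _) zero_le_one
      _ = ‖1 - η‖ := one_mul _

theorem p_PIZ : Stmt_PIZ := by
  intro p hp E _ _ _ hpn ζ hζ
  have hp1 : 1 < p := hp.out.one_lt
  have hn1 : ‖ζ‖ = 1 := by
    have h1 : ‖ζ‖ ^ p = 1 := by rw [← norm_pow, hζ.pow_eq_one, norm_one]
    exact (pow_eq_one_iff_of_nonneg (norm_nonneg _) hp.out.ne_zero).1 h1
  have hsame : ∀ i : ℕ, 0 < i → i < p → ‖1 - ζ ^ i‖ = ‖1 - ζ‖ := by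
    intro i hi hip
    refine le_antisymm (PIZ_pow ζ hn1.le i) ?_
    have hcop : Nat.Coprime i p := (Nat.coprime_of_lt_prime hi.ne' hip hp.out).symm
    obtain ⟨j, _, hj⟩ := Nat.exists_mul_mod_eq_one_of_coprime hcop hp1
    have h1 : ζ = (ζ ^ i) ^ j := by
      rw [← pow_mul]
      have h2 : i * j = p * (i * j / p) + 1 := by
        have := Nat.div_add_mod (i * j) p
        rw [hj] at this
        exact this.symm
      rw [h2, pow_add, pow_mul, hζ.pow_eq_one, one_pow, one_mul, pow_one]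
    calc ‖1 - ζ‖ = ‖1 - (ζ ^ i) ^ j‖ := by rw [← h1]
      _ ≤ ‖1 - ζ ^ i‖ := PIZ_pow (ζ ^ i) (by rw [norm_pow, hn1, one_pow]) j
  have hprod : ‖ζ - 1‖ ^ (p - 1) = ‖(p : E)‖ := by
    obtain ⟨n, rfl⟩ : ∃ n, p = n + 1 := ⟨p - 1, by omega⟩
    have h1 := IsPrimitiveRoot.prod_one_sub_pow_eq_order hζ
    have h2 : ‖((n + 1 : ℕ) : E)‖ = ∏ k ∈ range n, ‖1 - ζ ^ (k + 1)‖ := by
      rw [← norm_prod, h1]
      push_cast
      rfl
    have h3 : ∏ k ∈ range n, ‖1 - ζ ^ (k + 1)‖ = ∏ k ∈ range n, ‖1 - ζ‖ :=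
      Finset.prod_congr rfl fun k hk => hsame (k + 1) (Nat.succ_pos k)
        (by have := Finset.mem_range.1 hk; omega)
    rw [h2, h3, Finset.prod_const, Finset.card_range, norm_sub_rev ζ 1, Nat.add_sub_cancel]
  refine ⟨hprod, ?_, ?_⟩
  · by_contra h
    rw [not_lt] at h
    have h1 : 1 ≤ ‖ζ - 1‖ ^ (p - 1) := one_le_pow₀ h
    rw [hprod] at h1
    exact absurd hpn (not_lt.2 h1)
  · intro a
    induction a with
    | zero => simp
    | succ a ih =>
      have h1 : ζ ^ (a + 1) - 1 - ((a + 1 : ℕ) : E) * (ζ - 1) =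
          ζ * (ζ ^ a - 1 - (a : E) * (ζ - 1)) + (a : E) * (ζ - 1) ^ 2 := by
        push_cast
        ring
      rw [h1]
      refine (IsUltrametricDist.norm_add_le_max _ _).trans (max_le ?_ ?_)
      · rw [norm_mul, hn1, one_mul]
        exact ih
      · rw [norm_mul, norm_pow]
        exact mul_le_of_le_one_left (pow_nonneg (norm_nonneg _) _)
          (IsUltrametricDist.norm_natCast_le_one E a)

end Pool.FT
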