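import Pool.Agent.Work.MP_223b32_ft.Interface3

/-! Block PLD (helper55): the number of closed points of degree `d`. -/

namespace Pool.FT

open Finset Polynomial

theorem p_PLD (hPTN : Stmt_PTN) (hEXT : Stmt_EXT) : Stmt_PLD := by
  intro F _ _ r
  have hpos : ∀ v : MaximalSpectrum (MvPolynomial (Fin r) F), 0 < pdeg v := fun v =>
    Module.finrank_pos
  refine ⟨hpos, fun d => ?_⟩
  rcases Nat.eq_zero_or_pos d with rfl | hd
  · have h0 : {v : MaximalSpectrum (MvPolynomial (Fin r) F) | pdeg v = 0} = ∅ := by
      ext v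
      simp only [Set.mem_ofPred_eq, Set.mem_empty_iff_false, iff_false]
      exact (hpos v).ne'
    rw [h0]
    refine ⟨Set.finite_empty, ?_⟩
    simp
  · obtain ⟨E, _, _, _, hE⟩ := hEXT F d hd
    have hsub : {v : MaximalSpectrum (MvPolynomial (Fin r) F) | pdeg v = d} ⊆
        Set.range (fun x : Fin r → E => pt (F := F) x) := by
      intro v hv
      have hv' : pdeg v = d := hv
      have h1 := hPTN F E r v
      rw [hE, hv', if_pos dvd_rfl] at h1
      have h2 : 0 < Nat.card {x : Fin r → E // pt (F := F) x = v} := by rw [h1]; exact hd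
      have h3 : Nonempty {x : Fin r → E // pt (F := F) x = v} := (Nat.card_pos_iff.1 h2).1
      obtain ⟨x, hx⟩ := h3
      exact ⟨x, hx⟩
    have hfin : (Set.range (fun x : Fin r → E => pt (F := F) x)).Finite := Set.finite_range _
    refine ⟨hfin.subset hsub, ?_⟩
    have h4 : {v : MaximalSpectrum (MvPolynomial (Fin r) F) | pdeg v = d}.ncard ≤
        Nat.card (Fin r → E) :=
      (Set.ncard_le_ncard hsub hfin).trans (by
        rw [← Set.image_univ]
        exact (Set.ncard_image_le Set.finite_univ).trans (by rw [Set.ncard_univ]))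
    have h5 : Nat.card (Fin r → E) = (Fintype.card F ^ r) ^ d := by
      rw [Nat.card_eq_fintype_card, Fintype.card_fun, Fintype.card_fin,
        Module.card_eq_pow_finrank (K := F) (V := E), hE, ← pow_mul, ← pow_mul, mul_comm]
    rw [h5] at h4
    exact_mod_cast h4

end Pool.FT
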