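import Pool.Agent.Work.MP_223b32_ft.Interface

/-!
# Block POL: order of the pole of a product of Euler factors
-/

namespace Pool.FT

open Finset Filter Topology

theorem POL_fac1 (q : ℕ) (hq : 1 < q) (j : ℕ) :
    Tendsto (fun s : ℝ => ((s : ℂ) - ((j : ℝ) : ℂ)) * (1 - (q : ℂ) ^ j * (q : ℂ) ^ (-(s : ℂ)))⁻¹)
      (nhdsWithin (j : ℝ) (Set.Ioi (j : ℝ))) (nhds ((Real.log q : ℂ))⁻¹) := by
  have hq0 : (q : ℂ) ≠ 0 := by
    rw [Nat.cast_ne_zero]; omega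
  have hlog : Real.log q ≠ 0 := by
    have : (1 : ℝ) < (q : ℝ) := by exact_mod_cast hq
    exact (Real.log_pos this).ne'
  have hlogc : (Real.log q : ℂ) ≠ 0 := Complex.ofReal_ne_zero.mpr hlog
  have hfj : (q : ℂ) ^ j * (q : ℂ) ^ (-((j : ℝ) : ℂ)) = 1 := by
    rw [Complex.cpow_neg]
    have h1 : (q : ℂ) ^ (((j : ℝ)) : ℂ) = (q : ℂ) ^ j := by
      have h2 : (((j : ℝ)) : ℂ) = (j : ℂ) := by push_cast; rfl
      rw [h2, Complex.cpow_natCast]
    rw [h1]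
    exact mul_inv_cancel₀ (pow_ne_zero j hq0)
  have hd : HasDerivAt (fun z : ℂ => (q : ℂ) ^ j * (q : ℂ) ^ (-z))
      (-(Real.log q : ℂ)) (((j : ℝ)) : ℂ) := by
    have h1 : HasDerivAt (fun z : ℂ => -z) (-1) (((j : ℝ)) : ℂ) := hasDerivAt_neg _
    have h2 := (h1.const_cpow (c := (q : ℂ)) (Or.inl hq0)).const_mul ((q : ℂ) ^ j)
    have h3 : (q : ℂ) ^ j * ((q : ℂ) ^ (-(((j : ℝ)) : ℂ)) * Complex.log (q : ℂ) * (-1))
        = -(Real.log q : ℂ) := by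
      rw [← mul_assoc, ← mul_assoc, hfj, one_mul, mul_neg_one]
      rw [Complex.natCast_log]
    rw [h3] at h2
    exact h2
  have hr := hd.comp_ofReal
  have hs := (hasDerivAt_iff_tendsto_slope.mp hr).mono_left (nhdsGT_le_nhdsNE (j : ℝ))
  have hs2 := (hs.inv₀ (neg_ne_zero.mpr hlogc)).neg
  have e1 : -(-(Real.log q : ℂ))⁻¹ = ((Real.log q : ℂ))⁻¹ := by
    rw [inv_neg, neg_neg]
  rw [e1] at hs2
  refine hs2.congr (fun s => ?_)
  rw [slope_def_module]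
  rw [hfj]
  rw [Complex.real_smul, mul_inv, Complex.ofReal_inv, inv_inv, Complex.ofReal_sub]
  rw [← mul_neg, ← inv_neg, neg_sub]

theorem POL_fac2 (q : ℕ) (hq : 1 < q) (j : ℕ) (l : ℂ) (hl : l ≠ (q : ℂ) ^ j) :
    1 - l * (q : ℂ) ^ (-((j : ℝ) : ℂ)) ≠ 0 ∧
    Tendsto (fun s : ℝ => (1 - l * (q : ℂ) ^ (-(s : ℂ)))⁻¹)
      (nhdsWithin (j : ℝ) (Set.Ioi (j : ℝ)))
      (nhds ((1 - l * (q : ℂ) ^ (-((j : ℝ) : ℂ)))⁻¹)) := by
  have hq0 : (q : ℂ) ≠ 0 := by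
    rw [Nat.cast_ne_zero]; omega
  have h1 : (q : ℂ) ^ (((j : ℝ)) : ℂ) = (q : ℂ) ^ j := by
    have h2 : (((j : ℝ)) : ℂ) = (j : ℂ) := by push_cast; rfl
    rw [h2, Complex.cpow_natCast]
  have hne : 1 - l * (q : ℂ) ^ (-((j : ℝ) : ℂ)) ≠ 0 := by
    intro h
    apply hl
    rw [Complex.cpow_neg, h1] at h
    have h3 : l * ((q : ℂ) ^ j)⁻¹ = 1 := by linear_combination -h
    rw [← div_eq_mul_inv, div_eq_one_iff_eq (pow_ne_zero j hq0)] at h3
    exact h3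
  refine ⟨hne, ?_⟩
  refine Tendsto.inv₀ ?_ hne
  have hcont : Continuous (fun s : ℝ => 1 - l * (q : ℂ) ^ (-(s : ℂ))) := by
    refine continuous_const.sub (continuous_const.mul ?_)
    exact (Complex.continuous_ofReal.neg).const_cpow (Or.inl hq0)
  exact (hcont.tendsto (j : ℝ)).mono_left nhdsWithin_le_nhds

open Classical in
theorem POL_gen {B : Type} (S : Finset B) (l : B → ℂ) (q : ℕ) (hq : 1 < q) (j : ℕ) :
    HasPoleOrder (fun s => ∏ b ∈ S, (1 - l b * (q : ℂ) ^ (-s))⁻¹) j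
      ((S.filter (fun b => l b = (q : ℂ) ^ j)).card) := by
  refine ⟨∏ b ∈ S, (if l b = (q : ℂ) ^ j then ((Real.log q : ℂ))⁻¹ else
    (1 - l b * (q : ℂ) ^ (-((j : ℝ) : ℂ)))⁻¹), ?_, ?_⟩
  · rw [prod_ne_zero_iff]
    intro b _
    split_ifs with h
    · apply inv_ne_zero
      have : (1 : ℝ) < (q : ℝ) := by exact_mod_cast hq
      exact Complex.ofReal_ne_zero.mpr (Real.log_pos this).ne'
    · exact inv_ne_zero (POL_fac2 q hq j (l b) h).1
  · have h1 : ∀ s : ℝ, ((s : ℂ) - ((j : ℝ) : ℂ)) ^ (S.filter (fun b => l b = (q : ℂ) ^ j)).card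
        * ∏ b ∈ S, (1 - l b * (q : ℂ) ^ (-(s : ℂ)))⁻¹
        = ∏ b ∈ S, (if l b = (q : ℂ) ^ j then
            ((s : ℂ) - ((j : ℝ) : ℂ)) * (1 - (q : ℂ) ^ j * (q : ℂ) ^ (-(s : ℂ)))⁻¹
          else (1 - l b * (q : ℂ) ^ (-(s : ℂ)))⁻¹) := by
      intro s
      rw [← prod_const, prod_filter, ← prod_mul_distrib]
      refine prod_congr rfl (fun b _ => ?_)
      split_ifs with h
      · rw [h]
      · rw [one_mul]
    simp only [h1]
    refine tendsto_finsetProd S (fun b _ => ?_)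
    by_cases h : l b = (q : ℂ) ^ j
    · simp only [if_pos h]
      exact POL_fac1 q hq j
    · simp only [if_neg h]
      exact (POL_fac2 q hq j (l b) h).2

open Classical in
theorem p_POL : Stmt_POL := by
  intro F _ _ χ m _ ι _ n c j
  have h := POL_gen ((univ : Finset (∀ i, Cls m (n i))).filter (fun b => degP b = 2 * j))
    (fun b => eigP χ c b) (Fintype.card F) Fintype.one_lt_card j
  rw [filter_filter] at h
  exact h

end Pool.FT
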