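import Pool.Agent.Work.MP_223b32_ft.Interface4

namespace Pool.FT

open Finset

theorem p_PRO : Stmt_PRO := by
  classical
  intro V B _ f s₀ ord hm h
  refine ⟨fun s hs => multipliable_prod fun b _ => hm b s hs, ?_⟩
  choose w hw hlim using h
  refine ⟨∏ b, w b, Finset.prod_ne_zero_iff.mpr fun b _ => hw b, ?_⟩
  have h1 : Filter.Tendsto (fun s : ℝ => ∏ b, (((s : ℂ) - s₀) ^ ord b * ∏' v, f b v (s : ℂ)))
      (nhdsWithin s₀ (Set.Ioi s₀)) (nhds (∏ b, w b)) :=
    tendsto_finsetProd (univ : Finset B) fun b _ => hlim b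
  refine h1.congr' ?_
  filter_upwards [self_mem_nhdsWithin] with s hs
  have h2 : ∏' v, ∏ b, f b v (s : ℂ) = ∏ b, ∏' v, f b v (s : ℂ) :=
    Multipliable.tprod_finsetProd fun b _ => hm b s hs
  rw [Finset.prod_mul_distrib, Finset.prod_pow_eq_pow_sum, h2]

end Pool.FT
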