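import Pool.Agent.Work.MP_223b32_ft.Interface4

/-!
# THEOREM FT, block PRT: one prime
-/

namespace Pool.FT

open Finset

/-- A multiset of elements killed by `m` is the image of a multiset of `ZMod m`. -/
theorem PRT_pre (m M : ℕ)
    (h : ∀ y : ZMod M, (m : ZMod M) * y = 0 → ∃ x : ZMod m, emb m M x = y)
    (A : Multiset (ZMod M)) : (∀ x ∈ A, (m : ZMod M) * x = 0) →
      ∃ a : Multiset (ZMod m), a.map (emb m M) = A := by
  induction A using Multiset.induction with
  | empty => intro _; exact ⟨0, rfl⟩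
  | cons y A ih =>
    intro hA
    obtain ⟨a, ha⟩ := ih (fun x hx => hA x (Multiset.mem_cons_of_mem hx))
    obtain ⟨x, hx⟩ := h y (hA y (Multiset.mem_cons_self y A))
    exact ⟨x ::ₘ a, by rw [Multiset.map_cons, ha, hx]⟩

/-- `emb` commutes with sums. -/
theorem PRT_sum (m M : ℕ) (h0 : emb m M 0 = 0)
    (hadd : ∀ x y : ZMod m, emb m M (x + y) = emb m M x + emb m M y)
    (a : Multiset (ZMod m)) : (a.map (emb m M)).sum = emb m M a.sum := by
  induction a using Multiset.induction with
  | empty => simp [h0]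
  | cons x a ih => rw [Multiset.map_cons, Multiset.sum_cons, Multiset.sum_cons, ih, hadd]

/-- The condition of Stickelberger's theorem for the conjugate character. -/
theorem PRT_neg (m p f : ℕ) [NeZero m] (hp : p.Coprime m) (T : Multiset (ZMod m))
    (h0 : (0 : ZMod m) ∉ T) (hT : Stick m p f T) : Stick m p f (T.map (fun x => -x)) := by
  intro t
  have h1 := hT t
  have hpu : IsUnit (p : ZMod m) := (ZMod.isUnit_iff_coprime p m).2 hp
  have h2 : ∀ i ∈ range f, ((T.map (fun x => -x)).map
      (fun x => ((t : ZMod m) * (p : ZMod m) ^ i * x).val)).sum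
      + (T.map (fun x => ((t : ZMod m) * (p : ZMod m) ^ i * x).val)).sum
        = Multiset.card T * m := by
    intro i _
    rw [Multiset.map_map, ← Multiset.sum_map_add]
    rw [Multiset.map_congr rfl (g := fun _ => m)]
    · rw [Multiset.map_const', Multiset.sum_replicate, smul_eq_mul]
    · intro x hx
      have hx0 : x ≠ 0 := fun h => h0 (h ▸ hx)
      have hne : (t : ZMod m) * (p : ZMod m) ^ i * x ≠ 0 := by
        have hu : IsUnit ((t : ZMod m) * (p : ZMod m) ^ i) := t.isUnit.mul (hpu.pow i)
        intro h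
        exact hx0 ((hu.mul_right_eq_zero).1 h)
      show ((t : ZMod m) * (p : ZMod m) ^ i * (-x)).val
        + ((t : ZMod m) * (p : ZMod m) ^ i * x).val = m
      rw [mul_neg, ZMod.neg_val, if_neg hne]
      have := ZMod.val_lt ((t : ZMod m) * (p : ZMod m) ^ i * x)
      omega
  have h3 : ∑ i ∈ range f, ((T.map (fun x => -x)).map
      (fun x => ((t : ZMod m) * (p : ZMod m) ^ i * x).val)).sum
      + ∑ i ∈ range f, (T.map (fun x => ((t : ZMod m) * (p : ZMod m) ^ i * x).val)).sum
        = f * (Multiset.card T * m) := by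
    rw [← Finset.sum_add_distrib, Finset.sum_congr rfl h2, Finset.sum_const, card_range,
      smul_eq_mul]
  have h4 : f * (Multiset.card T * m) = f * Multiset.card T * m := by ring
  rw [Multiset.card_map]
  omega

/-- The condition of Stickelberger's theorem is additive. -/
theorem PRT_add (m p f : ℕ) (a b : Multiset (ZMod m)) (ha : Stick m p f a)
    (hb : Stick m p f b) : Stick m p f (a + b) := by
  intro t
  have h1 := ha t
  have h2 := hb t
  simp only [Multiset.map_add, Multiset.sum_add, Finset.sum_add_distrib, Multiset.card_add]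
  rw [mul_add, h1, h2]
  ring

/-- `e` is odd. -/
theorem PRT_odd {M p : ℕ} {Alg : Multiset (ZMod M) → Prop} (hF : FermatCycles2 M p Alg)
    {Q : Type} [AddCommGroup Q] {e : ZMod M → Q} (he : Kills Alg e) (x : ZMod M) :
    e (-x) = - e x := by
  by_cases hx : x = 0
  · subst hx
    rw [neg_zero, he.zero, neg_zero]
  · have h := he.kill _ (hF.pair x hx)
    have h2 : (({x, -x} : Multiset (ZMod M)).map e).sum = e x + e (-x) := by simp
    rw [h2] at h
    exact (neg_eq_of_add_eq_zero_right h).symm

/-- The level divides `M`. -/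
theorem PRT_lev (l M : ℕ) (hl : l.Prime) : lev l M ∣ M := by
  unfold lev
  split_ifs with h
  · rw [one_mul]
    exact Nat.ordProj_dvd M l
  · apply Nat.Coprime.mul_dvd_of_dvd_of_dvd
    · have h2 : Nat.Coprime 2 l :=
        (Nat.coprime_primes Nat.prime_two hl).2 (fun h' => h h'.symm)
      exact (h2.pow_right _).coprime_dvd_left (Nat.gcd_dvd_left 2 M)
    · exact Nat.gcd_dvd_right 2 M
    · exact Nat.ordProj_dvd M l

/-- The level is a degree of the theorem if it is at least `3`. -/
theorem PRT_good (l M : ℕ) (hl : l.Prime) (h3 : 3 ≤ lev l M) : GoodM (lev l M) := by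
  refine ⟨h3, l, M.factorization l, hl, ?_, ?_⟩
  · by_contra h
    have h0 : M.factorization l = 0 := by omega
    unfold lev at h3
    rw [h0, pow_zero, mul_one] at h3
    split_ifs at h3
    · omega
    · have := Nat.le_of_dvd (by norm_num) (Nat.gcd_dvd_left 2 M)
      omega
  · unfold lev
    split_ifs with h
    · left
      rw [one_mul]
    · have hg : Nat.gcd 2 M = 1 ∨ Nat.gcd 2 M = 2 :=
        (Nat.dvd_prime Nat.prime_two).1 (Nat.gcd_dvd_left 2 M)
      rcases hg with hg | hg
      · left
        rw [hg, one_mul]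
      · right
        rw [hg]

/-- The case of the levels `1` and `2`. -/
theorem PRT_small {M p : ℕ} [NeZero M] {Alg : Multiset (ZMod M) → Prop}
    (hF : FermatCycles2 M p Alg) {Q : Type} [AddCommGroup Q] {e : ZMod M → Q}
    (he : Kills Alg e) (A : Multiset (ZMod M)) (hA : ∀ x ∈ A, x ≠ 0 ∧ x + x = 0)
    (hs : A.sum = 0) : Even (Multiset.card A) ∧ (A.map e).sum = 0 := by
  by_cases hA0 : A = 0
  · subst hA0
    simp
  · obtain ⟨y, hy⟩ := Multiset.exists_mem_of_ne_zero hA0
    have hyy : -y = y := neg_eq_of_add_eq_zero_right (hA y hy).2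
    have huniq : ∀ x ∈ A, x = y := by
      intro x hx
      have h1 : -x = x := neg_eq_of_add_eq_zero_right (hA x hx).2
      have h2 : -y = y := hyy
      rw [ZMod.neg_eq_self_iff] at h1 h2
      have h3 := h1.resolve_left (hA x hx).1
      have h4 := h2.resolve_left (hA y hy).1
      exact ZMod.val_injective M (by omega)
    have hr := Multiset.eq_replicate_of_mem huniq
    have hcard : Even (Multiset.card A) := by
      by_contra hodd
      rw [Nat.not_even_iff_odd] at hodd
      obtain ⟨k, hk⟩ := hodd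
      rw [hr, Multiset.sum_replicate, hk] at hs
      apply (hA y hy).1
      have h7 : (2 * k + 1) • y = y := by
        rw [add_smul, one_smul, mul_comm, mul_smul, two_smul, (hA y hy).2, smul_zero, zero_add]
      rw [← h7]
      exact hs
    refine ⟨hcard, ?_⟩
    obtain ⟨k, hk⟩ := hcard
    rw [hr, Multiset.map_replicate, Multiset.sum_replicate, hk]
    have h5 : e y + e y = 0 := by
      have h6 := PRT_odd hF he y
      rw [hyy] at h6
      exact add_eq_zero_iff_eq_neg.2 h6
    rw [add_smul, ← smul_add, h5, smul_zero]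

/-- The case of a level at least `3`. -/
theorem PRT_main (hSCL : Stmt_SCL) (hFCL : Stmt_FCL) (hSPT : Stmt_SPT)
    (hCOM : Stmt_COM) (hEMB : Stmt_EMB) (m M p f : ℕ) [NeZero m] [NeZero M] (hmM : m ∣ M)
    (hG : GoodM m) (Alg : Multiset (ZMod M) → Prop) (hF : FermatCycles2 M p Alg)
    (hp : p.Coprime M) (hf : 0 < f) (hpf : (p : ZMod M) ^ f = 1) (Q : Type)
    [AddCommGroup Q] (e : ZMod M → Q) (he : Kills Alg e) (A : Multiset (ZMod M))
    (hA : ∀ x ∈ A, x ≠ 0 ∧ (m : ZMod M) * x = 0) (hAs : A.sum = 0) (hSt : Stick M p f A) :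
    (Even (Multiset.card A) → (A.map e).sum = 0) ∧
      (¬ Even (Multiset.card A) → ∃ x y z : ZMod M, x ≠ 0 ∧ y ≠ 0 ∧ z ≠ 0 ∧ x + y + z = 0 ∧
        Ssg M p {x, y, z} ∧ (A.map e).sum = e x + e y + e z) := by
  obtain ⟨-, e2, e3, e4, -, -, e7⟩ := hEMB m M hmM
  have e0 : emb m M 0 = 0 := (e4 0).2 rfl
  obtain ⟨a, ha⟩ := PRT_pre m M e7 A (fun x hx => (hA x hx).2)
  have ha0 : (0 : ZMod m) ∉ a := by
    intro h
    have h1 : emb m M 0 ∈ A := by
      rw [← ha]
      exact Multiset.mem_map_of_mem _ h
    exact (hA _ h1).1 e0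
  have has : a.sum = 0 := by
    rw [← e4, ← PRT_sum m M e0 e2, ha, hAs]
  have haS : Stick m p f a := by
    rw [← hSCL m M p f hmM, ha]
    exact hSt
  have hcard : Multiset.card A = Multiset.card a := by
    rw [← ha, Multiset.card_map]
  have hpm : p.Coprime m := hp.coprime_dvd_right hmM
  have hpfm : (p : ZMod m) ^ f = 1 := by
    have h := congrArg (ZMod.castHom hmM (ZMod m)) hpf
    rwa [map_pow, map_natCast, map_one] at h
  have hF' := hFCL m M p hmM hp Alg hF
  have key : ∀ b : Multiset (ZMod m), Chr m b → Stick m p f b → Alg (b.map (emb m M)) :=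
    fun b hb hb2 => hCOM m p f (fun a => Alg (a.map (emb m M))) hG hF' hpm hf hpfm b hb hb2
  refine ⟨?_, ?_⟩
  · intro hev
    by_cases h0 : a = 0
    · rw [← ha, h0]
      simp
    · have h1 := key a ⟨h0, ha0, has, by rw [← hcard]; exact hev⟩ haS
      rw [ha] at h1
      exact he.kill A h1
  · intro hodd
    rw [hcard] at hodd
    obtain ⟨x, y, z, hx, hy, hz, hs, hT⟩ := hSPT m p f hG hpm hf hpfm a ha0 has hodd haS
    have hT0 : (0 : ZMod m) ∉ ({x, y, z} : Multiset (ZMod m)) := by
      simp only [Multiset.insert_eq_cons, Multiset.mem_cons, Multiset.mem_singleton, not_or]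
      exact ⟨fun h => hx h.symm, fun h => hy h.symm, fun h => hz h.symm⟩
    have hTn := PRT_neg m p f hpm _ hT0 hT
    have hb := PRT_add m p f _ _ haS hTn
    have hneg : ({x, y, z} : Multiset (ZMod m)).map (fun x => -x) = {-x, -y, -z} := by
      simp
    rw [hneg] at hb
    have hchr : Chr m (a + {-x, -y, -z}) := by
      refine ⟨?_, ?_, ?_, ?_⟩
      · intro h
        have h1 := congrArg Multiset.card h
        simp at h1
      · rw [Multiset.mem_add, not_or]
        refine ⟨ha0, ?_⟩
        simp only [Multiset.insert_eq_cons, Multiset.mem_cons, Multiset.mem_singleton, not_or]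
        exact ⟨fun h => hx (neg_eq_zero.1 h.symm), fun h => hy (neg_eq_zero.1 h.symm),
          fun h => hz (neg_eq_zero.1 h.symm)⟩
      · rw [Multiset.sum_add, has]
        have h1 : ({-x, -y, -z} : Multiset (ZMod m)).sum = -(x + y + z) := by
          simp only [Multiset.insert_eq_cons, Multiset.sum_cons, Multiset.sum_singleton]
          ring
        rw [h1, hs]
        simp
      · rw [Multiset.card_add]
        have h1 : Multiset.card ({-x, -y, -z} : Multiset (ZMod m)) = 3 := rfl
        rw [h1]
        rw [Nat.not_even_iff_odd] at hodd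
        exact hodd.add_odd (by decide)
    have h1 := he.kill _ (key _ hchr hb)
    refine ⟨emb m M x, emb m M y, emb m M z, fun h => hx ((e4 x).1 h),
      fun h => hy ((e4 y).1 h), fun h => hz ((e4 z).1 h), ?_, ?_, ?_⟩
    · rw [← e2, ← e2, hs, e0]
    · refine ⟨f, hf, hpf, ?_⟩
      have h2 := (hSCL m M p f hmM {x, y, z}).2 hT
      simpa using h2
    · rw [Multiset.map_add, ha, Multiset.map_add, Multiset.sum_add] at h1
      have h2 : ((({-x, -y, -z} : Multiset (ZMod m)).map (emb m M)).map e).sum
          = -(e (emb m M x) + e (emb m M y) + e (emb m M z)) := by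
        simp only [Multiset.insert_eq_cons, Multiset.map_cons, Multiset.map_singleton,
          Multiset.sum_cons, Multiset.sum_singleton, e3, PRT_odd hF he]
        abel
      rw [h2] at h1
      exact add_neg_eq_zero.1 h1

/-- **PRT.** One prime. -/
theorem p_PRT (hEMB : Stmt_EMB) (hSCL : Stmt_SCL) (hFCL : Stmt_FCL) (hSPT : Stmt_SPT)
    (hCOM : Stmt_COM) : Stmt_PRT := by
  classical
  intro M p f l _ Alg hF hp hf hpf hl Q _ e he A hA hAs hSt
  have hM0 : M ≠ 0 := NeZero.ne M
  have hlev : lev l M ∣ M := PRT_lev l M hl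
  have hm0 : lev l M ≠ 0 := fun h => hM0 (by
    rw [h] at hlev
    exact Nat.eq_zero_of_zero_dvd hlev)
  by_cases h3 : 3 ≤ lev l M
  · have : NeZero (lev l M) := ⟨hm0⟩
    exact PRT_main hSCL hFCL hSPT hCOM hEMB (lev l M) M p f hlev (PRT_good l M hl h3) Alg hF hp hf
      hpf Q e he A hA hAs hSt
  · have hA2 : ∀ x ∈ A, x ≠ 0 ∧ x + x = 0 := by
      intro x hx
      refine ⟨(hA x hx).1, ?_⟩
      have h := (hA x hx).2
      have h12 : lev l M = 1 ∨ lev l M = 2 := by omega
      rcases h12 with h1 | h1
      · rw [h1, Nat.cast_one, one_mul] at h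
        rw [h, add_zero]
      · rw [h1, Nat.cast_ofNat, two_mul] at h
        exact h
    obtain ⟨h1, h2⟩ := PRT_small hF he A hA2 hAs
    exact ⟨fun _ => h2, fun h => absurd h1 h⟩

end Pool.FT
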