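import Pool.Agent.Work.MP_223b32_ft.Interface

/-!
# Block PTC: number of points of a diagonal hypersurface over the base field
-/

namespace Pool.FT

open Finset

open Classical in
/-- the value of the character `χ ^ a`, with the convention `1` for `a = 0` -/
noncomputable def PTC_w {F : Type} [Field F] {m : ℕ} (χ : MulChar F ℂ) (a : ZMod m) (u : F) : ℂ :=
  if a = 0 then 1 else (χ ^ a.val) u

theorem PTC_gen {F : Type} [Field F] [Fintype F] (m : ℕ) (χ : MulChar F ℂ)
    (hχ : orderOf χ = m) :
    ∃ g : Fˣ, (∀ u : Fˣ, ∃ j : ℕ, g ^ j = u) ∧ (∀ j : ℕ, (χ (g : F)) ^ j = 1 → m ∣ j) ∧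
      (χ (g : F)) ^ m = 1 := by
  classical
  obtain ⟨g, hg⟩ := IsCyclic.exists_generator (α := Fˣ)
  have hpow : ∀ u : Fˣ, ∃ j : ℕ, g ^ j = u := fun u => by
    have h := mem_powers_iff_mem_zpowers.mpr (hg u)
    exact h
  refine ⟨g, hpow, fun j hj => ?_, ?_⟩
  · have h1 : χ ^ j = 1 := by
      ext u
      obtain ⟨i, rfl⟩ := hpow u
      rw [MulChar.pow_apply_coe, MulChar.one_apply_coe, Units.val_pow_eq_pow_val, map_pow,
        ← pow_mul, mul_comm, pow_mul, hj, one_pow]
    rw [← hχ]; exact orderOf_dvd_of_pow_eq_one h1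
  · have h1 : χ ^ m = 1 := by rw [← hχ]; exact pow_orderOf_eq_one χ
    rw [← MulChar.pow_apply_coe, h1, MulChar.one_apply_coe]

theorem PTC_sum_val (m : ℕ) [NeZero m] (z : ℂ) :
    ∑ a : ZMod m, z ^ a.val = ∑ i ∈ range m, z ^ i := by
  obtain ⟨k, rfl⟩ : ∃ k, m = k + 1 := ⟨m - 1, by have := NeZero.ne m; omega⟩
  exact Fin.sum_univ_eq_sum_range (fun i => z ^ i) (k + 1)

open Classical in
theorem PTC_count {F : Type} [Field F] [Fintype F] (m : ℕ) [NeZero m]
    (χ : MulChar F ℂ) (hχ : orderOf χ = m) (u : F) :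
    ((univ.filter (fun x : F => x ^ m = u)).card : ℂ) = ∑ a : ZMod m, PTC_w χ a u := by
  classical
  have hm0 : m ≠ 0 := NeZero.ne m
  by_cases hu : u = 0
  · subst hu
    have h1 : univ.filter (fun x : F => x ^ m = 0) = {0} := by
      ext x
      simp [pow_eq_zero_iff hm0]
    rw [h1, card_singleton]
    have h2 : ∀ a : ZMod m, PTC_w χ a (0 : F) = if a = 0 then 1 else 0 := by
      intro a
      unfold PTC_w
      split_ifs with h
      · rfl
      · exact MulChar.map_zero _
    simp [h2]
  · obtain ⟨g, hg1, hg2, hg3⟩ := PTC_gen m χ hχ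
    have h2 : ∀ a : ZMod m, PTC_w χ a u = (χ u) ^ a.val := by
      intro a
      unfold PTC_w
      have h3 : (χ ^ a.val) u = (χ u) ^ a.val := by
        have := MulChar.pow_apply_coe χ a.val (Units.mk0 u hu)
        simpa using this
      split_ifs with h
      · rw [h, ZMod.val_zero, pow_zero]
      · exact h3
    rw [sum_congr rfl (fun a _ => h2 a), PTC_sum_val]
    obtain ⟨j, hj⟩ := hg1 (Units.mk0 u hu)
    have hj' : u = (g : F) ^ j := by
      have := congrArg (fun z : Fˣ => (z : F)) hj
      simpa using this.symm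
    have hzu : χ u = (χ (g : F)) ^ j := by rw [hj', map_pow]
    -- a primitive root of order m in F
    have hcard : m ∣ Fintype.card Fˣ := by
      apply hg2
      rw [← map_pow, ← Units.val_pow_eq_pow_val, pow_card_eq_one, Units.val_one, map_one]
    have hgen : orderOf g = Fintype.card Fˣ := by
      rw [orderOf_eq_card_of_forall_mem_zpowers, Nat.card_eq_fintype_card]
      intro x
      obtain ⟨i, hi⟩ := hg1 x
      exact ⟨(i : ℤ), by simpa using hi⟩
    obtain ⟨d, hd⟩ := hcard
    have hprim : IsPrimitiveRoot ((g : F) ^ d) m := by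
      have h4 : IsPrimitiveRoot (g : F) (Fintype.card Fˣ) := by
        rw [IsPrimitiveRoot.coe_units_iff, ← hgen]
        exact IsPrimitiveRoot.orderOf g
      exact IsPrimitiveRoot.pow Fintype.card_pos h4 (by rw [hd, mul_comm])
    have hcount : (univ.filter (fun x : F => x ^ m = u)).card
        = Multiset.card (Polynomial.nthRoots m u) := by
      rw [← Multiset.toFinset_card_of_nodup (hprim.nthRoots_nodup hu)]
      congr 1
      ext x
      rw [mem_filter, Multiset.mem_toFinset, Polynomial.mem_nthRoots (Nat.pos_of_ne_zero hm0)]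
      simp
    rw [hcount, hprim.card_nthRoots u]
    by_cases hz : χ u = 1
    · have h5 : m ∣ j := hg2 j (by rw [← hzu, hz])
      have h6 : ∃ α : F, α ^ m = u := by
        obtain ⟨i, hi⟩ := h5
        exact ⟨(g : F) ^ i, by rw [hj', hi, ← pow_mul, mul_comm]⟩
      rw [if_pos h6, hz]
      simp
    · have h6 : ¬ ∃ α : F, α ^ m = u := by
        rintro ⟨α, hα⟩
        apply hz
        have hα0 : α ≠ 0 := by
          rintro rfl
          rw [zero_pow hm0] at hα
          exact hu hα.symm
        obtain ⟨i, hi⟩ := hg1 (Units.mk0 α hα0)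
        have hi' : α = (g : F) ^ i := by
          have := congrArg (fun z : Fˣ => (z : F)) hi
          simpa using this.symm
        rw [← hα, hi', map_pow, map_pow, ← pow_mul, mul_comm, pow_mul, hg3, one_pow]
      rw [if_neg h6]
      have h7 : (χ u) ^ m = 1 := by
        rw [hzu, ← pow_mul, mul_comm, pow_mul, hg3, one_pow]
      have h8 := geom_sum_mul (χ u) m
      rw [h7, sub_self] at h8
      rcases mul_eq_zero.mp h8 with h9 | h9
      · rw [h9]; simp
      · exact absurd (sub_eq_zero.mp h9) hz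

theorem PTC_w_sum {F : Type} [Field F] [Fintype F] (m : ℕ) [NeZero m]
    (χ : MulChar F ℂ) (hχ : orderOf χ = m) (a : ZMod m) :
    ∑ x : F, PTC_w χ a x = if a = 0 then (Fintype.card F : ℂ) else 0 := by
  classical
  by_cases ha : a = 0
  · rw [if_pos ha]
    unfold PTC_w
    simp [ha]
  · rw [if_neg ha]
    unfold PTC_w
    simp only [if_neg ha]
    apply MulChar.sum_eq_zero_of_ne_one
    intro h1
    have h2 : orderOf χ ∣ a.val := orderOf_dvd_of_pow_eq_one h1
    rw [hχ] at h2
    have h3 := Nat.eq_zero_of_dvd_of_lt h2 (ZMod.val_lt a)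
    exact ha ((ZMod.val_eq_zero a).mp h3)

open Classical in
theorem PTC_free {F : Type} [Field F] [Fintype F] (m n : ℕ) [NeZero m]
    (χ : MulChar F ℂ) (hχ : orderOf χ = m) (c : Fin (n + 2) → Fˣ) (a : Fin (n + 2) → ZMod m)
    (k0 : Fin (n + 2)) (hk : a k0 = 0) :
    ∑ u ∈ (univ : Finset (Fin (n + 2) → F)).filter (fun u => ∑ k, (c k : F) * u k = 0),
      ∏ k, PTC_w χ (a k) (u k)
      = ∏ j : Fin (n + 1), if a (k0.succAbove j) = 0 then (Fintype.card F : ℂ) else 0 := by
  classical
  rw [sum_filter]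
  rw [← (Fin.insertNthEquiv (fun _ => F) k0).sum_comp]
  rw [Fintype.sum_prod_type_right]
  have h1 : ∀ v : Fin (n + 1) → F, ∑ x : F,
      (if ∑ k, (c k : F) * (Fin.insertNthEquiv (fun _ => F) k0 (x, v)) k = 0 then
        ∏ k, PTC_w χ (a k) ((Fin.insertNthEquiv (fun _ => F) k0 (x, v)) k) else 0)
      = ∏ j : Fin (n + 1), PTC_w χ (a (k0.succAbove j)) (v j) := by
    intro v
    have h2 : ∀ x : F, (∑ k, (c k : F) * (Fin.insertNthEquiv (fun _ => F) k0 (x, v)) k = 0)
        ↔ x = - (c k0 : F)⁻¹ * ∑ j, (c (k0.succAbove j) : F) * v j := by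
      intro x
      rw [Fin.sum_univ_succAbove _ k0]
      simp only [Fin.insertNthEquiv_apply, Fin.insertNth_apply_same,
        Fin.insertNth_apply_succAbove]
      have hc : (c k0 : F) ≠ 0 := (c k0).ne_zero
      constructor
      · intro h
        have h3 : (c k0 : F) * x = - ∑ j, (c (k0.succAbove j) : F) * v j := by
          linear_combination h
        rw [neg_mul, ← mul_neg, ← h3, inv_mul_cancel_left₀ hc]
      · intro h
        rw [h]
        field_simp
        ring
    have h3 : ∀ x : F, (if ∑ k, (c k : F) * (Fin.insertNthEquiv (fun _ => F) k0 (x, v)) k = 0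
        then ∏ k, PTC_w χ (a k) ((Fin.insertNthEquiv (fun _ => F) k0 (x, v)) k) else 0)
        = if x = - (c k0 : F)⁻¹ * ∑ j, (c (k0.succAbove j) : F) * v j then
          ∏ j : Fin (n + 1), PTC_w χ (a (k0.succAbove j)) (v j) else 0 := by
      intro x
      rw [if_congr (h2 x) _ rfl]
      rw [Fin.prod_univ_succAbove _ k0]
      simp only [Fin.insertNthEquiv_apply, Fin.insertNth_apply_same,
        Fin.insertNth_apply_succAbove]
      have h4 : PTC_w χ (a k0) x = 1 := by unfold PTC_w; rw [if_pos hk]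
      rw [h4, one_mul]
    rw [sum_congr rfl (fun x _ => h3 x), sum_ite_eq' univ]
    simp
  rw [sum_congr rfl (fun v _ => h1 v)]
  have h5 := Finset.prod_univ_sum (fun _ : Fin (n + 1) => (univ : Finset F))
    (fun j x => PTC_w χ (a (k0.succAbove j)) x)
  rw [Fintype.piFinset_univ] at h5
  rw [← h5]
  exact prod_congr rfl (fun j _ => PTC_w_sum m χ hχ _)

theorem PTC_jac_zero {F : Type} [Field F] [Fintype F] (m n : ℕ) [NeZero m]
    (χ : MulChar F ℂ) (hχ : orderOf χ = m) (a : Fin n → ZMod m) (ha : ∑ k, a k ≠ 0) :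
    Jac χ a = 0 := by
  classical
  obtain ⟨g, hg1, hg2, hg3⟩ := PTC_gen m χ hχ
  have h1 : Jac χ a = (∏ k, (χ ^ (a k).val) (g : F)) * Jac χ a := by
    conv_lhs => unfold Jac
    unfold Jac
    rw [mul_sum]
    symm
    refine sum_bij' (fun v _ => fun k => (g : F) * v k) (fun v _ => fun k => (g⁻¹ : Fˣ) * v k)
      ?_ ?_ ?_ ?_ ?_
    · intro v hv
      rw [mem_filter] at hv ⊢
      refine ⟨mem_univ _, ?_⟩
      rw [← mul_sum, hv.2, mul_zero]
    · intro v hv
      rw [mem_filter] at hv ⊢
      refine ⟨mem_univ _, ?_⟩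
      rw [← mul_sum, hv.2, mul_zero]
    · intro v _
      funext k
      simp
    · intro v _
      funext k
      simp
    · intro v _
      rw [← prod_mul_distrib]
      refine prod_congr rfl (fun k _ => ?_)
      rw [map_mul]
  have h2 : (∏ k, (χ ^ (a k).val) (g : F)) ≠ 1 := by
    have h3 : (∏ k, (χ ^ (a k).val) (g : F)) = (χ (g : F)) ^ (∑ k, (a k).val) := by
      rw [← prod_pow_eq_pow_sum]
      exact prod_congr rfl (fun k _ => MulChar.pow_apply_coe χ _ g)
    rw [h3]
    intro h4
    have h5 := hg2 _ h4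
    apply ha
    have h6 : ((∑ k, (a k).val : ℕ) : ZMod m) = 0 := (ZMod.natCast_eq_zero_iff _ _).mpr h5
    rw [Nat.cast_sum] at h6
    rw [← h6]
    exact sum_congr rfl (fun k _ => (ZMod.natCast_zmod_val (a k)).symm)
  have h3 : (1 - ∏ k, (χ ^ (a k).val) (g : F)) * Jac χ a = 0 := by
    linear_combination h1
  rcases mul_eq_zero.mp h3 with h4 | h4
  · exact absurd (sub_eq_zero.mp h4).symm h2
  · exact h4

open Classical in
theorem PTC_subst {F : Type} [Field F] [Fintype F] (m n : ℕ) [NeZero m]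
    (χ : MulChar F ℂ) (c : Fin n → Fˣ) (a : Fin n → ZMod m) (ha : ∀ k, a k ≠ 0) :
    ∑ u ∈ (univ : Finset (Fin n → F)).filter (fun u => ∑ k, (c k : F) * u k = 0),
      ∏ k, PTC_w χ (a k) (u k)
      = (∏ k, (χ ^ (a k).val)⁻¹ (c k : F)) * Jac χ a := by
  classical
  unfold Jac
  rw [mul_sum]
  refine sum_bij' (fun v _ => fun k => (c k : F) * v k)
    (fun v _ => fun k => ((c k)⁻¹ : Fˣ) * v k) ?_ ?_ ?_ ?_ ?_
  · intro v hv
    rw [mem_filter] at hv ⊢
    exact ⟨mem_univ _, hv.2⟩
  · intro v hv
    rw [mem_filter] at hv ⊢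
    refine ⟨mem_univ _, ?_⟩
    rw [← hv.2]
    refine sum_congr rfl (fun k _ => ?_)
    simp
  · intro v _
    funext k
    simp
  · intro v _
    funext k
    simp
  · intro v _
    rw [← prod_mul_distrib]
    refine prod_congr rfl (fun k _ => ?_)
    unfold PTC_w
    rw [if_neg (ha k), MulChar.inv_apply', ← map_mul]
    congr 1
    rw [inv_mul_cancel_left₀ (c k).ne_zero]

open Classical in
theorem p_PTC : Stmt_PTC := by
  intro F _ _ m n _ χ hχ c
  have hN : (Fintype.card {x : Fin (n + 2) → F // ∑ k, (c k : F) * x k ^ m = 0} : ℂ)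
      = ∑ u ∈ (univ : Finset (Fin (n + 2) → F)).filter (fun u => ∑ k, (c k : F) * u k = 0),
        ∏ k, ∑ a : ZMod m, PTC_w χ a (u k) := by
    rw [Fintype.card_subtype]
    rw [card_eq_sum_card_fiberwise (f := fun x : Fin (n + 2) → F => fun k => x k ^ m)
      (t := (univ : Finset (Fin (n + 2) → F)).filter (fun u => ∑ k, (c k : F) * u k = 0))]
    · rw [Nat.cast_sum]
      refine sum_congr rfl (fun u hu => ?_)
      rw [mem_filter] at hu
      have h1 : (univ.filter (fun x : Fin (n + 2) → F => ∑ k, (c k : F) * x k ^ m = 0)).filter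
          (fun x => (fun k => x k ^ m) = u)
          = Fintype.piFinset (fun k => univ.filter (fun x : F => x ^ m = u k)) := by
        ext x
        simp only [mem_filter, mem_univ, true_and, Fintype.mem_piFinset]
        constructor
        · rintro ⟨_, h⟩ k
          exact congrFun h k
        · intro h
          refine ⟨?_, funext h⟩
          rw [← hu.2]
          exact sum_congr rfl (fun k _ => by rw [h k])
      rw [h1, Fintype.card_piFinset, Nat.cast_prod]
      exact prod_congr rfl (fun k _ => PTC_count m χ hχ (u k))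
    · intro x hx
      simp only [coe_filter, mem_univ, true_and, Set.mem_ofPred_eq] at hx ⊢
      exact hx
  rw [hN]
  have h2 : ∀ u : Fin (n + 2) → F, ∏ k, ∑ a : ZMod m, PTC_w χ a (u k)
      = ∑ a : Fin (n + 2) → ZMod m, ∏ k, PTC_w χ (a k) (u k) := by
    intro u
    have h5 := Finset.prod_univ_sum (fun _ : Fin (n + 2) => (univ : Finset (ZMod m)))
      (fun k a => PTC_w χ a (u k))
    rw [Fintype.piFinset_univ] at h5
    exact h5
  rw [sum_congr rfl (fun u _ => h2 u), sum_comm]
  have h3 : ∀ a : Fin (n + 2) → ZMod m,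
      ∑ u ∈ (univ : Finset (Fin (n + 2) → F)).filter (fun u => ∑ k, (c k : F) * u k = 0),
        ∏ k, PTC_w χ (a k) (u k)
      = (if a = 0 then (Fintype.card F : ℂ) ^ (n + 1) else 0)
        + (if (∀ k, a k ≠ 0) ∧ ∑ k, a k = 0 then
            (∏ k, (χ ^ (a k).val)⁻¹ (c k : F)) * Jac χ a else 0) := by
    intro a
    by_cases ha : ∀ k, a k ≠ 0
    · rw [PTC_subst m (n + 2) χ c a ha]
      have h4 : a ≠ 0 := by
        rintro rfl
        exact ha 0 rfl
      rw [if_neg h4, zero_add]
      by_cases hs : ∑ k, a k = 0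
      · rw [if_pos ⟨ha, hs⟩]
      · rw [if_neg (fun h => hs h.2), PTC_jac_zero m (n + 2) χ hχ a hs, mul_zero]
    · rw [if_neg (fun h : (∀ k, a k ≠ 0) ∧ ∑ k, a k = 0 => ha h.1), add_zero]
      push Not at ha
      obtain ⟨k0, hk0⟩ := ha
      rw [PTC_free m n χ hχ c a k0 hk0]
      by_cases h0 : a = 0
      · rw [if_pos h0]
        subst h0
        simp
      · rw [if_neg h0]
        have h5 : ∃ j, a (k0.succAbove j) ≠ 0 := by
          by_contra hcon
          push Not at hcon
          apply h0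
          funext k
          by_cases hk : k = k0
          · rw [hk, hk0]; rfl
          · obtain ⟨j, hj⟩ := Fin.exists_succAbove_eq hk
            rw [← hj, hcon j]; rfl
        obtain ⟨j, hj⟩ := h5
        exact prod_eq_zero (mem_univ j) (if_neg hj)
  rw [sum_congr rfl (fun a _ => h3 a), sum_add_distrib, sum_ite_eq' univ]
  rw [if_pos (mem_univ _)]
  congr 1
  rw [← sum_filter]
  exact sum_subtype _ (fun a => by simp) _

end Pool.FT
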