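import Pool.Agent.Work.MP_223b32_ft.Interface3

/-!
# Block PTN: the number of points above a closed point
-/

namespace Pool.FT

open Finset Polynomial

/-- points above `v` and homomorphisms of the residue field -/
noncomputable def PTN_equiv {F E : Type} [Field F] [Fintype F] [Field E] [Fintype E] [Algebra F E]
    (r : ℕ) (v : MaximalSpectrum (MvPolynomial (Fin r) F)) :
    {x : Fin r → E // pt (F := F) x = v} ≃ (kap v →ₐ[F] E) where
  toFun x := Ideal.Quotient.liftₐ v.asIdeal (MvPolynomial.aeval x.1) (by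
    intro a ha
    have h : (pt (F := F) x.1).asIdeal = v.asIdeal := by rw [x.2]
    rw [← h] at ha
    exact ha)
  invFun φ := ⟨fun i => φ (Ideal.Quotient.mk v.asIdeal (MvPolynomial.X i)), by
    have h1 : (MvPolynomial.aeval (fun i => φ (Ideal.Quotient.mk v.asIdeal (MvPolynomial.X i))) :
        MvPolynomial (Fin r) F →ₐ[F] E) = φ.comp (Ideal.Quotient.mkₐ F v.asIdeal) := by
      apply MvPolynomial.algHom_ext
      intro i
      simp
    ext a
    change a ∈ RingHom.ker (MvPolynomial.aeval
      (fun i => φ (Ideal.Quotient.mk v.asIdeal (MvPolynomial.X i))) :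
        MvPolynomial (Fin r) F →ₐ[F] E).toRingHom ↔ a ∈ v.asIdeal
    rw [RingHom.mem_ker]
    change (MvPolynomial.aeval
      (fun i => φ (Ideal.Quotient.mk v.asIdeal (MvPolynomial.X i))) :
        MvPolynomial (Fin r) F →ₐ[F] E) a = 0 ↔ a ∈ v.asIdeal
    rw [h1]
    change φ (Ideal.Quotient.mk v.asIdeal a) = 0 ↔ a ∈ v.asIdeal
    rw [map_eq_zero_iff φ (RingHom.injective φ.toRingHom), Ideal.Quotient.eq_zero_iff_mem]⟩
  left_inv x := by
    ext i
    change (Ideal.Quotient.liftₐ v.asIdeal (MvPolynomial.aeval x.1) _)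
      (Ideal.Quotient.mk v.asIdeal (MvPolynomial.X i)) = x.1 i
    simp
  right_inv φ := by
    apply Ideal.Quotient.algHom_ext
    apply MvPolynomial.algHom_ext
    intro i
    simp

theorem p_PTN : Stmt_PTN := by
  intro F E _ _ _ _ _ r v
  rw [Nat.card_congr (PTN_equiv r v)]
  unfold pdeg
  split_ifs with h
  · exact FiniteField.natCard_algHom_of_finrank_dvd h
  · rw [Nat.card_eq_zero]
    left
    rw [← not_nonempty_iff]
    exact fun h' => h (FiniteField.nonempty_algHom_iff_finrank_dvd.1 h')

end Pool.FT
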