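import Pool.Agent.Work.MP_223b32_ft.Interface3

/-!
# THEOREM FT, block PTS
-/

set_option autoImplicit false

namespace Pool.FT

open Finset Polynomial

theorem p_PTS (hPTN : Stmt_PTN) (hPLD : Stmt_PLD) : Stmt_PTS := by
  classical
  intro F E _ _ _ _ _ r g
  obtain ⟨hpos, hfin⟩ := hPLD F r
  have hn : 0 < Module.finrank F E := Module.finrank_pos
  set n := Module.finrank F E with hndef
  let T : ℕ → Finset (MaximalSpectrum (MvPolynomial (Fin r) F)) := fun d => (hfin d).1.toFinset
  have hT : ∀ d v, v ∈ T d ↔ pdeg v = d := by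
    intro d v
    simp [T]
  have hdiv : ∀ x : Fin r → E, pdeg (pt (F := F) x) ∣ n := by
    intro x
    by_contra hx
    have h1 := hPTN F E r (pt (F := F) x)
    rw [if_neg hx] at h1
    have h2 : Finite {y : Fin r → E // pt (F := F) y = pt (F := F) x} := inferInstance
    rw [Nat.card_eq_zero] at h1
    rcases h1 with h1 | h1
    · exact h1.elim ⟨x, rfl⟩
    · exact h1.not_finite h2
  set U := n.divisors.biUnion T with hU
  have hmem : ∀ x : Fin r → E, x ∈ (Finset.univ : Finset (Fin r → E)) → pt (F := F) x ∈ U := by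
    intro x _
    rw [hU, Finset.mem_biUnion]
    exact ⟨_, Nat.mem_divisors.2 ⟨hdiv x, hn.ne'⟩, (hT _ _).2 rfl⟩
  rw [← Finset.sum_fiberwise_of_maps_to hmem]
  rw [hU, Finset.sum_biUnion]
  · unfold SV
    refine Finset.sum_congr rfl ?_
    intro d hd
    have hdn : d ∣ n := (Nat.mem_divisors.1 hd).1
    have e1 : ∑ᶠ v : {v : MaximalSpectrum (MvPolynomial (Fin r) F) // pdeg v = d}, g v.1 ^ (n / d)
        = ∑ v ∈ T d, g v ^ (n / d) := by
      have e0 := finsum_set_coe_eq_finsum_mem
        (s := {v : MaximalSpectrum (MvPolynomial (Fin r) F) | pdeg v = d}) (f := fun v => g v ^ (n / d))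
      refine Eq.trans e0 ?_
      rw [← finsum_mem_coe_finset]
      refine finsum_mem_congr ?_ (fun _ _ => rfl)
      ext v
      simp [hT]
    rw [e1, Finset.mul_sum]
    refine Finset.sum_congr rfl ?_
    intro v hv
    have hvd : pdeg v = d := (hT d v).1 hv
    have e2 : ∀ x ∈ Finset.univ.filter (fun x : Fin r → E => pt (F := F) x = v),
        g (pt (F := F) x) ^ (n / pdeg (pt (F := F) x)) = g v ^ (n / d) := by
      intro x hx
      rw [(Finset.mem_filter.1 hx).2, hvd]
    rw [Finset.sum_congr rfl e2, Finset.sum_const, nsmul_eq_mul]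
    congr 1
    have h1 := hPTN F E r v
    rw [hvd, if_pos hdn, Nat.card_eq_fintype_card, Fintype.card_subtype] at h1
    exact_mod_cast h1
  · intro a _ b _ hab
    rw [Function.onFun, Finset.disjoint_left]
    intro v h1 h2
    exact hab (((hT a v).1 h1).symm.trans ((hT b v).1 h2))

end Pool.FT
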