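import Pool.Agent.Work.MP_223b32_ft.Interface

/-! # Block PTX: numbers of points over all finite extensions (helper71) -/

namespace Pool.FT

open Finset

/-- The character `χ ∘ N` of an extension field. -/
noncomputable def PTX_nc {F : Type} (E : Type) [Field F] [Fintype F] [Field E] [Fintype E]
    [Algebra F E] (χ : MulChar F ℂ) : MulChar E ℂ where
  toFun x := χ (Algebra.norm F x)
  map_one' := by rw [map_one, map_one]
  map_mul' x y := by rw [map_mul, map_mul]
  map_nonunit' a ha := by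
    have h : a = 0 := by rwa [isUnit_iff_ne_zero, not_not] at ha
    rw [h, Algebra.norm_zero]
    exact MulChar.map_zero χ

theorem PTX_nc_apply {F : Type} (E : Type) [Field F] [Fintype F] [Field E] [Fintype E]
    [Algebra F E] (χ : MulChar F ℂ) (x : E) : PTX_nc E χ x = χ (Algebra.norm F x) := rfl

theorem PTX_nc_pow {F : Type} (E : Type) [Field F] [Fintype F] [Field E] [Fintype E]
    [Algebra F E] (χ : MulChar F ℂ) (k : ℕ) : PTX_nc E (χ ^ k) = (PTX_nc E χ) ^ k := by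
  ext x
  rw [MulChar.pow_apply_coe, PTX_nc_apply, PTX_nc_apply]
  exact MulChar.pow_apply_coe χ k (Units.map (Algebra.norm F) x)

theorem PTX_nc_one {F : Type} (E : Type) [Field F] [Fintype F] [Field E] [Fintype E]
    [Algebra F E] (χ : MulChar F ℂ) : PTX_nc E χ = 1 ↔ χ = 1 := by
  constructor
  · intro h
    ext u
    obtain ⟨x, hx⟩ := FiniteField.unitsMap_norm_surjective F E u
    have h1 : PTX_nc E χ (x : E) = 1 := by rw [h, MulChar.one_apply_coe]
    rw [PTX_nc_apply] at h1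
    rw [MulChar.one_apply_coe, ← hx]
    exact h1
  · rintro rfl
    ext x
    rw [MulChar.one_apply_coe, PTX_nc_apply]
    exact MulChar.one_apply_coe (Units.map (Algebra.norm F) x)

theorem PTX_order {F : Type} (E : Type) [Field F] [Fintype F] [Field E] [Fintype E]
    [Algebra F E] (χ : MulChar F ℂ) : orderOf (PTX_nc E χ) = orderOf χ := by
  rw [orderOf_eq_orderOf_iff]
  intro k
  rw [← PTX_nc_pow, PTX_nc_one]

theorem PTX_sign (n r : ℕ) : ((-1 : ℂ) ^ (r - 1)) ^ (n + 2) = (-1) ^ (n * (r - 1)) := by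
  rw [← pow_mul]
  have h : (r - 1) * (n + 2) = n * (r - 1) + 2 * (r - 1) := by ring
  rw [h, pow_add, pow_mul (-1 : ℂ) 2 (r - 1)]
  norm_num

theorem PTX_sign2 (n r : ℕ) (hr : 0 < r) :
    (-1 : ℂ) ^ n * ((-1) ^ n) ^ r = (-1) ^ (n * (r - 1)) := by
  obtain ⟨s, rfl⟩ : ∃ s, r = s + 1 := ⟨r - 1, by omega⟩
  rw [← pow_mul, ← pow_add]
  have h : n + n * (s + 1) = n * (s + 1 - 1) + 2 * n := by
    rw [Nat.add_sub_cancel]
    ring
  rw [h, pow_add, pow_mul (-1 : ℂ) 2 n]
  norm_num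

open Classical in
theorem PTX_jac (hGJA : Stmt_GJA) (hHDV : Stmt_HDV) (F E : Type) [Field F] [Fintype F]
    [Field E] [Fintype E] [Algebra F E] (m n : ℕ) [NeZero m] (χ : MulChar F ℂ)
    (hχ : orderOf χ = m) (a : Prim m n) :
    Jac (PTX_nc E χ) a.1 = ((Fintype.card E : ℂ) - 1) *
      (-1) ^ (n * (Module.finrank F E - 1)) *
      (Jac χ a.1 / ((Fintype.card F : ℂ) - 1)) ^ (Module.finrank F E) := by
  obtain ⟨ψ, hψ1⟩ := (AddChar.exists_apply_ne_zero (α := F) (a := 1)).2 one_ne_zero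
  have hψ : ψ ≠ 1 := by
    rintro rfl
    exact hψ1 rfl
  obtain ⟨ψE, hψE⟩ : ∃ ψE : AddChar E ℂ, ∀ x, ψE x = ψ (Algebra.trace F E x) :=
    ⟨ψ.compAddMonoidHom (Algebra.trace F E).toAddMonoidHom, fun x => rfl⟩
  have hψE1 : ψE ≠ 1 := by
    intro h
    apply hψ
    ext u
    obtain ⟨x, hx⟩ := Algebra.trace_surjective F E u
    rw [← hx, ← hψE, h]
    rfl
  have hq1 : 1 < Fintype.card F := Fintype.one_lt_card
  have hq0 : (Fintype.card F : ℂ) ≠ 0 := by
    exact_mod_cast (by omega : Fintype.card F ≠ 0)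
  have hq2 : (Fintype.card F : ℂ) - 1 ≠ 0 := by
    rw [sub_ne_zero]
    exact_mod_cast (by omega : Fintype.card F ≠ 1)
  have hQ : (Fintype.card E : ℂ) = (Fintype.card F : ℂ) ^ (Module.finrank F E) := by
    rw [Module.card_eq_pow_finrank (K := F) (V := E), Nat.cast_pow]
  have hQ0 : (Fintype.card E : ℂ) ≠ 0 := by
    rw [hQ]
    exact pow_ne_zero _ hq0
  have h1 := hGJA F ℂ ψ hψ m χ hχ (n + 2) a.1 (by omega) a.2.1 a.2.2
  have h2 := hGJA E ℂ ψE hψE1 m (PTX_nc E χ) ((PTX_order E χ).trans hχ) (n + 2) a.1 (by omega)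
    a.2.1 a.2.2
  have h3 : ∀ k, gaussSum ((PTX_nc E χ) ^ (a.1 k).val) ψE =
      (-1) ^ (Module.finrank F E - 1) *
        (gaussSum (χ ^ (a.1 k).val) ψ) ^ (Module.finrank F E) := by
    intro k
    have hk : χ ^ (a.1 k).val ≠ 1 := by
      apply pow_ne_one_of_lt_orderOf
      · rw [Ne, ZMod.val_eq_zero]
        exact a.2.1 k
      · rw [hχ]
        exact ZMod.val_lt _
    rw [← hHDV F E (χ ^ (a.1 k).val) ψ hk, ← PTX_nc_pow]
    unfold gaussSum
    refine Finset.sum_congr rfl fun x _ => ?_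
    rw [PTX_nc_apply, hψE]
  have h4 : ∏ k, gaussSum (χ ^ (a.1 k).val) ψ =
      (Fintype.card F : ℂ) * (Jac χ a.1 / ((Fintype.card F : ℂ) - 1)) := by
    field_simp
    rw [mul_comm]
    exact h1.symm
  rw [Finset.prod_congr rfl fun k _ => h3 k, Finset.prod_mul_distrib, Finset.prod_const,
    Finset.card_univ, Fintype.card_fin, Finset.prod_pow, h4, PTX_sign, mul_pow, ← hQ] at h2
  have h5 : (Fintype.card E : ℂ) * Jac (PTX_nc E χ) a.1 = (Fintype.card E : ℂ) *
      (((Fintype.card E : ℂ) - 1) * (-1) ^ (n * (Module.finrank F E - 1)) *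
      (Jac χ a.1 / ((Fintype.card F : ℂ) - 1)) ^ (Module.finrank F E)) := by
    rw [h2]
    ring
  exact mul_left_cancel₀ hQ0 h5

open Classical in
theorem p_PTX (hPTC : Stmt_PTC) (hGJA : Stmt_GJA) (hHDV : Stmt_HDV) : Stmt_PTX := by
  intro F E _ _ _ _ _ m n _ χ hχ c
  have h1 := hPTC E m n (PTX_nc E χ) ((PTX_order E χ).trans hχ)
    (fun k => Units.map (algebraMap F E : F →* E) (c k))
  have hr : 0 < Module.finrank F E := Module.finrank_pos
  have hQ : (Fintype.card E : ℂ) = (Fintype.card F : ℂ) ^ (Module.finrank F E) := by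
    rw [Module.card_eq_pow_finrank (K := F) (V := E), Nat.cast_pow]
  have h2 : ∀ a : Prim m n, (∏ k, ((PTX_nc E χ) ^ (a.1 k).val)⁻¹
      ((Units.map (algebraMap F E : F →* E) (c k) : Eˣ) : E)) * Jac (PTX_nc E χ) a.1 =
      ((Fintype.card E : ℂ) - 1) *
        ((-1) ^ (degC (Sum.inr a : Cls m n)) * (lam χ c (Sum.inr a : Cls m n)) ^ (Module.finrank F E)) := by
    intro a
    have h3 : ∀ k, ((PTX_nc E χ) ^ (a.1 k).val)⁻¹
        ((Units.map (algebraMap F E : F →* E) (c k) : Eˣ) : E) =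
        ((χ ^ (a.1 k).val)⁻¹ (c k : F)) ^ (Module.finrank F E) := by
      intro k
      rw [← PTX_nc_pow]
      have h4 : PTX_nc E (χ ^ (a.1 k).val)
          ((Units.map (algebraMap F E : F →* E) (c k) : Eˣ) : E) =
          ((χ ^ (a.1 k).val) (c k : F)) ^ (Module.finrank F E) := by
        rw [PTX_nc_apply, Units.coe_map]
        show (χ ^ (a.1 k).val) (Algebra.norm F (algebraMap F E (c k : F))) = _
        rw [Algebra.norm_algebraMap, map_pow]
      rw [MulChar.inv_apply_eq_inv', MulChar.inv_apply_eq_inv', h4, inv_pow]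
    rw [Finset.prod_congr rfl fun k _ => h3 k, Finset.prod_pow,
      PTX_jac hGJA hHDV F E m n χ hχ a, ← PTX_sign2 n _ hr]
    show _ = ((Fintype.card E : ℂ) - 1) * ((-1) ^ n *
      ((-1) ^ n * (∏ k, (χ ^ (a.1 k).val)⁻¹ (c k : F)) *
        (Jac χ a.1 / ((Fintype.card F : ℂ) - 1))) ^ (Module.finrank F E))
    rw [mul_pow, mul_pow]
    ring
  have h5 : (Fintype.card E : ℂ) ^ (n + 1) = 1 + ((Fintype.card E : ℂ) - 1) *
      ∑ r : Fin (n + 1), (-1) ^ (degC (Sum.inl r : Cls m n)) *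
        (lam χ c (Sum.inl r : Cls m n)) ^ (Module.finrank F E) := by
    have h6 : ∀ r : Fin (n + 1), (-1 : ℂ) ^ (degC (Sum.inl r : Cls m n)) *
        (lam χ c (Sum.inl r : Cls m n)) ^ (Module.finrank F E) = (Fintype.card E : ℂ) ^ (r : ℕ) := by
      intro r
      show (-1 : ℂ) ^ (2 * (r : ℕ)) *
        ((Fintype.card F : ℂ) ^ (r : ℕ)) ^ (Module.finrank F E) = _
      have e1 : (-1 : ℂ) ^ (2 * (r : ℕ)) = 1 := by
        rw [pow_mul]
        norm_num
      rw [e1, one_mul, hQ, ← pow_mul, ← pow_mul, mul_comm]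
    rw [Finset.sum_congr rfl fun r _ => h6 r,
      Fin.sum_univ_eq_sum_range (fun i => (Fintype.card E : ℂ) ^ i) (n + 1), mul_geom_sum]
    ring
  rw [Fintype.sum_sum_type, mul_add, ← add_assoc, ← h5]
  have h7 : (Fintype.card {x : Fin (n + 2) → E //
      ∑ k, algebraMap F E (c k : F) * x k ^ m = 0} : ℂ) =
      (Fintype.card E : ℂ) ^ (n + 1) + ∑ a : Prim m n, (∏ k, ((PTX_nc E χ) ^ (a.1 k).val)⁻¹
        ((Units.map (algebraMap F E : F →* E) (c k) : Eˣ) : E)) * Jac (PTX_nc E χ) a.1 := h1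
  rw [h7, Finset.mul_sum]
  congr 1
  exact Finset.sum_congr rfl fun a _ => h2 a

end Pool.FT
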