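import Pool.Agent.Work.MP_223b32_ft.Interface

/-!
Block RED: the expansion of a character on the units (or twice the units).
-/

namespace Pool.FT

open Finset

theorem RED_exch {m : ℕ} [NeZero m] {Q : Type} [AddCommGroup Q] (N : ZMod m → (ZMod m)ˣ → ℤ)
    (G : (ZMod m)ˣ → Q) (a : Multiset (ZMod m)) :
    ∑ g : (ZMod m)ˣ, (a.map (fun x => N x g)).sum • G g =
      (a.map (fun x => ∑ g : (ZMod m)ˣ, N x g • G g)).sum := by
  induction a using Multiset.induction_on with
  | empty => simp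
  | cons x a ih =>
    simp only [Multiset.map_cons, Multiset.sum_cons, add_smul, sum_add_distrib]
    rw [ih]

theorem RED_exch2 {m : ℕ} [NeZero m] (N : ZMod m → (ZMod m)ˣ → ℤ)
    (G : (ZMod m)ˣ → ℤ) (a : Multiset (ZMod m)) :
    ∑ g : (ZMod m)ˣ, (a.map (fun x => N x g)).sum * G g =
      (a.map (fun x => ∑ g : (ZMod m)ˣ, N x g * G g)).sum := by
  induction a using Multiset.induction_on with
  | empty => simp
  | cons x a ih =>
    simp only [Multiset.map_cons, Multiset.sum_cons, add_mul, sum_add_distrib]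
    rw [ih]

theorem RED_count {m : ℕ} {Q : Type} [AddCommGroup Q] (P : ZMod m → Prop) [DecidablePred P]
    (F : ZMod m → Q) (κ : Q) (a : Multiset (ZMod m)) :
    (a.map (fun x => F x + (if P x then κ else 0))).sum = (a.map F).sum + a.countP P • κ := by
  induction a using Multiset.induction_on with
  | empty => simp
  | cons x a ih =>
    rw [Multiset.map_cons, Multiset.sum_cons, Multiset.map_cons, Multiset.sum_cons, ih]
    by_cases h : P x
    · rw [if_pos h, Multiset.countP_cons_of_pos _ h, add_smul, one_smul]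
      abel
    · rw [if_neg h, Multiset.countP_cons_of_neg _ h]
      abel

theorem RED_comb (m : ℕ) [NeZero m] (P : ZMod m → Prop) [DecidablePred P] (u : ZMod m)
    (hu : GoodU m u)
    (h : ∀ x : ZMod m, x ≠ 0 → ∃ n : (ZMod m)ˣ → ℤ,
      (∑ g : (ZMod m)ˣ, n g • ((g : ZMod m) * u)
        = x + (if P x then ((m / 2 : ℕ) : ZMod m) else 0)) ∧
      (∀ t : (ZMod m)ˣ, Bern m ((t : ZMod m) * x)
        = ∑ g : (ZMod m)ˣ, n g * Bern m ((t : ZMod m) * ((g : ZMod m) * u))) ∧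
      (∀ (p : ℕ) (Alg : Multiset (ZMod m) → Prop), FermatCycles m p Alg →
        ∀ (Q : Type) [AddCommGroup Q] (e : ZMod m → Q), Kills Alg e →
          e x = ∑ g : (ZMod m)ˣ, n g • e ((g : ZMod m) * u)
            + (if P x then e ((m / 2 : ℕ) : ZMod m) else 0)))
    (a : Multiset (ZMod m)) (ha : Chr m a)
    (hc : a.countP P • ((m / 2 : ℕ) : ZMod m) = 0)
    (hc2 : ∀ (p : ℕ) (Alg : Multiset (ZMod m) → Prop), FermatCycles m p Alg →
        ∀ (Q : Type) [AddCommGroup Q] (e : ZMod m → Q), Kills Alg e →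
        a.countP P • e ((m / 2 : ℕ) : ZMod m) = 0) :
    ∃ (u : ZMod m) (n : (ZMod m)ˣ → ℤ), GoodU m u ∧
      (∑ g : (ZMod m)ˣ, n g • ((g : ZMod m) * u) = 0) ∧
      (∀ t : (ZMod m)ˣ, (a.map (fun x => Bern m ((t : ZMod m) * x))).sum
        = ∑ g : (ZMod m)ˣ, n g * Bern m ((t : ZMod m) * ((g : ZMod m) * u))) ∧
      (∀ (p : ℕ) (Alg : Multiset (ZMod m) → Prop), FermatCycles m p Alg →
        ∀ (Q : Type) [AddCommGroup Q] (e : ZMod m → Q), Kills Alg e →
          (a.map e).sum = ∑ g : (ZMod m)ˣ, n g • e ((g : ZMod m) * u)) := by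
  have h' : ∀ x : ZMod m, ∃ n : (ZMod m)ˣ → ℤ, x ≠ 0 →
      (∑ g : (ZMod m)ˣ, n g • ((g : ZMod m) * u)
        = x + (if P x then ((m / 2 : ℕ) : ZMod m) else 0)) ∧
      (∀ t : (ZMod m)ˣ, Bern m ((t : ZMod m) * x)
        = ∑ g : (ZMod m)ˣ, n g * Bern m ((t : ZMod m) * ((g : ZMod m) * u))) ∧
      (∀ (p : ℕ) (Alg : Multiset (ZMod m) → Prop), FermatCycles m p Alg →
        ∀ (Q : Type) [AddCommGroup Q] (e : ZMod m → Q), Kills Alg e →
          e x = ∑ g : (ZMod m)ˣ, n g • e ((g : ZMod m) * u)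
            + (if P x then e ((m / 2 : ℕ) : ZMod m) else 0)) := by
    intro x
    by_cases hx : x = 0
    · exact ⟨0, fun h0 => absurd hx h0⟩
    · obtain ⟨n, hn⟩ := h x hx
      exact ⟨n, fun _ => hn⟩
  choose N hN using h'
  obtain ⟨-, ha0, has, -⟩ := ha
  have hne : ∀ x ∈ a, x ≠ 0 := by
    intro x hx h0
    rw [h0] at hx
    exact ha0 hx
  refine ⟨u, fun g => (a.map (fun x => N x g)).sum, hu, ?_, ?_, ?_⟩
  · rw [RED_exch N (fun g : (ZMod m)ˣ => (g : ZMod m) * u) a,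
      Multiset.map_congr rfl (fun x hx => (hN x (hne x hx)).1), RED_count P (fun x => x),
      Multiset.map_id', has, hc, add_zero]
  · intro t
    rw [RED_exch2 N (fun g : (ZMod m)ˣ => Bern m ((t : ZMod m) * ((g : ZMod m) * u))) a,
      Multiset.map_congr rfl (fun x hx => (hN x (hne x hx)).2.1 t)]
  · intro p Alg hA Q _ e he
    have h1 := RED_exch N (fun g : (ZMod m)ˣ => e ((g : ZMod m) * u)) a
    have h2 : (a.map e).sum = (a.map (fun x => ∑ g : (ZMod m)ˣ, N x g • e ((g : ZMod m) * u)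
        + (if P x then e ((m / 2 : ℕ) : ZMod m) else 0))).sum := by
      rw [Multiset.map_congr rfl (fun x hx => (hN x (hne x hx)).2.2 p Alg hA Q e he)]
    rw [h2, RED_count P (fun x => ∑ g : (ZMod m)ˣ, N x g • e ((g : ZMod m) * u)),
      hc2 p Alg hA Q e he, add_zero, h1]

theorem RED_parity (m : ℕ) [NeZero m] (hm : 2 ∣ m) (a : Multiset (ZMod m)) (ha : a.sum = 0) :
    Even (a.countP (fun x : ZMod m => Odd x.val)) := by
  have h1 : ∀ x : ZMod m, ZMod.castHom hm (ZMod 2) x = if Odd x.val then 1 else 0 := by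
    intro x
    rw [ZMod.castHom_apply, ← ZMod.natCast_val]
    by_cases h : Odd x.val
    · rw [if_pos h, ZMod.natCast_eq_one_iff_odd.mpr h]
    · rw [if_neg h, ZMod.natCast_eq_zero_iff_even]
      exact Nat.not_odd_iff_even.mp h
  have h2 : ((a.countP (fun x : ZMod m => Odd x.val) : ℕ) : ZMod 2) = 0 := by
    have h3 := RED_count (Q := ZMod 2) (fun x : ZMod m => Odd x.val) (fun _ => 0) 1 a
    have h4 : (a.map (fun x => (0 : ZMod 2) + (if Odd x.val then 1 else 0))).sum = 0 := by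
      have h5 : (fun x : ZMod m => (0 : ZMod 2) + (if Odd x.val then 1 else 0)) =
          ZMod.castHom hm (ZMod 2) := by
        funext x
        rw [zero_add, h1]
      rw [h5, ← map_multiset_sum, ha, map_zero]
    rw [h4] at h3
    simpa using h3.symm
  exact ZMod.natCast_eq_zero_iff_even.mp h2

theorem RED_half (m : ℕ) [NeZero m] (hm : 2 ∣ m) (hm3 : 3 ≤ m) :
    ((m / 2 : ℕ) : ZMod m) + ((m / 2 : ℕ) : ZMod m) = 0 ∧ ((m / 2 : ℕ) : ZMod m) ≠ 0 := by
  constructor
  · rw [← Nat.cast_add]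
    have : m / 2 + m / 2 = m := by omega
    rw [this, ZMod.natCast_self]
  · intro h
    rw [ZMod.natCast_eq_zero_iff] at h
    have := Nat.le_of_dvd (by omega) h
    omega

theorem RED_even (m : ℕ) [NeZero m] (hm : 2 ∣ m) (hm3 : 3 ≤ m) (c : ℕ) (hc : Even c) :
    c • ((m / 2 : ℕ) : ZMod m) = 0 ∧
    (∀ (p : ℕ) (Alg : Multiset (ZMod m) → Prop), FermatCycles m p Alg →
        ∀ (Q : Type) [AddCommGroup Q] (e : ZMod m → Q), Kills Alg e →
        c • e ((m / 2 : ℕ) : ZMod m) = 0) := by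
  obtain ⟨h1, h2⟩ := RED_half m hm hm3
  obtain ⟨k, rfl⟩ := hc
  constructor
  · rw [add_smul, ← smul_add, h1, smul_zero]
  · intro p Alg hA Q _ e he
    have h := he.kill _ (hA.pair _ h2)
    have h3 : -((m / 2 : ℕ) : ZMod m) = ((m / 2 : ℕ) : ZMod m) := neg_eq_of_add_eq_zero_right h1
    rw [h3] at h
    simp only [Multiset.insert_eq_cons, Multiset.map_cons, Multiset.map_singleton,
      Multiset.sum_cons, Multiset.sum_singleton] at h
    rw [add_smul, ← smul_add, h, smul_zero]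

theorem RED_unit (m k : ℕ) [NeZero m] (hk : 0 < k) (hm : m = 2 ^ k) (x : ZMod m) :
    IsUnit x ↔ Odd x.val := by
  have h1 : IsUnit x ↔ IsUnit ((x.val : ℕ) : ZMod m) := by rw [ZMod.natCast_zmod_val]
  have h2 : Nat.Coprime x.val m ↔ Nat.Coprime x.val (2 ^ k) := by rw [← hm]
  rw [h1, ZMod.isUnit_iff_coprime, h2, Nat.coprime_pow_right_iff hk, Nat.coprime_two_right]

theorem RED_pow (h1 : Stmt_RXP) (m l k : ℕ) [NeZero m] (hl : l.Prime) (hk : 0 < k)
    (hm : m = l ^ k) (hm3 : 3 ≤ m) (a : Multiset (ZMod m)) (ha : Chr m a) :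
    ∃ (u : ZMod m) (n : (ZMod m)ˣ → ℤ), GoodU m u ∧
      (∑ g : (ZMod m)ˣ, n g • ((g : ZMod m) * u) = 0) ∧
      (∀ t : (ZMod m)ˣ, (a.map (fun x => Bern m ((t : ZMod m) * x))).sum
        = ∑ g : (ZMod m)ˣ, n g * Bern m ((t : ZMod m) * ((g : ZMod m) * u))) ∧
      (∀ (p : ℕ) (Alg : Multiset (ZMod m) → Prop), FermatCycles m p Alg →
        ∀ (Q : Type) [AddCommGroup Q] (e : ZMod m → Q), Kills Alg e →
          (a.map e).sum = ∑ g : (ZMod m)ˣ, n g • e ((g : ZMod m) * u)) := by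
  classical
  have hcount : (a.countP (fun x => l = 2 ∧ ¬ IsUnit x) • ((m / 2 : ℕ) : ZMod m) = 0) ∧
    (∀ (p : ℕ) (Alg : Multiset (ZMod m) → Prop), FermatCycles m p Alg →
        ∀ (Q : Type) [AddCommGroup Q] (e : ZMod m → Q), Kills Alg e →
        a.countP (fun x => l = 2 ∧ ¬ IsUnit x) • e ((m / 2 : ℕ) : ZMod m) = 0) := by
    by_cases h2 : l = 2
    · subst h2
      have h2m : 2 ∣ m := by
        rw [hm]
        exact dvd_pow_self 2 hk.ne'
      apply RED_even m h2m hm3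
      have e1 := RED_parity m h2m a ha.2.2.1
      have e2 : a.countP (fun x => 2 = 2 ∧ ¬ IsUnit x) =
          a.countP (fun x : ZMod m => ¬ Odd x.val) := by
        refine Multiset.countP_congr rfl fun x _ => ?_
        rw [RED_unit m k hk hm x]
        simp
      rw [e2]
      have e3 := Multiset.card_eq_countP_add_countP (fun x : ZMod m => Odd x.val) a
      have e4 := ha.2.2.2
      rw [e3, Nat.even_add] at e4
      exact e4.mp e1
    · have e0 : a.countP (fun x => l = 2 ∧ ¬ IsUnit x) = 0 := by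
        rw [Multiset.countP_eq_zero]
        intro x _ h
        exact h2 h.1
      rw [e0]
      exact ⟨zero_smul _ _, fun p Alg _ Q _ e _ => zero_smul _ _⟩
  refine RED_comb m (fun x => l = 2 ∧ ¬ IsUnit x) 1 (Or.inl ⟨l, k, hl, hk, hm, rfl⟩) ?_ a ha
    hcount.1 hcount.2
  intro x hx
  obtain ⟨n, hn1, hn2, hn3⟩ := h1 m l k hl hk hm x hx
  refine ⟨n, ?_, ?_, ?_⟩
  · simp only [mul_one]
    rw [hn1]
  · intro t
    simp only [mul_one]
    exact hn2 t
  · intro p Alg hA Q _ e he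
    simp only [mul_one]
    rw [hn3 p Alg hA Q e he]

theorem p_RED (h1 : Stmt_RXP) (h2 : Stmt_RXT) : Stmt_RED := by
  intro m _ hm a ha
  obtain ⟨hm3, l, k, hl, hk, hm' | hm'⟩ := hm
  · exact RED_pow h1 m l k hl hk hm' hm3 a ha
  · by_cases hl2 : l = 2
    · subst hl2
      refine RED_pow h1 m 2 (k + 1) hl (Nat.succ_pos k) ?_ hm3 a ha
      rw [hm', pow_succ, mul_comm]
    · have hlo : Odd l := hl.odd_of_ne_two hl2
      have h2m : 2 ∣ m := by
        rw [hm']
        exact dvd_mul_right 2 _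
      have hev := RED_even m h2m hm3 _ (RED_parity m h2m a ha.2.2.1)
      exact RED_comb m (fun x => Odd x.val) 2 (Or.inr ⟨l, k, hl, hlo, hk, hm', rfl⟩)
        (fun x hx => h2 m l k hl hlo hk hm' x hx) a ha hev.1 hev.2

end Pool.FT
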