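import Pool.Agent.Work.MP_223b32_ft.Interface

/-!
Block RXP: prime powers, the expansion of one element on the units.
-/

namespace Pool.FT

open Finset

theorem RXP_unit (m l k : ℕ) [NeZero m] (hl : l.Prime) (hk : 0 < k) (hm : m = l ^ k)
    (y : ZMod m) : IsUnit y ↔ ¬ l ∣ y.val := by
  have h1 : IsUnit y ↔ IsUnit ((y.val : ℕ) : ZMod m) := by rw [ZMod.natCast_zmod_val]
  have h2 : Nat.Coprime y.val m ↔ Nat.Coprime y.val (l ^ k) := by rw [← hm]
  rw [h1, ZMod.isUnit_iff_coprime, h2, Nat.coprime_pow_right_iff hk, Nat.coprime_comm,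
    Nat.Prime.coprime_iff_not_dvd hl]

theorem RXP_fac (m l k : ℕ) [NeZero m] (hl : l.Prime) (hk : 0 < k) (hm : m = l ^ k)
    (x : ZMod m) (hx : x ≠ 0) : ∃ (j : ℕ) (g₀ : (ZMod m)ˣ), j < k ∧
      ((l ^ j : ℕ) : ZMod m) * (g₀ : ZMod m) = x ∧
      (∀ y : ZMod m, ((l ^ j : ℕ) : ZMod m) * y = x → IsUnit y) ∧ (IsUnit x ↔ j = 0) := by
  have hv : x.val ≠ 0 := by
    intro h
    exact hx ((ZMod.val_eq_zero x).mp h)
  obtain ⟨j, c, hc, hxc⟩ := Nat.exists_eq_pow_mul_and_not_dvd hv l hl.ne_one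
  have hc0 : 0 < c := by
    rcases Nat.eq_zero_or_pos c with h | h
    · exact absurd (h ▸ dvd_zero l) hc
    · exact h
  have hxlt : x.val < l ^ k := by
    have h1 := ZMod.val_lt x
    rwa [← hm]
  have hjk : j < k := by
    rw [← Nat.pow_lt_pow_iff_right hl.one_lt]
    calc l ^ j ≤ l ^ j * c := Nat.le_mul_of_pos_right _ hc0
      _ = x.val := hxc.symm
      _ < l ^ k := hxlt
  have hunit : ∀ y : ZMod m, ((l ^ j : ℕ) : ZMod m) * y = x → IsUnit y := by
    intro y hy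
    rw [RXP_unit m l k hl hk hm]
    have h1 : ((l ^ j * y.val : ℕ) : ZMod m) = ((l ^ j * c : ℕ) : ZMod m) := by
      rw [← hxc, ZMod.natCast_zmod_val, Nat.cast_mul, ZMod.natCast_zmod_val, hy]
    rw [ZMod.natCast_eq_natCast_iff] at h1
    have h2 : l ^ j * y.val ≡ l ^ j * c [MOD l ^ j * l ^ (k - j)] := by
      rw [← pow_add, Nat.add_sub_cancel' hjk.le, ← hm]
      exact h1
    have h3 : y.val ≡ c [MOD l ^ (k - j)] :=
      Nat.ModEq.mul_left_cancel' (pow_ne_zero j hl.ne_zero) h2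
    have h4 : y.val ≡ c [MOD l] :=
      h3.of_dvd (dvd_pow_self l (Nat.sub_ne_zero_of_lt hjk))
    rw [h4.dvd_iff dvd_rfl]
    exact hc
  have hcu : IsUnit ((c : ℕ) : ZMod m) := by
    apply hunit
    rw [← Nat.cast_mul, ← hxc, ZMod.natCast_zmod_val]
  obtain ⟨g₀, hg₀⟩ := hcu
  refine ⟨j, g₀, hjk, ?_, hunit, ?_⟩
  · rw [hg₀, ← Nat.cast_mul, ← hxc, ZMod.natCast_zmod_val]
  · rw [RXP_unit m l k hl hk hm x, hxc]
    constructor
    · intro h
      by_contra hj
      exact h (dvd_mul_of_dvd_left (dvd_pow_self l hj) c)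
    · rintro rfl
      rw [pow_zero, one_mul]
      exact hc

theorem RXP_sum {m : ℕ} [NeZero m] {Q : Type} [AddCommGroup Q] (d x : ZMod m)
    (hu : ∀ y : ZMod m, d * y = x → IsUnit y) (F : ZMod m → Q) :
    ∑ g : (ZMod m)ˣ, (if d * (g : ZMod m) = x then (1 : ℤ) else 0) • F (g : ZMod m) =
      ∑ y ∈ (univ : Finset (ZMod m)).filter (fun y => d * y = x), F y := by
  have h1 : ∀ g : (ZMod m)ˣ, (if d * (g : ZMod m) = x then (1 : ℤ) else 0) • F (g : ZMod m) =
      if d * (g : ZMod m) = x then F (g : ZMod m) else 0 := by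
    intro g
    split_ifs
    · rw [one_smul]
    · rw [zero_smul]
  rw [sum_congr rfl (fun g _ => h1 g), ← sum_filter]
  refine sum_bij (fun g _ => (g : ZMod m)) ?_ ?_ ?_ ?_
  · intro g hg
    rw [mem_filter] at hg ⊢
    exact ⟨mem_univ _, hg.2⟩
  · intro g _ g' _ h
    exact Units.ext h
  · intro y hy
    rw [mem_filter] at hy
    obtain ⟨g, hg⟩ := hu y hy.2
    refine ⟨g, ?_, hg⟩
    rw [mem_filter]
    refine ⟨mem_univ _, ?_⟩
    rw [hg]
    exact hy.2
  · intro g _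
    rfl

theorem RXP_shift {m : ℕ} [NeZero m] (d x x' : ZMod m) (t : (ZMod m)ˣ)
    (hx : x' = (t : ZMod m) * x) (F : ZMod m → ℤ) :
    ∑ y ∈ (univ : Finset (ZMod m)).filter (fun y => d * y = x), F ((t : ZMod m) * y) =
      ∑ y ∈ (univ : Finset (ZMod m)).filter (fun y => d * y = x'), F y := by
  refine sum_bij (fun y _ => (t : ZMod m) * y) ?_ ?_ ?_ ?_
  · intro y hy
    rw [mem_filter] at hy ⊢
    refine ⟨mem_univ _, ?_⟩
    rw [hx, ← hy.2]
    ring
  · intro y _ y' _ h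
    exact (Units.mul_right_inj t).mp h
  · intro y hy
    rw [mem_filter] at hy
    have h1 : (t : ZMod m) * ((t⁻¹ : (ZMod m)ˣ) : ZMod m) = 1 := Units.mul_inv t
    refine ⟨((t⁻¹ : (ZMod m)ˣ) : ZMod m) * y, ?_, ?_⟩
    · rw [mem_filter]
      refine ⟨mem_univ _, ?_⟩
      have h2 : d * y = (t : ZMod m) * x := by rw [hy.2, hx]
      linear_combination ((t⁻¹ : (ZMod m)ˣ) : ZMod m) * h2 + x * h1
    · linear_combination y * h1
  · intro y _
    rfl

theorem RXP_if (m l k j : ℕ) [NeZero m] (hl : l.Prime) (x : ZMod m) (hx : IsUnit x ↔ j = 0) :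
    (Odd (l ^ j) ↔ ¬ (l = 2 ∧ ¬ IsUnit x)) ∧ ((l = 2 ∧ 0 < j) ↔ (l = 2 ∧ ¬ IsUnit x)) := by
  rw [hx]
  constructor
  · rcases hl.eq_two_or_odd' with h | h
    · subst h
      constructor
      · intro ho hc
        have h2 : Even (2 ^ j) := by
          rw [Nat.even_pow]
          exact ⟨even_two, hc.2⟩
        exact (Nat.not_even_iff_odd.mpr ho) h2
      · intro hc
        have hj : j = 0 := by
          by_contra h0
          exact hc ⟨rfl, h0⟩
        rw [hj, pow_zero]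
        exact odd_one
    · constructor
      · intro _ hc
        rw [hc.1] at h
        exact absurd h (by decide)
      · intro _
        exact h.pow
  · constructor
    · rintro ⟨h1, h2⟩
      exact ⟨h1, h2.ne'⟩
    · rintro ⟨h1, h2⟩
      exact ⟨h1, Nat.pos_of_ne_zero h2⟩

theorem p_RXP (h1 : Stmt_DSB) (h2 : Stmt_EDJ) : Stmt_RXP := by
  intro m l k _ hl hk hm x hx
  obtain ⟨j, g₀, hjk, hg, hu, hx0⟩ := RXP_fac m l k hl hk hm x hx
  obtain ⟨hif1, hif2⟩ := RXP_if m l k j hl x hx0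
  have hdvd : l ^ j ∣ m := by
    rw [hm]
    exact pow_dvd_pow l hjk.le
  refine ⟨fun g => if ((l ^ j : ℕ) : ZMod m) * (g : ZMod m) = x then (1 : ℤ) else 0, ?_, ?_, ?_⟩
  · have e1 := RXP_sum ((l ^ j : ℕ) : ZMod m) x hu (fun y => y)
    dsimp only at e1 ⊢
    rw [e1]
    have e2 := (h1 m (l ^ j) hdvd (g₀ : ZMod m)).2
    rw [hg] at e2
    rw [e2]
    congr 1
    by_cases hc : Odd (l ^ j)
    · rw [if_pos hc, if_neg (hif1.mp hc)]
    · rw [if_neg hc, if_pos]
      by_contra h3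
      exact hc (hif1.mpr h3)
  · intro t
    have e1 := RXP_sum ((l ^ j : ℕ) : ZMod m) x hu (fun y => Bern m ((t : ZMod m) * y))
    dsimp only at e1 ⊢
    simp only [smul_eq_mul] at e1
    rw [e1, RXP_shift ((l ^ j : ℕ) : ZMod m) x ((t : ZMod m) * x) t rfl (Bern m)]
    have htx : ((l ^ j : ℕ) : ZMod m) * ((t : ZMod m) * (g₀ : ZMod m)) = (t : ZMod m) * x := by
      rw [← hg]
      ring
    have htx0 : (t : ZMod m) * x ≠ 0 := by
      intro h
      apply hx
      have h3 : ((t⁻¹ : (ZMod m)ˣ) : ZMod m) * (t : ZMod m) = 1 := Units.inv_mul t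
      linear_combination ((t⁻¹ : (ZMod m)ˣ) : ZMod m) * h - x * h3
    have e2 := (h1 m (l ^ j) hdvd ((t : ZMod m) * (g₀ : ZMod m))).1
    rw [htx] at e2
    exact (e2 htx0).symm
  · intro p Alg hA Q _ e he
    have e1 := RXP_sum ((l ^ j : ℕ) : ZMod m) x hu e
    dsimp only at e1 ⊢
    rw [e1]
    have e2 := h2 m p l j Alg hA hl hdvd Q e he (g₀ : ZMod m)
    rw [hg] at e2
    rw [e2 hx]
    congr 1
    by_cases hc : l = 2 ∧ 0 < j
    · rw [if_pos hc, if_pos (hif2.mp hc)]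
    · rw [if_neg hc, if_neg (fun h3 => hc (hif2.mpr h3))]

end Pool.FT
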