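import Pool.Agent.Work.MP_223b32_ft.Interface

/-!
# THEOREM FT, block RXT: expansion of one element on twice the units
-/

namespace Pool.FT

open Finset

lemma RXT_odd_unit {m l k : ℕ} [NeZero m] (hm : m = 2 * l ^ k) (g : (ZMod m)ˣ) :
    Odd (g : ZMod m).val := by
  have h := ZMod.val_coe_unit_coprime g
  have h2 : 2 ∣ m := ⟨l ^ k, hm⟩
  exact (Nat.coprime_two_right).1 (h.coprime_dvd_right h2)

lemma RXT_unit_eq {m l k : ℕ} [NeZero m] (hl : Odd l) (hm : m = 2 * l ^ k)
    (g g' : (ZMod m)ˣ) (h : (g : ZMod m) * 2 = (g' : ZMod m) * 2) : g = g' := by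
  have hg := RXT_odd_unit hm g
  have hg' := RXT_odd_unit hm g'
  have h1 : (((g : ZMod m).val * 2 : ℕ) : ZMod m) = (((g' : ZMod m).val * 2 : ℕ) : ZMod m) := by
    push_cast
    rw [ZMod.natCast_zmod_val, ZMod.natCast_zmod_val]
    exact h
  rw [ZMod.natCast_eq_natCast_iff] at h1
  have h2 : (g : ZMod m).val ≡ (g' : ZMod m).val [MOD l ^ k] := by
    have h1' := h1.of_dvd (dvd_of_eq (show l ^ k * 2 = m by rw [hm, mul_comm]))
    exact Nat.ModEq.mul_right_cancel' (by norm_num) h1'
  have h3 : (g : ZMod m).val ≡ (g' : ZMod m).val [MOD 2] := by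
    unfold Nat.ModEq
    rw [Nat.odd_iff.1 hg, Nat.odd_iff.1 hg']
  have hco : Nat.Coprime 2 (l ^ k) := (Nat.coprime_two_left).2 (hl.pow)
  have h4 : (g : ZMod m).val ≡ (g' : ZMod m).val [MOD m] := by
    have := (Nat.modEq_and_modEq_iff_modEq_mul hco).1 ⟨h3, h2⟩
    rwa [← hm] at this
  have h5 := h4.eq_of_lt_of_lt (ZMod.val_lt _) (ZMod.val_lt _)
  exact Units.ext (ZMod.val_injective m h5)

lemma RXT_surj {m l k : ℕ} [NeZero m] (hp : l.Prime) (hl : Odd l) (hk : 0 < k)
    (hm : m = 2 * l ^ k) (y : ZMod m) (hy : Even y.val) (hly : ¬ l ∣ y.val) :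
    ∃ g : (ZMod m)ˣ, (g : ZMod m) * 2 = y := by
  obtain ⟨b, hb⟩ := hy
  have hlb : ¬ l ∣ b := fun h => hly (by rw [hb]; exact dvd_add h h)
  have hlk : l ∣ l ^ k := dvd_pow_self l hk.ne'
  have key : ∀ c : ℕ, Odd c → ¬ l ∣ c → ((2 * c : ℕ) : ZMod m) = y →
      ∃ g : (ZMod m)ˣ, (g : ZMod m) * 2 = y := by
    intro c hc hlc hcy
    have hco : Nat.Coprime c m := by
      rw [hm]
      refine Nat.Coprime.mul_right ((Nat.coprime_two_right).2 hc) ?_
      exact Nat.Coprime.pow_right k (((hp.coprime_iff_not_dvd).2 hlc).symm)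
    refine ⟨ZMod.unitOfCoprime c hco, ?_⟩
    rw [ZMod.coe_unitOfCoprime, ← hcy]
    push_cast; ring
  rcases Nat.even_or_odd b with hbe | hbo
  · refine key (b + l ^ k) (hbe.add_odd hl.pow) ?_ ?_
    · intro h
      exact hlb ((Nat.dvd_add_left hlk).1 h)
    · have : 2 * (b + l ^ k) = y.val + m := by rw [hb, hm]; ring
      rw [this, Nat.cast_add, ZMod.natCast_self, add_zero, ZMod.natCast_zmod_val]
  · refine key b hbo hlb ?_
    have : 2 * b = y.val := by rw [hb]; ring
    rw [this, ZMod.natCast_zmod_val]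

lemma RXT_cast_zero {m q : ℕ} [NeZero m] (h : q ∣ m) (y : ZMod m) :
    q ∣ y.val ↔ ZMod.castHom h (ZMod q) y = 0 := by
  rw [ZMod.castHom_apply, ← ZMod.natCast_val, ZMod.natCast_eq_zero_iff]

lemma RXT_fibre {m l k j : ℕ} [NeZero m] (hp : l.Prime) (hl : Odd l) (hjk : j < k)
    (hm : m = 2 * l ^ k) (x x0 y : ZMod m) (hx : Even x.val) (hx0 : ¬ l ∣ x0.val)
    (h0 : ((l ^ j : ℕ) : ZMod m) * x0 = x) (hy : ((l ^ j : ℕ) : ZMod m) * y = x) :
    Even y.val ∧ ¬ l ∣ y.val := by
  have h2m : 2 ∣ m := ⟨l ^ k, hm⟩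
  have hlm : l ∣ m := by
    rw [hm]; exact Dvd.dvd.mul_left (dvd_pow_self l (by omega)) 2
  constructor
  · rw [even_iff_two_dvd, RXT_cast_zero h2m] at hx ⊢
    rw [← hy, map_mul, map_natCast] at hx
    have h1 : ((l ^ j : ℕ) : ZMod 2) = 1 := by
      have : Odd (l ^ j) := hl.pow
      rw [ZMod.natCast_eq_one_iff_odd]
      exact this
    rwa [h1, one_mul] at hx
  · rw [RXT_cast_zero hlm] at hx0 ⊢
    have h1 : ((l ^ j : ℕ) : ZMod m) * (y - x0) = 0 := by
      rw [mul_sub, hy, h0, sub_self]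
    have h2 : ((l ^ j * (y - x0).val : ℕ) : ZMod m) = 0 := by
      push_cast
      rw [ZMod.natCast_zmod_val]
      push_cast at h1
      exact h1
    rw [ZMod.natCast_eq_zero_iff] at h2
    have h3 : l ^ (j + 1) ∣ l ^ j * (y - x0).val := by
      refine dvd_trans ?_ h2
      rw [hm]
      exact Dvd.dvd.mul_left (pow_dvd_pow l (by omega)) 2
    rw [pow_succ] at h3
    have h4 : l ∣ (y - x0).val := Nat.dvd_of_mul_dvd_mul_left (pow_pos hp.pos j) h3
    rw [RXT_cast_zero hlm, map_sub, sub_eq_zero] at h4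
    rwa [h4]

lemma RXT_sum {m l k j : ℕ} [NeZero m] (hp : l.Prime) (hl : Odd l) (hjk : j < k)
    (hm : m = 2 * l ^ k) (x x0 : ZMod m) (hx : Even x.val) (hx0 : ¬ l ∣ x0.val)
    (h0 : ((l ^ j : ℕ) : ZMod m) * x0 = x) {R : Type} [AddCommGroup R] (F : ZMod m → R) :
    ∑ g : (ZMod m)ˣ, (if ((l ^ j : ℕ) : ZMod m) * ((g : ZMod m) * 2) = x then (1 : ℤ) else 0) •
        F ((g : ZMod m) * 2)
      = ∑ y ∈ (univ : Finset (ZMod m)).filter (fun y => ((l ^ j : ℕ) : ZMod m) * y = x),
        F y := by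
  simp only [ite_smul, one_smul, zero_smul]
  rw [← Finset.sum_filter]
  refine Finset.sum_bij (fun g _ => (g : ZMod m) * 2) ?_ ?_ ?_ ?_
  · intro g hg
    simpa using hg
  · intro g _ g' _ h
    exact RXT_unit_eq hl hm g g' h
  · intro y hy
    rw [Finset.mem_filter] at hy
    obtain ⟨h1, h2⟩ := RXT_fibre hp hl hjk hm x x0 y hx hx0 h0 hy.2
    obtain ⟨g, hg⟩ := RXT_surj hp hl (by omega) hm y h1 h2
    refine ⟨g, ?_, hg⟩
    rw [Finset.mem_filter]
    refine ⟨Finset.mem_univ _, ?_⟩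
    rw [hg]; exact hy.2
  · intro g _
    rfl

lemma RXT_even (hDSB : Stmt_DSB) (hEDJ : Stmt_EDJ) {m l k : ℕ} [NeZero m] (hp : l.Prime)
    (hl : Odd l) (hm : m = 2 * l ^ k) (x : ZMod m) (hx0 : x ≠ 0)
    (hx : Even x.val) :
    ∃ n : (ZMod m)ˣ → ℤ,
      (∑ g : (ZMod m)ˣ, n g • ((g : ZMod m) * 2) = x) ∧
      (∀ t : (ZMod m)ˣ, Bern m ((t : ZMod m) * x)
        = ∑ g : (ZMod m)ˣ, n g * Bern m ((t : ZMod m) * ((g : ZMod m) * 2))) ∧
      (∀ (p : ℕ) (Alg : Multiset (ZMod m) → Prop), FermatCycles m p Alg →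
        ∀ (Q : Type) [AddCommGroup Q] (e : ZMod m → Q), Kills Alg e →
          e x = ∑ g : (ZMod m)ˣ, n g • e ((g : ZMod m) * 2)) := by
  have hv : x.val ≠ 0 := by
    intro h
    exact hx0 ((ZMod.val_eq_zero x).1 h)
  obtain ⟨j, c, hlc, hjc⟩ := Nat.exists_eq_pow_mul_and_not_dvd hv l hp.ne_one
  have hl2 : l ≠ 2 := by
    rintro rfl
    exact absurd hl (by decide)
  have hjk : j < k := by
    by_contra hjk
    push Not at hjk
    have h1 : l ^ k ∣ x.val := by
      rw [hjc]; exact Dvd.dvd.mul_right (pow_dvd_pow l hjk) c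
    have h2 : 2 ∣ x.val := even_iff_two_dvd.1 hx
    have hco : Nat.Coprime 2 (l ^ k) := (Nat.coprime_two_left).2 (hl.pow)
    have h3 : m ∣ x.val :=
      dvd_trans (dvd_of_eq hm) (hco.mul_dvd_of_dvd_of_dvd h2 h1)
    exact hv (Nat.eq_zero_of_dvd_of_lt h3 (ZMod.val_lt x))
  have hcx : c ≤ x.val := by
    rw [hjc]; exact Nat.le_mul_of_pos_left c (pow_pos hp.pos j)
  have hcm : c < m := lt_of_le_of_lt hcx (ZMod.val_lt x)
  set x0 : ZMod m := (c : ZMod m) with hx0def
  have hx0v : x0.val = c := ZMod.val_natCast_of_lt hcm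
  have hlx0 : ¬ l ∣ x0.val := by rw [hx0v]; exact hlc
  have hdx : ((l ^ j : ℕ) : ZMod m) * x0 = x := by
    rw [hx0def, ← Nat.cast_mul, ← hjc, ZMod.natCast_zmod_val]
  have hdm : l ^ j ∣ m := by
    rw [hm]; exact Dvd.dvd.mul_left (pow_dvd_pow l hjk.le) 2
  have hodd : Odd (l ^ j) := hl.pow
  refine ⟨fun g => if ((l ^ j : ℕ) : ZMod m) * ((g : ZMod m) * 2) = x then (1 : ℤ) else 0,
    ?_, ?_, ?_⟩
  · rw [RXT_sum hp hl hjk hm x x0 hx hlx0 hdx (fun y => y)]
    have h := (hDSB m (l ^ j) hdm x0).2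
    rw [hdx, if_pos hodd, add_zero] at h
    exact h
  · intro t
    have h := RXT_sum hp hl hjk hm x x0 hx hlx0 hdx (fun y => Bern m ((t : ZMod m) * y))
    simp only [smul_eq_mul] at h
    rw [h]
    have h1 := (hDSB m (l ^ j) hdm ((t : ZMod m) * x0)).1
    have h2 : ((l ^ j : ℕ) : ZMod m) * ((t : ZMod m) * x0) = (t : ZMod m) * x := by
      rw [← hdx]; ring
    rw [h2] at h1
    have h3 : (t : ZMod m) * x ≠ 0 := by
      intro h4
      exact hx0 ((Units.mul_right_eq_zero t).1 h4)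
    rw [← h1 h3]
    symm
    refine Finset.sum_bij (fun y _ => (t : ZMod m) * y) ?_ ?_ ?_ ?_
    · intro y hy
      rw [Finset.mem_filter] at hy ⊢
      refine ⟨Finset.mem_univ _, ?_⟩
      rw [← hy.2]; ring
    · intro y _ y' _ h
      exact (Units.mul_right_inj t).1 h
    · intro z hz
      rw [Finset.mem_filter] at hz
      refine ⟨((t⁻¹ : (ZMod m)ˣ) : ZMod m) * z, ?_, ?_⟩
      · rw [Finset.mem_filter]
        refine ⟨Finset.mem_univ _, ?_⟩
        have : ((l ^ j : ℕ) : ZMod m) * (((t⁻¹ : (ZMod m)ˣ) : ZMod m) * z)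
            = ((t⁻¹ : (ZMod m)ˣ) : ZMod m) * (((l ^ j : ℕ) : ZMod m) * z) := by ring
        rw [this, hz.2, Units.inv_mul_cancel_left]
      · exact Units.mul_inv_cancel_left t z
    · intro y _
      rfl
  · intro p Alg hA Q _ e he
    rw [RXT_sum hp hl hjk hm x x0 hx hlx0 hdx e]
    have h := hEDJ m p l j Alg hA hp hdm Q e he x0
    rw [hdx] at h
    have h1 := h hx0
    rw [if_neg (by rintro ⟨h2, _⟩; exact hl2 h2), add_zero] at h1
    exact h1

lemma RXT_bern {m M : ℕ} [NeZero m] (hm : m = 2 * M) (hM : Odd M) (y : ZMod m)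
    (hy : Odd y.val) (hyM : y ≠ (M : ZMod m)) :
    Bern m y = Bern m (y + y) - Bern m (y + (M : ZMod m)) := by
  have hMpos : 0 < M := hM.pos
  have hMv : ((M : ℕ) : ZMod m).val = M := ZMod.val_natCast_of_lt (by omega)
  have hyv := ZMod.val_lt y
  have hne : y.val ≠ M := by
    intro h
    apply hyM
    rw [← h, ZMod.natCast_zmod_val]
  have hy0 : y ≠ 0 := by
    rintro rfl
    simp at hy
  have h2y0 : y + y ≠ 0 := by
    intro h
    have h1 : ((y.val + y.val : ℕ) : ZMod m) = 0 := by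
      push_cast; rw [ZMod.natCast_zmod_val]; exact h
    rw [ZMod.natCast_eq_zero_iff] at h1
    obtain ⟨c, hc⟩ := dvd_trans (dvd_of_eq hm.symm) h1
    have h2 : y.val = M * c := by nlinarith
    have h3 : 0 < y.val := hy.pos
    have hc1 : c = 1 := by
      have h4 : 0 < c := by
        rcases Nat.eq_zero_or_pos c with h5 | h5
        · rw [h5] at h2; omega
        · exact h5
      have h5 : c < 2 := by
        by_contra h6
        push Not at h6
        have : M * 2 ≤ M * c := Nat.mul_le_mul_left M h6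
        omega
      omega
    rw [hc1, mul_one] at h2
    exact hne h2
  have hyM0 : y + (M : ZMod m) ≠ 0 := by
    intro h
    apply hyM
    have h1 : (M : ZMod m) + (M : ZMod m) = 0 := by
      have : ((M + M : ℕ) : ZMod m) = 0 := by
        rw [ZMod.natCast_eq_zero_iff, hm]; exact ⟨1, by ring⟩
      push_cast at this
      exact this
    have h2 : y = -(M : ZMod m) := eq_neg_of_add_eq_zero_left h
    rw [h2]
    exact (eq_neg_of_add_eq_zero_left h1).symm
  have hmz : (m : ℤ) = 2 * (M : ℤ) := by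
    rw [hm]; push_cast; ring
  unfold Bern
  rw [if_neg hy0, if_neg h2y0, if_neg hyM0]
  rcases lt_or_ge y.val M with h | h
  · have h1 : (y + y).val = y.val + y.val := ZMod.val_add_of_lt (by omega)
    have h2 : (y + (M : ZMod m)).val = y.val + M := by
      rw [ZMod.val_add_of_lt (by rw [hMv]; omega), hMv]
    rw [h1, h2, hmz]
    push_cast
    ring
  · have h1 : (y + y).val + m = y.val + y.val := by
      have := ZMod.val_add_val_of_le (a := y) (b := y) (by omega)
      omega
    have h2 : (y + (M : ZMod m)).val + m = y.val + M := by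
      have := ZMod.val_add_val_of_le (a := y) (b := (M : ZMod m)) (by rw [hMv]; omega)
      rw [hMv] at this
      omega
    have h1' : ((y + y).val : ℤ) = y.val + y.val - m := by
      have : (((y + y).val + m : ℕ) : ℤ) = ((y.val + y.val : ℕ) : ℤ) := by rw [h1]
      push_cast at this
      linarith
    have h2' : ((y + (M : ZMod m)).val : ℤ) = y.val + M - m := by
      have : (((y + (M : ZMod m)).val + m : ℕ) : ℤ) = ((y.val + M : ℕ) : ℤ) := by rw [h2]
      push_cast at this
      linarith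
    rw [h1', h2', hmz]
    ring

theorem p_RXT (hDSB : Stmt_DSB) (hEDJ : Stmt_EDJ) : Stmt_RXT := by
  intro m l k _ hp hl hk hm x hx0
  have hm2 : m / 2 = l ^ k := by rw [hm]; omega
  have hM : Odd (l ^ k) := hl.pow
  have h2m : 2 ∣ m := ⟨l ^ k, hm⟩
  have hmpos : 0 < m := Nat.pos_of_ne_zero (NeZero.ne m)
  have hMv : ((l ^ k : ℕ) : ZMod m).val = l ^ k :=
    ZMod.val_natCast_of_lt (by have := hM.pos; omega)
  have hhh : ((l ^ k : ℕ) : ZMod m) + ((l ^ k : ℕ) : ZMod m) = 0 := by
    have : ((l ^ k + l ^ k : ℕ) : ZMod m) = 0 := by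
      rw [ZMod.natCast_eq_zero_iff, hm]; exact ⟨1, by ring⟩
    rw [Nat.cast_add] at this
    exact this
  have hpar : ∀ y : ZMod m, Even y.val ↔ ZMod.castHom h2m (ZMod 2) y = 0 := by
    intro y
    rw [even_iff_two_dvd, RXT_cast_zero h2m]
  have hpar1 : ∀ y : ZMod m, Odd y.val ↔ ZMod.castHom h2m (ZMod 2) y = 1 := by
    intro y
    rw [← Nat.not_even_iff_odd, hpar]
    generalize ZMod.castHom h2m (ZMod 2) y = z
    revert z; decide
  have hh1 : ZMod.castHom h2m (ZMod 2) ((l ^ k : ℕ) : ZMod m) = 1 := by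
    rw [← hpar1, hMv]; exact hM
  have hth : ∀ t : (ZMod m)ˣ, (t : ZMod m) * ((l ^ k : ℕ) : ZMod m)
      = ((l ^ k : ℕ) : ZMod m) := by
    intro t
    obtain ⟨b, hb⟩ := RXT_odd_unit hm t
    have : (t : ZMod m) = ((2 * b + 1 : ℕ) : ZMod m) := by
      rw [← hb, ZMod.natCast_zmod_val]
    rw [this]
    have h1 : ((2 * b + 1 : ℕ) : ZMod m) * ((l ^ k : ℕ) : ZMod m)
        = (b : ZMod m) * (((l ^ k : ℕ) : ZMod m) + ((l ^ k : ℕ) : ZMod m))
          + ((l ^ k : ℕ) : ZMod m) := by
      push_cast; ring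
    rw [h1, hhh]; ring
  rw [hm2]
  rcases Nat.even_or_odd x.val with hx | hx
  · obtain ⟨n, h1, h2, h3⟩ := RXT_even hDSB hEDJ hp hl hm x hx0 hx
    have hno : ¬ Odd x.val := Nat.not_odd_iff_even.2 hx
    refine ⟨n, ?_, h2, ?_⟩
    · rw [h1, if_neg hno, add_zero]
    · intro p Alg hA Q _ e he
      rw [if_neg hno, add_zero]
      exact h3 p Alg hA Q e he
  · simp only [hx, if_true]
    by_cases hxh : x = ((l ^ k : ℕ) : ZMod m)
    · refine ⟨fun _ => 0, ?_, ?_, ?_⟩
      · rw [hxh, hhh]; simp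
      · intro t
        rw [hxh, hth t]
        simp only [zero_mul, Finset.sum_const_zero]
        unfold Bern
        split_ifs with h
        · rfl
        · rw [hMv, hm]; push_cast; ring
      · intro p Alg hA Q _ e he
        rw [hxh]; simp
    · -- the odd case
      have h2x0 : x + x ≠ 0 := by
        intro h
        have h1 : ((x.val + x.val : ℕ) : ZMod m) = 0 := by
          push_cast; rw [ZMod.natCast_zmod_val]; exact h
        rw [ZMod.natCast_eq_zero_iff] at h1
        have h2 : l ^ k ∣ x.val := by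
          rw [← two_mul] at h1
          exact Nat.dvd_of_mul_dvd_mul_left (by norm_num) (dvd_trans (dvd_of_eq hm.symm) h1)
        obtain ⟨c, hc⟩ := h2
        have h3 : 0 < x.val := hx.pos
        have hxv := ZMod.val_lt x
        have hc1 : c = 1 := by
          have h4 : 0 < c := by
            rcases Nat.eq_zero_or_pos c with h5 | h5
            · rw [h5] at hc; omega
            · exact h5
          have h5 : c < 2 := by
            by_contra h6
            push Not at h6
            have : l ^ k * 2 ≤ l ^ k * c := Nat.mul_le_mul_left _ h6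
            omega
          omega
        rw [hc1, mul_one] at hc
        apply hxh
        rw [← hc, ZMod.natCast_zmod_val]
      have hxh0 : x + ((l ^ k : ℕ) : ZMod m) ≠ 0 := by
        intro h
        apply hxh
        rw [eq_neg_of_add_eq_zero_left h]
        exact (eq_neg_of_add_eq_zero_left hhh).symm
      have hx1 := (hpar1 x).1 hx
      have he1 : Even (x + x).val := by
        rw [hpar, map_add, hx1]; decide
      have he2 : Even (x + ((l ^ k : ℕ) : ZMod m)).val := by
        rw [hpar, map_add, hx1, hh1]; decide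
      obtain ⟨n1, a1, a2, a3⟩ := RXT_even hDSB hEDJ hp hl hm (x + x) h2x0 he1
      obtain ⟨n2, b1, b2, b3⟩ := RXT_even hDSB hEDJ hp hl hm _ hxh0 he2
      refine ⟨fun g => n1 g - n2 g, ?_, ?_, ?_⟩
      · simp only [sub_smul, Finset.sum_sub_distrib]
        rw [a1, b1]
        have : -((l ^ k : ℕ) : ZMod m) = ((l ^ k : ℕ) : ZMod m) :=
          (eq_neg_of_add_eq_zero_left hhh).symm
        calc x + x - (x + ((l ^ k : ℕ) : ZMod m)) = x + -((l ^ k : ℕ) : ZMod m) := by ring
          _ = _ := by rw [this]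
      · intro t
        simp only [sub_mul, Finset.sum_sub_distrib]
        rw [← a2 t, ← b2 t, mul_add, mul_add, hth t]
        have ht1 : Odd ((t : ZMod m) * x).val := by
          rw [hpar1, map_mul, hx1]
          rw [(hpar1 (t : ZMod m)).1 (RXT_odd_unit hm t)]
          rfl
        apply RXT_bern hm hM _ ht1
        intro h
        apply hxh
        have h4 : (t : ZMod m) * x = (t : ZMod m) * ((l ^ k : ℕ) : ZMod m) := by
          rw [h, hth t]
        exact (Units.mul_right_inj t).1 h4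
      · intro p Alg hA Q _ e he
        simp only [sub_smul, Finset.sum_sub_distrib]
        rw [← a3 p Alg hA Q e he, ← b3 p Alg hA Q e he]
        have hM0 : ((l ^ k : ℕ) : ZMod m) ≠ 0 := by
          intro h
          rw [h] at hh1
          simp at hh1
        have k1 := he.kill _ (hA.two ((l ^ k : ℕ) : ZMod m) x hM0 hhh hx0 hxh)
        have k2 := he.kill _ (hA.pair (x + x) h2x0)
        have k3 := he.kill _ (hA.pair ((l ^ k : ℕ) : ZMod m) hM0)
        have hneg : -((l ^ k : ℕ) : ZMod m) = ((l ^ k : ℕ) : ZMod m) :=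
          (eq_neg_of_add_eq_zero_left hhh).symm
        rw [hneg] at k3
        simp only [Multiset.insert_eq_cons, Multiset.map_cons, Multiset.map_singleton,
          Multiset.sum_cons, Multiset.sum_singleton] at k1 k2 k3
        generalize e (-(x + x)) = u1 at *
        generalize e (x + x) = u2 at *
        generalize e (x + ((l ^ k : ℕ) : ZMod m)) = u3 at *
        generalize e ((l ^ k : ℕ) : ZMod m) = u4 at *
        generalize e x = u5 at *
        have e1 : u1 = -u2 := by
          rw [eq_neg_iff_add_eq_zero, add_comm]; exact k2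
        have e2 : u4 = -u4 := by
          rw [eq_neg_iff_add_eq_zero]; exact k3
        have e3 : u5 = -(u3 + (u1 + u4)) := eq_neg_of_add_eq_zero_left k1
        rw [e3, e1]
        conv_rhs => rw [e2]
        abel

end Pool.FT
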