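import Pool.Agent.Work.MP_223b32_ft.Interface

/-!
# THEOREM FT, block SAT: saturation
-/

namespace Pool.FT

open Finset

/-- counting function of a multiset -/
def SAT_cnt {m : ℕ} (b : Multiset (ZMod m)) : ZMod m → ℤ :=
  (b.map (fun x => (Pi.single x 1 : ZMod m → ℤ))).sum

lemma SAT_cnt_zero {m : ℕ} : SAT_cnt (0 : Multiset (ZMod m)) = 0 := by
  simp [SAT_cnt]

lemma SAT_cnt_add {m : ℕ} (a b : Multiset (ZMod m)) :
    SAT_cnt (a + b) = SAT_cnt a + SAT_cnt b := by
  simp [SAT_cnt]

lemma SAT_cnt_apply {m : ℕ} (b : Multiset (ZMod m)) (x : ZMod m) :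
    SAT_cnt b x = (b.count x : ℤ) := by
  induction b using Multiset.induction_on with
  | empty => simp [SAT_cnt]
  | cons y b ih =>
    have h : SAT_cnt (y ::ₘ b) = Pi.single y 1 + SAT_cnt b := by simp [SAT_cnt]
    rw [h, Pi.add_apply, ih, Multiset.count_cons, Pi.single_apply]
    split_ifs with h1
    · push_cast; ring
    · push_cast; ring

lemma SAT_cnt_inj {m : ℕ} (a b : Multiset (ZMod m)) (h : SAT_cnt a = SAT_cnt b) : a = b := by
  ext x
  have h1 := congrFun h x
  rw [SAT_cnt_apply, SAT_cnt_apply] at h1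
  exact_mod_cast h1

lemma SAT_neg_sum {m : ℕ} (N : Multiset (ZMod m)) :
    (N.map (fun x => -x)).sum = - N.sum := by
  induction N using Multiset.induction_on with
  | empty => simp
  | cons y N ih =>
    rw [Multiset.map_cons, Multiset.sum_cons, Multiset.sum_cons, ih]; ring

lemma SAT_cancel {m p : ℕ} {Alg : Multiset (ZMod m) → Prop} (hA : FermatCycles m p Alg)
    (N : Multiset (ZMod m)) : (0 : ZMod m) ∉ N → ∀ a, Chr m a →
      Alg (a + N + N.map (fun x => -x)) → Alg a := by
  induction N using Multiset.induction_on with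
  | empty =>
    intro _ a _ h
    simpa using h
  | cons x N ih =>
    intro h0 a ha h
    have hx : x ≠ 0 := by
      rintro rfl
      exact h0 (Multiset.mem_cons_self _ _)
    have hN : (0 : ZMod m) ∉ N := fun h1 => h0 (Multiset.mem_cons_of_mem h1)
    refine ih hN a ha ?_
    have he : a + (x ::ₘ N) + (x ::ₘ N).map (fun x => -x)
        = (a + N + N.map (fun x => -x)) + {x, -x} := by
      rw [Multiset.map_cons]
      ext z
      simp only [Multiset.count_add, Multiset.count_cons, Multiset.insert_eq_cons,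
        Multiset.count_singleton]
      ring
    rw [he] at h
    refine hA.cancel _ x ?_ hx h
    obtain ⟨h1, h2, h3, h4⟩ := ha
    refine ⟨?_, ?_, ?_, ?_⟩
    · intro h5
      apply h1
      have h6 := congrArg Multiset.card h5
      simp only [Multiset.card_add, Multiset.card_zero] at h6
      rw [← Multiset.card_eq_zero]
      omega
    · intro h5
      rw [Multiset.mem_add, Multiset.mem_add] at h5
      rcases h5 with (h5 | h5) | h5
      · exact h2 h5
      · exact hN h5
      · rw [Multiset.mem_map] at h5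
        obtain ⟨y, hy, hy'⟩ := h5
        have : y = 0 := by simpa using hy'
        exact hN (this ▸ hy)
    · rw [Multiset.sum_add, Multiset.sum_add, SAT_neg_sum, h3]; ring
    · rw [Multiset.card_add, Multiset.card_add, Multiset.card_map]
      have : Multiset.card a + Multiset.card N + Multiset.card N
          = Multiset.card a + (Multiset.card N + Multiset.card N) := by ring
      rw [this]
      exact h4.add ⟨_, rfl⟩

theorem p_SAT : Stmt_SAT := by
  intro m p _ Alg hA a ha hkill
  set S : AddSubgroup (ZMod m → ℤ) :=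
    AddSubgroup.closure {g | ∃ b, Alg b ∧ SAT_cnt b = g} with hS
  have hmap : ∀ b : Multiset (ZMod m), (0 : ZMod m) ∉ b →
      (b.map (fun x => if x = 0 then (0 : (ZMod m → ℤ) ⧸ S)
        else QuotientAddGroup.mk' S (Pi.single x 1))).sum
        = QuotientAddGroup.mk' S (SAT_cnt b) := by
    intro b hb
    rw [SAT_cnt, map_multiset_sum, Multiset.map_map]
    congr 1
    apply Multiset.map_congr rfl
    intro x hx
    have : x ≠ 0 := by
      rintro rfl
      exact hb hx
    simp [this]
  have hk := hkill ((ZMod m → ℤ) ⧸ S) (fun x => if x = 0 then (0 : (ZMod m → ℤ) ⧸ S)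
        else QuotientAddGroup.mk' S (Pi.single x 1))
    ⟨by simp, fun b hb => by
      rw [hmap b (hA.chr b hb).2.1]
      exact (QuotientAddGroup.eq_zero_iff _).2 (AddSubgroup.subset_closure ⟨b, hb, rfl⟩)⟩
  rw [hmap a ha.2.1] at hk
  have hmem : SAT_cnt a ∈ S := (QuotientAddGroup.eq_zero_iff _).1 hk
  have hrep : ∀ g ∈ S, ∃ P N : Multiset (ZMod m), (P = 0 ∨ Alg P) ∧ (N = 0 ∨ Alg N) ∧
      g + SAT_cnt N = SAT_cnt P := by
    have hj : ∀ P P' : Multiset (ZMod m), (P = 0 ∨ Alg P) → (P' = 0 ∨ Alg P') →
        (P + P' = 0 ∨ Alg (P + P')) := by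
      rintro P P' (rfl | h) (rfl | h')
      · left; simp
      · right; simpa using h'
      · right; simpa using h
      · right; exact hA.join _ _ h h'
    intro g hg
    rw [hS] at hg
    induction hg using AddSubgroup.closure_induction with
    | mem x hx =>
      obtain ⟨b, hb, rfl⟩ := hx
      exact ⟨b, 0, Or.inr hb, Or.inl rfl, by rw [SAT_cnt_zero, add_zero]⟩
    | zero => exact ⟨0, 0, Or.inl rfl, Or.inl rfl, by simp⟩
    | add x y _ _ hx hy =>
      obtain ⟨P, N, hP, hN, h⟩ := hx
      obtain ⟨P', N', hP', hN', h'⟩ := hy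
      refine ⟨P + P', N + N', hj _ _ hP hP', hj _ _ hN hN', ?_⟩
      rw [SAT_cnt_add, SAT_cnt_add, ← h, ← h']
      abel
    | neg x _ hx =>
      obtain ⟨P, N, hP, hN, h⟩ := hx
      refine ⟨N, P, hN, hP, ?_⟩
      rw [← h]
      abel
  obtain ⟨P, N, hP, hN, h⟩ := hrep _ hmem
  rw [← SAT_cnt_add] at h
  have hPN : a + N = P := SAT_cnt_inj _ _ h
  have hP' : Alg P := by
    rcases hP with hP | hP
    · exfalso
      apply ha.1
      have h6 := congrArg Multiset.card (hPN.trans hP)
      simp only [Multiset.card_add, Multiset.card_zero] at h6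
      rw [← Multiset.card_eq_zero]
      omega
    · exact hP
  rcases hN with hN | hN
  · rw [hN, add_zero] at hPN
    rw [hPN]; exact hP'
  · refine SAT_cancel hA N (hA.chr N hN).2.1 a ha ?_
    rw [hPN]
    exact hA.join _ _ hP' (hA.neg _ hN)

end Pool.FT
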