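import Pool.Agent.Work.MP_223b32_ft.Interface4

/-!
# THEOREM FT, part 4: block SCL (helper25)
-/

set_option autoImplicit false

namespace Pool.FT

open Finset

theorem SCL_val (hE : Stmt_EMB) (m M p i : ℕ) [NeZero m] [NeZero M] (h : m ∣ M) (t : (ZMod M)ˣ)
    (x : ZMod m) : ((t : ZMod M) * (p : ZMod M) ^ i * emb m M x).val
      = M / m * (((ZMod.unitsMap h t : (ZMod m)ˣ) : ZMod m) * (p : ZMod m) ^ i * x).val := by
  obtain ⟨hval, -, -, -, hmul, -, -⟩ := hE m M h
  have h1 : ((((t : ZMod M) * (p : ZMod M) ^ i).val : ℕ) : ZMod M)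
      = (t : ZMod M) * (p : ZMod M) ^ i := ZMod.natCast_zmod_val _
  have h2 : ((((t : ZMod M) * (p : ZMod M) ^ i).val : ℕ) : ZMod m)
      = ((ZMod.unitsMap h t : (ZMod m)ˣ) : ZMod m) * (p : ZMod m) ^ i := by
    have h3 := congrArg (ZMod.castHom h (ZMod m)) h1
    rw [map_natCast, map_mul, map_pow, map_natCast] at h3
    rw [h3]
    rfl
  have h4 := hmul (((t : ZMod M) * (p : ZMod M) ^ i).val) x
  rw [h1, h2] at h4
  rw [← h4, hval]

theorem SCL_eq (hE : Stmt_EMB) (m M p f : ℕ) [NeZero m] [NeZero M] (h : m ∣ M)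
    (a : Multiset (ZMod m)) (t : (ZMod M)ˣ) :
    (2 * ∑ i ∈ range f, ((a.map (emb m M)).map
      (fun x => ((t : ZMod M) * (p : ZMod M) ^ i * x).val)).sum
      = f * (Multiset.card (a.map (emb m M))) * M) ↔
    (2 * ∑ i ∈ range f, (a.map (fun x => (((ZMod.unitsMap h t : (ZMod m)ˣ) : ZMod m) *
      (p : ZMod m) ^ i * x).val)).sum = f * (Multiset.card a) * m) := by
  have h1 : ∀ i, ((a.map (emb m M)).map (fun x => ((t : ZMod M) * (p : ZMod M) ^ i * x).val)).sum
      = M / m * (a.map (fun x => (((ZMod.unitsMap h t : (ZMod m)ˣ) : ZMod m) *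
        (p : ZMod m) ^ i * x).val)).sum := by
    intro i
    rw [Multiset.map_map, ← Multiset.sum_map_mul_left]
    refine congrArg Multiset.sum (Multiset.map_congr rfl fun x _ => ?_)
    exact SCL_val hE m M p i h t x
  have hd : M = M / m * m := (Nat.div_mul_cancel h).symm
  have hpos : 0 < M / m := Nat.div_pos (Nat.le_of_dvd (Nat.pos_of_ne_zero (NeZero.ne M)) h)
    (Nat.pos_of_ne_zero (NeZero.ne m))
  rw [Finset.sum_congr rfl fun i _ => h1 i, ← Finset.mul_sum, Multiset.card_map]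
  constructor
  · intro h2
    apply Nat.eq_of_mul_eq_mul_left hpos
    calc M / m * (2 * ∑ i ∈ range f, (a.map (fun x =>
          (((ZMod.unitsMap h t : (ZMod m)ˣ) : ZMod m) * (p : ZMod m) ^ i * x).val)).sum)
        = 2 * (M / m * ∑ i ∈ range f, (a.map (fun x =>
          (((ZMod.unitsMap h t : (ZMod m)ˣ) : ZMod m) * (p : ZMod m) ^ i * x).val)).sum) := by ring
      _ = f * (Multiset.card a) * M := h2
      _ = f * (Multiset.card a) * (M / m * m) := by rw [← hd]
      _ = M / m * (f * (Multiset.card a) * m) := by ring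
  · intro h2
    calc 2 * (M / m * ∑ i ∈ range f, (a.map (fun x =>
          (((ZMod.unitsMap h t : (ZMod m)ˣ) : ZMod m) * (p : ZMod m) ^ i * x).val)).sum)
        = M / m * (2 * ∑ i ∈ range f, (a.map (fun x =>
          (((ZMod.unitsMap h t : (ZMod m)ˣ) : ZMod m) * (p : ZMod m) ^ i * x).val)).sum) := by ring
      _ = M / m * (f * (Multiset.card a) * m) := by rw [h2]
      _ = f * (Multiset.card a) * (M / m * m) := by ring
      _ = f * (Multiset.card a) * M := by rw [← hd]

theorem p_SCL (hE : Stmt_EMB) : Stmt_SCL := by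
  intro m M p f _ _ h a
  constructor
  · intro hs t'
    obtain ⟨t, rfl⟩ := ZMod.unitsMap_surjective h t'
    exact (SCL_eq hE m M p f h a t).mp (hs t)
  · intro hs t
    exact (SCL_eq hE m M p f h a t).mpr (hs _)

end Pool.FT
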