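import Pool.Agent.Work.MP_223b32_ft.Interface4

set_option autoImplicit false

namespace Pool.FT

open Finset

/-- The odd form of the Stickelberger sum. -/
def SEP_G (M p f : ℕ) (a : Multiset (ZMod M)) (t : ZMod M) : ℤ :=
  ∑ i ∈ range f, (a.map (fun x => 2 * ((t * (p : ZMod M) ^ i * x).val : ℤ) - M)).sum

theorem SEP_sum (M : ℕ) (a : Multiset (ZMod M)) (g : ZMod M → ℕ) :
    (a.map (fun x => 2 * (g x : ℤ) - M)).sum =
      2 * (((a.map g).sum : ℕ) : ℤ) - (Multiset.card a : ℤ) * M := by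
  induction a using Multiset.induction_on with
  | empty => simp
  | cons x s ih =>
    rw [Multiset.map_cons, Multiset.map_cons, Multiset.sum_cons, Multiset.sum_cons, ih,
      Multiset.card_cons]
    push_cast
    ring

theorem SEP_iff (M p f : ℕ) (a : Multiset (ZMod M)) :
    Stick M p f a ↔ ∀ t : (ZMod M)ˣ, SEP_G M p f a (t : ZMod M) = 0 := by
  unfold Stick
  refine forall_congr' (fun t => ?_)
  have h : SEP_G M p f a (t : ZMod M) =
      2 * ((∑ i ∈ range f, (a.map (fun x => ((t : ZMod M) * (p : ZMod M) ^ i * x).val)).sum : ℕ) : ℤ)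
        - (f : ℤ) * (Multiset.card a : ℤ) * M := by
    unfold SEP_G
    rw [Finset.sum_congr rfl (fun i _ => SEP_sum M a
      (fun x => ((t : ZMod M) * (p : ZMod M) ^ i * x).val)), Finset.sum_sub_distrib,
      Finset.sum_const, card_range, ← Finset.mul_sum, nsmul_eq_mul]
    push_cast
    ring
  rw [h]
  constructor
  · intro h1
    have h2 : ((2 * ∑ i ∈ range f,
        (a.map (fun x => ((t : ZMod M) * (p : ZMod M) ^ i * x).val)).sum : ℕ) : ℤ) =
        ((f * (Multiset.card a) * M : ℕ) : ℤ) := by rw [h1]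
    push_cast at h2 ⊢
    linarith
  · intro h1
    have h2 : ((2 * ∑ i ∈ range f,
        (a.map (fun x => ((t : ZMod M) * (p : ZMod M) ^ i * x).val)).sum : ℕ) : ℤ) =
        ((f * (Multiset.card a) * M : ℕ) : ℤ) := by
      push_cast at h1 ⊢
      linarith
    exact_mod_cast h2

theorem SEP_add (M p f : ℕ) (S : Finset ℕ) (A : ℕ → Multiset (ZMod M)) (t : ZMod M) :
    SEP_G M p f (∑ l ∈ S, A l) t = ∑ l ∈ S, SEP_G M p f (A l) t := by
  induction S using Finset.induction_on with
  | empty => simp [SEP_G]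
  | insert l S hl ih =>
    rw [Finset.sum_insert hl, Finset.sum_insert hl, ← ih]
    unfold SEP_G
    rw [← Finset.sum_add_distrib]
    refine Finset.sum_congr rfl (fun i _ => ?_)
    rw [Multiset.map_add, Multiset.sum_add]

theorem SEP_fix (M p f : ℕ) (a : Multiset (ZMod M)) (t w : ZMod M) (h : ∀ x ∈ a, w * x = x) :
    SEP_G M p f a (t * w) = SEP_G M p f a t := by
  unfold SEP_G
  refine Finset.sum_congr rfl (fun i _ => ?_)
  congr 1
  refine Multiset.map_congr rfl (fun x hx => ?_)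
  have h1 : t * w * (p : ZMod M) ^ i * x = t * (p : ZMod M) ^ i * x := by
    calc t * w * (p : ZMod M) ^ i * x = t * (p : ZMod M) ^ i * (w * x) := by ring
      _ = t * (p : ZMod M) ^ i * x := by rw [h x hx]
  rw [h1]

theorem SEP_odd (M p f : ℕ) [NeZero M] (hp : p.Coprime M) (a : Multiset (ZMod M))
    (t : (ZMod M)ˣ) (w : ZMod M) (h : ∀ x ∈ a, x ≠ 0 ∧ w * x = -x) :
    SEP_G M p f a ((t : ZMod M) * w) = - SEP_G M p f a (t : ZMod M) := by
  unfold SEP_G
  rw [← Finset.sum_neg_distrib]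
  refine Finset.sum_congr rfl (fun i _ => ?_)
  rw [← Multiset.sum_map_neg]
  congr 1
  refine Multiset.map_congr rfl (fun x hx => ?_)
  have hu : IsUnit ((t : ZMod M) * (p : ZMod M) ^ i) :=
    t.isUnit.mul (((ZMod.isUnit_iff_coprime p M).mpr hp).pow i)
  have h0 : (t : ZMod M) * (p : ZMod M) ^ i * x ≠ 0 := by
    intro h0
    exact (h x hx).1 ((hu.mul_right_eq_zero).mp h0)
  have h1 : (t : ZMod M) * w * (p : ZMod M) ^ i * x = -((t : ZMod M) * (p : ZMod M) ^ i * x) := by
    calc (t : ZMod M) * w * (p : ZMod M) ^ i * x = (t : ZMod M) * (p : ZMod M) ^ i * (w * x) := by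
          ring
      _ = -((t : ZMod M) * (p : ZMod M) ^ i * x) := by
          rw [(h x hx).2]
          ring
  rw [h1, ZMod.neg_val, if_neg h0,
    Nat.cast_sub (ZMod.val_lt ((t : ZMod M) * (p : ZMod M) ^ i * x)).le]
  ring

theorem SEP_lev (l M : ℕ) (x : ZMod M) (h : (lev l M : ZMod M) * x = 0) :
    (2 : ZMod M) * (l : ZMod M) ^ M.factorization l * x = 0 := by
  have hd : lev l M ∣ 2 * l ^ M.factorization l := by
    unfold lev
    refine Nat.mul_dvd_mul ?_ (dvd_refl _)
    split_ifs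
    · exact one_dvd 2
    · exact Nat.gcd_dvd_left 2 M
  obtain ⟨c, hc⟩ := hd
  have h1 : (2 : ZMod M) * (l : ZMod M) ^ M.factorization l = (lev l M : ZMod M) * (c : ZMod M) := by
    have h2 : ((2 * l ^ M.factorization l : ℕ) : ZMod M) = ((lev l M * c : ℕ) : ZMod M) := by
      rw [hc]
    push_cast at h2
    exact h2
  rw [h1]
  calc (lev l M : ZMod M) * (c : ZMod M) * x = (c : ZMod M) * ((lev l M : ZMod M) * x) := by ring
    _ = 0 := by rw [h, mul_zero]

theorem SEP_unit (l M : ℕ) [NeZero M] (hl : l.Prime) : ∃ w : ZMod M, w * w = 1 ∧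
    (∀ x : ZMod M, (lev l M : ZMod M) * x = 0 → w * x = -x) ∧
    ∀ l' : ℕ, l'.Prime → l' ≠ l → ∀ x : ZMod M, (lev l' M : ZMod M) * x = 0 → w * x = x := by
  have hM : M ≠ 0 := NeZero.ne M
  set n := l ^ M.factorization l with hn
  set k := M / l ^ M.factorization l with hk
  have hnk : n * k = M := Nat.ordProj_mul_ordCompl_eq_self M l
  have hco : Nat.Coprime n k := Nat.Coprime.pow_left _ (Nat.coprime_ordCompl hl hM)
  obtain ⟨a, b, hab⟩ := (Nat.isCoprime_iff_coprime.mpr hco)
  have habM : (a : ZMod M) * (n : ZMod M) + (b : ZMod M) * (k : ZMod M) = 1 := by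
    have h1 : ((a * (n : ℤ) + b * (k : ℤ) : ℤ) : ZMod M) = ((1 : ℤ) : ZMod M) := by rw [hab]
    push_cast at h1
    exact h1
  have hnkM : (n : ZMod M) * (k : ZMod M) = 0 := by
    have h1 : ((n * k : ℕ) : ZMod M) = ((M : ℕ) : ZMod M) := by rw [hnk]
    rw [ZMod.natCast_self] at h1
    push_cast at h1
    exact h1
  refine ⟨1 - 2 * ((b : ZMod M) * (k : ZMod M)), ?_, ?_, ?_⟩
  · have e1 : (1 - 2 * ((b : ZMod M) * (k : ZMod M))) * (1 - 2 * ((b : ZMod M) * (k : ZMod M))) =
        1 - 4 * (b : ZMod M) * (k : ZMod M) * (1 - (b : ZMod M) * (k : ZMod M)) := by ring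
    have e2 : 1 - (b : ZMod M) * (k : ZMod M) = (a : ZMod M) * (n : ZMod M) := by
      rw [← habM]
      ring
    rw [e1, e2]
    have e3 : 4 * (b : ZMod M) * (k : ZMod M) * ((a : ZMod M) * (n : ZMod M)) =
        4 * (b : ZMod M) * (a : ZMod M) * ((n : ZMod M) * (k : ZMod M)) := by ring
    rw [e3, hnkM, mul_zero, sub_zero]
  · intro x hx
    have h1 := SEP_lev l M x hx
    have h2 : (2 : ZMod M) * (n : ZMod M) * x = 0 := by
      rw [hn]
      push_cast
      exact h1
    have e2 : (b : ZMod M) * (k : ZMod M) = 1 - (a : ZMod M) * (n : ZMod M) := by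
      rw [← habM]
      ring
    rw [e2]
    calc (1 - 2 * (1 - (a : ZMod M) * (n : ZMod M))) * x =
        -x + (a : ZMod M) * (2 * (n : ZMod M) * x) := by ring
      _ = -x := by rw [h2, mul_zero, add_zero]
  · intro l' hl' hne x hx
    have h1 := SEP_lev l' M x hx
    have hd : l' ^ M.factorization l' ∣ k := by
      have h3 : l' ^ M.factorization l' ∣ n * k := by
        rw [hnk]
        exact Nat.ordProj_dvd M l'
      refine Nat.Coprime.dvd_of_dvd_mul_left ?_ h3
      exact Nat.Coprime.pow _ _ ((Nat.coprime_primes hl' hl).mpr hne)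
    obtain ⟨c, hc⟩ := hd
    have h2 : (k : ZMod M) = (l' : ZMod M) ^ M.factorization l' * (c : ZMod M) := by
      rw [hc]
      push_cast
      ring
    rw [h2]
    calc (1 - 2 * ((b : ZMod M) * ((l' : ZMod M) ^ M.factorization l' * (c : ZMod M)))) * x =
        x - (b : ZMod M) * (c : ZMod M) * (2 * (l' : ZMod M) ^ M.factorization l' * x) := by ring
      _ = x := by rw [h1, mul_zero, sub_zero]

theorem p_SEP : Stmt_SEP := by
  intro M p f _ S A hp hprime hA hSt l hl
  rw [SEP_iff] at hSt ⊢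
  intro t
  obtain ⟨w, hww, hw1, hw2⟩ := SEP_unit l M (hprime l hl)
  let W : (ZMod M)ˣ := ⟨w, w, hww, hww⟩
  have h1 := hSt t
  have h2 := hSt (t * W)
  have h3 : ((t * W : (ZMod M)ˣ) : ZMod M) = (t : ZMod M) * w := rfl
  rw [h3] at h2
  rw [SEP_add] at h1 h2
  have h4 : ∑ l' ∈ S, (SEP_G M p f (A l') (t : ZMod M) - SEP_G M p f (A l') ((t : ZMod M) * w)) =
      0 := by
    rw [Finset.sum_sub_distrib, h1, h2, sub_zero]
  rw [Finset.sum_eq_single l] at h4
  · rw [SEP_odd M p f hp (A l) t w (fun x hx => ⟨(hA l hl x hx).1, hw1 x (hA l hl x hx).2⟩)] at h4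
    linarith
  · intro l' hl' hne
    rw [SEP_fix M p f (A l') t w
      (fun x hx => hw2 l' (hprime l' hl') hne x (hA l' hl' x hx).2), sub_self]
  · intro h
    exact absurd hl h

end Pool.FT
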