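import Pool.Agent.Work.MP_223b32_ft.Interface3

/-!
# Block SPC: specialisation
-/

namespace Pool.FT

open Finset Polynomial

theorem SPC_irred_of {A K : Type} [CommRing A] [IsDomain A] [UniqueFactorizationMonoid A]
    [Field K] [Algebra A K] [IsFractionRing A K] (P G : A[X]) (hP : Irreducible P)
    (hG : ¬ P ∣ G) (hd : derivative P ≠ 0) :
    ∃ (a b : A[X]) (δ : A), δ ≠ 0 ∧ a * P + b * (derivative P * G) = C δ := by
  classical
  have hinj : Function.Injective (algebraMap A K) := IsFractionRing.injective A K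
  have hmap : Function.Injective (Polynomial.map (algebraMap A K)) :=
    Polynomial.map_injective _ hinj
  have hdeg : P.natDegree ≠ 0 := by
    intro h0
    apply hd
    rw [Polynomial.eq_C_of_natDegree_eq_zero h0, derivative_C]
  have hprim : P.IsPrimitive := hP.isPrimitive hdeg
  have hirr : Irreducible (P.map (algebraMap A K)) :=
    (IsPrimitive.irreducible_iff_irreducible_map_fraction_map hprim).1 hP
  have h1 : ¬ P.map (algebraMap A K) ∣ G.map (algebraMap A K) := by
    intro h
    exact hG (hprim.dvd_of_fraction_map_dvd_fraction_map h)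
  have h2 : ¬ P.map (algebraMap A K) ∣ (derivative P).map (algebraMap A K) := by
    intro h
    have h3 := hprim.dvd_of_fraction_map_dvd_fraction_map h
    have h4 := Polynomial.degree_le_of_dvd h3 hd
    have h5 := Polynomial.degree_derivative_lt hP.ne_zero
    exact absurd h4 (not_le.2 h5)
  have hcop : IsCoprime (P.map (algebraMap A K))
      ((derivative P).map (algebraMap A K) * G.map (algebraMap A K)) :=
    ((hirr.coprime_iff_not_dvd).2 h2).mul_right ((hirr.coprime_iff_not_dvd).2 h1)
  obtain ⟨a, b, hab⟩ := hcop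
  obtain ⟨s, hs, hs'⟩ := IsLocalization.integerNormalization_spec (nonZeroDivisors A) a
  obtain ⟨t, ht, ht'⟩ := IsLocalization.integerNormalization_spec (nonZeroDivisors A) b
  have hs0 : s ≠ 0 := nonZeroDivisors.ne_zero hs
  have ht0 : t ≠ 0 := nonZeroDivisors.ne_zero ht
  refine ⟨C t * IsLocalization.integerNormalization (nonZeroDivisors A) a,
    C s * IsLocalization.integerNormalization (nonZeroDivisors A) b, s * t,
    mul_ne_zero hs0 ht0, ?_⟩
  apply hmap
  simp only [Polynomial.map_add, Polynomial.map_mul, Polynomial.map_C, hs', ht']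
  rw [Algebra.smul_def, Algebra.smul_def, Polynomial.algebraMap_apply,
    Polynomial.algebraMap_apply, map_mul, map_mul]
  linear_combination (C (algebraMap A K s) * C (algebraMap A K t)) * hab

theorem p_SPC : Stmt_SPC := by
  intro F _ r m e P G hP hG hd hme
  classical
  obtain ⟨a, b, δ, hδ, hab⟩ := SPC_irred_of (K := FractionRing (MvPolynomial (Fin r) F))
    P G hP hG hd
  have hdeg : P.natDegree ≠ 0 := by
    intro h0
    apply hd
    rw [Polynomial.eq_C_of_natDegree_eq_zero h0, derivative_C]
  refine ⟨δ * P.leadingCoeff, mul_ne_zero hδ (leadingCoeff_ne_zero.2 hP.ne_zero), ?_⟩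
  intro E _ φ hφ hpow
  rw [map_mul] at hφ
  have hφ1 : φ δ ≠ 0 := left_ne_zero_of_mul hφ
  have hφ2 : φ P.leadingCoeff ≠ 0 := right_ne_zero_of_mul hφ
  obtain ⟨u, R, hR⟩ := hpow
  let ψ : MvPolynomial (Fin r) F →+* AlgebraicClosure E := (algebraMap E (AlgebraicClosure E)).comp φ
  have hψ1 : ψ δ ≠ 0 := by
    intro h
    exact hφ1 ((map_eq_zero (algebraMap E (AlgebraicClosure E))).1 h)
  have hψ2 : ψ P.leadingCoeff ≠ 0 := by
    intro h
    exact hφ2 ((map_eq_zero (algebraMap E (AlgebraicClosure E))).1 h)
  have hnd : (P.map ψ).natDegree = P.natDegree :=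
    natDegree_map_of_leadingCoeff_ne_zero ψ hψ2
  have hdeg' : (P.map ψ).degree ≠ 0 := by
    intro h
    apply hdeg
    rw [← hnd]
    exact natDegree_eq_of_degree_eq_some h
  obtain ⟨θ, hθ⟩ := IsAlgClosed.exists_root (P.map ψ) hdeg'
  have hθ' : (P.map ψ).eval θ = 0 := hθ
  have hid := congrArg (fun q => (q.map ψ).eval θ) hab
  simp only [Polynomial.map_add, Polynomial.map_mul, Polynomial.map_C, eval_add, eval_mul,
    eval_C, hθ', mul_zero, zero_add] at hid
  have hPd : ((derivative P).map ψ).eval θ ≠ 0 := by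
    intro h
    rw [h] at hid
    simp at hid
    exact hψ1 hid.symm
  have hGe : (G.map ψ).eval θ ≠ 0 := by
    intro h
    rw [h] at hid
    simp at hid
    exact hψ1 hid.symm
  have hP0 : P.map ψ ≠ 0 := by
    intro h
    rw [h] at hnd
    simp at hnd
    exact hdeg hnd.symm
  have hG0 : G.map ψ ≠ 0 := by
    intro h
    rw [h] at hGe
    simp at hGe
  have hrm : rootMultiplicity θ (P.map ψ) = 1 := by
    have h1 : 0 < rootMultiplicity θ (P.map ψ) := (rootMultiplicity_pos hP0).2 hθ
    have h2 : ¬ 1 < rootMultiplicity θ (P.map ψ) := by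
      intro h
      have h3 := (one_lt_rootMultiplicity_iff_isRoot hP0).1 h
      apply hPd
      have h4 := h3.2
      rw [← derivative_map]
      exact h4
    omega
  have hrG : rootMultiplicity θ (G.map ψ) = 0 := by
    rw [rootMultiplicity_eq_zero_iff]
    intro h
    exact absurd h hGe
  have hD : ((P ^ e * G).map ψ) = (C u).map (algebraMap E (AlgebraicClosure E)) *
      (R.map (algebraMap E (AlgebraicClosure E))) ^ m := by
    have h1 := congrArg (Polynomial.map (algebraMap E (AlgebraicClosure E))) hR
    rw [Polynomial.map_map] at h1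
    rw [Polynomial.map_mul (p := C u), Polynomial.map_pow] at h1
    exact h1
  have hD0 : ((P ^ e * G).map ψ) ≠ 0 := by
    rw [Polynomial.map_mul, Polynomial.map_pow]
    exact mul_ne_zero (pow_ne_zero _ hP0) hG0
  have hc1 : rootMultiplicity θ ((P ^ e * G).map ψ) = e := by
    rw [← count_roots, Polynomial.map_mul, Polynomial.map_pow,
      roots_mul (mul_ne_zero (pow_ne_zero _ hP0) hG0), roots_pow, Multiset.count_add,
      Multiset.count_nsmul, count_roots, count_roots, hrm, hrG]
    simp
  have hc2 : m ∣ rootMultiplicity θ ((P ^ e * G).map ψ) := by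
    rw [hD] at hD0 ⊢
    rw [← count_roots, roots_mul hD0, Polynomial.map_C, roots_C, zero_add, roots_pow,
      Multiset.count_nsmul]
    exact Dvd.intro _ rfl
  rw [hc1] at hc2
  exact hme hc2

end Pool.FT
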