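import Pool.Agent.Work.MP_223b32_ft.Interface4

namespace Pool.FT

open Finset

theorem SPT_per (g : ℕ → ℕ) (q : ℕ) (hg : ∀ i, g (i + q) = g i) (k : ℕ) :
    ∑ i ∈ range (q * k), g i = k * ∑ i ∈ range q, g i := by
  have h1 : ∀ k i, g (q * k + i) = g i := by
    intro k
    induction k with
    | zero => intro i; rw [mul_zero, zero_add]
    | succ k ih =>
      intro i
      have e : q * (k + 1) + i = (q * k + i) + q := by ring
      rw [e, hg, ih]
  induction k with
  | zero => simp
  | succ k ih =>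
    rw [mul_add, mul_one, Finset.sum_range_add, ih, add_mul, one_mul]
    congr 1
    exact Finset.sum_congr rfl fun i _ => h1 k i

theorem SPT_shift (g : ℕ → ℕ) (f : ℕ) (hg : ∀ i, g (i + f) = g i) (e : ℕ) :
    ∑ i ∈ range f, g (i + e) = ∑ i ∈ range f, g i := by
  induction e with
  | zero => rfl
  | succ e ih =>
    rw [← ih]
    have h1 := Finset.sum_range_succ' (fun i => g (i + e)) f
    have h2 := Finset.sum_range_succ (fun i => g (i + e)) f
    have h3 : g (f + e) = g (0 + e) := by rw [add_comm f e, hg, zero_add]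
    have h4 : ∑ i ∈ range f, g (i + (e + 1)) = ∑ i ∈ range f, g (i + 1 + e) :=
      Finset.sum_congr rfl fun i _ => by congr 1; omega
    rw [h4]
    omega

theorem SPT_even (m p f : ℕ) [NeZero m] (hf : 0 < f) (hf1 : (p : ZMod m) ^ f = 1)
    (a : Multiset (ZMod m)) (hsum : a.sum = 0) (hodd : ¬ Even (Multiset.card a))
    (hst : Stick m p f a) : ∃ e : ℕ, (p : ZMod m) ^ e ≠ 1 ∧ (p : ZMod m) ^ e * (p : ZMod m) ^ e = 1 := by
  set q := orderOf (p : ZMod m) with hq
  have hqf : q ∣ f := orderOf_dvd_of_pow_eq_one hf1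
  obtain ⟨k, hk⟩ := hqf
  have hq0 : 0 < q := by
    rcases Nat.eq_zero_or_pos q with h | h
    · rw [h, zero_mul] at hk
      omega
    · exact h
  have hk0 : 0 < k := by
    rcases Nat.eq_zero_or_pos k with h | h
    · rw [h, mul_zero] at hk
      omega
    · exact h
  have hpq : (p : ZMod m) ^ q = 1 := pow_orderOf_eq_one _
  have hm : 0 < m := Nat.pos_of_ne_zero (NeZero.ne m)
  set g : ℕ → ℕ := fun i => (a.map (fun x => (((1 : (ZMod m)ˣ) : ZMod m) *
    (p : ZMod m) ^ i * x).val)).sum with hg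
  have hgp : ∀ i, g (i + q) = g i := by
    intro i
    simp only [hg, pow_add, hpq, mul_one]
  have hgm : ∀ i, m ∣ g i := by
    intro i
    rw [← ZMod.natCast_eq_zero_iff, hg]
    simp only
    rw [Nat.cast_multiset_sum, Multiset.map_map]
    have e : (a.map ((fun n : ℕ => (n : ZMod m)) ∘ fun x => (((1 : (ZMod m)ˣ) : ZMod m) *
        (p : ZMod m) ^ i * x).val)) = a.map (fun x => (p : ZMod m) ^ i * x) := by
      refine Multiset.map_congr rfl fun x _ => ?_
      simp only [Function.comp_apply, ZMod.natCast_zmod_val, Units.val_one, one_mul]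
    have e2 := congrArg Multiset.sum e
    refine e2.trans ?_
    rw [Multiset.sum_map_mul_left, Multiset.map_id', hsum, mul_zero]
  have h1 := hst 1
  have h2 : 2 * ∑ i ∈ range f, g i = f * (Multiset.card a) * m := h1
  rw [hk, SPT_per g q hgp k] at h2
  have h3 : m ∣ ∑ i ∈ range q, g i := Finset.dvd_sum fun i _ => hgm i
  obtain ⟨c, hc⟩ := h3
  rw [hc] at h2
  have h4 : 2 * c = q * Multiset.card a := by
    have e : (k * m) * (2 * c) = (k * m) * (q * Multiset.card a) := by
      calc (k * m) * (2 * c) = 2 * (k * (m * c)) := by ring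
        _ = q * k * (Multiset.card a) * m := h2
        _ = (k * m) * (q * Multiset.card a) := by ring
    exact Nat.eq_of_mul_eq_mul_left (Nat.mul_pos hk0 hm) e
  have h5 : Even q := by
    have h6 : Even (q * Multiset.card a) := ⟨c, by omega⟩
    rcases Nat.even_mul.mp h6 with h | h
    · exact h
    · exact absurd h hodd
  obtain ⟨e, he⟩ := h5
  refine ⟨e, ?_, ?_⟩
  · exact pow_ne_one_of_lt_orderOf (by omega) (by rw [← hq]; omega)
  · rw [← pow_add, ← he]
    exact hpq

theorem SPT_tri (m p f e : ℕ) [NeZero m] (hf1 : (p : ZMod m) ^ f = 1) (x y z : ZMod m)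
    (P : (ZMod m)ˣ) (hP : (P : ZMod m) = p)
    (H : ∀ s : (ZMod m)ˣ, ((s : ZMod m) * x).val + ((s : ZMod m) * y).val +
      ((s : ZMod m) * z).val + (((s : ZMod m) * (p : ZMod m) ^ e * x).val +
      ((s : ZMod m) * (p : ZMod m) ^ e * y).val + ((s : ZMod m) * (p : ZMod m) ^ e * z).val) =
        3 * m) :
    Stick m p f {x, y, z} := by
  intro t
  set g : ℕ → ℕ := fun i => (((t : ZMod m) * (p : ZMod m) ^ i * x).val +
    ((t : ZMod m) * (p : ZMod m) ^ i * y).val + ((t : ZMod m) * (p : ZMod m) ^ i * z).val) with hg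
  have e1 : ∀ i, (({x, y, z} : Multiset (ZMod m)).map
      (fun x => ((t : ZMod m) * (p : ZMod m) ^ i * x).val)).sum = g i := by
    intro i
    simp [hg, add_assoc]
  have e2 : ∀ i, g (i + f) = g i := by
    intro i
    simp only [hg, pow_add, hf1, mul_one]
  have e3 : ∀ i, g i + g (i + e) = 3 * m := by
    intro i
    have h := H (t * P ^ i)
    rw [Units.val_mul, Units.val_pow_eq_pow_val, hP] at h
    simp only [hg, pow_add]
    rw [← h]
    simp only [mul_assoc]
  have e4 := SPT_shift g f e2 e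
  have e5 : ∑ i ∈ range f, g i + ∑ i ∈ range f, g (i + e) = f * (3 * m) := by
    rw [← Finset.sum_add_distrib, Finset.sum_congr rfl fun i _ => e3 i, Finset.sum_const,
      Finset.card_range, smul_eq_mul]
  have e6 : Multiset.card ({x, y, z} : Multiset (ZMod m)) = 3 := rfl
  rw [Finset.sum_congr rfl fun i _ => e1 i, e6]
  calc 2 * ∑ i ∈ range f, g i = ∑ i ∈ range f, g i + ∑ i ∈ range f, g (i + e) := by
        rw [e4]; ring
    _ = f * (3 * m) := e5
    _ = f * 3 * m := by ring

theorem SPT_cls (m : ℕ) [NeZero m] (hm : GoodM m) (u : ZMod m) (hu : u * u = 1) (hu1 : u ≠ 1)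
    (hu2 : u ≠ -1) : ∃ n : ℕ, 3 ≤ n ∧ m = 2 ^ n ∧
      (u = 1 + ((2 ^ (n - 1) : ℕ) : ZMod m) ∨ u = -1 + ((2 ^ (n - 1) : ℕ) : ZMod m)) := by
  obtain ⟨h3, l, k, hl, hk, hmk⟩ := hm
  obtain ⟨w, hw⟩ : ∃ w : ℤ, (w : ZMod m) = u := ⟨(u.val : ℤ), by simp⟩
  have hdvd : (m : ℤ) ∣ (w - 1) * (w + 1) := by
    rw [← ZMod.intCast_zmod_eq_zero_iff_dvd]
    push_cast
    rw [hw]
    have e : (u - 1) * (u + 1) = u * u - 1 := by ring
    rw [e, hu, sub_self]
  have hn1 : ¬ (m : ℤ) ∣ w - 1 := by
    intro h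
    rw [← ZMod.intCast_zmod_eq_zero_iff_dvd] at h
    push_cast at h
    rw [hw] at h
    exact hu1 (sub_eq_zero.mp h)
  have hn2 : ¬ (m : ℤ) ∣ w + 1 := by
    intro h
    rw [← ZMod.intCast_zmod_eq_zero_iff_dvd] at h
    push_cast at h
    rw [hw] at h
    exact hu2 (eq_neg_of_add_eq_zero_left h)
  -- l must be 2
  have hl2 : l = 2 := by
    by_contra hne
    have hlp : Prime (l : ℤ) := Nat.prime_iff_prime_int.mp hl
    have hlk : ((l : ℤ) ^ k) ∣ (w - 1) * (w + 1) := by
      refine dvd_trans ?_ hdvd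
      rcases hmk with h | h
      · rw [h]; push_cast; exact dvd_refl _
      · rw [h]; push_cast; exact dvd_mul_left _ _
    have hnot : ¬ ((l : ℤ) ∣ w - 1 ∧ (l : ℤ) ∣ w + 1) := by
      rintro ⟨h1, h2⟩
      have h4 : (l : ℤ) ∣ 2 := by
        have := dvd_sub h2 h1
        have e : w + 1 - (w - 1) = 2 := by ring
        rwa [e] at this
      have h5 : l ∣ 2 := by exact_mod_cast h4
      exact hne ((Nat.prime_dvd_prime_iff_eq hl Nat.prime_two).mp h5)
    have hone : ((l : ℤ) ^ k) ∣ w - 1 ∨ ((l : ℤ) ^ k) ∣ w + 1 := by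
      by_cases h1 : (l : ℤ) ∣ w - 1
      · left
        have h2 : ¬ (l : ℤ) ∣ w + 1 := fun h => hnot ⟨h1, h⟩
        have h4 : IsCoprime ((l : ℤ) ^ k) (w + 1) :=
          ((Prime.coprime_iff_not_dvd hlp).mpr h2).pow_left
        exact h4.dvd_of_dvd_mul_right hlk
      · right
        have h4 : IsCoprime ((l : ℤ) ^ k) (w - 1) :=
          ((Prime.coprime_iff_not_dvd hlp).mpr h1).pow_left
        exact h4.dvd_of_dvd_mul_left hlk
    rcases hmk with h | h
    · have e : (m : ℤ) = (l : ℤ) ^ k := by rw [h]; push_cast; rfl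
      rw [e] at hn1 hn2
      rcases hone with h1 | h1
      · exact hn1 h1
      · exact hn2 h1
    · have e : (m : ℤ) = 2 * (l : ℤ) ^ k := by rw [h]; push_cast; rfl
      have h2 : (2 : ℤ) ∣ (w - 1) * (w + 1) := dvd_trans ⟨_, e⟩ hdvd
      have h4 : (2 : ℤ) ∣ w - 1 ∧ (2 : ℤ) ∣ w + 1 := by
        rcases Int.prime_two.dvd_or_dvd h2 with h5 | h5
        · exact ⟨h5, by omega⟩
        · exact ⟨by omega, h5⟩
      have hc : IsCoprime (2 : ℤ) ((l : ℤ) ^ k) := by
        refine IsCoprime.pow_right ?_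
        refine (Prime.coprime_iff_not_dvd Int.prime_two).mpr fun h5 => ?_
        have h6 : 2 ∣ l := by exact_mod_cast h5
        exact hne ((Nat.prime_dvd_prime_iff_eq Nat.prime_two hl).mp h6).symm
      rw [e] at hn1 hn2
      rcases hone with h1 | h1
      · exact hn1 (hc.mul_dvd h4.1 h1)
      · exact hn2 (hc.mul_dvd h4.2 h1)
  subst hl2
  obtain ⟨n, hn⟩ : ∃ n, m = 2 ^ (n + 1) := by
    rcases hmk with h | h
    · exact ⟨k - 1, by rw [h]; congr 1; omega⟩
    · exact ⟨k, by rw [h, pow_succ]; ring⟩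
  have hmz : (m : ℤ) = 2 * 2 ^ n := by rw [hn, pow_succ]; push_cast; ring
  have hn0 : n ≠ 0 := by
    rintro rfl
    rw [hn] at h3
    norm_num at h3
  have h2m : (2 : ℤ) ∣ (w - 1) * (w + 1) := dvd_trans ⟨_, hmz⟩ hdvd
  have hodd : w % 4 = 1 ∨ w % 4 = 3 := by
    rcases Int.prime_two.dvd_or_dvd h2m with h5 | h5 <;> omega
  have hcop : ∀ c : ℤ, IsCoprime ((2 : ℤ) ^ n) (2 * c + 1) := by
    intro c
    refine IsCoprime.pow_left ?_
    exact ⟨-c, 1, by ring⟩
  have hn3 : n ≠ 1 := by
    rintro rfl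
    norm_num at hmz
    rw [hmz] at hn1 hn2
    rcases hodd with h | h
    · exact hn1 (by omega)
    · exact hn2 (by omega)
  refine ⟨n + 1, by omega, hn, ?_⟩
  have hm0 : ((2 ^ (n + 1) : ℕ) : ZMod m) = 0 := by rw [← hn]; exact ZMod.natCast_self m
  rcases hodd with h | h
  · left
    obtain ⟨c, hc⟩ : ∃ c : ℤ, w + 1 = 2 * (2 * c + 1) := ⟨(w - 1) / 4, by omega⟩
    have h4 : ((2 : ℤ) ^ n) ∣ (w - 1) * (2 * c + 1) := by
      rw [hc, hmz] at hdvd
      have e : (w - 1) * (2 * (2 * c + 1)) = 2 * ((w - 1) * (2 * c + 1)) := by ring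
      rw [e] at hdvd
      exact (mul_dvd_mul_iff_left (by norm_num : (2 : ℤ) ≠ 0)).mp hdvd
    have h5 : ((2 : ℤ) ^ n) ∣ w - 1 := (hcop c).dvd_of_dvd_mul_right h4
    obtain ⟨j, hj⟩ := h5
    rcases Int.even_or_odd' j with ⟨i, hi | hi⟩
    · exact absurd ⟨i, by rw [hj, hi, hmz]; ring⟩ hn1
    · have e : w = 1 + 2 ^ n + (2 ^ (n + 1)) * i := by
        have : w = 1 + 2 ^ n * j := by linarith
        rw [this, hi, pow_succ]
        ring
      have hm0' : ((2 : ZMod m)) ^ (n + 1) = 0 := by
        have := hm0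
        push_cast at this
        exact this
      rw [← hw, e, Nat.add_sub_cancel]
      push_cast
      rw [hm0', zero_mul, add_zero]
  · right
    obtain ⟨c, hc⟩ : ∃ c : ℤ, w - 1 = 2 * (2 * c + 1) := ⟨(w - 3) / 4, by omega⟩
    have h4 : ((2 : ℤ) ^ n) ∣ (2 * c + 1) * (w + 1) := by
      rw [hc, hmz] at hdvd
      have e : (2 * (2 * c + 1)) * (w + 1) = 2 * ((2 * c + 1) * (w + 1)) := by ring
      rw [e] at hdvd
      exact (mul_dvd_mul_iff_left (by norm_num : (2 : ℤ) ≠ 0)).mp hdvd
    have h5 : ((2 : ℤ) ^ n) ∣ w + 1 := (hcop c).dvd_of_dvd_mul_left h4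
    obtain ⟨j, hj⟩ := h5
    rcases Int.even_or_odd' j with ⟨i, hi | hi⟩
    · exact absurd ⟨i, by rw [hj, hi, hmz]; ring⟩ hn2
    · have e : w = -1 + 2 ^ n + (2 ^ (n + 1)) * i := by
        have : w = -1 + 2 ^ n * j := by linarith
        rw [this, hi, pow_succ]
        ring
      have hm0' : ((2 : ZMod m)) ^ (n + 1) = 0 := by
        have := hm0
        push_cast at this
        exact this
      rw [← hw, e, Nat.add_sub_cancel]
      push_cast
      rw [hm0', zero_mul, add_zero]

theorem SPT_neg (m : ℕ) [NeZero m] (y : ZMod m) (hy : y ≠ 0) : y.val + (-y).val = m := by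
  rw [ZMod.neg_val, if_neg hy]
  have := ZMod.val_lt y
  omega

theorem p_SPT (hSUX : Stmt_SUX) : Stmt_SPT := by
  intro m p f _ hm hp hf hf1 a ha0 hsum hodd hst
  obtain ⟨e, he1, he2⟩ := SPT_even m p f hf hf1 a hsum hodd hst
  have h3 : 3 ≤ m := hm.1
  have h10 : (1 : ZMod m) ≠ 0 := by
    have : Fact (1 < m) := ⟨by omega⟩
    exact one_ne_zero
  by_cases hu2 : (p : ZMod m) ^ e = -1
  · have h20 : (-2 : ZMod m) ≠ 0 := by
      intro h
      have h4 : ((2 : ℕ) : ZMod m) = 0 := by
        push_cast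
        exact neg_eq_zero.mp h
      rw [ZMod.natCast_eq_zero_iff] at h4
      have := Nat.le_of_dvd (by norm_num) h4
      omega
    refine ⟨1, 1, -2, h10, h10, h20, by ring, ?_⟩
    refine hSUX m p f e hf hf1 hu2 _ ?_
    intro h
    simp only [Multiset.insert_eq_cons, Multiset.mem_cons, Multiset.mem_singleton] at h
    rcases h with h | h | h
    · exact h10 h.symm
    · exact h10 h.symm
    · exact h20 h.symm
  · obtain ⟨n, hn3, hmn, hu⟩ := SPT_cls m hm _ he2 he1 hu2
    set P : (ZMod m)ˣ := ZMod.unitOfCoprime p hp with hPdef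
    have hP : (P : ZMod m) = p := ZMod.coe_unitOfCoprime p hp
    set h : ZMod m := ((2 ^ (n - 1) : ℕ) : ZMod m) with hh
    have hhh : h + h = 0 := by
      have e1 : h + h = ((2 ^ (n - 1) + 2 ^ (n - 1) : ℕ) : ZMod m) := by rw [Nat.cast_add]
      have e2 : 2 ^ (n - 1) + 2 ^ (n - 1) = m := by
        rw [hmn]
        obtain ⟨k, rfl⟩ : ∃ k, n = k + 1 := ⟨n - 1, by omega⟩
        rw [Nat.add_sub_cancel, pow_succ]
        ring
      rw [e1, e2, ZMod.natCast_self]
    have hh0 : h ≠ 0 := by
      intro h0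
      rw [hh, ZMod.natCast_eq_zero_iff, hmn] at h0
      have h4 := (Nat.pow_dvd_pow_iff_le_right (by norm_num : 1 < 2)).mp h0
      omega
    have hsq : h * h = 0 := by
      rw [hh, ← Nat.cast_mul, ZMod.natCast_eq_zero_iff, hmn, ← pow_add]
      exact pow_dvd_pow _ (by omega)
    have hsh : ∀ s : (ZMod m)ˣ, (s : ZMod m) * h = h := by
      intro s
      have h4 := ZMod.val_coe_unit_coprime s
      have h5 : Odd (s : ZMod m).val := by
        have h2m : 2 ∣ m := by
          rw [hmn]
          exact dvd_pow_self 2 (by omega)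
        rw [← Nat.coprime_two_right]
        exact Nat.Coprime.coprime_dvd_right h2m h4
      obtain ⟨c, hc⟩ := h5
      have h6 : (s : ZMod m) = ((2 * c + 1 : ℕ) : ZMod m) := by
        rw [← hc, ZMod.natCast_zmod_val]
      rw [h6]
      push_cast
      calc (2 * (c : ZMod m) + 1) * h = (c : ZMod m) * (h + h) + h := by ring
        _ = h := by rw [hhh, mul_zero, zero_add]
    have hs0 : ∀ s : (ZMod m)ˣ, (s : ZMod m) ≠ 0 := by
      intro s hs
      have := hsh s
      rw [hs, zero_mul] at this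
      exact hh0 this.symm
    have hsh0 : ∀ s : (ZMod m)ˣ, (s : ZMod m) + h ≠ 0 := by
      intro s hs
      have h4 : ((s : ZMod m) + h) * h = 0 := by rw [hs, zero_mul]
      rw [add_mul, hsh, hsq, add_zero] at h4
      exact hh0 h4
    have hnh : -h = h := neg_eq_of_add_eq_zero_left hhh
    have hvh : h.val + h.val = m := by
      have := SPT_neg m h hh0
      rwa [hnh] at this
    rcases hu with hu | hu
    · refine ⟨1, -1 + h, h, h10, ?_, hh0, ?_, ?_⟩
      · intro h0
        have h4 := hsh0 1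
        apply h4
        rw [Units.val_one]
        have e1 : (1 : ZMod m) + h = -(-1 + h) + (h + h) := by ring
        rw [e1, h0, hhh, neg_zero, add_zero]
      · have e1 : (1 : ZMod m) + (-1 + h) + h = h + h := by ring
        rw [e1, hhh]
      · refine SPT_tri m p f e hf1 1 (-1 + h) h P hP fun s => ?_
        have hs := hsh s
        have e1 : (s : ZMod m) * 1 = s := mul_one _
        have e2 : (s : ZMod m) * (-1 + h) = -(s + h) := by
          have : (s : ZMod m) * (-1 + h) = -s + s * h := by ring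
          rw [this, hs]
          have e3 : -(s : ZMod m) + h = -(s + h) + (h + h) := by ring
          rw [e3, hhh, add_zero]
        have e4 : (s : ZMod m) * (p : ZMod m) ^ e * 1 = s + h := by
          rw [hu, mul_one, mul_add, mul_one, hs]
        have e5 : (s : ZMod m) * (p : ZMod m) ^ e * (-1 + h) = -s := by
          have e6 : (s : ZMod m) * (p : ZMod m) ^ e = s + h := by
            rw [hu, mul_add, mul_one, hs]
          rw [e6]
          have e7 : ((s : ZMod m) + h) * (-1 + h) = -s + (s * h - h) + h * h := by ring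
          rw [e7, hs, hsq]
          ring
        have e8 : (s : ZMod m) * (p : ZMod m) ^ e * h = h := by
          have e6 : (s : ZMod m) * (p : ZMod m) ^ e = s + h := by
            rw [hu, mul_add, mul_one, hs]
          rw [e6, add_mul, hs, hsq, add_zero]
        rw [e1, e2, hs, e4, e5, e8]
        have n1 := SPT_neg m (s : ZMod m) (hs0 s)
        have n2 := SPT_neg m ((s : ZMod m) + h) (hsh0 s)
        omega
    · have h40 : ∀ s : (ZMod m)ˣ, -2 * (s : ZMod m) + h ≠ 0 := by
        intro s h0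
        have h4 : (4 : ZMod m) * s = 0 := by
          have e1 : (4 : ZMod m) * s = -2 * (-2 * (s : ZMod m) + h) + (h + h) := by ring
          rw [e1, h0, hhh, mul_zero, add_zero]
        have h5 : (4 : ZMod m) = 0 := by
          have := congrArg (fun y => y * ((s⁻¹ : (ZMod m)ˣ) : ZMod m)) h4
          simpa [mul_assoc] using this
        have h6 : ((4 : ℕ) : ZMod m) = 0 := by
          push_cast
          exact h5
        rw [ZMod.natCast_eq_zero_iff, hmn] at h6
        have h7 := Nat.le_of_dvd (by norm_num) h6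
        have h8 : 2 ^ 3 ≤ 2 ^ n := Nat.pow_le_pow_right (by norm_num) hn3
        omega
      refine ⟨1, 1 + h, -2 + h, h10, ?_, ?_, ?_, ?_⟩
      · have := hsh0 1
        rwa [Units.val_one] at this
      · have := h40 1
        rwa [Units.val_one, mul_one] at this
      · have e1 : (1 : ZMod m) + (1 + h) + (-2 + h) = h + h := by ring
        rw [e1, hhh]
      · refine SPT_tri m p f e hf1 1 (1 + h) (-2 + h) P hP fun s => ?_
        have hs := hsh s
        have e1 : (s : ZMod m) * 1 = s := mul_one _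
        have e2 : (s : ZMod m) * (1 + h) = s + h := by rw [mul_add, mul_one, hs]
        have e3 : (s : ZMod m) * (-2 + h) = -2 * s + h := by rw [mul_add, hs]; ring
        have e6 : (s : ZMod m) * (p : ZMod m) ^ e = -s + h := by
          rw [hu, mul_add, hs]; ring
        have e4 : (s : ZMod m) * (p : ZMod m) ^ e * 1 = -(s + h) := by
          rw [e6, mul_one]
          have e7 : -(s : ZMod m) + h = -(s + h) + (h + h) := by ring
          rw [e7, hhh, add_zero]
        have e5 : (s : ZMod m) * (p : ZMod m) ^ e * (1 + h) = -s := by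
          rw [e6]
          have e7 : (-(s : ZMod m) + h) * (1 + h) = -s - (s * h - h) + h * h := by ring
          rw [e7, hs, hsq]
          ring
        have e8 : (s : ZMod m) * (p : ZMod m) ^ e * (-2 + h) = -(-2 * s + h) := by
          rw [e6]
          have e7 : (-(s : ZMod m) + h) * (-2 + h) =
              -(-2 * s + h) - (s * h - h) - (h + h) + h * h := by ring
          rw [e7, hs, hsq, hhh]
          ring
        rw [e1, e2, e3, e4, e5, e8]
        have n1 := SPT_neg m (s : ZMod m) (hs0 s)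
        have n2 := SPT_neg m ((s : ZMod m) + h) (hsh0 s)
        have n3 := SPT_neg m (-2 * (s : ZMod m) + h) (h40 s)
        omega

end Pool.FT
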