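import Pool.Agent.Work.MP_223b32_ft.Interface3

/-! # Block SRD: the coefficients of the L-function of a polynomial (helper38) -/

namespace Pool.FT

open Polynomial Finset

theorem SRD_sqrt (a : ℝ) (ha : 0 ≤ a) (n : ℕ) : √(a ^ n) = (√a) ^ n := by
  induction n with
  | zero => simp
  | succ n ih => rw [pow_succ, Real.sqrt_mul (pow_nonneg ha n), ih, pow_succ]

theorem SRD_conv (q r n : ℕ) :
    (((q ^ n : ℕ) : ℝ)) ^ r / √((q ^ n : ℕ) : ℝ) = ((q : ℝ) ^ r / √(q : ℝ)) ^ n := by
  rw [Nat.cast_pow, SRD_sqrt _ (Nat.cast_nonneg q), div_pow, ← pow_mul, ← pow_mul, Nat.mul_comm]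

theorem SRD_one {F : Type} [Field F] [Fintype F] (χ : MulChar F ℂ) (y : F) (hy : y ≠ 0) :
    χ y ^ orderOf χ = 1 := by
  have h := MulChar.pow_apply_coe χ (orderOf χ) (Units.mk0 y hy)
  rw [pow_orderOf_eq_one, MulChar.one_apply_coe] at h
  exact h.symm

theorem SRD_pos {F : Type} [Field F] [Fintype F] (χ : MulChar F ℂ) : 0 < orderOf χ :=
  orderOf_pos χ

theorem SRD_norm {F : Type} [Field F] [Fintype F] (χ : MulChar F ℂ) (y : F) (hy : y ≠ 0) :
    ‖χ y‖ = 1 :=
  Complex.norm_eq_one_of_pow_eq_one (SRD_one χ y hy) (SRD_pos χ).ne'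

theorem SRD_zero {F : Type} [Field F] (χ : MulChar F ℂ) : χ 0 = 0 := MulChar.map_zero χ

theorem SRD_sum (F E : Type) [Field F] [Fintype F] [Field E] [Fintype E] [Algebra F E]
    (χ : MulChar F ℂ) (r : ℕ) (R : MvPolynomial (Fin r) F) (u : F) :
    ∑ x : Fin r → E,
        χ (Algebra.norm F (MvPolynomial.aeval x (MvPolynomial.C u * R ^ orderOf χ)))
      = χ u ^ Module.finrank F E * ((Fintype.card E : ℂ) ^ r
        - (Nat.card {x : Fin r → E // MvPolynomial.aeval x R = 0} : ℂ)) := by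
  classical
  have hfin : Module.Finite F E := inferInstance
  have h1 : ∀ x : Fin r → E,
      χ (Algebra.norm F (MvPolynomial.aeval x (MvPolynomial.C u * R ^ orderOf χ)))
        = χ u ^ Module.finrank F E *
          (1 - if MvPolynomial.aeval x R = 0 then (1 : ℂ) else 0) := by
    intro x
    have h2 : (MvPolynomial.aeval x (MvPolynomial.C u * R ^ orderOf χ) : E)
        = algebraMap F E u * (MvPolynomial.aeval x R) ^ orderOf χ := by
      rw [map_mul, map_pow, MvPolynomial.aeval_C]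
    rw [h2, map_mul, map_mul, Algebra.norm_algebraMap, map_pow, map_pow, map_pow]
    congr 1
    by_cases h : MvPolynomial.aeval x R = 0
    · rw [if_pos h, h, Algebra.norm_zero, SRD_zero, zero_pow (SRD_pos χ).ne', sub_self]
    · rw [if_neg h, sub_zero]
      exact SRD_one χ _ (Algebra.norm_ne_zero_iff.2 h)
  rw [Finset.sum_congr rfl (fun x _ => h1 x), ← Finset.mul_sum, Finset.sum_sub_distrib,
    Finset.sum_boole, Finset.sum_const, Nat.card_eq_fintype_card, Fintype.card_subtype]
  congr 2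
  rw [Finset.card_univ, Fintype.card_fun, Fintype.card_fin, nsmul_eq_mul, mul_one, Nat.cast_pow]

theorem SRD_rho {F : Type} [Field F] [Fintype F] (χ : MulChar F ℂ) {r : ℕ}
    (R : MvPolynomial (Fin r) F) (u : F) (v : MaximalSpectrum (MvPolynomial (Fin r) F))
    (hv : MvPolynomial.C u * R ^ orderOf χ ∉ v.asIdeal) :
    rho χ (MvPolynomial.C u * R ^ orderOf χ) v = χ u ^ pdeg v := by
  have hR : R ∉ v.asIdeal := by
    intro h
    exact hv (Ideal.mul_mem_left _ _ (Ideal.pow_mem_of_mem _ h _ (SRD_pos χ)))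
  have hR' : (Ideal.Quotient.mk v.asIdeal R : kap v) ≠ 0 := fun h =>
    hR (Ideal.Quotient.eq_zero_iff_mem.1 h)
  have h2 : (Ideal.Quotient.mk v.asIdeal (MvPolynomial.C u * R ^ orderOf χ) : kap v)
      = algebraMap F (kap v) u * (Ideal.Quotient.mk v.asIdeal R) ^ orderOf χ := by
    rw [map_mul, map_pow]
    rfl
  have hn : Algebra.norm F (Ideal.Quotient.mk v.asIdeal R : kap v) ≠ 0 :=
    Algebra.norm_ne_zero_iff.2 hR'
  have h3 : Algebra.norm F
      (Ideal.Quotient.mk v.asIdeal (MvPolynomial.C u * R ^ orderOf χ) : kap v)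
      = u ^ pdeg v * (Algebra.norm F (Ideal.Quotient.mk v.asIdeal R : kap v)) ^ orderOf χ := by
    rw [h2, map_mul, Algebra.norm_algebraMap, map_pow]
    rfl
  have h4 : rho χ (MvPolynomial.C u * R ^ orderOf χ) v
      = χ (u ^ pdeg v * (Algebra.norm F (Ideal.Quotient.mk v.asIdeal R : kap v)) ^ orderOf χ) :=
    congrArg χ h3
  rw [h4, map_mul, map_pow, map_pow, SRD_one χ _ hn, mul_one]

theorem p_SRD (hMVB : Stmt_MVB) (hSZC : Stmt_SZC) (hEXT : Stmt_EXT) (hPTS : Stmt_PTS)
    (hNRM : Stmt_NRM) : Stmt_SRD := by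
  intro F _ _ χ r D hD
  have key : ∀ (E : Type) [Field E] [Fintype E] [Algebra F E],
      SV (pdeg (F := F) (r := r)) (rho χ D) (Module.finrank F E)
        = ∑ x : Fin r → E, χ (Algebra.norm F (MvPolynomial.aeval x D)) := by
    intro E _ _ _
    rw [← hPTS F E r (rho χ D)]
    exact Finset.sum_congr rfl (fun x _ => (hNRM F E χ r D x).symm)
  by_cases hM : MPow (orderOf χ) D
  · obtain ⟨u, R, hDR⟩ := hM
    have hu : u ≠ 0 := by
      rintro rfl
      exact hD (by rw [hDR, map_zero, zero_mul])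
    have hR : R ≠ 0 := by
      rintro rfl
      exact hD (by rw [hDR, zero_pow (SRD_pos χ).ne', mul_zero])
    obtain ⟨B, hB0, hB⟩ := hSZC F r R hR
    refine ⟨χ u, B, Or.inr ⟨SRD_norm χ u hu, ?_⟩, ?_, ?_⟩
    · intro v hv
      rw [hDR] at hv ⊢
      exact SRD_rho χ R u v hv
    · rintro rfl
      exact MulChar.one_apply_coe (Units.mk0 u hu)
    · intro n hn
      obtain ⟨E, _, _, _, hE⟩ := hEXT F n hn
      have hcard : Fintype.card E = Fintype.card F ^ n := by
        rw [← hE]
        exact Module.card_eq_pow_finrank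
      have h1 := key E
      rw [hE, hDR, SRD_sum F E χ r R u, hE] at h1
      rw [← hDR] at h1
      have h2 := hB E
      set N : ℕ := Nat.card {x : Fin r → E // MvPolynomial.aeval x R = 0} with hN
      have hpos : (0 : ℝ) < Fintype.card E := by exact_mod_cast Fintype.card_pos
      have hone : (1 : ℝ) ≤ Fintype.card E := by exact_mod_cast Fintype.card_pos
      have h3 : SV (pdeg (F := F) (r := r)) (rho χ D) n - (χ u * (Fintype.card F : ℂ) ^ r) ^ n
          = - (χ u ^ n * (N : ℂ)) := by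
        rw [h1, hcard, Nat.cast_pow, mul_pow, ← pow_mul, ← pow_mul, Nat.mul_comm n r]
        ring
      rw [h3, norm_neg, norm_mul, norm_pow, SRD_norm χ u hu, one_pow, one_mul,
        Complex.norm_natCast, ← SRD_conv, ← hcard]
      have hs : 0 < √(Fintype.card E : ℝ) := Real.sqrt_pos.2 hpos
      have hs1 : √(Fintype.card E : ℝ) ≤ Fintype.card E := by
        rw [Real.sqrt_le_left (by linarith)]
        nlinarith
      have hNn : (0 : ℝ) ≤ (N : ℝ) := Nat.cast_nonneg N
      rw [← mul_div_assoc, le_div_iff₀ hs]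
      exact (mul_le_mul_of_nonneg_left hs1 hNn).trans h2
  · obtain ⟨B, hB⟩ := hMVB F χ r D hD hM
    refine ⟨0, B, Or.inl rfl, ?_, ?_⟩
    · rintro rfl
      exfalso
      apply hM
      refine ⟨1, D, ?_⟩
      rw [orderOf_one, pow_one, map_one, one_mul]
    · intro n hn
      obtain ⟨E, _, _, _, hE⟩ := hEXT F n hn
      have hcard : Fintype.card E = Fintype.card F ^ n := by
        rw [← hE]
        exact Module.card_eq_pow_finrank
      have h1 := key E
      rw [hE] at h1
      rw [zero_mul, zero_pow hn.ne', sub_zero, h1, ← SRD_conv, ← hcard]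
      exact hB E

end Pool.FT
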