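import Pool.Agent.Work.MP_223b32_ft.Interface

/-!
Block STI: Stickelberger's valuation of the Gauss sums.
-/

namespace Pool.FT

open Finset

theorem STI_dig_mul (p m : ℕ) (hp : 1 < p) : (Nat.digits p (p * m)).sum = (Nat.digits p m).sum := by
  rcases Nat.eq_zero_or_pos m with rfl | hm
  · simp
  · rw [Nat.digits_def' hp (Nat.mul_pos (by omega) hm), Nat.mul_mod_right, Nat.mul_div_cancel_left _ (by omega)]
    simp

theorem STI_dig_sub (p k : ℕ) (hp : 1 < p) (hk : 1 < k) (hd : ¬ p ∣ k) :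
    (Nat.digits p k).sum = (Nat.digits p (k - 1)).sum + 1 := by
  have h0 : k % p ≠ 0 := fun h => hd (Nat.dvd_of_mod_eq_zero h)
  have h1 := Nat.div_add_mod k p
  have h2 := Nat.mod_lt k (show 0 < p by omega)
  have h3 : (k - 1) / p = k / p := by
    have h4 : k - 1 = (k % p - 1) + p * (k / p) := by omega
    rw [h4, Nat.add_mul_div_left _ _ (by omega), Nat.div_eq_of_lt (by omega), zero_add]
  have h5 : (k - 1) % p = k % p - 1 := by
    have h4 : k - 1 = (k % p - 1) + p * (k / p) := by omega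
    rw [h4, Nat.add_mul_mod_self_left, Nat.mod_eq_of_lt (by omega)]
  rw [Nat.digits_def' hp (show 0 < k by omega), Nat.digits_def' hp (show 0 < k - 1 by omega), h3, h5,
    List.sum_cons, List.sum_cons]
  omega

theorem p_STI (hPIZ : Stmt_PIZ) (hGSO : Stmt_GSO) (hGSF : Stmt_GSF) (hDSM : Stmt_DSM) : Stmt_STI := by
  intro p f _ F _ _ _ E _ _ _ hpE hq h2 ζ hζ ω hω k hk0 hk1
  have hp : p.Prime := Fact.out
  have hp1 : 1 < p := hp.one_lt
  have hf : 0 < f := by
    rcases Nat.eq_zero_or_pos f with h | h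
    · rw [hq, h, pow_zero] at h2
      omega
    · exact h
  obtain ⟨g1, g2, g3, -⟩ := hGSF p F E ζ hζ
  set G : MulChar F E → ℝ := fun χ => ‖gaussSum χ (psi p (F := F) ζ hζ.pow_eq_one)‖ with hG
  have G1 : ∀ χ : MulChar F E, G (χ ^ p) = G χ := fun χ => by
    simp only [hG]; rw [g1 χ]
  have G2 : ∀ χ φ : MulChar F E, χ * φ ≠ 1 → G χ * G φ ≤ G (χ * φ) := g2
  have G3 : ∀ χ : MulChar F E, χ ≠ 1 → G χ * G χ⁻¹ = ‖(Fintype.card F : E)‖ := g3
  have G0 : G ω⁻¹ = ‖ζ - 1‖ := hGSO p f F E hpE hq h2 ζ hζ ω hω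
  have hne : ∀ k : ℕ, 0 < k → k < Fintype.card F - 1 → (ω ^ k)⁻¹ ≠ 1 := by
    intro k hk0 hk1 h
    rw [inv_eq_one] at h
    have h3 := orderOf_dvd_of_pow_eq_one h
    rw [hω.ord] at h3
    exact absurd (Nat.le_of_dvd hk0 h3) (by omega)
  have hlow : ∀ k : ℕ, 0 < k → k < Fintype.card F - 1 → ‖ζ - 1‖ ^ (Nat.digits p k).sum ≤ G (ω ^ k)⁻¹ := by
    intro k
    induction k using Nat.strong_induction_on with
    | _ k ih =>
      intro hk0 hk1
      rcases Nat.lt_or_ge 1 k with hk | hk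
      · by_cases hd : p ∣ k
        · obtain ⟨m, rfl⟩ := hd
          have hm : 0 < m := Nat.pos_of_mul_pos_left hk0
          have hm1 : m < p * m := by nlinarith
          rw [STI_dig_mul p m hp1]
          have h3 : (ω ^ (p * m))⁻¹ = ((ω ^ m)⁻¹) ^ p := by
            rw [inv_pow, ← pow_mul, mul_comm p m]
          rw [h3, G1]
          exact ih m hm1 hm (by omega)
        · rw [STI_dig_sub p k hp1 hk hd, pow_succ]
          have h3 : (ω ^ k)⁻¹ = (ω ^ (k - 1))⁻¹ * ω⁻¹ := by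
            rw [← mul_inv, ← pow_succ, Nat.sub_add_cancel hk.le]
          have h4 := ih (k - 1) (by omega) (by omega) (by omega)
          have h5 := G2 (ω ^ (k - 1))⁻¹ ω⁻¹ (by rw [← h3]; exact hne k hk0 hk1)
          rw [← h3, G0] at h5
          exact le_trans (mul_le_mul_of_nonneg_right h4 (norm_nonneg _)) h5
      · have h3 : k = 1 := by omega
        subst h3
        rw [pow_one, G0]
        have h4 : (Nat.digits p 1).sum = 1 := by
          rw [Nat.digits_of_lt p 1 one_ne_zero hp1]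
          rfl
        rw [h4, pow_one]
  obtain ⟨q1, q2, -⟩ := hPIZ p E hpE ζ hζ
  have hpi : 0 < ‖ζ - 1‖ := by
    rw [norm_pos_iff, sub_ne_zero]
    rintro rfl
    exact hp1.ne' (hζ.unique (IsPrimitiveRoot.one))
  have hk' : 0 < Fintype.card F - 1 - k := by omega
  have hk1' : Fintype.card F - 1 - k < Fintype.card F - 1 := by omega
  have l1 := hlow k hk0 hk1
  have l2 := hlow (Fintype.card F - 1 - k) hk' hk1'
  have hinv : ((ω ^ k)⁻¹)⁻¹ = (ω ^ (Fintype.card F - 1 - k))⁻¹ := by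
    rw [inv_inv, eq_inv_iff_mul_eq_one, ← pow_add, Nat.add_sub_cancel' hk1.le, ← hω.ord, pow_orderOf_eq_one]
  have h3 := G3 (ω ^ k)⁻¹ (hne k hk0 hk1)
  rw [hinv] at h3
  have h4 : ‖(Fintype.card F : E)‖ = ‖ζ - 1‖ ^ (Nat.digits p k).sum *
      ‖ζ - 1‖ ^ (Nat.digits p (Fintype.card F - 1 - k)).sum := by
    rw [← pow_add, hq, (hDSM p f k hp hf (by rw [← hq]; exact hk1)).2, pow_mul, q1, Nat.cast_pow, norm_pow]
  rw [h4] at h3
  have hA : 0 < ‖ζ - 1‖ ^ (Nat.digits p k).sum := pow_pos hpi _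
  have hB : 0 < ‖ζ - 1‖ ^ (Nat.digits p (Fintype.card F - 1 - k)).sum := pow_pos hpi _
  show G (ω ^ k)⁻¹ = _
  refine le_antisymm ?_ l1
  by_contra hcon
  push Not at hcon
  have h5 : ‖ζ - 1‖ ^ (Nat.digits p k).sum * ‖ζ - 1‖ ^ (Nat.digits p (Fintype.card F - 1 - k)).sum <
      G (ω ^ k)⁻¹ * G (ω ^ (Fintype.card F - 1 - k))⁻¹ :=
    mul_lt_mul hcon l2 hB (le_trans hA.le l1)
  exact absurd h3 h5.ne'

end Pool.FT
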