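import Pool.Agent.Work.MP_223b32_ft.Interface

/-!
# THEOREM FT: block STK
-/

namespace Pool.FT

open Finset

/-- the eigenvalue of a base change -/
theorem STK_eig (hLMH : Stmt_LMH) {F K E : Type} [Field F] [Fintype F] [Field K] [Field E] (σ : K →+* E)
    (χ : MulChar F K) {m : ℕ} {ι : Type} [Fintype ι] {n : ι → ℕ} (c : ∀ i, Fin (n i + 2) → Fˣ)
    (b : ∀ i, Cls m (n i)) : eigP (χ.ringHomComp σ) c b = σ (eigP χ c b) := by
  unfold eigP
  rw [map_prod]
  exact Finset.prod_congr rfl fun i _ => hLMH F K E σ χ m (n i) (c i) (b i)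

/-- `1` for a primitive class -/
def STK_d {m n : ℕ} : Cls m n → ℕ
  | Sum.inl _ => 0
  | Sum.inr _ => 1

/-- the exponent of the hyperplane class -/
def STK_r {m n : ℕ} : Cls m n → ℕ
  | Sum.inl r => r
  | Sum.inr _ => 0

/-- the sum of Stickelberger's condition -/
def STK_s {m : ℕ} (p f : ℕ) (t : (ZMod m)ˣ) (a : Multiset (ZMod m)) : ℕ :=
  ∑ i ∈ range f, (a.map (fun x => ((t : ZMod m) * (p : ZMod m) ^ i * x).val)).sum

theorem STK_s_sum {m : ℕ} (p f : ℕ) (t : (ZMod m)ˣ) {ι : Type} [Fintype ι] (M : ι → Multiset (ZMod m)) :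
    STK_s p f t (∑ i, M i) = ∑ i, STK_s p f t (M i) := by
  unfold STK_s
  rw [Finset.sum_comm]
  refine Finset.sum_congr rfl fun i _ => ?_
  exact map_sum ((Multiset.sumAddMonoidHom : Multiset ℕ →+ ℕ).comp
    (Multiset.mapAddMonoidHom (fun x : ZMod m => ((t : ZMod m) * (p : ZMod m) ^ i * x).val))) M univ

theorem STK_s_inr {m : ℕ} (p f : ℕ) (t : (ZMod m)ˣ) {n : ℕ} (a : Prim m n) :
    STK_s p f t (charsC (Sum.inr a : Cls m n)) =
      ∑ k, ∑ i ∈ range f, ((t : ZMod m) * (p : ZMod m) ^ i * a.1 k).val := by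
  unfold STK_s charsC
  rw [Finset.sum_comm]
  refine Finset.sum_congr rfl fun i _ => ?_
  rw [Multiset.map_map]
  rfl

theorem STK_card {m n : ℕ} (b : Cls m n) :
    2 * STK_r b + Multiset.card (charsC b) = degC b + 2 * STK_d b := by
  rcases b with r | a
  · simp [STK_r, charsC, degC, STK_d]
  · simp [STK_r, charsC, degC, STK_d]

/-- values of characters at units have norm one -/
theorem STK_unit {F E : Type} [Field F] [Fintype F] [NormedField E] (χ : MulChar F E) (u : Fˣ) :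
    ‖χ (u : F)‖ = 1 := by
  classical
  apply IsOfFinOrder.norm_eq_one
  rw [isOfFinOrder_iff_pow_eq_one]
  refine ⟨Fintype.card Fˣ, Fintype.card_pos, ?_⟩
  rw [← map_pow, ← Units.val_pow_eq_pow_val, pow_card_eq_one]
  simp

/-- `q - 1` has norm one -/
theorem STK_sub {E : Type} [NormedField E] [IsUltrametricDist E] (q : E) (hq : ‖q‖ < 1) : ‖q - 1‖ = 1 := by
  have h : ‖q + (-1)‖ = max ‖q‖ ‖(-1 : E)‖ := by
    apply IsUltrametricDist.norm_add_eq_max_of_norm_ne_norm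
    rw [norm_neg, norm_one]
    exact hq.ne
  rw [norm_neg, norm_one, max_eq_right hq.le] at h
  rw [sub_eq_add_neg]; exact h

theorem STK_lam (hGJA : Stmt_GJA) (hGSF : Stmt_GSF) {p f m : ℕ} [Fact p.Prime] [NeZero m] {F : Type}
    [Field F] [Fintype F] [Algebra (ZMod p) F] {E : Type} [NormedField E] [IsUltrametricDist E]
    [CharZero E] (hp : ‖(p : E)‖ < 1) (hcard : Fintype.card F = p ^ f) (hf : f ≠ 0) {ζ : E}
    (hζ : IsPrimitiveRoot ζ p) (t : (ZMod m)ˣ) (χ : MulChar F E) (hχ : orderOf χ = m)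
    (h : ∀ x : ZMod m, x ≠ 0 → ‖gaussSum (χ ^ x.val) (psi p (F := F) ζ hζ.pow_eq_one)‖ ^ m
          = ‖(p : E)‖ ^ (∑ i ∈ range f, ((t : ZMod m) * (p : ZMod m) ^ i * x).val))
    {n : ℕ} (c : Fin (n + 2) → Fˣ) (b : Cls m n) :
    ‖lam χ c b‖ ^ m * ‖(p : E)‖ ^ (f * m * STK_d b) =
      ‖(p : E)‖ ^ (STK_s p f t (charsC b) + f * m * STK_r b) := by
  have hq : (Fintype.card F : E) = (p : E) ^ f := by rw [hcard]; push_cast; rfl
  have hqn : ‖(Fintype.card F : E)‖ = ‖(p : E)‖ ^ f := by rw [hq, norm_pow]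
  rcases b with r | a
  · have h1 : STK_s p f t (charsC (Sum.inl r : Cls m n)) = 0 := by simp [STK_s, charsC]
    rw [h1]
    simp only [STK_d, STK_r, lam, mul_zero, pow_zero, mul_one, zero_add]
    rw [norm_pow, hqn, ← pow_mul, ← pow_mul]
    congr 1
    ring
  · have hlt : ‖(Fintype.card F : E)‖ < 1 := by
      rw [hqn]; exact pow_lt_one₀ (norm_nonneg _) hp hf
    have h1 := hGJA F E (psi p (F := F) ζ hζ.pow_eq_one) (hGSF p F E ζ hζ).2.2.2 m χ hχ (n + 2) a.1
      (by omega) a.2.1 a.2.2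
    have h2 : ‖(Fintype.card F : E)‖ * ‖Jac χ a.1‖ =
        ∏ k, ‖gaussSum (χ ^ (a.1 k).val) (psi p (F := F) ζ hζ.pow_eq_one)‖ := by
      rw [← norm_mul, h1, norm_mul, STK_sub _ hlt, one_mul, norm_prod]
    have h3 : ‖lam χ c (Sum.inr a : Cls m n)‖ = ‖Jac χ a.1‖ := by
      have e1 : lam χ c (Sum.inr a : Cls m n) = (-1) ^ n * (∏ k, (χ ^ (a.1 k).val)⁻¹ (c k : F)) *
        (Jac χ a.1 / ((Fintype.card F : E) - 1)) := rfl
      rw [e1, norm_mul, norm_mul, norm_pow, norm_neg, norm_one, one_pow, one_mul, norm_prod, norm_div,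
        STK_sub _ hlt, div_one]
      rw [Finset.prod_eq_one fun k _ => STK_unit _ _, one_mul]
    rw [h3, STK_s_inr]
    simp only [STK_d, STK_r, mul_one, mul_zero, add_zero]
    rw [pow_mul, ← hqn, mul_comm, ← mul_pow, h2, ← Finset.prod_pow, ← Finset.prod_pow_eq_pow_sum]
    exact Finset.prod_congr rfl fun k _ => h _ (a.2.1 k)

theorem p_STK (hGJA : Stmt_GJA) (hTRF : Stmt_TRF) (hLMH : Stmt_LMH) (hSTX : Stmt_STX) (hGSF : Stmt_GSF) :
    Stmt_STK := by
  intro p f m _ _ F _ _ _ χ hm hcard hχ ι _ n c b j N hN hdeg heig t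
  let _ : Algebra (ZMod p) F := ZMod.algebra F p
  have hpp : p.Prime := Fact.out
  have hf : f ≠ 0 := by
    rintro rfl
    rw [pow_zero] at hcard
    have := Fintype.one_lt_card (α := F)
    omega
  have hpn : ‖(p : PadicAlgCl p)‖ = (p : ℝ)⁻¹ := by
    rw [← map_natCast (algebraMap ℚ_[p] (PadicAlgCl p)), PadicAlgCl.norm_extends, Padic.norm_p]
  have hp : ‖(p : PadicAlgCl p)‖ < 1 := by
    rw [hpn]; exact inv_lt_one_of_one_lt₀ (by exact_mod_cast hpp.one_lt)
  have hp0 : 0 < ‖(p : PadicAlgCl p)‖ := by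
    rw [hpn]; exact inv_pos.2 (by exact_mod_cast hpp.pos)
  have : NeZero p := ⟨hpp.ne_zero⟩
  have : NeZero ((p : ℕ) : PadicAlgCl p) := ⟨by exact_mod_cast hpp.ne_zero⟩
  obtain ⟨ζ, hζ⟩ := HasEnoughRootsOfUnity.exists_primitiveRoot (PadicAlgCl p) p
  have hdvd : m ∣ Fintype.card F - 1 := by rw [← hχ]; exact χ.orderOf_dvd_card_sub_one
  obtain ⟨χ', hχ', hx⟩ := hSTX p f m F (PadicAlgCl p) hp hcard hm hdvd ζ hζ t
  obtain ⟨K, _, i, σ, χ₀, h1, h2⟩ := hTRF F (PadicAlgCl p) χ χ' (by rw [hχ, hχ'])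
  have h3 : (eigP χ₀ c b) ^ N = (Fintype.card F : K) ^ (j * N) := by
    apply i.injective
    rw [map_pow, ← STK_eig hLMH, h1, heig, map_pow, map_natCast]
  have h4 : (eigP χ' c b) ^ N = (Fintype.card F : PadicAlgCl p) ^ (j * N) := by
    rw [← h2, STK_eig hLMH, ← map_pow, h3, map_pow, map_natCast]
  set π : ℝ := ‖(p : PadicAlgCl p)‖ with hπ
  have h5 : ‖eigP χ' c b‖ ^ N = π ^ (f * (j * N)) := by
    rw [← norm_pow, h4, norm_pow, hcard]
    push_cast
    rw [norm_pow, ← pow_mul]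
  have hl := fun k => STK_lam hGJA hGSF hp hcard hf hζ t χ' hχ' hx (c k) (b k)
  have h6 : ‖eigP χ' c b‖ ^ m * π ^ (f * m * ∑ k, STK_d (b k)) =
      π ^ (STK_s p f t (charsP b) + f * m * ∑ k, STK_r (b k)) := by
    unfold eigP charsP
    rw [STK_s_sum, norm_prod, Finset.mul_sum, Finset.mul_sum, ← Finset.prod_pow, ← Finset.prod_pow_eq_pow_sum,
      ← Finset.prod_mul_distrib, ← Finset.sum_add_distrib, ← Finset.prod_pow_eq_pow_sum]
    exact Finset.prod_congr rfl fun k _ => hl k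
  have h7 : π ^ (f * (j * N) * m + f * m * (∑ k, STK_d (b k)) * N) =
      π ^ ((STK_s p f t (charsP b) + f * m * ∑ k, STK_r (b k)) * N) := by
    rw [pow_mul _ (STK_s p f t (charsP b) + f * m * ∑ k, STK_r (b k)) N, ← h6, mul_pow, ← pow_mul, ← pow_mul,
      mul_comm m N, pow_mul _ N m, h5, ← pow_mul, ← pow_add]
  have h8 : f * (j * N) * m + f * m * (∑ k, STK_d (b k)) * N =
      (STK_s p f t (charsP b) + f * m * ∑ k, STK_r (b k)) * N := by
    exact pow_right_injective₀ hp0 hp.ne h7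
  have h9 : f * m * (j + ∑ k, STK_d (b k)) = STK_s p f t (charsP b) + f * m * ∑ k, STK_r (b k) := by
    apply Nat.eq_of_mul_eq_mul_right hN
    rw [← h8]; ring
  have h10 : 2 * (∑ k, STK_r (b k)) + Multiset.card (charsP b) = 2 * j + 2 * ∑ k, STK_d (b k) := by
    rw [← hdeg]
    unfold charsP degP
    have e1 : Multiset.card (∑ k, charsC (b k)) = ∑ k, Multiset.card (charsC (b k)) :=
      map_sum Multiset.cardHom _ _
    rw [e1, Finset.mul_sum, Finset.mul_sum, ← Finset.sum_add_distrib, ← Finset.sum_add_distrib]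
    exact Finset.sum_congr rfl fun k _ => STK_card (b k)
  change 2 * STK_s p f t (charsP b) = f * (Multiset.card (charsP b)) * m
  have h11 : f * m * (2 * (∑ k, STK_r (b k)) + Multiset.card (charsP b)) =
      2 * STK_s p f t (charsP b) + f * m * (2 * ∑ k, STK_r (b k)) := by
    rw [h10]
    have : f * m * (2 * j + 2 * ∑ k, STK_d (b k)) = 2 * (f * m * (j + ∑ k, STK_d (b k))) := by ring
    rw [this, h9]; ring
  nlinarith [h11]

end Pool.FT
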