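import Pool.Agent.Work.MP_223b32_ft.Interface

/-! # Block STX: characters of order `m` with prescribed slopes (helper71) -/

namespace Pool.FT

open Finset

theorem p_STX (hTEI : Stmt_TEI) (hPIZ : Stmt_PIZ) (hDSM : Stmt_DSM) (hSTI : Stmt_STI) :
    Stmt_STX := by
  intro p f m _ _ F _ _ _ E _ _ _ _ hp hq hm hdvd ζ hζ t
  have hchar : CharP F p := charP_of_injective_algebraMap (algebraMap (ZMod p) F).injective p
  obtain ⟨ω, hω⟩ := hTEI p F E hp
  have hpp : p.Prime := Fact.out
  have hcard : 1 < Fintype.card F := Fintype.one_lt_card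
  obtain ⟨M, hM⟩ := hdvd
  have hMpos : 0 < M := by
    rcases Nat.eq_zero_or_pos M with h | h
    · subst h
      omega
    · exact h
  have hq2 : 2 < Fintype.card F := by
    have h1 : m * 1 ≤ m * M := Nat.mul_le_mul_left m hMpos
    omega
  have hf : 0 < f := by
    rcases Nat.eq_zero_or_pos f with h | h
    · subst h
      rw [pow_zero] at hq
      omega
    · exact h
  have hord : orderOf ω = m * M := by rw [hω.ord, hM]
  have hcop : Nat.Coprime (t : ZMod m).val m := ZMod.val_coe_unit_coprime t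
  refine ⟨(ω ^ (M * (t : ZMod m).val))⁻¹, ?_, ?_⟩
  · rw [orderOf_inv, orderOf_pow, hord, mul_comm m M, Nat.gcd_mul_left, Nat.gcd_comm,
      hcop, mul_one, Nat.mul_div_cancel_left _ hMpos]
  · intro x hx
    obtain ⟨y, hy⟩ : ∃ y : ℕ, y = ((t : ZMod m) * x).val := ⟨_, rfl⟩
    have hy0 : y ≠ 0 := by
      rw [hy]
      intro h
      rw [ZMod.val_eq_zero] at h
      rw [Units.mul_right_eq_zero] at h
      exact hx h
    have hym : y < m := by
      rw [hy]
      exact ZMod.val_lt _
    have hχ : (ω ^ (M * (t : ZMod m).val))⁻¹ ^ x.val = (ω ^ (M * y))⁻¹ := by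
      rw [inv_pow, ← pow_mul]
      congr 1
      rw [pow_eq_pow_iff_modEq, hord, mul_comm m M, mul_assoc]
      apply Nat.ModEq.mul_left'
      rw [hy, ZMod.val_mul]
      exact (Nat.mod_modEq _ _).symm
    have hk0 : 0 < M * y := Nat.mul_pos hMpos (Nat.pos_of_ne_zero hy0)
    have hk1 : M * y < Fintype.card F - 1 := by
      rw [hM, mul_comm m M]
      exact Nat.mul_lt_mul_of_pos_left hym hMpos
    rw [hχ, hSTI p f F E hp hq hq2 ζ hζ ω hω (M * y) hk0 hk1, ← pow_mul,
      ← (hPIZ p E hp ζ hζ).1, ← pow_mul]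
    congr 1
    have hk2 : M * y < p ^ f - 1 := by
      rw [← hq]
      exact hk1
    have h1 := (hDSM p f (M * y) hpp hf hk2).1
    rw [← hq, hM] at h1
    have h2 : ∀ j ∈ range f, (p ^ j * (M * y)) % (m * M) =
        M * ((t : ZMod m) * (p : ZMod m) ^ j * x).val := by
      intro j _
      have h3 : p ^ j * (M * y) = M * (p ^ j * y) := by ring
      rw [h3, mul_comm m M, Nat.mul_mod_mul_left]
      congr 1
      have h4 : ((t : ZMod m) * (p : ZMod m) ^ j * x) = ((p ^ j * y : ℕ) : ZMod m) := by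
        rw [Nat.cast_mul, Nat.cast_pow, hy, ZMod.natCast_zmod_val]
        ring
      rw [h4, ZMod.val_natCast]
    rw [Finset.sum_congr rfl h2, ← Finset.mul_sum] at h1
    have h5 : M * ((Nat.digits p (M * y)).sum * m) =
        M * ((p - 1) * ∑ i ∈ range f, ((t : ZMod m) * (p : ZMod m) ^ i * x).val) := by
      calc M * ((Nat.digits p (M * y)).sum * m) = m * M * (Nat.digits p (M * y)).sum := by ring
        _ = _ := by rw [h1]; ring
    exact Nat.eq_of_mul_eq_mul_left hMpos h5

end Pool.FT
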