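import Pool.Agent.Work.MP_223b32_ft.Interface

/-!
Block SUP: the supersingular case.
-/

namespace Pool.FT

open Finset

theorem SUP_odd (m p : ℕ) (Alg : Multiset (ZMod m) → Prop) (hA : FermatCycles m p Alg)
    (Q : Type) [AddCommGroup Q] (e : ZMod m → Q) (he : Kills Alg e) (x : ZMod m) :
    e (-x) = - e x := by
  by_cases hx : x = 0
  · subst hx
    rw [neg_zero, he.zero, neg_zero]
  · have h := he.kill _ (hA.pair x hx)
    simp only [Multiset.insert_eq_cons, Multiset.map_cons, Multiset.map_singleton,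
      Multiset.sum_cons, Multiset.sum_singleton] at h
    exact (neg_eq_of_add_eq_zero_right h).symm

theorem p_SUP : Stmt_SUP := by
  intro m p _ Alg hA hm hp Q _ e he a ha
  have hodd := SUP_odd m p Alg hA Q e he
  have h6 : ∀ x y z x' y' z' : ZMod m, x ≠ 0 → y ≠ 0 → z ≠ 0 → x + y + z = 0 →
      x' ≠ 0 → y' ≠ 0 → z' ≠ 0 → x' + y' + z' = 0 →
      (e x + e y + e z) + (e x' + e y' + e z') = 0 := by
    intro x y z x' y' z' hx hy hz hs hx' hy' hz' hs'
    have h := he.kill _ (hA.super hp x y z x' y' z' hx hy hz hs hx' hy' hz' hs')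
    simp only [Multiset.insert_eq_cons, Multiset.map_add, Multiset.map_cons,
      Multiset.map_singleton, Multiset.sum_add, Multiset.sum_cons, Multiset.sum_singleton] at h
    rw [← h]
    abel
  have h1 : (1 : ZMod m) ≠ 0 := by
    intro h
    have h2 : ((1 : ℕ) : ZMod m) = 0 := by exact_mod_cast h
    rw [ZMod.natCast_eq_zero_iff] at h2
    have := Nat.le_of_dvd one_pos h2
    omega
  have h2 : (-2 : ZMod m) ≠ 0 := by
    intro h
    have h3 : ((2 : ℕ) : ZMod m) = 0 := by
      push_cast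
      exact neg_eq_zero.mp h
    rw [ZMod.natCast_eq_zero_iff] at h3
    have := Nat.le_of_dvd two_pos h3
    omega
  obtain ⟨τ, hτ⟩ : ∃ τ : Q, τ = e 1 + e 1 + e (-2) := ⟨_, rfl⟩
  have hs1 : (1 : ZMod m) + 1 + (-2) = 0 := by ring
  have hττ : τ + τ = 0 := by
    rw [hτ]
    exact h6 1 1 (-2) 1 1 (-2) h1 h1 h2 hs1 h1 h1 h2 hs1
  have hT : ∀ x y z : ZMod m, x ≠ 0 → y ≠ 0 → z ≠ 0 → x + y + z = 0 →
      e x + e y + e z = τ := by
    intro x y z hx hy hz hs
    have h := h6 x y z 1 1 (-2) hx hy hz hs h1 h1 h2 hs1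
    rw [← hτ] at h
    have h' := h.trans hττ.symm
    exact add_right_cancel h'
  have hadd : ∀ x y : ZMod m, (if x + y = 0 then 0 else e (x + y) + τ) =
      (if x = 0 then 0 else e x + τ) + (if y = 0 then 0 else e y + τ) := by
    intro x y
    by_cases hx : x = 0
    · subst hx
      rw [if_pos rfl, zero_add, zero_add]
    by_cases hy : y = 0
    · subst hy
      rw [if_pos rfl, add_zero, add_zero]
    rw [if_neg hx, if_neg hy]
    by_cases hs : x + y = 0
    · have hy2 : y = -x := (neg_eq_of_add_eq_zero_right hs).symm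
      rw [if_pos hs, hy2, hodd]
      have : e x + τ + (-e x + τ) = τ + τ := by abel
      rw [this, hττ]
    · rw [if_neg hs]
      have h := hT x y (-(x + y)) hx hy (neg_ne_zero.mpr hs) (by abel)
      rw [hodd] at h
      have h3 : e x + τ + (e y + τ) = (e x + e y) + (τ + τ) := by abel
      rw [h3, hττ, add_zero]
      rw [← sub_eq_add_neg, sub_eq_iff_eq_add] at h
      rw [h, add_comm]
  obtain ⟨f, hf⟩ : ∃ f : ZMod m →+ Q, ∀ x, f x = if x = 0 then 0 else e x + τ :=
    ⟨AddMonoidHom.mk' (fun x => if x = 0 then 0 else e x + τ) hadd, fun x => rfl⟩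
  obtain ⟨-, ha0, has, hac⟩ := ha
  have h3 : a.map e = a.map (fun x => f x - τ) := by
    refine Multiset.map_congr rfl fun x hx => ?_
    have hx0 : x ≠ 0 := by
      rintro rfl
      exact ha0 hx
    rw [hf, if_neg hx0, add_sub_cancel_right]
  rw [h3, Multiset.sum_map_sub, ← map_multiset_sum, has, map_zero, zero_sub, neg_eq_zero,
    Multiset.map_const', Multiset.sum_replicate]
  obtain ⟨k, hk⟩ := hac
  rw [hk, add_smul, ← smul_add, hττ, smul_zero]

end Pool.FT
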