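import Pool.Agent.Work.MP_223b32_ft.Interface4

namespace Pool.FT

open Finset

theorem SUX_shift (g : ℕ → ℕ) (f : ℕ) (hg : ∀ j, g (j + f) = g j) (i : ℕ) :
    ∑ j ∈ range f, g (j + i) = ∑ j ∈ range f, g j := by
  induction i with
  | zero => simp
  | succ i ih =>
    rw [← ih]
    have h1 := Finset.sum_range_succ (fun j => g (j + i)) f
    have h2 := Finset.sum_range_succ' (fun j => g (j + i)) f
    have h3 : g (f + i) = g (0 + i) := by
      rw [add_comm f i, hg, zero_add]
    have h4 : ∑ j ∈ range f, g (j + (i + 1)) = ∑ j ∈ range f, g (j + 1 + i) := by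
      refine Finset.sum_congr rfl fun j _ => ?_
      rw [show j + (i + 1) = j + 1 + i by ring]
    rw [h4]
    omega

theorem SUX_one (m p f i : ℕ) [NeZero m] (hf : 0 < f) (hpf : (p : ZMod m) ^ f = 1)
    (hpi : (p : ZMod m) ^ i = -1) (t : (ZMod m)ˣ) (x : ZMod m) (hx : x ≠ 0) :
    2 * ∑ j ∈ range f, ((t : ZMod m) * (p : ZMod m) ^ j * x).val = f * m := by
  have hpu : IsUnit (p : ZMod m) := by
    refine IsUnit.of_mul_eq_one ((p : ZMod m) ^ (f - 1)) ?_
    rw [← pow_succ']
    rw [show f - 1 + 1 = f by omega]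
    exact hpf
  have hne : ∀ j : ℕ, (t : ZMod m) * (p : ZMod m) ^ j * x ≠ 0 := by
    intro j h
    have hu : IsUnit ((t : ZMod m) * (p : ZMod m) ^ j) := t.isUnit.mul (hpu.pow j)
    exact hx ((hu.mul_right_eq_zero).mp h)
  have hs : ∑ j ∈ range f, ((t : ZMod m) * (p : ZMod m) ^ (j + i) * x).val =
      ∑ j ∈ range f, ((t : ZMod m) * (p : ZMod m) ^ j * x).val :=
    SUX_shift (fun j => ((t : ZMod m) * (p : ZMod m) ^ j * x).val) f (by
    intro j
    show ((t : ZMod m) * (p : ZMod m) ^ (j + f) * x).val = _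
    rw [pow_add, hpf, mul_one]) i
  have hn : ∀ j ∈ range f, ((t : ZMod m) * (p : ZMod m) ^ (j + i) * x).val
      + ((t : ZMod m) * (p : ZMod m) ^ j * x).val = m := by
    intro j _
    have e : (t : ZMod m) * (p : ZMod m) ^ (j + i) * x
        = -((t : ZMod m) * (p : ZMod m) ^ j * x) := by
      rw [pow_add, hpi]; ring
    rw [e, ZMod.neg_val, if_neg (hne j)]
    have := ZMod.val_lt ((t : ZMod m) * (p : ZMod m) ^ j * x)
    omega
  have hsum := Finset.sum_congr (rfl : range f = range f) hn
  rw [Finset.sum_add_distrib, Finset.sum_const, card_range, smul_eq_mul] at hsum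
  omega

theorem p_SUX : Stmt_SUX := by
  intro m p f i _ hf hpf hpi T hT t
  induction T using Multiset.induction_on with
  | empty => simp
  | cons x T ih =>
    have hx : x ≠ 0 := fun h => hT (by rw [h]; exact Multiset.mem_cons_self _ _)
    have hT' : (0 : ZMod m) ∉ T := fun h => hT (Multiset.mem_cons_of_mem h)
    have h1 := ih hT'
    have h2 := SUX_one m p f i hf hpf hpi t x hx
    simp only [Multiset.map_cons, Multiset.sum_cons, Multiset.card_cons]
    rw [Finset.sum_add_distrib, mul_add, h1, h2]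
    ring

end Pool.FT
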