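import Pool.Agent.Work.MP_223b32_ft.Interface3

/-! Block SZC: Schwartz-Zippel. -/

set_option autoImplicit false

namespace Pool.FT

open Finset

theorem p_SZC : Stmt_SZC := by
  intro F _ r D hD
  refine ⟨D.totalDegree, Nat.cast_nonneg _, ?_⟩
  intro E _ _ _
  classical
  have hp0 : MvPolynomial.map (algebraMap F E) D ≠ 0 := by
    intro h
    exact hD (MvPolynomial.map_injective _ (algebraMap F E).injective (by rw [h, map_zero]))
  have hdeg : (MvPolynomial.map (algebraMap F E) D).totalDegree ≤ D.totalDegree :=
    Finset.sup_mono (MvPolynomial.support_map_subset _ _)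
  have h := MvPolynomial.schwartz_zippel_totalDegree hp0 (Finset.univ : Finset E)
  have hcard : Nat.card {x : Fin r → E // MvPolynomial.aeval x D = 0} =
      ((Fintype.piFinset fun _ : Fin r => (Finset.univ : Finset E)).filter
        fun f => MvPolynomial.eval f (MvPolynomial.map (algebraMap F E) D) = 0).card := by
    rw [Nat.card_eq_fintype_card, Fintype.card_subtype, Fintype.piFinset_univ]
    congr 1
    ext x
    simp only [mem_filter, mem_univ, true_and]
    rw [MvPolynomial.eval_map, MvPolynomial.aeval_def]
  have hE : 0 < Fintype.card E := Fintype.card_pos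
  rw [Finset.card_univ, div_le_div_iff₀ (by positivity) (by positivity)] at h
  have h2 : ((Fintype.piFinset fun _ : Fin r => (Finset.univ : Finset E)).filter
        fun f => MvPolynomial.eval f (MvPolynomial.map (algebraMap F E) D) = 0).card *
          Fintype.card E ≤ (MvPolynomial.map (algebraMap F E) D).totalDegree *
            Fintype.card E ^ r := by
    exact_mod_cast h
  rw [← hcard] at h2
  have h3 : Nat.card {x : Fin r → E // MvPolynomial.aeval x D = 0} * Fintype.card E ≤
      D.totalDegree * Fintype.card E ^ r := h2.trans (Nat.mul_le_mul_right _ hdeg)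
  exact_mod_cast h3

end Pool.FT
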