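import Pool.Agent.Work.MP_223b32_ft.Interface4

/-!
# THEOREM FT, part 4: block TBM, all the Tate classes are algebraic
-/

set_option autoImplicit false

namespace Pool.FT

open Finset

theorem TBM_card {m n : ℕ} (b : Cls m n) : Even (Multiset.card (charsC b) + degC b) := by
  rcases b with r | a
  · simp [charsC, degC]
  · simp only [charsC, degC, Multiset.card_map, Finset.card_val, Finset.card_univ,
      Fintype.card_fin]
    exact ⟨n + 1, by ring⟩

theorem TBM_ne {m n : ℕ} (b : Cls m n) : ∀ x ∈ charsC b, x ≠ 0 := by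
  rcases b with r | a
  · intro x hx
    simp [charsC] at hx
  · intro x hx
    simp only [charsC, Multiset.mem_map] at hx
    obtain ⟨k, -, rfl⟩ := hx
    exact a.2.1 k

theorem TBM_sum {m n : ℕ} (b : Cls m n) : (charsC b).sum = 0 := by
  rcases b with r | a
  · simp [charsC]
  · exact a.2.2

/-- Stickelberger's condition is empty for `M ≤ 2` -/
theorem TBM_stick (M p f : ℕ) [NeZero M] (hM : M ≤ 2) (hp : p.Coprime M) (A : Multiset (ZMod M))
    (hA : ∀ x ∈ A, x ≠ 0) : Stick M p f A := by
  intro t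
  have hval : ∀ i : ℕ, ∀ x ∈ A, 2 * ((t : ZMod M) * (p : ZMod M) ^ i * x).val = M := by
    intro i x hx
    have hu : IsUnit ((t : ZMod M) * (p : ZMod M) ^ i) :=
      t.isUnit.mul (((ZMod.isUnit_iff_coprime p M).2 hp).pow i)
    have hne : (t : ZMod M) * (p : ZMod M) ^ i * x ≠ 0 := by
      intro h
      exact hA x hx ((hu.mul_right_eq_zero).1 h)
    have h1 : ((t : ZMod M) * (p : ZMod M) ^ i * x).val < M := ZMod.val_lt _
    have h2 : ((t : ZMod M) * (p : ZMod M) ^ i * x).val ≠ 0 := by
      rw [Ne, ZMod.val_eq_zero]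
      exact hne
    omega
  rw [Finset.mul_sum]
  have h3 : ∀ i ∈ range f, 2 * (A.map fun x => ((t : ZMod M) * (p : ZMod M) ^ i * x).val).sum =
      Multiset.card A * M := by
    intro i _
    rw [← Multiset.sum_map_mul_left, Multiset.map_congr rfl (hval i), Multiset.map_const',
      Multiset.sum_replicate, smul_eq_mul]
  rw [Finset.sum_congr rfl h3, Finset.sum_const, card_range, smul_eq_mul, mul_assoc]

theorem p_TBM (hEMB : Stmt_EMB) (hLEV : Stmt_LEV) (hSTK : Stmt_STK) (hMIX : Stmt_MIX) :
    Stmt_TBM := by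
  intro M p _ _ hpM F _ _ _ χ hχ ι _ m n hG hm c Alg hAlg b j N hN hdeg heig
  have hnz : ∀ i, NeZero (m i) := fun i => ⟨fun h => by
    have := hm i
    rw [h, zero_dvd_iff] at this
    exact NeZero.ne M this⟩
  have hpp : p.Prime := Fact.out
  have hcop : p.Coprime M := (Nat.Prime.coprime_iff_not_dvd hpp).2 hpM
  choose b' h1 h2 h3 using fun i => hLEV (m i) M (n i) (hm i) (b i)
  have hdeg' : degP b' = 2 * j := by
    rw [← hdeg]
    exact Finset.sum_congr rfl fun i _ => h1 i
  have hch : charsP b' = chM M b := Finset.sum_congr rfl fun i _ => h2 i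
  have heig' : (eigP χ c b') ^ N = (Fintype.card F : ℂ) ^ (j * N) := by
    rw [← heig]
    congr 1
    exact Finset.prod_congr rfl fun i _ => h3 i F χ (c i)
  obtain ⟨f, -, hf⟩ := FiniteField.card F p
  have hpf : (p : ZMod M) ^ (f : ℕ) = 1 := by
    have h4 : M ∣ Fintype.card F - 1 := by
      have := χ.orderOf_dvd_card_sub_one
      rwa [hχ] at this
    have h5 : 1 ≤ Fintype.card F := Fintype.card_pos
    have h6 : ((Fintype.card F - 1 : ℕ) : ZMod M) = 0 := (ZMod.natCast_eq_zero_iff _ _).2 h4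
    rw [Nat.cast_sub h5, hf] at h6
    push_cast at h6
    exact sub_eq_zero.1 h6
  have hst : Stick M p (f : ℕ) (chM M b) := by
    rcases Nat.lt_or_ge 2 M with h | h
    · rw [← hch]
      exact hSTK p f M F χ h hf hχ ι n c b' j N hN hdeg' heig'
    · refine TBM_stick M p f h hcop _ fun x hx => ?_
      rw [← hch] at hx
      obtain ⟨i, -, hi⟩ := Multiset.mem_sum.1 hx
      exact TBM_ne _ x hi
  refine hMIX M p f Alg hAlg hcop f.pos hpf ι m
    (fun i => (charsC (b i)).map (emb (m i) M)) hG hm ?_ ?_ ?_ hst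
  · intro i x hx
    have := hnz i
    obtain ⟨-, -, -, e4, -, e6, -⟩ := hEMB (m i) M (hm i)
    obtain ⟨y, hy, rfl⟩ := Multiset.mem_map.1 hx
    exact ⟨fun h => TBM_ne _ y hy ((e4 y).1 h), e6 y⟩
  · intro i
    have := hnz i
    obtain ⟨-, e2, -, e4, -, -, -⟩ := hEMB (m i) M (hm i)
    have h7 : ((charsC (b i)).map (emb (m i) M)).sum = emb (m i) M (charsC (b i)).sum :=
      (map_multiset_sum (AddMonoidHom.mk' (emb (m i) M) e2) (charsC (b i))).symm
    rw [h7, TBM_sum]
    exact (e4 0).2 rfl
  · have h8 : Even (∑ i, (Multiset.card (charsC (b' i)) + degC (b' i))) :=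
      Finset.even_sum _ fun i _ => TBM_card (b' i)
    rw [Finset.sum_add_distrib] at h8
    have h9 : ∑ i, degC (b' i) = 2 * j := hdeg'
    rw [h9] at h8
    have h10 : Even (∑ i, Multiset.card (charsC (b' i))) :=
      (Nat.even_add.1 h8).2 (even_two_mul j)
    have h11 : Multiset.card (∑ i, (charsC (b i)).map (emb (m i) M)) =
        ∑ i, Multiset.card (charsC (b' i)) := by
      rw [Multiset.card_sum]
      exact Finset.sum_congr rfl fun i _ => by rw [h2 i]
    rw [h11]
    exact h10

end Pool.FT
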