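import Pool.Agent.Work.MP_223b32_ft.Interface

/-! # Block TEI: Teichmüller characters exist -/

namespace Pool.FT

open Finset Polynomial

/-- The closed unit ball. -/
def TEI_O (E : Type) [NormedField E] [IsUltrametricDist E] : Subring E where
  carrier := {x | ‖x‖ ≤ 1}
  mul_mem' := fun {a b} ha hb => by
    simp only [Set.mem_ofPred_eq] at *
    rw [norm_mul]
    exact mul_le_one₀ ha (norm_nonneg _) hb
  one_mem' := by simp
  add_mem' := fun {a b} ha hb => by
    simp only [Set.mem_ofPred_eq] at *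
    exact (IsUltrametricDist.norm_add_le_max a b).trans (max_le ha hb)
  zero_mem' := by simp
  neg_mem' := fun {a} ha => by
    simp only [Set.mem_ofPred_eq] at *
    rwa [norm_neg]

/-- The open unit ball. -/
def TEI_I (E : Type) [NormedField E] [IsUltrametricDist E] : Ideal (TEI_O E) where
  carrier := {x | ‖(x : E)‖ < 1}
  add_mem' := fun {a b} ha hb => by
    simp only [Set.mem_ofPred_eq] at *
    exact lt_of_le_of_lt (IsUltrametricDist.norm_add_le_max (a : E) b) (max_lt ha hb)
  zero_mem' := by simp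
  smul_mem' := fun c x hx => by
    simp only [Set.mem_ofPred_eq, smul_eq_mul, Subring.coe_mul, norm_mul] at *
    have hc : ‖(c : E)‖ ≤ 1 := c.2
    exact lt_of_le_of_lt (mul_le_of_le_one_left (norm_nonneg _) hc) hx

theorem TEI_mem {E : Type} [NormedField E] [IsUltrametricDist E] (x : TEI_O E) :
    x ∈ TEI_I E ↔ ‖(x : E)‖ < 1 := Iff.rfl

theorem TEI_max (E : Type) [NormedField E] [IsUltrametricDist E] : (TEI_I E).IsMaximal := by
  rw [Ideal.isMaximal_iff]
  constructor
  · rw [TEI_mem]; simp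
  · intro J x _ hx hxJ
    rw [TEI_mem, not_lt] at hx
    have h1 : ‖(x : E)‖ = 1 := le_antisymm x.2 hx
    have hx0 : (x : E) ≠ 0 := by
      intro h; rw [h, norm_zero] at h1; exact zero_ne_one h1
    have hy : ‖(x : E)⁻¹‖ ≤ 1 := by rw [norm_inv, h1, inv_one]
    have : (1 : TEI_O E) = ⟨(x : E)⁻¹, hy⟩ * x := by
      ext
      simp [hx0]
    rw [this]
    exact J.mul_mem_left _ hxJ

theorem TEI_aux (p : ℕ) [Fact p.Prime] (F : Type) [Field F] [Fintype F] [CharP F p]
    (E : Type) [NormedField E] [IsUltrametricDist E] [CharZero E] [IsAlgClosed E]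
    (hp : ‖(p : E)‖ < 1) (k : Type) [Field k] (π : TEI_O E →+* k)
    (hπ0 : ∀ x : TEI_O E, π x = 0 ↔ ‖(x : E)‖ < 1) : ∃ ω : MulChar F E, Teich ω := by
  classical
  -- characteristic
  have hpk : (p : k) = 0 := by
    have : (p : k) = π (p : TEI_O E) := by simp
    rw [this, hπ0]
    simpa using hp
  have hchar : CharP k p := (CharP.charP_iff_prime_eq_zero (Fact.out : p.Prime)).2 hpk
  let _ : Algebra (ZMod p) k := ZMod.algebra k p
  let _ : Algebra (ZMod p) F := ZMod.algebra F p
  set q := Fintype.card F with hq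
  have hq1 : 1 < q := Fintype.one_lt_card
  obtain ⟨f, -, hf⟩ := FiniteField.card F p
  have hqk : (q : k) = 0 := by
    rw [hq, hf, Nat.cast_pow, hpk, zero_pow (by positivity)]
  set n := q - 1 with hn
  have hn0 : 0 < n := by omega
  have hqn : q = n + 1 := by omega
  have : NeZero n := ⟨hn0.ne'⟩
  have : NeZero ((n : ℕ) : E) := ⟨by exact_mod_cast hn0.ne'⟩
  have hnk : (n : k) ≠ 0 := by
    intro h
    rw [hqn] at hqk
    push_cast at hqk
    rw [h, zero_add] at hqk
    exact one_ne_zero hqk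
  -- a primitive root of unity
  obtain ⟨ζ, hζ⟩ : ∃ ζ : E, IsPrimitiveRoot ζ n := by
    obtain ⟨ζ, hζ⟩ := IsAlgClosed.exists_root (cyclotomic n E)
      (by
        rw [degree_cyclotomic]
        exact_mod_cast (Nat.totient_pos.2 hn0).ne')
    exact ⟨ζ, isRoot_cyclotomic_iff.1 hζ⟩
  have hnorm : ∀ z : E, z ^ n = 1 → ‖z‖ = 1 := fun z hz => by
    have : ‖z‖ ^ n = 1 := by rw [← norm_pow, hz, norm_one]
    exact (pow_eq_one_iff_of_nonneg (norm_nonneg _) hn0.ne').1 this
  let ζO : TEI_O E := ⟨ζ, (hnorm ζ hζ.pow_eq_one).le⟩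
  have hζk : IsPrimitiveRoot (π ζO) n := by
    refine IsPrimitiveRoot.mk_of_lt _ hn0 ?_ ?_
    · rw [← map_pow, show ζO ^ n = 1 from Subtype.ext hζ.pow_eq_one, map_one]
    · intro l hl0 hln h
      have hz : ζ ^ l ≠ 1 := hζ.pow_ne_one_of_pos_of_lt hl0.ne' hln
      have hz1 : (ζ ^ l) ^ n = 1 := by rw [← pow_mul, mul_comm, pow_mul, hζ.pow_eq_one, one_pow]
      have hs : ∑ i ∈ range n, (ζ ^ l) ^ i = 0 := by
        have := geom_sum_mul (ζ ^ l) n
        rw [hz1, sub_self] at this
        exact (mul_eq_zero.1 this).resolve_right (sub_ne_zero.2 hz)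
      have hs2 : ∑ i ∈ range n, (ζO ^ l) ^ i = 0 := by
        apply Subtype.ext
        push_cast
        exact hs
      have hs3 := congrArg π hs2
      rw [map_sum, map_zero] at hs3
      have : ∀ i ∈ range n, π ((ζO ^ l) ^ i) = 1 := fun i _ => by
        rw [map_pow, map_pow, h, one_pow]
      rw [Finset.sum_congr rfl this] at hs3
      simp only [sum_const, card_range, nsmul_eq_mul, mul_one] at hs3
      exact hnk hs3
  -- the embedding of `F`
  have hsp : Splits ((X ^ q - X : (ZMod p)[X]).map (algebraMap (ZMod p) k)) := by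
    have : (X ^ q - X : (ZMod p)[X]).map (algebraMap (ZMod p) k) = X * (X ^ n - C (1 : k)) := by
      rw [Polynomial.map_sub, Polynomial.map_pow, Polynomial.map_X, hqn, C_1]
      ring
    rw [this]
    exact Splits.X.mul (X_pow_sub_one_splits hζk)
  have hsf : IsSplittingField (ZMod p) F (X ^ q - X) := FiniteField.isSplittingField_sub F (ZMod p)
  let φ : F →+* k := (IsSplittingField.lift F (X ^ q - X : (ZMod p)[X]) hsp).toRingHom
  obtain ⟨g, hg⟩ := IsCyclic.exists_generator (α := Fˣ)
  have hgo : orderOf g = n := by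
    rw [orderOf_eq_card_of_forall_mem_zpowers hg, Nat.card_eq_fintype_card, Fintype.card_units]
  have hgF : orderOf (g : F) = n := by rw [orderOf_units, hgo]
  have hgn : (g : F) ^ n = 1 := by rw [← hgF]; exact pow_orderOf_eq_one _
  obtain ⟨j, -, hj⟩ := hζk.eq_pow_of_pow_eq_one (ξ := φ g) (by rw [← map_pow, hgn, map_one])
  set μ : E := ζ ^ j with hμ
  have hμn : μ ^ n = 1 := by rw [hμ, ← pow_mul, mul_comm, pow_mul, hζ.pow_eq_one, one_pow]
  let μO : TEI_O E := ζO ^ j
  have hμO : (μO : E) = μ := by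
    show ((ζO ^ j : TEI_O E) : E) = μ
    push_cast
    rfl
  have hμφ : π μO = φ g := by
    show π (ζO ^ j) = φ g
    rw [map_pow, hj]
  have hμ0 : μ ≠ 0 := by
    intro h
    rw [h, zero_pow hn0.ne'] at hμn
    exact zero_ne_one hμn
  have hμdvd : ∀ l : ℕ, μ ^ l = 1 → n ∣ l := fun l hl => by
    have h1 : μO ^ l = 1 := by
      apply Subtype.ext
      push_cast
      rw [hμO, hl]
    have h2 : φ ((g : F) ^ l) = φ 1 := by
      rw [map_pow, ← hμφ, ← map_pow, h1, map_one, map_one]
    have h3 : (g : F) ^ l = 1 := φ.injective h2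
    rw [← hgF]
    exact orderOf_dvd_of_pow_eq_one h3
  let μu : Eˣ := Units.mk0 μ hμ0
  have hμu : μu ∈ rootsOfUnity (Fintype.card Fˣ) E := by
    rw [mem_rootsOfUnity, Fintype.card_units]
    apply Units.ext
    rw [Units.val_pow_eq_pow_val, Units.val_one]
    exact hμn
  let ω : MulChar F E := MulChar.ofRootOfUnity hμu hg
  have hωg : ω g = μ := MulChar.ofRootOfUnity_spec hμu hg
  have key : ∀ x : F, ∃ t : TEI_O E, (t : E) = ω x ∧ π t = φ x := by
    intro x
    by_cases hx : x = 0
    · subst hx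
      refine ⟨0, ?_, ?_⟩
      · rw [MulChar.map_zero]; rfl
      · rw [map_zero, map_zero]
    · obtain ⟨i, hi⟩ := (mem_powers_iff_mem_zpowers.2 (hg (Units.mk0 x hx)))
      have hxi : x = (g : F) ^ i := by
        have := congrArg (Units.val) hi
        simpa using this.symm
      refine ⟨μO ^ i, ?_, ?_⟩
      · push_cast
        rw [hμO, hxi, map_pow, hωg]
      · rw [map_pow, hμφ, hxi, map_pow]
  refine ⟨ω, ?_, ?_⟩
  · intro x y
    obtain ⟨s, hs1, hs2⟩ := key x
    obtain ⟨t, ht1, ht2⟩ := key y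
    obtain ⟨u, hu1, hu2⟩ := key (x + y)
    have : π (s + t - u) = 0 := by
      rw [map_sub, map_add, hs2, ht2, hu2, map_add, sub_self]
    rw [hπ0] at this
    push_cast at this
    rwa [hs1, ht1, hu1] at this
  · apply Nat.dvd_antisymm
    · apply orderOf_dvd_of_pow_eq_one
      apply MulChar.ext
      intro u
      rw [MulChar.pow_apply_coe, ← map_pow, MulChar.one_apply_coe]
      have : (u : F) ^ n = 1 := FiniteField.pow_card_sub_one_eq_one _ u.ne_zero
      rw [show Fintype.card F - 1 = n from rfl, this, map_one]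
    · apply hμdvd
      rw [← hωg, ← MulChar.pow_apply_coe, pow_orderOf_eq_one, MulChar.one_apply_coe]

theorem p_TEI : Stmt_TEI := by
  intro p _ F _ _ _ E _ _ _ _ hp
  have := TEI_max E
  let _ : Field (TEI_O E ⧸ TEI_I E) := Ideal.Quotient.field (TEI_I E)
  exact TEI_aux p F E hp (TEI_O E ⧸ TEI_I E) (Ideal.Quotient.mk (TEI_I E))
    (fun x => by rw [Ideal.Quotient.eq_zero_iff_mem, TEI_mem])

end Pool.FT
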