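import Pool.Agent.Work.MP_223b32_ft.Interface

namespace Pool.FT

open Finset

theorem TRC_nat {F E : Type} [Field F] [Fintype F] [NormedField E] [IsUltrametricDist E]
    {ω : MulChar F E} (hω : Teich ω) (n : ℕ) : ‖(n : E) - ω (n : F)‖ < 1 := by
  induction n with
  | zero => simp [MulChar.map_zero]
  | succ n ih =>
    have h1 := hω.add (n : F) 1
    have e : (((n + 1 : ℕ) : E) - ω ((n + 1 : ℕ) : F)) =
        ((n : E) - ω (n : F)) + (ω (n : F) + ω 1 - ω ((n : F) + 1)) := by
      rw [map_one]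
      push_cast
      ring
    rw [e]
    exact (IsUltrametricDist.norm_add_le_max _ _).trans_lt (max_lt ih h1)

theorem TRC_sum {F E : Type} [Field F] [Fintype F] [NormedField E] [IsUltrametricDist E]
    {ω : MulChar F E} (hω : Teich ω) (g : ℕ → F) (n : ℕ) :
    ‖ω (∑ j ∈ range n, g j) - ∑ j ∈ range n, ω (g j)‖ < 1 := by
  induction n with
  | zero => simp [MulChar.map_zero]
  | succ n ih =>
    have h1 := hω.add (∑ j ∈ range n, g j) (g n)
    rw [sum_range_succ, sum_range_succ]
    have e : ω (∑ j ∈ range n, g j + g n) - (∑ j ∈ range n, ω (g j) + ω (g n)) =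
        (ω (∑ j ∈ range n, g j) - ∑ j ∈ range n, ω (g j)) -
          (ω (∑ j ∈ range n, g j) + ω (g n) - ω (∑ j ∈ range n, g j + g n)) := by
      ring
    rw [e, sub_eq_add_neg]
    exact (IsUltrametricDist.norm_add_le_max _ _).trans_lt (max_lt ih (by rwa [norm_neg]))

theorem p_TRC : Stmt_TRC := by
  intro p f hp F _ _ _ E _ _ _ _ hcard ω hω x
  have hfr : Module.finrank (ZMod p) F = f := by
    have h1 : p ^ Module.finrank (ZMod p) F = Nat.card F := FiniteField.pow_finrank_eq_natCard p F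
    rw [← Fintype.card_eq_nat_card, hcard] at h1
    exact Nat.pow_right_injective hp.out.two_le h1
  have h1 := FiniteField.algebraMap_trace_eq_sum_pow (ZMod p) F x
  rw [hfr, Nat.card_zmod] at h1
  set t := Algebra.trace (ZMod p) F x with ht
  have h2 : ((t.val : ℕ) : F) = algebraMap (ZMod p) F t := by
    rw [← map_natCast (algebraMap (ZMod p) F), ZMod.natCast_zmod_val]
  have h3 := TRC_nat hω t.val
  rw [h2, h1] at h3
  have h4 := TRC_sum hω (fun j => x ^ (p ^ j)) f
  simp only [map_pow] at h4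
  have e : (t.val : E) - ∑ j ∈ range f, (ω x) ^ (p ^ j) =
      ((t.val : E) - ω (∑ j ∈ range f, x ^ p ^ j)) +
        (ω (∑ j ∈ range f, x ^ p ^ j) - ∑ j ∈ range f, (ω x) ^ (p ^ j)) := by
    ring
  rw [e]
  exact (IsUltrametricDist.norm_add_le_max _ _).trans_lt (max_lt h3 h4)

end Pool.FT
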