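import Pool.Agent.Work.MP_223b32_ft.Interface

set_option autoImplicit false

namespace Pool.FT

open Finset

theorem TRF_prim {F E : Type} [Field F] [Fintype F] [Field E] (χ : MulChar F E) {g : Fˣ}
    (hg : ∀ x, x ∈ Subgroup.zpowers g) : IsPrimitiveRoot (χ (g : F)) (orderOf χ) := by
  have hpos : 0 < orderOf χ := χ.orderOf_pos
  refine ⟨?_, ?_⟩
  · rw [← MulChar.pow_apply' χ hpos.ne', pow_orderOf_eq_one, MulChar.one_apply_coe]
  · intro k hk
    rcases Nat.eq_zero_or_pos k with rfl | hk0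
    · exact dvd_zero _
    · refine orderOf_dvd_of_pow_eq_one ?_
      rw [MulChar.eq_iff hg, MulChar.pow_apply' χ hk0.ne', hk, MulChar.one_apply_coe]

theorem TRF_emb {K E : Type} [Field K] [Algebra ℚ K] [Field E] [CharZero E] {n : ℕ} [NeZero n]
    [IsCyclotomicExtension {n} ℚ K] {ζ : K} (hζ : IsPrimitiveRoot ζ n) {y : E}
    (hy : IsPrimitiveRoot y n) : ∃ σ : K →+* E, σ ζ = y := by
  have hy' : y ∈ primitiveRoots n E := (mem_primitiveRoots (NeZero.pos n)).2 hy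
  let e := hζ.embeddingsEquivPrimitiveRoots E (Polynomial.cyclotomic.irreducible_rat (NeZero.pos n))
  refine ⟨(e.symm ⟨y, hy'⟩ : K →ₐ[ℚ] E).toRingHom, ?_⟩
  have h1 := hζ.embeddingsEquivPrimitiveRoots_apply_coe E
    (Polynomial.cyclotomic.irreducible_rat (NeZero.pos n)) (e.symm ⟨y, hy'⟩)
  have h2 : ((e (e.symm ⟨y, hy'⟩) : primitiveRoots n E) : E) = y := by
    rw [Equiv.apply_symm_apply]
  exact h1.symm.trans h2

theorem TRF_core (F E K : Type) [Field F] [Fintype F] [Field E] [CharZero E] [Field K]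
    [Algebra ℚ K] (χ : MulChar F ℂ) (χ' : MulChar F E) (n : ℕ) [NeZero n]
    [IsCyclotomicExtension {n} ℚ K] (h : orderOf χ = n) (h' : orderOf χ' = n) :
    ∃ (i : K →+* ℂ) (σ : K →+* E) (χ₀ : MulChar F K),
      χ₀.ringHomComp i = χ ∧ χ₀.ringHomComp σ = χ' := by
  classical
  obtain ⟨g, hg⟩ := IsCyclic.exists_generator (α := Fˣ)
  have hζ : IsPrimitiveRoot (IsCyclotomicExtension.zeta n ℚ K) n :=
    IsCyclotomicExtension.zeta_spec n ℚ K
  obtain ⟨i, hi⟩ := TRF_emb hζ (h ▸ TRF_prim χ hg)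
  obtain ⟨σ, hσ⟩ := TRF_emb hζ (h' ▸ TRF_prim χ' hg)
  have hdvd : n ∣ Fintype.card Fˣ := h ▸ orderOf_dvd_of_pow_eq_one χ.pow_card_eq_one
  have hζu : (hζ.isUnit (NeZero.ne n)).unit ∈ rootsOfUnity (Fintype.card Fˣ) K := by
    rw [mem_rootsOfUnity]
    ext
    rw [Units.val_pow_eq_pow_val, IsUnit.unit_spec, Units.val_one]
    exact (hζ.pow_eq_one_iff_dvd _).2 hdvd
  refine ⟨i, σ, MulChar.ofRootOfUnity hζu hg, ?_, ?_⟩
  · rw [MulChar.eq_iff hg, MulChar.ringHomComp_apply, MulChar.ofRootOfUnity_spec,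
      IsUnit.unit_spec, hi]
  · rw [MulChar.eq_iff hg, MulChar.ringHomComp_apply, MulChar.ofRootOfUnity_spec,
      IsUnit.unit_spec, hσ]

theorem p_TRF : Stmt_TRF := by
  intro F E _ _ _ _ χ χ' hord
  have hne : NeZero (orderOf χ) := ⟨χ.orderOf_pos.ne'⟩
  have hne' : NeZero ((orderOf χ : ℕ) : ℚ) := ⟨Nat.cast_ne_zero.2 hne.out⟩
  let _ : Algebra ℚ (CyclotomicField (orderOf χ) ℚ) := CyclotomicField.algebra (orderOf χ) ℚ
  let _ : IsCyclotomicExtension {orderOf χ} ℚ (CyclotomicField (orderOf χ) ℚ) :=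
    CyclotomicField.isCyclotomicExtension (orderOf χ) ℚ
  obtain ⟨i, σ, χ₀, h1, h2⟩ := TRF_core F E (CyclotomicField (orderOf χ) ℚ) χ χ' (orderOf χ) rfl
    hord.symm
  exact ⟨CyclotomicField (orderOf χ) ℚ, inferInstance, i, σ, χ₀, h1, h2⟩

end Pool.FT
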