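import Pool.Agent.Work.MP_223b32_ft.Interface

/-!
# Block VAL: the value `L(0, χ)` of a nontrivial Dirichlet character
-/

namespace Pool.FT

open Finset

theorem VAL_odd (hHZO : Stmt_HZO) (x : ℝ) (h0 : 0 < x) (h1 : x < 1) :
    HurwitzZeta.hurwitzZetaOdd (x : UnitAddCircle) 0 = 1 / 2 - (x : ℂ) := by
  have h2 : ∀ n : ℕ, (1 : ℂ) ≠ -n := by
    intro n h
    have h3 := congrArg Complex.re h
    simp only [Complex.one_re, Complex.neg_re, Complex.natCast_re] at h3
    have h4 : (0 : ℝ) ≤ (n : ℝ) := Nat.cast_nonneg n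
    linarith
  have h3 := HurwitzZeta.hurwitzZetaOdd_one_sub (x : UnitAddCircle) h2
  rw [sub_self, hHZO x h0 h1, Complex.Gamma_one, mul_one, mul_one, Complex.cpow_neg_one,
    Complex.sin_pi_div_two] at h3
  rw [h3]
  have hpi : (Real.pi : ℂ) ≠ 0 := Complex.ofReal_ne_zero.mpr Real.pi_ne_zero
  field_simp

theorem p_VAL (hHZO : Stmt_HZO) : Stmt_VAL := by
  intro N _ χ hχ
  have hN1 : N ≠ 1 := by
    rintro rfl
    exact hχ (DirichletCharacter.level_one χ)
  have hN0 : N ≠ 0 := NeZero.ne N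
  haveI : Fact (1 < N) := ⟨by omega⟩
  have hNc : (N : ℂ) ≠ 0 := Nat.cast_ne_zero.mpr hN0
  unfold DirichletCharacter.LFunction ZMod.LFunction
  rw [neg_zero, Complex.cpow_zero, one_mul]
  have h1 : ∀ j : ZMod N, χ j * HurwitzZeta.hurwitzZeta (ZMod.toAddCircle j) 0
      = (1 / 2) * χ j - (χ j * (j.val : ℂ)) / N := by
    intro j
    by_cases hj : j = 0
    · rw [hj, MulChar.map_zero, ZMod.val_zero]
      simp
    · have hv0 : 0 < j.val := by
        rcases Nat.eq_zero_or_pos j.val with h | h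
        · exact absurd ((ZMod.val_eq_zero j).mp h) hj
        · exact h
      have hv1 : j.val < N := ZMod.val_lt j
      have hNr : (0 : ℝ) < (N : ℝ) := Nat.cast_pos.mpr (Nat.pos_of_ne_zero hN0)
      have hx0 : (0 : ℝ) < (j.val : ℝ) / (N : ℝ) := div_pos (Nat.cast_pos.mpr hv0) hNr
      have hx1 : (j.val : ℝ) / (N : ℝ) < 1 := by
        rw [div_lt_one hNr]; exact_mod_cast hv1
      have h2 : HurwitzZeta.hurwitzZetaEven (ZMod.toAddCircle j) 0 = 0 := by
        rw [HurwitzZeta.hurwitzZetaEven_apply_zero, if_neg]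
        rw [ZMod.toAddCircle_eq_zero]
        exact hj
      have h3 : HurwitzZeta.hurwitzZetaOdd (ZMod.toAddCircle j) 0
          = 1 / 2 - ((j.val : ℂ) / N) := by
        rw [ZMod.toAddCircle_apply, VAL_odd hHZO _ hx0 hx1]
        push_cast
        rfl
      unfold HurwitzZeta.hurwitzZeta
      rw [h2, h3]
      field_simp
      ring
  rw [sum_congr rfl (fun j _ => h1 j), sum_sub_distrib, ← mul_sum, ← sum_div]
  rw [MulChar.sum_eq_zero_of_ne_one hχ, mul_zero, zero_sub, neg_div]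

end Pool.FT
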