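import Pool.Agent.Work.MP_223b32_ft.Interface3

/-!
# Block VAR: a nonzero partial derivative
-/

namespace Pool.FT

open Finset Polynomial

theorem p_VAR : Stmt_VAR := by
  intro F _ _ r P hP
  by_contra hcon
  push Not at hcon
  obtain ⟨p, hchar⟩ := CharP.exists F
  have hp : p.Prime := CharP.char_is_prime F p
  haveI : Fact p.Prime := ⟨hp⟩
  haveI : ExpChar F p := ExpChar.prime hp
  have hdvd : ∀ s ∈ P.support, ∀ i, p ∣ s i := by
    intro s hs i
    by_cases hsi : s i = 0
    · rw [hsi]
      exact dvd_zero p
    · have h1 := MvPolynomial.coeff_pderiv (i := i) P (s - Finsupp.single i 1)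
      rw [hcon i, MvPolynomial.coeff_zero] at h1
      have h2 : s - Finsupp.single i 1 + Finsupp.single i 1 = s := by
        apply tsub_add_cancel_of_le
        rw [Finsupp.single_le_iff]
        omega
      rw [h2] at h1
      have h4 : (s - Finsupp.single i 1 : Fin r →₀ ℕ) i + 1 = s i := by
        rw [Finsupp.tsub_apply, Finsupp.single_eq_same]
        omega
      have h3 : (((s - Finsupp.single i 1 : Fin r →₀ ℕ) i : ℕ) : F) + 1 = (s i : F) := by
        rw [← h4]
        push_cast
        rfl
      rw [h3] at h1
      have h5 : (s i : F) = 0 :=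
        (mul_eq_zero.mp h1.symm).resolve_left (MvPolynomial.mem_support_iff.mp hs)
      exact (CharP.cast_eq_zero_iff F p (s i)).mp h5
  set Q : MvPolynomial (Fin r) F := ∑ s ∈ P.support,
    MvPolynomial.monomial (Finsupp.mapRange (fun n => n / p) (Nat.zero_div p) s)
      (MvPolynomial.coeff s P) with hQ
  have h1 : MvPolynomial.expand p Q = P := by
    rw [hQ, map_sum]
    conv_rhs => rw [← MvPolynomial.support_sum_monomial_coeff P]
    apply Finset.sum_congr rfl
    intro s hs
    rw [MvPolynomial.expand_monomial]
    have h6 : p • Finsupp.mapRange (fun n => n / p) (Nat.zero_div p) s = s := by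
      ext i
      rw [Finsupp.smul_apply, Finsupp.mapRange_apply, smul_eq_mul]
      exact Nat.mul_div_cancel' (hdvd s hs i)
    rw [h6]
  have h2 : (Q.map ((frobeniusEquiv F p).symm : F →+* F)).map (frobenius F p) = Q := by
    rw [MvPolynomial.map_map]
    have h3 : (frobenius F p).comp ((frobeniusEquiv F p).symm : F →+* F) = RingHom.id F := by
      ext x
      exact (frobeniusEquiv F p).apply_symm_apply x
    rw [h3, MvPolynomial.map_id]
  have h3 : P = (Q.map ((frobeniusEquiv F p).symm : F →+* F)) ^ p := by
    rw [← MvPolynomial.map_frobenius_expand p, MvPolynomial.map_expand, h2, h1]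
  rw [h3] at hP
  exact not_irreducible_pow hp.one_lt.ne' hP

end Pool.FT
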