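import Pool.Agent.Work.MP_223b32_ft.Interface3

set_option autoImplicit false

/-! # Block WBM: the Weil bound for all characters of order `m` -/

namespace Pool.FT

open Finset Polynomial

theorem p_WBM (hW : Stmt_WWE) (hR : Stmt_WRF) : Stmt_WBM := by
  classical
  intro m d hm
  have key : ∀ m' : ℕ, ∃ B : ℝ, 0 < B ∧ (2 ≤ m' →
      ∀ (E : Type) [Field E] [Fintype E] (η : MulChar E ℂ),
        orderOf η = m' → ∀ f : E[X], f.natDegree ≤ d → Indec m' f →
          ‖∑ x : E, η (f.eval x)‖ ≤ B * √(Fintype.card E)) := by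
    intro m'
    by_cases h : 2 ≤ m'
    · obtain ⟨B, hB, h1⟩ := hW m' d h
      exact ⟨B, hB, fun _ => h1⟩
    · exact ⟨1, one_pos, fun h' => absurd h' h⟩
  choose b hb0 hb using key
  refine ⟨∑ i ∈ range (m + 1), b i, ?_, ?_⟩
  · exact Finset.sum_pos (fun i _ => hb0 i) ⟨0, by simp⟩
  intro E _ _ η hη f hf hpow
  obtain ⟨g, m', c, R, hmg, hg, hm', hc, hfe, hind⟩ := hR E m f hm hpow
  have hord : orderOf (η ^ g) = m' := by
    rw [orderOf_pow_of_dvd hg.ne' (by rw [hη, hmg]; exact dvd_mul_right _ _), hη, hmg,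
      Nat.mul_div_cancel_left _ hg]
  have hdeg : R.natDegree ≤ d := by
    refine le_trans ?_ hf
    rw [hfe, natDegree_C_mul hc, natDegree_pow]
    exact Nat.le_mul_of_pos_left _ hg
  have h1 := hb m' hm' E (η ^ g) hord R hdeg hind
  have hsum : ∑ x : E, η (f.eval x) = η c * ∑ x : E, (η ^ g) (R.eval x) := by
    rw [Finset.mul_sum]
    refine Finset.sum_congr rfl fun x _ => ?_
    rw [hfe, eval_mul, eval_C, eval_pow, map_mul, map_pow, MulChar.pow_apply' η hg.ne']
  have hnc : ‖η c‖ = 1 := by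
    have h2 : (η c) ^ m = 1 := by
      rw [← MulChar.pow_apply' η hm.ne', ← hη, pow_orderOf_eq_one,
        MulChar.one_apply (isUnit_iff_ne_zero.2 hc)]
    exact Complex.norm_eq_one_of_pow_eq_one h2 hm.ne'
  rw [hsum, norm_mul, hnc, one_mul]
  refine h1.trans (mul_le_mul_of_nonneg_right ?_ (Real.sqrt_nonneg _))
  have hmem : m' ∈ range (m + 1) := by
    rw [Finset.mem_range, hmg]
    have := Nat.le_mul_of_pos_left m' hg
    omega
  exact Finset.single_le_sum (f := b) (fun i _ => (hb0 i).le) hmem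

end Pool.FT
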