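import Pool.Agent.Work.MP_223b32_ft.Interface3
import Pool.Agent.Work.MP_223b32_tc_helper28.EXI
import Pool.Agent.Work.MP_223b32_tc_helper94.HD

/-!
# Block WEX: the auxiliary polynomial in Stepanov's method, for characters of order `m`
-/

namespace Pool.FT

open Finset Polynomial

theorem WEX_mul_X {E : Type} [Field E] {g : E[X]} {n j J : ℕ} (hg : g ∈ degreeLT E n)
    (hj : j < J) : g * X ^ j ∈ degreeLT E (n + J) := by
  rw [mem_degreeLT] at hg ⊢
  by_cases h0 : g = 0
  · rw [h0, zero_mul, degree_zero]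
    exact WithBot.bot_lt_coe _
  · rw [degree_mul, degree_X_pow]
    rw [degree_eq_natDegree h0] at hg ⊢
    have h2 : g.natDegree < n := by exact_mod_cast hg
    have h4 : g.natDegree + j < n + J := by omega
    exact_mod_cast h4

theorem WEX_natDegree {E : Type} [Field E] {D : ℕ} (hD : 0 < D) (g : degreeLT E D) :
    (g : E[X]).natDegree < D := by
  by_cases h0 : (g : E[X]) = 0
  · rw [h0, natDegree_zero]
    exact hD
  · exact (natDegree_lt_iff_degree_lt h0).mpr (mem_degreeLT.mp g.2)

theorem p_WEX : Stmt_WEX := by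
  classical
  intro E _ _ m hm hdvd f d D J l a hd hf hD hl hJ hcount
  set Q := Fintype.card E with hQ
  set u := (Q - 1) / m with hu
  have hT : ∀ (i : Fin m) (k : Fin l), ∃ T : E[X] →ₗ[E] E[X],
      (∀ r, hasseDeriv (k : ℕ) (f ^ (l + (i : ℕ) * u) * r)
        = f ^ (l + (i : ℕ) * u - k) * T r) ∧
      ∀ (D : ℕ) (r : E[X]), r ∈ degreeLT E D → T r ∈ degreeLT E (D + k * (d - 1)) :=
    fun i k => Pool.Agent.Work.TC.stmt_HD E f d hd hf (l + (i : ℕ) * u) k
      (k.2.le.trans (Nat.le_add_right _ _))
  choose T hT1 hT2 using hT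
  -- the linear map
  let L : (Fin J → Fin m → degreeLT E D) →ₗ[E]
      (∀ k : Fin l, degreeLT E (D + k * (d - 1) + J)) :=
    { toFun := fun v k => ⟨∑ j, (∑ i : Fin m, C (a ^ (i : ℕ)) * T i k (v j i)) * X ^ (j : ℕ), by
        refine Submodule.sum_mem _ fun j _ => ?_
        refine WEX_mul_X ?_ j.2
        refine Submodule.sum_mem _ fun i _ => ?_
        rw [← smul_eq_C_mul]
        exact Submodule.smul_mem _ _ (hT2 i k D _ (v j i).2)⟩
      map_add' := by
        intro v w
        ext k : 2
        simp only [Pi.add_apply, Submodule.coe_add]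
        rw [← Finset.sum_add_distrib]
        refine Finset.sum_congr rfl fun j _ => ?_
        rw [← add_mul, ← Finset.sum_add_distrib]
        refine congrArg (· * X ^ (j : ℕ)) (Finset.sum_congr rfl fun i _ => ?_)
        rw [map_add, mul_add]
      map_smul' := by
        intro c v
        ext k : 2
        simp only [Pi.smul_apply, Submodule.coe_smul, RingHom.id_apply]
        rw [Finset.smul_sum]
        refine Finset.sum_congr rfl fun j _ => ?_
        rw [← smul_mul_assoc, Finset.smul_sum]
        refine congrArg (· * X ^ (j : ℕ)) (Finset.sum_congr rfl fun i _ => ?_)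
        rw [map_smul, mul_smul_comm] }
  have hfin : Module.finrank E (∀ k : Fin l, degreeLT E (D + k * (d - 1) + J)) <
      Module.finrank E (Fin J → Fin m → degreeLT E D) := by
    have e1 : ∀ n, Module.finrank E (degreeLT E n) = n := fun n => by
      rw [LinearEquiv.finrank_eq (degreeLTEquiv E n), Module.finrank_fin_fun]
    rw [Module.finrank_pi_fintype, Module.finrank_pi_fintype]
    have e5 : Module.finrank E (Fin m → degreeLT E D) = m * D := by
      rw [Module.finrank_pi_fintype]
      simp only [e1, Finset.sum_const, card_univ, Fintype.card_fin, smul_eq_mul]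
    simp only [e1, e5, Finset.sum_const, card_univ, Fintype.card_fin, smul_eq_mul]
    have e2 : ∑ k : Fin l, (D + (k : ℕ) * (d - 1) + J)
        = l * (D + J) + (∑ k : Fin l, (k : ℕ)) * (d - 1) := by
      rw [Finset.sum_mul]
      have : ∀ k : Fin l, D + (k : ℕ) * (d - 1) + J = (D + J) + (k : ℕ) * (d - 1) :=
        fun k => by ring
      rw [Finset.sum_congr rfl fun k _ => this k, Finset.sum_add_distrib]
      simp
    have e3 : (∑ k : Fin l, (k : ℕ)) * 2 = l * (l - 1) := by
      rw [Fin.sum_univ_eq_sum_range (fun k => k) l, Finset.sum_range_id_mul_two]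
    rw [e2]
    have e4 : (∑ k : Fin l, (k : ℕ)) * (d - 1) * 2 = (d - 1) * (l * (l - 1)) := by
      rw [← e3]; ring
    nlinarith
  have hker := LinearMap.ker_ne_bot_of_finrank_lt (f := L) hfin
  obtain ⟨v, hv, hv0⟩ := Submodule.exists_mem_ne_zero_of_ne_bot hker
  rw [LinearMap.mem_ker] at hv
  have hv' : ∀ k : Fin l,
      ∑ j, (∑ i : Fin m, C (a ^ (i : ℕ)) * T i k (v j i)) * X ^ (j : ℕ) = 0 := fun k => by
    have := congrArg Subtype.val (congrFun hv k)
    exact this
  refine ⟨fun j i => v j i, fun j i => WEX_natDegree hD _, ?_, ?_⟩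
  · by_contra hcon
    push Not at hcon
    refine hv0 ?_
    exact funext fun j => funext fun i => Subtype.ext (hcon j i)
  · intro x hx k hk
    have hkQ : k < Q := hk.trans_le hl
    have h1 : f ^ l * ∑ j, (∑ i : Fin m, (v j i : E[X]) * f ^ ((i : ℕ) * u)) * X ^ ((j : ℕ) * Q) =
        ∑ j : Fin J, ∑ i : Fin m,
          (f ^ (l + (i : ℕ) * u) * (v j i : E[X])) * X ^ ((j : ℕ) * Q) := by
      rw [Finset.mul_sum]
      refine Finset.sum_congr rfl fun j _ => ?_
      rw [Finset.sum_mul, Finset.mul_sum]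
      refine Finset.sum_congr rfl fun i _ => ?_
      rw [pow_add]; ring
    rw [h1, map_sum, eval_finsetSum]
    have h2 : ∀ j : Fin J, (hasseDeriv k (∑ i : Fin m,
          (f ^ (l + (i : ℕ) * u) * (v j i : E[X])) * X ^ ((j : ℕ) * Q))).eval x =
        f.eval x ^ (l - k) *
          ((∑ i : Fin m, C (a ^ (i : ℕ)) * T i ⟨k, hk⟩ (v j i)) * X ^ (j : ℕ)).eval x := by
      intro j
      rw [map_sum, eval_finsetSum, eval_mul, eval_finsetSum, Finset.sum_mul, Finset.mul_sum]
      refine Finset.sum_congr rfl fun i _ => ?_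
      rw [Pool.Agent.Work.TC.EXI.hasse_mul_X _ _ _ _ hkQ]
      have h3 := hT1 i ⟨k, hk⟩ (v j i)
      simp only at h3
      rw [h3, eval_mul, eval_pow,
        show l + (i : ℕ) * u - k = (l - k) + u * (i : ℕ) by
          have : k ≤ l := hk.le
          rw [mul_comm u]; omega, pow_add, pow_mul, hx]
      simp only [eval_mul, eval_C, eval_pow, eval_X]
      ring
    rw [Finset.sum_congr rfl fun j _ => h2 j, ← Finset.mul_sum, ← eval_finsetSum,
      hv' ⟨k, hk⟩, eval_zero, mul_zero]

end Pool.FT
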