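import Pool.Agent.Work.MP_223b32_ft.Interface3

/-!
# Block WLI: linear independence of the powers of an `m`-th root
-/

namespace Pool.FT

open Finset Polynomial

/-- A root of a polynomial of degree less than `m` over `K` whose `m`-th power `g` is in `K`:
a power of `g` is an `m`-th power up to sign. -/
theorem WLI_root {K L : Type} [Field K] [Field L] [Algebra K L] {m : ℕ} (hm : 0 < m) {ζ : L}
    (hζ : IsPrimitiveRoot ζ m) {y : L} {g : K} (hy : y ^ m = algebraMap K L g) {P : K[X]}
    (hP : P ≠ 0) (hPy : aeval y P = 0) (hdeg : P.degree < m) :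
    ∃ (s : ℕ) (c : K), 0 < s ∧ s < m ∧ c ^ m = (-1) ^ (s * m) * g ^ s := by
  have hint : IsIntegral K y := ⟨X ^ m - C g, monic_X_pow_sub_C g hm.ne', by simp [hy]⟩
  set μ := minpoly K y with hμ
  have hdiv : μ ∣ X ^ m - C g := minpoly.dvd K y (by simp [hy])
  have hdivL : μ.map (algebraMap K L) ∣ X ^ m - C (algebraMap K L g) := by
    have h := Polynomial.map_dvd (algebraMap K L) hdiv
    simpa using h
  have hne : (X ^ m - C (algebraMap K L g) : L[X]) ≠ 0 := (monic_X_pow_sub_C _ hm.ne').ne_zero
  have hsp : (μ.map (algebraMap K L)).Splits :=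
    (X_pow_sub_C_splits_of_isPrimitiveRoot hζ hy).of_dvd hne hdivL
  have hmon : (μ.map (algebraMap K L)).Monic := (minpoly.monic hint).map _
  have hc := hsp.coeff_zero_eq_prod_roots_of_monic hmon
  rw [(minpoly.monic hint).natDegree_map, coeff_map] at hc
  refine ⟨μ.natDegree, μ.coeff 0, minpoly.natDegree_pos hint, ?_, ?_⟩
  · have h1 : μ.degree ≤ P.degree := minpoly.degree_le_of_ne_zero K y hP hPy
    exact (natDegree_lt_iff_degree_lt (minpoly.ne_zero hint)).2 (lt_of_le_of_lt h1 hdeg)
  · apply (algebraMap K L).injective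
    rw [map_pow, hc, mul_pow, ← pow_mul, map_mul, map_pow, map_neg, map_one, map_pow, ← hy]
    congr 1
    have h0 : (μ.map (algebraMap K L)).roots.prod ^ m =
        (Multiset.map (fun x => x ^ m) (μ.map (algebraMap K L)).roots).prod := by
      rw [Multiset.prod_map_pow, Multiset.map_id']
    rw [h0]
    have h2 : Multiset.map (fun x => x ^ m) (μ.map (algebraMap K L)).roots =
        Multiset.replicate μ.natDegree (y ^ m) := by
      rw [Multiset.eq_replicate]
      constructor
      · rw [Multiset.card_map, ← hsp.natDegree_eq_card_roots, (minpoly.monic hint).natDegree_map]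
      · intro b hb
        obtain ⟨x, hx, rfl⟩ := Multiset.mem_map.1 hb
        have h3 : IsRoot (X ^ m - C (algebraMap K L g) : L[X]) x :=
          (isRoot_of_mem_roots hx).dvd hdivL
        have h4 : x ^ m - algebraMap K L g = 0 := by simpa [IsRoot] using h3
        rw [hy]
        exact sub_eq_zero.1 h4
    rw [h2, Multiset.prod_replicate]

theorem p_WLI : Stmt_WLI := by
  intro E _ m ζ hm hζ f a ha hI L _ _ y hy r hr
  by_contra hne
  push Not at hne
  obtain ⟨i0, hi0⟩ := hne
  have hinj : Function.Injective (algebraMap E[X] (FractionRing E[X])) :=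
    IsFractionRing.injective E[X] (FractionRing E[X])
  have hinjL : Function.Injective (algebraMap (FractionRing E[X]) L) :=
    (algebraMap (FractionRing E[X]) L).injective
  have hCa : (C a : E[X]) ≠ 0 := C_ne_zero.2 ha
  have haK : algebraMap E[X] (FractionRing E[X]) (C a) ≠ 0 := by
    rw [Ne, ← map_zero (algebraMap E[X] (FractionRing E[X]))]
    exact fun h => hCa (hinj h)
  have hf : f ≠ 0 := by
    rintro rfl
    rw [map_zero, map_zero, zero_mul] at hy
    exact haK (hinjL (by rw [← hy, map_zero]))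
  have hfK : algebraMap E[X] (FractionRing E[X]) f ≠ 0 := by
    rw [Ne, ← map_zero (algebraMap E[X] (FractionRing E[X]))]
    exact fun h => hf (hinj h)
  set g : FractionRing E[X] := algebraMap E[X] (FractionRing E[X]) (C a) /
    algebraMap E[X] (FractionRing E[X]) f with hg
  have hyg : y ^ m = algebraMap (FractionRing E[X]) L g := by
    rw [hg, map_div₀, ← hy]
    have h1 : algebraMap (FractionRing E[X]) L (algebraMap E[X] (FractionRing E[X]) f) ≠ 0 := by
      rw [Ne, ← map_zero (algebraMap (FractionRing E[X]) L)]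
      exact fun h => hfK (hinjL h)
    field_simp
  set P : (FractionRing E[X])[X] := ∑ i : Fin m, C (algebraMap E[X] (FractionRing E[X]) (r i)) *
    X ^ (i : ℕ) with hP
  have hP0 : P ≠ 0 := by
    intro h0
    have h1 : P.coeff (i0 : ℕ) = algebraMap E[X] (FractionRing E[X]) (r i0) := by
      rw [hP, finsetSum_coeff, Finset.sum_eq_single i0]
      · simp
      · intro b _ hb
        rw [coeff_C_mul, coeff_X_pow, if_neg, mul_zero]
        intro h
        exact hb (Fin.ext h.symm)
      · intro h
        exact absurd (Finset.mem_univ i0) h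
    rw [h0, coeff_zero] at h1
    exact hi0 (hinj (by rw [← h1, map_zero]))
  have hPy : aeval y P = 0 := by
    rw [hP, map_sum, ← hr]
    refine Finset.sum_congr rfl fun i _ => ?_
    rw [map_mul, aeval_C, map_pow, aeval_X]
  have hζL : IsPrimitiveRoot (algebraMap (FractionRing E[X]) L
      (algebraMap E[X] (FractionRing E[X]) (C ζ))) m := by
    refine IsPrimitiveRoot.map_of_injective (IsPrimitiveRoot.map_of_injective
      (hζ.map_of_injective C_injective) hinj) hinjL
  obtain ⟨s, c, hs0, hsm, hc⟩ := WLI_root hm hζL hyg hP0 hPy (degree_sum_fin_lt _)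
  obtain ⟨R₁, R₂, hR₂, hcR⟩ := IsFractionRing.div_surjective (A := E[X]) c
  have hR₂0 : R₂ ≠ 0 := nonZeroDivisors.ne_zero hR₂
  have hR₂K : algebraMap E[X] (FractionRing E[X]) R₂ ≠ 0 := by
    rw [Ne, ← map_zero (algebraMap E[X] (FractionRing E[X]))]
    exact fun h => hR₂0 (hinj h)
  have heq : R₁ ^ m * f ^ s = C ((-1) ^ (s * m) * a ^ s) * R₂ ^ m := by
    apply hinj
    rw [← hcR, hg, div_pow, div_pow] at hc
    have h1 : algebraMap E[X] (FractionRing E[X]) (C ((-1) ^ (s * m) * a ^ s)) =
        (-1) ^ (s * m) * algebraMap E[X] (FractionRing E[X]) (C a) ^ s := by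
      rw [C_mul, C_pow, C_pow, C_neg, C_1, map_mul, map_pow, map_pow, map_neg, map_one]
    rw [map_mul, map_mul, map_pow, map_pow, map_pow, h1]
    field_simp at hc
    linear_combination hc
  have hu : IsUnit (C ((-1) ^ (s * m) * a ^ s) : E[X]) := by
    rw [isUnit_C]
    exact IsUnit.mk0 _ (mul_ne_zero (pow_ne_zero _ (neg_ne_zero.2 one_ne_zero)) (pow_ne_zero _ ha))
  have hdvd : R₁ ^ m ∣ R₂ ^ m := by
    rw [← hu.dvd_mul_left (a := R₁ ^ m) (b := R₂ ^ m)]
    exact ⟨f ^ s, heq.symm⟩
  obtain ⟨R, hR⟩ := (IsIntegrallyClosed.pow_dvd_pow_iff hm.ne').1 hdvd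
  have hR₁0 : R₁ ≠ 0 := by
    rintro rfl
    rw [zero_mul] at hR
    exact hR₂0 hR
  refine hI s hs0 hsm ⟨(-1) ^ (s * m) * a ^ s, R, ?_⟩
  apply mul_left_cancel₀ (pow_ne_zero m hR₁0)
  rw [heq, hR]
  ring

end Pool.FT
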