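import Pool.Agent.Work.MP_223b32_ft.Interface3

/-! # THEOREM FT, part 3, block WNA: Stepanov's upper bound -/

namespace Pool.FT

open Finset Polynomial

/-- Vanishing Hasse derivatives give a zero of high order. -/
theorem WNA_pow_dvd {E : Type} [Field E] (P : E[X]) (x : E) (l : ℕ)
    (h : ∀ k < l, (hasseDeriv k P).eval x = 0) : (X - C x) ^ l ∣ P := by
  rw [X_sub_C_pow_dvd_iff, X_pow_dvd_iff]
  intro k hk
  have h1 := h k hk
  rw [← taylor_coeff, taylor_apply] at h1
  exact h1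

/-- The number of zeros of order at least `l`. -/
theorem WNA_card_mul_le {E : Type} [Field E] (P : E[X]) (hP : P ≠ 0) (S : Finset E) (l : ℕ)
    (h : ∀ x ∈ S, (X - C x) ^ l ∣ P) : l * S.card ≤ P.natDegree := by
  classical
  have h1 : l • S.val ≤ P.roots := by
    rw [Multiset.le_iff_count]
    intro x
    rw [Multiset.count_nsmul, count_roots]
    by_cases hx : x ∈ S
    · have h2 : Multiset.count x S.val ≤ 1 := Multiset.nodup_iff_count_le_one.mp S.nodup x
      have h3 : l ≤ rootMultiplicity x P := (le_rootMultiplicity_iff hP).mpr (h x hx)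
      calc l * Multiset.count x S.val ≤ l * 1 := Nat.mul_le_mul_left _ h2
        _ ≤ rootMultiplicity x P := by simpa using h3
    · have h2 : Multiset.count x S.val = 0 := Multiset.count_eq_zero_of_notMem hx
      rw [h2]
      simp
  have h2 := Multiset.card_le_card h1
  rw [Multiset.card_nsmul] at h2
  exact h2.trans (card_roots' P)

/-- The degree of the auxiliary polynomial. -/
theorem WNA_natDegree_le {E : Type} [Field E] (H : E[X]) (m d D J l u Q : ℕ)
    (hd : H.natDegree ≤ d) (r : Fin J → Fin m → E[X]) (hr : ∀ j i, (r j i).natDegree < D) :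
    (H ^ l * ∑ j, (∑ i, r j i * H ^ ((i : ℕ) * u)) * X ^ ((j : ℕ) * Q)).natDegree ≤
      l * d + (D + (m - 1) * u * d + (J - 1) * Q) := by
  have h1 : (H ^ l).natDegree ≤ l * d :=
    natDegree_pow_le.trans (Nat.mul_le_mul_left _ hd)
  refine natDegree_mul_le.trans (Nat.add_le_add h1 ?_)
  refine natDegree_sum_le_of_forall_le _ _ fun j _ => ?_
  have h2 : (∑ i, r j i * H ^ ((i : ℕ) * u)).natDegree ≤ D + (m - 1) * u * d := by
    refine natDegree_sum_le_of_forall_le _ _ fun i _ => ?_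
    refine natDegree_mul_le.trans (Nat.add_le_add (hr j i).le ?_)
    refine natDegree_pow_le.trans (Nat.mul_le_mul ?_ hd)
    exact Nat.mul_le_mul_right _ (by have := i.isLt; omega)
  have h3 : ((X : E[X]) ^ ((j : ℕ) * Q)).natDegree ≤ (J - 1) * Q := by
    rw [natDegree_X_pow]
    exact Nat.mul_le_mul_right _ (by have := j.isLt; omega)
  exact natDegree_mul_le.trans (Nat.add_le_add h2 h3)

/-- The inequality of parameters. -/
theorem WNA_params (Q m d l D J : ℕ) (hm : 1 ≤ m) (hd : 1 ≤ d) (hQ : 100 * m * (d + 1) ^ 2 ≤ Q)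
    (hl : l * l ≤ Q) (hD : Q ≤ m * D + m * d + m) (hJ : l + 2 * d * m + m ≤ m * J)
    (hJ' : J ≤ l + 2 * d + 2) (hJm : m * J ≤ l + 2 * d * m + 2 * m) :
    2 * (l * (D + J)) + (d - 1) * (l * (l - 1)) < 2 * (m * D * J) := by
  obtain ⟨e, rfl⟩ : ∃ e, d = e + 1 := ⟨d - 1, by omega⟩
  have hm' : (1 : ℝ) ≤ m := by exact_mod_cast hm
  have he : (0 : ℝ) ≤ e := Nat.cast_nonneg _
  have hl0 : (0 : ℝ) ≤ l := Nat.cast_nonneg _
  have hD0 : (0 : ℝ) ≤ D := Nat.cast_nonneg _
  have hJ0 : (0 : ℝ) ≤ J := Nat.cast_nonneg _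
  have hQ' : 100 * (m : ℝ) * ((e : ℝ) + 2) ^ 2 ≤ Q := by
    have : (100 * m * (e + 1 + 1) ^ 2 : ℕ) ≤ Q := hQ
    have h2 : ((100 * m * (e + 1 + 1) ^ 2 : ℕ) : ℝ) ≤ Q := by exact_mod_cast this
    push_cast at h2
    nlinarith
  have hQ1 : 100 * ((e : ℝ) + 2) ^ 2 ≤ Q := by
    have : 0 ≤ ((e : ℝ) + 2) ^ 2 := sq_nonneg _
    nlinarith
  have hl2 : (l : ℝ) ^ 2 ≤ Q := by
    have : l ^ 2 ≤ Q := by nlinarith
    exact_mod_cast this
  have hl1 : (l : ℝ) * (10 * (e + 2)) ≤ Q := by
    nlinarith [sq_nonneg ((l : ℝ) - 10 * (e + 2))]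
  have hD' : (Q : ℝ) ≤ m * D + m * (e + 1) + m := by exact_mod_cast hD
  have hJ1 : (l : ℝ) + 2 * (e + 1) * m + m ≤ m * J := by exact_mod_cast hJ
  have hJ2 : (J : ℝ) ≤ l + 2 * (e + 1) + 2 := by exact_mod_cast hJ'
  have hsub : ((e + 1 - 1 : ℕ) : ℝ) = e := by simp
  have hll : ((l * (l - 1) : ℕ) : ℝ) = l * (l - 1) := by
    rcases Nat.eq_zero_or_pos l with h | h
    · subst h; simp
    · rw [Nat.cast_mul, Nat.cast_sub h]; simp
  have key : 2 * ((l : ℝ) * (D + J)) + e * (l * (l - 1)) < 2 * (m * D * J) := by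
    -- `2 D (m J - l) ≥ 2 D m (2 e + 3)`
    have h1 : 2 * (D : ℝ) * (m * (2 * e + 3)) ≤ 2 * D * (m * J - l) :=
      mul_le_mul_of_nonneg_left (by linarith) (by linarith)
    have h2 : ((Q : ℝ) - m * (e + 2)) * (2 * (2 * e + 3)) ≤ m * D * (2 * (2 * e + 3)) :=
      mul_le_mul_of_nonneg_right (by linarith) (by linarith)
    have h3 : (l : ℝ) * (2 * J) ≤ l * (2 * (l + 2 * (e + 1) + 2)) :=
      mul_le_mul_of_nonneg_left (by linarith) hl0
    have h4 : (e : ℝ) * l ^ 2 ≤ e * Q := mul_le_mul_of_nonneg_left hl2 he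
    have h5 : (m : ℝ) * (e + 2) * (2 * (2 * e + 3)) ≤ Q * (4 / 100) := by
      have : (m : ℝ) * (e + 2) * (2 * (2 * e + 3)) ≤ m * (e + 2) * (4 * (e + 2)) :=
        mul_le_mul_of_nonneg_left (by linarith) (by positivity)
      nlinarith
    have h6 : (l : ℝ) * (4 * (e + 2)) ≤ Q * (4 / 10) := by nlinarith
    have h7 : (0 : ℝ) < Q := by nlinarith [mul_pos (show (0 : ℝ) < m by linarith) (show (0 : ℝ) < (e + 2) ^ 2 by positivity)]
    have h8 : (0 : ℝ) ≤ e * Q := mul_nonneg he h7.le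
    have h9 : (0 : ℝ) ≤ e * l := mul_nonneg he hl0
    nlinarith
  have : ((2 * (l * (D + J)) + (e + 1 - 1) * (l * (l - 1)) : ℕ) : ℝ) <
      ((2 * (m * D * J) : ℕ) : ℝ) := by
    rw [Nat.cast_add, Nat.cast_mul (e + 1 - 1), hsub, hll]
    push_cast
    linarith
  exact_mod_cast this

theorem p_WNA (hNV : Stmt_WNV) (hEX : Stmt_WEX) : Stmt_WNA := by
  intro m d0 hm
  set d := d0 + 1 with hddef
  have hd : 1 ≤ d := by omega
  set Q0 : ℕ := 100 * m * (d + 1) ^ 2 with hQ0
  set B : ℝ := Q0 + (d + 2 * (1 + (m - 1) * d + m * (2 * d + 2))) with hB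
  have hm' : (1 : ℝ) ≤ m := by exact_mod_cast hm
  have hd' : (1 : ℝ) ≤ d := by exact_mod_cast hd
  have hQ0r : (0 : ℝ) ≤ Q0 := Nat.cast_nonneg _
  have hBK : (0 : ℝ) ≤ (m - 1) * d := mul_nonneg (by linarith) (by linarith)
  refine ⟨B, by positivity, ?_⟩
  intro E _ _ hdiv f a hfd0 h0 hind ha
  classical
  have hfd : f.natDegree ≤ d := by omega
  set Q := Fintype.card E with hQdef
  have hQ1 : 1 < Q := Fintype.one_lt_card
  have hSc : Nat.card {x : E // f.eval x ^ ((Q - 1) / m) = a} =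
      (Finset.univ.filter fun x => f.eval x ^ ((Q - 1) / m) = a).card := by
    rw [Nat.card_eq_fintype_card, Fintype.card_subtype]
  rw [hSc]
  set S : Finset E := Finset.univ.filter fun x => f.eval x ^ ((Q - 1) / m) = a with hS
  have hQr : (1 : ℝ) ≤ Q := by exact_mod_cast hQ1.le
  have hR2 : √(Q : ℝ) ^ 2 = Q := Real.sq_sqrt (Nat.cast_nonneg _)
  have hR1 : 1 ≤ √(Q : ℝ) := by
    rw [Real.one_le_sqrt]
    exact hQr
  by_cases hQ : Q0 ≤ Q
  · -- the main case
    set l := Nat.sqrt Q with hl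
    set D := Q / m - d with hD
    set J := l / m + 2 * d + 2 with hJ
    have hll : l * l ≤ Q := Nat.sqrt_le Q
    have hlQ : l ≤ Q := Nat.sqrt_le_self Q
    have hdm : 100 * (d + 1) ^ 2 ≤ Q / m := by
      rw [Nat.le_div_iff_mul_le hm]
      calc 100 * (d + 1) ^ 2 * m = Q0 := by rw [hQ0]; ring
        _ ≤ Q := hQ
    have hdQ : d < Q / m := by nlinarith
    have hDpos : 0 < D := by omega
    have hmQ : m * (Q / m) ≤ Q := Nat.mul_div_le Q m
    have hmQ' : Q < m * (Q / m) + m := by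
      have := Nat.div_add_mod Q m
      have := Nat.mod_lt Q hm
      omega
    have hDm : m * D + m * d = m * (Q / m) := by
      rw [← Nat.mul_add]
      congr 1
      omega
    have hml : m * (l / m) ≤ l := Nat.mul_div_le l m
    have hml' : l < m * (l / m) + m := by
      have := Nat.div_add_mod l m
      have := Nat.mod_lt l hm
      omega
    have hmJ : m * J = m * (l / m) + 2 * d * m + 2 * m := by
      rw [hJ]
      ring
    have hldiv : l / m ≤ l := Nat.div_le_self l m
    have hpar := WNA_params Q m d l D J hm hd hQ hll (by omega) (by omega) (by omega) (by omega)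
    have hJ1 : 1 ≤ J := by
      rw [hJ]
      exact le_trans (by norm_num) (Nat.le_add_left 2 _)
    obtain ⟨r, hr, ⟨j0, i0, hj0⟩, hvan⟩ := hEX E m hm hdiv f d D J l a hd hfd hDpos hlQ
      hJ1 hpar
    have hne : (∑ j, (∑ i, r j i * f ^ ((i : ℕ) * ((Q - 1) / m))) * X ^ ((j : ℕ) * Q)) ≠ 0 := by
      intro hz
      exact hj0 (hNV E m hm hdiv f d D J hfd hDpos (by omega) h0 hind r hr hz j0 i0)
    have hf0 : f ≠ 0 := by
      intro h
      apply h0
      rw [h, eval_zero]
    set P := f ^ l * ∑ j, (∑ i, r j i * f ^ ((i : ℕ) * ((Q - 1) / m))) * X ^ ((j : ℕ) * Q)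
      with hP
    have hP0 : P ≠ 0 := mul_ne_zero (pow_ne_zero _ hf0) hne
    have hdeg := WNA_natDegree_le f m d D J l ((Q - 1) / m) Q hfd r hr
    rw [← hP] at hdeg
    have hcard : l * S.card ≤ P.natDegree := by
      refine WNA_card_mul_le P hP0 S l fun x hx => WNA_pow_dvd P x l fun k hk => ?_
      exact hvan x (Finset.mem_filter.mp hx).2 k hk
    have htot : l * S.card ≤ l * d + (D + (m - 1) * ((Q - 1) / m) * d + (J - 1) * Q) :=
      hcard.trans hdeg
    -- real numbers
    have hreal : (m : ℝ) * (l * S.card) ≤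
        l * Q + m * (l * d) + Q * (1 + (m - 1) * d + m * (2 * d + 1)) := by
      have e1 : (m : ℝ) * D ≤ Q := by
        have : m * D ≤ Q := by omega
        exact_mod_cast this
      have e2 : (m : ℝ) * (((Q - 1) / m : ℕ) : ℝ) ≤ Q := by
        have : m * ((Q - 1) / m) ≤ Q := (Nat.mul_div_le _ _).trans (Nat.sub_le _ _)
        exact_mod_cast this
      have e3 : (m : ℝ) * ((J - 1 : ℕ) : ℝ) ≤ l + m * (2 * d + 1) := by
        have h1 : J - 1 = l / m + (2 * d + 1) := by
          rw [hJ]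
          rfl
        have h2 : m * (J - 1) ≤ l + m * (2 * d + 1) := by
          rw [h1, Nat.mul_add]
          omega
        exact_mod_cast h2
      have e4 : ((m - 1 : ℕ) : ℝ) = m - 1 := by
        rw [Nat.cast_sub hm]
        simp
      have h1 : ((l * S.card : ℕ) : ℝ) ≤
          ((l * d + (D + (m - 1) * ((Q - 1) / m) * d + (J - 1) * Q) : ℕ) : ℝ) := by
        exact_mod_cast htot
      simp only [Nat.cast_add, Nat.cast_mul, e4] at h1
      have hQ0' : (0 : ℝ) ≤ Q := by linarith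
      have g1 := mul_le_mul_of_nonneg_left h1 (show (0 : ℝ) ≤ m by linarith)
      have g2 : (m : ℝ) * (((m : ℝ) - 1) * (((Q - 1) / m : ℕ) : ℝ) * d) ≤ (m - 1) * d * Q := by
        have := mul_le_mul_of_nonneg_left e2 hBK
        nlinarith
      have g3 : (m : ℝ) * (((J - 1 : ℕ) : ℝ) * Q) ≤ (l + m * (2 * d + 1)) * Q := by
        have := mul_le_mul_of_nonneg_right e3 hQ0'
        nlinarith
      nlinarith
    have hl1 : 1 ≤ l := by
      rw [hl, Nat.le_sqrt]
      omega
    have hlr : (1 : ℝ) ≤ l := by exact_mod_cast hl1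
    have hsq1 : √(Q : ℝ) < l + 1 := by
      have h1 : Q < (l + 1) * (l + 1) := Nat.lt_succ_sqrt Q
      have h2 : (Q : ℝ) < ((l : ℝ) + 1) ^ 2 := by
        have : Q < (l + 1) ^ 2 := by nlinarith
        exact_mod_cast this
      exact (Real.sqrt_lt' (by positivity)).mpr h2
    set R := √(Q : ℝ) with hR
    have hRl : R ≤ 2 * l := by linarith
    have hlpos : (0 : ℝ) < l := by linarith
    have hmpos : (0 : ℝ) < m := by linarith
    set K : ℝ := 1 + (m - 1) * d + m * (2 * d + 1) with hK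
    have hK0 : 0 ≤ K := by positivity
    have hfin : (m : ℝ) * l * S.card ≤ m * l * ((Q : ℝ) / m + (d + 2 * K) * R) := by
      have h1 : (m : ℝ) * l * ((Q : ℝ) / m + (d + 2 * K) * R) =
          l * Q + m * l * ((d + 2 * K) * R) := by
        field_simp
      rw [h1]
      have h2 : Q * K ≤ m * l * (2 * K * R) := by
        rw [← hR2]
        have h3 : R * K ≤ 2 * l * K := mul_le_mul_of_nonneg_right hRl hK0
        have h4 : R * (R * K) ≤ R * (2 * l * K) :=
          mul_le_mul_of_nonneg_left h3 (by linarith)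
        have h5 : R * (2 * l * K) ≤ m * (R * (2 * l * K)) := by
          have : 0 ≤ R * (2 * l * K) := by positivity
          nlinarith
        nlinarith
      have h6 : (m : ℝ) * (l * d) ≤ m * l * (d * R) := by
        have : 0 ≤ (m : ℝ) * l * d := by positivity
        nlinarith
      nlinarith
    have h10 : (S.card : ℝ) ≤ (Q : ℝ) / m + (d + 2 * K) * R :=
      le_of_mul_le_mul_left hfin (by positivity)
    refine h10.trans ?_
    have h11 : (d : ℝ) + 2 * K ≤ B := by
      rw [hB, hK]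
      nlinarith
    have h12 : ((d : ℝ) + 2 * K) * R ≤ B * R := mul_le_mul_of_nonneg_right h11 (by linarith)
    linarith
  · -- the trivial case
    have h1 : S.card ≤ Q := by
      rw [hQdef, ← Finset.card_univ]
      exact Finset.card_le_card (Finset.filter_subset _ _)
    have h2 : (S.card : ℝ) ≤ Q := by exact_mod_cast h1
    have h3 : (Q : ℝ) ≤ Q0 := by
      have : Q ≤ Q0 := by omega
      exact_mod_cast this
    have h4 : √(Q : ℝ) ≤ Q := by nlinarith
    have h5 : (Q : ℝ) ≤ B * √(Q : ℝ) := by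
      have h6 : (Q : ℝ) ≤ B := by
        rw [hB]
        have : (0 : ℝ) ≤ d + 2 * (1 + (m - 1) * d + m * (2 * d + 2)) := by positivity
        linarith
      nlinarith
    have h7 : (0 : ℝ) ≤ Q / m := by positivity
    linarith

end Pool.FT
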