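import Pool.Agent.Work.MP_223b32_ft.Interface3

/-!
# Block WNO: the norm of `∑ r_i Y ^ i`
-/

namespace Pool.FT

open Finset Polynomial

/-- All the coefficients of `A` have degree at most `a`. -/
theorem WNO_mul {E : Type} [Field E] {A B : E[X][X]} {a b : ℕ}
    (hA : ∀ e, (A.coeff e).natDegree ≤ a) (hB : ∀ e, (B.coeff e).natDegree ≤ b) (e : ℕ) :
    ((A * B).coeff e).natDegree ≤ a + b := by
  rw [coeff_mul]
  refine natDegree_sum_le_of_forall_le _ _ fun x _ => ?_
  exact le_trans natDegree_mul_le (add_le_add (hA x.1) (hB x.2))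

theorem WNO_prod {E : Type} [Field E] {A : ℕ → E[X][X]} {a : ℕ}
    (hA : ∀ k e, ((A k).coeff e).natDegree ≤ a) (m : ℕ) (e : ℕ) :
    ((∏ k ∈ range m, A k).coeff e).natDegree ≤ m * a := by
  induction m generalizing e with
  | zero =>
    rw [Finset.prod_range_zero, coeff_one]
    split_ifs <;> simp
  | succ m ih =>
    rw [Finset.prod_range_succ, add_mul, one_mul]
    exact WNO_mul ih (hA m) e

/-- the factors -/
noncomputable def WNO_P {E : Type} [Field E] {m : ℕ} (ζ : E) (r : Fin m → E[X]) (k : ℕ) :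
    E[X][X] := ∑ i : Fin m, C (r i * C (ζ ^ (k * (i : ℕ)))) * X ^ (i : ℕ)

theorem WNO_coeff {E : Type} [Field E] {m : ℕ} (ζ : E) (r : Fin m → E[X]) (k e : ℕ) :
    (WNO_P ζ r k).coeff e = if h : e < m then r ⟨e, h⟩ * C (ζ ^ (k * e)) else 0 := by
  rw [WNO_P, finsetSum_coeff]
  split_ifs with h
  · rw [Finset.sum_eq_single ⟨e, h⟩]
    · rw [coeff_C_mul, coeff_X_pow, if_pos rfl, mul_one]
    · intro b _ hb
      rw [coeff_C_mul, coeff_X_pow, if_neg, mul_zero]
      intro h1
      exact hb (Fin.ext h1.symm)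
    · intro h1
      exact absurd (Finset.mem_univ _) h1
  · refine Finset.sum_eq_zero fun b _ => ?_
    rw [coeff_C_mul, coeff_X_pow, if_neg, mul_zero]
    intro h1
    exact h (by rw [h1]; exact b.2)

theorem WNO_comp {E : Type} [Field E] {m : ℕ} (ζ : E) (r : Fin m → E[X]) (k : ℕ) :
    (WNO_P ζ r k).comp (C (C ζ) * X) = WNO_P ζ r (k + 1) := by
  ext1 e
  rw [comp_C_mul_X_coeff, WNO_coeff, WNO_coeff]
  split_ifs with h
  · rw [mul_assoc, ← C_pow, ← C_mul, ← pow_add]
    congr 3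
    ring
  · rw [zero_mul]

theorem p_WNO : Stmt_WNO := by
  intro E _ m D ζ hm hD hζ r hr
  have hprod : ∏ k : Fin m, (∑ i : Fin m, C (r i * C (ζ ^ ((k : ℕ) * (i : ℕ)))) * X ^ (i : ℕ) : E[X][X])
      = ∏ k ∈ range m, WNO_P ζ r k := by
    rw [← Fin.prod_univ_eq_prod_range (fun k => WNO_P ζ r k) m]
    rfl
  rw [hprod]
  set Q : E[X][X] := ∏ k ∈ range m, WNO_P ζ r k with hQ
  have hper : WNO_P ζ r m = WNO_P ζ r 0 := by
    ext1 e
    rw [WNO_coeff, WNO_coeff]
    split_ifs with h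
    · rw [pow_mul, hζ.pow_eq_one, one_pow, zero_mul, pow_zero]
    · rfl
  have hrot : Q.comp (C (C ζ) * X) = Q := by
    obtain ⟨l, rfl⟩ : ∃ l, m = l + 1 := ⟨m - 1, by omega⟩
    rw [hQ, Polynomial.prod_comp]
    simp only [WNO_comp]
    rw [Finset.prod_range_succ, hper, ← Finset.prod_range_succ' (fun k => WNO_P ζ r k) l]
  have hzero : ∀ e, ¬ m ∣ e → Q.coeff e = 0 := by
    intro e he
    have h1 : Q.coeff e * C ζ ^ e = Q.coeff e := by
      rw [← comp_C_mul_X_coeff, hrot]
    have h2 : (C (ζ ^ e - 1) : E[X]) ≠ 0 := by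
      rw [Ne, C_eq_zero, sub_eq_zero]
      exact fun h => he ((hζ.pow_eq_one_iff_dvd e).1 h)
    have h3 : Q.coeff e * C (ζ ^ e - 1) = 0 := by
      rw [C_sub, C_pow, C_1, mul_sub, mul_one, h1, sub_self]
    exact (mul_eq_zero.1 h3).resolve_right h2
  have hdegP : ∀ k, (WNO_P ζ r k).natDegree ≤ m - 1 := by
    intro k
    rw [natDegree_le_iff_coeff_eq_zero]
    intro N hN
    rw [WNO_coeff, dif_neg (by omega)]
  have hdeg : Q.natDegree ≤ m * (m - 1) := by
    refine le_trans (natDegree_prod_le _ _) ?_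
    refine le_trans (Finset.sum_le_card_nsmul _ _ _ fun k _ => hdegP k) ?_
    rw [Finset.card_range, smul_eq_mul]
  have hcd : ∀ k e, ((WNO_P ζ r k).coeff e).natDegree ≤ D - 1 := by
    intro k e
    rw [WNO_coeff]
    split_ifs with h
    · refine le_trans natDegree_mul_le ?_
      rw [natDegree_C, add_zero]
      have := hr ⟨e, h⟩
      omega
    · simp
  refine ⟨fun t => Q.coeff (m * (t : ℕ)), fun t => WNO_prod hcd m _, ?_⟩
  ext1 e
  rw [finsetSum_coeff]
  simp only [coeff_C_mul, coeff_X_pow, mul_ite, mul_one, mul_zero]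
  by_cases hme : m ∣ e
  · obtain ⟨t, rfl⟩ := hme
    by_cases ht : t < m
    · rw [Finset.sum_eq_single ⟨t, ht⟩]
      · simp
      · intro b _ hb
        rw [if_neg]
        intro h1
        exact hb (Fin.ext (Nat.eq_of_mul_eq_mul_left hm h1).symm)
      · intro h1
        exact absurd (Finset.mem_univ _) h1
    · have h1 : m * (m - 1) < m * t := Nat.mul_lt_mul_of_pos_left (by omega) hm
      rw [coeff_eq_zero_of_natDegree_lt (lt_of_le_of_lt hdeg h1)]
      refine (Finset.sum_eq_zero fun b _ => ?_).symm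
      rw [if_neg]
      intro h2
      have h3 := Nat.eq_of_mul_eq_mul_left hm h2
      omega
  · rw [hzero e hme]
    refine (Finset.sum_eq_zero fun b _ => ?_).symm
    rw [if_neg]
    rintro rfl
    exact hme (Dvd.intro _ rfl)

end Pool.FT
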