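import Pool.Agent.Work.MP_223b32_ft.Interface3

namespace Pool.FT

open Finset Polynomial

theorem WNV_root (E : Type) [Field E] [Fintype E] (m : ℕ) (hd : m ∣ Fintype.card E - 1) :
    ∃ ζ : E, IsPrimitiveRoot ζ m := by
  classical
  obtain ⟨g, hg⟩ := IsCyclic.exists_generator (α := Eˣ)
  have h1 : orderOf g = Fintype.card E - 1 := by
    rw [orderOf_eq_card_of_forall_mem_zpowers hg, Nat.card_eq_fintype_card, Fintype.card_units]
  have h2 : IsPrimitiveRoot (g : E) (Fintype.card E - 1) := by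
    rw [← h1]; exact IsPrimitiveRoot.coe_units_iff.2 (IsPrimitiveRoot.orderOf g)
  obtain ⟨u, hu⟩ := hd
  have hpos : 0 < Fintype.card E - 1 := by have := Fintype.one_lt_card (α := E); omega
  exact ⟨(g : E) ^ u, h2.pow hpos (by rw [hu, mul_comm])⟩

theorem WNV_frob (E : Type) [Field E] [Fintype E] (m : ℕ) (hd : m ∣ Fintype.card E - 1)
    (f : E[X]) :
    (X : E[X]) ^ Fintype.card E ∣
      f * (f ^ ((Fintype.card E - 1) / m)) ^ m - C (f.eval 0) := by
  have hq : 0 < Fintype.card E := Fintype.card_pos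
  have h1 : f * (f ^ ((Fintype.card E - 1) / m)) ^ m = f ^ Fintype.card E := by
    rw [← pow_mul, Nat.div_mul_cancel hd, ← pow_succ']
    congr 1; omega
  rw [h1, ← FiniteField.expand_card f]
  have h2 : X ∣ f - C (f.eval 0) := by
    rw [X_dvd_iff]; simp [coeff_zero_eq_eval_zero]
  obtain ⟨g, hg⟩ := h2
  have h3 : expand E (Fintype.card E) f - C (f.eval 0)
      = X ^ Fintype.card E * expand E (Fintype.card E) g := by
    have := congrArg (expand E (Fintype.card E)) hg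
    simpa using this
  exact ⟨_, h3⟩

/-- the core: one row -/
theorem WNV_core (hWLI : Stmt_WLI) (hWNO : Stmt_WNO) (E : Type) [Field E] [Fintype E] (m : ℕ)
    (hm : 0 < m) (hd : m ∣ Fintype.card E - 1)
    (f : E[X]) (d D : ℕ) (hf : f.natDegree ≤ d) (hD : 0 < D)
    (hmD : m * D + m * d ≤ Fintype.card E) (hf0 : f.eval 0 ≠ 0) (hI : Indec m f)
    (r : Fin m → E[X]) (hr : ∀ i, (r i).natDegree < D)
    (hA : (X : E[X]) ^ Fintype.card E ∣
      ∑ i, r i * f ^ ((i : ℕ) * ((Fintype.card E - 1) / m))) :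
    ∀ i, r i = 0 := by
  classical
  obtain ⟨ζ, hζ⟩ := WNV_root E m hd
  obtain ⟨p, hp, hprod⟩ := hWNO E m D ζ hm hD hζ r hr
  set u := (Fintype.card E - 1) / m with hu
  set h := f ^ u with hh
  have hfne : f ≠ 0 := by rintro rfl; simp at hf0
  -- evaluate at h
  have e1 : ∏ k : Fin m, (∑ i : Fin m, r i * C (ζ ^ ((k : ℕ) * (i : ℕ))) * h ^ (i : ℕ))
      = ∑ t : Fin m, p t * h ^ (m * (t : ℕ)) := by
    have := congrArg (Polynomial.eval h) hprod
    simpa [eval_prod, eval_finsetSum] using this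
  have e2 : (X : E[X]) ^ Fintype.card E ∣ ∑ t : Fin m, p t * h ^ (m * (t : ℕ)) := by
    rw [← e1]
    refine dvd_trans ?_ (Finset.dvd_prod_of_mem _ (Finset.mem_univ (⟨0, hm⟩ : Fin m)))
    simpa [hh, ← pow_mul, mul_comm] using hA
  -- B
  set B : E[X] := ∑ t : Fin m, p t * C (f.eval 0) ^ (t : ℕ) * f ^ (m - 1 - (t : ℕ)) with hB
  have e3 : f ^ (m - 1) * ∑ t : Fin m, p t * h ^ (m * (t : ℕ))
      = ∑ t : Fin m, p t * (f * h ^ m) ^ (t : ℕ) * f ^ (m - 1 - (t : ℕ)) := by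
    rw [Finset.mul_sum]
    refine Finset.sum_congr rfl fun t _ => ?_
    have ht : m - 1 = (t : ℕ) + (m - 1 - (t : ℕ)) := by have := t.2; omega
    rw [mul_pow, ← pow_mul]
    conv_lhs => rw [ht, pow_add]
    ring
  have e4 : (X : E[X]) ^ Fintype.card E ∣ B := by
    have h1 : (X : E[X]) ^ Fintype.card E ∣
        ∑ t : Fin m, p t * (f * h ^ m) ^ (t : ℕ) * f ^ (m - 1 - (t : ℕ)) := by
      rw [← e3]; exact Dvd.dvd.mul_left e2 _
    have h2 : (X : E[X]) ^ Fintype.card E ∣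
        (∑ t : Fin m, p t * (f * h ^ m) ^ (t : ℕ) * f ^ (m - 1 - (t : ℕ))) - B := by
      rw [hB, ← Finset.sum_sub_distrib]
      refine Finset.dvd_sum fun t _ => ?_
      have : p t * (f * h ^ m) ^ (t : ℕ) * f ^ (m - 1 - (t : ℕ))
          - p t * C (f.eval 0) ^ (t : ℕ) * f ^ (m - 1 - (t : ℕ))
          = ((f * h ^ m) ^ (t : ℕ) - C (f.eval 0) ^ (t : ℕ))
            * (p t * f ^ (m - 1 - (t : ℕ))) := by ring
      rw [this]
      exact Dvd.dvd.mul_right ((WNV_frob E m hd f).trans (sub_dvd_pow_sub_pow _ _ _)) _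
    have := dvd_sub h1 h2
    simpa using this
  have e5 : B.natDegree < Fintype.card E := by
    have h1 : B.natDegree ≤ m * (D - 1) + (m - 1) * d := by
      rw [hB]
      refine natDegree_sum_le_of_forall_le _ _ fun t _ => ?_
      rw [← C_pow, mul_assoc]
      refine natDegree_mul_le.trans (Nat.add_le_add (hp t) ?_)
      refine natDegree_mul_le.trans ?_
      rw [natDegree_C, zero_add]
      refine natDegree_pow_le.trans ?_
      exact Nat.mul_le_mul (by omega) hf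
    have h2 : m * (D - 1) + (m - 1) * d < m * D + m * d := by
      obtain ⟨D', rfl⟩ : ∃ D', D = D' + 1 := ⟨D - 1, by omega⟩
      obtain ⟨m', rfl⟩ : ∃ m', m = m' + 1 := ⟨m - 1, by omega⟩
      simp only [Nat.add_sub_cancel]
      nlinarith
    omega
  have e6 : B = 0 := by
    by_contra hB0
    have := natDegree_le_of_dvd e4 hB0
    rw [natDegree_X_pow] at this
    omega
  -- the algebraic closure
  let K := FractionRing E[X]
  let L := AlgebraicClosure K
  let ψ : E[X] →+* L := (algebraMap K L).comp (algebraMap E[X] K)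
  have hψ : Function.Injective ψ :=
    (algebraMap K L).injective.comp (IsFractionRing.injective E[X] K)
  have hψf : ψ f ≠ 0 := by
    intro h0; exact hfne (hψ (by rw [h0, map_zero]))
  obtain ⟨y, hy⟩ := IsAlgClosed.exists_pow_nat_eq (ψ (C (f.eval 0)) / ψ f) hm
  have hy' : ψ f * y ^ m = ψ (C (f.eval 0)) := by
    rw [hy]; exact mul_div_cancel₀ _ hψf
  have e7 : ∏ k : Fin m, (∑ i : Fin m, ψ (r i) * ψ (C (ζ ^ ((k : ℕ) * (i : ℕ)))) * y ^ (i : ℕ))
      = ∑ t : Fin m, ψ (p t) * y ^ (m * (t : ℕ)) := by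
    have := congrArg (Polynomial.eval₂ ψ y) hprod
    simp only [eval₂_finsetProd, eval₂_finsetSum, eval₂_mul, eval₂_C, eval₂_X_pow,
      map_mul] at this
    exact this
  have e8 : ψ f ^ (m - 1) * ∑ t : Fin m, ψ (p t) * y ^ (m * (t : ℕ)) = 0 := by
    have h1 : ψ f ^ (m - 1) * ∑ t : Fin m, ψ (p t) * y ^ (m * (t : ℕ)) = ψ B := by
      rw [hB, map_sum, Finset.mul_sum]
      refine Finset.sum_congr rfl fun t _ => ?_
      have ht : m - 1 = (t : ℕ) + (m - 1 - (t : ℕ)) := by have := t.2; omega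
      rw [map_mul, map_mul, map_pow, map_pow, ← hy', mul_pow, ← pow_mul]
      conv_lhs => rw [ht, pow_add]
      ring
    rw [h1, e6, map_zero]
  have e9 : ∏ k : Fin m,
      (∑ i : Fin m, ψ (r i) * ψ (C (ζ ^ ((k : ℕ) * (i : ℕ)))) * y ^ (i : ℕ)) = 0 := by
    rw [e7]
    rcases mul_eq_zero.1 e8 with h0 | h0
    · exact absurd h0 (pow_ne_zero _ hψf)
    · exact h0
  obtain ⟨k, -, hk⟩ := Finset.prod_eq_zero_iff.1 e9
  have hz : ψ (C ζ) ^ m = 1 := by
    rw [← map_pow, ← C_pow, hζ.pow_eq_one]; simp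
  refine hWLI E m ζ hm hζ f (f.eval 0) hf0 hI L (ψ (C ζ) ^ (k : ℕ) * y) ?_ r ?_
  · change ψ f * (ψ (C ζ) ^ (k : ℕ) * y) ^ m = ψ (C (f.eval 0))
    rw [mul_pow, ← pow_mul, mul_comm (k : ℕ) m, pow_mul, hz, one_pow, one_mul, hy']
  · rw [← hk]
    refine Finset.sum_congr rfl fun i _ => ?_
    change ψ (r i) * (ψ (C ζ) ^ (k : ℕ) * y) ^ (i : ℕ) = _
    rw [mul_pow, ← pow_mul, C_pow, map_pow, mul_assoc]

theorem p_WNV (hWLI : Stmt_WLI) (hWNO : Stmt_WNO) : Stmt_WNV := by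
  classical
  intro E _ _ m hm hd f d D J hf hD hmD hf0 hI r hr hsum
  by_contra hcon
  push Not at hcon
  -- smallest bad row
  have hex : ∃ n : ℕ, ∃ j : Fin J, (j : ℕ) = n ∧ ∃ i, r j i ≠ 0 := by
    obtain ⟨j, i, hji⟩ := hcon
    exact ⟨_, j, rfl, i, hji⟩
  obtain ⟨j₀, hj₀, i₀, hi₀⟩ := Nat.find_spec hex
  have hmin : ∀ j : Fin J, (j : ℕ) < (j₀ : ℕ) → ∀ i, r j i = 0 := by
    intro j hj i
    by_contra hne
    exact Nat.find_min hex (hj₀ ▸ hj) ⟨j, rfl, i, hne⟩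
  refine hi₀ (WNV_core hWLI hWNO E m hm hd f d D hf hD hmD hf0 hI (r j₀) (hr j₀) ?_ i₀)
  set Q := Fintype.card E with hQ
  have h1 : (X : E[X]) ^ (((j₀ : ℕ) + 1) * Q) ∣
      (∑ i, r j₀ i * f ^ ((i : ℕ) * ((Q - 1) / m))) * X ^ ((j₀ : ℕ) * Q) := by
    have h2 := Finset.add_sum_erase (Finset.univ : Finset (Fin J))
      (fun j => (∑ i, r j i * f ^ ((i : ℕ) * ((Q - 1) / m))) * X ^ ((j : ℕ) * Q))
      (Finset.mem_univ j₀)
    rw [hsum] at h2
    have h3 : (X : E[X]) ^ (((j₀ : ℕ) + 1) * Q) ∣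
        ∑ j ∈ (Finset.univ : Finset (Fin J)).erase j₀,
          (∑ i, r j i * f ^ ((i : ℕ) * ((Q - 1) / m))) * X ^ ((j : ℕ) * Q) := by
      refine Finset.dvd_sum fun j hj => ?_
      have hne : (j : ℕ) ≠ (j₀ : ℕ) := fun h => (Finset.ne_of_mem_erase hj) (Fin.ext h)
      rcases lt_or_gt_of_ne hne with hlt | hgt
      · have : (∑ i, r j i * f ^ ((i : ℕ) * ((Q - 1) / m))) = 0 :=
          Finset.sum_eq_zero fun i _ => by rw [hmin j hlt i, zero_mul]
        rw [this, zero_mul]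
        exact dvd_zero _
      · exact Dvd.dvd.mul_left (pow_dvd_pow _ (Nat.mul_le_mul_right _ hgt)) _
    have h4 : (∑ i, r j₀ i * f ^ ((i : ℕ) * ((Q - 1) / m))) * X ^ ((j₀ : ℕ) * Q)
        = - ∑ j ∈ (Finset.univ : Finset (Fin J)).erase j₀,
          (∑ i, r j i * f ^ ((i : ℕ) * ((Q - 1) / m))) * X ^ ((j : ℕ) * Q) :=
      eq_neg_of_add_eq_zero_left h2
    rw [h4]
    exact (dvd_neg).2 h3
  rw [add_mul, one_mul, pow_add, mul_comm (X ^ ((j₀ : ℕ) * Q))] at h1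
  exact (mul_dvd_mul_iff_right (pow_ne_zero _ X_ne_zero)).1 h1

end Pool.FT
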