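import Pool.Agent.Work.MP_223b32_ft.Interface3

set_option autoImplicit false

/-! # Block WRF: reduction to the indecomposable case -/

namespace Pool.FT

open Finset Polynomial UniqueFactorizationMonoid

theorem WRF_key (E : Type) [Field E] (R S : E[X]) (c' : E) (s m' : ℕ) (hR : R ≠ 0)
    (h : R ^ s = C c' * S ^ m') (hs : 0 < s) (hsm : s < m') :
    ∃ (m'' : ℕ) (z : E) (W : E[X]), 2 ≤ m'' ∧ m'' ∣ m' ∧ R = C z * W ^ m'' := by
  classical
  have hRs : R ^ s ≠ 0 := pow_ne_zero _ hR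
  have hc' : c' ≠ 0 := by
    intro h0
    rw [h0] at h
    exact hRs (by rw [h]; simp)
  have hS : S ≠ 0 := by
    intro h0
    rw [h0, zero_pow (by omega), mul_zero] at h
    exact hRs h
  have hu : IsUnit (C c' : E[X]) := Polynomial.isUnit_C.2 hc'.isUnit
  have h1 : normalizedFactors (R ^ s) = normalizedFactors (S ^ m') := by
    refine (associated_iff_normalizedFactors_eq_normalizedFactors hRs (pow_ne_zero _ hS)).1 ?_
    rw [h]
    exact associated_unit_mul_left _ _ hu
  rw [normalizedFactors_pow, normalizedFactors_pow] at h1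
  have hm' : 0 < m' := by omega
  have ht : 0 < Nat.gcd s m' := Nat.gcd_pos_of_pos_left _ hs
  obtain ⟨t, s₁, m₁, ht0, hcop, hs1, hm1⟩ : ∃ t s₁ m₁ : ℕ, 0 < t ∧ Nat.Coprime s₁ m₁ ∧
      s = s₁ * t ∧ m' = m₁ * t := by
    obtain ⟨s₁, m₁, h2, h3, h4⟩ := Nat.exists_coprime s m'
    exact ⟨_, s₁, m₁, ht, h2, h3, h4⟩
  have h2 : ∀ a ∈ normalizedFactors R, m₁ ∣ Multiset.count a (normalizedFactors R) := by
    intro a _
    have h3 := congrArg (Multiset.count a) h1
    rw [Multiset.count_nsmul, Multiset.count_nsmul, hs1, hm1] at h3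
    have h4 : s₁ * Multiset.count a (normalizedFactors R)
        = m₁ * Multiset.count a (normalizedFactors S) := by
      have h5 : t * (s₁ * Multiset.count a (normalizedFactors R))
          = t * (m₁ * Multiset.count a (normalizedFactors S)) := by
        nlinarith
      exact Nat.eq_of_mul_eq_mul_left ht0 h5
    exact hcop.symm.dvd_of_dvd_mul_left (h4 ▸ Dvd.intro _ rfl)
  obtain ⟨M, hM⟩ := Multiset.exists_smul_of_dvd_count _ h2
  have h6 : Associated (normalizedFactors R).prod R := prod_normalizedFactors hR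
  rw [hM, Multiset.prod_nsmul] at h6
  obtain ⟨u, hu'⟩ := h6
  obtain ⟨z, _, hz⟩ := Polynomial.isUnit_iff.1 u.isUnit
  refine ⟨m₁, z, M.prod, ?_, ⟨t, hm1⟩, ?_⟩
  · by_contra h7
    have h8 : m₁ = 0 ∨ m₁ = 1 := by omega
    rcases h8 with h8 | h8
    · rw [h8, zero_mul] at hm1
      omega
    · rw [h8, one_mul] at hm1
      have : s₁ = 0 := by
        by_contra h9
        have h10 : 1 * t ≤ s₁ * t := Nat.mul_le_mul_right _ (by omega)
        omega
      rw [this, zero_mul] at hs1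
      omega
  · rw [← hu', hz, mul_comm]

theorem p_WRF : Stmt_WRF := by
  intro E _ m f hm hf
  classical
  have hf0 : f ≠ 0 := by
    intro h0
    exact hf ⟨0, 0, by rw [h0]; simp⟩
  let P : ℕ → Prop := fun g => g ∣ m ∧ ∃ (c : E) (R : E[X]), f = C c * R ^ g
  have hP1 : P 1 := ⟨one_dvd _, 1, f, by simp⟩
  have hg : P (Nat.findGreatest P m) := Nat.findGreatest_spec (m := 1) (by omega) hP1
  have hg1 : 1 ≤ Nat.findGreatest P m := Nat.le_findGreatest (by omega) hP1
  have hgm : ∀ k, P k → k ≤ Nat.findGreatest P m := fun k hk =>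
    Nat.le_findGreatest (Nat.le_of_dvd hm hk.1) hk
  generalize Nat.findGreatest P m = g at hg hg1 hgm
  obtain ⟨⟨m', hm'⟩, c, R, hfR⟩ := hg
  have hc : c ≠ 0 := by
    intro h0
    rw [h0] at hfR
    exact hf0 (by rw [hfR]; simp)
  have hR : R ≠ 0 := by
    intro h0
    rw [h0, zero_pow (by omega), mul_zero] at hfR
    exact hf0 hfR
  have hm'2 : 2 ≤ m' := by
    by_contra h7
    have h8 : m' = 0 ∨ m' = 1 := by omega
    rcases h8 with h8 | h8
    · rw [h8, mul_zero] at hm'
      omega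
    · rw [h8, mul_one] at hm'
      exact hf ⟨c, R, by rw [hm']; exact hfR⟩
  refine ⟨g, m', c, R, hm', by omega, hm'2, hc, hfR, ?_⟩
  rintro s hs hsm ⟨c', S, hS⟩
  obtain ⟨m'', z, W, h1, h2, h3⟩ := WRF_key E R S c' s m' hR hS hs hsm
  have h4 : P (m'' * g) := by
    refine ⟨?_, c * z ^ g, W, ?_⟩
    · rw [hm', mul_comm]
      exact Nat.mul_dvd_mul_left g h2
    · rw [hfR, h3, mul_pow, ← pow_mul, C_mul, C_pow, mul_assoc]
  have h5 := hgm _ h4
  have h6 : 2 * g ≤ m'' * g := Nat.mul_le_mul_right _ h1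
  omega

end Pool.FT
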