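import Pool.Agent.Work.MP_223b32_ft.Interface3

/-! THEOREM FT, block WWE (typed by helper4). -/

namespace Pool.FT

open Finset Polynomial

/-- The characters through a generator. -/
theorem WWE_key {E : Type} [Field E] [Fintype E] (η : MulChar E ℂ) (m u : ℕ) (hm : 0 < m)
    (hu : Fintype.card E - 1 = m * u) (hη : orderOf η = m) :
    ∃ γ : Eˣ, ∀ y : E, y ≠ 0 → ∃ k₀ < m, (∀ k < m, (y ^ u = (γ : E) ^ (u * k) ↔ k = k₀)) ∧
      η y = η (γ : E) ^ k₀ := by
  classical
  obtain ⟨γ, hγ⟩ := IsCyclic.exists_generator (α := Eˣ)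
  have hord : orderOf γ = m * u := by
    rw [orderOf_eq_card_of_forall_mem_zpowers hγ, Nat.card_eq_fintype_card, Fintype.card_units,
      hu]
  have hupos : 0 < u := by
    rcases Nat.eq_zero_or_pos u with h | h
    · rw [h, mul_zero] at hu
      have := Fintype.one_lt_card (α := E)
      omega
    · exact h
  have hωm : η (γ : E) ^ m = 1 := by
    rw [← MulChar.pow_apply_coe, ← hη, pow_orderOf_eq_one, MulChar.one_apply_coe]
  refine ⟨γ, fun y hy => ?_⟩
  obtain ⟨j, hj⟩ : ∃ j : ℕ, γ ^ j = Units.mk0 y hy :=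
    (mem_powers_iff_mem_zpowers.mpr (hγ (Units.mk0 y hy)))
  have hyj : y = (γ : E) ^ j := by
    rw [← Units.val_pow_eq_pow_val, hj, Units.val_mk0]
  refine ⟨j % m, Nat.mod_lt _ hm, fun k hk => ?_, ?_⟩
  · rw [hyj, ← pow_mul, ← Units.val_pow_eq_pow_val, ← Units.val_pow_eq_pow_val, Units.val_inj,
      pow_eq_pow_iff_modEq, hord, mul_comm j u, mul_comm m u]
    constructor
    · intro h
      have h2 := Nat.ModEq.mul_left_cancel' hupos.ne' h
      have h3 : j % m = k % m := h2
      rw [h3, Nat.mod_eq_of_lt hk]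
    · intro h
      apply Nat.ModEq.mul_left'
      change j % m = k % m
      rw [h, Nat.mod_mod]
  · rw [hyj, map_pow]
    exact pow_eq_pow_mod j hωm

theorem p_WWE (hWNA : Stmt_WNA) : Stmt_WWE := by
  intro m d hm
  have hm0 : 0 < m := by omega
  obtain ⟨B₀, hB₀, hN⟩ := hWNA m d hm0
  refine ⟨2 * m * B₀ + d + 1, by positivity, ?_⟩
  intro E _ _ η hη f hfd hInd
  classical
  obtain ⟨Q, hQ⟩ : ∃ Q : ℕ, Q = Fintype.card E := ⟨_, rfl⟩
  have hQ1 : 1 < Q := by
    rw [hQ]
    exact Fintype.one_lt_card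
  have hQR : (1 : ℝ) < Q := by exact_mod_cast hQ1
  have hsq : √(Q : ℝ) * √(Q : ℝ) = Q := Real.mul_self_sqrt (by positivity)
  have hs1 : 1 ≤ √(Q : ℝ) := by
    rw [Real.one_le_sqrt]
    exact hQR.le
  have hη1 : ∀ y : E, ‖η y‖ ≤ 1 := by
    intro y
    by_cases hy : y = 0
    · rw [hy, MulChar.map_zero, norm_zero]
      exact zero_le_one
    · have h1 : η y ^ (m * 1) = 1 := by
        have h2 : (η ^ m) y = 1 := by
          rw [← hη, pow_orderOf_eq_one, MulChar.one_apply (Ne.isUnit hy)]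
        rw [mul_one, ← h2, MulChar.pow_apply' _ (by omega)]
      rw [mul_one] at h1
      have h3 : ‖η y‖ ^ m = 1 := by rw [← norm_pow, h1, norm_one]
      exact (pow_eq_one_iff_of_nonneg (norm_nonneg _) (by omega)).mp h3 |>.le
  have hdvd : m ∣ Fintype.card E - 1 := by
    rw [← hη]
    exact MulChar.orderOf_dvd_card_sub_one E η
  rw [← hQ]
  have hf0 : f ≠ 0 := by
    rintro rfl
    refine hInd 1 one_pos (by omega) ⟨0, 0, ?_⟩
    simp [hm0.ne']
  by_cases hQd : Q ≤ d
  · have hQdR : (Q : ℝ) ≤ d := by exact_mod_cast hQd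
    calc ‖∑ x : E, η (f.eval x)‖ ≤ ∑ _x : E, (1 : ℝ) :=
          norm_sum_le_of_le _ fun x _ => hη1 _
      _ = Q := by simp [hQ]
      _ = √(Q : ℝ) * √(Q : ℝ) := hsq.symm
      _ ≤ (2 * m * B₀ + d + 1) * √(Q : ℝ) := by
        apply mul_le_mul_of_nonneg_right _ (by positivity)
        have h1 : √(Q : ℝ) ≤ Q := by nlinarith
        have h2 : 0 ≤ 2 * m * B₀ := by positivity
        linarith
  push Not at hQd
  obtain ⟨c, hc⟩ := f.exists_eval_ne_zero_of_natDegree_lt_card hf0 (by
    rw [Cardinal.mk_fintype, ← hQ]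
    exact_mod_cast lt_of_le_of_lt hfd hQd)
  -- shift
  obtain ⟨g, hg⟩ : ∃ g : E[X], g = f.comp (X + C c) := ⟨_, rfl⟩
  have hgev : ∀ x, g.eval x = f.eval (x + c) := by
    intro x
    rw [hg, eval_comp, eval_add, eval_X, eval_C]
  have hgd : g.natDegree ≤ d := by
    rw [hg, natDegree_comp, natDegree_X_add_C, mul_one]
    exact hfd
  have hg0 : g.eval 0 ≠ 0 := by
    rw [hgev, zero_add]
    exact hc
  have hgI : Indec m g := by
    intro s hs hsm hpow
    obtain ⟨v, R, hR⟩ := hpow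
    refine hInd s hs hsm ⟨v, R.comp (X - C c), ?_⟩
    have h1 : (g ^ s).comp (X - C c) = f ^ s := by
      rw [hg, pow_comp, comp_assoc]
      simp
    rw [← h1, hR, mul_comp, C_comp, pow_comp]
  have hsum : ∑ x : E, η (f.eval x) = ∑ x : E, η (g.eval x) := by
    rw [← Equiv.sum_comp (Equiv.addRight c) (fun x => η (f.eval x))]
    apply Finset.sum_congr rfl
    intro x _
    rw [hgev]
    rfl
  rw [hsum]
  obtain ⟨u, hu⟩ := hdvd
  have hu' : (Fintype.card E - 1) / m = u := by
    rw [hu]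
    exact Nat.mul_div_cancel_left u hm0
  have hupos : 0 < u := by
    rcases Nat.eq_zero_or_pos u with h | h
    · rw [h, mul_zero] at hu
      omega
    · exact h
  obtain ⟨γ, hγ⟩ := WWE_key η m u hm0 hu hη
  obtain ⟨ω, hω⟩ : ∃ ω : ℂ, ω = η (γ : E) := ⟨_, rfl⟩
  have hωm : ω ^ m = 1 := by
    rw [hω, ← MulChar.pow_apply_coe, ← hη, pow_orderOf_eq_one, MulChar.one_apply_coe]
  have hω1 : ω ≠ 1 := by
    intro h1
    have h2 : η = 1 := by
      apply MulChar.ext
      intro a
      obtain ⟨k, -, -, hk⟩ := hγ (a : E) a.ne_zero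
      rw [hk, ← hω, h1, one_pow, MulChar.one_apply_coe]
    rw [h2, orderOf_one] at hη
    omega
  have hgeom : ∑ k ∈ range m, ω ^ k = 0 := by
    have h1 := mul_geom_sum ω m
    rw [hωm, sub_self] at h1
    rcases mul_eq_zero.mp h1 with h2 | h2
    · exact absurd (sub_eq_zero.mp h2) hω1
    · exact h2
  have hωn : ‖ω‖ ≤ 1 := by
    rw [hω]
    exact hη1 _
  -- the fibres
  obtain ⟨N, hNdef⟩ : ∃ N : ℕ → ℕ, N = fun k =>
      (Finset.univ.filter fun x : E => g.eval x ^ u = (γ : E) ^ (u * k)).card := ⟨_, rfl⟩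
  have hpt : ∀ x : E, ∀ F : ℕ → ℂ,
      (∑ k ∈ range m, if g.eval x ^ u = (γ : E) ^ (u * k) then F k else 0)
        = if h : g.eval x = 0 then 0 else F (hγ _ h).choose := by
    intro x F
    by_cases h : g.eval x = 0
    · rw [dif_pos h]
      apply Finset.sum_eq_zero
      intro k _
      rw [if_neg]
      rw [h, zero_pow hupos.ne']
      exact (pow_ne_zero _ γ.ne_zero).symm
    · rw [dif_neg h]
      obtain ⟨hk1, hk2, hk3⟩ := (hγ _ h).choose_spec
      rw [Finset.sum_eq_single (hγ _ h).choose]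
      · rw [if_pos]
        exact (hk2 _ hk1).mpr rfl
      · intro k hk hne
        rw [if_neg]
        intro h2
        exact hne ((hk2 k (Finset.mem_range.mp hk)).mp h2)
      · intro h2
        exact absurd (Finset.mem_range.mpr hk1) h2
  have hexp : ∀ F : ℕ → ℂ, ∑ x : E, (if h : g.eval x = 0 then 0 else F (hγ _ h).choose)
      = ∑ k ∈ range m, F k * N k := by
    intro F
    rw [← Finset.sum_congr rfl fun x _ => hpt x F, Finset.sum_comm]
    apply Finset.sum_congr rfl
    intro k _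
    rw [← Finset.sum_filter, Finset.sum_const, hNdef, nsmul_eq_mul, mul_comm]
  have hmain : ∑ x : E, η (g.eval x) = ∑ k ∈ range m, ω ^ k * N k := by
    rw [← hexp fun k => ω ^ k]
    apply Finset.sum_congr rfl
    intro x _
    by_cases h : g.eval x = 0
    · rw [dif_pos h, h, MulChar.map_zero]
    · rw [dif_neg h, hω]
      exact (hγ _ h).choose_spec.2.2
  have hcount : (Q : ℝ) - d ≤ ∑ k ∈ range m, (N k : ℝ) := by
    have h1 := hexp fun _ => 1
    simp only [one_mul] at h1
    have h2 : ∑ x : E, (if h : g.eval x = 0 then (0 : ℂ) else 1)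
        = ((Finset.univ.filter fun x : E => ¬ g.eval x = 0).card : ℂ) := by
      rw [Finset.card_filter]
      push_cast
      apply Finset.sum_congr rfl
      intro x _
      by_cases h : g.eval x = 0
      · rw [dif_pos h, if_neg (not_not.mpr h)]
      · rw [dif_neg h, if_pos h]
    rw [h2] at h1
    have h3 : (Finset.univ.filter fun x : E => ¬ g.eval x = 0).card = ∑ k ∈ range m, N k := by
      exact_mod_cast h1
    have h4 : (Finset.univ.filter fun x : E => g.eval x = 0).card ≤ d := by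
      have hgne : g ≠ 0 := by
        rintro rfl
        exact hg0 eval_zero
      refine le_trans ?_ (le_trans (card_roots' g) hgd)
      refine le_trans (Finset.card_le_card ?_) (Multiset.toFinset_card_le g.roots)
      intro x hx
      rw [Multiset.mem_toFinset, mem_roots hgne]
      exact (Finset.mem_filter.mp hx).2
    have h5 := Finset.card_filter_add_card_filter_not (s := (Finset.univ : Finset E))
      (fun x : E => g.eval x = 0)
    rw [Finset.card_univ, ← hQ, h3] at h5
    have h6 : (Q : ℝ) = (Finset.univ.filter fun x : E => g.eval x = 0).card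
        + ∑ k ∈ range m, (N k : ℝ) := by
      exact_mod_cast h5.symm
    have h7 : ((Finset.univ.filter fun x : E => g.eval x = 0).card : ℝ) ≤ d := by
      exact_mod_cast h4
    linarith
  have hup : ∀ k, (N k : ℝ) - Q / m ≤ B₀ * √(Q : ℝ) := by
    intro k
    have h1 := hN E (hu ▸ Dvd.intro _ rfl) g ((γ : E) ^ (u * k)) hgd hg0 hgI
      (pow_ne_zero _ γ.ne_zero)
    rw [hu', Nat.card_eq_fintype_card, Fintype.card_subtype, ← hQ] at h1
    rw [hNdef]
    linarith
  have hfin : ∑ k ∈ range m, ω ^ k * (N k : ℂ)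
      = ∑ k ∈ range m, ω ^ k * (((N k : ℝ) - Q / m : ℝ) : ℂ) := by
    have h1 : ∑ k ∈ range m, ω ^ k * (((N k : ℝ) - Q / m : ℝ) : ℂ)
        = ∑ k ∈ range m, ω ^ k * (N k : ℂ) - (∑ k ∈ range m, ω ^ k) * ((Q : ℂ) / m) := by
      rw [Finset.sum_mul, ← Finset.sum_sub_distrib]
      apply Finset.sum_congr rfl
      intro k _
      push_cast
      ring
    rw [h1, hgeom, zero_mul, sub_zero]
  rw [hmain, hfin]
  have hM : 0 ≤ B₀ * √(Q : ℝ) := by positivity
  calc ‖∑ k ∈ range m, ω ^ k * (((N k : ℝ) - Q / m : ℝ) : ℂ)‖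
      ≤ ∑ k ∈ range m, |(N k : ℝ) - Q / m| := by
        apply norm_sum_le_of_le
        intro k _
        rw [norm_mul, norm_pow, Complex.norm_real, Real.norm_eq_abs]
        have h1 : ‖ω‖ ^ k ≤ 1 := pow_le_one₀ (norm_nonneg _) hωn
        calc ‖ω‖ ^ k * |(N k : ℝ) - Q / m| ≤ 1 * |(N k : ℝ) - Q / m| :=
              mul_le_mul_of_nonneg_right h1 (abs_nonneg _)
          _ = _ := one_mul _
    _ ≤ ∑ k ∈ range m, (2 * (B₀ * √(Q : ℝ)) - ((N k : ℝ) - Q / m)) := by
        apply Finset.sum_le_sum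
        intro k _
        have h1 := hup k
        rcases abs_cases ((N k : ℝ) - Q / m) with ⟨h2, h3⟩ | ⟨h2, h3⟩ <;> linarith
    _ = 2 * m * (B₀ * √(Q : ℝ)) + Q - ∑ k ∈ range m, (N k : ℝ) := by
        rw [Finset.sum_sub_distrib, Finset.sum_sub_distrib, Finset.sum_const, Finset.sum_const,
          Finset.card_range, nsmul_eq_mul, nsmul_eq_mul]
        have hmR : (m : ℝ) ≠ 0 := by
          exact_mod_cast hm0.ne'
        field_simp
        ring
    _ ≤ 2 * m * (B₀ * √(Q : ℝ)) + d := by linarith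
    _ ≤ (2 * m * B₀ + d + 1) * √(Q : ℝ) := by
        have h1 : (d : ℝ) * 1 ≤ d * √(Q : ℝ) := mul_le_mul_of_nonneg_left hs1 (by positivity)
        nlinarith

end Pool.FT
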