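import Mathlib

/-!
# THEOREM FT (MP_223b32_ag): definitions

The (analytic) Tate conjecture, in all codimensions, for all products of diagonal
hypersurfaces of degree `m = l ^ k` or `2 * l ^ k` (`l` prime, `3 ≤ m`) over finite fields
of characteristic `p` not dividing `m`.

Do NOT edit this file; the final hand-in copies it.
-/

namespace Pool.FT

open Finset

/-! ## Characters of Fermat varieties and the known algebraic cycles -/

/-- The characters `a` that index the lines `V(a)` of the primitive cohomology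
`H^(r-2)` (`r` = number of entries, even) of the Fermat variety of degree `m`. -/
def Chr (m : ℕ) (a : Multiset (ZMod m)) : Prop :=
  a ≠ 0 ∧ (0 : ZMod m) ∉ a ∧ a.sum = 0 ∧ Even (Multiset.card a)

/-- The properties used of the set `Alg` of characters whose line is spanned by an
algebraic class (all are theorems of Weil, Shioda, Katsura, Tate, Aoki). -/
structure FermatCycles (m p : ℕ) (Alg : Multiset (ZMod m) → Prop) : Prop where
  /-- only characters -/
  chr : ∀ a, Alg a → Chr m a
  /-- points -/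
  pair : ∀ x : ZMod m, x ≠ 0 → Alg {x, -x}
  /-- Shioda-Katsura inductive structure -/
  join : ∀ a b, Alg a → Alg b → Alg (a + b)
  /-- the same, read backwards -/
  cancel : ∀ (a : Multiset (ZMod m)) (x : ZMod m), Chr m a → x ≠ 0 → Alg (a + {x, -x}) → Alg a
  /-- Galois conjugation of the coefficients -/
  neg : ∀ a, Alg a → Alg (a.map (fun x => -x))
  /-- graph of the Frobenius of the Fermat curve -/
  frob : ∀ x y z : ZMod m, x ≠ 0 → y ≠ 0 → z ≠ 0 → x + y + z = 0 →
    Alg ({x, y, z} + {-((p : ZMod m) * x), -((p : ZMod m) * y), -((p : ZMod m) * z)})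
  /-- supersingular Fermat curves (Tate) -/
  super : (∃ i : ℕ, (p : ZMod m) ^ i = -1) → ∀ x y z x' y' z' : ZMod m,
    x ≠ 0 → y ≠ 0 → z ≠ 0 → x + y + z = 0 →
    x' ≠ 0 → y' ≠ 0 → z' ≠ 0 → x' + y' + z' = 0 → Alg ({x, y, z} + {x', y', z'})
  /-- standard cycles of type 2 (Fermat surfaces) -/
  two : ∀ h x : ZMod m, h ≠ 0 → h + h = 0 → x ≠ 0 → x ≠ h →
    Alg {x, x + h, -(x + x), h}
  /-- standard cycles of type `d` (`d = 3`: surfaces; `d ≥ 5`: Aoki) -/
  odd : ∀ (d : ℕ) (w x : ZMod m), d.Prime → Odd d → w ≠ 0 → (d : ZMod m) * w = 0 →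
    (d : ZMod m) * x ≠ 0 →
    Alg ((Multiset.range d).map (fun i => x + (i : ZMod m) * w) + {-((d : ZMod m) * x)})

/-- The smallest set of characters closed under the constructions of `FermatCycles`. -/
inductive Con (m p : ℕ) : Multiset (ZMod m) → Prop
  | pair (x : ZMod m) : x ≠ 0 → Con m p {x, -x}
  | join (a b : Multiset (ZMod m)) : Con m p a → Con m p b → Con m p (a + b)
  | cancel (a : Multiset (ZMod m)) (x : ZMod m) : Chr m a → x ≠ 0 → Con m p (a + {x, -x}) →
      Con m p a
  | neg (a : Multiset (ZMod m)) : Con m p a → Con m p (a.map (fun x => -x))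
  | frob (x y z : ZMod m) : x ≠ 0 → y ≠ 0 → z ≠ 0 → x + y + z = 0 →
      Con m p ({x, y, z} + {-((p : ZMod m) * x), -((p : ZMod m) * y), -((p : ZMod m) * z)})
  | super (i : ℕ) (x y z x' y' z' : ZMod m) : (p : ZMod m) ^ i = -1 →
      x ≠ 0 → y ≠ 0 → z ≠ 0 → x + y + z = 0 →
      x' ≠ 0 → y' ≠ 0 → z' ≠ 0 → x' + y' + z' = 0 → Con m p ({x, y, z} + {x', y', z'})
  | two (h x : ZMod m) : h ≠ 0 → h + h = 0 → x ≠ 0 → x ≠ h →
      Con m p {x, x + h, -(x + x), h}
  | odd (d : ℕ) (w x : ZMod m) : d.Prime → Odd d → w ≠ 0 → (d : ZMod m) * w = 0 →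
      (d : ZMod m) * x ≠ 0 →
      Con m p ((Multiset.range d).map (fun i => x + (i : ZMod m) * w) + {-((d : ZMod m) * x)})

/-- `e` kills all algebraic characters. -/
structure Kills {m : ℕ} (Alg : Multiset (ZMod m) → Prop) {Q : Type} [AddCommGroup Q]
    (e : ZMod m → Q) : Prop where
  zero : e 0 = 0
  kill : ∀ b, Alg b → (b.map e).sum = 0

/-- The condition of Stickelberger's theorem on a Tate class: for each unit `t` the
`⟨p⟩`-average of the fractional parts `⟨t x / m⟩`, `x` in `a`, has sum `card a / 2`. -/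
def Stick (m p f : ℕ) (a : Multiset (ZMod m)) : Prop :=
  ∀ t : (ZMod m)ˣ,
    2 * ∑ i ∈ range f, (a.map (fun x => ((t : ZMod m) * (p : ZMod m) ^ i * x).val)).sum
      = f * (Multiset.card a) * m

/-- the Bernoulli function `m * 2 * B_1(y / m)`, with value `0` at `0`. -/
def Bern (m : ℕ) (y : ZMod m) : ℤ := if y = 0 then 0 else 2 * (y.val : ℤ) - m

/-- the admissible pairs `(m, u)`: `u = 1` and `m` is a prime power,
or `u = 2` and `m = 2 * l ^ k` with `l` odd. -/
def GoodU (m : ℕ) (u : ZMod m) : Prop :=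
  (∃ l k : ℕ, l.Prime ∧ 0 < k ∧ m = l ^ k ∧ u = 1) ∨
  (∃ l k : ℕ, l.Prime ∧ Odd l ∧ 0 < k ∧ m = 2 * l ^ k ∧ u = 2)

/-- the degrees of the theorem -/
def GoodM (m : ℕ) : Prop :=
  3 ≤ m ∧ ∃ l k : ℕ, l.Prime ∧ 0 < k ∧ (m = l ^ k ∨ m = 2 * l ^ k)

/-! ## Cohomology of a diagonal hypersurface -/

/-- The primitive lines of the cohomology of a diagonal hypersurface of degree `m`
and dimension `n` (in `n + 2` homogeneous variables). -/
def Prim (m n : ℕ) : Type :=
  {a : Fin (n + 2) → ZMod m // (∀ k, a k ≠ 0) ∧ ∑ k, a k = 0}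

instance (m n : ℕ) [NeZero m] : Finite (Prim m n) := by
  unfold Prim; infer_instance

noncomputable instance (m n : ℕ) [NeZero m] : Fintype (Prim m n) := Fintype.ofFinite _

/-- The standard basis of `H^*(X)`: the powers `h ^ r` of the hyperplane class,
`0 ≤ r ≤ n`, and the primitive lines. -/
abbrev Cls (m n : ℕ) : Type := Fin (n + 1) ⊕ Prim m n

/-- cohomological degree -/
def degC {m n : ℕ} : Cls m n → ℕ
  | Sum.inl r => 2 * (r : ℕ)
  | Sum.inr _ => n

/-- the entries of the character of a basis element -/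
def charsC {m n : ℕ} : Cls m n → Multiset (ZMod m)
  | Sum.inl _ => 0
  | Sum.inr a => (univ : Finset (Fin (n + 2))).val.map a.1

open Classical in
/-- Weil's Jacobi sum `∑ ∏ χ ^ (a k) (v k)` over all `v` with `∑ v k = 0`. -/
noncomputable def Jac {F E : Type} [Field F] [Fintype F] [Field E] (χ : MulChar F E)
    {m n : ℕ} (a : Fin n → ZMod m) : E :=
  ∑ v ∈ (univ : Finset (Fin n → F)).filter (fun v => ∑ k, v k = 0),
    ∏ k, (χ ^ (a k).val) (v k)

/-- The Frobenius eigenvalue of a basis element of the cohomology of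
`∑ c k * x k ^ m = 0` over `F` (`χ` a character of order `m` of `F`). -/
noncomputable def lam {F E : Type} [Field F] [Fintype F] [Field E] (χ : MulChar F E)
    {m n : ℕ} (c : Fin (n + 2) → Fˣ) : Cls m n → E
  | Sum.inl r => (Fintype.card F : E) ^ (r : ℕ)
  | Sum.inr a => (-1) ^ n * (∏ k, (χ ^ (a.1 k).val)⁻¹ (c k : F)) *
      (Jac χ a.1 / ((Fintype.card F : E) - 1))

/-! ### Products -/

/-- degree of a basis element of the cohomology of a product (Künneth) -/
def degP {m : ℕ} {ι : Type} [Fintype ι] {n : ι → ℕ} (b : ∀ i, Cls m (n i)) : ℕ :=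
  ∑ i, degC (b i)

/-- Frobenius eigenvalue of a basis element of the cohomology of a product -/
noncomputable def eigP {F E : Type} [Field F] [Fintype F] [Field E] (χ : MulChar F E)
    {m : ℕ} {ι : Type} [Fintype ι] {n : ι → ℕ} (c : ∀ i, Fin (n i + 2) → Fˣ)
    (b : ∀ i, Cls m (n i)) : E :=
  ∏ i, lam χ (c i) (b i)

/-- all the entries of the primitive components of a basis element -/
def charsP {m : ℕ} {ι : Type} [Fintype ι] {n : ι → ℕ} (b : ∀ i, Cls m (n i)) :
    Multiset (ZMod m) :=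
  ∑ i, charsC (b i)

/-- the basis element is spanned by an algebraic class, by the known constructions -/
def IsAlg {m : ℕ} (Alg : Multiset (ZMod m) → Prop) {ι : Type} [Fintype ι] {n : ι → ℕ}
    (b : ∀ i, Cls m (n i)) : Prop :=
  charsP b = 0 ∨ Alg (charsP b)

/-- `L` has a pole of order `r` at the real point `s₀`, in the sense of the problem. -/
def HasPoleOrder (L : ℂ → ℂ) (s₀ : ℝ) (r : ℕ) : Prop :=
  ∃ w : ℂ, w ≠ 0 ∧ Filter.Tendsto (fun s : ℝ => ((s : ℂ) - s₀) ^ r * L s)
    (nhdsWithin s₀ (Set.Ioi s₀)) (nhds w)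

open Classical in
/-- `det(1 - Frob q^(-s) | H^(2j)(X))^(-1)` -/
noncomputable def LL {F : Type} [Field F] [Fintype F] (χ : MulChar F ℂ) (m : ℕ) [NeZero m]
    {ι : Type} [Fintype ι] {n : ι → ℕ} (c : ∀ i, Fin (n i + 2) → Fˣ) (j : ℕ) (s : ℂ) : ℂ :=
  ∏ b ∈ (univ : Finset (∀ i, Cls m (n i))).filter (fun b => degP b = 2 * j),
    (1 - eigP χ c b * (Fintype.card F : ℂ) ^ (-s))⁻¹

/-! ### Additive characters and Teichmüller characters -/

/-- the additive character `x ↦ ζ ^ Tr x` of a finite field -/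
noncomputable def psi (p : ℕ) [NeZero p] {F E : Type} [Field F] [Algebra (ZMod p) F]
    [Field E] (ζ : E) (hζ : ζ ^ p = 1) : AddChar F E :=
  (AddChar.zmodChar p hζ).compAddMonoidHom (Algebra.trace (ZMod p) F).toAddMonoidHom

/-- Teichmüller characters: `ω` has order `q - 1` and is additive modulo the maximal ideal. -/
structure Teich {F E : Type} [Field F] [Fintype F] [NormedField E] (ω : MulChar F E) :
    Prop where
  add : ∀ x y : F, ‖ω x + ω y - ω (x + y)‖ < 1
  ord : orderOf ω = Fintype.card F - 1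

end Pool.FT
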