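import Pool.Agent.Work.MP_223b32_ft.B_BER
import Pool.Agent.Work.MP_223b32_ft.B_BEU
import Pool.Agent.Work.MP_223b32_ft.B_COM
import Pool.Agent.Work.MP_223b32_ft.B_CON
import Pool.Agent.Work.MP_223b32_ft.B_DAD
import Pool.Agent.Work.MP_223b32_ft.B_DSB
import Pool.Agent.Work.MP_223b32_ft.B_DSC
import Pool.Agent.Work.MP_223b32_ft.B_DSM
import Pool.Agent.Work.MP_223b32_ft.B_EDI
import Pool.Agent.Work.MP_223b32_ft.B_EDJ
import Pool.Agent.Work.MP_223b32_ft.B_ENZ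
import Pool.Agent.Work.MP_223b32_ft.B_FIN
import Pool.Agent.Work.MP_223b32_ft.B_GJA
import Pool.Agent.Work.MP_223b32_ft.B_GSF
import Pool.Agent.Work.MP_223b32_ft.B_GSO
import Pool.Agent.Work.MP_223b32_ft.B_HDA
import Pool.Agent.Work.MP_223b32_ft.B_HDB
import Pool.Agent.Work.MP_223b32_ft.B_HDC
import Pool.Agent.Work.MP_223b32_ft.B_HDV
import Pool.Agent.Work.MP_223b32_ft.B_HZO
import Pool.Agent.Work.MP_223b32_ft.B_LMH
import Pool.Agent.Work.MP_223b32_ft.B_MAIN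
import Pool.Agent.Work.MP_223b32_ft.B_NVA
import Pool.Agent.Work.MP_223b32_ft.B_PIZ
import Pool.Agent.Work.MP_223b32_ft.B_PTC
import Pool.Agent.Work.MP_223b32_ft.B_PTX
import Pool.Agent.Work.MP_223b32_ft.B_RED
import Pool.Agent.Work.MP_223b32_ft.B_RXP
import Pool.Agent.Work.MP_223b32_ft.B_RXT
import Pool.Agent.Work.MP_223b32_ft.B_SAT
import Pool.Agent.Work.MP_223b32_ft.B_STI
import Pool.Agent.Work.MP_223b32_ft.B_STK
import Pool.Agent.Work.MP_223b32_ft.B_STX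
import Pool.Agent.Work.MP_223b32_ft.B_SUP
import Pool.Agent.Work.MP_223b32_ft.B_TEI
import Pool.Agent.Work.MP_223b32_ft.B_TRC
import Pool.Agent.Work.MP_223b32_ft.B_TRF
import Pool.Agent.Work.MP_223b32_ft.B_VAL

/-! THEOREM FT: assembly of all the blocks. -/

namespace Pool.FT

theorem t_EDJ : Stmt_EDJ := p_EDJ p_EDI
theorem t_RED : Stmt_RED := p_RED (p_RXP p_DSB t_EDJ) (p_RXT p_DSB t_EDJ)
theorem t_BEU : Stmt_BEU := p_BEU (p_BER (p_VAL p_HZO) p_NVA)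
theorem t_COM : Stmt_COM := p_COM p_SAT p_DAD p_SUP t_RED t_BEU p_FIN
theorem t_GSO : Stmt_GSO := p_GSO p_PIZ p_TRC
theorem t_STI : Stmt_STI := p_STI p_PIZ t_GSO p_GSF p_DSM
theorem t_STX : Stmt_STX := p_STX p_TEI p_PIZ p_DSM t_STI
theorem t_STK : Stmt_STK := p_STK p_GJA p_TRF p_LMH t_STX p_GSF
theorem t_HDV : Stmt_HDV := p_HDV p_HDA p_HDB p_HDC
theorem t_PTX : Stmt_PTX := p_PTX p_PTC p_GJA t_HDV
theorem t_ENZ : Stmt_ENZ := p_ENZ p_GJA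
theorem t_MAIN : Stmt_MAIN := p_MAIN t_COM t_STK t_PTX t_ENZ p_DSC

end Pool.FT
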