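import Pool.Agent.Work.MP_223b32_ft.Final
import Pool.Agent.Work.MP_223b32_ft.B_ABS
import Pool.Agent.Work.MP_223b32_ft.B_ANA
import Pool.Agent.Work.MP_223b32_ft.B_CRD
import Pool.Agent.Work.MP_223b32_ft.B_EIG
import Pool.Agent.Work.MP_223b32_ft.B_EU1
import Pool.Agent.Work.MP_223b32_ft.B_EU2
import Pool.Agent.Work.MP_223b32_ft.B_EXT
import Pool.Agent.Work.MP_223b32_ft.B_FAC
import Pool.Agent.Work.MP_223b32_ft.B_FFL
import Pool.Agent.Work.MP_223b32_ft.B_MVA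
import Pool.Agent.Work.MP_223b32_ft.B_MVB
import Pool.Agent.Work.MP_223b32_ft.B_NRM
import Pool.Agent.Work.MP_223b32_ft.B_ONE
import Pool.Agent.Work.MP_223b32_ft.B_PLD
import Pool.Agent.Work.MP_223b32_ft.B_PTN
import Pool.Agent.Work.MP_223b32_ft.B_PTS
import Pool.Agent.Work.MP_223b32_ft.B_SPC
import Pool.Agent.Work.MP_223b32_ft.B_SRD
import Pool.Agent.Work.MP_223b32_ft.B_SZC
import Pool.Agent.Work.MP_223b32_ft.B_VAR
import Pool.Agent.Work.MP_223b32_ft.B_WBM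
import Pool.Agent.Work.MP_223b32_ft.B_WEX
import Pool.Agent.Work.MP_223b32_ft.B_WLI
import Pool.Agent.Work.MP_223b32_ft.B_WNA
import Pool.Agent.Work.MP_223b32_ft.B_WNO
import Pool.Agent.Work.MP_223b32_ft.B_WNV
import Pool.Agent.Work.MP_223b32_ft.B_WRF
import Pool.Agent.Work.MP_223b32_ft.B_WWE

/-! THEOREM FT, part 3: assembly of the blocks of Interface3. -/

namespace Pool.FT

theorem t_WBM : Stmt_WBM := p_WBM (p_WWE (p_WNA (p_WNV p_WLI p_WNO) p_WEX)) p_WRF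
theorem t_MVB : Stmt_MVB := p_MVB p_FAC p_VAR (p_MVA p_SPC p_SZC t_WBM)
theorem t_PLD : Stmt_PLD := p_PLD p_PTN p_EXT
theorem t_SRD : Stmt_SRD := p_SRD t_MVB p_SZC p_EXT (p_PTS p_PTN t_PLD) p_NRM
theorem t_ANA : Stmt_ANA := p_ANA p_EU1 (p_EU2 p_EU1)
theorem t_ONE : Stmt_ONE := p_ONE (p_EIG p_GJA t_HDV) (p_ABS p_GJA) p_CRD t_ANA t_SRD t_PLD
theorem t_FFL : Stmt_FFL := p_FFL t_ONE

/-- The open set where no coefficient vanishes has a closed point. -/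
theorem t_PNE (F : Type) [Field F] (r : ℕ) (ι : Type) [Fintype ι] (n : ι → ℕ)
    (c : ∀ i : ι, Fin (n i + 2) → MvPolynomial (Fin r) F) (hc : ∀ i k, c i k ≠ 0) :
    Nonempty (GPlace c) := by
  have hD : ∏ i, ∏ k, c i k ≠ 0 := by
    rw [Finset.prod_ne_zero_iff]
    intro i _
    rw [Finset.prod_ne_zero_iff]
    intro k _
    exact hc i k
  have h1 : (⊥ : Ideal (MvPolynomial (Fin r) F)).jacobson = ⊥ :=
    IsJacobsonRing.out inferInstance Ideal.isPrime_bot.isRadical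
  by_contra hcon
  refine hD ?_
  have h2 : ∏ i, ∏ k, c i k ∈ (⊥ : Ideal (MvPolynomial (Fin r) F)).jacobson := by
    unfold Ideal.jacobson
    rw [Ideal.mem_sInf]
    intro J hJ
    by_contra hJ1
    have hp : J.IsPrime := hJ.2.isPrime
    refine hcon ⟨⟨⟨J, hJ.2⟩, fun i k hik => hJ1 ?_⟩⟩
    refine Ideal.mem_of_dvd J ?_ hik
    exact (Finset.dvd_prod_of_mem (fun k => c i k) (Finset.mem_univ k)).trans
      (Finset.dvd_prod_of_mem (fun i => ∏ k, c i k) (Finset.mem_univ i))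
  rw [h1] at h2
  exact Ideal.mem_bot.1 h2

end Pool.FT
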