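import Pool.Agent.Work.MP_223b32_ft.Final2
import Pool.Agent.Work.MP_223b32_ft.B_DSA
import Pool.Agent.Work.MP_223b32_ft.B_EMB
import Pool.Agent.Work.MP_223b32_ft.B_FCL
import Pool.Agent.Work.MP_223b32_ft.B_LEV
import Pool.Agent.Work.MP_223b32_ft.B_MIX
import Pool.Agent.Work.MP_223b32_ft.B_ONM
import Pool.Agent.Work.MP_223b32_ft.B_PRO
import Pool.Agent.Work.MP_223b32_ft.B_PRT
import Pool.Agent.Work.MP_223b32_ft.B_SCL
import Pool.Agent.Work.MP_223b32_ft.B_SEP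
import Pool.Agent.Work.MP_223b32_ft.B_SPT
import Pool.Agent.Work.MP_223b32_ft.B_SUX
import Pool.Agent.Work.MP_223b32_ft.B_TBM

/-! THEOREM FT, part 4: assembly of the blocks of Interface4. -/

namespace Pool.FT

theorem t_SCL : Stmt_SCL := p_SCL p_EMB
theorem t_FCL : Stmt_FCL := p_FCL p_EMB t_SCL p_SUX
theorem t_PRT : Stmt_PRT := p_PRT p_EMB t_SCL t_FCL (p_SPT p_SUX) t_COM
theorem t_MIX : Stmt_MIX := p_MIX p_EMB t_FCL p_SAT p_SEP t_PRT
theorem t_LEV : Stmt_LEV := p_LEV p_EMB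
theorem t_TBM : Stmt_TBM := p_TBM p_EMB t_LEV t_STK t_MIX
theorem t_ONM : Stmt_ONM := p_ONM t_LEV t_ONE

end Pool.FT
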