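import Pool.Agent.Work.MP_223b32_ft.Defs

/-!
# THEOREM FT: the statements of all the blocks

Every block is a file `B_X.lean` in this folder with a theorem
`Pool.FT.p_X (hA : Stmt_A) ... : Stmt_X`, the hypotheses being the statements of the blocks
it uses (table `ft_blocks`, column `uses`).  Lemmas of a block are prefixed `X_`.
Do NOT edit this file: if a statement is false or awkward, tell helper14.

All the statements were checked by hand; the main theorem was checked numerically for all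
`m = l^k, 2 l^k ≤ 125` and all `p`.
-/

namespace Pool.FT

open Finset

/-! ## A. Combinatorics of characters -/

/-- SAT (saturation).  If every `e` killing `Alg` kills `a`, then `Alg a`.

Proof. For `c : ZMod m → ℤ` and a multiset `b` let `cnt b : ZMod m → ℤ` be its counting
function.  Let `S = AddSubgroup.closure {cnt b | Alg b}` in `ZMod m → ℤ`,
`Q = (ZMod m → ℤ) ⧸ S` and `e x = class of Pi.single x 1` for `x ≠ 0`, `e 0 = 0`.  As
`0 ∉ b` for `Alg b` (`chr`) and `0 ∉ a`, `(b.map e).sum` is the class of `cnt b`; so `e`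
kills `Alg` and the hypothesis gives `cnt a ∈ S`.  By `AddSubgroup.closure_induction`
(and `join`) every element of `S` is `cnt P - cnt N` with (`P = 0` or `Alg P`) and
(`N = 0` or `Alg N`).  So `a + N = P` as multisets.  If `N = 0`, `a = P ≠ 0`, done.  If
`Alg N`: `P ≠ 0` as `a ≠ 0`, so `Alg P`; with `N' = N.map (-·)` (`neg`, `join`)
`Alg (P + N')`, and `P + N' = a + N + N' = a + ∑_{x ∈ N} {x, -x}`.  Now remove the pairs
`{x, -x}` one at a time with `cancel` (induction on `N`, general form: for every multiset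
`N` without `0`, `Alg (a + N + N.map (-·)) → Alg a`; at each step
`a + N + N.map (-·)` satisfies `Chr`). -/
def Stmt_SAT : Prop :=
  ∀ (m p : ℕ) [NeZero m] (Alg : Multiset (ZMod m) → Prop), FermatCycles m p Alg →
    ∀ a, Chr m a →
      (∀ (Q : Type) [AddCommGroup Q] (e : ZMod m → Q), Kills Alg e → (a.map e).sum = 0) →
      Alg a

/-- DAD. `e` is odd, and `x ↦ e x - e (p x)` is additive.

Proof. `e (-x) = - e x` from `pair` (and `zero`).  `D x = e x - e (p x)` is odd, `D 0 = 0`,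
and `frob` gives `D x + D y + D z = 0` for `x + y + z = 0`, all nonzero; so
`D (x + y) = - D (-(x+y)) = D x + D y` when `x`, `y`, `x + y` are nonzero; the other cases
are trivial.  Note `e (-(p x)) = - e (p x)`. -/
def Stmt_DAD : Prop :=
  ∀ (m p : ℕ) [NeZero m] (Alg : Multiset (ZMod m) → Prop), FermatCycles m p Alg →
    ∀ (Q : Type) [AddCommGroup Q] (e : ZMod m → Q), Kills Alg e →
      (∀ x, e (-x) = - e x) ∧
      ∃ d : ZMod m →+ Q, ∀ x, d x = e x - e ((p : ZMod m) * x)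

/-- SUP (supersingular case).  If `p ^ i = -1` in `ZMod m` for some `i`, every `e` killing
`Alg` kills every character.

Proof. For a zero-sum triple `T = (x, y, z)` of nonzero elements let
`τ_T = e x + e y + e z`.  By `super` `τ_T + τ_T' = 0` for all `T, T'`; so `2 τ_T = 0`
(`T' = T`) and `τ_T = -τ_T' = τ_T'`: there is `τ` with `2 τ = 0` and `τ_T = τ` for all
`T` (take `τ = τ_(1, 1, -2)`; `2 ≠ 0` as `3 ≤ m`).  Let `e' x = e x + τ` for `x ≠ 0`,
`e' 0 = 0`.  `e` is odd (DAD or `pair`), so `e'` is odd, and for `x, y, x + y ≠ 0`,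
`e' x + e' y = e x + e y + 2 τ = τ - e (-(x+y)) = τ + e (x + y) = e' (x + y)`.  So `e'` is
additive and `∑_{x ∈ a} e x = e' (∑ a) - (card a) τ = 0`, `card a` being even. -/
def Stmt_SUP : Prop :=
  ∀ (m p : ℕ) [NeZero m] (Alg : Multiset (ZMod m) → Prop), FermatCycles m p Alg → 3 ≤ m →
    (∃ i : ℕ, (p : ZMod m) ^ i = -1) →
    ∀ (Q : Type) [AddCommGroup Q] (e : ZMod m → Q), Kills Alg e →
      ∀ a, Chr m a → (a.map e).sum = 0

/-- DSB. Distribution relation of `Bern` and sum over a fibre of multiplication by `d`.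

Proof. Let `z = d x`.  As `d ∣ m`, `z.val = d * y0` with `y0 < m / d`, and the `y` with
`d y = z` are the classes of `y0 + i (m / d)`, `i < d`, with these values as `val`.  So
`∑ y.val = z.val + m (d - 1) / 2`, i.e. `2 ∑ y.val = 2 z.val + m (d - 1)`, which gives both
statements (`Bern` is `2 val - m` at each `y`, as `y ≠ 0` because `z ≠ 0`; in `ZMod m`,
`∑ y = z + m (d-1)/2`, which is `z` for `d` odd and `z + (d-1) (m/2) = z + m/2` for `d`
even). -/
def Stmt_DSB : Prop :=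
  ∀ (m d : ℕ) [NeZero m], d ∣ m → ∀ x : ZMod m,
    ((d : ZMod m) * x ≠ 0 →
      ∑ y ∈ (univ : Finset (ZMod m)).filter (fun y => (d : ZMod m) * y = (d : ZMod m) * x),
        Bern m y = Bern m ((d : ZMod m) * x)) ∧
    (∑ y ∈ (univ : Finset (ZMod m)).filter (fun y => (d : ZMod m) * y = (d : ZMod m) * x), y
      = (d : ZMod m) * x + (if Odd d then 0 else ((m / 2 : ℕ) : ZMod m)))

/-- EDI. Distribution relation of `e` for primes `l ∣ m`.

Proof. For `l` odd use `odd` with `d = l`, `w = m / l`: `{x + i w : i < l}` is the set of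
all `y` with `l y = l x` (injectively), and `e (-(l x)) = - e (l x)` (`pair`).  For `l = 2`
use `two` with `h = m / 2`: `x ≠ 0, h` since `2 x ≠ 0`; `{x, x + h}` is the set of all `y`
with `2 y = 2 x`; `e (-(x + x)) = - e (x + x)`; and `e h + e h = 0` (`pair`, `h = -h`), so
`e (2 x) = e x + e (x + h) + e h`. -/
def Stmt_EDI : Prop :=
  ∀ (m p l : ℕ) [NeZero m] (Alg : Multiset (ZMod m) → Prop), FermatCycles m p Alg →
    l.Prime → l ∣ m →
    ∀ (Q : Type) [AddCommGroup Q] (e : ZMod m → Q), Kills Alg e →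
      ∀ x : ZMod m, (l : ZMod m) * x ≠ 0 →
        e ((l : ZMod m) * x) =
          ∑ y ∈ (univ : Finset (ZMod m)).filter
            (fun y => (l : ZMod m) * y = (l : ZMod m) * x), e y
          + (if l = 2 then e ((m / 2 : ℕ) : ZMod m) else 0)

/-- EDJ. The same for powers `l ^ j ∣ m`.

Proof. Induction on `j` (`j = 0` trivial).  Let `z = l ^ (j+1) x ≠ 0`, `l ^ (j+1) ∣ m`.
By EDI, `e z = ∑_{w : l w = z} e w + [l = 2] κ`, `κ = e (m/2)`, `2 κ = 0` (`pair`).  Every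
`w` with `l w = z = l (l ^ j x)` is `l ^ j x + i (m / l)`, a multiple of `l ^ j` since
`l ^ j ∣ m / l`; and `w ≠ 0`.  By induction
`e w = ∑_{y : l ^ j y = w} e y + [l = 2, 0 < j] κ`.
Sum over `w` (for `l = 2` there are two `w`, so the `κ` cancel). -/
def Stmt_EDJ : Prop :=
  ∀ (m p l j : ℕ) [NeZero m] (Alg : Multiset (ZMod m) → Prop), FermatCycles m p Alg →
    l.Prime → l ^ j ∣ m →
    ∀ (Q : Type) [AddCommGroup Q] (e : ZMod m → Q), Kills Alg e →
      ∀ x : ZMod m, ((l ^ j : ℕ) : ZMod m) * x ≠ 0 →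
        e (((l ^ j : ℕ) : ZMod m) * x) =
          ∑ y ∈ (univ : Finset (ZMod m)).filter
            (fun y => ((l ^ j : ℕ) : ZMod m) * y = ((l ^ j : ℕ) : ZMod m) * x), e y
          + (if l = 2 ∧ 0 < j then e ((m / 2 : ℕ) : ZMod m) else 0)

/-- RXP (prime powers: expansion of one element on the units).  `ε = [l = 2 and x not a
unit]`.

Proof. `x ≠ 0`, `m = l ^ k`: `x.val = l ^ j c` with `l ∤ c`, `j < k`; `x = l ^ j g₀`, `g₀`
the class of `c`, a unit.  Every `y` with `l ^ j y = x` is a unit (`y ≡ g₀` mod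
`l ^ (k - j)`, `j < k`).  Take `n g = 1` if `l ^ j g = x`, else `0`; sums `∑ g, n g • F g`
over units are the sums of `F` over `filter (l ^ j y = l ^ j g₀)` in `ZMod m`.  Then: the
first claim is DSB (`d = l ^ j`; if `l = 2` and `j = 0`, `d = 1` is odd); the second is DSB
for `t * x` (the `y` with `l ^ j y = t x` are `t` times those with `l ^ j y = x`); the
third is EDJ. -/
def Stmt_RXP : Prop :=
  ∀ (m l k : ℕ) [NeZero m], l.Prime → 0 < k → m = l ^ k →
    ∀ x : ZMod m, x ≠ 0 → ∃ n : (ZMod m)ˣ → ℤ,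
      (∑ g : (ZMod m)ˣ, n g • (g : ZMod m)
        = x + (if l = 2 ∧ ¬ IsUnit x then ((m / 2 : ℕ) : ZMod m) else 0)) ∧
      (∀ t : (ZMod m)ˣ, Bern m ((t : ZMod m) * x)
        = ∑ g : (ZMod m)ˣ, n g * Bern m ((t : ZMod m) * (g : ZMod m))) ∧
      (∀ (p : ℕ) (Alg : Multiset (ZMod m) → Prop), FermatCycles m p Alg →
        ∀ (Q : Type) [AddCommGroup Q] (e : ZMod m → Q), Kills Alg e →
          e x = ∑ g : (ZMod m)ˣ, n g • e (g : ZMod m)
            + (if l = 2 ∧ ¬ IsUnit x then e ((m / 2 : ℕ) : ZMod m) else 0))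

/-- RXT (twice an odd prime power: expansion of one element on twice the units).
`ε = [x odd]`.

Proof. `m = 2 l ^ k`, `h = m / 2` (odd).  (a) `x` even, `x ≠ 0`: `x.val = l ^ j * 2 * c`
with `l ∤ c`, `j < k`; the `y` with `l ^ j y = x` are all even (`l` odd, `m` even) and
prime to `l` up to the factor 2, so each is `2 g` for a unique unit `g`
(`g = y/2` or `y/2 + h`, whichever is odd); `n g = [l ^ j * 2 * g = x]`, and everything
follows from DSB and EDJ for `d = l ^ j`, as in RXP.  (b) `x` odd, `x ≠ h`: by `two`,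
`e x = e (2 x) - e (x + h) + κ`, `κ = e h`, `2 κ = 0`; `2 x` and `x + h` are even and
nonzero; take `n = n_(2x) - n_(x+h)`: `∑ n g • 2 g = 2 x - (x + h) = x + h` (`-h = h`), and
`Bern (t x) = Bern (2 t x) - Bern (t x + h)` (DSB for `d = 2`, or directly: with
`v = (t x).val` odd, the values are `2(2v) - 2(v+h)` or `2(2v - m) - 2(v - h)`;
`t h = h` as `t` is odd).  (c) `x = h`: `n = 0`; `h + h = 0`, `Bern h = 0`.
`Even x.val` is the parity (`m` is even, so it is compatible with sums and products). -/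
def Stmt_RXT : Prop :=
  ∀ (m l k : ℕ) [NeZero m], l.Prime → Odd l → 0 < k → m = 2 * l ^ k →
    ∀ x : ZMod m, x ≠ 0 → ∃ n : (ZMod m)ˣ → ℤ,
      (∑ g : (ZMod m)ˣ, n g • ((g : ZMod m) * 2)
        = x + (if Odd x.val then ((m / 2 : ℕ) : ZMod m) else 0)) ∧
      (∀ t : (ZMod m)ˣ, Bern m ((t : ZMod m) * x)
        = ∑ g : (ZMod m)ˣ, n g * Bern m ((t : ZMod m) * ((g : ZMod m) * 2))) ∧
      (∀ (p : ℕ) (Alg : Multiset (ZMod m) → Prop), FermatCycles m p Alg →
        ∀ (Q : Type) [AddCommGroup Q] (e : ZMod m → Q), Kills Alg e →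
          e x = ∑ g : (ZMod m)ˣ, n g • e ((g : ZMod m) * 2)
            + (if Odd x.val then e ((m / 2 : ℕ) : ZMod m) else 0))

/-- RED (expansion of a character on `G u`, `G` the units).

Proof. `m = l ^ k`: `u = 1`, sum RXP over `x ∈ a` (choose `n_x` for each `x ≠ 0`,
`n = (a.map n_x).sum`).  The correction terms: `ν` = number of entries for which the `if`
holds; if `l = 2`, `ν` is the number of even entries, `card a` is even and the number of
odd entries is even because `∑ a = 0` and `m` is even (`3 ≤ m`); so `ν` is even, and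
`ν • (m/2) = 0`, `ν • e (m/2) = 0` (`pair` for `m/2 = -(m/2)`).  `m = 2 l ^ k`, `l` odd:
`u = 2`, sum RXT; `ν` = number of odd entries, even.  (`m = 2 * 2 ^ k = 2 ^ (k+1)` is of the
first kind.) -/
def Stmt_RED : Prop :=
  ∀ (m : ℕ) [NeZero m], GoodM m → ∀ a, Chr m a →
    ∃ (u : ZMod m) (n : (ZMod m)ˣ → ℤ), GoodU m u ∧
      (∑ g : (ZMod m)ˣ, n g • ((g : ZMod m) * u) = 0) ∧
      (∀ t : (ZMod m)ˣ, (a.map (fun x => Bern m ((t : ZMod m) * x))).sum
        = ∑ g : (ZMod m)ˣ, n g * Bern m ((t : ZMod m) * ((g : ZMod m) * u))) ∧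
      (∀ (p : ℕ) (Alg : Multiset (ZMod m) → Prop), FermatCycles m p Alg →
        ∀ (Q : Type) [AddCommGroup Q] (e : ZMod m → Q), Kills Alg e →
          (a.map e).sum = ∑ g : (ZMod m)ˣ, n g • e ((g : ZMod m) * u))

/-! ## B. Nonvanishing of the generalized Bernoulli numbers -/

/-- HZO. Value at `1` of the odd function `sinZeta`: `∑ sin (2 π n x) / n = π (1/2 - x)`.

Proof. `HurwitzZeta.sinZeta x` is entire, and for real `s > 1` it is
`∑' n, sin (2 π x n) / n ^ s` (`hasSum_nat_sinZeta`); so the value at `1` is the limit as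
`s → 1+`.  The partial sums of `b_n = sin (2 π x n)` are bounded, so
`A := lim ∑_{n ≤ N} b_n / n` exists (Dirichlet test,
`Monotone.cauchySeq_series_mul_of_tendsto_zero_of_bounded` or
`Antitone.…`) and by summation by parts, uniformly in `s ∈ [1, 2]`,
`|∑_{n > N} b_n n^(-s)| ≤ 2 B / N`; so the limit is `A`.  By Abel's theorem
(`Real.tendsto_tsum_powerSeries_nhdsWithin_lt`/`Complex.…`),
`A = lim_{r → 1-} ∑ b_n r ^ n / n = lim Im (-log (1 - r e^(2 π i x)))`
`= -arg (1 - e^(2 π i x)) = π (1/2 - x)`.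
Any other proof is fine; e.g. Mathlib's `hasSum_one_div_nat_pow_mul_fourier`-type results
for `k ≥ 2` do not cover `k = 1`.  An alternative to this block is any direct proof of
Stmt_VAL. -/
def Stmt_HZO : Prop :=
  ∀ x : ℝ, 0 < x → x < 1 →
    HurwitzZeta.sinZeta (x : UnitAddCircle) 1 = (Real.pi : ℂ) * (1 / 2 - (x : ℂ))

/-- VAL. `L(0, χ) = - (1/N) ∑ χ(j) j` for a nontrivial Dirichlet character mod `N`.

Proof. `DirichletCharacter.LFunction χ 0 = ZMod.LFunction (χ ·) 0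
= ∑ j, χ j * hurwitzZeta (toAddCircle j) 0` (`N ^ 0 = 1`).
`hurwitzZeta = hurwitzZetaEven + hurwitzZetaOdd`;
`hurwitzZetaEven_apply_zero` gives `0` for `j ≠ 0` (and `χ 0 = 0`, `N > 1`);
`hurwitzZetaOdd_one_sub` with `s = 1` gives
`hurwitzZetaOdd a 0 = 2 (2 π)^(-1) Γ(1) sin (π/2) sinZeta a 1`, which for `a = j / N` is
`1/2 - j/N` by HZO.  Finally `∑ χ j = 0`. -/
def Stmt_VAL : Prop :=
  ∀ (N : ℕ) [NeZero N] (χ : DirichletCharacter ℂ N), χ ≠ 1 →
    DirichletCharacter.LFunction χ 0 = - (∑ j : ZMod N, χ j * (j.val : ℂ)) / N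

/-- NVA. `L(0, χ) ≠ 0` for odd `χ` modulo a prime power.

Proof. `χ` is induced from a primitive `χ₀` mod `f ∣ l ^ k`, `f = l ^ c`, `c ≥ 1` (`χ`
nontrivial as `χ(-1) = -1`), `χ₀` odd.  By `DirichletCharacter.LFunction_changeLevel` (at
`s = 0`) the two `L`-functions differ by `∏_{r ∣ l ^ k prime} (1 - χ₀(r) r^0) = 1 - χ₀(l)
= 1`.  For `χ₀` primitive odd: `LFunction_eq_completed_div_gammaFactor`,
`gammaFactor χ₀ 0 = Gammaℝ 1 ≠ 0`, `IsPrimitive.completedLFunction_one_sub` at `s = 1`, and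
`Λ(1, χ₀⁻¹) = L(1, χ₀⁻¹) Gammaℝ(2) ≠ 0` by `LFunction_apply_one_ne_zero`; the root number
is nonzero (Gauss sum of a primitive character; if no lemma gives it, apply the functional
equation twice). -/
def Stmt_NVA : Prop :=
  ∀ (l k N : ℕ) [NeZero N], l.Prime → 0 < k → N = l ^ k →
    ∀ χ : DirichletCharacter ℂ N, χ (-1) = -1 → DirichletCharacter.LFunction χ 0 ≠ 0

/-- BER. Prime powers: a function on the units orthogonal to all translates of `Bern` is
even.

Proof. For a character `χ` of `ZMod m`, multiply the hypothesis by `χ t` and sum over the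
units `t`: `(∑_g ν g χ⁻¹ g) (∑_s χ s Bern s) = 0`.  For `χ` odd (so `χ ≠ 1`)
`∑_s χ s Bern s = 2 ∑_j χ j j.val ≠ 0` by VAL and NVA.  So `ν̂(χ) = ∑_g ν g χ⁻¹ g = 0` for
all odd `χ`.  By orthogonality (`DirichletCharacter.sum_char_inv_mul_char_eq`)
`φ(m) (ν g - ν (-g)) = ∑_χ ν̂(χ) (χ g - χ (-g))`, where only odd `χ` contribute. -/
def Stmt_BER : Prop :=
  ∀ (m l k : ℕ) [NeZero m], l.Prime → 0 < k → m = l ^ k → 3 ≤ m →
    ∀ ν : (ZMod m)ˣ → ℤ,
      (∀ t : (ZMod m)ˣ, ∑ g : (ZMod m)ˣ, ν g * Bern m ((t : ZMod m) * (g : ZMod m)) = 0) →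
      ∀ g, ν (-g) = ν g

/-- BEU. The same for the pairs `(m, u)`.

Proof. `u = 1`: BER.  `m = 2 M`, `M = l ^ k`, `l` odd, `u = 2`: reduction modulo `M` is a
group isomorphism `ρ : (ZMod m)ˣ → (ZMod M)ˣ` (injective: `g` odd is determined by `g`
mod `M`; surjective: lift and add `M` if even), and `(2 g).val = 2 (ρ g).val`, so
`Bern m (t g 2) = 2 Bern M (ρ t ρ g)` (`2 * (2 v) - 2 M = 2 (2 v - M)`).  Apply BER to
`ν ∘ ρ⁻¹` (`3 ≤ M` as `l` is odd). -/
def Stmt_BEU : Prop :=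
  ∀ (m : ℕ) [NeZero m], 3 ≤ m → ∀ u : ZMod m, GoodU m u →
    ∀ ν : (ZMod m)ˣ → ℤ,
      (∀ t : (ZMod m)ˣ,
        ∑ g : (ZMod m)ˣ, ν g * Bern m ((t : ZMod m) * ((g : ZMod m) * u)) = 0) →
      ∀ g, ν (-g) = ν g

/-- FIN. The end of the combinatorial part when `-1` is not a power of `p`.

Proof. `G = (ZMod m)ˣ`, `π ∈ G`, `o = orderOf π`, `H = ⟨π⟩`, `-1 ∉ H` (so `-1 ≠ 1` too).
Each `g ∈ G` is `± π ^ i r`, `i < o`, `r = r(g)` the chosen representative of the class of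
`g` modulo the subgroup `±H`, with unique sign `s(g)` and `i(g)`.  By induction
`e (π ^ i x) = e x - d ((∑_{j<i} π ^ j) x)`, so
`e (g u) = s(g) (e (r u) - d (s_i r u))`, `s_i = ∑_{j<i} π ^ j`.
Hence `∑ n g • e (g u) = ∑_r (∑_{i<o} (n (π ^ i r) - n (-π ^ i r))) • e (r u) - d S`,
`S = ∑_r ∑_{i<o} (n (π ^ i r) - n (-π ^ i r)) • (s_i r u)`.  The first sum is `0` by the
hypothesis.  `(π - 1) s_i = π ^ i - 1`, so
`(π - 1) S = ∑ n g • (g u) - ∑_r (∑_{i<o} ...) • (r u) = 0`, i.e. `π S = S` and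
`d S = e S - e (π S) = 0`. -/
def Stmt_FIN : Prop :=
  ∀ (m : ℕ) [NeZero m] (π : (ZMod m)ˣ), (∀ i : ℕ, π ^ i ≠ -1) →
    ∀ (Q : Type) [AddCommGroup Q] (e : ZMod m → Q) (d : ZMod m →+ Q),
      (∀ x, e (-x) = - e x) → (∀ x, d x = e x - e ((π : ZMod m) * x)) →
      ∀ (u : ZMod m) (n : (ZMod m)ˣ → ℤ),
        (∑ g : (ZMod m)ˣ, n g • ((g : ZMod m) * u) = 0) →
        (∀ g : (ZMod m)ˣ, ∑ i ∈ range (orderOf π), n (π ^ i * g)
          = ∑ i ∈ range (orderOf π), n (-(π ^ i * g))) →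
        ∑ g : (ZMod m)ˣ, n g • e ((g : ZMod m) * u) = 0

/-- COM (combinatorial main theorem).  Stickelberger's condition implies algebraicity.

Proof. By SAT it is enough that every `e` killing `Alg` kills `a`.  If `-1` is a power of
`p` mod `m`: SUP.  Otherwise take `u, n` from RED, `π` the unit `p`, `o = orderOf π`.
`p ^ f = 1` so `o ∣ f` and the `⟨p⟩`-average in Stick is `f / o` times the sum over
`i < o`.  All `t p ^ i x ≠ 0`, so Stick says
`∑_{i<o} ∑_{x ∈ a} Bern (t p ^ i x) = 0` for all `t`, i.e. by RED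
`∑_g n g ∑_{i<o} Bern (t π ^ i g u) = 0`, i.e. `∑_g ν g Bern (t g u) = 0` with
`ν g = ∑_{i<o} n (π⁻¹ ^ i g)`, the same as `∑_{i<o} n (π ^ i g)`.  BEU: `ν` is even.
DAD and FIN give `∑ n g • e (g u) = 0`, which is `(a.map e).sum` by RED. -/
def Stmt_COM : Prop :=
  ∀ (m p f : ℕ) [NeZero m] (Alg : Multiset (ZMod m) → Prop), GoodM m →
    FermatCycles m p Alg → p.Coprime m → 0 < f → (p : ZMod m) ^ f = 1 →
    ∀ a, Chr m a → Stick m p f a → Alg a

/-- CON. The smallest closed set satisfies all the properties.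

Proof. Only `chr` needs an argument: induction on `Con` (`p` is a unit mod `m`, so
`p x ≠ 0`; `two`: `x + h ≠ 0` as `x ≠ h = -h`, `x + x ≠ 0` as in `ZMod m` the equation
`2 x = 0` has only the solutions `0` and `h`; `odd`: `d (x + i w) = d x ≠ 0`, the sum is
`d x + w d (d-1)/2 - d x = 0`, and `d + 1` is even). -/
def Stmt_CON : Prop :=
  ∀ (m p : ℕ) [NeZero m], p.Coprime m → FermatCycles m p (Con m p)

/-! ## C. Gauss sums and Jacobi sums -/

/-- GJA. `q J(a) = (q - 1) ∏ g(χ ^ a_k)` over any field.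

Proof. `∑_{s ∈ F} ∑_v ψ (s ∑ v_k) ∏ χ_k (v_k) = q J` by orthogonality (`ψ` is
nontrivial, hence primitive, `AddChar.sum_mulShift`/`AddChar.sum_eq_ite`).  The term
`s = 0` is `∏_k ∑_v χ_k v = 0` (`χ_k = χ ^ (a k).val ≠ 1`, `n > 0`).  For `s ≠ 0` it is
`∏_k g(χ_k, ψ(s ·)) = ∏_k χ_k(s)⁻¹ g(χ_k, ψ) = ∏_k g(χ_k, ψ)`, as
`∏ χ_k = χ ^ (∑ (a k).val) = 1` (`gaussSum_mulShift`). -/
def Stmt_GJA : Prop :=
  ∀ (F R : Type) [Field F] [Fintype F] [Field R] (ψ : AddChar F R), ψ ≠ 1 →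
    ∀ (m : ℕ) [NeZero m] (χ : MulChar F R), orderOf χ = m →
      ∀ (n : ℕ) (a : Fin n → ZMod m), 0 < n → (∀ k, a k ≠ 0) → ∑ k, a k = 0 →
        (Fintype.card F : R) * Jac χ a
          = ((Fintype.card F : R) - 1) * ∏ k, gaussSum (χ ^ (a k).val) ψ

/-- TRF (transfer).  Two characters of the same order with values in fields of
characteristic zero come from one character with values in a field that embeds in both.

Proof. If `m = orderOf χ`: `F` is cyclic, `χ g₀` and `χ' g₀` are primitive `m`-th roots of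
unity (`g₀` a generator of the units; `m > 0` as `MulChar F _` is finite, or `χ ^ (q-1) = 1`).
Take `K = CyclotomicField m ℚ` with `ζ = zeta m ℚ K`, the embeddings `i : K → ℂ` with
`i ζ = χ g₀` and `σ : K → E` with `σ ζ = χ' g₀` (`IsPrimitiveRoot.powerBasis`, `PowerBasis.lift`,
`cyclotomic m ℚ` is the minimal polynomial of `ζ`), and
`χ₀ g₀ = ζ` (`MulChar.equiv_rootsOfUnity`, `MulChar.ofRootOfUnity`, or by hand). -/
def Stmt_TRF : Prop :=
  ∀ (F E : Type) [Field F] [Fintype F] [Field E] [CharZero E]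
    (χ : MulChar F ℂ) (χ' : MulChar F E), orderOf χ = orderOf χ' →
    ∃ (K : Type) (_ : Field K) (i : K →+* ℂ) (σ : K →+* E) (χ₀ : MulChar F K),
      χ₀.ringHomComp i = χ ∧ χ₀.ringHomComp σ = χ'

/-- LMH. `lam` and `Jac` commute with embeddings of fields.

Proof. `map_sum`, `map_prod`, `map_div₀`, `(χ ^ k).ringHomComp σ = (χ.ringHomComp σ) ^ k`,
`χ⁻¹ x = χ (x⁻¹)` for units (`MulChar.inv_apply'`). -/
def Stmt_LMH : Prop :=
  ∀ (F K E : Type) [Field F] [Fintype F] [Field K] [Field E] (σ : K →+* E)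
    (χ : MulChar F K) (m n : ℕ) (c : Fin (n + 2) → Fˣ) (b : Cls m n),
    lam (χ.ringHomComp σ) c b = σ (lam χ c b)

/-- TEI. Teichmüller characters exist.

Proof. `O` = closed unit ball of `E` (valuation ring), `M` = open unit ball (its maximal
ideal), `k = O / M`, a field of characteristic `p`.  `E` is algebraically closed of
characteristic `0`, so `X ^ q - X` has `q` distinct roots in `E`, all in `O`.  Two distinct
roots are not congruent mod `M`: for `(q-1)`-th roots of unity `z ≠ 1`,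
`∏_{z ≠ 1} (1 - z) = q - 1`, which has norm `1` (`‖p‖ < 1`), and each factor has norm
`≤ 1`.  So `X ^ q - X` splits in `k` and `F` embeds in `k` (`F` is a splitting field of
`X ^ q - X` over `ZMod p`: `FiniteField.isSplittingField_of_card_eq`,
`Polynomial.IsSplittingField.lift`); let `φ : F → k`.  For
`x ≠ 0` let `ω x` be the unique `(q-1)`-th root of unity reducing to `φ x` (every root of
`X ^ (q-1) - 1` in `k` is the reduction of a root in `E`, by counting), `ω 0 = 0`.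
Uniqueness gives multiplicativity, `ω` is injective on the units, so has order `q - 1`
(apply to a generator), and `ω x + ω y - ω (x + y)` reduces to `0`. -/
def Stmt_TEI : Prop :=
  ∀ (p : ℕ) [Fact p.Prime] (F : Type) [Field F] [Fintype F] [CharP F p]
    (E : Type) [NormedField E] [IsUltrametricDist E] [CharZero E] [IsAlgClosed E],
    ‖(p : E)‖ < 1 → ∃ ω : MulChar F E, Teich ω

/-- PIZ. `π = ζ - 1` for a primitive `p`-th root of unity.

Proof. `∏_{0<i<p} (1 - ζ ^ i) = p` (`IsPrimitiveRoot.…`, value at `1` of the cyclotomic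
polynomial), and `‖1 - ζ ^ i‖ = ‖1 - ζ‖` for `0 < i < p` (each divides the other in the
ring generated by `ζ`, whose elements have norm `≤ 1`: `(1 - ζ ^ i) / (1 - ζ)` is a sum of
powers of `ζ`, and `ζ` is a power of `ζ ^ i`).  So `‖π‖ ^ (p-1) = ‖p‖ < 1` and `‖π‖ < 1`.
`ζ ^ a = (1 + π) ^ a = 1 + a π + π² (...)`, with `‖...‖ ≤ 1` (ultrametric, natural numbers
have norm `≤ 1`). -/
def Stmt_PIZ : Prop :=
  ∀ (p : ℕ) [Fact p.Prime] (E : Type) [NormedField E] [IsUltrametricDist E] [CharZero E],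
    ‖(p : E)‖ < 1 → ∀ ζ : E, IsPrimitiveRoot ζ p →
      ‖ζ - 1‖ ^ (p - 1) = ‖(p : E)‖ ∧ ‖ζ - 1‖ < 1 ∧
      ∀ a : ℕ, ‖ζ ^ a - 1 - (a : E) * (ζ - 1)‖ ≤ ‖ζ - 1‖ ^ 2

/-- TRC. The trace modulo the maximal ideal.

Proof. `x ↦ ω x` is multiplicative and additive modulo `M = {‖·‖ < 1}`, `ω 1 = 1`, so
`ω (n) ≡ n` for `n ∈ ℕ` (induction) and `ω (∑ x_i) ≡ ∑ ω (x_i)`.  In `F` the trace is
`∑_{j<f} x ^ (p ^ j)` (`FiniteField.algebraMap_trace_eq_sum_pow` or similar), so
`(Tr x).val ≡ ω (Tr x) ≡ ∑ ω (x) ^ (p ^ j)`. -/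
def Stmt_TRC : Prop :=
  ∀ (p f : ℕ) [Fact p.Prime] (F : Type) [Field F] [Fintype F] [Algebra (ZMod p) F]
    (E : Type) [NormedField E] [IsUltrametricDist E] [CharZero E],
    ‖(p : E)‖ < 1 → Fintype.card F = p ^ f → ∀ ω : MulChar F E, Teich ω →
      ∀ x : F, ‖((Algebra.trace (ZMod p) F x).val : E)
        - ∑ j ∈ range f, (ω x) ^ (p ^ j)‖ < 1

/-- GSO. Valuation of the first Gauss sum: `‖g(ω⁻¹)‖ = ‖ζ - 1‖`.

Proof. `π = ζ - 1`.  `g = ∑_{x ≠ 0} ω⁻¹(x) ζ ^ (Tr x).val`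
`= ∑ ω⁻¹(x) (1 + (Tr x).val π + O(π²))` (PIZ)
`= 0 + π ∑ ω⁻¹(x) (Tr x).val + O(π²)` (`ω⁻¹ ≠ 1` as `2 < q`).
By TRC `∑ ω⁻¹(x) (Tr x).val ≡ ∑_{j<f} ∑_{x ≠ 0} ω(x) ^ (p ^ j - 1)` mod `M`, and the inner
sum is `q - 1` for `j = 0` and `0` for `0 < j < f` (`ω ^ (p ^ j - 1) ≠ 1` since
`0 < p ^ j - 1 < q - 1`).  So it is `≡ -1`, of norm `1`, and `‖g‖ = ‖π‖`.
(`f ≥ 1`.) -/
def Stmt_GSO : Prop :=
  ∀ (p f : ℕ) [Fact p.Prime] (F : Type) [Field F] [Fintype F] [Algebra (ZMod p) F]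
    (E : Type) [NormedField E] [IsUltrametricDist E] [CharZero E],
    ‖(p : E)‖ < 1 → Fintype.card F = p ^ f → 2 < Fintype.card F →
    ∀ (ζ : E) (hζ : IsPrimitiveRoot ζ p) (ω : MulChar F E), Teich ω →
      ‖gaussSum ω⁻¹ (psi p (F := F) ζ hζ.pow_eq_one)‖ = ‖ζ - 1‖

/-- GSF. Elementary facts on Gauss sums in `E`.

Proof. (1) `Tr (x ^ p) = Tr x` and `x ↦ x ^ p` is a bijection of `F`:
`∑ χ(x)^p ψ(x) = ∑ χ(x^p) ψ(x^p)`.
(2) `jacobiSum_mul_nontrivial` (`χ φ ≠ 1`): `g(χ φ) J(χ, φ) = g(χ) g(φ)`, and `J` is a sum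
of roots of unity, `‖J‖ ≤ 1`.  (3) `g(χ) g(χ⁻¹, ψ⁻¹) = q`
(`gaussSum_mul_gaussSum_eq_card`, `ψ` primitive as `Tr` is surjective and `ζ ≠ 1`) and
`g(χ⁻¹, ψ⁻¹) = χ(-1)⁻¹ g(χ⁻¹, ψ)`, `‖χ(-1)‖ = 1`.  (4) the psi of a primitive root is
nontrivial. -/
def Stmt_GSF : Prop :=
  ∀ (p : ℕ) [Fact p.Prime] (F : Type) [Field F] [Fintype F] [Algebra (ZMod p) F]
    (E : Type) [NormedField E] [IsUltrametricDist E] [CharZero E]
    (ζ : E) (hζ : IsPrimitiveRoot ζ p),
    (∀ χ : MulChar F E, gaussSum (χ ^ p) (psi p (F := F) ζ hζ.pow_eq_one)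
      = gaussSum χ (psi p (F := F) ζ hζ.pow_eq_one)) ∧
    (∀ χ φ : MulChar F E, χ * φ ≠ 1 →
      ‖gaussSum χ (psi p (F := F) ζ hζ.pow_eq_one)‖
        * ‖gaussSum φ (psi p (F := F) ζ hζ.pow_eq_one)‖
        ≤ ‖gaussSum (χ * φ) (psi p (F := F) ζ hζ.pow_eq_one)‖) ∧
    (∀ χ : MulChar F E, χ ≠ 1 →
      ‖gaussSum χ (psi p (F := F) ζ hζ.pow_eq_one)‖
        * ‖gaussSum χ⁻¹ (psi p (F := F) ζ hζ.pow_eq_one)‖ = ‖(Fintype.card F : E)‖) ∧
    psi p (F := F) ζ hζ.pow_eq_one ≠ 1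

/-- DSM. Digit sums, `k < p ^ f - 1`.

Proof. Write `k = ∑_{i<f} k_i p ^ i` (digits, padded).  `p ^ j k mod (p ^ f - 1)` is the
number with the digits shifted cyclically by `j` (it is `< p ^ f - 1` since
`k < p ^ f - 1`, i.e. not all digits are `p - 1`); summing over `j` each digit contributes
`1 + p + ... + p ^ (f-1) = (p ^ f - 1) / (p - 1)`.  The digits of `p ^ f - 1 - k` are
`p - 1 - k_i`. -/
def Stmt_DSM : Prop :=
  ∀ (p f k : ℕ), p.Prime → 0 < f → k < p ^ f - 1 →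
    (p ^ f - 1) * (Nat.digits p k).sum
      = (p - 1) * ∑ j ∈ range f, (p ^ j * k) % (p ^ f - 1) ∧
    (Nat.digits p k).sum + (Nat.digits p (p ^ f - 1 - k)).sum = (p - 1) * f

/-- STI (Stickelberger's valuation).  `‖g(ω^(-k))‖ = ‖ζ - 1‖ ^ s(k)`, `0 < k < q - 1`.

Proof. `q = p ^ f`.  (a) `‖g(ω^(-p^i))‖ = ‖g(ω⁻¹)‖ = ‖π‖` by GSF (1) and GSO.
(b) `‖g(ω^(-k))‖ ≥ ‖π‖ ^ s(k)` for `0 < k < q - 1`: induction on `s(k)`: if `k` is a power
of `p`, (a); otherwise `k = p ^ i + k'` with `0 < k' < q - 1`, `s(k') = s(k) - 1`, and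
GSF (2) (`ω^(-k) ≠ 1`).  (c) The same for `q - 1 - k`; by GSF (3)
`‖g(ω^(-k))‖ ‖g(ω^(-(q-1-k)))‖ = ‖q‖ = ‖p‖ ^ f = ‖π‖ ^ ((p-1) f)` (PIZ), which is
`‖π‖ ^ (s(k) + s(q-1-k))` by DSM; so both inequalities are equalities (all the numbers are
positive). -/
def Stmt_STI : Prop :=
  ∀ (p f : ℕ) [Fact p.Prime] (F : Type) [Field F] [Fintype F] [Algebra (ZMod p) F]
    (E : Type) [NormedField E] [IsUltrametricDist E] [CharZero E],
    ‖(p : E)‖ < 1 → Fintype.card F = p ^ f → 2 < Fintype.card F →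
    ∀ (ζ : E) (hζ : IsPrimitiveRoot ζ p) (ω : MulChar F E), Teich ω →
      ∀ k : ℕ, 0 < k → k < Fintype.card F - 1 →
        ‖gaussSum (ω ^ k)⁻¹ (psi p (F := F) ζ hζ.pow_eq_one)‖
          = ‖ζ - 1‖ ^ (Nat.digits p k).sum

/-- STX. Characters of order `m` with prescribed slopes.

Proof. `q = p ^ f = 1 + M m`.  `χ = (ω ^ (M t.val))⁻¹` has order `m` (`t.val` is prime to
`m`).  For `x ≠ 0`, `χ ^ x.val = (ω ^ k)⁻¹` with `k = M (t x).val`, `0 < k < q - 1` (`ω` has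
order `M m` and `t.val x.val ≡ (t x).val` mod `m`).  STI: `‖g‖ ^ m = ‖π‖ ^ (m s(k))`.
DSM: `(q-1) s(k) = (p-1) ∑_{j<f} (p ^ j k mod M m) = (p-1) M ∑_{j<f} (p ^ j t x).val`
(`p ^ j M y mod M m = M (p ^ j y mod m)`), so `m s(k) = (p-1) ∑_j (t p ^ j x).val` and
`‖π‖ ^ (m s(k)) = ‖p‖ ^ (∑ ...)` by PIZ.  TEI gives `ω`. -/
def Stmt_STX : Prop :=
  ∀ (p f m : ℕ) [Fact p.Prime] [NeZero m] (F : Type) [Field F] [Fintype F]
    [Algebra (ZMod p) F]
    (E : Type) [NormedField E] [IsUltrametricDist E] [CharZero E] [IsAlgClosed E],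
    ‖(p : E)‖ < 1 → Fintype.card F = p ^ f → 3 ≤ m → m ∣ Fintype.card F - 1 →
    ∀ (ζ : E) (hζ : IsPrimitiveRoot ζ p) (t : (ZMod m)ˣ),
      ∃ χ : MulChar F E, orderOf χ = m ∧ ∀ x : ZMod m, x ≠ 0 →
        ‖gaussSum (χ ^ x.val) (psi p (F := F) ζ hζ.pow_eq_one)‖ ^ m
          = ‖(p : E)‖ ^ (∑ i ∈ range f, ((t : ZMod m) * (p : ZMod m) ^ i * x).val)

/-- STK. Tate classes satisfy Stickelberger's condition.

Proof. Fix `t` and `χ'` from STX in `E = PadicAlgCl p` (algebraically closed, ultrametric,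
`‖p‖ = 1/p`; `ζ` a primitive `p`-th root of unity in `E`).  `orderOf χ = m = orderOf χ'`;
by TRF and LMH (with `map_prod`, injectivity of `i : K → ℂ`) the hypothesis transfers:
`(eigP χ' c b) ^ N = q ^ (j N)` in `E`.  Take norms.  For `b i = inl r`:
`‖lam‖ = ‖q‖ ^ r`.  For `b i = inr a`: roots of unity have norm `1` and `‖q - 1‖ = 1`
(`m ∣ q - 1`, `‖q‖ < 1`), so by GJA `‖lam‖ = ‖Jac χ' a‖ = ∏_k ‖g(χ' ^ (a k).val)‖ / ‖q‖`,
and `‖lam‖ ^ m = ‖p‖ ^ (∑_k ∑_i (t p ^ i a_k).val) / ‖q‖ ^ m`.  With `‖q‖ = ‖p‖ ^ f` and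
`0 < ‖p‖ < 1`, comparing exponents of `‖eigP‖ ^ (N m) = ‖q‖ ^ (j N m)` (divide by `N`):
`m f ∑_{inl} r + ∑_{x ∈ charsP b} ∑_i (t p ^ i x).val - m f #inr = m f j`.  Finally
`2 j = degP b = ∑_{inl} 2 r + ∑_{inr} n_i` and `card (charsP b) = ∑_{inr} (n_i + 2)`, which
gives `2 ∑∑ = f m card (charsP b)`. -/
def Stmt_STK : Prop :=
  ∀ (p f m : ℕ) [Fact p.Prime] [NeZero m] (F : Type) [Field F] [Fintype F] [CharP F p]
    (χ : MulChar F ℂ), 3 ≤ m → Fintype.card F = p ^ f → orderOf χ = m →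
    ∀ (ι : Type) [Fintype ι] (n : ι → ℕ) (c : ∀ i, Fin (n i + 2) → Fˣ)
      (b : ∀ i, Cls m (n i)) (j N : ℕ), 0 < N → degP b = 2 * j →
      (eigP χ c b) ^ N = (Fintype.card F : ℂ) ^ (j * N) → Stick m p f (charsP b)

/-! ## D. The numbers of points (Weil), and the theorem of Hasse and Davenport -/

open Classical in
/-- PTC. Number of points over the base field.

Proof. `#{x : x ^ m = u} = ∑_{a ∈ ZMod m} χ ^ a (u)`, where `χ ^ 0` has the value `1` at
`u = 0` too; for `u ≠ 0` this is orthogonality (`F` cyclic of order divisible by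
`m = orderOf χ`; `χ u = 1` iff `u` is an `m`-th power), for `u = 0` both sides are `1`.
So the number is `∑_a ∑_{u : ∑ c_k u_k = 0} ∏_k χ ^ (a k) (u_k)`.  The term `a = 0` is
`q ^ (n+1)`.  If some but not all `a_k` are `0`, sum first over a coordinate `u_k` with
`a_k = 0` (`c_k ≠ 0`: it is free to solve the equation), then over the others: `0`, as
`∑_u χ^(a)(u) = 0`.  If all `a_k ≠ 0`: substitute `v_k = c_k u_k`; the result is
`∏ (χ ^ a_k)⁻¹(c_k) Jac χ a`, which is `0` unless `∑ a_k = 0` (scale `v` by `s`). -/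
def Stmt_PTC : Prop :=
  ∀ (F : Type) [Field F] [Fintype F] (m n : ℕ) [NeZero m] (χ : MulChar F ℂ),
    orderOf χ = m → ∀ c : Fin (n + 2) → Fˣ,
      (Fintype.card {x : Fin (n + 2) → F // ∑ k, (c k : F) * x k ^ m = 0} : ℂ)
        = (Fintype.card F : ℂ) ^ (n + 1)
          + ∑ a : Prim m n, (∏ k, (χ ^ (a.1 k).val)⁻¹ (c k : F)) * Jac χ a.1

open Classical in
/-- the monic polynomials of degree `n` over a finite field -/
noncomputable def Mon (F : Type) [Field F] [Fintype F] (n : ℕ) : Finset (Polynomial F) :=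
  (univ : Finset (Fin n → F)).image (fun c : Fin n → F =>
    (Polynomial.X : Polynomial F) ^ n
      + ∑ i : Fin n, Polynomial.C (c i) * (Polynomial.X : Polynomial F) ^ (i : ℕ))

/-- the multiplicative function `λ(f) = χ(c_n) ψ(c_1)` on monic polynomials
`f = X^n - c_1 X^(n-1) + ... + (-1)^n c_n` -/
noncomputable def lamP {F : Type} [Field F] (χ : MulChar F ℂ) (ψ : AddChar F ℂ)
    (f : Polynomial F) : ℂ :=
  χ ((-1) ^ f.natDegree * f.coeff 0) * ψ (- f.nextCoeff)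

/-- HDA. Sums of `λ` over monic polynomials.

Proof. (1) the map of the definition of `Mon` has values in monic polynomials of degree `n`
and reaches all of them.  (2) `Polynomial.Monic.nextCoeff_mul`, `natDegree_mul`,
`mul_coeff_zero`.  (3) degree 1: `f = X - a`, `λ f = χ a ψ a`.  (4) `n ≥ 2`: the constant
term and the coefficient of `X ^ (n-1)` are independent, so the sum is
`q ^ (n-2) (∑ χ) (∑ ψ) = 0`, as `χ ≠ 1`. -/
def Stmt_HDA : Prop :=
  ∀ (F : Type) [Field F] [Fintype F] (χ : MulChar F ℂ) (ψ : AddChar F ℂ), χ ≠ 1 →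
    (∀ (n : ℕ) (f : Polynomial F), f ∈ Mon F n ↔ f.Monic ∧ f.natDegree = n) ∧
    (lamP χ ψ 1 = 1) ∧
    (∀ f g : Polynomial F, f.Monic → g.Monic →
      lamP χ ψ (f * g) = lamP χ ψ f * lamP χ ψ g) ∧
    (∑ f ∈ Mon F 1, lamP χ ψ f = gaussSum χ ψ) ∧
    (∀ n : ℕ, 2 ≤ n → ∑ f ∈ Mon F n, lamP χ ψ f = 0)

open Classical in
/-- HDB. The logarithmic derivative of the Euler product of a completely multiplicative
function on monic polynomials.

Proof. `n A_n = ∑_f L(f) deg f` and, by unique factorization of `f ∈ Mon n`,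
`deg f = ∑_{(P, k) : k ≥ 1, P ^ k ∣ f} deg P` (`P` monic irreducible).  So
`n A_n = ∑_{(P, k)} deg P ∑_{f : P ^ k ∣ f} L(f) = ∑_{(P, k), k deg P ≤ n} deg P L(P) ^ k
A_{n - k deg P}`; group by `s = k deg P ∈ [1, n]`. -/
def Stmt_HDB : Prop :=
  ∀ (F : Type) [Field F] [Fintype F] (L : Polynomial F → ℂ),
    (∀ (n : ℕ) (f : Polynomial F), f ∈ Mon F n ↔ f.Monic ∧ f.natDegree = n) →
    L 1 = 1 → (∀ f g : Polynomial F, f.Monic → g.Monic → L (f * g) = L f * L g) →
    ∀ n : ℕ, (n : ℂ) * ∑ f ∈ Mon F n, L f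
      = ∑ s ∈ Icc 1 n, (∑ d ∈ s.divisors,
          ∑ P ∈ (Mon F d).filter Irreducible, (d : ℂ) * L P ^ (s / d))
        * ∑ f ∈ Mon F (n - s), L f

open Classical in
/-- HDC. Sum over the elements of an extension field through minimal polynomials.

Proof. `s = [E : F]`.  Each `x ∈ E` has a minimal polynomial `P` over `F`, monic
irreducible of degree `d ∣ s`, and each such `P` has exactly `d` roots in `E` (`E / F` is
Galois and contains the field with `q ^ d` elements; or: `P ∣ X ^ (q ^ s) - X`, which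
splits in `E` with distinct roots).  The characteristic polynomial of `x` is `P ^ (s/d)`
(`charpoly_leftMulMatrix`/`Algebra.norm_eq_...`/`trace_eq_...`), so
`N x = ((-1)^d P(0)) ^ (s/d)` and `Tr x = (s/d) (- nextCoeff P)`, i.e.
`χ(N x) ψ(Tr x) = λ(P) ^ (s/d)`. -/
def Stmt_HDC : Prop :=
  ∀ (F E : Type) [Field F] [Fintype F] [Field E] [Fintype E] [Algebra F E]
    (χ : MulChar F ℂ) (ψ : AddChar F ℂ),
    (∀ (n : ℕ) (f : Polynomial F), f ∈ Mon F n ↔ f.Monic ∧ f.natDegree = n) →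
    ∑ x : E, χ (Algebra.norm F x) * ψ (Algebra.trace F E x)
      = ∑ d ∈ (Module.finrank F E).divisors,
          ∑ P ∈ (Mon F d).filter Irreducible,
            (d : ℂ) * (lamP χ ψ P) ^ (Module.finrank F E / d)

/-- HDV (Hasse-Davenport).

Proof. `A_n = ∑_{Mon n} λ`: `A_0 = 1`, `A_1 = g`, `A_n = 0` for `n ≥ 2` (HDA).  HDB:
`n A_n = ∑_{s=1}^n S_s A_{n-s}`.  `n = 1`: `g = S_1`.  `n ≥ 2`: `0 = S_n + g S_(n-1)`.  So
`S_s = (-1)^(s-1) g ^ s`, and `S_s` is the sum over `E` by HDC. -/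
def Stmt_HDV : Prop :=
  ∀ (F E : Type) [Field F] [Fintype F] [Field E] [Fintype E] [Algebra F E]
    (χ : MulChar F ℂ) (ψ : AddChar F ℂ), χ ≠ 1 →
    ∑ x : E, χ (Algebra.norm F x) * ψ (Algebra.trace F E x)
      = (-1) ^ (Module.finrank F E - 1) * (gaussSum χ ψ) ^ (Module.finrank F E)

open Classical in
/-- PTX. Numbers of points over all finite extensions: the `lam χ c b` are the Frobenius
eigenvalues.

Proof. `χ_E = χ ∘ N` is a multiplicative character of `E` of order `m` (the norm is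
surjective), `ψ` any nontrivial additive character of `F` with values in `ℂ`,
`ψ_E = ψ ∘ Tr` (nontrivial).  `r = [E : F]`.  PTC for `E`, `χ_E` and `c`:
`# = Q ^ (n+1) + ∑_a ∏ (χ_E ^ a_k)⁻¹(c_k) Jac χ_E a`, `Q = q ^ r`, `χ_E(c) = χ(c) ^ r`.
GJA over `E` and `F` and HDV for the characters `χ ^ (a k).val ≠ 1`:
`Jac χ_E a / (Q - 1) = ∏_k g_E / Q = (-1)^((n+2)(r-1)) (∏_k g_F / q) ^ r
= (-1)^(n(r-1)) (Jac χ a / (q-1)) ^ r`, which gives
`∏ (χ_E ^ a_k)⁻¹(c_k) Jac χ_E a = (Q - 1) (-1)^n (lam χ c (inr a)) ^ r`.  And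
`Q ^ (n+1) = 1 + (Q - 1) ∑_{r' ≤ n} Q ^ r'` for the `inl` part. -/
def Stmt_PTX : Prop :=
  ∀ (F E : Type) [Field F] [Fintype F] [Field E] [Fintype E] [Algebra F E]
    (m n : ℕ) [NeZero m] (χ : MulChar F ℂ), orderOf χ = m → ∀ c : Fin (n + 2) → Fˣ,
      (Fintype.card {x : Fin (n + 2) → E // ∑ k, algebraMap F E (c k : F) * x k ^ m = 0} : ℂ)
        = 1 + ((Fintype.card E : ℂ) - 1)
          * ∑ b : Cls m n, (-1) ^ (degC b) * (lam χ c b) ^ (Module.finrank F E)

/-! ## E. The main theorem -/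

open Classical in
/-- POL. Order of the pole.

Proof. For `b` with `eigP b ≠ q ^ j` the factor is continuous and nonzero at `s = j`; for
`eigP b = q ^ j` it is `(1 - q ^ (j-s))⁻¹` and `(s - j) (1 - q ^ (j - s))⁻¹ → 1 / log q`
(derivative of `q ^ (j - s)`), `q > 1`. -/
def Stmt_POL : Prop :=
  ∀ (F : Type) [Field F] [Fintype F] (χ : MulChar F ℂ) (m : ℕ) [NeZero m]
    (ι : Type) [Fintype ι] (n : ι → ℕ) (c : ∀ i, Fin (n i + 2) → Fˣ) (j : ℕ),
    HasPoleOrder (LL χ m c j) j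
      (((univ : Finset (∀ i, Cls m (n i))).filter
        (fun b => degP b = 2 * j ∧ eigP χ c b = (Fintype.card F : ℂ) ^ j)).card)

open Classical in
/-- THEOREM FT. -/
def Stmt_FT : Prop :=
  ∀ (m p : ℕ) [NeZero m] [Fact p.Prime], GoodM m → ¬ p ∣ m →
    ∀ (F : Type) [Field F] [Fintype F] [CharP F p] (χ : MulChar F ℂ), orderOf χ = m →
      -- (0) the Frobenius eigenvalues of the diagonal hypersurfaces
      (∀ (n : ℕ) (c : Fin (n + 2) → Fˣ) (E : Type) [Field E] [Fintype E] [Algebra F E],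
        (Fintype.card {x : Fin (n + 2) → E //
            ∑ k, algebraMap F E (c k : F) * x k ^ m = 0} : ℂ)
          = 1 + ((Fintype.card E : ℂ) - 1)
            * ∑ b : Cls m n, (-1) ^ (degC b) * (lam χ c b) ^ (Module.finrank F E)) ∧
      -- products
      ∀ (ι : Type) [Fintype ι] (n : ι → ℕ) (c : ∀ i, Fin (n i + 2) → Fˣ)
        (Alg : Multiset (ZMod m) → Prop), FermatCycles m p Alg → ∀ j : ℕ,
        -- (1) every Tate class (over a finite extension) is algebraic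
        (∀ (b : ∀ i, Cls m (n i)) (N : ℕ), 0 < N → degP b = 2 * j →
          (eigP χ c b) ^ N = (Fintype.card F : ℂ) ^ (j * N) → IsAlg Alg b) ∧
        -- (2) the order of the pole is the rank of the group of algebraic classes
        HasPoleOrder (LL χ m c j) j
          (((univ : Finset (∀ i, Cls m (n i))).filter
            (fun b => degP b = 2 * j ∧ eigP χ c b = (Fintype.card F : ℂ) ^ j
              ∧ IsAlg Alg b)).card)

/-- FTA: the assembly.

Proof. `card F = p ^ f` with `f > 0` (`FiniteField.card`), `orderOf χ = m` divides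
`card F - 1`, so `(p : ZMod m) ^ f = 1`; `p.Coprime m`.  (1): if `charsP b ≠ 0` it is a
`Chr`: no zero entry, sum `0`, and its cardinality `∑_{inr} (n_i + 2)` has the parity of
`degP b = 2 j`; STK and COM.  (2): by (1) with `N = 1` the condition `IsAlg` can be dropped;
POL.  (0): PTX. -/
def Stmt_FTA : Prop := Stmt_FT

end Pool.FT
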