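import Pool.Agent.Work.MP_223b32_ft.Interface

/-!
# THEOREM FT: descent to arbitrary finite fields of characteristic `p`

`k ⊆ F` finite fields, `F = k(μ_m)`, `s = [F : k]`, `X` a product of diagonal hypersurfaces
over `k`.  The Frobenius `Φ` of `X / k` acts on `H^(2j)(X̄)` and permutes the lines `V(b)`
(it maps `V(a)` to `V(q₀ a)`), and `Φ ^ s` is the Frobenius of `X / F`, which acts on `V(b)`
by `eigP χ c b`.  This last property is all that is used.
-/

namespace Pool.FT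

open Finset

/-- ENZ. The Frobenius eigenvalues are not zero.

Proof. `inl r`: `q ^ r ≠ 0`.  `inr a`: values of characters at units are not zero, and
`q * Jac χ a = (q - 1) ∏_k g(χ ^ (a k).val, ψ)` (GJA) for any nontrivial additive character
`ψ` of `F` with values in `ℂ` (`AddChar.FiniteField.primitiveChar_to_Complex` or similar),
with `q ≠ 0, 1` and the Gauss sums nonzero
(`gaussSum_ne_zero_of_nontrivial`; `χ ^ (a k).val ≠ 1` as `0 < (a k).val < m`). -/
def Stmt_ENZ : Prop :=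
  ∀ (F : Type) [Field F] [Fintype F] (χ : MulChar F ℂ) (m : ℕ) [NeZero m], orderOf χ = m →
    ∀ (n : ℕ) (c : Fin (n + 2) → Fˣ) (b : Cls m n), lam χ c b ≠ 0

/-- DSC. Descent.

Proof. (1) If `Φ v = q₀ ^ j v` then `Φ ^ s v = q₀ ^ (j s) v = (card F) ^ j v`; comparing
coordinates, `v b ≠ 0` implies `eigP χ c b = (card F) ^ j`, so `IsAlg Alg b` by the
hypothesis with `N = 1`.  (2) `Φ ^ s` is diagonal with nonzero entries `μ b`, so `Φ` is a
zero of `∏_{λ ∈ image μ} (X ^ s - λ)`, which is squarefree; hence `Φ` is semisimple, thus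
diagonalizable over `ℂ` (`Pool.Agent.Work.MP_223b32_ag.exists_eigenbasis`,
`hasPoleOrder_diag` in Pole.lean and Powers.lean), and the number of eigenvalues equal to
`q₀ ^ j` is the dimension of the eigenspace. -/
def Stmt_DSC : Prop :=
  ∀ (F : Type) [Field F] [Fintype F] (χ : MulChar F ℂ) (m : ℕ) [NeZero m]
    (ι : Type) [Fintype ι] (n : ι → ℕ) (c : ∀ i, Fin (n i + 2) → Fˣ) (j : ℕ)
    (Alg : Multiset (ZMod m) → Prop),
    (∀ b : ∀ i, Cls m (n i), eigP χ c b ≠ 0) →
    (∀ b : ∀ i, Cls m (n i), degP b = 2 * j →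
      eigP χ c b = (Fintype.card F : ℂ) ^ j → IsAlg Alg b) →
    ∀ (q₀ s : ℕ), 0 < s → q₀ ^ s = Fintype.card F →
    ∀ Φ : Module.End ℂ ({b : ∀ i, Cls m (n i) // degP b = 2 * j} → ℂ),
      (∀ (v : {b : ∀ i, Cls m (n i) // degP b = 2 * j} → ℂ) b,
        (Φ ^ s) v b = eigP χ c b.1 * v b) →
      (∀ v, Φ v = (q₀ : ℂ) ^ j • v → ∀ b, v b ≠ 0 → IsAlg Alg b.1) ∧
      HasPoleOrder (fun z : ℂ => (LinearMap.det (1 - (q₀ : ℂ) ^ (-z) • Φ))⁻¹) j
        (Module.finrank ℂ (LinearMap.ker (Φ - (q₀ : ℂ) ^ j • LinearMap.id)))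

/-- THEOREM FT, final form, for an arbitrary set `Alg` with the properties
`FermatCycles`. -/
def Stmt_MAIN : Prop :=
  ∀ (m p : ℕ) [NeZero m] [Fact p.Prime], GoodM m → ¬ p ∣ m →
    ∀ (F : Type) [Field F] [Fintype F] [CharP F p] (χ : MulChar F ℂ), orderOf χ = m →
      -- (0) the Frobenius eigenvalues of the diagonal hypersurfaces
      (∀ (n : ℕ) (c : Fin (n + 2) → Fˣ) (E : Type) [Field E] [Fintype E] [Algebra F E],
        (Nat.card {x : Fin (n + 2) → E //
            ∑ k, algebraMap F E (c k : F) * x k ^ m = 0} : ℂ)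
          = 1 + ((Fintype.card E : ℂ) - 1)
            * ∑ b : Cls m n, (-1) ^ (degC b) * (lam χ c b) ^ (Module.finrank F E)) ∧
      -- products
      ∀ (ι : Type) [Fintype ι] (n : ι → ℕ) (c : ∀ i, Fin (n i + 2) → Fˣ)
        (Alg : Multiset (ZMod m) → Prop), FermatCycles m p Alg → ∀ j : ℕ,
        -- (1) every Tate class (over a finite extension) is algebraic
        (∀ (b : ∀ i, Cls m (n i)) (N : ℕ), 0 < N → degP b = 2 * j →
          (eigP χ c b) ^ N = (Fintype.card F : ℂ) ^ (j * N) → IsAlg Alg b) ∧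
        -- (2) over every finite field `k` with `F / k` of degree `s`
        (∀ (q₀ s : ℕ), 0 < s → q₀ ^ s = Fintype.card F →
          ∀ Φ : Module.End ℂ ({b : ∀ i, Cls m (n i) // degP b = 2 * j} → ℂ),
            (∀ (v : {b : ∀ i, Cls m (n i) // degP b = 2 * j} → ℂ) b,
              (Φ ^ s) v b = eigP χ c b.1 * v b) →
            (∀ v, Φ v = (q₀ : ℂ) ^ j • v → ∀ b, v b ≠ 0 → IsAlg Alg b.1) ∧
            HasPoleOrder (fun z : ℂ => (LinearMap.det (1 - (q₀ : ℂ) ^ (-z) • Φ))⁻¹) j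
              (Module.finrank ℂ (LinearMap.ker (Φ - (q₀ : ℂ) ^ j • LinearMap.id))))

end Pool.FT
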