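import Pool.Agent.Work.MP_223b32_ft.Interface2
import Pool.Agent.Work.MP_223b32_ft.B_PTX

/-!
# THEOREM FT, part 3: the fields `k = F(t_1, …, t_r)`

`F` is a finite field with a character `χ` of order `m`, `r ≥ 0`, `k = F(t_1, …, t_r)`, and `X`
is a product of diagonal hypersurfaces `∑ c_k(t) x_k ^ m = 0`, `c_k ∈ F[t_1, …, t_r]` not zero
(every element of `k^*` is a polynomial up to an `m`-th power).  `U` is the open set of `A^r` over
`F` where no coefficient vanishes.  For a closed point `v` of `U` with residue field `K_v` the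
Frobenius acts on `V(b)` by `eigAt χ v b = eigP (χ ∘ N) (c mod v) b`.

`L(s) = ∏_v ∏_{b, deg b = 2 j} (1 - eigAt_v(b) |K_v| ^ (-s))⁻¹` has at `s = j + r` a pole of
order the number of `b` with `eigAt_v(b) = |K_v| ^ j` for all `v`.

The main tool is a Weil bound for multiplicative characters of any order `m` (Stepanov's method),
uniform in the finite field, which gives the bound for polynomials in `r` variables.

`PTX_nc E χ = χ ∘ N` is the norm character of B_PTX.lean.  The files B_X.lean import this file;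
`theorem Pool.FT.p_X (hA : Stmt_A) … : Stmt_X`; lemmas are prefixed `X_`.
-/

namespace Pool.FT

open Finset Polynomial

/-! ## Definitions -/

/-- The residue field of a closed point of affine space `A^r` over `F`. -/
abbrev kap {F : Type} [Field F] {r : ℕ} (v : MaximalSpectrum (MvPolynomial (Fin r) F)) : Type :=
  MvPolynomial (Fin r) F ⧸ v.asIdeal

noncomputable instance kapField {F : Type} [Field F] {r : ℕ}
    (v : MaximalSpectrum (MvPolynomial (Fin r) F)) : Field (kap v) :=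
  Ideal.Quotient.field v.asIdeal

instance kapFiniteDim {F : Type} [Field F] {r : ℕ}
    (v : MaximalSpectrum (MvPolynomial (Fin r) F)) : Module.Finite F (kap v) :=
  finite_of_finite_type_of_isJacobsonRing F (kap v)

instance kapFinite {F : Type} [Field F] [Finite F] {r : ℕ}
    (v : MaximalSpectrum (MvPolynomial (Fin r) F)) : Finite (kap v) :=
  Module.finite_of_finite F

noncomputable instance kapFintype {F : Type} [Field F] [Finite F] {r : ℕ}
    (v : MaximalSpectrum (MvPolynomial (Fin r) F)) : Fintype (kap v) :=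
  Fintype.ofFinite _

/-- The degree of a closed point. -/
noncomputable def pdeg {F : Type} [Field F] {r : ℕ}
    (v : MaximalSpectrum (MvPolynomial (Fin r) F)) : ℕ :=
  Module.finrank F (kap v)

/-- The places of good reduction of the product of the hypersurfaces `∑ c_k x_k ^ m = 0` over
`F(t_1, …, t_r)`: the closed points of the open set of `A^r` where no `c_k` vanishes. -/
def GPlace {F : Type} [Field F] {r : ℕ} {ι : Type} {n : ι → ℕ}
    (c : ∀ i : ι, Fin (n i + 2) → MvPolynomial (Fin r) F) : Type :=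
  {v : MaximalSpectrum (MvPolynomial (Fin r) F) // ∀ i k, c i k ∉ v.asIdeal}

/-- The coefficients at a place. -/
noncomputable def redC {F : Type} [Field F] {r : ℕ} {ι : Type} {n : ι → ℕ}
    {c : ∀ i : ι, Fin (n i + 2) → MvPolynomial (Fin r) F} (v : GPlace c) (i : ι)
    (k : Fin (n i + 2)) : (kap v.1)ˣ :=
  Units.mk0 (Ideal.Quotient.mk v.1.asIdeal (c i k))
    (fun h => v.2 i k (Ideal.Quotient.eq_zero_iff_mem.1 h))

/-- The Frobenius eigenvalue at the place `v` on the line `V(b)`. -/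
noncomputable def eigAt {F : Type} [Field F] [Fintype F] (χ : MulChar F ℂ) {m r : ℕ} {ι : Type}
    [Fintype ι] {n : ι → ℕ} {c : ∀ i : ι, Fin (n i + 2) → MvPolynomial (Fin r) F}
    (v : GPlace c) (b : ∀ i, Cls m (n i)) : ℂ :=
  eigP (PTX_nc (kap v.1) χ) (redC v) b

/-- The Euler factor at `v` of the `L`-function of `H^(2j)`. -/
noncomputable def locL {F : Type} [Field F] [Fintype F] (χ : MulChar F ℂ) (m : ℕ) [NeZero m]
    {r : ℕ} {ι : Type} [Fintype ι] {n : ι → ℕ}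
    {c : ∀ i : ι, Fin (n i + 2) → MvPolynomial (Fin r) F} (j : ℕ) (v : GPlace c) (s : ℂ) : ℂ :=
  LL (PTX_nc (kap v.1) χ) m (redC v) j s

/-- `v ↦ χ(N(D mod v))` -/
noncomputable def rho {F : Type} [Field F] (χ : MulChar F ℂ) {r : ℕ}
    (D : MvPolynomial (Fin r) F) (v : MaximalSpectrum (MvPolynomial (Fin r) F)) : ℂ :=
  χ (Algebra.norm F (Ideal.Quotient.mk v.asIdeal D))

/-- The coefficients of the logarithm of an Euler product over a set `V` with a degree. -/
noncomputable def SV {V : Type} (deg : V → ℕ) (g : V → ℂ) (n : ℕ) : ℂ :=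
  ∑ d ∈ n.divisors, (d : ℂ) * ∑ᶠ v : {v : V // deg v = d}, g v.1 ^ (n / d)

/-- The closed point below an `E`-valued point of affine space. -/
noncomputable def pt {F : Type} [Field F] {r : ℕ} {E : Type} [Field E] [Finite E] [Algebra F E]
    (x : Fin r → E) : MaximalSpectrum (MvPolynomial (Fin r) F) where
  asIdeal := RingHom.ker (MvPolynomial.aeval x : MvPolynomial (Fin r) F →ₐ[F] E).toRingHom
  isMaximal := by
    have h1 : Finite (MvPolynomial (Fin r) F ⧸
        RingHom.ker (MvPolynomial.aeval x : MvPolynomial (Fin r) F →ₐ[F] E).toRingHom) :=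
      Finite.of_injective _ (RingHom.kerLift_injective
        (MvPolynomial.aeval x : MvPolynomial (Fin r) F →ₐ[F] E).toRingHom)
    have h2 : (RingHom.ker (MvPolynomial.aeval x : MvPolynomial (Fin r) F →ₐ[F] E).toRingHom).IsPrime :=
      RingHom.ker_isPrime _
    exact Ideal.Quotient.maximal_of_isField _ (Finite.isField_of_domain _)

/-- `f` is a constant times an `m`-th power. -/
def IsPow {E : Type} [Field E] (m : ℕ) (f : E[X]) : Prop :=
  ∃ (u : E) (R : E[X]), f = C u * R ^ m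

/-- The same in several variables. -/
def MPow {E : Type} [Field E] {r : ℕ} (m : ℕ) (f : MvPolynomial (Fin r) E) : Prop :=
  ∃ (u : E) (R : MvPolynomial (Fin r) E), f = MvPolynomial.C u * R ^ m

/-- No proper power `f ^ s`, `0 < s < m`, is a constant times an `m`-th power. -/
def Indec {E : Type} [Field E] (m : ℕ) (f : E[X]) : Prop :=
  ∀ s : ℕ, 0 < s → s < m → ¬ IsPow m (f ^ s)

/-! ## A. The Weil bound for multiplicative characters (Stepanov) -/

/-- WLI. Linear independence of the powers of an `m`-th root of `a / f`.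

Proof. `K = FractionRing E[X]`, `y ∈ L`, `f y ^ m = a`, so `y ≠ 0`, `f ≠ 0`.  Suppose
`∑ r_i y ^ i = 0`, not all `r_i = 0`.  Then the minimal polynomial `μ` of `y` over `K` has degree
`s ≤ m - 1`, `s ≥ 1`, and it divides `Y ^ m - a / f`, which over `L` is
`∏_{k < m} (Y - ζ ^ k y)` (`X_pow_sub_C_eq_prod` or `IsPrimitiveRoot` lemmas).  So over `L` `μ` is
the product of `s` of these factors and `μ(0) = ± ζ ^ e y ^ s`; hence `y ^ s = R₁ / R₂ ∈ K` with
`R₁, R₂ ∈ E[X]` not `0`.  So `(a / f) ^ s = (R₁ / R₂) ^ m`, `a ^ s R₂ ^ m = f ^ s R₁ ^ m`;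
`R₁ ^ m ∣ a ^ s R₂ ^ m` so `R₁ ∣ R₂` (`a ^ s` is a unit; `pow_dvd_pow_iff` in a normalised gcd
monoid, or factor `gcd`), `R₂ = R₁ R`, `f ^ s = a ^ s R ^ m`: contradiction to `Indec`. -/
def Stmt_WLI : Prop :=
  ∀ (E : Type) [Field E] (m : ℕ) (ζ : E), 0 < m → IsPrimitiveRoot ζ m →
    ∀ (f : E[X]) (a : E), a ≠ 0 → Indec m f →
      ∀ (L : Type) [Field L] [Algebra (FractionRing E[X]) L] (y : L),
        algebraMap (FractionRing E[X]) L (algebraMap E[X] (FractionRing E[X]) f) * y ^ m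
          = algebraMap (FractionRing E[X]) L (algebraMap E[X] (FractionRing E[X]) (C a)) →
        ∀ r : Fin m → E[X],
          ∑ i, algebraMap (FractionRing E[X]) L (algebraMap E[X] (FractionRing E[X]) (r i))
            * y ^ (i : ℕ) = 0 → ∀ i, r i = 0

/-- WNO. The norm of `∑ r_i Y ^ i`.

Proof. The product `Π(Y) = ∏_{k < m} P(ζ ^ k Y)`, `P = ∑ r_i Y ^ i`, satisfies
`Π(ζ Y) = Π(Y)`, so its coefficient at `Y ^ e` is `0` unless `m ∣ e`
(`coefficient * (ζ ^ e - 1) = 0`, `ζ ^ e ≠ 1`); its `Y`-degree is `≤ m (m - 1) < m m`; and every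
coefficient is a sum of products of `m` of the `r_i` times constants, so of `X`-degree
`≤ m (D - 1)` (e.g. by induction on the number of factors: if all the coefficients of `A` and `B`
have degree `≤ a`, `≤ b` then those of `A B` have degree `≤ a + b`). -/
def Stmt_WNO : Prop :=
  ∀ (E : Type) [Field E] (m D : ℕ) (ζ : E), 0 < m → 0 < D → IsPrimitiveRoot ζ m →
    ∀ r : Fin m → E[X], (∀ i, (r i).natDegree < D) →
      ∃ p : Fin m → E[X], (∀ t, (p t).natDegree ≤ m * (D - 1)) ∧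
        ∏ k : Fin m, (∑ i : Fin m, C (r i * C (ζ ^ ((k : ℕ) * (i : ℕ)))) * X ^ (i : ℕ) : E[X][X])
          = ∑ t : Fin m, C (p t) * X ^ (m * (t : ℕ))

/-- WNV. The nonvanishing in Stepanov's method.

Proof. Let `Q = |E|`, `u = (Q - 1) / m`, `h = f ^ u`, `a = f(0)`.  `f h ^ m = f ^ Q
= f(X ^ Q)` (`FiniteField.expand_card`) `≡ a` mod `X ^ Q`.  There is a primitive `m`-th root of
unity `ζ` in `E` (`m ∣ Q - 1`).  Suppose some `r j i ≠ 0` and let `j₀` be the smallest such `j`;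
dividing by `X ^ (j₀ Q)`: `A = ∑_i r_i h ^ i ≡ 0` mod `X ^ Q`, `r_i = r j₀ i`.  Take the `p_t` of
WNO.  Modulo `X ^ Q`: `0 ≡ f ^ (m-1) ∏_k (∑_i r_i ζ ^ (k i) h ^ i) = ∑_t p_t h ^ (m t) f ^ (m-1)
≡ ∑_t p_t a ^ t f ^ (m-1-t) =: B`; `deg B ≤ m (D - 1) + (m - 1) d < Q`, so `B = 0`.
Let `L` be an algebraic closure of `K = FractionRing E[X]` and `y ∈ L` with `f y ^ m = a`.  Then
`f ^ (m-1) ∏_k (∑_i r_i (ζ ^ k y) ^ i) = ∑_t p_t a ^ t f ^ (m-1-t) = 0` in `L`, so for some `k`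
`∑_i r_i (ζ ^ k y) ^ i = 0`; `f (ζ ^ k y) ^ m = a`: WLI gives all `r_i = 0`, contradiction. -/
def Stmt_WNV : Prop :=
  ∀ (E : Type) [Field E] [Fintype E] (m : ℕ), 0 < m → m ∣ Fintype.card E - 1 →
    ∀ (f : E[X]) (d D J : ℕ), f.natDegree ≤ d → 0 < D → m * D + m * d ≤ Fintype.card E →
      f.eval 0 ≠ 0 → Indec m f → ∀ r : Fin J → Fin m → E[X],
      (∀ j i, (r j i).natDegree < D) →
      ∑ j, (∑ i, r j i * f ^ ((i : ℕ) * ((Fintype.card E - 1) / m)))
        * X ^ ((j : ℕ) * Fintype.card E) = 0 →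
      ∀ j i, r j i = 0

/-- WEX. The auxiliary polynomial (linear algebra).

Proof. This is `Pool.Agent.Work.TC.stmt_EXI` (file MP_223b32_tc_helper28/EXI.lean, the case
`m = 2`) with `m` functions instead of `2`; use `Pool.Agent.Work.TC.stmt_HD` of
MP_223b32_tc_helper94/HD.lean for `N = l + i u` (the Hasse derivative
`hasseDeriv k (f ^ N r) = f ^ (N - k) T r`, `T` linear, degrees `< D + k (d - 1)`), and
`EXI.hasse_mul_X`.  Unknowns: `m D J`.  Conditions for `k < l`: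
`∑_j (∑_i a ^ i T_{k,i} r_{j,i}) X ^ j = 0`, in degrees `< D + k (d - 1) + J`; in total
`l (D + J) + (d - 1) l (l - 1) / 2 < m D J`. -/
def Stmt_WEX : Prop :=
  ∀ (E : Type) [Field E] [Fintype E] (m : ℕ), 0 < m → m ∣ Fintype.card E - 1 →
    ∀ (f : E[X]) (d D J l : ℕ) (a : E),
      1 ≤ d → f.natDegree ≤ d → 0 < D → l ≤ Fintype.card E → 1 ≤ J →
      2 * (l * (D + J)) + (d - 1) * (l * (l - 1)) < 2 * (m * D * J) →
      ∃ r : Fin J → Fin m → E[X], (∀ j i, (r j i).natDegree < D) ∧ (∃ j i, r j i ≠ 0) ∧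
        ∀ x : E, f.eval x ^ ((Fintype.card E - 1) / m) = a → ∀ k < l,
          (hasseDeriv k (f ^ l * ∑ j, (∑ i, r j i * f ^ ((i : ℕ) * ((Fintype.card E - 1) / m)))
            * X ^ ((j : ℕ) * Fintype.card E))).eval x = 0

/-- WNA. Stepanov's upper bound.

Proof (compare MP_223b32_tc_helper44/NA.lean).  Let `Q = |E|`, `u = (Q - 1) / m`; for
`Q ≤ Q₀(m, d)` the bound is trivial with `C ≥ √Q₀`.  We may take `d ≥ 1` (replace `d` by
`d + 1`).  `l = ⌊√Q⌋`, `D = Q / m - d` (so `m D + m d ≤ Q`, `m D ≥ Q - m - m d`), `J = l / m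
+ 2 d + 2` (so `m J - l ≥ m + 2 d m + 1`).  For large `Q` the inequality of WEX holds: `2 (m D J -
l D - l J) - (d - 1) l (l - 1) ≥ 2 (Q - m - m d) (2 d + 1) - 2 Q / m - 2 (2 d + 2) √Q
- (d - 1) Q > 0` as `2 (2 d + 1) - 2 - (d - 1) = 3 d + 1 > 0`.
`P = f ^ l ∑ …` is not `0` by WNV (and `f ≠ 0`) and has a zero of order `≥ l` at each `x` with
`f(x) ^ u = a` (Taylor coefficients = Hasse derivatives), so
`l N_a ≤ deg P ≤ l d + (D - 1) + (m - 1) u d + (J - 1) Q`, which gives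
`N_a ≤ Q / m + (6 d + 5) √Q`, up to constants. -/
def Stmt_WNA : Prop :=
  ∀ m d : ℕ, 0 < m → ∃ B : ℝ, 0 < B ∧ ∀ (E : Type) [Field E] [Fintype E],
    m ∣ Fintype.card E - 1 → ∀ (f : E[X]) (a : E), f.natDegree ≤ d → f.eval 0 ≠ 0 →
      Indec m f → a ≠ 0 →
      (Nat.card {x : E // f.eval x ^ ((Fintype.card E - 1) / m) = a} : ℝ) ≤
        (Fintype.card E : ℝ) / m + B * √(Fintype.card E)

/-- WWE. The Weil bound for an indecomposable `f`.

Proof. `m ∣ Q - 1` (`MulChar.orderOf_dvd_card_sub_one` or the like).  `f ≠ 0` (`Indec`, `m ≥ 2`,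
`s = 1`).  If `Q ≤ d` the bound is trivial.  Otherwise `f(c) ≠ 0` for some `c`; replace `f` by
`f(X + c)` (`Indec` is invariant; `x ↦ x + c` is a bijection), so `f(0) ≠ 0`.  `η(y)` depends
only on `y ^ u`, `u = (Q - 1) / m`: if `y ^ u = y' ^ u` then `y / y' = z ^ m` (cyclic group), so
`η(y) = η(y')`.  Let `N_a = #{x : f(x) ^ u = a}` for the `m` roots of unity `a`.
`N_a ≤ Q / m + B √Q`, `∑_a N_a = Q - N₀ ≥ Q - d`; so `N_a ≥ Q / m - (m - 1) B √Q - d` and
`|N_a - Q / m| ≤ B' √Q`.  `∑_x η(f(x)) = ∑_a τ(a) N_a = ∑_a τ(a) (N_a - Q / m)`, `τ(y ^ u) = η(y)`,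
as `∑_a τ(a) = 0` (`η ≠ 1`; `y ↦ y ^ u` is `u` to one onto the `m`-th roots of unity). -/
def Stmt_WWE : Prop :=
  ∀ m d : ℕ, 2 ≤ m → ∃ B : ℝ, 0 < B ∧ ∀ (E : Type) [Field E] [Fintype E] (η : MulChar E ℂ),
    orderOf η = m → ∀ f : E[X], f.natDegree ≤ d → Indec m f →
      ‖∑ x : E, η (f.eval x)‖ ≤ B * √(Fintype.card E)

/-- WRF. Reduction to the indecomposable case.

Proof. `f ≠ 0` (`0 = C 0 * R ^ m`).  Let `g` be the largest divisor of `m` with
`f = C c * R ^ g` for some `c, R` (`g = 1` is one); `c ≠ 0`; `g ≠ m`, so `m' = m / g ≥ 2`.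
Suppose `R ^ s = C c' * S ^ m'`, `0 < s < m'`.  For every irreducible `P`:
`s v_P(R) = m' v_P(S)`; with `t = gcd(s, m') < m'`, `m'' = m' / t > 1` divides `v_P(R)` for all
`P`.  So `R = C c'' * R' ^ m''` and `f = C c''' * R' ^ (g m'')`, `g m'' ∣ m`, `g m'' > g`:
contradiction. (`UniqueFactorizationMonoid`; the leading coefficient takes care of the
constants.) -/
def Stmt_WRF : Prop :=
  ∀ (E : Type) [Field E] (m : ℕ) (f : E[X]), 0 < m → ¬ IsPow m f →
    ∃ (g m' : ℕ) (c : E) (R : E[X]), m = g * m' ∧ 0 < g ∧ 2 ≤ m' ∧ c ≠ 0 ∧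
      f = C c * R ^ g ∧ Indec m' R

/-- WBM. The Weil bound for all characters of order `m` of all finite fields.

Proof. WRF: `f = C c * R ^ g`, `m = g m'`; `η ^ g` has order `m'` and
`η(f(x)) = η(c) (η ^ g)(R(x))` (also when `R(x) = 0`, as `g > 0`), `deg R ≤ deg f`.  WWE for
`m'`, `d`; take for `B` the sum (or maximum) of the constants over `m' ≤ m`. -/
def Stmt_WBM : Prop :=
  ∀ m d : ℕ, 0 < m → ∃ B : ℝ, 0 < B ∧ ∀ (E : Type) [Field E] [Fintype E] (η : MulChar E ℂ),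
    orderOf η = m → ∀ f : E[X], f.natDegree ≤ d → ¬ IsPow m f →
      ‖∑ x : E, η (f.eval x)‖ ≤ B * √(Fintype.card E)

/-! ## B. Several variables -/

/-- SPC (specialisation).

Proof. `A = MvPolynomial (Fin r) F` is a UFD; let `K` be its fraction field.
`natDegree P > 0` as `P' ≠ 0`.  `P` is irreducible of positive degree, so primitive, and
irreducible over `K` (Gauss: `IsPrimitive.irreducible_iff_irreducible_map_fraction_map`); over
`K` it does not divide `P'` (degree) nor `G` (`IsPrimitive.dvd_iff_fraction_map_dvd_fraction_map`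
or the like), so `P` and `P' G` are coprime over `K`; clearing denominators
`α P + β P' G = C δ₁`, `δ₁ ∈ A` not `0`.  `δ = δ₁ * P.leadingCoeff`.  Let `φ δ ≠ 0`.  `P^φ`
has degree `> 0`; let `θ` be a root in an algebraic closure of `E`.  `(P^φ)'(θ) ≠ 0` and
`G^φ(θ) ≠ 0`, so `θ` is a root of `D^φ = (P^φ) ^ e G^φ ≠ 0` of multiplicity exactly `e`.  If
`D^φ = C u * R ^ m` the multiplicity is divisible by `m`. -/
def Stmt_SPC : Prop :=
  ∀ (F : Type) [Field F] (r m e : ℕ) (P G : (MvPolynomial (Fin r) F)[X]),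
    Irreducible P → ¬ P ∣ G → derivative P ≠ 0 → ¬ m ∣ e →
      ∃ δ : MvPolynomial (Fin r) F, δ ≠ 0 ∧
        ∀ (E : Type) [Field E] (φ : MvPolynomial (Fin r) F →+* E), φ δ ≠ 0 →
          ¬ IsPow m ((P ^ e * G).map φ)

/-- FAC. An irreducible factor of multiplicity not divisible by `m`.

Proof. `MvPolynomial (Fin r) F` is a UFD with units the nonzero constants
(`MvPolynomial.isUnit_iff_eq_C_of_isReduced` or the like).  If all multiplicities of the
irreducible factors of `D` are divisible by `m`, then `D` is a unit times an `m`-th power. -/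
def Stmt_FAC : Prop :=
  ∀ (F : Type) [Field F] (r m : ℕ) (D : MvPolynomial (Fin r) F), D ≠ 0 → ¬ MPow m D →
    ∃ (P G : MvPolynomial (Fin r) F) (e : ℕ), Irreducible P ∧ ¬ P ∣ G ∧ ¬ m ∣ e ∧
      D = P ^ e * G

/-- VAR. An irreducible polynomial over a finite field has a nonzero partial derivative.

Proof. `p = char F`.  If all `pderiv i P = 0`, every exponent of every monomial of `P` is
divisible by `p` (the coefficient of `pderiv i P` at `s - e_i` is `s_i * coeff s P`).  As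
`a ↦ a ^ p` is onto `F`, `P = S ^ p` (`S = ∑ b_s t ^ (s / p)`, `b_s ^ p = coeff s P`,
`sum_pow_char` / `frobenius`), which is not irreducible (`P` is not a unit).
For `r = 0` there is no irreducible polynomial. -/
def Stmt_VAR : Prop :=
  ∀ (F : Type) [Field F] [Finite F] (r : ℕ) (P : MvPolynomial (Fin r) F), Irreducible P →
    ∃ i, MvPolynomial.pderiv i P ≠ 0

/-- SZC (Schwartz-Zippel).

Proof. `MvPolynomial.schwartz_zippel_totalDegree` for `D.map (algebraMap F E)` (not `0`;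
total degree at most that of `D`) and `S = univ`; `B = totalDegree D`. -/
def Stmt_SZC : Prop :=
  ∀ (F : Type) [Field F] (r : ℕ) (D : MvPolynomial (Fin r) F), D ≠ 0 →
    ∃ B : ℝ, 0 ≤ B ∧ ∀ (E : Type) [Field E] [Fintype E] [Algebra F E],
      (Nat.card {x : Fin r → E // MvPolynomial.aeval x D = 0} : ℝ) * Fintype.card E
        ≤ B * (Fintype.card E : ℝ) ^ r

/-- MVA. The bound for a polynomial with a factor which is separable in the first variable.

Proof. `D = P ^ e * G`.  Let `P₁, G₁, D₁` be the images under `MvPolynomial.finSuccEquiv F r`,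
polynomials in one variable over `A = MvPolynomial (Fin r) F`; SPC gives `δ ∈ A`.  The points of
`E ^ (r+1)` are the pairs `(y, x')` (`Fin.consEquiv`, `Fin.insertNthEquiv`, …) and
`aeval (Fin.cons y x') D = (D₁.map (aeval x')).eval y`
(`MvPolynomial.eval_eq_eval_mv_eval'`, `aeval` version).  For `x'` with `aeval x' δ ≠ 0` the
inner sum `∑_y χ(N(…))`, i.e. for the character `PTX_nc E χ` of order `orderOf χ`
(`PTX_order`), is at most `B √|E|` by WBM (`d = natDegree D₁`); for the others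
(at most `B' |E| ^ r / |E|`, SZC) it is at most `|E|`.  Total
`≤ (B + B') |E| ^ r √|E| = (B + B') |E| ^ (r+1) / √|E|`. -/
def Stmt_MVA : Prop :=
  ∀ (F : Type) [Field F] [Fintype F] (χ : MulChar F ℂ) (r e : ℕ)
    (P G : MvPolynomial (Fin (r + 1)) F), Irreducible P → ¬ P ∣ G → ¬ orderOf χ ∣ e →
    MvPolynomial.pderiv 0 P ≠ 0 →
    ∃ B : ℝ, ∀ (E : Type) [Field E] [Fintype E] [Algebra F E],
      ‖∑ x : Fin (r + 1) → E, χ (Algebra.norm F (MvPolynomial.aeval x (P ^ e * G)))‖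
        ≤ B * ((Fintype.card E : ℝ) ^ (r + 1) / √(Fintype.card E))

/-- MVB. The bound in several variables.

Proof. FAC: `D = P ^ e * G`; for `r = 0` there is no irreducible polynomial.  VAR: `pderiv i P ≠
0`.  Apply the automorphism `MvPolynomial.rename (Equiv.swap 0 i)` (`renameEquiv`): it preserves
irreducibility and divisibility, `pderiv 0 (rename σ P) = rename σ (pderiv i P)`
(`MvPolynomial.pderiv_rename`), and permutes the points (`aeval_rename`).  MVA. -/
def Stmt_MVB : Prop :=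
  ∀ (F : Type) [Field F] [Fintype F] (χ : MulChar F ℂ) (r : ℕ)
    (D : MvPolynomial (Fin r) F), D ≠ 0 → ¬ MPow (orderOf χ) D →
    ∃ B : ℝ, ∀ (E : Type) [Field E] [Fintype E] [Algebra F E],
      ‖∑ x : Fin r → E, χ (Algebra.norm F (MvPolynomial.aeval x D))‖
        ≤ B * ((Fintype.card E : ℝ) ^ r / √(Fintype.card E))

/-! ## C. Closed points -/

/-- EXT. Extensions of every degree exist (`FiniteField.Extension`, or a splitting field). -/
def Stmt_EXT : Prop :=
  ∀ (F : Type) [Field F] [Fintype F] (n : ℕ), 0 < n →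
    ∃ (E : Type) (_ : Field E) (_ : Fintype E) (_ : Algebra F E), Module.finrank F E = n

/-- PTN. The number of points above a closed point.

Proof. The `x` with `pt x = v` correspond to the `F`-algebra homomorphisms
`MvPolynomial (Fin r) F → E` with kernel `v`, i.e. to the homomorphisms `kap v →ₐ[F] E` (all
injective); `FiniteField.card_algHom_of_finrank_dvd`, `nonempty_algHom_iff_finrank_dvd`. -/
def Stmt_PTN : Prop :=
  ∀ (F E : Type) [Field F] [Fintype F] [Field E] [Fintype E] [Algebra F E] (r : ℕ)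
    (v : MaximalSpectrum (MvPolynomial (Fin r) F)),
    Nat.card {x : Fin r → E // pt (F := F) x = v}
      = if pdeg v ∣ Module.finrank F E then pdeg v else 0

/-- PLD. The number of closed points of degree `d`.

Proof. `pdeg v > 0`: a field has positive dimension.  For `d > 0` take `E` of degree `d` (EXT):
`x ↦ pt x` is onto the closed points of degree `d` (PTN), and `|E ^ r| = q ^ (r d)`.  For
`d = 0` the set is empty. -/
def Stmt_PLD : Prop :=
  ∀ (F : Type) [Field F] [Fintype F] (r : ℕ),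
    (∀ v : MaximalSpectrum (MvPolynomial (Fin r) F), 0 < pdeg v) ∧
    ∀ d : ℕ, {v : MaximalSpectrum (MvPolynomial (Fin r) F) | pdeg v = d}.Finite ∧
      (({v : MaximalSpectrum (MvPolynomial (Fin r) F) | pdeg v = d}.ncard : ℕ) : ℝ)
        ≤ ((Fintype.card F : ℝ) ^ r) ^ d

/-- PTS. Sums over points and sums over closed points.

Proof. Group the `x` by `v = pt x` (PTN; finitely many by PLD), then the `v` by their degree
`d ∣ n`. -/
def Stmt_PTS : Prop :=
  ∀ (F E : Type) [Field F] [Fintype F] [Field E] [Fintype E] [Algebra F E] (r : ℕ)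
    (g : MaximalSpectrum (MvPolynomial (Fin r) F) → ℂ),
    ∑ x : Fin r → E, g (pt x) ^ (Module.finrank F E / pdeg (pt (F := F) x))
      = SV (pdeg (F := F) (r := r)) g (Module.finrank F E)

/-- NRM. Norms at points.

Proof. `v = pt x`; `E` is an extension of `kap v` (`RingHom.kerLift`), so `pdeg v ∣ n`, and
`aeval x D` is the image of `D mod v`; `N_{E/F}(y) = N_{kap v/F}(N_{E/kap v}(y))
= N_{kap v/F}(y) ^ (n / pdeg v)` for `y ∈ kap v` (`Algebra.norm_norm`, `Algebra.norm_algebraMap`).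
-/
def Stmt_NRM : Prop :=
  ∀ (F E : Type) [Field F] [Fintype F] [Field E] [Fintype E] [Algebra F E] (χ : MulChar F ℂ)
    (r : ℕ) (D : MvPolynomial (Fin r) F) (x : Fin r → E),
    χ (Algebra.norm F (MvPolynomial.aeval x D))
      = rho χ D (pt x) ^ (Module.finrank F E / pdeg (pt (F := F) x))

/-- CRD. `|K_v| = q ^ deg v` (`Module.card_eq_pow_finrank`). -/
def Stmt_CRD : Prop :=
  ∀ (F : Type) [Field F] [Fintype F] (r : ℕ) (v : MaximalSpectrum (MvPolynomial (Fin r) F)),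
    Fintype.card (kap v) = Fintype.card F ^ pdeg v

/-- SRD. The coefficients of the `L`-function of `D`.

Proof. Let `m = orderOf χ`.  For `n > 0` take `E` of degree `n` (EXT); PTS and NRM give
`SV pdeg (rho χ D) n = ∑_{x ∈ E^r} χ(N(D(x)))`.
If `¬ MPow m D`: `w = 0` and MVB (`|E| = q ^ n`, `√(q ^ n) = √q ^ n`).
If `D = C u * R ^ m`, `u ≠ 0`, `R ≠ 0`: `w = χ(u)`, of absolute value `1`.  For `D ∉ v`:
`rho χ D v = χ(N(u)) χ(N(R mod v)) ^ m = χ(u) ^ deg v`.  `N_{E/F}(u) = u ^ n`, so the sum is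
`χ(u) ^ n * #{x : R(x) ≠ 0}`, and `#{x : R(x) = 0} ≤ B q ^ (r n) / q ^ n` (SZC).
For `χ = 1`: `m = 1` and `D = C 1 * D ^ 1`, so take `u = 1`, `R = D`, `w = 1`.  (First distinguish
whether `χ = 1`.) -/
def Stmt_SRD : Prop :=
  ∀ (F : Type) [Field F] [Fintype F] (χ : MulChar F ℂ) (r : ℕ)
    (D : MvPolynomial (Fin r) F), D ≠ 0 →
    ∃ (w : ℂ) (B : ℝ),
      (w = 0 ∨ (‖w‖ = 1 ∧ ∀ v : MaximalSpectrum (MvPolynomial (Fin r) F), D ∉ v.asIdeal →
        rho χ D v = w ^ pdeg v)) ∧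
      (χ = 1 → w = 1) ∧
      ∀ n : ℕ, 0 < n →
        ‖SV (pdeg (F := F) (r := r)) (rho χ D) n - (w * (Fintype.card F : ℂ) ^ r) ^ n‖
          ≤ B * ((Fintype.card F : ℝ) ^ r / √(Fintype.card F)) ^ n

/-! ## D. Euler products -/

/-- EU1 (Euler product, logarithm).

Proof. `∑_v ‖g v T ^ deg v‖ ≤ ∑_d Q ^ d ‖T‖ ^ d < ∞` (group by `d = deg v`; e.g. the finite
partial sums are bounded by the geometric series).  So the product of the `1 - a_v`,
`a_v = g v T ^ deg v`, `‖a_v‖ ≤ ‖T‖ < 1`, is multipliable, and the inverses too; `∏ (1 - a_v)⁻¹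
= exp (∑ - log (1 - a_v))` (`Complex.summable_log_one_add_of_summable`,
`Complex.cexp_tsum_eq_tprod`, …). -/
def Stmt_EU1 : Prop :=
  ∀ (V : Type) (deg : V → ℕ) (Q : ℝ), 1 ≤ Q → (∀ v, 0 < deg v) →
    (∀ d : ℕ, {v : V | deg v = d}.Finite ∧ (({v : V | deg v = d}.ncard : ℕ) : ℝ) ≤ Q ^ d) →
    ∀ g : V → ℂ, (∀ v, ‖g v‖ ≤ 1) → ∀ T : ℂ, ‖T‖ * Q < 1 →
      Summable (fun v => ‖g v * T ^ deg v‖) ∧
      Multipliable (fun v => (1 - g v * T ^ deg v)⁻¹) ∧
      (∏' v, (1 - g v * T ^ deg v)⁻¹)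
        = Complex.exp (∑' v, - Complex.log (1 - g v * T ^ deg v))

/-- EU2 (regrouping the logarithm).

Proof. `- log (1 - a) = ∑_{k ≥ 1} a ^ k / k` (`Complex.hasSum_taylorSeries_neg_log`).  The double
series over `(v, k)` converges absolutely:
`∑_v ∑_k ‖T‖ ^ (k deg v) ≤ (1 - ‖T‖)⁻¹ ∑_v ‖T‖ ^ deg v < ∞` (as in EU1).  Group by
`n = k deg v`: the sum over the `(v, k)` with `k deg v = n` of `g v ^ k / k * T ^ n` is
`T ^ n / n * ∑_{d ∣ n} d ∑_{deg v = d} g v ^ (n / d)`. -/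
def Stmt_EU2 : Prop :=
  ∀ (V : Type) (deg : V → ℕ) (Q : ℝ), 1 ≤ Q → (∀ v, 0 < deg v) →
    (∀ d : ℕ, {v : V | deg v = d}.Finite ∧ (({v : V | deg v = d}.ncard : ℕ) : ℝ) ≤ Q ^ d) →
    ∀ g : V → ℂ, (∀ v, ‖g v‖ ≤ 1) → ∀ T : ℂ, ‖T‖ * Q < 1 →
      HasSum (fun n : ℕ => SV deg g (n + 1) * T ^ (n + 1) / ((n : ℂ) + 1))
        (∑' v, - Complex.log (1 - g v * T ^ deg v))

/-- ANA (the pole at the edge).

Proof. `T(s) = λ q ^ (-s)`; for real `s > j + r`, `‖T‖ = q ^ (j - s) < q ^ (-r)`.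
Let `S n = SV deg g n = (w q ^ r) ^ n + e_n`, `‖e_n‖ ≤ B (q ^ r / √q) ^ n`.  By EU1, EU2 the
product is `exp (∑ S_n T ^ n / n) = (1 - w q ^ r T)⁻¹ exp (φ(T))`, `φ(T) = ∑_{n ≥ 1} e_n T ^ n / n`
(`exp (∑ z ^ n / n) = exp (- log (1 - z)) = (1 - z)⁻¹`, `z = w q ^ r T`, `‖z‖ < 1`).  For
`‖T‖ ≤ q ^ (-r)` the terms are `≤ |B| √q ^ (-n)`, so `φ` is continuous there
(`continuousOn_tsum` / `tendsto_tsum_of_dominated_convergence`) and as `s → (j + r)+`,
`T(s) → T₀ = λ q ^ (-(j + r))`, `‖T₀‖ = q ^ (-r)`, `exp (φ(T)) → exp (φ(T₀)) ≠ 0`.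
`1 - w q ^ r T₀ = 1 - w λ / q ^ j`.  If `w λ ≠ q ^ j` this is not `0`: order `0`.  If
`w λ = q ^ j`: `1 - w q ^ r T = 1 - q ^ (j + r - s)` and
`(s - (j + r)) / (1 - q ^ (j + r - s)) → 1 / log q`: order `1`. -/
def Stmt_ANA : Prop :=
  ∀ (V : Type) (deg : V → ℕ) (q r j : ℕ), 2 ≤ q → (∀ v, 0 < deg v) →
    (∀ d : ℕ, {v : V | deg v = d}.Finite ∧
      (({v : V | deg v = d}.ncard : ℕ) : ℝ) ≤ ((q : ℝ) ^ r) ^ d) →
    ∀ (g : V → ℂ) (l w : ℂ) (B : ℝ), (∀ v, ‖g v‖ ≤ 1) → ‖l‖ = (q : ℝ) ^ j →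
      (w = 0 ∨ ‖w‖ = 1) →
      (∀ n : ℕ, 0 < n →
        ‖SV deg g n - (w * (q : ℂ) ^ r) ^ n‖ ≤ B * ((q : ℝ) ^ r / √q) ^ n) →
      (∀ s : ℝ, (j : ℝ) + r < s →
        Multipliable (fun v => (1 - g v * (l * (q : ℂ) ^ (-(s : ℂ))) ^ deg v)⁻¹)) ∧
      (w * l = (q : ℂ) ^ j →
        HasPoleOrder (fun s => ∏' v, (1 - g v * (l * (q : ℂ) ^ (-s)) ^ deg v)⁻¹)
          ((j : ℝ) + r) 1) ∧
      (w * l ≠ (q : ℂ) ^ j →
        HasPoleOrder (fun s => ∏' v, (1 - g v * (l * (q : ℂ) ^ (-s)) ^ deg v)⁻¹)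
          ((j : ℝ) + r) 0)

/-! ## E. The `L`-function -/

/-- EIG. The local eigenvalues.

Proof. `D` is `(∏_{i,k} c i k) ^ m` times the product over the `i` with `b i = inr a` and over
`k` of `(c i k) ^ (m - (a k).val)`; `D ∉ v` iff no `c i k ∈ v` (prime ideal, `m > 0`).  For a
place `v` of degree `d`, `K = kap v`: for `inl s`, `lam = |K| ^ s = (q ^ s) ^ d`.  For `inr a`:
`PTX_jac` (with GJA, HDV) gives `Jac_K / (|K| - 1) = (-1)^(n (d-1)) (Jac_F / (q-1)) ^ d`, so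
`lam_K = (∏_k (χ_K ^ a_k)⁻¹(c_k mod v)) ((-1)^n Jac_F/(q-1)) ^ d`, and for `y ≠ 0`
`(χ_K ^ a)⁻¹(y) = χ_K(y) ^ (m - a.val) = χ(N(y)) ^ (m - a.val)` (`orderOf χ_K = m`,
`PTX_order`); the product over all `i, k`, times `χ(N(∏ c)) ^ m = 1`, is
`χ(N(D mod v)) = rho χ D v`.  With the coefficients `1` one gets the eigenvalue `eigP χ 1 b`
over `F` (`(χ ^ a)⁻¹ 1 = 1`). -/
def Stmt_EIG : Prop :=
  ∀ (F : Type) [Field F] [Fintype F] (χ : MulChar F ℂ) (m : ℕ) [NeZero m], orderOf χ = m →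
    ∀ (r : ℕ) (ι : Type) [Fintype ι] (n : ι → ℕ)
      (c : ∀ i : ι, Fin (n i + 2) → MvPolynomial (Fin r) F),
      (∀ i k, c i k ≠ 0) → ∀ b : ∀ i, Cls m (n i),
      ∃ D : MvPolynomial (Fin r) F, D ≠ 0 ∧
        (∀ v : MaximalSpectrum (MvPolynomial (Fin r) F),
          D ∉ v.asIdeal ↔ ∀ i k, c i k ∉ v.asIdeal) ∧
        ∀ v : GPlace c, eigAt χ v b
          = (eigP χ (fun _ _ => (1 : Fˣ)) b) ^ pdeg v.1 * rho χ D v.1

/-- ABS. Absolute values (Weil): `|eigP| = q ^ j` in degree `2 j`.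

Proof. `inl s`: `q ^ s`.  `inr a`: roots of unity have absolute value `1`;
`q Jac = (q - 1) ∏_k g(χ ^ a_k, ψ)` (GJA) and each Gauss sum has absolute value `√q`
(`gaussSum_mul_gaussSum_eq_card` with complex conjugation, or a Mathlib lemma on
`‖gaussSum‖`), so `|lam| = q ^ ((n+2)/2 - 1) = q ^ (n/2)`; i.e. `|lam| ^ 2 = q ^ (degC)`.
Multiply over `i`. -/
def Stmt_ABS : Prop :=
  ∀ (F : Type) [Field F] [Fintype F] (χ : MulChar F ℂ) (m : ℕ) [NeZero m], orderOf χ = m →
    ∀ (ι : Type) [Fintype ι] (n : ι → ℕ) (c : ∀ i, Fin (n i + 2) → Fˣ)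
      (b : ∀ i, Cls m (n i)) (j : ℕ), degP b = 2 * j →
      ‖eigP χ c b‖ = (Fintype.card F : ℝ) ^ j

/-- ONE. One line: convergence, and the order of the pole at `s = j + r`.

Proof. EIG: `eigAt v b = l ^ deg v * ρ(v)`, `l = eigP χ 1 b`, `ρ = rho χ D`; `|l| = q ^ j` (ABS);
`|K_v| = q ^ deg v` (CRD), so `|K_v| ^ (-s) = (q ^ (-s)) ^ deg v`.  As `ρ(v) = 0` at the closed
points `v` which are not in `GPlace c` (`D ∈ v`), the products over `GPlace c` are the products
over all the closed points (the other factors are `1`; `Function.Injective.tprod_eq`,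
`multipliable_subtype_iff_mulIndicator`, …) and ANA applies with `g = ρ` (`‖ρ‖ ≤ 1`, PLD) and the
`w`, `B` of SRD.  It remains to show: (all `eigAt v b = |K_v| ^ j`) iff `w l = q ^ j`.
If `w l = q ^ j` then `w ≠ 0` and `eigAt v b = l ^ deg v w ^ deg v = |K_v| ^ j`.
Conversely if all `eigAt v b = |K_v| ^ j`, let `z = q ^ j / l`, `|z| = 1`: `ρ(v) = z ^ deg v` at
the good `v`, so `ρ(v) = z ^ deg v * rho 1 D v` for all `v`
(`rho 1 D v = 1` if `D ∉ v`, else `0`), hence `SV pdeg ρ n = z ^ n * SV pdeg (rho 1 D) n`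
(`(z ^ d) ^ (n / d) = z ^ n`).  Divide by `q ^ (r n)` and compare with SRD for `χ` and for the
trivial character (`w = 1`): `w ^ n - z ^ n → 0`.  So `w ≠ 0`, `‖w‖ = 1` and
`(w / z) ^ n → 1`, so `w / z = 1`. -/
def Stmt_ONE : Prop :=
  ∀ (F : Type) [Field F] [Fintype F] (χ : MulChar F ℂ) (m : ℕ) [NeZero m], orderOf χ = m →
    ∀ (r : ℕ) (ι : Type) [Fintype ι] (n : ι → ℕ)
      (c : ∀ i : ι, Fin (n i + 2) → MvPolynomial (Fin r) F),
      (∀ i k, c i k ≠ 0) → ∀ (b : ∀ i, Cls m (n i)) (j : ℕ), degP b = 2 * j →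
      (∀ s : ℝ, (j : ℝ) + r < s → Multipliable (fun v : GPlace c =>
        (1 - eigAt χ v b * (Fintype.card (kap v.1) : ℂ) ^ (-(s : ℂ)))⁻¹)) ∧
      ((∀ v : GPlace c, eigAt χ v b = (Fintype.card (kap v.1) : ℂ) ^ j) →
        HasPoleOrder (fun s => ∏' v : GPlace c,
          (1 - eigAt χ v b * (Fintype.card (kap v.1) : ℂ) ^ (-s))⁻¹) ((j : ℝ) + r) 1) ∧
      ((¬ ∀ v : GPlace c, eigAt χ v b = (Fintype.card (kap v.1) : ℂ) ^ j) →
        HasPoleOrder (fun s => ∏' v : GPlace c,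
          (1 - eigAt χ v b * (Fintype.card (kap v.1) : ℂ) ^ (-s))⁻¹) ((j : ℝ) + r) 0)

open Classical in
/-- FFL. The `L`-function of `H^(2j)` over `k = F(t_1, …, t_r)`.

Proof. `locL` is the finite product over `b` of the factors of ONE; product of multipliable
families and of limits (`Multipliable.…`, `HasPoleOrder` of a product of functions is the sum
of the orders: eventually equal functions on `(j + r, ∞)`). -/
def Stmt_FFL : Prop :=
  ∀ (F : Type) [Field F] [Fintype F] (χ : MulChar F ℂ) (m : ℕ) [NeZero m], orderOf χ = m →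
    ∀ (r : ℕ) (ι : Type) [Fintype ι] (n : ι → ℕ)
      (c : ∀ i : ι, Fin (n i + 2) → MvPolynomial (Fin r) F),
      (∀ i k, c i k ≠ 0) → ∀ j : ℕ,
      (∀ s : ℝ, (j : ℝ) + r < s → Multipliable (fun v : GPlace c => locL χ m j v (s : ℂ))) ∧
      HasPoleOrder (fun s => ∏' v : GPlace c, locL χ m j v s) ((j : ℝ) + r)
        (((univ : Finset (∀ i, Cls m (n i))).filter (fun b => degP b = 2 * j ∧
          ∀ v : GPlace c, eigAt χ v b = (Fintype.card (kap v.1) : ℂ) ^ j)).card)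

end Pool.FT
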