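import Pool.Agent.Work.MP_223b32_ft.Interface3

/-!
# THEOREM FT, part 4: products of diagonal hypersurfaces of different degrees

The degrees are `m_i = l_i ^ k_i` or `2 l_i ^ k_i`, `l_i` prime (`2` itself is allowed), all
dividing `M`; `F` is a finite field with a character `χ` of order `M`, and `χ ^ (M / m_i)` is used
for the hypersurfaces of degree `m_i`.  The characters are multisets of elements of `ℤ/M`, by the
embedding `emb m M x = (M / m) x` of `ℤ/m` in `ℤ/M`.

A product of hypersurfaces of degrees with different primes `l` has new Tate classes only from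
the products of two supersingular curves (Tate): for each `l` the part of the character with the
prime `l` satisfies Stickelberger's condition by itself (SEP); if it has an even number of entries
it is algebraic by COM, otherwise it is algebraic up to a supersingular triple.

`theorem Pool.FT.p_X (hA : Stmt_A) … : Stmt_X` in B_X.lean, which imports this file.
-/

namespace Pool.FT

open Finset

/-! ## Definitions -/

/-- The embedding `x ↦ (M / m) x` of `ℤ/m` in `ℤ/M`, `m ∣ M`. -/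
def emb (m M : ℕ) (x : ZMod m) : ZMod M := ((M / m * x.val : ℕ) : ZMod M)

/-- All the slopes are `1 / 2`. -/
def Ssg (M p : ℕ) (T : Multiset (ZMod M)) : Prop :=
  ∃ f : ℕ, 0 < f ∧ (p : ZMod M) ^ f = 1 ∧ Stick M p f T

/-- The properties used of the set `Alg` of characters whose line is spanned by an algebraic
class, as in `FermatCycles`, with the theorem of Tate for all pairs of supersingular curves. -/
structure FermatCycles2 (M p : ℕ) (Alg : Multiset (ZMod M) → Prop) : Prop where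
  chr : ∀ a, Alg a → Chr M a
  pair : ∀ x : ZMod M, x ≠ 0 → Alg {x, -x}
  join : ∀ a b, Alg a → Alg b → Alg (a + b)
  cancel : ∀ (a : Multiset (ZMod M)) (x : ZMod M), Chr M a → x ≠ 0 → Alg (a + {x, -x}) → Alg a
  neg : ∀ a, Alg a → Alg (a.map (fun x => -x))
  frob : ∀ x y z : ZMod M, x ≠ 0 → y ≠ 0 → z ≠ 0 → x + y + z = 0 →
    Alg ({x, y, z} + {-((p : ZMod M) * x), -((p : ZMod M) * y), -((p : ZMod M) * z)})
  super : ∀ x y z x' y' z' : ZMod M,
    x ≠ 0 → y ≠ 0 → z ≠ 0 → x + y + z = 0 → Ssg M p {x, y, z} →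
    x' ≠ 0 → y' ≠ 0 → z' ≠ 0 → x' + y' + z' = 0 → Ssg M p {x', y', z'} →
    Alg ({x, y, z} + {x', y', z'})
  two : ∀ h x : ZMod M, h ≠ 0 → h + h = 0 → x ≠ 0 → x ≠ h →
    Alg {x, x + h, -(x + x), h}
  odd : ∀ (d : ℕ) (w x : ZMod M), d.Prime → Odd d → w ≠ 0 → (d : ZMod M) * w = 0 →
    (d : ZMod M) * x ≠ 0 →
    Alg ((Multiset.range d).map (fun i => x + (i : ZMod M) * w) + {-((d : ZMod M) * x)})

/-- The degrees of the factors: `l ^ k` or `2 l ^ k`, `l` prime, `k > 0` (so `2` is allowed). -/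
def GoodD (m : ℕ) : Prop :=
  ∃ l k : ℕ, l.Prime ∧ 0 < k ∧ (m = l ^ k ∨ m = 2 * l ^ k)

/-- The `l`-part of `M`, times `2` if `l` is odd and `M` is even. -/
def lev (l M : ℕ) : ℕ := (if l = 2 then 1 else Nat.gcd 2 M) * l ^ M.factorization l

/-- degree of a basis element -/
def degM {ι : Type} [Fintype ι] {m n : ι → ℕ} (b : ∀ i, Cls (m i) (n i)) : ℕ := ∑ i, degC (b i)

/-- all the entries, in `ℤ/M` -/
def chM (M : ℕ) {ι : Type} [Fintype ι] {m n : ι → ℕ} (b : ∀ i, Cls (m i) (n i)) :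
    Multiset (ZMod M) :=
  ∑ i, (charsC (b i)).map (emb (m i) M)

/-- Frobenius eigenvalue, `χ` of order `M` -/
noncomputable def eigM (M : ℕ) {F : Type} [Field F] [Fintype F] (χ : MulChar F ℂ) {ι : Type}
    [Fintype ι] {m n : ι → ℕ} (c : ∀ i, Fin (n i + 2) → Fˣ) (b : ∀ i, Cls (m i) (n i)) : ℂ :=
  ∏ i, lam (χ ^ (M / m i)) (c i) (b i)

/-- The Frobenius eigenvalue at a place of `F(t_1, …, t_r)`. -/
noncomputable def eigMV (M : ℕ) {F : Type} [Field F] [Fintype F] (χ : MulChar F ℂ) {r : ℕ}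
    {ι : Type} [Fintype ι] {m n : ι → ℕ} {c : ∀ i : ι, Fin (n i + 2) → MvPolynomial (Fin r) F}
    (v : GPlace c) (b : ∀ i, Cls (m i) (n i)) : ℂ :=
  eigM M (PTX_nc (kap v.1) χ) (redC v) b

/-! ## A. The embedding -/

/-- EMB.

Proof. `M = m d`, `d > 0`.  `emb x = (d x.val : ZMod M)`, `d x.val < M`, so the value of
`emb x` is `d x.val`.  Additivity: `(x + y).val = x.val + y.val` or `x.val + y.val - m`, and
`d m = M = 0` (or: `ZMod.lift`/`ZMod.castHom`; the map of `ℤ` to `ZMod M`, `k ↦ d k`, kills `m`).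
Range: if `m y = 0` in `ZMod M` then `M ∣ m y.val`, `d ∣ y.val`, `y = emb (y.val / d)`. -/
def Stmt_EMB : Prop :=
  ∀ (m M : ℕ) [NeZero m] [NeZero M], m ∣ M →
    (∀ x : ZMod m, (emb m M x).val = M / m * x.val) ∧
    (∀ x y : ZMod m, emb m M (x + y) = emb m M x + emb m M y) ∧
    (∀ x : ZMod m, emb m M (-x) = - emb m M x) ∧
    (∀ x : ZMod m, emb m M x = 0 ↔ x = 0) ∧
    (∀ (k : ℕ) (x : ZMod m), emb m M ((k : ZMod m) * x) = (k : ZMod M) * emb m M x) ∧
    (∀ x : ZMod m, (m : ZMod M) * emb m M x = 0) ∧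
    (∀ y : ZMod M, (m : ZMod M) * y = 0 → ∃ x : ZMod m, emb m M x = y)

/-- SCL. Stickelberger's condition does not depend on the level.

Proof. The cardinalities are equal.  For a unit `t` of `ZMod M` with image `t'` in `ZMod m`
(`ZMod.unitsMap`, surjective) `t p ^ i emb x = emb (t' p ^ i x)` (EMB, with `k` the value of
`t p ^ i`), and its value is `(M / m) (t' p ^ i x).val`; `M = (M / m) m`. -/
def Stmt_SCL : Prop :=
  ∀ (m M p f : ℕ) [NeZero m] [NeZero M], m ∣ M → ∀ a : Multiset (ZMod m),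
    Stick M p f (a.map (emb m M)) ↔ Stick m p f a

/-- SUX. The supersingular case.

Proof. For fixed `t` and `x ∈ T`, `g(j) = (t p ^ j x).val` is periodic in `j` with period `f`
(`p ^ f = 1`) and `g(j + i) = (- t p ^ j x).val = m - g(j)` (`t p ^ j x ≠ 0`).  So
`∑_{j < f} g(j) = ∑_{j < f} g(j + i) = f m - ∑_{j < f} g(j)`, i.e. `2 ∑_{j < f} g(j) = f m`; sum over
`x ∈ T`. -/
def Stmt_SUX : Prop :=
  ∀ (m p f i : ℕ) [NeZero m], 0 < f → (p : ZMod m) ^ f = 1 → (p : ZMod m) ^ i = -1 →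
    ∀ T : Multiset (ZMod m), (0 : ZMod m) ∉ T → Stick m p f T

/-- FCL. Restriction to level `m`.

Proof. Let `Alg' a = Alg (a.map (emb m M))`.  All the rules of `FermatCycles m p Alg'` follow
from those of `FermatCycles2 M p Alg` by EMB (`Multiset.map_add`, `Multiset.map_cons`, …).
`super`: let `p ^ i = -1` in `ZMod m`; take `f = orderOf` of `p` in the units of `ZMod M` (or
`f = φ(M)`); by SUX `Stick m p f T` for the two triples, so `Stick M p f (T.map emb)` (SCL), i.e.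
`Ssg`. -/
def Stmt_FCL : Prop :=
  ∀ (m M p : ℕ) [NeZero m] [NeZero M], m ∣ M → p.Coprime M →
    ∀ Alg : Multiset (ZMod M) → Prop, FermatCycles2 M p Alg →
      FermatCycles m p (fun a => Alg (a.map (emb m M)))

/-! ## B. Combinatorics of mixed characters -/

/-- SPT. An odd character with all slopes `1 / 2` gives a supersingular triple.

Proof. (1) `t = 1` in `Stick`: `2 ∑_{i < f} ∑_{x ∈ a} (p ^ i x).val = f (card a) m`.  For each `i`
the inner sum is divisible by `m` (its class is `p ^ i * a.sum = 0`), so `f (card a)` is even.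
Let `f₀` be the order of `p` in the units of `ZMod m`, `f = f₀ k`; `Stick m p f a ↔ Stick m p f₀ a`
(the sum over `i < f` is `k` times the sum over `i < f₀`), so `f₀ (card a)` is even, `f₀` is even
(`card a` is odd), and `u = p ^ (f₀ / 2)` satisfies `u ^ 2 = 1`, `u ≠ 1`.  It suffices to find `T`
with `Stick m p f₀ T`.
(2) If `u = -1`: SUX, `T = {1, 1, -2}` (`2 ≠ 0` as `3 ≤ m`).
(3) If `m = l ^ k` or `2 l ^ k` with `l` odd, `u = -1` (`u ^ 2 = 1`: `l` does not divide both of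
`u - 1`, `u + 1`, so `l ^ k` divides one of them, and both are even if `m` is).
(4) `m = 2 ^ k`, `u ≠ ± 1`: `u` odd, `2 ^ k ∣ (u - 1) (u + 1)`, one of the factors is `2` mod `4`, so
`u = ± 1 + m / 2` and `8 ≤ m`.  Write `B(y) = 2 y.val - m` for `y ≠ 0`, `B(0) = 0`; it is odd.
`Stick m p f₀ T` (no zero in `T`) says `∑_{i < f₀} ∑_{x ∈ T} B(t p ^ i x) = 0`; group `i` and
`i + f₀ / 2`: it suffices that `∑_{x ∈ T} (B(s x) + B(s u x)) = 0` for every unit (odd) `s`.
(4a) `u = 1 + m / 2`, `T = {1, -1 + m/2, m/2}`: `s u = s + m/2`, `B(m/2) = 0`; the sum is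
`B(s) + B(s + m/2) + B(-s + m/2) + B(-s) = 0` (`- (s + m/2) = -s + m/2`).
(4b) `u = -1 + m/2`, `T = {1, 1 + m/2, -2 + m/2}`: `s u = -s + m/2`,
`s (1 + m/2) = s + m/2`, `s u (1 + m/2) = -s + m/2 + m/2 = -s` (`m/4` is even… check:
`(-s + m/2)(1 + m/2) = -s + m/2 - s m/2 + m^2/4 = -s` as `s` is odd and `4 ∣ m`), and
`y = s (-2 + m/2) = -2 s + m/2`, `u y = -y` (`y` even), `y ≠ 0`.  The sum is
`B(s) + B(-s + m/2) + B(s + m/2) + B(-s) + B(y) + B(-y) = 0` (`-s + m/2 = -(s + m/2)`). -/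
def Stmt_SPT : Prop :=
  ∀ (m p f : ℕ) [NeZero m], GoodM m → p.Coprime m → 0 < f → (p : ZMod m) ^ f = 1 →
    ∀ a : Multiset (ZMod m), (0 : ZMod m) ∉ a → a.sum = 0 → ¬ Even (Multiset.card a) →
      Stick m p f a →
      ∃ x y z : ZMod m, x ≠ 0 ∧ y ≠ 0 ∧ z ≠ 0 ∧ x + y + z = 0 ∧ Stick m p f {x, y, z}

/-- SEP. The parts with different primes satisfy the condition separately.

Proof. `Stick M p f a` for `a` without zero says `G_a(t) = 0` for all units `t`, where
`G_a(t) = ∑_{i < f} ∑_{x ∈ a} (2 (t p ^ i x).val - M)` (in `ℤ`); `G_a(-t) = - G_a(t)`, and `G` is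
additive in `a`.  Let `l ∈ S`, `t` a unit.  By the Chinese remainder theorem there is a unit `t'` with
`t' = -t` mod `l ^ v`, `t' = t` mod `M / l ^ v`, `v = M.factorization l`.  For `x ∈ A l`
(`lev l M * x = 0`): `t' x = - t x`: `t' + t` is divisible by `l ^ v`, and by `2` if `M` is even (both
are odd).  For `x ∈ A l'`, `l' ≠ l`: `t' x = t x`: `t' - t` is divisible by `l' ^ v'` and by `2` if `M` is
even.  So `0 = G(t) - G(t') = 2 G_(A l)(t)` (the terms of the other primes cancel). -/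
def Stmt_SEP : Prop :=
  ∀ (M p f : ℕ) [NeZero M] (S : Finset ℕ) (A : ℕ → Multiset (ZMod M)), p.Coprime M →
    (∀ l ∈ S, l.Prime) → (∀ l ∈ S, ∀ x ∈ A l, x ≠ 0 ∧ (lev l M : ZMod M) * x = 0) →
    Stick M p f (∑ l ∈ S, A l) → ∀ l ∈ S, Stick M p f (A l)

/-- PRT. One prime.

Proof. `m = lev l M` divides `M`.  If `A = 0` trivial.  By EMB `A = a.map (emb m M)`, `0 ∉ a`,
`a.sum = 0`, and `Stick m p f a` (SCL).
Case `m ≤ 2`: all entries of `A` are equal to `y` with `2 y = 0`, `y ≠ 0`; `card A • y = 0` so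
`card A` is even and `∑ e = (card A / 2) (e y + e y) = 0` (`pair`, `y = -y`).  (If `m = 1`,
`A = 0`.)
Case `3 ≤ m`: `GoodM m` (`m = l ^ v` or `2 l ^ v`, `v > 0` as `m ≥ 3`).  Let `Alg' a = Alg (a.map emb)`
(`FermatCycles m p Alg'`, FCL).  If `card a` is even: COM gives `Alg' a`, so the sum of `e` over
`A` is `0`.  If `card a` is odd: SPT gives a triple `T = {x, y, z}`, `Stick m p f T`; `a + T.map (-)` has
even cardinality, sum `0`, no zero, and satisfies Stick (`G_(-T) = - G_T`), so COM gives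
`Alg' (a + T.map (-))`, and as `e` is odd (`pair`) `∑_A e = ∑_(T.map emb) e`.  `Ssg` by SCL. -/
def Stmt_PRT : Prop :=
  ∀ (M p f l : ℕ) [NeZero M] (Alg : Multiset (ZMod M) → Prop), FermatCycles2 M p Alg →
    p.Coprime M → 0 < f → (p : ZMod M) ^ f = 1 → l.Prime →
    ∀ (Q : Type) [AddCommGroup Q] (e : ZMod M → Q), Kills Alg e →
    ∀ A : Multiset (ZMod M), (∀ x ∈ A, x ≠ 0 ∧ (lev l M : ZMod M) * x = 0) → A.sum = 0 →
      Stick M p f A →
      (Even (Multiset.card A) → (A.map e).sum = 0) ∧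
      (¬ Even (Multiset.card A) → ∃ x y z : ZMod M, x ≠ 0 ∧ y ≠ 0 ∧ z ≠ 0 ∧ x + y + z = 0 ∧
        Ssg M p {x, y, z} ∧ (A.map e).sum = e x + e y + e z)

/-- MIX.

Proof. For each `i` choose the prime `l_i` of `m_i` (`GoodD`); `m_i ∣ lev l_i M` (`l_i ^ k ∣ M`; if
`m_i = 2 l_i ^ k` with `l_i` odd then `M` is even; if `l_i = 2`, `m_i` is a power of `2` dividing `M`),
so the entries of `a i` are killed by `lev l_i M`.  `S` = the set of the `l_i`, `A l = ∑_{l_i = l} a i`;
`∑_i a i = ∑_{l ∈ S} A l` and `(A l).sum = 0`.  If `∑ a i ≠ 0`, it satisfies `Chr M`, and by SAT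
(for `FermatCycles M p Alg`, which is FCL with `m = M`, `emb M M = id`) it suffices that every
`e` killing `Alg` kills it.  SEP and PRT: `e` kills the `A l` with an even number of entries; for the
others `∑_(A l) e = e(T_l)`, `T_l` a supersingular triple; by `super` `e(T_l) + e(T_l') = 0` for
all `l, l'` (also `l = l'`), so `e(T_l) = ε` does not depend on `l`, `2 ε = 0`.  The number of the `l`
with an odd number of entries is even, so the total is `0`. -/
def Stmt_MIX : Prop :=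
  ∀ (M p f : ℕ) [NeZero M] (Alg : Multiset (ZMod M) → Prop), FermatCycles2 M p Alg →
    p.Coprime M → 0 < f → (p : ZMod M) ^ f = 1 →
    ∀ (ι : Type) [Fintype ι] (m : ι → ℕ) (a : ι → Multiset (ZMod M)),
      (∀ i, GoodD (m i)) → (∀ i, m i ∣ M) →
      (∀ i, ∀ x ∈ a i, x ≠ 0 ∧ (m i : ZMod M) * x = 0) → (∀ i, (a i).sum = 0) →
      Even (Multiset.card (∑ i, a i)) → Stick M p f (∑ i, a i) →
      (∑ i, a i = 0 ∨ Alg (∑ i, a i))

/-! ## C. Eigenvalues and `L`-functions -/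

/-- LEV. A basis element of degree `m` as one of degree `M`.

Proof. `inl r ↦ inl r`, `inr a ↦ inr (emb ∘ a)` (EMB: nonzero, sum `0`).  `degC`, `charsC`: by
definition (`Multiset.map_map`).  `lam`: for `y : ZMod m`, `(emb y).val = (M / m) y.val`, so
`χ ^ (emb y).val = (χ ^ (M / m)) ^ y.val` and all the factors are equal. -/
def Stmt_LEV : Prop :=
  ∀ (m M n : ℕ) [NeZero m] [NeZero M], m ∣ M → ∀ b : Cls m n,
    ∃ b' : Cls M n, degC b' = degC b ∧ charsC b' = (charsC b).map (emb m M) ∧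
      ∀ (F : Type) [Field F] [Fintype F] (χ : MulChar F ℂ) (c : Fin (n + 2) → Fˣ),
        lam χ c b' = lam (χ ^ (M / m)) c b

/-- TBM. All the Tate classes are algebraic.

Proof. LEV for all `i`: `b'` with `eigP χ c b' = eigM M χ c b`, `degP b' = 2 j`,
`charsP b' = chM M b`.  `card F = p ^ f`, `f > 0`, and `p ^ f = 1` in `ZMod M` (`orderOf χ = M`
divides `card F - 1`).  If `3 ≤ M`, STK gives `Stick M p f (chM M b)`.  If `M ≤ 2` it is trivial: the
entries are `1 ∈ ZMod 2`, and `2 f card = f card 2` (`p` odd, so `p ^ i * 1 = 1`); for `M = 1` there are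
no entries.  The number of entries is even: `n_i + 2` entries for the `i` with `b i = inr a`, and
`∑ degC = 2 j` is `∑_{inr} n_i` plus an even number.  Apply MIX to
`a i = (charsC (b i)).map (emb (m i) M)` (EMB: nonzero, killed by `m i`, sum `0`). -/
def Stmt_TBM : Prop :=
  ∀ (M p : ℕ) [NeZero M] [Fact p.Prime], ¬ p ∣ M →
    ∀ (F : Type) [Field F] [Fintype F] [CharP F p] (χ : MulChar F ℂ), orderOf χ = M →
    ∀ (ι : Type) [Fintype ι] (m n : ι → ℕ), (∀ i, GoodD (m i)) → (∀ i, m i ∣ M) →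
    ∀ (c : ∀ i, Fin (n i + 2) → Fˣ) (Alg : Multiset (ZMod M) → Prop), FermatCycles2 M p Alg →
    ∀ (b : ∀ i, Cls (m i) (n i)) (j N : ℕ), 0 < N → degM b = 2 * j →
      (eigM M χ c b) ^ N = (Fintype.card F : ℂ) ^ (j * N) → chM M b = 0 ∨ Alg (chM M b)

/-- DSA (descent, abstract form of DSC; the proof is the one of B_DSC.lean with
`card F = q₀ ^ s` and any finite set `B` of indices).

Proof. (1) `Φ v = q₀ ^ j v` implies `Φ ^ s v = q₀ ^ (j s) v`; compare coordinates.
(2) `Φ ^ s` is diagonal with nonzero entries, so `Φ` is diagonalizable, as in B_DSC.lean. -/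
def Stmt_DSA : Prop :=
  ∀ (B : Type) [Fintype B] [DecidableEq B] (μ : B → ℂ) (q₀ s j : ℕ), (∀ b, μ b ≠ 0) → 1 < q₀ →
    0 < s → ∀ Φ : Module.End ℂ (B → ℂ), (∀ (v : B → ℂ) b, (Φ ^ s) v b = μ b * v b) →
      (∀ v, Φ v = (q₀ : ℂ) ^ j • v → ∀ b, v b ≠ 0 → μ b = (q₀ : ℂ) ^ (j * s)) ∧
      HasPoleOrder (fun z : ℂ => (LinearMap.det (1 - (q₀ : ℂ) ^ (-z) • Φ))⁻¹) j
        (Module.finrank ℂ (LinearMap.ker (Φ - (q₀ : ℂ) ^ j • LinearMap.id)))

/-- ONM. One line over `F(t_1, …, t_r)`.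

Proof. LEV for all `i` gives `b'` of degree `M` with `degP b' = 2 j` and
`eigAt χ v b' = eigMV M χ v b` for every place `v` (same `b'` for all `v`); apply ONE for the
degree `M` to `b'` (`GPlace c` does not depend on the degree). -/
def Stmt_ONM : Prop :=
  ∀ (F : Type) [Field F] [Fintype F] (χ : MulChar F ℂ) (M : ℕ) [NeZero M], orderOf χ = M →
    ∀ (r : ℕ) (ι : Type) [Fintype ι] (m n : ι → ℕ), (∀ i, m i ∣ M) →
    ∀ c : ∀ i : ι, Fin (n i + 2) → MvPolynomial (Fin r) F,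
      (∀ i k, c i k ≠ 0) → ∀ (b : ∀ i, Cls (m i) (n i)) (j : ℕ), degM b = 2 * j →
      (∀ s : ℝ, (j : ℝ) + r < s → Multipliable (fun v : GPlace c =>
        (1 - eigMV M χ v b * (Fintype.card (kap v.1) : ℂ) ^ (-(s : ℂ)))⁻¹)) ∧
      ((∀ v : GPlace c, eigMV M χ v b = (Fintype.card (kap v.1) : ℂ) ^ j) →
        HasPoleOrder (fun s => ∏' v : GPlace c,
          (1 - eigMV M χ v b * (Fintype.card (kap v.1) : ℂ) ^ (-s))⁻¹) ((j : ℝ) + r) 1) ∧
      ((¬ ∀ v : GPlace c, eigMV M χ v b = (Fintype.card (kap v.1) : ℂ) ^ j) →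
        HasPoleOrder (fun s => ∏' v : GPlace c,
          (1 - eigMV M χ v b * (Fintype.card (kap v.1) : ℂ) ^ (-s))⁻¹) ((j : ℝ) + r) 0)

/-- PRO. A finite product of Euler products.

Proof. As in B_FFL.lean: product of multipliable families, product of limits; the orders add up. -/
def Stmt_PRO : Prop :=
  ∀ (V B : Type) [Fintype B] (f : B → V → ℂ → ℂ) (s₀ : ℝ) (ord : B → ℕ),
    (∀ b, ∀ s : ℝ, s₀ < s → Multipliable (fun v => f b v (s : ℂ))) →
    (∀ b, HasPoleOrder (fun s => ∏' v, f b v s) s₀ (ord b)) →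
      (∀ s : ℝ, s₀ < s → Multipliable (fun v => ∏ b, f b v (s : ℂ))) ∧
      HasPoleOrder (fun s => ∏' v, ∏ b, f b v s) s₀ (∑ b, ord b)

end Pool.FT
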